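import Pool.Agent.SND.Z7

open Finset MeasureTheory ProbabilityTheory Filter Topology

namespace SND

/-- the mean -/
noncomputable def mean (n : ℕ) : ℝ := ∫ ζ : Config n, (total ζ : ℝ) ∂(uniformOn (recSet n))

/-- the variance -/
noncomputable def vr (n : ℕ) : ℝ := Var[fun ζ : Config n => (total ζ : ℝ); uniformOn (recSet n)]

theorem integral_rec (n : ℕ) (f : Config n → ℝ) :
    ∫ ω, f ω ∂(uniformOn (recSet n)) = (∑ ω ∈ recFin n, f ω) / (recFin n).card := by
  rw [recSet_eq]
  exact integral_uniformOn_finset _ _

theorem vr_eq (n : ℕ) : vr n = (∑ ω ∈ recFin n, ((total ω : ℝ) - mean n) ^ 2) /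
    (recFin n).card := by
  unfold vr
  rw [variance_eq_integral (Measurable.of_discrete.aemeasurable), integral_rec]
  rfl

/-- the standardised variable -/
noncomputable def XX (n : ℕ) (η : Config n) : ℝ := ((total η : ℝ) - mean n) / Real.sqrt (vr n)

theorem moments (k : ℕ) : Tendsto (fun n => ∫ η, (XX n η) ^ k ∂(uniformOn (recSet n))) atTop
    (𝓝 (gm k)) := by
  obtain ⟨κ, hκ1, hκ2⟩ := kappa_exists
  obtain ⟨c, hc, hvar⟩ := variance_lower
  -- mean
  have hmean : ∀ n, κ n 1 = mean n := by
    intro n
    have hcard : (0 : ℝ) < (recFin n).card := by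
      exact_mod_cast card_pos.2 (recFin_nonempty n)
    have h := hκ1 n 0
    simp only [zero_add, pow_one, range_one, sum_singleton, Nat.choose_self, Nat.cast_one, one_mul,
      Nat.sub_self, pow_zero, sum_const, nsmul_eq_mul, mul_one] at h
    rw [div_self hcard.ne', mul_one] at h
    rw [← h]
    unfold mean
    rw [integral_rec]
  have hcen := fun n k => centered_rec (recFin n) (fun η => (total η : ℝ)) (κ n) (hκ1 n) k
  have hrec0 : ∀ n, (∑ ω ∈ recFin n, ((total ω : ℝ) - κ n 1) ^ 0) / ((recFin n).card : ℝ) = 1 := by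
    intro n
    have hcard : (0 : ℝ) < (recFin n).card := by
      exact_mod_cast card_pos.2 (recFin_nonempty n)
    simp only [pow_zero, sum_const, nsmul_eq_mul, mul_one]
    exact div_self hcard.ne'
  have hvr : ∀ n, κ n 2 = vr n := by
    intro n
    have h := hcen n 1
    simp only [Icc_self, sum_singleton, Nat.choose_self, Nat.cast_one, one_mul, Nat.sub_self] at h
    rw [hrec0 n, mul_one] at h
    rw [vr_eq, ← h, hmean n]
  have hlow : ∀ n : ℕ, 3 ≤ n → c * (n : ℝ) ^ 2 ≤ vr n := by
    intro n hn
    have hcard : (0 : ℝ) < (recFin n).card := by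
      exact_mod_cast card_pos.2 (recFin_nonempty n)
    rw [vr_eq, le_div_iff₀ hcard]
    exact hvar n hn (mean n)
  have hpos : ∀ n : ℕ, 3 ≤ n → 0 < vr n := by
    intro n hn
    have : (0 : ℝ) < n := by exact_mod_cast (by omega : 0 < n)
    exact lt_of_lt_of_le (by positivity) (hlow n hn)
  have key := moments_tendsto (fun n => Real.sqrt (vr n)) (by
      filter_upwards [eventually_ge_atTop 3] with n hn
      exact Real.sqrt_pos.2 (hpos n hn))
    (fun n k => (∑ ω ∈ recFin n, ((total ω : ℝ) - κ n 1) ^ k) / (recFin n).card) κ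
    (Eventually.of_forall hrec0) (by
      filter_upwards with n
      have h := hcen n 0
      simpa using h) (by
      filter_upwards with n k
      exact hcen n k) (by
      filter_upwards [eventually_ge_atTop 3] with n hn
      rw [Real.sq_sqrt (hpos n hn).le]
      exact hvr n) (by
      intro k hk
      obtain ⟨C, hC0, hC⟩ := hκ2 k hk
      -- bound
      have hlim := LL_tendsto (3 * k + 2) (C * 2 ^ k / Real.sqrt c ^ k)
      apply squeeze_zero_norm' _ hlim
      filter_upwards [eventually_ge_atTop 3] with n hn
      have hn0 : (0 : ℝ) < n := by exact_mod_cast (by omega : 0 < n)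
      have hn1 : (1 : ℝ) ≤ n := by exact_mod_cast (by omega : 1 ≤ n)
      have hq : 0 < Real.sqrt ((n : ℝ) + 1) := Real.sqrt_pos.2 (by linarith)
      have hq2 : Real.sqrt ((n : ℝ) + 1) ^ 2 = n + 1 := Real.sq_sqrt (by linarith)
      have hcs : 0 < Real.sqrt c := Real.sqrt_pos.2 hc
      have hLn : 0 ≤ LL n := le_trans zero_le_one (est n).one_le_L
      rw [Real.norm_eq_abs, abs_div, abs_of_pos (pow_pos (Real.sqrt_pos.2 (hpos n hn)) k)]
      have h1 : Real.sqrt c * n ≤ Real.sqrt (vr n) := by
        apply Real.le_sqrt_of_sq_le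
        rw [mul_pow, Real.sq_sqrt hc.le]
        exact hlow n hn
      have h2 : (Real.sqrt c * n) ^ k ≤ Real.sqrt (vr n) ^ k :=
        pow_le_pow_left₀ (by positivity) h1 k
      have h3 : Real.sqrt ((n : ℝ) + 1) ^ (2 * k - 1) * Real.sqrt ((n : ℝ) + 1) ≤ (2 * n) ^ k := by
        rw [← pow_succ, show 2 * k - 1 + 1 = 2 * k by omega, pow_mul, hq2]
        apply pow_le_pow_left₀ (by linarith)
        linarith
      calc |κ n k| / Real.sqrt (vr n) ^ k
          ≤ (C * LL n ^ (3 * k + 2) * Real.sqrt ((n : ℝ) + 1) ^ (2 * k - 1)) /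
              (Real.sqrt c * n) ^ k := by
            apply div_le_div₀ (by positivity) (hC n) (by positivity) h2
        _ ≤ C * 2 ^ k / Real.sqrt c ^ k * LL n ^ (3 * k + 2) / Real.sqrt ((n : ℝ) + 1) := by
            rw [div_le_div_iff₀ (by positivity) hq]
            have e1 : C * 2 ^ k / Real.sqrt c ^ k * LL n ^ (3 * k + 2) * (Real.sqrt c * n) ^ k =
                C * LL n ^ (3 * k + 2) * (2 * n) ^ k := by
              rw [mul_pow, mul_pow]
              field_simp
            rw [e1, mul_assoc (C * LL n ^ (3 * k + 2))]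
            apply mul_le_mul_of_nonneg_left h3 (by positivity)) k
  refine key.congr' ?_
  filter_upwards with n
  rw [integral_rec]
  unfold XX
  simp_rw [div_pow]
  rw [← sum_div, hmean n, div_right_comm]

/-- The central limit theorem for the total sand. -/
theorem clt : TendstoInDistribution XX atTop (id : ℝ → ℝ) (fun n => uniformOn (recSet n))
    (gaussianReal 0 1) := by
  refine ⟨fun n => Measurable.of_discrete.aemeasurable, by fun_prop, ?_⟩
  rw [ProbabilityMeasure.tendsto_iff_tendsto_charFun]
  intro t
  simp only [ProbabilityMeasure.coe_mk]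
  have hmap : (gaussianReal 0 1).map (id : ℝ → ℝ) = gaussianReal 0 1 := Measure.map_id
  have hmeas : ∀ n, AEMeasurable (XX n) (uniformOn (recSet n)) :=
    fun n => Measurable.of_discrete.aemeasurable
  have h1 : charFun ((gaussianReal 0 1).map (id : ℝ → ℝ)) t = Complex.exp (-(t : ℂ) ^ 2 / 2) := by
    rw [hmap, charFun_gaussianReal]
    congr 1
    simp
    ring
  rw [h1]
  haveI : ∀ n, IsProbabilityMeasure ((uniformOn (recSet n)).map (XX n)) :=
    fun n => Measure.isProbabilityMeasure_map (hmeas n)
  apply charFun_tendsto (fun n => (uniformOn (recSet n)).map (XX n))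
  · intro n k
    rw [integrable_map_measure (by fun_prop) (hmeas n)]
    have : Integrable (fun η : Config n => (XX n η) ^ k) (uniformOn (recSet n)) := by
      rw [recSet_eq]
      unfold uniformOn ProbabilityTheory.cond
      apply Integrable.smul_measure
      · have h : ((recFin n : Finset (Config n)) : Set (Config n)) =
            ⋃ i ∈ recFin n, {i} := by
          ext x; simp
        change IntegrableOn _ _ _
        rw [h, integrableOn_finset_iUnion]
        intro i _
        rw [integrableOn_singleton_iff]
        right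
        rw [Measure.count_singleton]
        exact ENNReal.one_lt_top
      · rw [Measure.count_apply_finset, ENNReal.inv_ne_top]
        have := card_pos.2 (recFin_nonempty n)
        exact_mod_cast this.ne'
    exact this
  · intro k
    have h2 : ∀ n, ∫ x, x ^ k ∂((uniformOn (recSet n)).map (XX n)) =
        ∫ η, (XX n η) ^ k ∂(uniformOn (recSet n)) := by
      intro n
      rw [integral_map (hmeas n) (by fun_prop)]
    simp_rw [h2]
    exact moments k

end SND
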