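import Pool.Agent.SND.Defs

open Finset

namespace SND

theorem A1_adj_symm {n : ℕ} {u v : Site n} (h : Adj u v) : Adj v u := by
  unfold Adj at *
  rcases h with ⟨h1, h2⟩ | ⟨h1, h2⟩
  · exact Or.inl ⟨h1.symm, h2.symm⟩
  · exact Or.inr ⟨h1.symm, h2.symm⟩

theorem A1_adj_irrefl {n : ℕ} (u : Site n) : ¬ Adj u u := by
  unfold Adj
  rintro (⟨_, h2⟩ | ⟨_, h2⟩) <;> omega

theorem A1_add {n : ℕ} {η : Config n} (h : NoFSC η) (a : Config n) : NoFSC (η + a) := by
  intro X hX
  obtain ⟨v, hv, hc⟩ := h X hX
  exact ⟨v, hv, le_trans hc (Nat.le_add_right _ _)⟩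

theorem A1_topple {n : ℕ} {η : Config n} (h : NoFSC η) (w : Site n) : NoFSC (topple η w) := by
  classical
  intro X hX
  by_cases hw : w ∈ X
  · by_cases hne : (X.erase w).Nonempty
    · obtain ⟨v, hv, hc⟩ := h _ hne
      have hvw : v ≠ w := (Finset.mem_erase.1 hv).1
      have hvX : v ∈ X := (Finset.mem_erase.1 hv).2
      refine ⟨v, hvX, ?_⟩
      by_cases hadj : Adj w v
      · have h1 : topple η w v = η v + 1 := by
          unfold topple
          rw [if_neg hvw, if_pos hadj]
        rw [h1]
        have h2 : X.filter (fun u => Adj v u) ⊆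
            insert w ((X.erase w).filter (fun u => Adj v u)) := by
          intro u hu
          obtain ⟨hu1, hu2⟩ := Finset.mem_filter.1 hu
          by_cases huw : u = w
          · rw [huw]; exact Finset.mem_insert_self _ _
          · exact Finset.mem_insert_of_mem
              (Finset.mem_filter.2 ⟨Finset.mem_erase.2 ⟨huw, hu1⟩, hu2⟩)
        calc (X.filter (fun u => Adj v u)).card
            ≤ (insert w ((X.erase w).filter (fun u => Adj v u))).card := Finset.card_le_card h2
          _ ≤ ((X.erase w).filter (fun u => Adj v u)).card + 1 := Finset.card_insert_le _ _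
          _ ≤ η v + 1 := Nat.add_le_add_right hc 1
      · have h1 : topple η w v = η v := by
          unfold topple
          rw [if_neg hvw, if_neg hadj]
        rw [h1]
        have h2 : X.filter (fun u => Adj v u) ⊆ (X.erase w).filter (fun u => Adj v u) := by
          intro u hu
          obtain ⟨hu1, hu2⟩ := Finset.mem_filter.1 hu
          have huw : u ≠ w := by
            rintro rfl
            exact hadj (A1_adj_symm hu2)
          exact Finset.mem_filter.2 ⟨Finset.mem_erase.2 ⟨huw, hu1⟩, hu2⟩
        exact le_trans (Finset.card_le_card h2) hc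
    · refine ⟨w, hw, ?_⟩
      have h1 : X.filter (fun u => Adj w u) = ∅ := by
        rw [Finset.filter_eq_empty_iff]
        intro u hu hadj
        have huw : u ≠ w := by
          rintro rfl
          exact A1_adj_irrefl _ hadj
        exact hne ⟨u, Finset.mem_erase.2 ⟨huw, hu⟩⟩
      rw [h1, Finset.card_empty]
      exact Nat.zero_le _
  · obtain ⟨v, hv, hc⟩ := h X hX
    refine ⟨v, hv, le_trans hc ?_⟩
    have hvw : v ≠ w := by
      rintro rfl
      exact hw hv
    unfold topple
    rw [if_neg hvw]
    split_ifs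
    · exact Nat.le_succ _
    · exact le_rfl

theorem A1_three (n : ℕ) : NoFSC (fun _ => 3 : Config n) := by
  classical
  intro X hX
  obtain ⟨v, hv, hmin⟩ := Finset.exists_min_image X (fun u => (u.1 : ℕ)) hX
  refine ⟨v, hv, ?_⟩
  have h1 : (X.filter (fun u => Adj v u)).card ≤
      ({((v.1 : ℕ), (v.2 : ℕ) + 1), ((v.1 : ℕ), (v.2 : ℕ) - 1), ((v.1 : ℕ) + 1, (v.2 : ℕ))} :
        Finset (ℕ × ℕ)).card := by
    refine Finset.card_le_card_of_injOn (fun u : Site n => ((u.1 : ℕ), (u.2 : ℕ))) ?_ ?_
    · intro u hu
      obtain ⟨hu1, hu2⟩ := Finset.mem_filter.1 hu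
      have h2 : (v.1 : ℕ) ≤ u.1 := hmin u hu1
      simp only [Finset.coe_insert, Finset.coe_singleton, Set.mem_insert_iff,
        Set.mem_singleton_iff, Prod.mk.injEq]
      rcases hu2 with ⟨h3, h4 | h4⟩ | ⟨h3, h4 | h4⟩
      · left
        exact ⟨by rw [h3], h4.symm⟩
      · right; left
        exact ⟨by rw [h3], by omega⟩
      · right; right
        exact ⟨h4.symm, by rw [h3]⟩
      · exfalso
        omega
    · intro u _ u' _ h
      simp only [Prod.mk.injEq] at h
      exact Prod.ext (Fin.ext h.1) (Fin.ext h.2)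
  exact le_trans h1 Finset.card_le_three

/-- ROW SND-A1. A recurrent configuration has no forbidden subconfiguration.

Proof. (a) `NoFSC` is preserved by adding grains (`NoFSC η → NoFSC (η + a)`, trivial) and by legal
topplings: let `4 ≤ η w`, `η' = topple η w`, `X` nonempty. If `w ∉ X`, then `η ≤ η'` on `X`, use
the witness of `η`. If `X = {w}`: the filter of the neighbours of `w` in `{w}` is empty (`¬ Adj w w`),
`0 ≤ η' w`. If `w ∈ X` and `X.erase w` is nonempty: take the witness `v ∈ X.erase w` for `η` and
`X.erase w`; the number of neighbours of `v` in `X` is at most that in `X.erase w` plus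
(1 if `Adj v w`), and `η' v = η v + (1 if Adj w v)`. (`Adj` is symmetric.)
Hence `NoFSC` is preserved along `Relation.ReflTransGen Step` (induction).
(b) The configuration `η₀ = fun _ => 3` satisfies `NoFSC`: for nonempty `X` take `v ∈ X` with
`v.1` minimal: a neighbour `u ∈ X` of `v` can only be `(v.1+1, v.2)`, `(v.1, v.2+1)`,
`(v.1, v.2-1)`: at most three (e.g. the map `u ↦ (u.1 + 1 = v.1 ...)`, or: the filter is
contained in a set of three elements; any argument is fine).
(c) Apply the definition of `Recurrent ξ` to `η₀`: `StabilisesTo (η₀ + a) ξ`. -/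
theorem noFSC_of_recurrent {n : ℕ} {ξ : Config n} (h : Recurrent ξ) : NoFSC ξ := by
  obtain ⟨a, hreach, -⟩ := h.2 (fun _ => 3)
  clear h
  have h0 : NoFSC ((fun _ => 3 : Config n) + a) := A1_add (A1_three n) a
  induction hreach with
  | refl => exact h0
  | tail _ hstep ih =>
    obtain ⟨w, -, rfl⟩ := hstep
    exact A1_topple ih w

end SND
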