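import Pool.Agent.SND.Defs

open Finset

namespace SND

theorem A2_symm {n : ℕ} {u v : Site n} (h : Adj u v) : Adj v u := by
  unfold Adj at h ⊢
  rcases h with ⟨h1, h2⟩ | ⟨h1, h2⟩
  · exact Or.inl ⟨h1.symm, h2.symm⟩
  · exact Or.inr ⟨h1.symm, h2.symm⟩

theorem A2_irrefl {n : ℕ} (v : Site n) : ¬ Adj v v := by
  unfold Adj
  rintro (⟨_, h⟩ | ⟨_, h⟩) <;> omega

theorem A2_union_le {α : Type} [DecidableEq α] (g : α → ℕ) (s t : Finset α) :
    ∑ x ∈ s ∪ t, g x ≤ ∑ x ∈ s, g x + ∑ x ∈ t, g x := by
  rw [← Finset.sum_union_inter]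
  exact Nat.le_add_right _ _

theorem A2_one_le {α : Type} (g : α → ℕ) (s : Finset α) (c : ℕ) (hs : s.card ≤ 1)
    (hg : ∀ x ∈ s, g x ≤ c) : ∑ x ∈ s, g x ≤ c := by
  refine (Finset.sum_le_card_nsmul s g c hg).trans ?_
  rw [smul_eq_mul]
  calc s.card * c ≤ 1 * c := Nat.mul_le_mul_right c hs
    _ = c := one_mul c

/-- Bound for sums over the neighbours of a site. -/
theorem A2_sum_nbr {n : ℕ} (v : Site n) (g : Site n → ℕ) (c₁ c₂ c₃ : ℕ)
    (h1 : ∀ u : Site n, u.1 = v.1 → g u ≤ c₁)
    (h2 : ∀ u : Site n, (v.1 : ℕ) + 1 = u.1 → g u ≤ c₂)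
    (h3 : ∀ u : Site n, (u.1 : ℕ) + 1 = v.1 → g u ≤ c₃) :
    ∑ u ∈ univ.filter (Adj v), g u ≤ c₁ + c₁ + (c₂ + c₃) := by
  classical
  have hsub : univ.filter (Adj v) ⊆
      (univ.filter (fun u : Site n => u.1 = v.1 ∧ (v.2 : ℕ) + 1 = u.2) ∪
       univ.filter (fun u : Site n => u.1 = v.1 ∧ (u.2 : ℕ) + 1 = v.2)) ∪
      (univ.filter (fun u : Site n => u.2 = v.2 ∧ (v.1 : ℕ) + 1 = u.1) ∪
       univ.filter (fun u : Site n => u.2 = v.2 ∧ (u.1 : ℕ) + 1 = v.1)) := by
    intro u hu
    have hu' := (Finset.mem_filter.1 hu).2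
    unfold Adj at hu'
    simp only [Finset.mem_union, Finset.mem_filter, Finset.mem_univ, true_and]
    rcases hu' with ⟨h, h' | h'⟩ | ⟨h, h' | h'⟩
    · exact Or.inl (Or.inl ⟨h.symm, h'⟩)
    · exact Or.inl (Or.inr ⟨h.symm, h'⟩)
    · exact Or.inr (Or.inl ⟨h.symm, h'⟩)
    · exact Or.inr (Or.inr ⟨h.symm, h'⟩)
  refine (Finset.sum_le_sum_of_subset hsub).trans ?_
  refine (A2_union_le g _ _).trans ?_
  refine add_le_add ((A2_union_le g _ _).trans (add_le_add ?_ ?_))
    ((A2_union_le g _ _).trans (add_le_add ?_ ?_))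
  · refine A2_one_le g _ _ ?_ ?_
    · rw [Finset.card_le_one]
      intro a ha b hb
      have ha' := (Finset.mem_filter.1 ha).2
      have hb' := (Finset.mem_filter.1 hb).2
      refine Prod.ext (ha'.1.trans hb'.1.symm) (Fin.ext ?_)
      omega
    · intro u hu
      exact h1 u (Finset.mem_filter.1 hu).2.1
  · refine A2_one_le g _ _ ?_ ?_
    · rw [Finset.card_le_one]
      intro a ha b hb
      have ha' := (Finset.mem_filter.1 ha).2
      have hb' := (Finset.mem_filter.1 hb).2
      refine Prod.ext (ha'.1.trans hb'.1.symm) (Fin.ext ?_)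
      omega
    · intro u hu
      exact h1 u (Finset.mem_filter.1 hu).2.1
  · refine A2_one_le g _ _ ?_ ?_
    · rw [Finset.card_le_one]
      intro a ha b hb
      have ha' := (Finset.mem_filter.1 ha).2
      have hb' := (Finset.mem_filter.1 hb).2
      refine Prod.ext (Fin.ext ?_) (ha'.1.trans hb'.1.symm)
      omega
    · intro u hu
      exact h2 u (Finset.mem_filter.1 hu).2.2
  · refine A2_one_le g _ _ ?_ ?_
    · rw [Finset.card_le_one]
      intro a ha b hb
      have ha' := (Finset.mem_filter.1 ha).2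
      have hb' := (Finset.mem_filter.1 hb).2
      refine Prod.ext (Fin.ext ?_) (ha'.1.trans hb'.1.symm)
      omega
    · intro u hu
      exact h3 u (Finset.mem_filter.1 hu).2.2

theorem A2_card_nbr {n : ℕ} (v : Site n) : (univ.filter (Adj v)).card ≤ 4 := by
  have := A2_sum_nbr v (fun _ => 1) 1 1 1 (fun _ _ => le_rfl) (fun _ _ => le_rfl)
    (fun _ _ => le_rfl)
  rw [Finset.card_eq_sum_ones]
  exact this

theorem A2_key {n : ℕ} {ξ : Config n} (h : NoFSC ξ) : ∀ (N : ℕ) (η : Config n) (f : Site n → ℕ),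
    ∑ v, f v = N →
    (∀ v, (η v : ℤ) = ξ v + 4 * f v - ∑ u ∈ univ.filter (Adj v), (f u : ℤ)) →
    Relation.ReflTransGen Step η ξ := by
  classical
  intro N
  induction N with
  | zero =>
    intro η f hf hη
    have hf0 : ∀ v, f v = 0 := by
      intro v
      exact (Finset.sum_eq_zero_iff.1 hf) v (Finset.mem_univ v)
    have : η = ξ := by
      funext v
      have h1 := hη v
      simp only [hf0] at h1
      simp at h1
      exact h1
    rw [this]
  | succ N ih =>
    intro η f hf hη
    have hne : (Finset.univ : Finset (Site n)).Nonempty := by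
      by_contra hne
      rw [Finset.not_nonempty_iff_eq_empty] at hne
      rw [hne, Finset.sum_empty] at hf
      exact absurd hf (Nat.succ_ne_zero N).symm
    obtain ⟨v₀, -, hv₀⟩ := Finset.exists_max_image Finset.univ f hne
    have hM1 : 1 ≤ f v₀ := by
      by_contra hlt
      have h0 : ∀ v ∈ (Finset.univ : Finset (Site n)), f v = 0 := by
        intro v hv
        have := hv₀ v hv
        omega
      rw [Finset.sum_eq_zero h0] at hf
      omega
    obtain ⟨v, hvW, hv⟩ := h (univ.filter (fun v => f v = f v₀))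
      ⟨v₀, Finset.mem_filter.2 ⟨Finset.mem_univ _, rfl⟩⟩
    have hvM : f v = f v₀ := (Finset.mem_filter.1 hvW).2
    have hcard := A2_card_nbr v
    have hfilt : (univ.filter (fun v => f v = f v₀)).filter (fun u => Adj v u) =
        (univ.filter (Adj v)).filter (fun u => f u = f v₀) := by
      ext u
      simp only [Finset.mem_filter, Finset.mem_univ, true_and]
      exact and_comm
    rw [hfilt] at hv
    have hsplit := Finset.card_filter_add_card_filter_not (s := univ.filter (Adj v))
      (fun u => f u = f v₀)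
    have hsum : ∑ u ∈ univ.filter (Adj v), (f u : ℤ) ≤
        (f v₀ : ℤ) * ((univ.filter (Adj v)).filter (fun u => f u = f v₀)).card +
        ((f v₀ : ℤ) - 1) * ((univ.filter (Adj v)).filter (fun u => ¬ f u = f v₀)).card := by
      rw [← Finset.sum_filter_add_sum_filter_not (univ.filter (Adj v)) (fun u => f u = f v₀)]
      refine add_le_add ?_ ?_
      · rw [mul_comm, ← nsmul_eq_mul]
        refine Finset.sum_le_card_nsmul _ _ _ (fun u hu => ?_)
        rw [(Finset.mem_filter.1 hu).2]
      · rw [mul_comm, ← nsmul_eq_mul]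
        refine Finset.sum_le_card_nsmul _ _ _ (fun u hu => ?_)
        have h1 := (Finset.mem_filter.1 hu).2
        have h2 := hv₀ u (Finset.mem_univ u)
        omega
    set p := ((univ.filter (Adj v)).filter (fun u => f u = f v₀)).card with hp
    set q := ((univ.filter (Adj v)).filter (fun u => ¬ f u = f v₀)).card with hq
    have h4 : 4 ≤ η v := by
      have h1 := hη v
      rw [hvM] at h1
      have hpq : (p : ℤ) + q ≤ 4 := by
        have : p + q ≤ 4 := by omega
        exact_mod_cast this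
      have hM : (1 : ℤ) ≤ (f v₀ : ℤ) := by exact_mod_cast hM1
      have hvp : (p : ℤ) ≤ ξ v := by exact_mod_cast hv
      have h2 : (f v₀ : ℤ) * p + ((f v₀ : ℤ) - 1) * q ≤ 4 * f v₀ - 4 + p := by
        nlinarith
      have : (4 : ℤ) ≤ η v := by linarith
      exact_mod_cast this
    refine Relation.ReflTransGen.head (b := topple η v) ⟨v, h4, rfl⟩ ?_
    refine ih (topple η v) (fun u => if u = v then f u - 1 else f u) ?_ ?_
    · have h1 : ∑ u, (if u = v then f u - 1 else f u) + 1 = ∑ u, f u := by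
        rw [← Finset.add_sum_erase _ _ (Finset.mem_univ v),
          ← Finset.add_sum_erase _ (fun u => f u) (Finset.mem_univ v), if_pos rfl]
        have h2 : ∑ u ∈ univ.erase v, (if u = v then f u - 1 else f u) =
            ∑ u ∈ univ.erase v, f u :=
          Finset.sum_congr rfl (fun u hu => if_neg (Finset.ne_of_mem_erase hu))
        rw [h2]
        omega
      omega
    · intro u
      have hcast : ∀ w, (((if w = v then f w - 1 else f w : ℕ)) : ℤ) =
          (f w : ℤ) - (if w = v then 1 else 0) := by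
        intro w
        split_ifs with hw
        · rw [hw]
          have : 1 ≤ f v := by omega
          push_cast [this]
          ring
        · ring
      simp only [hcast]
      rw [Finset.sum_sub_distrib]
      have hind : ∑ w ∈ univ.filter (Adj u), (if w = v then (1 : ℤ) else 0) =
          if Adj v u then 1 else 0 := by
        rw [Finset.sum_ite_eq']
        by_cases hvu : Adj v u
        · rw [if_pos hvu, if_pos (Finset.mem_filter.2 ⟨Finset.mem_univ _, A2_symm hvu⟩)]
        · rw [if_neg hvu, if_neg (fun hm => hvu (A2_symm (Finset.mem_filter.1 hm).2))]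
      rw [hind]
      have h1 := hη u
      unfold topple
      by_cases huv : u = v
      · subst huv
        rw [if_pos rfl, if_pos rfl, if_neg (A2_irrefl u)]
        push_cast [h4]
        linarith
      · rw [if_neg huv, if_neg huv]
        by_cases hvu : Adj v u
        · rw [if_pos hvu, if_pos hvu]
          push_cast
          linarith
        · rw [if_neg hvu, if_neg hvu]
          linarith

/-- ROW SND-A2. A stable configuration without forbidden subconfiguration is recurrent.

Proof. For `f : Site n → ℕ` put `Lf v = 4 * f v - ∑_{u, Adj v u} f u` (an integer).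
(a) KEY: if `ξ` is `NoFSC` and `η : Config n`, `f : Site n → ℕ` satisfy
`∀ v, (η v : ℤ) = ξ v + 4 * f v - ∑ u ∈ univ.filter (Adj v), f u`, then
`Relation.ReflTransGen Step η ξ`. Induction on `∑ v, f v`. If the sum is `0`, then `η = ξ`.
Otherwise let `M = max f ≥ 1`, `W = {v | f v = M}` (nonempty), and let `v ∈ W` be the witness of
`NoFSC` for `W`: `#{u ∈ W | Adj v u} ≤ ξ v`. The neighbours of `v` in the box which are not in
`W` have `f ≤ M - 1`, and `v` has at most `4` neighbours, so
`η v ≥ ξ v + 4 M - M #{nbrs in W} - (M-1) #{nbrs not in W}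
     = ξ v + M (4 - #nbrs) + #{nbrs not in W} ≥ ξ v + (4 - #nbrs) + #{nbrs not in W}
     = ξ v + 4 - #{nbrs in W} ≥ 4`  (using `M ≥ 1`).
So `Step η (topple η v)`, and `topple η v` satisfies the hypothesis with `f - 1_v`; use the
induction hypothesis (`Relation.ReflTransGen.head`).
(b) Given `η : Config n`, let `K = ∑ v, η v` (so `η v ≤ K`) and
`f v = K * ((v.1 + 1) * (n - v.1))` (natural numbers; `v.1 : ℕ < n`). Then `Lf v ≥ K`:
writing `i = v.1 + 1 ∈ {1..n}`, `F i = K i (n + 1 - i)`, with `F 0 = F (n+1) = 0`,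
`Lf v = 2 F i - F (i-1) - F (i+1) + (2 - number of horizontal neighbours in the box) F i
  ≥ 2 F i - F (i-1) - F (i+1) = 2 K`
(neighbours in the same row `v.1` have the same value of `f`; there are at most two of them; the
missing neighbours in the vertical direction have `F = 0`.) Hence `η v ≤ K ≤ ξ v + Lf v`, define
`a v = (ξ v + Lf v - η v).toNat`; then `η + a` satisfies the hypothesis of (a). -/
theorem recurrent_of_noFSC {n : ℕ} {ξ : Config n} (hs : Stable ξ) (h : NoFSC ξ) :
    Recurrent ξ := by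
  classical
  refine ⟨hs, fun η => ?_⟩
  set K : ℕ := ∑ v, η v with hK
  have hηK : ∀ v, η v ≤ K := fun v => Finset.single_le_sum (fun _ _ => Nat.zero_le _)
    (Finset.mem_univ v)
  let f : Site n → ℕ := fun v => K * (((v.1 : ℕ) + 1) * (n - v.1))
  have hfdef : ∀ v, f v = K * (((v.1 : ℕ) + 1) * (n - v.1)) := fun v => rfl
  have hL : ∀ v, (K : ℤ) ≤ 4 * f v - ∑ u ∈ univ.filter (Adj v), (f u : ℤ) := by
    intro v
    have hvn : (v.1 : ℕ) < n := v.1.2
    have h1 := A2_sum_nbr v f (f v) (K * (((v.1 : ℕ) + 2) * (n - (v.1 + 1))))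
      (K * ((v.1 : ℕ) * (n + 1 - v.1)))
      (fun u hu => by rw [hfdef, hfdef, hu])
      (fun u hu => by rw [hfdef, ← hu])
      (fun u hu => by
        rw [hfdef, ← hu]
        apply le_of_eq
        congr 2
        omega)
    have h2 : (∑ u ∈ univ.filter (Adj v), (f u : ℤ)) ≤
        (f v : ℤ) + f v + (K * (((v.1 : ℕ) + 2) * (n - (v.1 + 1) : ℕ)) +
        K * ((v.1 : ℕ) * (n + 1 - v.1 : ℕ))) := by
      have := h1
      have h3 : ((∑ u ∈ univ.filter (Adj v), f u : ℕ) : ℤ) ≤ ((f v + f v +
        (K * (((v.1 : ℕ) + 2) * (n - (v.1 + 1))) + K * ((v.1 : ℕ) * (n + 1 - v.1))) : ℕ) : ℤ) := by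
        exact_mod_cast this
      rw [Nat.cast_sum] at h3
      refine h3.trans (le_of_eq ?_)
      push_cast
      ring
    have h3 : ((n - (v.1 + 1) : ℕ) : ℤ) = (n : ℤ) - (v.1 : ℕ) - 1 := by
      push_cast [Nat.succ_le_of_lt hvn]
      omega
    have h4 : ((n + 1 - v.1 : ℕ) : ℤ) = (n : ℤ) - (v.1 : ℕ) + 1 := by
      omega
    have h5 : (f v : ℤ) = K * (((v.1 : ℕ) + 1) * ((n : ℤ) - (v.1 : ℕ))) := by
      rw [hfdef]
      push_cast [hvn.le]
      ring
    rw [h3, h4] at h2
    have h6 : (0 : ℤ) ≤ K := Int.natCast_nonneg K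
    nlinarith
  let a : Config n := fun v =>
    ((ξ v : ℤ) + (4 * f v - ∑ u ∈ univ.filter (Adj v), (f u : ℤ)) - η v).toNat
  have ha : ∀ v, (a v : ℤ) =
      (ξ v : ℤ) + (4 * f v - ∑ u ∈ univ.filter (Adj v), (f u : ℤ)) - η v := by
    intro v
    apply Int.toNat_of_nonneg
    have h1 := hL v
    have h2 : (η v : ℤ) ≤ K := by exact_mod_cast hηK v
    have h3 : (0 : ℤ) ≤ ξ v := Int.natCast_nonneg _
    linarith
  refine ⟨a, A2_key h _ (η + a) f rfl (fun v => ?_), hs⟩
  rw [Pi.add_apply, Nat.cast_add, ha v]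
  ring

end SND
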