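import Pool.Agent.SND.Defs

open Finset

set_option linter.unusedSectionVars false

namespace SND

variable {V E : Type} [Fintype V] [DecidableEq V] [Fintype E] [DecidableEq E]

lemma B1_mem_recG (ends : E → Finset V) (X : Finset V) (F : Finset E) (η : V → ℕ) :
    η ∈ recG ends X F ↔ (∀ v ∈ X, η v < degF ends F v) ∧ (∀ v, v ∉ X → η v = 0) ∧
      ∀ Y ⊆ X, Y.Nonempty → ∃ v ∈ Y, degIn ends Y v ≤ η v := by
  classical
  unfold recG
  rw [Finset.mem_filter, Fintype.mem_piFinset]
  constructor
  · rintro ⟨h1, h2⟩
    refine ⟨fun v hv => ?_, fun v hv => ?_, h2⟩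
    · have := h1 v
      rw [if_pos hv] at this
      exact Finset.mem_range.mp this
    · have := h1 v
      rw [if_neg hv] at this
      exact Finset.mem_singleton.mp this
  · rintro ⟨h1, h2, h3⟩
    refine ⟨fun v => ?_, h3⟩
    by_cases hv : v ∈ X
    · rw [if_pos hv]
      exact Finset.mem_range.mpr (h1 v hv)
    · rw [if_neg hv]
      exact Finset.mem_singleton.mpr (h2 v hv)

lemma B1_deg_erase_ne (ends : E → Finset V) (F : Finset E) (e : E) (u : V)
    (hu : u ∉ ends e) : degF ends (F.erase e) u = degF ends F u := by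
  unfold degF
  congr 1
  ext f
  simp only [Finset.mem_filter, Finset.mem_erase]
  constructor
  · rintro ⟨⟨-, h⟩, h'⟩; exact ⟨h, h'⟩
  · rintro ⟨h, h'⟩
    exact ⟨⟨fun hfe => hu (hfe ▸ h'), h⟩, h'⟩

lemma B1_deg_erase (ends : E → Finset V) (F : Finset E) (e : E) (he : e ∈ F) (v : V)
    (hv : v ∈ ends e) : degF ends (F.erase e) v = degF ends F v - 1 := by
  unfold degF
  rw [Finset.filter_erase, Finset.card_erase_of_mem]
  exact Finset.mem_filter.mpr ⟨he, hv⟩

lemma B1_deg_pos (ends : E → Finset V) (F : Finset E) (e : E) (he : e ∈ F) (v : V)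
    (hv : v ∈ ends e) : 0 < degF ends F v :=
  Finset.card_pos.mpr ⟨e, Finset.mem_filter.mpr ⟨he, hv⟩⟩

section step

variable (ends : E → Finset V) (hends : ∀ e, (ends e).card ≤ 2)
    (X : Finset V) (F : Finset E) (hF : ∀ e, (ends e ∩ X).card = 2 → e ∈ F)
    {R : Type} [CommRing R] (z : R) (e : E) (he : e ∈ F) (v : V) (hv : ends e ∩ X = {v})

include hv in
lemma B1_v_mem : v ∈ ends e ∧ v ∈ X := by
  have : v ∈ ends e ∩ X := by rw [hv]; exact Finset.mem_singleton_self v
  exact Finset.mem_inter.mp this

include hv in
lemma B1_not_mem (u : V) (hu : u ∈ X) (huv : u ≠ v) : u ∉ ends e := by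
  intro h
  have : u ∈ ends e ∩ X := Finset.mem_inter.mpr ⟨h, hu⟩
  rw [hv] at this
  exact huv (Finset.mem_singleton.mp this)

include hends hF he hv in
lemma B1_degIn_lt (Y : Finset V) (hY : Y ⊆ X) : degIn ends Y v ≤ degF ends F v - 1 := by
  unfold degIn degF
  have hmem : e ∈ F.filter (fun e => v ∈ ends e) :=
    Finset.mem_filter.mpr ⟨he, (B1_v_mem ends X e v hv).1⟩
  rw [← Finset.card_erase_of_mem hmem]
  refine Finset.card_le_card fun f hf => ?_
  rw [Finset.mem_filter] at hf
  obtain ⟨-, h1, h2⟩ := hf
  have h3 : (ends f ∩ Y).card ≤ (ends f ∩ X).card :=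
    Finset.card_le_card (Finset.inter_subset_inter_left hY)
  have h4 : (ends f ∩ X).card ≤ (ends f).card := Finset.card_le_card Finset.inter_subset_left
  have h5 := hends f
  have h6 : (ends f ∩ X).card = 2 := by omega
  rw [Finset.mem_erase, Finset.mem_filter]
  refine ⟨?_, hF f h6, h1⟩
  rintro rfl
  rw [hv, Finset.card_singleton] at h6
  omega

include hends hF he hv in
lemma B1_step_rec : ∑ η ∈ recG ends X F, (1 + z) ^ (∑ u ∈ X, η u) =
    ∑ η ∈ recG ends X (F.erase e), (1 + z) ^ (∑ u ∈ X, η u) +
      (1 + z) ^ (degF ends F v - 1) *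
        ∑ η ∈ recG ends (X.erase v) F, (1 + z) ^ (∑ u ∈ X.erase v, η u) := by
  classical
  obtain ⟨hve, hvX⟩ := B1_v_mem ends X e v hv
  have hdeg : degF ends (F.erase e) v = degF ends F v - 1 := B1_deg_erase ends F e he v hve
  have hdegne : ∀ u ∈ X, u ≠ v → degF ends (F.erase e) u = degF ends F u := fun u hu huv =>
    B1_deg_erase_ne ends F e u (B1_not_mem ends X e v hv u hu huv)
  have hpos := B1_deg_pos ends F e he v hve
  rw [← Finset.sum_filter_add_sum_filter_not (recG ends X F)
    (fun η => η v < degF ends F v - 1)]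
  congr 1
  · refine Finset.sum_congr ?_ fun _ _ => rfl
    ext η
    rw [Finset.mem_filter, B1_mem_recG, B1_mem_recG]
    constructor
    · rintro ⟨⟨h1, h2, h3⟩, h4⟩
      refine ⟨fun u hu => ?_, h2, h3⟩
      by_cases huv : u = v
      · rw [huv, hdeg]; exact h4
      · rw [hdegne u hu huv]; exact h1 u hu
    · rintro ⟨h1, h2, h3⟩
      have h4 := h1 v hvX
      rw [hdeg] at h4
      refine ⟨⟨fun u hu => ?_, h2, h3⟩, h4⟩
      by_cases huv : u = v
      · rw [huv]; omega
      · rw [← hdegne u hu huv]; exact h1 u hu
  · rw [Finset.mul_sum]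
    refine Finset.sum_bij' (fun η _ => Function.update η v 0)
      (fun η _ => Function.update η v (degF ends F v - 1)) ?_ ?_ ?_ ?_ ?_
    · intro η hη
      rw [Finset.mem_filter, B1_mem_recG] at hη
      obtain ⟨⟨h1, h2, h3⟩, -⟩ := hη
      rw [B1_mem_recG]
      refine ⟨fun u hu => ?_, fun u hu => ?_, fun Y hY hYne => ?_⟩
      · rw [Finset.mem_erase] at hu
        rw [Function.update_of_ne hu.1]
        exact h1 u hu.2
      · by_cases huv : u = v
        · rw [huv, Function.update_self]
        · rw [Function.update_of_ne huv]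
          exact h2 u (fun hu' => hu (Finset.mem_erase.mpr ⟨huv, hu'⟩))
      · obtain ⟨u, huY, hu⟩ := h3 Y (hY.trans (Finset.erase_subset _ _)) hYne
        refine ⟨u, huY, ?_⟩
        rw [Function.update_of_ne (Finset.mem_erase.mp (hY huY)).1]
        exact hu
    · intro η hη
      rw [B1_mem_recG] at hη
      obtain ⟨h1, h2, h3⟩ := hη
      rw [Finset.mem_filter, B1_mem_recG, Function.update_self]
      refine ⟨⟨fun u hu => ?_, fun u hu => ?_, fun Y hY hYne => ?_⟩, lt_irrefl _⟩
      · by_cases huv : u = v
        · rw [huv, Function.update_self]; omega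
        · rw [Function.update_of_ne huv]
          exact h1 u (Finset.mem_erase.mpr ⟨huv, hu⟩)
      · have huv : u ≠ v := fun h => hu (h ▸ hvX)
        rw [Function.update_of_ne huv]
        exact h2 u (fun hu' => hu (Finset.mem_of_mem_erase hu'))
      · by_cases hvY : v ∈ Y
        · refine ⟨v, hvY, ?_⟩
          rw [Function.update_self]
          exact B1_degIn_lt ends hends X F hF e he v hv Y hY
        · obtain ⟨u, huY, hu⟩ := h3 Y (Finset.subset_erase.mpr ⟨hY, hvY⟩) hYne
          refine ⟨u, huY, ?_⟩
          rw [Function.update_of_ne (fun h : u = v => hvY (h ▸ huY))]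
          exact hu
    · intro η hη
      rw [Finset.mem_filter, B1_mem_recG] at hη
      obtain ⟨⟨h1, -, -⟩, h4⟩ := hη
      have h5 := h1 v hvX
      have h6 : degF ends F v - 1 = η v := by omega
      rw [Function.update_idem, h6, Function.update_eq_self]
    · intro η hη
      rw [B1_mem_recG] at hη
      obtain ⟨-, h2, -⟩ := hη
      have h6 : 0 = η v := (h2 v (Finset.notMem_erase v X)).symm
      rw [Function.update_idem, h6, Function.update_eq_self]
    · intro η hη
      rw [Finset.mem_filter, B1_mem_recG] at hη
      obtain ⟨⟨h1, -, -⟩, h4⟩ := hη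
      have h5 := h1 v hvX
      have h6 : degF ends F v - 1 = η v := by omega
      rw [← Finset.add_sum_erase X η hvX, pow_add, ← h6]
      congr 2
      refine Finset.sum_congr rfl fun u hu => ?_
      rw [Function.update_of_ne (Finset.mem_erase.mp hu).1]

include hv in
lemma B1_inter_erase (U : Finset V) (hU : U ⊆ X.erase v) : ends e ∩ U = ∅ := by
  rw [Finset.eq_empty_iff_forall_notMem]
  intro u hu
  rw [Finset.mem_inter] at hu
  have h1 := Finset.mem_erase.mp (hU hu.2)
  exact B1_not_mem ends X e v hv u h1.2 h1.1 hu.1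

include hv in
lemma B1_conn_iff (A : Finset E) (heA : e ∈ A) :
    Conn ends X A ↔ Conn ends (X.erase v) (A \ (F.filter (fun f => ends f ∩ X = {v}))) := by
  obtain ⟨hve, hvX⟩ := B1_v_mem ends X e v hv
  constructor
  · intro h U hU hne
    obtain ⟨f, hf, hcard⟩ := h U (hU.trans (Finset.erase_subset _ _)) hne
    refine ⟨f, ?_, hcard⟩
    rw [Finset.mem_sdiff, Finset.mem_filter]
    refine ⟨hf, ?_⟩
    rintro ⟨-, hfv⟩
    rw [B1_inter_erase ends X f v hfv U hU, Finset.card_empty] at hcard
    omega
  · intro h U hU hne
    by_cases hvU : v ∈ U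
    · refine ⟨e, heA, ?_⟩
      have : ends e ∩ U = {v} := by
        apply Finset.Subset.antisymm
        · rw [← hv]; exact Finset.inter_subset_inter_left hU
        · rw [Finset.singleton_subset_iff, Finset.mem_inter]; exact ⟨hve, hvU⟩
      rw [this, Finset.card_singleton]
    · obtain ⟨f, hf, hcard⟩ := h U (Finset.subset_erase.mpr ⟨hU, hvU⟩) hne
      exact ⟨f, (Finset.mem_sdiff.mp hf).1, hcard⟩

lemma B1_touch_mono {X Y : Finset V} (h : X ⊆ Y) {A : Finset E} (hA : Touch ends X A) :
    Touch ends Y A := fun e he => (hA e he).mono (Finset.inter_subset_inter_left h)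

lemma B1_touch_sdiff (A : Finset E) (hAF : A ⊆ F) (hA : Touch ends X A) :
    Touch ends (X.erase v) (A \ (F.filter (fun f => ends f ∩ X = {v}))) := by
  intro f hf
  rw [Finset.mem_sdiff, Finset.mem_filter] at hf
  obtain ⟨hfA, hf2⟩ := hf
  obtain ⟨u, hu⟩ := hA f hfA
  by_contra hcon
  rw [Finset.not_nonempty_iff_eq_empty, Finset.eq_empty_iff_forall_notMem] at hcon
  apply hf2
  refine ⟨hAF hfA, ?_⟩
  have key : ∀ w ∈ ends f ∩ X, w = v := by
    intro w hw
    by_contra hwv
    rw [Finset.mem_inter] at hw
    exact hcon w (Finset.mem_inter.mpr ⟨hw.1, Finset.mem_erase.mpr ⟨hwv, hw.2⟩⟩)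
  have huv := key u hu
  ext w
  rw [Finset.mem_singleton]
  constructor
  · exact key w
  · rintro rfl
    rw [← huv]; exact hu

open Classical in
include he hv in
lemma B1_step_cc : ∑ A ∈ F.powerset.filter (fun A => Touch ends X A ∧ Conn ends X A),
          z ^ A.card =
    ∑ A ∈ (F.erase e).powerset.filter (fun A => Touch ends X A ∧ Conn ends X A), z ^ A.card +
      z * (1 + z) ^ ((F.filter (fun f => ends f ∩ X = {v})).card - 1) *
      ∑ A ∈ F.powerset.filter (fun A => Touch ends (X.erase v) A ∧ Conn ends (X.erase v) A),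
          z ^ A.card := by
  set P := F.filter (fun f => ends f ∩ X = {v}) with hP
  have heP : e ∈ P := Finset.mem_filter.mpr ⟨he, hv⟩
  have hPF : P ⊆ F := Finset.filter_subset _ _
  have hsum : ∑ L ∈ (P.erase e).powerset, z ^ L.card = (1 + z) ^ (P.card - 1) := by
    have h1 := Finset.sum_pow_mul_eq_add_pow z 1 (P.erase e)
    simp only [one_pow, mul_one] at h1
    rw [h1, Finset.card_erase_of_mem heP, add_comm]
  rw [← Finset.sum_filter_add_sum_filter_not (F.powerset.filter _) (fun A => e ∉ A)]
  congr 1
  · refine Finset.sum_congr ?_ fun _ _ => rfl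
    ext A
    simp only [Finset.mem_filter, Finset.mem_powerset, Finset.subset_erase]
    tauto
  · rw [← hsum, mul_assoc, Finset.sum_mul_sum, ← Finset.sum_product', Finset.mul_sum]
    have hdisj : ∀ A : Finset E, A ⊆ F → Touch ends (X.erase v) A → Disjoint A P := by
      intro A _ hA
      rw [Finset.disjoint_left]
      intro f hfA hfP
      have h1 := hA f hfA
      rw [B1_inter_erase ends X f v (Finset.mem_filter.mp hfP).2 _ (le_refl _)] at h1
      exact Finset.not_nonempty_empty h1
    refine Finset.sum_bij' (fun A _ => ((A ∩ P).erase e, A \ P))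
      (fun p _ => insert e p.1 ∪ p.2) ?_ ?_ ?_ ?_ ?_
    · intro A hA
      simp only [Finset.mem_filter, Finset.mem_powerset, not_not] at hA
      obtain ⟨⟨hAF, hT, hC⟩, heA⟩ := hA
      simp only [Finset.mem_product, Finset.mem_filter, Finset.mem_powerset]
      refine ⟨Finset.erase_subset_erase _ Finset.inter_subset_right,
        Finset.sdiff_subset.trans hAF, B1_touch_sdiff ends X F v A hAF hT,
        (B1_conn_iff ends X F e v hv A heA).mp hC⟩
    · rintro ⟨L, A⟩ hLA
      simp only [Finset.mem_product, Finset.mem_filter, Finset.mem_powerset] at hLA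
      obtain ⟨hL, hAF, hT, hC⟩ := hLA
      have hLP : insert e L ⊆ P := Finset.insert_subset heP (hL.trans (Finset.erase_subset _ _))
      have hd := hdisj A hAF hT
      have hsd : (insert e L ∪ A) \ P = A := by
        ext f
        rw [Finset.mem_sdiff, Finset.mem_union]
        constructor
        · rintro ⟨h1 | h1, h2⟩
          · exact absurd (hLP h1) h2
          · exact h1
        · intro h
          exact ⟨Or.inr h, Finset.disjoint_left.mp hd h⟩
      have heU : e ∈ insert e L ∪ A := Finset.mem_union_left _ (Finset.mem_insert_self _ _)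
      simp only [Finset.mem_filter, Finset.mem_powerset, not_not]
      refine ⟨⟨Finset.union_subset (hLP.trans hPF) hAF, ?_, ?_⟩, heU⟩
      · intro f hf
        rcases Finset.mem_union.mp hf with h1 | h1
        · rw [(Finset.mem_filter.mp (hLP h1)).2]
          exact Finset.singleton_nonempty v
        · exact B1_touch_mono ends (Finset.erase_subset v X) hT f h1
      · rw [B1_conn_iff ends X F e v hv _ heU]
        rw [← hP, hsd]
        exact hC
    · intro A hA
      simp only [Finset.mem_filter, Finset.mem_powerset, not_not] at hA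
      obtain ⟨-, heA⟩ := hA
      show insert e ((A ∩ P).erase e) ∪ A \ P = A
      rw [Finset.insert_erase (Finset.mem_inter.mpr ⟨heA, heP⟩)]
      ext f
      simp only [Finset.mem_union, Finset.mem_inter, Finset.mem_sdiff]
      tauto
    · rintro ⟨L, A⟩ hLA
      simp only [Finset.mem_product, Finset.mem_filter, Finset.mem_powerset] at hLA
      obtain ⟨hL, hAF, hT, hC⟩ := hLA
      have hLP : insert e L ⊆ P := Finset.insert_subset heP (hL.trans (Finset.erase_subset _ _))
      have hd := hdisj A hAF hT
      have heL : e ∉ L := fun h => Finset.notMem_erase e P (hL h)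
      have h1 : (insert e L ∪ A) ∩ P = insert e L := by
        ext f
        rw [Finset.mem_inter, Finset.mem_union]
        constructor
        · rintro ⟨h1 | h1, h2⟩
          · exact h1
          · exact absurd h2 (Finset.disjoint_left.mp hd h1)
        · intro h
          exact ⟨Or.inl h, hLP h⟩
      have h2 : (insert e L ∪ A) \ P = A := by
        ext f
        rw [Finset.mem_sdiff, Finset.mem_union]
        constructor
        · rintro ⟨h1 | h1, h2⟩
          · exact absurd (hLP h1) h2
          · exact h1
        · intro h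
          exact ⟨Or.inr h, Finset.disjoint_left.mp hd h⟩
      show (((insert e L ∪ A) ∩ P).erase e, (insert e L ∪ A) \ P) = (L, A)
      rw [h1, h2, Finset.erase_insert heL]
    · intro A hA
      simp only [Finset.mem_filter, Finset.mem_powerset, not_not] at hA
      obtain ⟨-, heA⟩ := hA
      show z ^ A.card = z * (z ^ ((A ∩ P).erase e).card * z ^ (A \ P).card)
      have heAP : e ∈ A ∩ P := Finset.mem_inter.mpr ⟨heA, heP⟩
      have h1 : A.card = ((A ∩ P).erase e).card + 1 + (A \ P).card := by
        rw [Finset.card_erase_add_one heAP, Finset.card_inter_add_card_sdiff]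
      rw [h1]
      ring

include hends hF hv in
lemma B1_e2 : (univ.filter (fun e => (ends e ∩ X).card = 2)).card =
    (univ.filter (fun e => (ends e ∩ X.erase v).card = 2)).card + degIn ends X v := by
  obtain ⟨-, hvX⟩ := B1_v_mem ends X e v hv
  unfold degIn
  rw [← Finset.card_union_of_disjoint]
  · congr 1
    ext f
    simp only [Finset.mem_filter, Finset.mem_univ, true_and, Finset.mem_union]
    by_cases hvf : v ∈ ends f
    · have h1 : (ends f ∩ X.erase v).card ≤ 1 := by
        have h2 : ends f ∩ X.erase v ⊆ (ends f).erase v := by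
          intro w hw
          rw [Finset.mem_inter, Finset.mem_erase] at hw
          exact Finset.mem_erase.mpr ⟨hw.2.1, hw.1⟩
        have h3 := Finset.card_le_card h2
        rw [Finset.card_erase_of_mem hvf] at h3
        have := hends f
        omega
      constructor
      · intro h; exact Or.inr ⟨hvf, h⟩
      · rintro (h | h)
        · omega
        · exact h.2
    · have h1 : ends f ∩ X.erase v = ends f ∩ X := by
        ext w
        rw [Finset.mem_inter, Finset.mem_inter, Finset.mem_erase]
        constructor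
        · rintro ⟨h1, -, h2⟩; exact ⟨h1, h2⟩
        · rintro ⟨h1, h2⟩
          exact ⟨h1, fun h => hvf (h ▸ h1), h2⟩
      rw [h1]
      tauto
  · rw [Finset.disjoint_left]
    intro f hf hf'
    simp only [Finset.mem_filter, Finset.mem_univ, true_and] at hf hf'
    have h2 : ends f ∩ X.erase v ⊆ (ends f).erase v := by
      intro w hw
      rw [Finset.mem_inter, Finset.mem_erase] at hw
      exact Finset.mem_erase.mpr ⟨hw.2.1, hw.1⟩
    have h3 := Finset.card_le_card h2
    rw [Finset.card_erase_of_mem hf'.1] at h3
    have := hends f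
    omega

include hends hF hv in
lemma B1_degF : degF ends F v = degIn ends X v +
    (F.filter (fun f => ends f ∩ X = {v})).card := by
  obtain ⟨-, hvX⟩ := B1_v_mem ends X e v hv
  unfold degIn degF
  rw [← Finset.card_union_of_disjoint]
  · congr 1
    ext f
    simp only [Finset.mem_filter, Finset.mem_univ, true_and, Finset.mem_union]
    constructor
    · rintro ⟨hfF, hvf⟩
      have h1 : v ∈ ends f ∩ X := Finset.mem_inter.mpr ⟨hvf, hvX⟩
      have h2 : 0 < (ends f ∩ X).card := Finset.card_pos.mpr ⟨v, h1⟩
      have h3 : (ends f ∩ X).card ≤ (ends f).card := Finset.card_le_card Finset.inter_subset_left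
      have h4 := hends f
      by_cases h5 : (ends f ∩ X).card = 2
      · exact Or.inl ⟨hvf, h5⟩
      · have h6 : (ends f ∩ X).card = 1 := by omega
        obtain ⟨w, hw⟩ := Finset.card_eq_one.mp h6
        rw [hw, Finset.mem_singleton] at h1
        exact Or.inr ⟨hfF, by rw [hw, h1]⟩
    · rintro (h | h)
      · exact ⟨hF f h.2, h.1⟩
      · refine ⟨h.1, ?_⟩
        have : v ∈ ends f ∩ X := by rw [h.2]; exact Finset.mem_singleton_self v
        exact (Finset.mem_inter.mp this).1
  · rw [Finset.disjoint_left]
    intro f hf hf'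
    simp only [Finset.mem_filter, Finset.mem_univ, true_and] at hf hf'
    rw [hf'.2, Finset.card_singleton] at hf
    omega

end step

open Classical in
lemma B1_base (ends : E → Finset V) (hends : ∀ e, (ends e).card ≤ 2)
    (X : Finset V) (F : Finset E)
    (h1 : ∀ e ∈ F, (ends e ∩ X).card ≠ 1)
    {R : Type} [CommRing R] (z : R) :
    z ^ X.card * ∑ η ∈ recG ends X F, (1 + z) ^ (∑ v ∈ X, η v) =
      (1 + z) ^ (univ.filter (fun e => (ends e ∩ X).card = 2)).card *
        ∑ A ∈ F.powerset.filter (fun A => Touch ends X A ∧ Conn ends X A), z ^ A.card := by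
  rcases Finset.eq_empty_or_nonempty X with rfl | hX
  · have hrec : recG ends ∅ F = {fun _ => 0} := by
      ext η
      rw [B1_mem_recG, Finset.mem_singleton]
      constructor
      · rintro ⟨-, h, -⟩
        ext v
        exact h v (Finset.notMem_empty v)
      · rintro rfl
        refine ⟨fun v hv => absurd hv (Finset.notMem_empty v), fun _ _ => rfl, fun Y hY hYne => ?_⟩
        rw [Finset.subset_empty.mp hY] at hYne
        exact absurd hYne Finset.not_nonempty_empty
    have hA : F.powerset.filter (fun A => Touch ends ∅ A ∧ Conn ends ∅ A) = {∅} := by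
      ext A
      rw [Finset.mem_filter, Finset.mem_singleton, Finset.mem_powerset]
      constructor
      · rintro ⟨-, hT, -⟩
        rw [Finset.eq_empty_iff_forall_notMem]
        intro f hf
        have := hT f hf
        rw [Finset.inter_empty] at this
        exact Finset.not_nonempty_empty this
      · rintro rfl
        refine ⟨Finset.empty_subset _, fun e he => absurd he (Finset.notMem_empty e),
          fun U hU hUne => ?_⟩
        rw [Finset.subset_empty.mp hU] at hUne
        exact absurd hUne Finset.not_nonempty_empty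
    rw [hrec, hA]
    simp
  · have hrec : recG ends X F = ∅ := by
      rw [Finset.eq_empty_iff_forall_notMem]
      intro η hη
      rw [B1_mem_recG] at hη
      obtain ⟨h2, -, h3⟩ := hη
      obtain ⟨v, hvX, hv⟩ := h3 X (le_refl _) hX
      have h4 := h2 v hvX
      have h5 : degF ends F v ≤ degIn ends X v := by
        unfold degIn degF
        refine Finset.card_le_card fun f hf => ?_
        rw [Finset.mem_filter] at hf ⊢
        refine ⟨Finset.mem_univ _, hf.2, ?_⟩
        have h6 : 0 < (ends f ∩ X).card :=
          Finset.card_pos.mpr ⟨v, Finset.mem_inter.mpr ⟨hf.2, hvX⟩⟩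
        have h7 : (ends f ∩ X).card ≤ (ends f).card :=
          Finset.card_le_card Finset.inter_subset_left
        have h8 := hends f
        have h9 := h1 f hf.1
        omega
      omega
    have hA : F.powerset.filter (fun A => Touch ends X A ∧ Conn ends X A) = ∅ := by
      rw [Finset.eq_empty_iff_forall_notMem]
      intro A hA
      rw [Finset.mem_filter, Finset.mem_powerset] at hA
      obtain ⟨f, hf, hcard⟩ := hA.2.2 X (le_refl _) hX
      exact h1 f (hA.1 hf) hcard
    rw [hrec, hA]
    simp

/-- ROW SND-B1 (Merino's theorem, state version). `X` = vertices not yet identified with the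
sink, `F` = remaining edges.

Proof: induction on `F.card + X.card` (strong), everything else generalised.
Write `T X F = ∑ η ∈ recG ends X F, (1+z)^(∑ v ∈ X, η v)`, `e2 X = #{e | #(ends e ∩ X) = 2}`,
`CC X F = ∑ A ∈ F.powerset with Touch, Conn, z^#A`.

Base case: no `e ∈ F` with `#(ends e ∩ X) = 1`.
* `X = ∅`: `recG` consists of the zero function only: `T = 1`; `A` touches `∅` iff `A = ∅`:
  `CC = 1`; `e2 = 0`.
* `X ≠ ∅`: `CC = 0` (apply `Conn` to `U = X`). `recG = ∅`: for `η` in it take `Y = X`: a vertex
  `v ∈ X` with `degIn X v ≤ η v < degF F v`, but `degF F v = degIn X v` (an edge of `F`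
  containing `v ∈ X` meets `X` in `1` or `2` vertices, never in exactly one).

Induction step: `e ∈ F`, `ends e ∩ X = {v}`. Let `F' = F.erase e`, `X' = X.erase v`.
* (X, F') satisfies the hypothesis `hF` (`#(ends e ∩ X) = 1 ≠ 2`); so does (X', F)
  (`#(ends f ∩ X') = 2` implies `ends f ∩ X' = ends f`, so `ends f ∩ X = ends f` as `#ends f ≤ 2`).
* `recG X F` is the disjoint union of `{η | η v < degF F v - 1}` which equals `recG X F'`
  (`degF F' v = degF F v - 1`, `degF F' u = degF F u` for `u ∈ X`, `u ≠ v`), and of
  `{η | η v = degF F v - 1}`, which is in bijection with `recG X' F` through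
  `η ↦ Function.update η v 0`, inverse `η' ↦ Function.update η' v (degF F v - 1)`: for `Y ∌ v` the
  condition is the same; for `Y ∋ v`, `v` is a witness since the edges counted by `degIn Y v` are
  in `F` (by `hF`) and different from `e`: `degIn Y v ≤ degF F v - 1`. Hence
  `T X F = T X F' + (1+z)^(degF F v - 1) * T X' F`.
* `CC X F = CC X F' + z * (1+z)^(c - 1) * CC X' F`, `c = #{f ∈ F | ends f ∩ X = {v}}`: the `A`
  with `e ∉ A` give `CC X F'`; the `A ∋ e` are `A = {e} ∪ L ∪ A''` with `L` an arbitrary subset
  of `{f ∈ F', ends f ∩ X = {v}}` (`∑_L z^#L = (1+z)^(c-1)`, e.g. `Finset.sum_pow_mul_eq_add_pow`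
  or `Finset.prod_add`/`Finset.prod_one_add`) and `A'' ⊆ F` touching `X'`, with
  `Conn X A ↔ Conn X' A''` (for `U ∋ v` the edge `e` crosses; for `U ∌ v` an edge crossing `U`
  touches `X'`).
* `e2 X = e2 X' + degIn X v` and `degF F v = degIn X v + c`. Put everything together. -/
theorem merino (ends : E → Finset V) (hends : ∀ e, (ends e).card ≤ 2)
    (X : Finset V) (F : Finset E) (hF : ∀ e, (ends e ∩ X).card = 2 → e ∈ F)
    {R : Type} [CommRing R] (z : R) :
    z ^ X.card * ∑ η ∈ recG ends X F, (1 + z) ^ (∑ v ∈ X, η v) =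
      (1 + z) ^ (univ.filter (fun e => (ends e ∩ X).card = 2)).card *
        (open Classical in ∑ A ∈ F.powerset.filter (fun A => Touch ends X A ∧ Conn ends X A),
          z ^ A.card) := by
  classical
  obtain ⟨n, hn⟩ : ∃ n, n = F.card + X.card := ⟨_, rfl⟩
  induction n using Nat.strong_induction_on generalizing X F with
  | _ n ih =>
  by_cases hbase : ∀ e ∈ F, (ends e ∩ X).card ≠ 1
  · have := B1_base ends hends X F hbase z
    convert this
  · push Not at hbase
    obtain ⟨e, he, hcard⟩ := hbase
    obtain ⟨v, hv⟩ := Finset.card_eq_one.mp hcard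
    obtain ⟨hve, hvX⟩ := B1_v_mem ends X e v hv
    have ih1 := ih ((F.erase e).card + X.card) (by
        rw [Finset.card_erase_of_mem he]
        have := Finset.card_pos.mpr ⟨e, he⟩
        omega) X (F.erase e) (by
        intro f hf
        rw [Finset.mem_erase]
        refine ⟨?_, hF f hf⟩
        rintro rfl
        omega) rfl
    have ih2 := ih (F.card + (X.erase v).card) (by
        rw [Finset.card_erase_of_mem hvX]
        have := Finset.card_pos.mpr ⟨v, hvX⟩
        omega) (X.erase v) F (by
        intro f hf
        apply hF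
        have h3 : (ends f ∩ X.erase v).card ≤ (ends f ∩ X).card :=
          Finset.card_le_card (Finset.inter_subset_inter_left (Finset.erase_subset v X))
        have h4 : (ends f ∩ X).card ≤ (ends f).card :=
          Finset.card_le_card Finset.inter_subset_left
        have h5 := hends f
        omega) rfl
    have hrec := B1_step_rec ends hends X F hF z e he v hv
    have hcc := B1_step_cc ends X F z e he v hv
    have he2 := B1_e2 ends hends X F hF e v hv
    have hdF := B1_degF ends hends X F hF e v hv
    set c := (F.filter (fun f => ends f ∩ X = {v})).card with hc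
    have hcpos : 0 < c := Finset.card_pos.mpr ⟨e, Finset.mem_filter.mpr ⟨he, hv⟩⟩
    have hX : X.card = (X.erase v).card + 1 := (Finset.card_erase_add_one hvX).symm
    have hcc' : (∑ A ∈ F.powerset.filter (fun A => Touch ends X A ∧ Conn ends X A),
          z ^ A.card) = _ := hcc
    rw [hrec, hcc', mul_add, mul_add]
    congr 1
    have h1 : z ^ X.card * ((1 + z) ^ (degF ends F v - 1) *
        ∑ η ∈ recG ends (X.erase v) F, (1 + z) ^ (∑ u ∈ X.erase v, η u)) =
        z * (1 + z) ^ (degF ends F v - 1) * (z ^ (X.erase v).card *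
        ∑ η ∈ recG ends (X.erase v) F, (1 + z) ^ (∑ u ∈ X.erase v, η u)) := by
      rw [hX, pow_succ]; ring
    rw [h1, ih2, he2]
    have h2 : degF ends F v - 1 = degIn ends X v + (c - 1) := by omega
    rw [h2, pow_add, pow_add]
    ring

end SND
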