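import Pool.Agent.SND.Defs

open Finset

namespace SND

/-- ROW SND-B2a. Every edge of the sandpile graph has at most two ends different from the sink. -/
theorem card_gEnds_le {n : ℕ} (e : Edge n) : (gEnds e).card ≤ 2 := by
  rcases e with ⟨i, b⟩ | ⟨a, j⟩
  · refine (Finset.card_le_card_of_injOn (fun x : Site n => (x.1 : ℕ))
      (t := ({(i : ℕ), (i : ℕ) - 1} : Finset ℕ)) ?_ ?_).trans Finset.card_le_two
    · intro x hx
      have hx' := Finset.mem_coe.1 hx
      simp only [gEnds, Finset.mem_filter, Finset.mem_univ, true_and] at hx'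
      simp only [Finset.coe_insert, Finset.coe_singleton, Set.mem_insert_iff,
        Set.mem_singleton_iff]
      omega
    · intro x hx y hy hxy
      have hx' := Finset.mem_coe.1 hx
      have hy' := Finset.mem_coe.1 hy
      simp only [gEnds, Finset.mem_filter, Finset.mem_univ, true_and] at hx' hy'
      exact Prod.ext (Fin.ext hxy) (hx'.1.trans hy'.1.symm)
  · refine (Finset.card_le_card_of_injOn (fun x : Site n => (x.2 : ℕ))
      (t := ({(j : ℕ), (j : ℕ) - 1} : Finset ℕ)) ?_ ?_).trans Finset.card_le_two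
    · intro x hx
      have hx' := Finset.mem_coe.1 hx
      simp only [gEnds, Finset.mem_filter, Finset.mem_univ, true_and] at hx'
      simp only [Finset.coe_insert, Finset.coe_singleton, Set.mem_insert_iff,
        Set.mem_singleton_iff]
      omega
    · intro x hx y hy hxy
      have hx' := Finset.mem_coe.1 hx
      have hy' := Finset.mem_coe.1 hy
      simp only [gEnds, Finset.mem_filter, Finset.mem_univ, true_and] at hx' hy'
      exact Prod.ext (hx'.1.trans hy'.1.symm) (Fin.ext hxy)

/-- The four edges of a site. -/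
theorem B2_sides {n : ℕ} (y : Site n) :
    univ.filter (fun e : Edge n => y ∈ gEnds e) =
      {Sum.inl (y.1.castSucc, y.2), Sum.inl (y.1.succ, y.2), Sum.inr (y.1, y.2.castSucc),
        Sum.inr (y.1, y.2.succ)} := by
  ext e
  simp only [Finset.mem_filter, Finset.mem_univ, true_and, Finset.mem_insert,
    Finset.mem_singleton]
  rcases e with ⟨i, b⟩ | ⟨a, j⟩
  · simp only [gEnds, Finset.mem_filter, Finset.mem_univ, true_and, Sum.inl.injEq, Prod.mk.injEq,
      Fin.ext_iff, Fin.val_castSucc, Fin.val_succ, reduceCtorEq, or_false]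
    omega
  · simp only [gEnds, Finset.mem_filter, Finset.mem_univ, true_and, Sum.inr.injEq, Prod.mk.injEq,
      Fin.ext_iff, Fin.val_castSucc, Fin.val_succ, reduceCtorEq, false_or]
    omega

theorem B2_deg {n : ℕ} (y : Site n) : degF (gEnds (n := n)) univ y = 4 := by
  unfold degF
  rw [B2_sides]
  rw [Finset.card_insert_of_notMem, Finset.card_insert_of_notMem, Finset.card_insert_of_notMem,
    Finset.card_singleton]
  all_goals
    simp only [Finset.mem_insert, Finset.mem_singleton, Sum.inl.injEq, Sum.inr.injEq,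
      Prod.mk.injEq, Fin.ext_iff, Fin.val_castSucc, Fin.val_succ, reduceCtorEq, or_false,
      not_false_iff]
  all_goals try omega

/-- The common edge of two neighbours. -/
def B2_edge {n : ℕ} (v u : Site n) : Edge n :=
  if u.2 = v.2 then Sum.inl (max u.1.castSucc v.1.castSucc, v.2)
  else Sum.inr (v.1, max u.2.castSucc v.2.castSucc)

theorem B2_gEnds_edge {n : ℕ} (v u : Site n) (h : Adj v u) : gEnds (B2_edge v u) = {v, u} := by
  obtain ⟨v1, v2⟩ := v
  obtain ⟨u1, u2⟩ := u
  unfold Adj at h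
  unfold B2_edge
  simp only [] at h ⊢
  split_ifs with h2
  · subst h2
    ext ⟨x1, x2⟩
    simp only [gEnds, Finset.mem_filter, Finset.mem_univ, true_and, Finset.mem_insert,
      Finset.mem_singleton, Prod.mk.injEq, Fin.ext_iff, Fin.coe_max, Fin.val_castSucc]
    omega
  · have h3 : v1 = u1 := by
      rcases h with h | h
      · exact h.1
      · exact absurd h.1.symm h2
    subst h3
    ext ⟨x1, x2⟩
    simp only [gEnds, Finset.mem_filter, Finset.mem_univ, true_and, Finset.mem_insert,
      Finset.mem_singleton, Prod.mk.injEq, Fin.ext_iff, Fin.coe_max, Fin.val_castSucc] at h2 ⊢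
    omega

theorem B2_adj_of {n : ℕ} (v u : Site n) (e : Edge n) (hv : v ∈ gEnds e) (hu : u ∈ gEnds e)
    (huv : u ≠ v) : Adj v u ∧ B2_edge v u = e := by
  obtain ⟨v1, v2⟩ := v
  obtain ⟨u1, u2⟩ := u
  have huv' : ¬ ((u1 : ℕ) = v1 ∧ (u2 : ℕ) = v2) := by
    rintro ⟨h1, h2⟩
    exact huv (Prod.ext (Fin.ext h1) (Fin.ext h2))
  unfold Adj B2_edge
  rcases e with ⟨i, b⟩ | ⟨a, j⟩
  · simp only [gEnds, Finset.mem_filter, Finset.mem_univ, true_and] at hv hu ⊢
    obtain ⟨rfl, hv⟩ := hv
    obtain ⟨rfl, hu⟩ := hu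
    refine ⟨Or.inr ⟨rfl, by omega⟩, ?_⟩
    simp only [if_true, Sum.inl.injEq, Prod.mk.injEq, Fin.ext_iff, Fin.coe_max, Fin.val_castSucc,
      and_true]
    omega
  · simp only [gEnds, Finset.mem_filter, Finset.mem_univ, true_and] at hv hu ⊢
    obtain ⟨rfl, hv⟩ := hv
    obtain ⟨rfl, hu⟩ := hu
    have hne : u2 ≠ v2 := by
      rintro rfl
      exact huv' ⟨rfl, rfl⟩
    refine ⟨Or.inl ⟨rfl, by omega⟩, ?_⟩
    rw [if_neg hne]
    simp only [Sum.inr.injEq, Prod.mk.injEq, Fin.ext_iff, Fin.coe_max, Fin.val_castSucc, true_and]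
    omega

theorem B2_degIn {n : ℕ} (Y : Finset (Site n)) (v : Site n) (hv : v ∈ Y) :
    degIn (gEnds (n := n)) Y v = (Y.filter (fun u => Adj v u)).card := by
  unfold degIn
  symm
  have hne : ∀ u, Adj v u → u ≠ v := by
    rintro u h rfl
    unfold Adj at h
    omega
  apply Finset.card_bij (fun u _ => B2_edge v u)
  · intro u hu
    rw [Finset.mem_filter] at hu
    rw [Finset.mem_filter, B2_gEnds_edge v u hu.2]
    refine ⟨Finset.mem_univ _, Finset.mem_insert_self _ _, ?_⟩
    rw [Finset.inter_eq_left.2, Finset.card_pair (hne u hu.2).symm]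
    intro x hx
    rw [Finset.mem_insert, Finset.mem_singleton] at hx
    rcases hx with rfl | rfl
    · exact hv
    · exact hu.1
  · intro u hu u' hu' h
    rw [Finset.mem_filter] at hu hu'
    have h1 := B2_gEnds_edge v u hu.2
    rw [h, B2_gEnds_edge v u' hu'.2] at h1
    have h2 : u ∈ ({v, u'} : Finset (Site n)) := by
      rw [h1]; simp
    rw [Finset.mem_insert, Finset.mem_singleton] at h2
    rcases h2 with h2 | h2
    · exact absurd h2 (hne u hu.2)
    · exact h2
  · intro e he
    rw [Finset.mem_filter] at he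
    obtain ⟨_, h1, h2⟩ := he
    obtain ⟨u, hu, huv⟩ := Finset.exists_mem_ne (show 1 < (gEnds e ∩ Y).card by omega) v
    rw [Finset.mem_inter] at hu
    obtain ⟨h3, h4⟩ := B2_adj_of v u e h1 hu.1 huv
    exact ⟨u, Finset.mem_filter.2 ⟨hu.2, h3⟩, h4⟩

/-- ROW SND-B2b. The two definitions of the recurrent configurations agree.

Proof: for `v : Site n` the edges `e` with `v ∈ gEnds e` are exactly `inl (v.1.castSucc, v.2)`,
`inl (v.1.succ, v.2)`, `inr (v.1, v.2.castSucc)`, `inr (v.1, v.2.succ)`: four distinct edges, hence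
`degF gEnds univ v = 4`. For `v ∈ Y` the map which sends a neighbour `u ∈ Y` of `v` to the
common edge is a bijection from `Y.filter (Adj v)` onto `{e | v ∈ gEnds e ∧ #(gEnds e ∩ Y) = 2}`
(the edge above is `inl (v.1.castSucc, v.2)`, with `gEnds = {v, (v.1 - 1, v.2)}` if `v.1 > 0` and
`{v}` if `v.1 = 0`, etc.), hence `degIn gEnds Y v = #(Y.filter (Adj v))`. -/
theorem recG_gEnds (n : ℕ) : recG (gEnds (n := n)) univ univ = recFin n := by
  classical
  unfold recG recFin
  ext η
  rw [Finset.mem_filter, Finset.mem_filter, Fintype.mem_piFinset, Fintype.mem_piFinset]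
  have h1 : ∀ a, (η a ∈ if a ∈ (univ : Finset (Site n)) then
      Finset.range (degF (gEnds (n := n)) univ a) else ({0} : Finset ℕ)) ↔ η a ∈ Finset.range 4 := by
    intro a
    rw [if_pos (Finset.mem_univ a), B2_deg]
  have h2 : (∀ Y ⊆ (univ : Finset (Site n)), Y.Nonempty →
      ∃ v ∈ Y, degIn (gEnds (n := n)) Y v ≤ η v) ↔ NoFSC η := by
    unfold NoFSC
    constructor
    · intro h X hX
      obtain ⟨v, hv, h3⟩ := h X (Finset.subset_univ _) hX
      exact ⟨v, hv, by rw [B2_degIn X v hv] at h3; exact h3⟩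
    · intro h Y _ hY
      obtain ⟨v, hv, h3⟩ := h Y hY
      exact ⟨v, hv, by rw [B2_degIn Y v hv]; exact h3⟩
  rw [h2]
  constructor
  · rintro ⟨h, h'⟩
    exact ⟨fun a => (h1 a).1 (h a), h'⟩
  · rintro ⟨h, h'⟩
    exact ⟨fun a => (h1 a).2 (h a), h'⟩

end SND
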