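import Pool.Agent.SND.Defs

open Finset

namespace SND

/-- The indicator of the horizontal edges, extended by zero. -/
noncomputable def B3a_h {n : ℕ} (D : Finset (Edge n)) (a b : ℕ) : ZMod 2 :=
  if h : a < n + 1 ∧ b < n then
    (if (Sum.inl (⟨a, h.1⟩, ⟨b, h.2⟩) : Edge n) ∈ D then 1 else 0) else 0

/-- The indicator of the vertical edges, extended by zero. -/
noncomputable def B3a_v {n : ℕ} (D : Finset (Edge n)) (a b : ℕ) : ZMod 2 :=
  if h : a < n ∧ b < n + 1 then
    (if (Sum.inr (⟨a, h.1⟩, ⟨b, h.2⟩) : Edge n) ∈ D then 1 else 0) else 0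

/-- The column sums. -/
noncomputable def B3a_P {n : ℕ} (D : Finset (Edge n)) (a b : ℕ) : ZMod 2 :=
  ∑ a' ∈ Finset.range (a + 1), B3a_h D a' b

theorem B3a_sum (m k : ℕ) (F : ℕ → ℕ → ZMod 2) (X Y : ℕ)
    (hF : ∀ a b, ¬ (a < m ∧ b < k) → F a b = 0) :
    ∑ a : Fin m, ∑ b : Fin k, F a b * (if X = a ∧ Y = b then 1 else 0) = F X Y := by
  by_cases h : X < m ∧ Y < k
  · rw [Finset.sum_eq_single (⟨X, h.1⟩ : Fin m), Finset.sum_eq_single (⟨Y, h.2⟩ : Fin k)]
    · simp
    · intro b _ hb
      rw [if_neg, mul_zero]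
      rintro ⟨_, h2⟩
      exact hb (Fin.ext h2.symm)
    · intro h'; exact absurd (Finset.mem_univ _) h'
    · intro a _ ha
      apply Finset.sum_eq_zero
      intro b _
      rw [if_neg, mul_zero]
      rintro ⟨h2, _⟩
      exact ha (Fin.ext h2.symm)
    · intro h'; exact absurd (Finset.mem_univ _) h'
  · rw [hF X Y h]
    apply Finset.sum_eq_zero
    intro a _
    apply Finset.sum_eq_zero
    intro b _
    rw [if_neg, mul_zero]
    rintro ⟨h2, h3⟩
    apply h
    rw [h2, h3]
    exact ⟨a.2, b.2⟩

theorem B3a_h_zero {n : ℕ} (D : Finset (Edge n)) (a b : ℕ) (h : ¬ (a < n + 1 ∧ b < n)) :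
    B3a_h D a b = 0 := by
  unfold B3a_h; rw [dif_neg h]

theorem B3a_v_zero {n : ℕ} (D : Finset (Edge n)) (a b : ℕ) (h : ¬ (a < n ∧ b < n + 1)) :
    B3a_v D a b = 0 := by
  unfold B3a_v; rw [dif_neg h]

theorem B3a_h_mem {n : ℕ} (D : Finset (Edge n)) (a : Fin (n + 1)) (b : Fin n) :
    B3a_h D a b = if (Sum.inl (a, b) : Edge n) ∈ D then 1 else 0 := by
  unfold B3a_h; rw [dif_pos ⟨a.2, b.2⟩]

theorem B3a_v_mem {n : ℕ} (D : Finset (Edge n)) (a : Fin n) (b : Fin (n + 1)) :
    B3a_v D a b = if (Sum.inr (a, b) : Edge n) ∈ D then 1 else 0 := by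
  unfold B3a_v; rw [dif_pos ⟨a.2, b.2⟩]

/-- The degree condition. -/
theorem B3a_deg {n : ℕ} (D : Finset (Edge n)) (X Y : ℕ) (hX : X < n + 1) (hY : Y < n + 1)
    (hD : ∀ x, Even (degF hEnds D x)) :
    (B3a_h D X Y + (if Y = 0 then 0 else B3a_h D X (Y - 1))) +
      (B3a_v D X Y + (if X = 0 then 0 else B3a_v D (X - 1) Y)) = 0 := by
  have h1 := hD (⟨X, hX⟩, ⟨Y, hY⟩)
  have h2 : ((degF hEnds D (⟨X, hX⟩, ⟨Y, hY⟩) : ℕ) : ZMod 2) = 0 :=
    (ZMod.natCast_eq_zero_iff_even).2 h1
  refine Eq.trans ?_ h2
  unfold degF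
  rw [Finset.card_filter]
  push_cast
  rw [show (∑ x ∈ D, if ((⟨X, hX⟩, ⟨Y, hY⟩) : HV n) ∈ hEnds x then (1 : ZMod 2) else 0) =
    ∑ x : Edge n, (if x ∈ D then (1 : ZMod 2) else 0) *
      (if ((⟨X, hX⟩, ⟨Y, hY⟩) : HV n) ∈ hEnds x then (1 : ZMod 2) else 0) from ?_]
  · rw [Fintype.sum_sum_type, Fintype.sum_prod_type, Fintype.sum_prod_type]
    congr 1
    · have e1 : ∀ (a : Fin (n + 1)) (b : Fin n),
          (if ((⟨X, hX⟩, ⟨Y, hY⟩) : HV n) ∈ hEnds (Sum.inl (a, b) : Edge n) then (1 : ZMod 2) else 0)
          = (if X = a ∧ Y = b then 1 else 0) + (if X = a ∧ Y = b + 1 then 1 else 0) := by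
        intro a b
        have : ((⟨X, hX⟩, ⟨Y, hY⟩) : HV n) ∈ hEnds (Sum.inl (a, b) : Edge n) ↔
            (X = a ∧ Y = b) ∨ (X = a ∧ Y = b + 1) := by
          simp only [hEnds, tl, hd, Finset.mem_insert, Finset.mem_singleton, Prod.mk.injEq,
            Fin.ext_iff, Fin.val_castSucc, Fin.val_succ]
        by_cases c1 : X = a ∧ Y = b
        · have c2 : ¬ (X = a ∧ Y = b + 1) := by omega
          rw [if_pos (this.2 (Or.inl c1)), if_pos c1, if_neg c2, add_zero]
        · by_cases c2 : X = a ∧ Y = b + 1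
          · rw [if_pos (this.2 (Or.inr c2)), if_neg c1, if_pos c2, zero_add]
          · rw [if_neg (fun h => (this.1 h).elim c1 c2), if_neg c1, if_neg c2, add_zero]
      simp only [← B3a_h_mem, e1, mul_add, Finset.sum_add_distrib]
      congr 1
      · rw [B3a_sum (n + 1) n (B3a_h D) X Y (fun a b h => B3a_h_zero D a b h)]
      · by_cases hY0 : Y = 0
        · rw [if_pos hY0]
          symm
          apply Finset.sum_eq_zero
          intro a _
          apply Finset.sum_eq_zero
          intro b _
          rw [if_neg, mul_zero]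
          omega
        · rw [if_neg hY0]
          rw [← B3a_sum (n + 1) n (B3a_h D) X (Y - 1) (fun a b h => B3a_h_zero D a b h)]
          apply Finset.sum_congr rfl
          intro a _
          apply Finset.sum_congr rfl
          intro b _
          congr 1
          apply if_congr _ rfl rfl
          omega
    · have e1 : ∀ (a : Fin n) (b : Fin (n + 1)),
          (if ((⟨X, hX⟩, ⟨Y, hY⟩) : HV n) ∈ hEnds (Sum.inr (a, b) : Edge n) then (1 : ZMod 2) else 0)
          = (if X = a ∧ Y = b then 1 else 0) + (if X = a + 1 ∧ Y = b then 1 else 0) := by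
        intro a b
        have : ((⟨X, hX⟩, ⟨Y, hY⟩) : HV n) ∈ hEnds (Sum.inr (a, b) : Edge n) ↔
            (X = a ∧ Y = b) ∨ (X = a + 1 ∧ Y = b) := by
          simp only [hEnds, tl, hd, Finset.mem_insert, Finset.mem_singleton, Prod.mk.injEq,
            Fin.ext_iff, Fin.val_castSucc, Fin.val_succ]
        by_cases c1 : X = a ∧ Y = b
        · have c2 : ¬ (X = a + 1 ∧ Y = b) := by omega
          rw [if_pos (this.2 (Or.inl c1)), if_pos c1, if_neg c2, add_zero]
        · by_cases c2 : X = a + 1 ∧ Y = b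
          · rw [if_pos (this.2 (Or.inr c2)), if_neg c1, if_pos c2, zero_add]
          · rw [if_neg (fun h => (this.1 h).elim c1 c2), if_neg c1, if_neg c2, add_zero]
      simp only [← B3a_v_mem, e1, mul_add, Finset.sum_add_distrib]
      congr 1
      · rw [B3a_sum n (n + 1) (B3a_v D) X Y (fun a b h => B3a_v_zero D a b h)]
      · by_cases hX0 : X = 0
        · rw [if_pos hX0]
          symm
          apply Finset.sum_eq_zero
          intro a _
          apply Finset.sum_eq_zero
          intro b _
          rw [if_neg, mul_zero]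
          omega
        · rw [if_neg hX0]
          rw [← B3a_sum n (n + 1) (B3a_v D) (X - 1) Y (fun a b h => B3a_v_zero D a b h)]
          apply Finset.sum_congr rfl
          intro a _
          apply Finset.sum_congr rfl
          intro b _
          congr 1
          apply if_congr _ rfl rfl
          omega
  · simp only [ite_mul, one_mul, zero_mul]
    rw [Finset.sum_ite_mem, Finset.univ_inter]

theorem B3a_two (x : ZMod 2) : x + x = 0 := by
  revert x; decide

theorem B3a_eq_of_add (x y : ZMod 2) (h : x + y = 0) : x = y := by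
  revert x y; decide

/-- The vertical edges in terms of column sums. -/
theorem B3a_vert {n : ℕ} (D : Finset (Edge n)) (hD : ∀ x, Even (degF hEnds D x))
    (Y : ℕ) (hY : Y < n + 1) : ∀ X : ℕ, X < n + 1 →
    B3a_v D X Y = B3a_P D X Y + (if Y = 0 then 0 else B3a_P D X (Y - 1)) := by
  intro X
  induction X with
  | zero =>
    intro hX
    have h1 := B3a_deg D 0 Y hX hY hD
    rw [if_pos rfl, add_zero] at h1
    have h2 := B3a_eq_of_add _ _ h1
    rw [← h2]
    unfold B3a_P
    simp
  | succ X ih =>
    intro hX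
    have h0 := ih (by omega)
    have h1 := B3a_deg D (X + 1) Y hX hY hD
    rw [if_neg (Nat.succ_ne_zero X), Nat.add_sub_cancel, h0] at h1
    have e1 : B3a_P D (X + 1) Y = B3a_P D X Y + B3a_h D (X + 1) Y := by
      unfold B3a_P; rw [Finset.sum_range_succ]
    have e2 : (if Y = 0 then 0 else B3a_P D (X + 1) (Y - 1)) =
        (if Y = 0 then 0 else B3a_P D X (Y - 1)) + (if Y = 0 then 0 else B3a_h D (X + 1) (Y - 1)) := by
      split_ifs with h
      · simp
      · unfold B3a_P; rw [Finset.sum_range_succ]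
    rw [e1, e2]
    generalize B3a_v D (X + 1) Y = v at *
    generalize B3a_P D X Y = p at *
    generalize B3a_h D (X + 1) Y = q at *
    generalize (if Y = 0 then 0 else B3a_P D X (Y - 1)) = r at *
    generalize (if Y = 0 then 0 else B3a_h D (X + 1) (Y - 1)) = s at *
    clear h0 ih e1 e2
    revert v p q r s
    decide

/-- The total column sums vanish. -/
theorem B3a_total {n : ℕ} (D : Finset (Edge n)) (hD : ∀ x, Even (degF hEnds D x)) :
    ∀ Y : ℕ, Y < n + 1 → B3a_P D n Y = 0 := by
  intro Y
  induction Y with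
  | zero =>
    intro hY
    have h1 := B3a_vert D hD 0 hY n (Nat.lt_succ_self n)
    rw [B3a_v_zero D n 0 (by omega), if_pos rfl, add_zero] at h1
    exact h1.symm
  | succ Y ih =>
    intro hY
    have h0 := ih (by omega)
    have h1 := B3a_vert D hD (Y + 1) hY n (Nat.lt_succ_self n)
    rw [B3a_v_zero D n (Y + 1) (by omega), if_neg (Nat.succ_ne_zero Y), Nat.add_sub_cancel, h0,
      add_zero] at h1
    exact h1.symm

theorem B3a_card_two {α : Type*} [DecidableEq α] (U : Finset α) (x y : α) (hxy : x ≠ y) :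
    (({x, y} : Finset α) ∩ U).card = 1 ↔
      ((if x ∈ U then (1 : ZMod 2) else 0) + (if y ∈ U then 1 else 0) = 1) := by
  by_cases hx : x ∈ U
  · by_cases hy : y ∈ U
    · rw [Finset.insert_inter_of_mem hx, Finset.singleton_inter_of_mem hy,
        Finset.card_pair hxy, if_pos hx, if_pos hy]
      decide
    · rw [Finset.insert_inter_of_mem hx, Finset.singleton_inter_of_notMem hy, if_pos hx, if_neg hy]
      simp
  · by_cases hy : y ∈ U
    · rw [Finset.insert_inter_of_notMem hx, Finset.singleton_inter_of_mem hy, if_neg hx, if_pos hy]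
      simp
    · rw [Finset.insert_inter_of_notMem hx, Finset.singleton_inter_of_notMem hy, if_neg hx,
        if_neg hy]
      simp

theorem B3a_card_one {α : Type*} [DecidableEq α] (U : Finset α) (x : α) :
    (({x} : Finset α) ∩ U).card = 1 ↔ ((if x ∈ U then (1 : ZMod 2) else 0) = 1) := by
  by_cases hx : x ∈ U
  · rw [Finset.singleton_inter_of_mem hx, if_pos hx]; simp
  · rw [Finset.singleton_inter_of_notMem hx, if_neg hx]; simp

theorem B3a_ite (x : ZMod 2) : (if x = 1 then (1 : ZMod 2) else 0) = x := by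
  revert x; decide

/-- ROW SND-B3a. Every even edge set of the grid is the cut of a set of faces.

Proof. Put `U = {x | #{a : Fin (n+1) | a ≤ x.1 ∧ inl (a, x.2) ∈ D} is odd}` (horizontal edges above
the face `x`, in its column). Let `H a b ∈ {0,1}` be the indicator of `inl (a, b) ∈ D` and
`P a b = ∑_{a' ≤ a} H a' b` (so `x ∈ U ↔ P x.1 x.2` odd).
* `e = inl (i, b)`: `gEnds e` consists of `(i, b)` (if `i < n`) and `(i - 1, b)` (if `i > 0`); for
  `0 < i < n` exactly one of them is in `U` iff `P i b - P (i-1) b = H i b` is odd; for `i = 0`: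
  `P 0 b = H 0 b`; for `i = n`: need `P (n-1) b` odd iff `H n b = 1`, i.e. the total
  `∑_{a ≤ n} H a b` is even: sum the even degrees over all the vertices `(a, j)` with
  `j ≤ b`: the vertical edges and the horizontal edges `inl (a, j)`, `j < b`, are counted twice (or
  0 times), the edges `inl (a, b)` once.
* `e = inr (a, j)` (faces `(a, j-1)` and `(a, j)`): sum the even degrees over the vertices
  `(a', j)`, `a' ≤ a`: the vertical edges `inr (a', j)`, `a' < a`, are counted twice,
  `inr (a, j)` once, the horizontal edges `inl (a', j-1)`, `inl (a', j)` (if they exist) once each: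
  `[inr (a,j) ∈ D] ≡ P a (j-1) + P a j` mod 2 (with `P a (-1) = P a n = 0`).
A convenient way: work in `ZMod 2` with indicator functions. -/
theorem exists_cut {n : ℕ} (D : Finset (Edge n)) (hD : ∀ x, Even (degF hEnds D x)) :
    ∃ U : Finset (Site n), ∀ e, e ∈ D ↔ (gEnds e ∩ U).card = 1 := by
  classical
  refine ⟨univ.filter (fun x : Site n => B3a_P D x.1 x.2 = 1), ?_⟩
  have hU : ∀ x : Site n, (if x ∈ univ.filter (fun x : Site n => B3a_P D x.1 x.2 = 1)
      then (1 : ZMod 2) else 0) = B3a_P D x.1 x.2 := by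
    intro x
    simp only [Finset.mem_filter, Finset.mem_univ, true_and]
    exact B3a_ite _
  intro e
  rcases e with ⟨i, b⟩ | ⟨a, j⟩
  · have hmem : (Sum.inl (i, b) : Edge n) ∈ D ↔ B3a_h D i b = 1 := by
      rw [B3a_h_mem]; split_ifs with h <;> simp [h]
    rw [hmem]
    have hi := i.2
    have hb := b.2
    by_cases h0 : (i : ℕ) = 0
    · have hg : gEnds (Sum.inl (i, b) : Edge n) = {((⟨0, by omega⟩ : Fin n), b)} := by
        ext ⟨x1, x2⟩
        simp only [gEnds, Finset.mem_filter, Finset.mem_univ, true_and, Finset.mem_singleton,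
          Prod.mk.injEq, Fin.ext_iff]
        omega
      rw [hg, B3a_card_one, hU]
      rw [h0]
      unfold B3a_P
      simp
    · by_cases hn : (i : ℕ) = n
      · have hg : gEnds (Sum.inl (i, b) : Edge n) = {((⟨n - 1, by omega⟩ : Fin n), b)} := by
          ext ⟨x1, x2⟩
          simp only [gEnds, Finset.mem_filter, Finset.mem_univ, true_and, Finset.mem_singleton,
            Prod.mk.injEq, Fin.ext_iff]
          have := x1.2
          omega
        rw [hg, B3a_card_one, hU, hn]
        have h1 := B3a_total D hD b (by omega)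
        obtain ⟨m, rfl⟩ : ∃ m, n = m + 1 := ⟨n - 1, by omega⟩
        have e1 : B3a_P D (m + 1) b = B3a_P D m b + B3a_h D (m + 1) b := by
          unfold B3a_P; rw [Finset.sum_range_succ]
        rw [e1] at h1
        rw [← B3a_eq_of_add _ _ h1]
        rfl
      · have hg : gEnds (Sum.inl (i, b) : Edge n) =
            {((⟨i, by omega⟩ : Fin n), b), ((⟨i - 1, by omega⟩ : Fin n), b)} := by
          ext ⟨x1, x2⟩
          simp only [gEnds, Finset.mem_filter, Finset.mem_univ, true_and, Finset.mem_singleton,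
            Finset.mem_insert, Prod.mk.injEq, Fin.ext_iff]
          have := x1.2
          omega
        rw [hg, B3a_card_two _ _ _ (by simp only [ne_eq, Prod.mk.injEq, Fin.ext_iff]; omega), hU, hU]
        obtain ⟨m, hm⟩ : ∃ m, (i : ℕ) = m + 1 := ⟨i - 1, by omega⟩
        have e1 : B3a_P D (m + 1) b = B3a_P D m b + B3a_h D (m + 1) b := by
          unfold B3a_P; rw [Finset.sum_range_succ]
        simp only [hm, Nat.add_sub_cancel]
        rw [e1, add_comm (B3a_P D m b) (B3a_h D (m + 1) b), add_assoc, B3a_two, add_zero]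
  · have hmem : (Sum.inr (a, j) : Edge n) ∈ D ↔ B3a_v D a j = 1 := by
      rw [B3a_v_mem]; split_ifs with h <;> simp [h]
    rw [hmem]
    have ha := a.2
    have hj := j.2
    rw [B3a_vert D hD j hj a (by omega)]
    by_cases h0 : (j : ℕ) = 0
    · have hg : gEnds (Sum.inr (a, j) : Edge n) = {(a, (⟨0, by omega⟩ : Fin n))} := by
        ext ⟨x1, x2⟩
        simp only [gEnds, Finset.mem_filter, Finset.mem_univ, true_and, Finset.mem_singleton,
          Prod.mk.injEq, Fin.ext_iff]
        omega
      rw [hg, B3a_card_one, hU, if_pos h0, add_zero, h0]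
    · rw [if_neg h0]
      by_cases hn : (j : ℕ) = n
      · have hg : gEnds (Sum.inr (a, j) : Edge n) = {(a, (⟨n - 1, by omega⟩ : Fin n))} := by
          ext ⟨x1, x2⟩
          simp only [gEnds, Finset.mem_filter, Finset.mem_univ, true_and, Finset.mem_singleton,
            Prod.mk.injEq, Fin.ext_iff]
          have := x2.2
          omega
        rw [hg, B3a_card_one, hU, hn]
        have e0 : B3a_P D a n = 0 := by
          unfold B3a_P
          apply Finset.sum_eq_zero
          intro x _
          exact B3a_h_zero D x n (by omega)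
        rw [e0, zero_add]
      · have hg : gEnds (Sum.inr (a, j) : Edge n) =
            {(a, (⟨j, by omega⟩ : Fin n)), (a, (⟨j - 1, by omega⟩ : Fin n))} := by
          ext ⟨x1, x2⟩
          simp only [gEnds, Finset.mem_filter, Finset.mem_univ, true_and, Finset.mem_singleton,
            Finset.mem_insert, Prod.mk.injEq, Fin.ext_iff]
          have := x2.2
          omega
        rw [hg, B3a_card_two _ _ _ (by simp only [ne_eq, Prod.mk.injEq, Fin.ext_iff]; omega), hU, hU]

end SND
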