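import Pool.Agent.SND.Defs

open Finset

namespace SND

theorem B3b_card {n : ℕ} (e : Edge n) : (gEnds e).card ≤ 2 := by
  rcases e with ⟨i, b⟩ | ⟨a, j⟩
  · refine (Finset.card_le_card_of_injOn (fun x : Site n => (x.1 : ℕ))
      (t := ({(i : ℕ), (i : ℕ) - 1} : Finset ℕ)) ?_ ?_).trans Finset.card_le_two
    · intro x hx
      have hx' := Finset.mem_coe.1 hx
      simp only [gEnds, Finset.mem_filter, Finset.mem_univ, true_and] at hx'
      simp only [Finset.coe_insert, Finset.coe_singleton, Set.mem_insert_iff,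
        Set.mem_singleton_iff]
      omega
    · intro x hx y hy hxy
      have hx' := Finset.mem_coe.1 hx
      have hy' := Finset.mem_coe.1 hy
      simp only [gEnds, Finset.mem_filter, Finset.mem_univ, true_and] at hx' hy'
      exact Prod.ext (Fin.ext hxy) (hx'.1.trans hy'.1.symm)
  · refine (Finset.card_le_card_of_injOn (fun x : Site n => (x.2 : ℕ))
      (t := ({(j : ℕ), (j : ℕ) - 1} : Finset ℕ)) ?_ ?_).trans Finset.card_le_two
    · intro x hx
      have hx' := Finset.mem_coe.1 hx
      simp only [gEnds, Finset.mem_filter, Finset.mem_univ, true_and] at hx'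
      simp only [Finset.coe_insert, Finset.coe_singleton, Set.mem_insert_iff,
        Set.mem_singleton_iff]
      omega
    · intro x hx y hy hxy
      have hx' := Finset.mem_coe.1 hx
      have hy' := Finset.mem_coe.1 hy
      simp only [gEnds, Finset.mem_filter, Finset.mem_univ, true_and] at hx' hy'
      exact Prod.ext (hx'.1.trans hy'.1.symm) (Fin.ext hxy)

/-- The four sides of a face. -/
theorem B3b_sides {n : ℕ} (y : Site n) :
    univ.filter (fun e : Edge n => y ∈ gEnds e) =
      {Sum.inl (y.1.castSucc, y.2), Sum.inl (y.1.succ, y.2), Sum.inr (y.1, y.2.castSucc),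
        Sum.inr (y.1, y.2.succ)} := by
  ext e
  simp only [Finset.mem_filter, Finset.mem_univ, true_and, Finset.mem_insert,
    Finset.mem_singleton]
  rcases e with ⟨i, b⟩ | ⟨a, j⟩
  · simp only [gEnds, Finset.mem_filter, Finset.mem_univ, true_and, Sum.inl.injEq, Prod.mk.injEq,
      Fin.ext_iff, Fin.val_castSucc, Fin.val_succ, reduceCtorEq, or_false]
    omega
  · simp only [gEnds, Finset.mem_filter, Finset.mem_univ, true_and, Sum.inr.injEq, Prod.mk.injEq,
      Fin.ext_iff, Fin.val_castSucc, Fin.val_succ, reduceCtorEq, false_or]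
    omega

theorem B3b_bool (P Q R S : Prop) [Decidable P] [Decidable Q] [Decidable R] [Decidable S]
    (h1 : ¬ (P ∧ Q)) (h2 : ¬ (R ∧ S)) :
    (if (P ∧ R) ∨ (P ∧ S) then (1 : ZMod 2) else 0) + ((if (Q ∧ R) ∨ (Q ∧ S) then 1 else 0) +
      ((if (P ∧ R) ∨ (Q ∧ R) then 1 else 0) + (if (P ∧ S) ∨ (Q ∧ S) then 1 else 0))) = 0 := by
  by_cases p : P <;> by_cases q : Q <;> by_cases r : R <;> by_cases s : S <;>
    first
    | (exfalso; tauto)
    | (simp only [p, q, r, s, and_self, or_self, and_false, false_and, or_false, false_or,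
        if_true, if_false]; decide)

theorem B3b_inner {n : ℕ} (x : HV n) (y : Site n) :
    ∑ e ∈ univ.filter (fun e : Edge n => y ∈ gEnds e),
      (if x ∈ hEnds e then (1 : ZMod 2) else 0) = 0 := by
  rw [B3b_sides]
  rw [Finset.sum_insert, Finset.sum_insert, Finset.sum_insert, Finset.sum_singleton]
  · obtain ⟨y1, y2⟩ := y
    obtain ⟨x1, x2⟩ := x
    simp only [hEnds, tl, hd, Finset.mem_insert, Finset.mem_singleton, Prod.mk.injEq]
    have h1 : ¬ (x1 = y1.castSucc ∧ x1 = y1.succ) := by
      rintro ⟨h, h'⟩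
      have := congrArg Fin.val (h.symm.trans h')
      simp at this
    have h2 : ¬ (x2 = y2.castSucc ∧ x2 = y2.succ) := by
      rintro ⟨h, h'⟩
      have := congrArg Fin.val (h.symm.trans h')
      simp at this
    convert B3b_bool (x1 = y1.castSucc) (x1 = y1.succ) (x2 = y2.castSucc) (x2 = y2.succ) h1 h2
  all_goals
    simp only [Finset.mem_insert, Finset.mem_singleton, Sum.inl.injEq, Sum.inr.injEq,
      Prod.mk.injEq, Fin.ext_iff, Fin.val_castSucc, Fin.val_succ, reduceCtorEq, or_false,
      not_false_iff]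
  all_goals try omega

/-- ROW SND-B3b. The cut of a set of faces is an even edge set of the grid.

Proof: `#(gEnds e ∩ U) ∈ {0,1,2}` (see `gEnds`), so `#(gEnds e ∩ U) = 1` iff it is odd, and
`degF hEnds (cut) x ≡ ∑_{e ∋ x} #(gEnds e ∩ U) = ∑_{y ∈ U} #{e | x ∈ hEnds e ∧ y ∈ gEnds e}`
mod 2, where for a face `y` and a vertex `x`, `#{e | x ∈ hEnds e ∧ y ∈ gEnds e} ∈ {0, 2}`: the
four edges `e` with `y ∈ gEnds e` are the sides `inl (y.1.castSucc, y.2)`, `inl (y.1.succ, y.2)`,
`inr (y.1, y.2.castSucc)`, `inr (y.1, y.2.succ)` of the unit square `y`, and a vertex is on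
none or exactly two of them. -/
theorem cut_even {n : ℕ} (U : Finset (Site n)) (x : HV n) :
    Even (degF hEnds (univ.filter (fun e : Edge n => (gEnds e ∩ U).card = 1)) x) := by
  rw [← ZMod.natCast_eq_zero_iff_even]
  unfold degF
  rw [Finset.card_filter, Finset.sum_filter]
  push_cast
  have h1 : ∀ e : Edge n, (if (gEnds e ∩ U).card = 1 then
      (if x ∈ hEnds e then (1 : ZMod 2) else 0) else 0) =
      ∑ y ∈ U, (if y ∈ gEnds e then (if x ∈ hEnds e then (1 : ZMod 2) else 0) else 0) := by
    intro e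
    rw [← Finset.sum_filter, Finset.sum_const]
    have e1 : U.filter (fun y => y ∈ gEnds e) = gEnds e ∩ U := by
      ext y; simp only [Finset.mem_filter, Finset.mem_inter]; exact and_comm
    rw [e1]
    have hc : (gEnds e ∩ U).card ≤ 2 :=
      (Finset.card_le_card Finset.inter_subset_left).trans (B3b_card e)
    generalize (if x ∈ hEnds e then (1 : ZMod 2) else 0) = z
    generalize (gEnds e ∩ U).card = c at hc
    interval_cases c
    · simp
    · simp
    · simp only [OfNat.ofNat_ne_one, if_false]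
      revert z; decide
  rw [Finset.sum_congr rfl (fun e _ => h1 e), Finset.sum_comm]
  apply Finset.sum_eq_zero
  intro y _
  rw [← Finset.sum_filter]
  exact B3b_inner x y

/-- ROW SND-B3c. The cut of a nonempty set is nonempty: take `x ∈ U` with `x.1` minimal and the
edge `inl (x.1.castSucc, x.2)`, whose ends are `x` and possibly `(x.1 - 1, x.2) ∉ U`. -/
theorem cut_nonempty {n : ℕ} (U : Finset (Site n)) (hU : U.Nonempty) :
    ∃ e : Edge n, (gEnds e ∩ U).card = 1 := by
  obtain ⟨x, hx, hmin⟩ := U.exists_min_image (fun x => (x.1 : ℕ)) hU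
  refine ⟨Sum.inl (x.1.castSucc, x.2), ?_⟩
  rw [Finset.card_eq_one]
  refine ⟨x, ?_⟩
  ext y
  simp only [gEnds, Finset.mem_inter, Finset.mem_filter, Finset.mem_univ, true_and,
    Finset.mem_singleton, Fin.val_castSucc]
  constructor
  · rintro ⟨⟨h1, h2⟩, h3⟩
    have := hmin y h3
    refine Prod.ext (Fin.ext ?_) h1
    omega
  · rintro rfl
    exact ⟨⟨rfl, Or.inl rfl⟩, hx⟩

end SND
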