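import Pool.Agent.SND.Defs

open Finset

namespace SND

variable {V E : Type} [Fintype V] [DecidableEq V] [Fintype E] [DecidableEq E]

/-- ROW SND-C1a. An edge set connecting `X` to the outside has at least `#X` edges touching `X`.

Proof: induction on `X.card`, generalising `A`. `X = ∅` trivial. Otherwise `Conn` with `U = X` gives
`e ∈ A`, `ends e ∩ X = {x}`. Then `Conn ends (X.erase x) (A.erase e)`: for nonempty
`U ⊆ X.erase x` the witness `f ∈ A` for `U` is different from `e` since `ends e ∩ U = ∅`. Induction
hypothesis: `#X - 1 ≤ #{f ∈ A.erase e | (ends f ∩ X.erase x).Nonempty}`, and this set plus `e` is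
contained in `{f ∈ A | (ends f ∩ X).Nonempty}`. -/
theorem card_le_of_conn (ends : E → Finset V) (X : Finset V) (A : Finset E)
    (h : Conn ends X A) : X.card ≤ (A.filter (fun e => (ends e ∩ X).Nonempty)).card := by
  induction hk : X.card generalizing X A with
  | zero => exact Nat.zero_le _
  | succ k ih =>
    have hXne : X.Nonempty := by
      rw [← Finset.card_pos, hk]; exact Nat.succ_pos k
    obtain ⟨e, heA, he1⟩ := h X (Finset.Subset.refl X) hXne
    obtain ⟨x, hx⟩ := Finset.card_eq_one.mp he1
    have hxX : x ∈ X := by
      have : x ∈ ends e ∩ X := by rw [hx]; exact Finset.mem_singleton_self x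
      exact (Finset.mem_inter.mp this).2
    have hcard : (X.erase x).card = k := by
      rw [Finset.card_erase_of_mem hxX, hk]; rfl
    have hconn : Conn ends (X.erase x) (A.erase e) := by
      intro U hU hUne
      obtain ⟨f, hfA, hf1⟩ := h U (hU.trans (Finset.erase_subset x X)) hUne
      refine ⟨f, Finset.mem_erase.mpr ⟨?_, hfA⟩, hf1⟩
      rintro rfl
      have hempty : ends f ∩ U = ∅ := by
        rw [Finset.eq_empty_iff_forall_notMem]
        intro y hy
        have hy1 := (Finset.mem_inter.mp hy).1
        have hy2 := hU (Finset.mem_inter.mp hy).2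
        have hyx : y ∈ ends f ∩ X := Finset.mem_inter.mpr ⟨hy1, (Finset.mem_erase.mp hy2).2⟩
        rw [hx, Finset.mem_singleton] at hyx
        exact (Finset.mem_erase.mp hy2).1 hyx
      rw [hempty] at hf1
      simp at hf1
    have hI := ih (X.erase x) (A.erase e) hconn hcard
    have hnot : e ∉ (A.erase e).filter (fun f => (ends f ∩ X.erase x).Nonempty) := by
      simp
    have hsub : insert e ((A.erase e).filter (fun f => (ends f ∩ X.erase x).Nonempty)) ⊆
        A.filter (fun f => (ends f ∩ X).Nonempty) := by
      intro f hf
      rw [Finset.mem_insert] at hf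
      rw [Finset.mem_filter]
      rcases hf with rfl | hf
      · refine ⟨heA, ?_⟩
        rw [hx]; exact Finset.singleton_nonempty x
      · rw [Finset.mem_filter] at hf
        refine ⟨(Finset.mem_erase.mp hf.1).2, ?_⟩
        obtain ⟨y, hy⟩ := hf.2
        rw [Finset.mem_inter] at hy
        exact ⟨y, Finset.mem_inter.mpr ⟨hy.1, (Finset.mem_erase.mp hy.2).2⟩⟩
    have hle := Finset.card_le_card hsub
    rw [Finset.card_insert_of_notMem hnot] at hle
    omega

end SND
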