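import Pool.Agent.SND.Defs
import Pool.Agent.SND.C1

open Finset

namespace SND

variable {V E : Type} [Fintype V] [DecidableEq V] [Fintype E] [DecidableEq E]

/-- the counted sets -/
def C2_P (ends : E → Finset V) (X : Finset V) (A : Finset E) : Prop :=
  Touch ends X A ∧ Conn ends X A ∧ A.card = X.card

open Classical in
/-- number of the counted sets -/
noncomputable def C2_N (ends : E → Finset V) (X : Finset V) (F : Finset E) : ℕ :=
  (F.powerset.filter (fun A => C2_P ends X A)).card

omit [Fintype V] [Fintype E] [DecidableEq E] in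
theorem C2_inter {ends : E → Finset V} {X : Finset V} {e : E} {x : V} (hx : ends e ∩ X = {x})
    {U : Finset V} (hU : U ⊆ X.erase x) : ends e ∩ U = ∅ := by
  rw [Finset.eq_empty_iff_forall_notMem]
  intro a ha
  rw [Finset.mem_inter] at ha
  have h1 := Finset.mem_erase.mp (hU ha.2)
  have h2 : a ∈ ends e ∩ X := Finset.mem_inter.mpr ⟨ha.1, h1.2⟩
  rw [hx, Finset.mem_singleton] at h2
  exact h1.1 h2

theorem C2_P_iff {ends : E → Finset V} {X : Finset V} {e : E} {x : V} (hx : ends e ∩ X = {x})
    {A : Finset E} (he : e ∉ A) : C2_P ends X (insert e A) ↔ C2_P ends (X.erase x) A := by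
  have hxX : x ∈ X := by
    have h1 : x ∈ ends e ∩ X := by rw [hx]; exact Finset.mem_singleton_self x
    exact (Finset.mem_inter.mp h1).2
  have hcard : (X.erase x).card + 1 = X.card := Finset.card_erase_add_one hxX
  have hcA : (insert e A).card = A.card + 1 := Finset.card_insert_of_notMem he
  constructor
  · rintro ⟨_, h2, h3⟩
    have hC : Conn ends (X.erase x) A := by
      intro U hU hUn
      obtain ⟨f, hf, hf1⟩ := h2 U (hU.trans (Finset.erase_subset _ _)) hUn
      rcases Finset.mem_insert.mp hf with rfl | hf
      · rw [C2_inter hx hU] at hf1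
        simp at hf1
      · exact ⟨f, hf, hf1⟩
    have hAc : A.card = (X.erase x).card := by omega
    refine ⟨?_, hC, hAc⟩
    have h4 := card_le_of_conn ends (X.erase x) A hC
    have h5 : A.filter (fun e => (ends e ∩ X.erase x).Nonempty) = A :=
      Finset.eq_of_subset_of_card_le (Finset.filter_subset _ _) (by omega)
    intro f hf
    rw [← h5] at hf
    exact (Finset.mem_filter.mp hf).2
  · rintro ⟨h1, h2, h3⟩
    refine ⟨?_, ?_, by omega⟩
    · intro f hf
      rcases Finset.mem_insert.mp hf with rfl | hf
      · rw [hx]; exact Finset.singleton_nonempty x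
      · exact (h1 f hf).mono (Finset.inter_subset_inter_left (Finset.erase_subset _ _))
    · intro U hU hUn
      by_cases hxU : x ∈ U
      · refine ⟨e, Finset.mem_insert_self _ _, ?_⟩
        have h6 : ends e ∩ U = {x} := by
          apply Finset.Subset.antisymm
          · rw [← hx]
            exact Finset.inter_subset_inter_left hU
          · rw [Finset.singleton_subset_iff, Finset.mem_inter]
            have h7 : x ∈ ends e ∩ X := by rw [hx]; exact Finset.mem_singleton_self x
            exact ⟨(Finset.mem_inter.mp h7).1, hxU⟩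
        rw [h6, Finset.card_singleton]
      · obtain ⟨f, hf, hf1⟩ := h2 U (fun a ha => Finset.mem_erase.mpr
          ⟨fun h => hxU (h ▸ ha), hU ha⟩) hUn
        exact ⟨f, Finset.mem_insert_of_mem hf, hf1⟩

theorem C2_N_step {ends : E → Finset V} {X : Finset V} {e : E} {x : V} (hx : ends e ∩ X = {x})
    {F : Finset E} (he : e ∉ F) :
    C2_N ends X (insert e F) = C2_N ends X F + C2_N ends (X.erase x) F := by
  classical
  unfold C2_N
  rw [Finset.powerset_insert, Finset.filter_union, Finset.card_union_of_disjoint]
  · congr 1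
    rw [Finset.filter_image, Finset.card_image_of_injOn]
    · congr 1
      apply Finset.filter_congr
      intro A hA
      exact C2_P_iff hx (fun h => he (Finset.mem_powerset.mp hA h))
    · intro A hA B hB hAB
      have hA' : e ∉ A := fun h =>
        he (Finset.mem_powerset.mp (Finset.mem_filter.mp (Finset.mem_coe.mp hA)).1 h)
      have hB' : e ∉ B := fun h =>
        he (Finset.mem_powerset.mp (Finset.mem_filter.mp (Finset.mem_coe.mp hB)).1 h)
      have h1 : (insert e A).erase e = (insert e B).erase e := congrArg (fun s => s.erase e) hAB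
      rwa [Finset.erase_insert hA', Finset.erase_insert hB'] at h1
  · rw [Finset.disjoint_left]
    intro A hA hA'
    have h1 := Finset.mem_powerset.mp (Finset.mem_filter.mp hA).1
    obtain ⟨B, _, rfl⟩ := Finset.mem_image.mp (Finset.mem_filter.mp hA').1
    exact he (h1 (Finset.mem_insert_self _ _))

/-- `det (M + E_xx)` -/
theorem C2_det {n : Type} [Fintype n] [DecidableEq n] (M M' : Matrix n n ℝ) (x : n)
    (h : ∀ i j, M i j = M' i j + if i = x ∧ j = x then 1 else 0) :
    M.det = M'.det + (M'.submatrix (Subtype.val : {a // a ≠ x} → n) Subtype.val).det := by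
  have h1 : M = M'.updateRow x (M' x + Pi.single x 1) := by
    ext i j
    rw [h, Matrix.updateRow_apply]
    by_cases hi : i = x
    · subst hi
      rw [if_pos rfl, Pi.add_apply, Pi.single_apply]
      simp
    · rw [if_neg hi, if_neg (fun h => hi h.1), add_zero]
  rw [h1, Matrix.det_updateRow_add, Matrix.updateRow_eq_self]
  congr 1
  rw [Matrix.twoBlockTriangular_det _ (fun a => a ≠ x)]
  · have h2 : ((M'.updateRow x (Pi.single x 1)).toSquareBlockProp fun i => ¬ i ≠ x).det = 1 := by
      have hu : ∀ a : {i // ¬ i ≠ x}, a = ⟨x, fun h => h rfl⟩ := fun a =>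
        Subtype.ext (not_not.mp a.2)
      have : Unique {i // ¬ i ≠ x} := ⟨⟨⟨x, fun h => h rfl⟩⟩, hu⟩
      rw [Matrix.det_unique, Matrix.toSquareBlockProp_def]
      have h3 : ((default : {i // ¬ i ≠ x}) : n) = x := not_not.mp (default : {i // ¬ i ≠ x}).2
      simp [h3]
    rw [h2, mul_one]
    congr 1
    ext i j
    rw [Matrix.toSquareBlockProp_def]
    simp [Matrix.updateRow_apply, i.2]
  · intro i hi j hj
    have hi' : i = x := not_not.mp hi
    subst hi'
    rw [Matrix.updateRow_self, Pi.single_apply, if_neg hj]

omit [Fintype E] [Fintype V] in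
theorem C2_lap {ends : E → Finset V} {X : Finset V} {e : E} {x : V} (hx : ends e ∩ X = {x})
    {F : Finset E} (he : e ∉ F) (a b : V) (ha : a ∈ X) (hb : b ∈ X) :
    lap ends (insert e F) a b = lap ends F a b + if a = x ∧ b = x then 1 else 0 := by
  have hmem : ∀ c ∈ X, c ∈ ends e ↔ c = x := by
    intro c hc
    have h1 : c ∈ ends e ∩ X ↔ c = x := by rw [hx, Finset.mem_singleton]
    rw [← h1, Finset.mem_inter]
    exact ⟨fun h => ⟨h, hc⟩, fun h => h.1⟩
  unfold lap
  by_cases hab : a = b
  · subst hab
    rw [if_pos rfl, if_pos rfl]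
    unfold degF
    rw [Finset.filter_insert]
    by_cases hax : a = x
    · rw [if_pos ((hmem a ha).mpr hax), if_pos ⟨hax, hax⟩,
        Finset.card_insert_of_notMem (fun h => he (Finset.mem_filter.mp h).1)]
      push_cast
      ring
    · rw [if_neg (fun h => hax ((hmem a ha).mp h)), if_neg (fun h => hax h.1), add_zero]
  · rw [if_neg hab, if_neg hab, Finset.filter_insert, if_neg, if_neg, add_zero]
    · rintro ⟨h1, h2⟩
      exact hab (h1.trans h2.symm)
    · rintro ⟨h1, h2⟩
      exact hab (((hmem a ha).mp h1).trans ((hmem b hb).mp h2).symm)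

omit [Fintype E] [Fintype V] in
theorem C2_det_step {ends : E → Finset V} {X : Finset V} {e : E} {x : V}
    (hx : ends e ∩ X = {x}) {F : Finset E} (he : e ∉ F) :
    (sub (lap ends (insert e F)) X).det =
      (sub (lap ends F) X).det + (sub (lap ends F) (X.erase x)).det := by
  have hxX : x ∈ X := by
    have h1 : x ∈ ends e ∩ X := by rw [hx]; exact Finset.mem_singleton_self x
    exact (Finset.mem_inter.mp h1).2
  rw [C2_det (sub (lap ends (insert e F)) X) (sub (lap ends F) X) ⟨x, hxX⟩]
  · congr 1
    let φ : {a : X // a ≠ ⟨x, hxX⟩} ≃ (X.erase x : Finset V) :=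
      { toFun := fun a => ⟨a.1.1, Finset.mem_erase.mpr ⟨fun h => a.2 (Subtype.ext h), a.1.2⟩⟩
        invFun := fun a => ⟨⟨a.1, (Finset.mem_erase.mp a.2).2⟩, fun h =>
          (Finset.mem_erase.mp a.2).1 (congrArg Subtype.val h)⟩
        left_inv := fun a => rfl
        right_inv := fun a => rfl }
    have h1 : (sub (lap ends F) X).submatrix
        (Subtype.val : {a : X // a ≠ ⟨x, hxX⟩} → X) Subtype.val =
        (sub (lap ends F) (X.erase x)).submatrix φ φ := rfl
    rw [h1, Matrix.det_submatrix_equiv_self]
  · intro i j
    show lap ends (insert e F) i j = lap ends F i j + _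
    rw [C2_lap hx he i.1 j.1 i.2 j.2]
    congr 1
    simp only [Subtype.ext_iff]

omit [Fintype E] [Fintype V] [DecidableEq E] in
theorem C2_base {ends : E → Finset V} (hends : ∀ e, (ends e).card = 2) {X : Finset V}
    (hX : X.Nonempty) {F : Finset E} (hF : ∀ e ∈ F, (ends e ∩ X).card ≠ 1) :
    (sub (lap ends F) X).det = 0 := by
  rw [← Matrix.exists_mulVec_eq_zero_iff]
  obtain ⟨x0, hx0⟩ := hX
  refine ⟨fun _ => 1, fun h => one_ne_zero (congrFun h ⟨x0, hx0⟩), ?_⟩
  ext x
  show ∑ y : X, lap ends F x y * 1 = 0
  have hone : ∀ f ∈ F.filter (fun f => (x : V) ∈ ends f),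
      ((X.erase (x : V)).filter (fun y => y ∈ ends f)).card = 1 := by
    intro f hf
    obtain ⟨hfF, hxf⟩ := Finset.mem_filter.mp hf
    have h1 : (X.erase (x : V)).filter (fun y => y ∈ ends f) = (ends f ∩ X).erase (x : V) := by
      ext y
      simp only [Finset.mem_filter, Finset.mem_erase, Finset.mem_inter]
      tauto
    have hxm : (x : V) ∈ ends f ∩ X := Finset.mem_inter.mpr ⟨hxf, x.2⟩
    rw [h1, Finset.card_erase_of_mem hxm]
    have h2 := hF f hfF
    have h3 : 0 < (ends f ∩ X).card := Finset.card_pos.mpr ⟨_, hxm⟩
    have h4 : (ends f ∩ X).card ≤ 2 := by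
      rw [← hends f]
      exact Finset.card_le_card Finset.inter_subset_left
    omega
  have hsum : ∑ y ∈ X.erase (x : V), (F.filter (fun e => (x : V) ∈ ends e ∧ y ∈ ends e)).card =
      degF ends F x := by
    have h1 : ∀ y, (F.filter (fun e => (x : V) ∈ ends e ∧ y ∈ ends e)).card =
        ∑ f ∈ F.filter (fun f => (x : V) ∈ ends f), if y ∈ ends f then 1 else 0 := by
      intro y
      rw [← Finset.filter_filter, Finset.card_filter]
    rw [Finset.sum_congr rfl (fun y _ => h1 y), Finset.sum_comm]
    unfold degF
    rw [Finset.card_eq_sum_ones]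
    refine Finset.sum_congr rfl fun f hf => ?_
    rw [← Finset.card_filter, hone f hf]
  have h2 : ∑ y : X, lap ends F x y * 1 = ∑ y ∈ X, lap ends F x y := by
    rw [← Finset.sum_coe_sort X (fun y => lap ends F x y)]
    simp
  rw [h2, ← Finset.add_sum_erase X _ x.2]
  have h3 : ∀ y ∈ X.erase (x : V), lap ends F x y =
      -(((F.filter (fun e => (x : V) ∈ ends e ∧ y ∈ ends e)).card : ℕ) : ℝ) := by
    intro y hy
    unfold lap
    rw [if_neg (Finset.mem_erase.mp hy).1.symm]
  rw [Finset.sum_congr rfl h3, Finset.sum_neg_distrib, ← Nat.cast_sum, hsum]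
  unfold lap
  rw [if_pos rfl, add_neg_cancel]

theorem C2_main (ends : E → Finset V) (hends : ∀ e, (ends e).card = 2) (F : Finset E) :
    ∀ X : Finset V, (sub (lap ends F) X).det = (C2_N ends X F : ℝ) := by
  induction F using Finset.strongInduction with
  | H F ih =>
    intro X
    by_cases h : ∃ e ∈ F, (ends e ∩ X).card = 1
    · obtain ⟨e, he, hc⟩ := h
      obtain ⟨x, hx⟩ := Finset.card_eq_one.mp hc
      have h1 := ih (F.erase e) (Finset.erase_ssubset he)
      have h2 : F = insert e (F.erase e) := (Finset.insert_erase he).symm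
      rw [h2, C2_det_step hx (Finset.notMem_erase e F), C2_N_step hx (Finset.notMem_erase e F),
        h1, h1]
      push_cast
      ring
    · push Not at h
      rcases X.eq_empty_or_nonempty with rfl | hX
      · rw [Matrix.det_isEmpty]
        have h1 : C2_N ends ∅ F = 1 := by
          classical
          unfold C2_N
          rw [Finset.card_eq_one]
          refine ⟨∅, ?_⟩
          ext A
          rw [Finset.mem_filter, Finset.mem_singleton, Finset.mem_powerset]
          constructor
          · rintro ⟨_, _, _, h3⟩
            rw [Finset.card_empty] at h3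
            exact Finset.card_eq_zero.mp h3
          · rintro rfl
            refine ⟨Finset.empty_subset _, ?_, ?_, rfl⟩
            · intro e he
              simp at he
            · intro U hU hUn
              obtain ⟨a, ha⟩ := hUn
              have := hU ha
              simp at this
        rw [h1, Nat.cast_one]
      · rw [C2_base hends hX h]
        have h1 : C2_N ends X F = 0 := by
          classical
          unfold C2_N
          rw [Finset.card_eq_zero, Finset.filter_eq_empty_iff]
          rintro A hA ⟨_, h2, _⟩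
          obtain ⟨e, he, hc⟩ := h2 X (Finset.Subset.refl _) hX
          exact h e (Finset.mem_powerset.mp hA he) hc
        rw [h1, Nat.cast_zero]

/-- ROW SND-C2 (matrix forest theorem, all principal minors).

Proof: strong induction on `F.card + X.card`. `det_X F := det (sub (lap ends F) X)`,
`N X F := #{A ⊆ F | Touch, Conn, #A = #X}`.
Base case: no `e ∈ F` with `#(ends e ∩ X) = 1`. If `X = ∅`: `det = 1` (empty matrix) and only
`A = ∅`: `N = 1`. If `X ≠ ∅`: `N = 0` (`Conn` with `U = X`), and the matrix `sub (lap ends F) X`
has all its row sums zero (row `x`: `degF F x` minus the number of `f ∈ F` containing `x` and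
another `y ∈ X`; since no `f ∈ F` has `#(ends f ∩ X) = 1` and `#(ends f) = 2`, every `f ∋ x` has
exactly one other end, in `X`), so `det = 0` (`Matrix.exists_mulVec_eq_zero_iff` with the constant
vector `1`).
Step: `e ∈ F`, `ends e ∩ X = {x}`. `F' = F.erase e`, `X' = X.erase x`.
* `sub (lap ends F) X = sub (lap ends F') X + (matrix unit at (x, x))`, and
  `det (M + E_xx) = det M + det (M with row and column x removed)`
  (`Matrix.det_updateRow_add`, `Matrix.det_succ...`, or use `Matrix.updateRow` with `Pi.single`,
  and Laplace expansion through an equivalence), so `det_X F = det_X F' + det_{X'} F'` and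
  `sub (lap ends F') X' = sub (lap ends F) X'` as `e` does not touch `X'`.
* `N X F = N X F' + N X' F`: the `A ∌ e` give `N X F'`. The map `A ↦ A.erase e` is a bijection from
  `{A ∋ e counted in N X F}` onto the sets counted in `N X' F`: given such an `A`,
  `Conn X' (A.erase e)` (as in SND-C1a) and `#(A.erase e) = #X'`, and by `card_le_of_conn` all the
  edges of `A.erase e` touch `X'`; conversely if `A'` is counted in `N X' F`, then `e ∉ A'` (`e`
  does not touch `X'`) and `insert e A'` connects `X` (a `U ∋ x` is crossed by `e` since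
  `ends e ∩ U = {x}`; a `U ∌ x` is crossed by `A'`). -/
theorem matrix_forest (ends : E → Finset V) (hends : ∀ e, (ends e).card = 2)
    (X : Finset V) (F : Finset E) :
    (sub (lap ends F) X).det =
      (open Classical in (((F.powerset.filter
        (fun A => Touch ends X A ∧ Conn ends X A ∧ A.card = X.card)).card : ℕ) : ℝ)) := by
  rw [C2_main ends hends F X]
  congr 1
  unfold C2_N C2_P
  congr

end SND
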