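import Pool.Agent.SND.Defs
import Pool.Agent.SND.C1

open Finset

namespace SND

variable {V E : Type} [Fintype V] [DecidableEq V] [Fintype E] [DecidableEq E]

omit [Fintype V] [Fintype E] [DecidableEq E] in
theorem C3a_double (ends : E → Finset V) (D : Finset E) (U : Finset V) :
    ∑ x ∈ U, degF ends D x = ∑ e ∈ D, (ends e ∩ U).card := by
  have h1 : ∀ x, degF ends D x = ∑ e ∈ D, if x ∈ ends e then 1 else 0 := by
    intro x
    rw [degF, Finset.card_filter]
  simp only [h1]
  rw [Finset.sum_comm]
  refine Finset.sum_congr rfl (fun e _ => ?_)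
  rw [← Finset.card_filter]
  congr 1
  ext x
  simp [and_comm]

omit [Fintype V] [Fintype E] [DecidableEq E] in
/-- handshake for cuts -/
theorem C3a_cut (ends : E → Finset V) (hends : ∀ e, (ends e).card = 2) (D : Finset E)
    (hD : ∀ x, Even (degF ends D x)) (U : Finset V) :
    Even (D.filter (fun e => (ends e ∩ U).card = 1)).card := by
  have h1 : Even (∑ e ∈ D, (ends e ∩ U).card) := by
    rw [← C3a_double]
    exact Finset.even_sum _ (fun x _ => hD x)
  rw [Finset.even_sum_iff_even_card_odd] at h1
  have h2 : D.filter (fun e => (ends e ∩ U).card = 1) =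
      D.filter (fun e => Odd (ends e ∩ U).card) := by
    refine Finset.filter_congr (fun e _ => ?_)
    have h3 : (ends e ∩ U).card ≤ 2 := by
      rw [← hends e]
      exact Finset.card_le_card Finset.inter_subset_left
    constructor
    · intro h; rw [h]; exact odd_one
    · intro h
      rcases h with ⟨k, hk⟩
      omega
  rw [h2]
  exact h1

/-- ROW SND-C3 (handshake for cuts + compatible markings force acyclicity).

Proof. Let `X = univ \ insert o (mverts ends S M)` and `A = B \ M`. Let `D ⊆ B` be even.
(0) For `U : Finset V`: `#{e ∈ D | #(ends e ∩ U) = 1}` is even: it is congruent mod 2 to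
`∑_{e ∈ D} #(ends e ∩ U) = ∑_{x ∈ U} degF D x` (as `#(ends e ∩ U) ∈ {0,1,2}`).
(1) Suppose `f ∈ D ∩ A`. Then `Conn ends X (A.erase f)`: let `U ⊆ X` nonempty; no edge of `M`
crosses `U` (its ends are in `mverts`, disjoint from `X`). If the witness of `Conn ends X A` for
`U` is not `f`, fine. If it is `f`, then `f ∈ {e ∈ D | crosses U}`, which has even cardinality, so
there is another `e ∈ D` crossing `U`, `e ∉ M`, so `e ∈ B \ M = A`, `e ≠ f`. By `card_le_of_conn`,
`#X ≤ #(A.erase f) = #X - 1` (and `#X ≥ 1` as ... `#A = #X ≥ 1`): contradiction.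
(2) So `D ⊆ M`. If `e ∈ D`, take `x ∈ ends e`: the other elements of `M` are disjoint from
`ends e`, so `degF D x = 1`, not even. Hence `D = ∅`. -/
theorem acyc_of_compat (ends : E → Finset V) (hends : ∀ e, (ends e).card = 2) (o : V)
    (B : Finset E) (S : Finset V) (M : Finset E) (hm : IsMark ends o S M) (hMB : M ⊆ B)
    (hc : Conn ends (univ \ insert o (mverts ends S M)) (B \ M))
    (hcard : (B \ M).card = (univ \ insert o (mverts ends S M)).card) : Acyc ends B := by
  classical
  intro D hDB hD
  have _hMB := hMB
  -- (1)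
  have hDM : D ⊆ M := by
    intro f hf
    by_contra hfM
    have hfA : f ∈ B \ M := Finset.mem_sdiff.2 ⟨hDB hf, hfM⟩
    have hconn : Conn ends (univ \ insert o (mverts ends S M)) ((B \ M).erase f) := by
      intro U hU hUne
      obtain ⟨e, heA, he⟩ := hc U hU hUne
      by_cases hef : e = f
      · subst hef
        have hev := C3a_cut ends hends D hD U
        have hmem : e ∈ D.filter (fun e => (ends e ∩ U).card = 1) :=
          Finset.mem_filter.2 ⟨hf, he⟩
        have hone : 1 < (D.filter (fun e => (ends e ∩ U).card = 1)).card := by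
          have hpos : 0 < (D.filter (fun e => (ends e ∩ U).card = 1)).card :=
            Finset.card_pos.2 ⟨e, hmem⟩
          rcases hev with ⟨k, hk⟩
          omega
        obtain ⟨g, hg, hge⟩ := Finset.exists_mem_ne hone e
        obtain ⟨hgD, hgU⟩ := Finset.mem_filter.1 hg
        refine ⟨g, Finset.mem_erase.2 ⟨hge, Finset.mem_sdiff.2 ⟨hDB hgD, ?_⟩⟩, hgU⟩
        intro hgM
        have hdis : ends g ∩ U = ∅ := by
          rw [← Finset.disjoint_iff_inter_eq_empty, Finset.disjoint_left]
          intro x hx hxU
          have hxX := hU hxU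
          rw [Finset.mem_sdiff] at hxX
          apply hxX.2
          refine Finset.mem_insert_of_mem ?_
          rw [mverts]
          exact Finset.mem_union_right _ (Finset.mem_biUnion.2 ⟨g, hgM, hx⟩)
        rw [hdis, Finset.card_empty] at hgU
        exact absurd hgU (by norm_num)
      · exact ⟨e, Finset.mem_erase.2 ⟨hef, heA⟩, he⟩
    have h1 := card_le_of_conn ends _ _ hconn
    have h2 := Finset.card_le_card (Finset.filter_subset
      (fun e => (ends e ∩ (univ \ insert o (mverts ends S M))).Nonempty) ((B \ M).erase f))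
    rw [Finset.card_erase_of_mem hfA, hcard] at h2
    have h3 : 0 < (B \ M).card := Finset.card_pos.2 ⟨f, hfA⟩
    omega
  -- (2)
  by_contra hne
  obtain ⟨e, he⟩ := Finset.nonempty_iff_ne_empty.2 hne
  obtain ⟨x, hx⟩ : (ends e).Nonempty := by
    rw [← Finset.card_pos, hends e]
    norm_num
  have hdeg : degF ends D x = 1 := by
    rw [degF, Finset.card_eq_one]
    refine ⟨e, ?_⟩
    ext g
    simp only [Finset.mem_filter, Finset.mem_singleton]
    constructor
    · rintro ⟨hg, hxg⟩
      by_contra hge
      have := hm.2.2 g (hDM hg) e (hDM he) hge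
      exact (Finset.disjoint_left.1 this) hxg hx
    · rintro rfl
      exact ⟨he, hx⟩
  have := hD x
  rw [hdeg] at this
  rcases this with ⟨k, hk⟩
  omega

end SND
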