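import Pool.Agent.SND.Defs

open Finset

namespace SND

variable {V E : Type} [Fintype V] [DecidableEq V] [Fintype E] [DecidableEq E]

omit [Fintype E] [DecidableEq E] in
/-- handshake -/
theorem C3b_handshake (ends : E → Finset V) (hends : ∀ e, (ends e).card = 2) (D : Finset E) :
    ∑ x, degF ends D x = 2 * D.card := by
  have h1 : ∀ x, degF ends D x = ∑ e ∈ D, if x ∈ ends e then 1 else 0 := by
    intro x
    rw [degF, Finset.card_filter]
  simp only [h1]
  rw [Finset.sum_comm]
  have h2 : ∀ e ∈ D, (∑ x, if x ∈ ends e then 1 else 0) = 2 := by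
    intro e _
    rw [← Finset.card_filter, ← hends e]
    congr 1
    ext x
    simp
  rw [Finset.sum_congr rfl h2, Finset.sum_const, smul_eq_mul, mul_comm]

theorem C3b_symmDiff_card {α : Type} [DecidableEq α] (A B : Finset α) :
    (symmDiff A B).card + 2 * (A ∩ B).card = A.card + B.card := by
  have h1 : (symmDiff A B).card = (A \ B).card + (B \ A).card := by
    rw [symmDiff_def]
    exact Finset.card_union_of_disjoint disjoint_sdiff_sdiff
  have h2 := Finset.card_sdiff_add_card_inter A B
  have h3 := Finset.card_sdiff_add_card_inter B A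
  rw [Finset.inter_comm B A] at h3
  omega

omit [Fintype V] [Fintype E] in
theorem C3b_degF_symmDiff (ends : E → Finset V) (D₁ D₂ : Finset E) (x : V)
    (h : Odd (degF ends D₁ x) ↔ Odd (degF ends D₂ x)) :
    Even (degF ends (symmDiff D₁ D₂) x) := by
  have h1 := C3b_symmDiff_card (D₁.filter (fun e => x ∈ ends e)) (D₂.filter (fun e => x ∈ ends e))
  have h2 : symmDiff (D₁.filter (fun e => x ∈ ends e)) (D₂.filter (fun e => x ∈ ends e)) =
      (symmDiff D₁ D₂).filter (fun e => x ∈ ends e) := by
    ext e
    simp only [Finset.mem_symmDiff, Finset.mem_filter]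
    tauto
  rw [h2] at h1
  unfold degF at h ⊢
  have h3 : Even ((D₁.filter (fun e => x ∈ ends e)).card + (D₂.filter (fun e => x ∈ ends e)).card) := by
    rw [Nat.even_add, ← Nat.not_odd_iff_even, ← Nat.not_odd_iff_even, h]
  rw [← h1, Nat.even_add] at h3
  exact h3.2 (even_two_mul _)

theorem C3b_card_lt (ends : E → Finset V) (hends : ∀ e, (ends e).card = 2)
    (B : Finset E) (hB : Acyc ends B) (W : Finset V) (hW : W.Nonempty)
    (hBW : ∀ e ∈ B, ends e ⊆ W) : B.card < W.card := by
  classical
  by_contra hlt
  obtain ⟨r, hr⟩ := hW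
  let f : Finset E → Finset V := fun D => (W.erase r).filter (fun x => Odd (degF ends D x))
  have hcard : (W.erase r).powerset.card < B.powerset.card := by
    rw [Finset.card_powerset, Finset.card_powerset, Finset.card_erase_of_mem hr]
    apply Nat.pow_lt_pow_right (by norm_num)
    have : 0 < W.card := Finset.card_pos.2 ⟨r, hr⟩
    omega
  obtain ⟨D₁, hD₁, D₂, hD₂, hne, hf⟩ := Finset.exists_ne_map_eq_of_card_lt_of_maps_to hcard
    (f := f) (fun D _ => Finset.mem_coe.2 (Finset.mem_powerset.2 (Finset.filter_subset _ _)))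
  have hDB : symmDiff D₁ D₂ ⊆ B := by
    intro e he
    rcases Finset.mem_symmDiff.1 he with h | h
    · exact Finset.mem_powerset.1 hD₁ h.1
    · exact Finset.mem_powerset.1 hD₂ h.1
  have hev1 : ∀ x, x ≠ r → Even (degF ends (symmDiff D₁ D₂) x) := by
    intro x hx
    by_cases hxW : x ∈ W
    · apply C3b_degF_symmDiff
      have h1 : x ∈ f D₁ ↔ x ∈ f D₂ := by rw [hf]
      have hxe : x ∈ W.erase r := Finset.mem_erase.2 ⟨hx, hxW⟩
      simp only [f, Finset.mem_filter, hxe, true_and] at h1
      exact h1
    · have : degF ends (symmDiff D₁ D₂) x = 0 := by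
        rw [degF, Finset.card_eq_zero, Finset.filter_eq_empty_iff]
        intro e he hxe
        exact hxW (hBW e (hDB he) hxe)
      rw [this]
      exact ⟨0, rfl⟩
  have hev : ∀ x, Even (degF ends (symmDiff D₁ D₂) x) := by
    intro x
    by_cases hx : x = r
    · subst hx
      have hs := C3b_handshake ends hends (symmDiff D₁ D₂)
      rw [← Finset.add_sum_erase _ _ (Finset.mem_univ x)] at hs
      have h1 : Even (∑ y ∈ Finset.univ.erase x, degF ends (symmDiff D₁ D₂) y) :=
        Finset.even_sum _ (fun y hy => hev1 y (Finset.ne_of_mem_erase hy))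
      have h2 : Even (degF ends (symmDiff D₁ D₂) x +
          ∑ y ∈ Finset.univ.erase x, degF ends (symmDiff D₁ D₂) y) := by
        rw [hs]; exact even_two_mul _
      rw [Nat.even_add] at h2
      exact h2.2 h1
    · exact hev1 x hx
  have := hB _ hDB hev
  exact hne (symmDiff_eq_bot.1 this)

/-- ROW SND-C3b (leaf lemma).

Proof. Suppose `2 ≤ degF B x` for all `x ∈ W`, `x ≠ o`. Handshake:
`∑_{x ∈ W} degF B x = 2 #B`. If `degF B o = 0` let `W' = W.erase o`, otherwise `W' = W`. In both cases
all the ends of the edges of `B` are in `W'` and `#B ≥ #W'` (first case `2 #B ≥ 2 (#W - 1)`; second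
case `2 #B ≥ 2 (#W - 1) + 1`), and `W'` is nonempty. Consider the map
`D ↦ (x ∈ W' ↦ (degF D x : ZMod 2))` from the `2^#B` subsets of `B` to the functions `W' → ZMod 2`
with zero sum (the sum is `2 #D = 0`); there are `2^(#W'-1) < 2^#B` such functions
(e.g. the last coordinate is determined by the others), so by the pigeonhole principle two
different subsets `D₁ ≠ D₂` have the same image; their symmetric difference `D` is nonempty, is
contained in `B` and is even (`degF (D₁ ∆ D₂) x ≡ degF D₁ x + degF D₂ x`), contradicting `Acyc`. -/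
theorem exists_leaf (ends : E → Finset V) (hends : ∀ e, (ends e).card = 2) (o : V)
    (B : Finset E) (hB : Acyc ends B) (W : Finset V) (ho : o ∈ W) (hW : 2 ≤ W.card)
    (hBW : ∀ e ∈ B, ends e ⊆ W) : ∃ l ∈ W, l ≠ o ∧ degF ends B l ≤ 1 := by
  classical
  by_contra hno
  have h2 : ∀ l ∈ W, l ≠ o → 2 ≤ degF ends B l := by
    intro l hl hlo
    by_contra hlt
    exact hno ⟨l, hl, hlo, by omega⟩
  have hs := C3b_handshake ends hends B
  have hsum : (W.erase o).card * 2 ≤ ∑ x ∈ W.erase o, degF ends B x := by
    rw [← smul_eq_mul]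
    exact Finset.card_nsmul_le_sum _ _ _
      (fun x hx => h2 x (Finset.mem_of_mem_erase hx) (Finset.ne_of_mem_erase hx))
  have hle : ∑ x ∈ W, degF ends B x ≤ ∑ x, degF ends B x :=
    Finset.sum_le_sum_of_subset (Finset.subset_univ _)
  rw [← Finset.add_sum_erase _ _ ho] at hle
  rw [Finset.card_erase_of_mem ho] at hsum
  by_cases h0 : degF ends B o = 0
  · have hlt := C3b_card_lt ends hends B hB (W.erase o)
      (by
        rw [← Finset.card_pos, Finset.card_erase_of_mem ho]
        omega)
      (by
        intro e he x hx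
        refine Finset.mem_erase.2 ⟨?_, hBW e he hx⟩
        rintro rfl
        rw [degF, Finset.card_eq_zero, Finset.filter_eq_empty_iff] at h0
        exact h0 he hx)
    rw [Finset.card_erase_of_mem ho] at hlt
    omega
  · have hlt := C3b_card_lt ends hends B hB W ⟨o, ho⟩ hBW
    omega

end SND
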