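import Pool.Agent.SND.Defs
import Pool.Agent.SND.C1
import Pool.Agent.SND.C3b

open Finset

namespace SND

variable {V E : Type} [Fintype V] [DecidableEq V] [Fintype E] [DecidableEq E]

theorem C4_mem (ends : E → Finset V) (o : V) (W : Finset V) (B : Finset E)
    (p : Finset V × Finset E) : p ∈ compat ends o W B ↔
      (p.1 ⊆ W ∧ p.2 ⊆ B ∧ IsMark ends o p.1 p.2 ∧
    Conn ends (W \ insert o (mverts ends p.1 p.2)) (B \ p.2) ∧
    (B \ p.2).card = (W \ insert o (mverts ends p.1 p.2)).card) := by
  unfold compat
  simp only [Finset.mem_filter, Finset.mem_univ, true_and]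

theorem C4_mem_mverts (ends : E → Finset V) (S : Finset V) (M : Finset E) (x : V) :
    x ∈ mverts ends S M ↔ x ∈ S ∨ ∃ e ∈ M, x ∈ ends e := by
  unfold mverts
  rw [Finset.mem_union, Finset.mem_biUnion]

theorem C4_notmem (ends : E → Finset V) (B : Finset E) (l : V) (h : degF ends B l = 0) :
    ∀ e ∈ B, l ∉ ends e := by
  intro e he hl
  unfold degF at h
  rw [Finset.card_eq_zero] at h
  have : e ∈ B.filter (fun e => l ∈ ends e) := Finset.mem_filter.2 ⟨he, hl⟩
  rw [h] at this
  exact absurd this (Finset.notMem_empty e)

/-- case of an isolated vertex -/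
theorem C4_zero (ends : E → Finset V) (o : V) (B : Finset E) (W : Finset V) (l : V) (hl : l ∈ W)
    (hlo : l ≠ o) (hlB : ∀ e ∈ B, l ∉ ends e) :
    ∑ p ∈ compat ends o W B, (-1 : ℤ) ^ p.2.card =
      ∑ p ∈ compat ends o (W.erase l) B, (-1 : ℤ) ^ p.2.card := by
  have key : ∀ p ∈ compat ends o W B, l ∈ p.1 := by
    rintro ⟨S, M⟩ hp
    rw [C4_mem] at hp
    obtain ⟨hS, hM, hmark, hconn, hcard⟩ := hp
    by_contra hlS
    have hlX : l ∈ W \ insert o (mverts ends S M) := by
      rw [Finset.mem_sdiff, Finset.mem_insert, C4_mem_mverts]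
      refine ⟨hl, ?_⟩
      rintro (h | h | ⟨e, he, h⟩)
      · exact hlo h
      · exact hlS h
      · exact hlB e (hM he) h
    obtain ⟨e, he, hc⟩ := hconn {l} (Finset.singleton_subset_iff.2 hlX)
      (Finset.singleton_nonempty l)
    have : (ends e ∩ {l}).Nonempty := Finset.card_pos.1 (by rw [hc]; norm_num)
    obtain ⟨x, hx⟩ := this
    rw [Finset.mem_inter, Finset.mem_singleton] at hx
    exact hlB e (Finset.mem_sdiff.1 he).1 (hx.2 ▸ hx.1)
  have hX : ∀ (S : Finset V) (M : Finset E), l ∉ S →
      (W.erase l) \ insert o (mverts ends S M) = W \ insert o (mverts ends (insert l S) M) := by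
    intro S M hlS
    ext x
    simp only [Finset.mem_sdiff, Finset.mem_erase, Finset.mem_insert, C4_mem_mverts]
    constructor
    · rintro ⟨⟨h1, h2⟩, h3⟩
      refine ⟨h2, ?_⟩
      rintro (h | (h | h) | h)
      · exact h3 (Or.inl h)
      · exact h1 h
      · exact h3 (Or.inr (Or.inl h))
      · exact h3 (Or.inr (Or.inr h))
    · rintro ⟨h1, h2⟩
      refine ⟨⟨fun h => h2 (Or.inr (Or.inl (Or.inl h))), h1⟩, ?_⟩
      rintro (h | h | h)
      · exact h2 (Or.inl h)
      · exact h2 (Or.inr (Or.inl (Or.inr h)))
      · exact h2 (Or.inr (Or.inr h))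
  apply Finset.sum_nbij' (fun p => (p.1.erase l, p.2)) (fun p => (insert l p.1, p.2))
  · rintro ⟨S, M⟩ hp
    have hlS : l ∈ S := key _ hp
    rw [C4_mem] at hp ⊢
    obtain ⟨hS, hM, hmark, hconn, hcard⟩ := hp
    have hXe := hX (S.erase l) M (Finset.notMem_erase l S)
    rw [Finset.insert_erase hlS] at hXe
    refine ⟨Finset.erase_subset_erase _ hS, hM, ?_, ?_, ?_⟩
    · refine ⟨fun h => hmark.1 (Finset.mem_of_mem_erase h), ?_, hmark.2.2⟩
      intro e he
      exact ⟨(hmark.2.1 e he).1, (hmark.2.1 e he).2.mono_right (Finset.erase_subset _ _)⟩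
    · simp only
      rw [hXe]; exact hconn
    · simp only
      rw [hXe]; exact hcard
  · rintro ⟨S, M⟩ hp
    rw [C4_mem] at hp ⊢
    obtain ⟨hS, hM, hmark, hconn, hcard⟩ := hp
    have hlS : l ∉ S := fun h => (Finset.mem_erase.1 (hS h)).1 rfl
    have hXe := hX S M hlS
    refine ⟨?_, hM, ?_, ?_, ?_⟩
    · intro x hx
      rcases Finset.mem_insert.1 hx with h | h
      · rw [h]; exact hl
      · exact (Finset.mem_erase.1 (hS h)).2
    · refine ⟨?_, ?_, hmark.2.2⟩
      · intro h
        rcases Finset.mem_insert.1 h with h | h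
        · exact hlo h.symm
        · exact hmark.1 h
      · intro e he
        refine ⟨(hmark.2.1 e he).1, ?_⟩
        rw [Finset.disjoint_insert_right]
        exact ⟨hlB e (hM he), (hmark.2.1 e he).2⟩
    · simp only at hconn ⊢
      rw [← hXe]; exact hconn
    · simp only at hcard ⊢
      rw [← hXe]; exact hcard
  · rintro ⟨S, M⟩ hp
    have hlS : l ∈ S := key _ hp
    simp only [Finset.insert_erase hlS]
  · rintro ⟨S, M⟩ hp
    rw [C4_mem] at hp
    have hlS : l ∉ S := fun h => (Finset.mem_erase.1 (hp.1 h)).1 rfl
    simp only [Finset.erase_insert hlS]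
  · rintro ⟨S, M⟩ hp
    rfl

/-- the pairs not touching the leaf edge -/
theorem C4_part1 (ends : E → Finset V) (o : V) (B : Finset E) (W : Finset V) (l m : V) (e : E)
    (hl : l ∈ W) (hlo : l ≠ o) (hlm : l ≠ m) (he : e ∈ B) (hee : ends e = {l, m})
    (honly : ∀ f ∈ B, l ∈ ends f → f = e) (p : Finset V × Finset E) :
    (p ∈ compat ends o W B ∧ (l ∉ p.1 ∧ e ∉ p.2)) ↔
      p ∈ compat ends o (W.erase l) (B.erase e) := by
  obtain ⟨S, M⟩ := p
  rw [C4_mem, C4_mem]
  simp only
  -- common facts
  have main : ∀ (hlS : l ∉ S) (heM : e ∉ M) (hM : M ⊆ B),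
      (Conn ends (W \ insert o (mverts ends S M)) (B \ M) ↔
        Conn ends ((W.erase l) \ insert o (mverts ends S M)) ((B.erase e) \ M)) ∧
      ((B \ M).card = (W \ insert o (mverts ends S M)).card ↔
        ((B.erase e) \ M).card = ((W.erase l) \ insert o (mverts ends S M)).card) := by
    intro hlS heM hM
    have hlR : l ∉ insert o (mverts ends S M) := by
      rw [Finset.mem_insert, C4_mem_mverts]
      rintro (h | h | ⟨f, hf, h⟩)
      · exact hlo h
      · exact hlS h
      · exact heM ((honly f (hM hf) h) ▸ hf)
    set R := insert o (mverts ends S M) with hR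
    have hXeq : W \ R = insert l ((W.erase l) \ R) := by
      ext x
      simp only [Finset.mem_sdiff, Finset.mem_insert, Finset.mem_erase]
      constructor
      · rintro ⟨h1, h2⟩
        by_cases hx : x = l
        · exact Or.inl hx
        · exact Or.inr ⟨⟨hx, h1⟩, h2⟩
      · rintro (h | ⟨⟨h1, h2⟩, h3⟩)
        · rw [h]; exact ⟨hl, hlR⟩
        · exact ⟨h2, h3⟩
    have hAeq : B \ M = insert e ((B.erase e) \ M) := by
      ext x
      simp only [Finset.mem_sdiff, Finset.mem_insert, Finset.mem_erase]
      constructor
      · rintro ⟨h1, h2⟩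
        by_cases hx : x = e
        · exact Or.inl hx
        · exact Or.inr ⟨⟨hx, h1⟩, h2⟩
      · rintro (h | ⟨⟨h1, h2⟩, h3⟩)
        · rw [h]; exact ⟨he, heM⟩
        · exact ⟨h2, h3⟩
    have hlX' : l ∉ (W.erase l) \ R := by
      simp only [Finset.mem_sdiff, Finset.mem_erase, ne_eq, not_true_eq_false, false_and,
        not_false_eq_true]
    have heA' : e ∉ (B.erase e) \ M := by
      simp only [Finset.mem_sdiff, Finset.mem_erase, ne_eq, not_true_eq_false, false_and,
        not_false_eq_true]
    have hA'l : ∀ f ∈ (B.erase e) \ M, l ∉ ends f := by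
      intro f hf hlf
      have h1 := (Finset.mem_sdiff.1 hf).1
      exact (Finset.mem_erase.1 h1).1 (honly f (Finset.mem_erase.1 h1).2 hlf)
    refine ⟨⟨?_, ?_⟩, ?_⟩
    · intro hC U hU hUne
      have hlU : l ∉ U := fun h => hlX' (hU h)
      by_cases hm : m ∈ U
      · have hsub : insert l U ⊆ W \ R := by
          rw [hXeq]
          exact Finset.insert_subset_insert _ hU
        obtain ⟨f, hf, hc⟩ := hC (insert l U) hsub (Finset.insert_nonempty _ _)
        have hfe : f ≠ e := by
          rintro rfl
          have : ends f ∩ insert l U = {l, m} := by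
            rw [hee]
            ext x
            simp only [Finset.mem_inter, Finset.mem_insert, Finset.mem_singleton]
            constructor
            · exact fun h => h.1
            · rintro (h | h)
              · exact ⟨Or.inl h, Or.inl h⟩
              · exact ⟨Or.inr h, Or.inr (h ▸ hm)⟩
          rw [this, Finset.card_pair hlm] at hc
          omega
        have hfA : f ∈ (B.erase e) \ M := by
          rw [hAeq] at hf
          rcases Finset.mem_insert.1 hf with h | h
          · exact absurd h hfe
          · exact h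
        refine ⟨f, hfA, ?_⟩
        rw [Finset.inter_insert_of_notMem (hA'l f hfA)] at hc
        exact hc
      · have hsub : U ⊆ W \ R := by
          rw [hXeq]
          exact hU.trans (Finset.subset_insert _ _)
        obtain ⟨f, hf, hc⟩ := hC U hsub hUne
        have hfe : f ≠ e := by
          rintro rfl
          have : ends f ∩ U = ∅ := by
            rw [hee]
            ext x
            simp only [Finset.mem_inter, Finset.mem_insert, Finset.mem_singleton,
              Finset.notMem_empty, iff_false]
            rintro ⟨h | h, h2⟩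
            · exact hlU (h ▸ h2)
            · exact hm (h ▸ h2)
          rw [this] at hc
          simp at hc
        refine ⟨f, ?_, hc⟩
        rw [hAeq] at hf
        rcases Finset.mem_insert.1 hf with h | h
        · exact absurd h hfe
        · exact h
    · intro hC U hU hUne
      rw [hXeq] at hU
      have hUl : ∀ {x}, x ∈ U → x ≠ l → x ∈ (W.erase l) \ R := by
        intro x hx hxl
        rcases Finset.mem_insert.1 (hU hx) with h | h
        · exact absurd h hxl
        · exact h
      by_cases hlU : l ∈ U
      · by_cases hm : m ∈ U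
        · have hne : (U.erase l).Nonempty := ⟨m, Finset.mem_erase.2 ⟨fun h => hlm h.symm, hm⟩⟩
          have hsub : U.erase l ⊆ (W.erase l) \ R := by
            intro x hx
            exact hUl (Finset.mem_erase.1 hx).2 (Finset.mem_erase.1 hx).1
          obtain ⟨f, hf, hc⟩ := hC _ hsub hne
          refine ⟨f, ?_, ?_⟩
          · rw [hAeq]; exact Finset.mem_insert_of_mem hf
          · rw [← hc]
            congr 1
            ext x
            simp only [Finset.mem_inter, Finset.mem_erase]
            constructor
            · rintro ⟨h1, h2⟩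
              exact ⟨h1, fun h => hA'l f hf (h ▸ h1), h2⟩
            · rintro ⟨h1, h2, h3⟩
              exact ⟨h1, h3⟩
        · refine ⟨e, ?_, ?_⟩
          · rw [hAeq]; exact Finset.mem_insert_self _ _
          · have : ends e ∩ U = {l} := by
              rw [hee]
              ext x
              simp only [Finset.mem_inter, Finset.mem_insert, Finset.mem_singleton]
              constructor
              · rintro ⟨h | h, h2⟩
                · exact h
                · exact absurd (h ▸ h2) hm
              · intro h
                exact ⟨Or.inl h, h ▸ hlU⟩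
            rw [this]
            exact Finset.card_singleton l
      · have hsub : U ⊆ (W.erase l) \ R := by
          intro x hx
          exact hUl hx (fun h => hlU (h ▸ hx))
        obtain ⟨f, hf, hc⟩ := hC U hsub hUne
        exact ⟨f, by rw [hAeq]; exact Finset.mem_insert_of_mem hf, hc⟩
    · rw [hXeq, hAeq, Finset.card_insert_of_notMem hlX', Finset.card_insert_of_notMem heA']
      omega
  constructor
  · rintro ⟨⟨hS, hM, hmark, hconn, hcard⟩, hlS, heM⟩
    obtain ⟨h1, h2⟩ := main hlS heM hM
    refine ⟨?_, ?_, hmark, h1.1 hconn, h2.1 hcard⟩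
    · intro x hx
      exact Finset.mem_erase.2 ⟨fun h => hlS (h ▸ hx), hS hx⟩
    · intro f hf
      exact Finset.mem_erase.2 ⟨fun h => heM (h ▸ hf), hM hf⟩
  · rintro ⟨hS, hM, hmark, hconn, hcard⟩
    have hlS : l ∉ S := fun h => (Finset.mem_erase.1 (hS h)).1 rfl
    have heM : e ∉ M := fun h => (Finset.mem_erase.1 (hM h)).1 rfl
    have hM' : M ⊆ B := hM.trans (Finset.erase_subset _ _)
    obtain ⟨h1, h2⟩ := main hlS heM hM'
    exact ⟨⟨hS.trans (Finset.erase_subset _ _), hM', hmark, h1.2 hconn, h2.2 hcard⟩, hlS, heM⟩

/-- first kind to second kind -/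
theorem C4_to2 (ends : E → Finset V) (o : V) (B : Finset E) (W : Finset V) (l m : V) (e : E)
    (hlm : l ≠ m) (he : e ∈ B) (hee : ends e = {l, m}) (hmW : m ∈ W)
    (hlo : l ≠ o) (S : Finset V) (M : Finset E) (hp : (S, M) ∈ compat ends o W B) (hlS : l ∈ S) :
    e ∉ M ∧ (S.erase l, insert e M) ∈ compat ends o W B := by
  rw [C4_mem] at hp
  obtain ⟨hS, hM, hmark, hconn, hcard⟩ := hp
  simp only at hS hM hmark hconn hcard
  have hel : l ∈ ends e := by rw [hee]; exact Finset.mem_insert_self _ _
  have hem : m ∈ ends e := by
    rw [hee]; exact Finset.mem_insert_of_mem (Finset.mem_singleton_self _)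
  have heM : e ∉ M := by
    intro h
    exact (Finset.disjoint_left.1 (hmark.2.1 e h).2) hel hlS
  refine ⟨heM, ?_⟩
  set R := insert o (mverts ends S M) with hR
  have hlR : l ∈ R := by
    rw [hR, Finset.mem_insert, C4_mem_mverts]
    exact Or.inr (Or.inl hlS)
  have heA : e ∈ B \ M := Finset.mem_sdiff.2 ⟨he, heM⟩
  have hmR : m ∉ R := by
    intro hmR
    have hC : Conn ends (W \ R) ((B \ M).erase e) := by
      intro U hU hUne
      obtain ⟨f, hf, hc⟩ := hconn U hU hUne
      refine ⟨f, Finset.mem_erase.2 ⟨?_, hf⟩, hc⟩
      rintro rfl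
      have : ends f ∩ U = ∅ := by
        rw [hee]
        ext x
        simp only [Finset.mem_inter, Finset.mem_insert, Finset.mem_singleton,
          Finset.notMem_empty, iff_false]
        rintro ⟨h | h, h2⟩
        · exact (Finset.mem_sdiff.1 (hU h2)).2 (h ▸ hlR)
        · exact (Finset.mem_sdiff.1 (hU h2)).2 (h ▸ hmR)
      rw [this] at hc
      simp at hc
    have h1 := card_le_of_conn ends _ _ hC
    have h2 := Finset.card_le_card (Finset.filter_subset
      (fun e => (ends e ∩ (W \ R)).Nonempty) ((B \ M).erase e))
    rw [Finset.card_erase_of_mem heA] at h2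
    have h3 : 0 < (B \ M).card := Finset.card_pos.2 ⟨e, heA⟩
    omega
  have hmR' : m ≠ o ∧ m ∉ S ∧ ∀ f ∈ M, m ∉ ends f := by
    rw [hR, Finset.mem_insert, C4_mem_mverts] at hmR
    push Not at hmR
    exact hmR
  obtain ⟨hmo, hmS, hmM⟩ := hmR'
  have hXeq : W \ insert o (mverts ends (S.erase l) (insert e M)) = (W \ R).erase m := by
    ext x
    rw [hR]
    simp only [Finset.mem_sdiff, Finset.mem_erase, Finset.mem_insert, C4_mem_mverts, hee,
      Finset.mem_singleton]
    constructor
    · rintro ⟨h1, h2⟩
      push Not at h2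
      obtain ⟨h3, h4, h5⟩ := h2
      have h6 := h5 e (Or.inl rfl)
      rw [hee, Finset.mem_insert, Finset.mem_singleton] at h6
      push Not at h6
      refine ⟨h6.2, h1, ?_⟩
      rintro (h | h | ⟨f, hf, h⟩)
      · exact h3 h
      · exact h4 h6.1 h
      · exact h5 f (Or.inr hf) h
    · rintro ⟨h0, h1, h2⟩
      push Not at h2
      obtain ⟨h3, h4, h5⟩ := h2
      refine ⟨h1, ?_⟩
      rintro (h | ⟨_, h⟩ | ⟨f, hf | hf, h⟩)
      · exact h3 h
      · exact h4 h
      · rw [hf, hee, Finset.mem_insert, Finset.mem_singleton] at h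
        rcases h with h | h
        · exact h4 (h ▸ hlS)
        · exact h0 h
      · exact h5 f hf h
  have hAeq : B \ insert e M = (B \ M).erase e := by
    ext x
    simp only [Finset.mem_sdiff, Finset.mem_erase, Finset.mem_insert]
    tauto
  have hmX : m ∈ W \ R := Finset.mem_sdiff.2 ⟨hmW, hmR⟩
  rw [C4_mem]
  refine ⟨(Finset.erase_subset _ _).trans hS, ?_, ?_, ?_, ?_⟩
  · intro f hf
    rcases Finset.mem_insert.1 hf with h | h
    · rw [h]; exact he
    · exact hM h
  · have hdis : ∀ f ∈ M, Disjoint (ends e) (ends f) := by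
      intro f hf
      rw [hee, Finset.disjoint_left]
      intro x hx hxf
      rcases Finset.mem_insert.1 hx with h | h
      · rw [h] at hxf
        exact (Finset.disjoint_left.1 (hmark.2.1 f hf).2) hxf hlS
      · rw [Finset.mem_singleton.1 h] at hxf
        exact hmM f hf hxf
    refine ⟨fun h => hmark.1 (Finset.mem_of_mem_erase h), ?_, ?_⟩
    · intro f hf
      rcases Finset.mem_insert.1 hf with h | h
      · rw [h, hee]
        refine ⟨?_, ?_⟩
        · rw [Finset.mem_insert, Finset.mem_singleton]
          rintro (h | h)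
          · exact hlo h.symm
          · exact hmo h.symm
        · rw [Finset.disjoint_left]
          intro x hx hxS
          rcases Finset.mem_insert.1 hx with h | h
          · exact (Finset.mem_erase.1 hxS).1 h
          · rw [Finset.mem_singleton.1 h] at hxS
            exact hmS (Finset.mem_of_mem_erase hxS)
      · exact ⟨(hmark.2.1 f h).1, (hmark.2.1 f h).2.mono_right (Finset.erase_subset _ _)⟩
    · intro f hf f' hf' hne
      rcases Finset.mem_insert.1 hf with h | h
      · rcases Finset.mem_insert.1 hf' with h' | h'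
        · exact absurd (h.trans h'.symm) hne
        · rw [h]; exact hdis f' h'
      · rcases Finset.mem_insert.1 hf' with h' | h'
        · rw [h']; exact (hdis f h).symm
        · exact hmark.2.2 f h f' h' hne
  · simp only
    rw [hXeq, hAeq]
    intro U hU hUne
    have hUX : U ⊆ W \ R := hU.trans (Finset.erase_subset _ _)
    obtain ⟨f, hf, hc⟩ := hconn U hUX hUne
    refine ⟨f, Finset.mem_erase.2 ⟨?_, hf⟩, hc⟩
    rintro rfl
    have : ends f ∩ U = ∅ := by
      rw [hee]
      ext x
      simp only [Finset.mem_inter, Finset.mem_insert, Finset.mem_singleton,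
        Finset.notMem_empty, iff_false]
      rintro ⟨h | h, h2⟩
      · exact (Finset.mem_sdiff.1 (hUX h2)).2 (h ▸ hlR)
      · exact (Finset.mem_erase.1 (hU h2)).1 h
    rw [this] at hc
    simp at hc
  · simp only
    rw [hXeq, hAeq, Finset.card_erase_of_mem heA, Finset.card_erase_of_mem hmX, hcard]

/-- second kind to first kind -/
theorem C4_to1 (ends : E → Finset V) (o : V) (B : Finset E) (W : Finset V) (l m : V) (e : E)
    (hl : l ∈ W) (hlm : l ≠ m) (he : e ∈ B) (hee : ends e = {l, m}) (hmW : m ∈ W)
    (hlo : l ≠ o) (honly : ∀ f ∈ B, l ∈ ends f → f = e) (S : Finset V) (M : Finset E)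
    (hp : (S, M) ∈ compat ends o W B) (heM : e ∈ M) :
    l ∉ S ∧ (insert l S, M.erase e) ∈ compat ends o W B := by
  rw [C4_mem] at hp
  obtain ⟨hS, hM, hmark, hconn, hcard⟩ := hp
  simp only at hS hM hmark hconn hcard
  have hel : l ∈ ends e := by rw [hee]; exact Finset.mem_insert_self _ _
  have hem : m ∈ ends e := by
    rw [hee]; exact Finset.mem_insert_of_mem (Finset.mem_singleton_self _)
  have hlS : l ∉ S := fun h => (Finset.disjoint_left.1 (hmark.2.1 e heM).2) hel h
  have hmS : m ∉ S := fun h => (Finset.disjoint_left.1 (hmark.2.1 e heM).2) hem h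
  have hmo : m ≠ o := fun h => (hmark.2.1 e heM).1 (h ▸ hem)
  have hmM : ∀ f ∈ M, f ≠ e → m ∉ ends f := by
    intro f hf hfe h
    exact (Finset.disjoint_left.1 (hmark.2.2 f hf e heM hfe)) h hem
  refine ⟨hlS, ?_⟩
  set R := insert o (mverts ends S M) with hR
  have hlR : l ∈ R := by
    rw [hR, Finset.mem_insert, C4_mem_mverts]
    exact Or.inr (Or.inr ⟨e, heM, hel⟩)
  have hmR : m ∈ R := by
    rw [hR, Finset.mem_insert, C4_mem_mverts]
    exact Or.inr (Or.inr ⟨e, heM, hem⟩)
  have hXeq : W \ insert o (mverts ends (insert l S) (M.erase e)) = insert m (W \ R) := by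
    ext x
    rw [hR]
    simp only [Finset.mem_sdiff, Finset.mem_insert, C4_mem_mverts, Finset.mem_erase]
    constructor
    · rintro ⟨h1, h2⟩
      push Not at h2
      obtain ⟨h3, ⟨h4, h4'⟩, h5⟩ := h2
      by_cases hxm : x = m
      · exact Or.inl hxm
      · refine Or.inr ⟨h1, ?_⟩
        rintro (h | h | ⟨f, hf, h⟩)
        · exact h3 h
        · exact h4' h
        · by_cases hfe : f = e
          · rw [hfe, hee, Finset.mem_insert, Finset.mem_singleton] at h
            rcases h with h | h
            · exact h4 h
            · exact hxm h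
          · exact h5 f ⟨hfe, hf⟩ h
    · rintro (h | ⟨h1, h2⟩)
      · rw [h]
        refine ⟨hmW, ?_⟩
        rintro (h | (h | h) | ⟨f, ⟨hfe, hf⟩, h⟩)
        · exact hmo h
        · exact hlm h.symm
        · exact hmS h
        · exact hmM f hf hfe h
      · push Not at h2
        obtain ⟨h3, h4, h5⟩ := h2
        refine ⟨h1, ?_⟩
        rintro (h | (h | h) | ⟨f, ⟨hfe, hf⟩, h⟩)
        · exact h3 h
        · exact h5 e heM (h ▸ hel)
        · exact h4 h
        · exact h5 f hf h
  have hAeq : B \ M.erase e = insert e (B \ M) := by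
    ext x
    simp only [Finset.mem_sdiff, Finset.mem_erase, Finset.mem_insert]
    constructor
    · rintro ⟨h1, h2⟩
      by_cases hx : x = e
      · exact Or.inl hx
      · exact Or.inr ⟨h1, fun h => h2 ⟨hx, h⟩⟩
    · rintro (h | ⟨h1, h2⟩)
      · rw [h]; exact ⟨he, fun h => h.1 rfl⟩
      · exact ⟨h1, fun h => h2 h.2⟩
  have hmX : m ∉ W \ R := fun h => (Finset.mem_sdiff.1 h).2 hmR
  have heA : e ∉ B \ M := fun h => (Finset.mem_sdiff.1 h).2 heM
  rw [C4_mem]
  refine ⟨?_, (Finset.erase_subset _ _).trans hM, ?_, ?_, ?_⟩
  · intro x hx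
    rcases Finset.mem_insert.1 hx with h | h
    · rw [h]; exact hl
    · exact hS h
  · refine ⟨?_, ?_, ?_⟩
    · intro h
      rcases Finset.mem_insert.1 h with h | h
      · exact hlo h.symm
      · exact hmark.1 h
    · intro f hf
      have hf' := Finset.mem_erase.1 hf
      refine ⟨(hmark.2.1 f hf'.2).1, ?_⟩
      rw [Finset.disjoint_insert_right]
      exact ⟨fun h => hf'.1 (honly f (hM hf'.2) h), (hmark.2.1 f hf'.2).2⟩
    · intro f hf f' hf' hne
      exact hmark.2.2 f (Finset.mem_erase.1 hf).2 f' (Finset.mem_erase.1 hf').2 hne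
  · simp only
    rw [hXeq, hAeq]
    intro U hU hUne
    have hlU : l ∉ U := by
      intro h
      rcases Finset.mem_insert.1 (hU h) with h' | h'
      · exact hlm h'
      · exact (Finset.mem_sdiff.1 h').2 hlR
    by_cases hm : m ∈ U
    · refine ⟨e, Finset.mem_insert_self _ _, ?_⟩
      have : ends e ∩ U = {m} := by
        rw [hee]
        ext x
        simp only [Finset.mem_inter, Finset.mem_insert, Finset.mem_singleton]
        constructor
        · rintro ⟨h | h, h2⟩
          · exact absurd (h ▸ h2) hlU
          · exact h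
        · intro h
          exact ⟨Or.inr h, h ▸ hm⟩
      rw [this]
      exact Finset.card_singleton m
    · have hsub : U ⊆ W \ R := by
        intro x hx
        rcases Finset.mem_insert.1 (hU hx) with h | h
        · exact absurd (h ▸ hx) hm
        · exact h
      obtain ⟨f, hf, hc⟩ := hconn U hsub hUne
      exact ⟨f, Finset.mem_insert_of_mem hf, hc⟩
  · simp only
    rw [hXeq, hAeq, Finset.card_insert_of_notMem heA, Finset.card_insert_of_notMem hmX, hcard]

theorem C4_base (ends : E → Finset V) (hends : ∀ e, (ends e).card = 2) (o : V)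
    (B : Finset E) (hBW : ∀ e ∈ B, ends e ⊆ {o}) :
    ∑ p ∈ compat ends o {o} B, (-1 : ℤ) ^ p.2.card = 1 := by
  have hB : B = ∅ := by
    rw [Finset.eq_empty_iff_forall_notMem]
    intro e he
    have h1 := Finset.card_le_card (hBW e he)
    rw [hends e, Finset.card_singleton] at h1
    omega
  have hc : compat ends o {o} B = {(∅, ∅)} := by
    ext ⟨S, M⟩
    rw [C4_mem, Finset.mem_singleton, Prod.mk.injEq]
    simp only
    constructor
    · rintro ⟨hS, hM, hmark, hconn, hcard⟩
      refine ⟨?_, ?_⟩
      · rw [Finset.eq_empty_iff_forall_notMem]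
        intro x hx
        have := Finset.mem_singleton.1 (hS hx)
        exact hmark.1 (this ▸ hx)
      · rw [hB] at hM
        exact Finset.subset_empty.1 hM
    · rintro ⟨rfl, rfl⟩
      refine ⟨Finset.empty_subset _, Finset.empty_subset _, ?_, ?_, ?_⟩
      · refine ⟨Finset.notMem_empty _, ?_, ?_⟩
        · intro e he; exact absurd he (Finset.notMem_empty _)
        · intro e he; exact absurd he (Finset.notMem_empty _)
      · intro U hU hUne
        exfalso
        obtain ⟨x, hx⟩ := hUne
        have h1 := Finset.mem_sdiff.1 (hU hx)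
        exact h1.2 (Finset.mem_insert.2 (Or.inl (Finset.mem_singleton.1 h1.1)))
      · rw [hB]
        have : ({o} : Finset V) \ insert o (mverts ends ∅ ∅) = ∅ := by
          ext x
          simp only [Finset.mem_sdiff, Finset.mem_singleton, Finset.mem_insert,
            Finset.notMem_empty, iff_false]
          rintro ⟨h1, h2⟩
          exact h2 (Or.inl h1)
        rw [this]
        rfl
  rw [hc, Finset.sum_singleton]
  rfl

/-- ROW SND-C4. Each component of a forest not containing `o` has as many vertices as edges plus
one: the signed number of markings is one.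

Proof: induction on `W.card`.
* `#W = 1`: `W = {o}`, `B = ∅` (an edge has two ends in `W`), the only compatible pair is `(∅, ∅)`:
  sum `= 1`.
* `#W ≥ 2`: by `exists_leaf` there is `l ∈ W`, `l ≠ o`, `degF B l ≤ 1`. Write
  `R = insert o (mverts S M)`, `X = W \ R`, `A = B \ M`.
  (i) `degF B l = 0`: if `(S, M)` is compatible then `l ∈ R` (otherwise `U = {l} ⊆ X` is crossed by
  no edge), so `l ∈ S` (no edge of `M` contains `l`, `l ≠ o`). `(S, M) ↦ (S.erase l, M)` is a
  bijection onto the compatible pairs of `(W.erase l, B)` with the same `M` (same `X`, same `A`).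
  (ii) `degF B l = 1`: let `e = {l, m}` be the only edge of `B` containing `l`.
   - pairs with `l ∉ S`, `e ∉ M`: (then `l ∉ R`) `(S, M)` compatible for `(W, B)` iff compatible for
     `(W.erase l, B.erase e)` [`X = insert l X'`, `A = insert e A'`. If `Conn X A`, then
     `Conn X' A'` since for `U ⊆ X'`, `l ∉ U`: if `e` crosses `U` then `m ∈ U`, `m ∈ X'`; in this
     case apply `Conn X A` to `insert l U`: the witness `f ≠ e` (both ends of `e` are in it), and
     `f` does not contain `l`, so `f` crosses `U`. Conversely if `Conn X' A'` and `U ⊆ X`,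
     `l ∈ U`: if `m ∉ U` then `e` crosses; if `m ∈ U` then `m ∈ X'`, `U.erase l ∋ m` is nonempty
     and is crossed by some `f ∈ A'`, `f ∌ l`, so `f` crosses `U`; if `l ∉ U` use `A'`.]
     By the induction hypothesis the sum over these pairs is `1` (`Acyc (B.erase e)`).
   - pairs with `l ∈ S` (then `e ∉ M`, as the edges of `M` are disjoint from `S`) and pairs with
     `e ∈ M` (then `l ∉ S`): `(S, M) ↦ (S.erase l, insert e M)` is a bijection from the first kind
     to the second kind, so the contributions cancel. [First kind: `m ∉ R`: otherwise `e ∈ A` has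
     both ends in `R`, `A.erase e` still connects `X` (`e` does not cross subsets of `X`) and by
     `card_le_of_conn` `#X ≤ #A - 1`, contradiction. In particular `m ≠ o`, `m ∉ S`, `m` not
     covered by `M`, so `(S.erase l, insert e M)` is a marking; the new `X` is `X.erase m` and the
     new `A` is `A.erase e`: cardinalities agree; for nonempty `U ⊆ X.erase m` the witness is not
     `e`, as `e` does not meet `U`. Conversely let `e ∈ M`: `(insert l S, M.erase e)`: a marking
     (the edges of `M.erase e` are disjoint from `{l, m}`); the new `X` is `insert m X`, the new `A`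
     is `insert e A`; a `U ∋ m` is crossed by `e` (as `l ∉ X`), a `U ∌ m` by `A`.] -/
theorem sum_compat (ends : E → Finset V) (hends : ∀ e, (ends e).card = 2) (o : V)
    (B : Finset E) (hB : Acyc ends B) (W : Finset V) (ho : o ∈ W)
    (hBW : ∀ e ∈ B, ends e ⊆ W) :
    ∑ p ∈ compat ends o W B, (-1 : ℤ) ^ p.2.card = 1 := by
  obtain ⟨n, hn⟩ : ∃ n, W.card = n := ⟨_, rfl⟩
  induction n generalizing W B with
  | zero =>
    exfalso
    rw [Finset.card_eq_zero] at hn
    rw [hn] at ho
    exact Finset.notMem_empty o ho
  | succ n ih =>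
    by_cases hn1 : n = 0
    · have hW : W = {o} := by
        rw [hn1] at hn
        obtain ⟨x, hx⟩ := Finset.card_eq_one.1 hn
        rw [hx] at ho ⊢
        rw [Finset.mem_singleton.1 ho]
      subst hW
      exact C4_base ends hends o B hBW
    · have hW2 : 2 ≤ W.card := by omega
      obtain ⟨l, hl, hlo, hdeg⟩ := exists_leaf ends hends o B hB W ho hW2 hBW
      have hcardW : (W.erase l).card = n := by
        rw [Finset.card_erase_of_mem hl, hn]; rfl
      have hoW : o ∈ W.erase l := Finset.mem_erase.2 ⟨fun h => hlo h.symm, ho⟩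
      rcases Nat.lt_or_ge (degF ends B l) 1 with hd | hd
      · have hlB := C4_notmem ends B l (by omega)
        rw [C4_zero ends o B W l hl hlo hlB]
        apply ih B hB (W.erase l) hoW _ hcardW
        intro e he x hx
        exact Finset.mem_erase.2 ⟨fun h => hlB e he (h ▸ hx), hBW e he hx⟩
      · have hd1 : degF ends B l = 1 := le_antisymm hdeg hd
        unfold degF at hd1
        obtain ⟨e, hfe⟩ := Finset.card_eq_one.1 hd1
        have he' : e ∈ B.filter (fun e => l ∈ ends e) := by
          rw [hfe]; exact Finset.mem_singleton_self e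
        obtain ⟨he, hle⟩ := Finset.mem_filter.1 he'
        have honly : ∀ f ∈ B, l ∈ ends f → f = e := by
          intro f hf hlf
          have : f ∈ B.filter (fun e => l ∈ ends e) := Finset.mem_filter.2 ⟨hf, hlf⟩
          rw [hfe] at this
          exact Finset.mem_singleton.1 this
        obtain ⟨x, y, hxy, hexy⟩ := Finset.card_eq_two.1 (hends e)
        obtain ⟨m, hlm, hee⟩ : ∃ m, l ≠ m ∧ ends e = {l, m} := by
          rw [hexy] at hle
          rcases Finset.mem_insert.1 hle with h | h
          · exact ⟨y, h ▸ hxy, by rw [hexy, h]⟩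
          · have h := Finset.mem_singleton.1 h
            exact ⟨x, fun h' => hxy (h'.symm.trans h), by rw [hexy, h, Finset.pair_comm]⟩
        have hmW : m ∈ W := by
          apply hBW e he
          rw [hee]; exact Finset.mem_insert_of_mem (Finset.mem_singleton_self _)
        -- splitting
        rw [← Finset.sum_filter_add_sum_filter_not (compat ends o W B)
          (fun p => l ∉ p.1 ∧ e ∉ p.2)]
        have h1 : (compat ends o W B).filter (fun p => l ∉ p.1 ∧ e ∉ p.2) =
            compat ends o (W.erase l) (B.erase e) := by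
          ext p
          rw [Finset.mem_filter]
          exact C4_part1 ends o B W l m e hl hlo hlm he hee honly p
        have h2 : ∑ p ∈ (compat ends o W B).filter (fun p => ¬ (l ∉ p.1 ∧ e ∉ p.2)),
            (-1 : ℤ) ^ p.2.card = 0 := by
          refine Finset.sum_involution (fun p _ => if l ∈ p.1 then (p.1.erase l, insert e p.2)
            else (insert l p.1, p.2.erase e)) ?_ ?_ ?_ ?_
          · rintro ⟨S, M⟩ hp
            rw [Finset.mem_filter] at hp
            by_cases hlS : l ∈ S
            · obtain ⟨heM, -⟩ := C4_to2 ends o B W l m e hlm he hee hmW hlo S M hp.1 hlS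
              simp only [hlS, if_true]
              rw [Finset.card_insert_of_notMem heM]
              ring
            · have heM : e ∈ M := by
                by_contra h
                exact hp.2 ⟨hlS, h⟩
              simp only [hlS, if_false]
              rw [Finset.card_erase_of_mem heM]
              have hpos : 0 < M.card := Finset.card_pos.2 ⟨e, heM⟩
              obtain ⟨k, hk⟩ : ∃ k, M.card = k + 1 := ⟨M.card - 1, by omega⟩
              rw [hk, Nat.add_sub_cancel]
              ring
          · rintro ⟨S, M⟩ hp _ heq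
            by_cases hlS : l ∈ S
            · simp only [hlS, if_true, Prod.mk.injEq] at heq
              have := heq.1
              rw [← this] at hlS
              exact absurd rfl (Finset.mem_erase.1 hlS).1
            · simp only [hlS, if_false, Prod.mk.injEq] at heq
              apply hlS
              rw [← heq.1]
              exact Finset.mem_insert_self _ _
          · rintro ⟨S, M⟩ hp
            rw [Finset.mem_filter] at hp
            by_cases hlS : l ∈ S
            · obtain ⟨heM, hmem⟩ := C4_to2 ends o B W l m e hlm he hee hmW hlo S M hp.1 hlS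
              simp only [hlS, if_true, Finset.mem_filter]
              refine ⟨hmem, ?_⟩
              rintro ⟨-, h⟩
              exact h (Finset.mem_insert_self _ _)
            · have heM : e ∈ M := by
                by_contra h
                exact hp.2 ⟨hlS, h⟩
              obtain ⟨-, hmem⟩ := C4_to1 ends o B W l m e hl hlm he hee hmW hlo honly S M hp.1 heM
              simp only [hlS, if_false, Finset.mem_filter]
              refine ⟨hmem, ?_⟩
              rintro ⟨h, -⟩
              exact h (Finset.mem_insert_self _ _)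
          · rintro ⟨S, M⟩ hp
            rw [Finset.mem_filter] at hp
            by_cases hlS : l ∈ S
            · obtain ⟨heM, -⟩ := C4_to2 ends o B W l m e hlm he hee hmW hlo S M hp.1 hlS
              simp only [hlS, if_true, Finset.mem_erase, ne_eq, not_true_eq_false, false_and,
                if_false, Finset.insert_erase hlS, Finset.erase_insert heM]
            · have heM : e ∈ M := by
                by_contra h
                exact hp.2 ⟨hlS, h⟩
              simp only [hlS, if_false, Finset.mem_insert_self, if_true,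
                Finset.insert_erase heM, Finset.erase_insert hlS]
        rw [h1, h2, add_zero]
        apply ih (B.erase e) _ (W.erase l) hoW _ hcardW
        · intro D hD hev
          exact hB D (hD.trans (Finset.erase_subset _ _)) hev
        · intro f hf x hx
          have hf' := Finset.mem_erase.1 hf
          refine Finset.mem_erase.2 ⟨?_, hBW f hf'.2 hx⟩
          rintro rfl
          exact hf'.1 (honly f hf'.2 hx)

end SND
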