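import Pool.Agent.SND.Defs

open Finset

namespace SND

variable {V : Type} [Fintype V] [DecidableEq V]

/-- rectangular blocks -/
def C5_blk (M : Matrix V V ℝ) (P Q : Finset V) : Matrix P Q ℝ :=
  M.submatrix (Subtype.val : P → V) (Subtype.val : Q → V)

theorem C5_sum (o : V) (R : Finset V) (ho : o ∉ R) (f : V → ℝ) :
    (∑ w ∈ univ \ insert o R, f w) + ∑ w ∈ R, f w = ∑ w ∈ univ.erase o, f w := by
  have hd : Disjoint (univ \ insert o R) R := by
    rw [Finset.disjoint_left]
    intro x hx hxR
    simp only [mem_sdiff, mem_univ, true_and, mem_insert, not_or] at hx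
    exact hx.2 hxR
  rw [← Finset.sum_union hd]
  congr 1
  ext x
  simp only [mem_union, mem_sdiff, mem_univ, true_and, mem_insert, not_or, mem_erase, and_true]
  constructor
  · rintro (h | h)
    · exact h.1
    · rintro rfl
      exact ho h
  · intro h
    by_cases hx : x ∈ R
    · exact Or.inr hx
    · exact Or.inl ⟨h, hx⟩

theorem C5_memX {o : V} {R : Finset V} {x : V} (h : x ∈ univ \ insert o R) :
    x ∈ univ.erase o := by
  simp only [mem_sdiff, mem_univ, true_and, mem_insert, not_or] at h
  simp [h.1]

theorem C5_memR {o : V} {R : Finset V} (ho : o ∉ R) {x : V} (h : x ∈ R) :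
    x ∈ univ.erase o := by
  simp only [mem_erase, mem_univ, and_true]
  rintro rfl
  exact ho h

/-- the splitting -/
noncomputable def C5_e (o : V) (R : Finset V) (ho : o ∉ R) :
    ((univ \ insert o R : Finset V) ⊕ (R : Finset V)) ≃ (univ.erase o : Finset V) :=
  Equiv.ofBijective (Sum.elim (fun x => ⟨x.1, C5_memX x.2⟩) (fun y => ⟨y.1, C5_memR ho y.2⟩)) (by
    constructor
    · rintro (⟨x, hx⟩ | ⟨x, hx⟩) (⟨y, hy⟩ | ⟨y, hy⟩) h
      · simpa using h
      · exfalso
        have h1 : x = y := by simpa using h
        subst h1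
        simp only [mem_sdiff, mem_univ, true_and, mem_insert, not_or] at hx
        exact hx.2 hy
      · exfalso
        have h1 : x = y := by simpa using h
        subst h1
        simp only [mem_sdiff, mem_univ, true_and, mem_insert, not_or] at hy
        exact hy.2 hx
      · simpa using h
    · rintro ⟨x, hx⟩
      by_cases h : x ∈ R
      · exact ⟨Sum.inr ⟨x, h⟩, rfl⟩
      · refine ⟨Sum.inl ⟨x, ?_⟩, rfl⟩
        simp only [mem_erase, mem_univ, and_true] at hx
        simp only [mem_sdiff, mem_univ, true_and, mem_insert, not_or]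
        exact ⟨hx, h⟩)

theorem C5_sub (M : Matrix V V ℝ) (o : V) (R : Finset V) (ho : o ∉ R) :
    (sub M (univ.erase o)).det = (Matrix.fromBlocks
      (sub M (univ \ insert o R)) (C5_blk M (univ \ insert o R) R)
      (C5_blk M R (univ \ insert o R)) (sub M R)).det := by
  rw [← Matrix.det_submatrix_equiv_self (C5_e o R ho) (sub M (univ.erase o))]
  congr 1
  ext (x | x) (y | y) <;> rfl

/-- ROW SND-C5 (Jacobi's complementary minor theorem, principal case).

Proof. Let `V₀ = univ.erase o`, `X = univ \ insert o R = V₀ \ R`. Let `L₀ = sub L V₀`,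
`G₀ = sub G V₀` (matrices indexed by `V₀`); the hypothesis says `L₀ * G₀ = 1`. Let `Q` be the
matrix indexed by `V₀` whose column `y` is the unit vector `e_y` if `y ∉ R` and the column `y`
of `G₀` if `y ∈ R`. Then (splitting `V₀ = X ⊔ R`, e.g. with `Equiv.sumCompl`/
`Matrix.twoBlockTriangular_det`, `Matrix.det_fromBlocks_zero₂₁`, `Matrix.det_fromBlocks_zero₁₂`)
`det Q = det (sub G R)`, and `L₀ * Q` has the column `y` of `L₀` for `y ∉ R` and the unit vector
`e_y` for `y ∈ R`, so `det (L₀ * Q) = det (sub L X)`. Hence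
`det (sub L X) = det L₀ * det (sub G R)`. -/
theorem det_sub_eq (L G : Matrix V V ℝ) (o : V)
    (hG : ∀ x y, x ≠ o → y ≠ o →
      ∑ w ∈ univ.erase o, L x w * G w y = if x = y then 1 else 0)
    (R : Finset V) (ho : o ∉ R) :
    (sub L (univ \ insert o R)).det = (sub L (univ.erase o)).det * (sub G R).det := by
  have hmul : Matrix.fromBlocks
      (sub L (univ \ insert o R)) (C5_blk L (univ \ insert o R) R)
      (C5_blk L R (univ \ insert o R)) (sub L R) *
      Matrix.fromBlocks 1 (C5_blk G (univ \ insert o R) R) 0 (sub G R) =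
      Matrix.fromBlocks (sub L (univ \ insert o R)) 0 (C5_blk L R (univ \ insert o R)) 1 := by
    rw [Matrix.fromBlocks_multiply]
    have h1 : sub L (univ \ insert o R) * C5_blk G (univ \ insert o R) R +
        C5_blk L (univ \ insert o R) R * sub G R = 0 := by
      ext x y
      rw [Matrix.add_apply, Matrix.mul_apply, Matrix.mul_apply, Matrix.zero_apply]
      have hx := x.2
      simp only [mem_sdiff, mem_univ, true_and, mem_insert, not_or] at hx
      have hy : (y : V) ≠ o := fun h => ho (h ▸ y.2)
      have hxy : (x : V) ≠ y := fun h => hx.2 (h ▸ y.2)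
      have h2 := hG x y hx.1 hy
      rw [if_neg hxy, ← C5_sum o R ho, ← Finset.sum_coe_sort, ← Finset.sum_coe_sort R] at h2
      exact h2
    have h3 : C5_blk L R (univ \ insert o R) * C5_blk G (univ \ insert o R) R +
        sub L R * sub G R = 1 := by
      ext x y
      rw [Matrix.add_apply, Matrix.mul_apply, Matrix.mul_apply, Matrix.one_apply]
      have hx : (x : V) ≠ o := fun h => ho (h ▸ x.2)
      have hy : (y : V) ≠ o := fun h => ho (h ▸ y.2)
      have h2 := hG x y hx hy
      rw [← C5_sum o R ho, ← Finset.sum_coe_sort, ← Finset.sum_coe_sort R] at h2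
      refine h2.trans ?_
      simp only [Subtype.ext_iff]
    rw [h1, h3, Matrix.mul_one, Matrix.mul_zero, add_zero, Matrix.mul_one, Matrix.mul_zero,
      add_zero]
  have h4 := congrArg Matrix.det hmul
  rw [Matrix.det_mul, Matrix.det_fromBlocks_zero₂₁, Matrix.det_fromBlocks_zero₁₂,
    Matrix.det_one, Matrix.det_one, one_mul, mul_one, ← C5_sub L o R ho] at h4
  exact h4.symm

end SND
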