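import Pool.Agent.SND.Defs

open Finset

namespace SND

variable {V : Type} [Fintype V] [DecidableEq V]

/-- ROW SND-D1. The functional exists.

Proof. For `s : V →₀ ℕ` let `J s = Σ v : V, Fin (s v)` and
`c s = (Matrix.of fun p q : J s => G p.1 q.1).det`. Define `l` on the basis of monomials
(`MvPolynomial.basisMonomials`, `Basis.constr`, or `Finsupp.linearCombination`/`Finsupp.lsum`) by
`l (monomial s 1) = c s`. For `v : ι → V` one has `∏ i, X (v i) = monomial s 1` with
`s = ∑ i, Finsupp.single (v i) 1`, `s u = #{i | v i = u}`, and there is an equivalence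
`ε : ι ≃ J s` with `(ε i).1 = v i` (`Equiv.sigmaFiberEquiv`, `Fintype.equivFinOfCardEq` on each
fiber); conclude by `Matrix.det_submatrix_equiv_self` / `Matrix.det_reindex_self`. -/
theorem exists_isFun (G : Matrix V V ℝ) : ∃ l, IsFun G l := by
  classical
  let c : (V →₀ ℕ) → ℝ := fun s =>
    (Matrix.of fun p q : (Σ v : V, Fin (s v)) => G p.1 q.1).det
  refine ⟨(MvPolynomial.basisMonomials V ℝ).constr ℝ c, ?_⟩
  intro ι _ _ v
  have hprod : (∏ i, MvPolynomial.X (v i) : MvPolynomial V ℝ)
      = MvPolynomial.monomial (∑ i, Finsupp.single (v i) 1) 1 := by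
    have hmon : ∀ t : Finset ι, (∏ i ∈ t, MvPolynomial.X (v i) : MvPolynomial V ℝ)
      = MvPolynomial.monomial (∑ i ∈ t, Finsupp.single (v i) 1) 1 := by
      intro t
      induction t using Finset.induction_on with
      | empty => simp
      | insert a t ha ih =>
        rw [Finset.prod_insert ha, Finset.sum_insert ha, ih, MvPolynomial.X,
          MvPolynomial.monomial_mul, one_mul]
    exact hmon univ
  have hs : ∀ u, (∑ i, Finsupp.single (v i) 1 : V →₀ ℕ) u
      = Fintype.card {i // v i = u} := by
    intro u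
    rw [Finsupp.finset_sum_apply, Fintype.card_subtype, Finset.card_filter]
    refine Finset.sum_congr rfl fun i _ => ?_
    rw [Finsupp.single_apply]
  set s : V →₀ ℕ := ∑ i, Finsupp.single (v i) 1 with hsdef
  have hl : (MvPolynomial.basisMonomials V ℝ).constr ℝ c (MvPolynomial.monomial s 1) = c s := by
    have : MvPolynomial.monomial s (1 : ℝ) = MvPolynomial.basisMonomials V ℝ s := by
      simp [MvPolynomial.coe_basisMonomials]
    rw [this, Module.Basis.constr_basis]
  rw [hprod, hl]
  let ε : ι ≃ (Σ u : V, Fin (s u)) :=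
    (Equiv.sigmaFiberEquiv v).symm.trans
      (Equiv.sigmaCongrRight fun u => Fintype.equivFinOfCardEq (hs u).symm)
  have hε : ∀ i, (ε i).1 = v i := by
    intro i; rfl
  have := Matrix.det_submatrix_equiv_self ε
    (Matrix.of fun p q : (Σ v : V, Fin (s v)) => G p.1 q.1)
  change (Matrix.of fun p q : (Σ v : V, Fin (s v)) => G p.1 q.1).det = _
  rw [← this]
  rfl

end SND
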