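import Pool.Agent.SND.Defs

open Finset MvPolynomial

namespace SND

variable {V E : Type} [Fintype V] [DecidableEq V] [Fintype E] [DecidableEq E]

/-- the vertices of an element -/
def D2_vs (t h : E → V) : V ⊕ E → Finset V
  | Sum.inl v => {v}
  | Sum.inr e => {t e, h e}

/-- the sign of an element -/
def D2_sg : V ⊕ E → ℝ
  | Sum.inl _ => 1
  | Sum.inr _ => -1

/-- the polynomial of an element -/
noncomputable def D2_tau (t h : E → V) (x : V ⊕ E) : MvPolynomial V ℝ :=
  C (D2_sg x) * ∏ u ∈ D2_vs t h x, X u

theorem D2_sum (t h : E → V) (hth : ∀ e, t e ≠ h e) :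
    ∑ x, D2_tau t h x = ∑ v, X v - ∑ e, X (t e) * X (h e) := by
  rw [Fintype.sum_sum_type, sub_eq_add_neg, ← Finset.sum_neg_distrib]
  congr 1
  · apply Finset.sum_congr rfl
    intro v _
    simp [D2_tau, D2_sg, D2_vs]
  · apply Finset.sum_congr rfl
    intro e _
    simp only [D2_tau, D2_sg, D2_vs]
    rw [Finset.prod_pair (hth e)]
    simp

/-- the positions -/
abbrev D2_J (t h : E → V) {k : ℕ} (p : Fin k → V ⊕ E) : Type :=
  Σ i : Fin k, {u : V // u ∈ D2_vs t h (p i)}

/-- the vertex of a position -/
def D2_pos (t h : E → V) {k : ℕ} (p : Fin k → V ⊕ E) (q : D2_J t h p) : V := q.2.1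

theorem D2_l (t h : E → V) (G : Matrix V V ℝ) (l : MvPolynomial V ℝ →ₗ[ℝ] ℝ) (hl : IsFun G l)
    {k : ℕ} (p : Fin k → V ⊕ E) :
    l (∏ i, D2_tau t h (p i)) = (∏ i, D2_sg (p i)) *
      (Matrix.of fun q q' : D2_J t h p => G (D2_pos t h p q) (D2_pos t h p q')).det := by
  have h1 : ∏ i, D2_tau t h (p i) =
      (∏ i, D2_sg (p i)) • ∏ q : D2_J t h p, (X (D2_pos t h p q) : MvPolynomial V ℝ) := by
    unfold D2_tau
    rw [Finset.prod_mul_distrib, ← map_prod, ← MvPolynomial.C_mul', Fintype.prod_sigma]
    congr 1
    apply Finset.prod_congr rfl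
    intro i _
    simp only [D2_pos]
    exact (Finset.prod_coe_sort (D2_vs t h (p i)) (fun u => (X u : MvPolynomial V ℝ))).symm
  rw [h1, map_smul, smul_eq_mul, hl (D2_J t h p) (D2_pos t h p)]

theorem D2_mem_vs_inr (t h : E → V) (e : E) (u : V) :
    u ∈ D2_vs t h (Sum.inr e) ↔ u ∈ ({t e, h e} : Finset V) := Iff.rfl

theorem D2_mem_vs_inl (t h : E → V) (v : V) (u : V) :
    u ∈ D2_vs t h (Sum.inl v) ↔ u = v := Finset.mem_singleton

/-- the condition on an injective family -/
def D2_good (t h : E → V) (o : V) (T : Finset (V ⊕ E)) : Prop :=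
  IsMark (fun e => ({t e, h e} : Finset V)) o T.toLeft T.toRight

theorem D2_inj_of (t h : E → V) {k : ℕ} (p : Fin k → V ⊕ E)
    (hinj : Function.Injective (D2_pos t h p)) : ∀ i j, ∀ u, u ∈ D2_vs t h (p i) →
      u ∈ D2_vs t h (p j) → i = j := by
  intro i j u hi hj
  have := @hinj ⟨i, u, hi⟩ ⟨j, u, hj⟩ rfl
  exact congrArg Sigma.fst this

theorem D2_nonempty (t h : E → V) (x : V ⊕ E) : ∃ u, u ∈ D2_vs t h x := by
  cases x with
  | inl v => exact ⟨v, Finset.mem_singleton_self v⟩
  | inr e => exact ⟨t e, Finset.mem_insert_self _ _⟩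

theorem D2_iff (t h : E → V) (o : V) {k : ℕ} (p : Fin k → V ⊕ E) :
    (Function.Injective (D2_pos t h p) ∧ ∀ q, D2_pos t h p q ≠ o) ↔
      (Function.Injective p ∧ D2_good t h o (univ.image p)) := by
  have himg : ∀ x, x ∈ univ.image p ↔ ∃ i, p i = x := by
    intro x
    simp only [Finset.mem_image, Finset.mem_univ, true_and]
  constructor
  · rintro ⟨hinj, ho⟩
    have hij := D2_inj_of t h p hinj
    refine ⟨?_, ?_, ?_, ?_⟩
    · intro i j hpij
      obtain ⟨u, hu⟩ := D2_nonempty t h (p i)
      exact hij i j u hu (hpij ▸ hu)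
    · rw [Finset.mem_toLeft, himg]
      rintro ⟨i, hi⟩
      exact ho ⟨i, o, by rw [hi]; exact Finset.mem_singleton_self o⟩ rfl
    · intro e he
      rw [Finset.mem_toRight, himg] at he
      obtain ⟨i, hi⟩ := he
      refine ⟨?_, ?_⟩
      · intro hoe
        exact ho ⟨i, o, by rw [hi]; exact hoe⟩ rfl
      · rw [Finset.disjoint_left]
        intro u hu hu'
        rw [Finset.mem_toLeft, himg] at hu'
        obtain ⟨j, hj⟩ := hu'
        have := hij i j u (by rw [hi]; exact hu) (by rw [hj]; exact Finset.mem_singleton_self u)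
        rw [this, hj] at hi
        exact Sum.inl_ne_inr hi
    · intro e he f hf hef
      rw [Finset.mem_toRight, himg] at he hf
      obtain ⟨i, hi⟩ := he
      obtain ⟨j, hj⟩ := hf
      rw [Finset.disjoint_left]
      intro u hu hu'
      have := hij i j u (by rw [hi]; exact hu) (by rw [hj]; exact hu')
      rw [this, hj] at hi
      exact hef (Sum.inr_injective hi).symm
  · rintro ⟨hp, hgood⟩
    obtain ⟨h1, h2, h3⟩ := hgood
    refine ⟨?_, ?_⟩
    · rintro ⟨i, u, hu⟩ ⟨j, u', hu'⟩ huu
      simp only [D2_pos] at huu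
      subst huu
      have hij : i = j := by
        by_contra hne
        have hpne : p i ≠ p j := fun hh => hne (hp hh)
        have hi' : p i ∈ univ.image p := (himg _).2 ⟨i, rfl⟩
        have hj' : p j ∈ univ.image p := (himg _).2 ⟨j, rfl⟩
        rcases hpi : p i with v | e
        · rcases hpj : p j with v' | e'
          · rw [hpi, D2_mem_vs_inl] at hu
            rw [hpj, D2_mem_vs_inl] at hu'
            exact hpne (by rw [hpi, hpj, ← hu, ← hu'])
          · rw [hpi, D2_mem_vs_inl] at hu
            rw [hpj, D2_mem_vs_inr] at hu'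
            rw [hpj, ← Finset.mem_toRight] at hj'
            rw [hpi, ← Finset.mem_toLeft, ← hu] at hi'
            exact (Finset.disjoint_left.1 (h2 e' hj').2) hu' hi'
        · rcases hpj : p j with v' | e'
          · rw [hpi, D2_mem_vs_inr] at hu
            rw [hpj, D2_mem_vs_inl] at hu'
            rw [hpi, ← Finset.mem_toRight] at hi'
            rw [hpj, ← Finset.mem_toLeft, ← hu'] at hj'
            exact (Finset.disjoint_left.1 (h2 e hi').2) hu hj'
          · rw [hpi, D2_mem_vs_inr] at hu
            rw [hpj, D2_mem_vs_inr] at hu'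
            rw [hpi, ← Finset.mem_toRight] at hi'
            rw [hpj, ← Finset.mem_toRight] at hj'
            have hee : e ≠ e' := fun hh => hpne (by rw [hpi, hpj, hh])
            exact (Finset.disjoint_left.1 (h3 e hi' e' hj' hee)) hu hu'
      subst hij
      rfl
    · rintro ⟨i, u, hu⟩ huo
      simp only [D2_pos] at huo
      subst huo
      have hi' : p i ∈ univ.image p := (himg _).2 ⟨i, rfl⟩
      rcases hpi : p i with v | e
      · rw [hpi, D2_mem_vs_inl] at hu
        rw [hpi, ← Finset.mem_toLeft, ← hu] at hi'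
        exact h1 hi'
      · rw [hpi, D2_mem_vs_inr] at hu
        rw [hpi, ← Finset.mem_toRight] at hi'
        exact (h2 e hi').1 hu

open Classical in
/-- the coefficient of a finite set -/
noncomputable def D2_c (t h : E → V) (o : V) (G : Matrix V V ℝ) (T : Finset (V ⊕ E)) : ℝ :=
  if D2_good t h o T then (-1 : ℝ) ^ T.toRight.card *
    (sub G (mverts (fun e => ({t e, h e} : Finset V)) T.toLeft T.toRight)).det else 0

theorem D2_val (t h : E → V) (o : V) (G : Matrix V V ℝ) (hG0 : ∀ x, G o x = 0)
    {k : ℕ} (p : Fin k → V ⊕ E) : (∏ i, D2_sg (p i)) *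
      (Matrix.of fun q q' : D2_J t h p => G (D2_pos t h p q) (D2_pos t h p q')).det =
      open Classical in if Function.Injective p then D2_c t h o G (univ.image p) else 0 := by
  classical
  by_cases hc : Function.Injective (D2_pos t h p) ∧ ∀ q, D2_pos t h p q ≠ o
  · have hc' := (D2_iff t h o p).1 hc
    rw [if_pos hc'.1]
    unfold D2_c
    rw [if_pos hc'.2]
    congr 1
    · have h1 : ∏ i, D2_sg (p i) = ∏ x ∈ univ.image p, D2_sg x := by
        rw [Finset.prod_image (fun i _ j _ hij => hc'.1 hij)]
      rw [h1]
      conv_lhs => rw [← Finset.toLeft_disjSum_toRight (u := univ.image p)]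
      rw [Finset.prod_disjSum]
      simp only [D2_sg, Finset.prod_const_one, one_mul, Finset.prod_const]
    · set X := mverts (fun e => ({t e, h e} : Finset V)) (univ.image p).toLeft
        (univ.image p).toRight with hX
      have himg : ∀ x, x ∈ univ.image p ↔ ∃ i, p i = x := by
        intro x
        simp only [Finset.mem_image, Finset.mem_univ, true_and]
      have hmem : ∀ u, u ∈ X ↔ ∃ q, D2_pos t h p q = u := by
        intro u
        rw [hX]
        unfold mverts
        rw [Finset.mem_union, Finset.mem_biUnion, Finset.mem_toLeft, himg]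
        constructor
        · rintro (⟨i, hi⟩ | ⟨e, he, hu⟩)
          · exact ⟨⟨i, u, by rw [hi]; exact Finset.mem_singleton_self u⟩, rfl⟩
          · rw [Finset.mem_toRight, himg] at he
            obtain ⟨i, hi⟩ := he
            exact ⟨⟨i, u, by rw [hi]; exact hu⟩, rfl⟩
        · rintro ⟨⟨i, u', hu'⟩, rfl⟩
          change (∃ i₁, p i₁ = Sum.inl u') ∨
            ∃ a ∈ (univ.image p).toRight, u' ∈ ({t a, h a} : Finset V)
          rcases hpi : p i with v | e
          · left
            refine ⟨i, ?_⟩
            rw [hpi, D2_mem_vs_inl] at hu'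
            rw [hpi, hu']
          · right
            refine ⟨e, ?_, ?_⟩
            · rw [Finset.mem_toRight, himg]
              exact ⟨i, hpi⟩
            · rw [hpi] at hu'
              exact hu'
      have hbij : Function.Bijective
          (fun q : D2_J t h p => (⟨D2_pos t h p q, (hmem _).2 ⟨q, rfl⟩⟩ : X)) := by
        refine ⟨?_, ?_⟩
        · intro q q' hqq
          exact hc.1 (congrArg Subtype.val hqq)
        · rintro ⟨u, hu⟩
          obtain ⟨q, hq⟩ := (hmem u).1 hu
          exact ⟨q, Subtype.ext hq⟩
      have h2 : (Matrix.of fun q q' : D2_J t h p => G (D2_pos t h p q) (D2_pos t h p q')) =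
          (sub G X).submatrix (Equiv.ofBijective _ hbij) (Equiv.ofBijective _ hbij) := by
        ext q q'
        rfl
      rw [h2, Matrix.det_submatrix_equiv_self]
  · have hz : (Matrix.of fun q q' : D2_J t h p =>
        G (D2_pos t h p q) (D2_pos t h p q')).det = 0 := by
      rw [not_and_or] at hc
      rcases hc with hc | hc
      · rw [Function.Injective] at hc
        push Not at hc
        obtain ⟨q, q', hqq, hne⟩ := hc
        apply Matrix.det_zero_of_row_eq hne
        ext x
        simp only [Matrix.of_apply, hqq]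
      · push Not at hc
        obtain ⟨q, hq⟩ := hc
        apply Matrix.det_eq_zero_of_row_eq_zero q
        intro x
        simp only [Matrix.of_apply, hq, hG0]
    rw [hz, mul_zero]
    by_cases hinj : Function.Injective p
    · rw [if_pos hinj]
      unfold D2_c
      rw [if_neg]
      intro hgood
      exact hc ((D2_iff t h o p).2 ⟨hinj, hgood⟩)
    · rw [if_neg hinj]

/-- the number of enumerations of a finite set -/
theorem D2_count {α : Type} [Fintype α] [DecidableEq α] {k : ℕ} (T : Finset α) (hT : T.card = k) :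
    (open Classical in univ.filter (fun p : Fin k → α => Function.Injective p ∧
      univ.image p = T)).card = k.factorial := by
  classical
  have e0 : T ≃ Fin k := T.equivFinOfCardEq hT
  let p0 : Fin k → α := fun i => (e0.symm i : α)
  have hp0 : Function.Injective p0 := fun i j hij => e0.symm.injective (Subtype.ext hij)
  have hp0T : ∀ x, x ∈ T ↔ ∃ i, p0 i = x := by
    intro x
    constructor
    · intro hx
      exact ⟨e0 ⟨x, hx⟩, by simp [p0]⟩
    · rintro ⟨i, rfl⟩
      exact (e0.symm i).2
  have hcard : (univ : Finset (Equiv.Perm (Fin k))).card = k.factorial := by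
    rw [Finset.card_univ, Fintype.card_perm, Fintype.card_fin]
  rw [← hcard]
  symm
  apply Finset.card_bij (fun (σ : Equiv.Perm (Fin k)) _ => p0 ∘ σ)
  · intro σ _
    rw [Finset.mem_filter]
    refine ⟨Finset.mem_univ _, hp0.comp σ.injective, ?_⟩
    ext x
    rw [hp0T]
    simp only [Finset.mem_image, Finset.mem_univ, true_and, Function.comp]
    constructor
    · rintro ⟨i, hi⟩
      exact ⟨σ i, hi⟩
    · rintro ⟨i, hi⟩
      exact ⟨σ.symm i, by rw [Equiv.apply_symm_apply]; exact hi⟩
  · intro σ _ τ _ hστ
    ext i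
    have := congrFun hστ i
    exact congrArg Fin.val (hp0 this)
  · intro p hp
    rw [Finset.mem_filter] at hp
    obtain ⟨-, hpinj, hpT⟩ := hp
    have hex : ∀ i, ∃ j, p0 j = p i := by
      intro i
      rw [← hp0T, ← hpT]
      exact Finset.mem_image_of_mem _ (Finset.mem_univ i)
    choose f hf using hex
    have hfinj : Function.Injective f := by
      intro i j hij
      apply hpinj
      rw [← hf i, ← hf j, hij]
    refine ⟨Equiv.ofBijective f (Finite.injective_iff_bijective.1 hfinj), Finset.mem_univ _, ?_⟩
    ext i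
    exact hf i

theorem D2_group {α : Type} [Fintype α] [DecidableEq α] (k : ℕ) (c : Finset α → ℝ) :
    (open Classical in ∑ p : Fin k → α, if Function.Injective p then c (univ.image p) else 0) =
      (k.factorial : ℝ) * ∑ T ∈ Finset.powersetCard k (univ : Finset α), c T := by
  classical
  rw [← Finset.sum_filter]
  rw [← Finset.sum_fiberwise_of_maps_to (s := univ.filter (fun p : Fin k → α =>
    Function.Injective p)) (t := Finset.powersetCard k (univ : Finset α))
    (g := fun p => univ.image p)]
  · rw [Finset.mul_sum]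
    apply Finset.sum_congr rfl
    intro T hT
    have hTc := (Finset.mem_powersetCard.1 hT).2
    rw [Finset.sum_congr rfl (g := fun _ => c T)]
    · rw [Finset.sum_const, nsmul_eq_mul, Finset.filter_filter]
      congr 1
      rw [← D2_count T hTc]
    · intro p hp
      rw [(Finset.mem_filter.1 hp).2]
  · intro p hp
    rw [Finset.mem_powersetCard]
    refine ⟨Finset.subset_univ _, ?_⟩
    rw [Finset.card_image_of_injective _ (Finset.mem_filter.1 hp).2, Finset.card_univ,
      Fintype.card_fin]

theorem D2_marks (t h : E → V) (o : V) (G : Matrix V V ℝ) (k : ℕ) :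
    ∑ T ∈ Finset.powersetCard k (univ : Finset (V ⊕ E)), D2_c t h o G T =
      Zk (fun e => ({t e, h e} : Finset V)) o G k := by
  classical
  unfold Zk D2_c
  rw [← Finset.sum_filter]
  apply Finset.sum_nbij' (fun T => (T.toLeft, T.toRight)) (fun p => p.1.disjSum p.2)
  · intro T hT
    rw [Finset.mem_filter, Finset.mem_powersetCard] at hT
    unfold marks
    rw [Finset.mem_filter]
    refine ⟨Finset.mem_univ _, hT.2, ?_⟩
    rw [Finset.card_toLeft_add_card_toRight]
    exact hT.1.2
  · rintro ⟨S, M⟩ hp
    unfold marks at hp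
    rw [Finset.mem_filter] at hp
    rw [Finset.mem_filter, Finset.mem_powersetCard]
    refine ⟨⟨Finset.subset_univ _, ?_⟩, ?_⟩
    · rw [Finset.card_disjSum]
      exact hp.2.2
    · unfold D2_good
      rw [Finset.toLeft_disjSum, Finset.toRight_disjSum]
      exact hp.2.1
  · intro T hT
    exact Finset.toLeft_disjSum_toRight
  · rintro ⟨S, M⟩ hp
    simp only [Finset.toLeft_disjSum, Finset.toRight_disjSum]
  · intro T hT
    rfl

/-- ROW SND-D2. The sums over markings are the moments of `∑ X_v - ∑ X_{t e} X_{h e}`.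

Proof. Let `τ : V ⊕ E → MvPolynomial`, `τ (inl v) = X v`, `τ (inr e) = - X (t e) X (h e)`. Expand
`(∑ x, τ x)^k` with the multinomial theorem (`Finset.sum_pow_eq_sum_piAntidiag`:
`∑_{s ∈ piAntidiag univ k} multinomial univ s * ∏ x, τ x ^ s x`). Apply `l`: a product
`∏ x, τ x ^ s x` is `±` a product of variables `X`; if one of the variables is `X o` or if a
variable appears twice (in particular if some `s x ≥ 2`, or if two different `x, y` with
`s x = s y = 1` share a vertex) then the determinant has a zero row or two equal rows and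
vanishes. The remaining `s` are the indicator functions of the sets `T ⊆ V ⊕ E` with `k` elements
such that `(S, M) = (T ∩ V, T ∩ E)` is a marking; then the multinomial coefficient is `k!`, the
sign is `(-1)^#M`, and `l (product) = det (sub G (mverts S M))` (apply `IsFun` to
`ι = mverts S M`, `v = Subtype.val`; the product of the variables is `∏_{u ∈ mverts S M} X u`
because the supports are disjoint).
(An alternative to the multinomial theorem: `Fintype.sum_pow` and grouping the injective maps
`Fin k → V ⊕ E` according to their image.) -/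
theorem Zk_eq (t h : E → V) (hth : ∀ e, t e ≠ h e) (o : V) (G : Matrix V V ℝ)
    (hG0 : ∀ x, G o x = 0) (l : MvPolynomial V ℝ →ₗ[ℝ] ℝ) (hl : IsFun G l) (k : ℕ) :
    (k.factorial : ℝ) * Zk (fun e => ({t e, h e} : Finset V)) o G k =
      l ((∑ v, X v - ∑ e, X (t e) * X (h e)) ^ k) := by
  classical
  rw [← D2_sum t h hth, Fintype.sum_pow, map_sum]
  simp_rw [D2_l t h G l hl, D2_val t h o G hG0]
  rw [D2_group, D2_marks]

end SND
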