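import Pool.Agent.SND.Defs

open Finset MvPolynomial

namespace SND

variable {V E : Type} [Fintype V] [DecidableEq V]

omit [Fintype V] [DecidableEq V] in
theorem D3a_det_inst {α : Type} (f1 f2 : Fintype α) (d1 d2 : DecidableEq α) (M : Matrix α α ℝ) :
    @Matrix.det α d1 f1 ℝ _ M = @Matrix.det α d2 f2 ℝ _ M := by
  have h1 : f1 = f2 := Subsingleton.elim _ _
  have h2 : d1 = d2 := Subsingleton.elim _ _
  subst h1
  subst h2
  rfl

omit [Fintype V] [DecidableEq V] in
theorem D3a_det {ι : Type} [Fintype ι] [DecidableEq ι] (M : Matrix ι ι ℝ) (d : ι → ℝ) :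
    (Matrix.of fun i j => M i j + if i = j then d i else 0).det =
      ∑ T : Finset ι, (∏ i ∈ Tᶜ, d i) *
        (Matrix.of fun i j : {i // i ∈ T} => M i.1 j.1).det := by
  have h1 : (Matrix.of fun i j => M i j + if i = j then d i else 0) =
      (fun i => (fun j => M i j) + (fun j => if i = j then d i else 0) : ι → ι → ℝ) := by
    rfl
  rw [h1]
  have h2 := (Matrix.detRowAlternating (n := ι) (R := ℝ)).toMultilinearMap.map_add_univ
    (fun i => (fun j => M i j)) (fun i => (fun j => if i = j then d i else 0))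
  have h3 : Matrix.det (fun i => (fun j => M i j) + (fun j => if i = j then d i else 0) :
      ι → ι → ℝ) = ∑ T : Finset ι, Matrix.det (T.piecewise (fun i => (fun j => M i j))
        (fun i => (fun j => if i = j then d i else 0)) : ι → ι → ℝ) := h2
  rw [h3]
  apply Finset.sum_congr rfl
  intro T _
  set N : Matrix ι ι ℝ := (T.piecewise (fun i => (fun j => M i j))
        (fun i => (fun j => if i = j then d i else 0)) : ι → ι → ℝ) with hN
  have hN1 : ∀ i j, i ∈ T → N i j = M i j := by
    intro i j hi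
    rw [hN]
    simp only [Finset.piecewise_eq_of_mem _ _ _ hi]
  have hN2 : ∀ i j, i ∉ T → N i j = if i = j then d i else 0 := by
    intro i j hi
    rw [hN]
    simp only [Finset.piecewise_eq_of_notMem _ _ _ hi]
  have h0 : ∀ i, ¬ i ∈ T → ∀ j, j ∈ T → N i j = 0 := by
    intro i hi j hj
    rw [hN2 i j hi, if_neg]
    rintro rfl
    exact hi hj
  have h4 : N.toSquareBlockProp (fun i => ¬ i ∈ T) =
      Matrix.diagonal (fun i : {i // ¬ i ∈ T} => d i.1) := by
    ext i j
    rw [Matrix.toSquareBlockProp_def, Matrix.of_apply, hN2 _ _ i.2, Matrix.diagonal_apply]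
    by_cases hij : i = j
    · rw [hij]; simp
    · rw [if_neg hij, if_neg (fun h => hij (Subtype.ext h))]
  have h5 : N.toSquareBlockProp (fun i => i ∈ T) =
      Matrix.of (fun i j : {i // i ∈ T} => M i.1 j.1) := by
    ext i j
    rw [Matrix.toSquareBlockProp_def, Matrix.of_apply, Matrix.of_apply, hN1 _ _ i.2]
  have h6 := Matrix.twoBlockTriangular_det N (fun i => i ∈ T) h0
  rw [h4, Matrix.det_diagonal, h5] at h6
  have h7 : ∏ i : {i // ¬ i ∈ T}, d i.1 = ∏ i ∈ Tᶜ, d i :=
    (Finset.prod_subtype Tᶜ (fun x => Finset.mem_compl) d).symm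
  rw [h6, mul_comm]
  exact congrArg₂ (· * ·) h7 (D3a_det_inst _ _ _ _ _)

/-- ROW SND-D3. Shifted variables give determinants with modified diagonal.

Proof. `∏ i, (X (v i) - C (s i)) = ∑_{T : Finset ι} (∏_{i ∈ T} X (v i)) * ∏_{i ∉ T} (- s i)`
(`Finset.prod_sub`/`Finset.prod_add`), so the left side is
`∑_T (∏_{i ∉ T} (- s i)) * det (G restricted to T)` (apply `IsFun` to the subtype `T`), and
`det (M + diagonal d) = ∑_T (∏_{i ∉ T} d i) * det (M restricted to T)` for every matrix `M`.
(For the last formula: `Matrix.det` is multilinear in the rows, expand with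
`MultilinearMap.map_add_univ` / `Matrix.detRowAlternating`; or induction on the number of nonzero
`d i`; or check Mathlib for a ready-made lemma.) -/
theorem isFun_shift {G : Matrix V V ℝ} {l : MvPolynomial V ℝ →ₗ[ℝ] ℝ} (hl : IsFun G l)
    {ι : Type} [Fintype ι] [DecidableEq ι] (v : ι → V) (s : ι → ℝ) :
    l (∏ i, (X (v i) - C (s i))) =
      (Matrix.of fun i j => G (v i) (v j) - if i = j then s i else 0).det := by
  have h1 : (Matrix.of fun i j => G (v i) (v j) - if i = j then s i else 0) =
      (Matrix.of fun i j => (fun i j => G (v i) (v j)) i j + if i = j then (fun i => - s i) i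
        else 0) := by
    ext i j
    simp only [Matrix.of_apply]
    split_ifs <;> ring
  rw [h1, D3a_det (fun i j => G (v i) (v j)) (fun i => - s i)]
  have h2 : ∏ i, ((X (v i) : MvPolynomial V ℝ) - C (s i)) =
      ∑ T : Finset ι, (∏ i ∈ Tᶜ, (- s i)) • ∏ i ∈ T, (X (v i) : MvPolynomial V ℝ) := by
    have h3 : ∀ i, ((X (v i) : MvPolynomial V ℝ) - C (s i)) = X (v i) + C (- s i) := by
      intro i
      rw [map_neg, sub_eq_add_neg]
    simp_rw [h3]
    rw [Fintype.prod_add]
    apply Finset.sum_congr rfl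
    intro T _
    rw [← map_prod, ← MvPolynomial.C_mul', mul_comm]
  rw [h2, map_sum]
  apply Finset.sum_congr rfl
  intro T _
  rw [map_smul, smul_eq_mul]
  congr 1
  rw [← Finset.prod_coe_sort T (fun i => (X (v i) : MvPolynomial V ℝ))]
  exact hl {i // i ∈ T} (fun i => v i.1)

end SND
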