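import Pool.Agent.SND.Defs

open Finset MvPolynomial

namespace SND

open scoped Kronecker

variable {V E : Type} [Fintype V] [DecidableEq V]

theorem D3b_mul_left {ι : Type} [Fintype ι] [DecidableEq ι] (B : Matrix (Fin 2) (Fin 2) ℝ)
    (N : Matrix (ι × Fin 2) (ι × Fin 2) ℝ) (i : ι) (l : Fin 2) (q : ι × Fin 2) :
    (((1 : Matrix ι ι ℝ) ⊗ₖ B) * N) (i, l) q = B l 0 * N (i, 0) q + B l 1 * N (i, 1) q := by
  rw [Matrix.mul_apply, Fintype.sum_prod_type, Finset.sum_eq_single i]
  · rw [Fin.sum_univ_two]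
    simp [Matrix.kroneckerMap_apply]
  · intro j _ hj
    rw [Fin.sum_univ_two]
    simp [Matrix.kroneckerMap_apply, Matrix.one_apply_ne hj.symm]
  · intro h
    exact absurd (Finset.mem_univ i) h

theorem D3b_mul_right {ι : Type} [Fintype ι] [DecidableEq ι] (B : Matrix (Fin 2) (Fin 2) ℝ)
    (N : Matrix (ι × Fin 2) (ι × Fin 2) ℝ) (p : ι × Fin 2) (j : ι) (m : Fin 2) :
    (N * (((1 : Matrix ι ι ℝ) ⊗ₖ B).transpose)) p (j, m) =
      N p (j, 0) * B m 0 + N p (j, 1) * B m 1 := by
  rw [Matrix.mul_apply, Fintype.sum_prod_type, Finset.sum_eq_single j]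
  · rw [Fin.sum_univ_two]
    simp [Matrix.kroneckerMap_apply]
  · intro i _ hi
    rw [Fin.sum_univ_two]
    simp [Matrix.kroneckerMap_apply, Matrix.one_apply_ne hi.symm]
  · intro h
    exact absurd (Finset.mem_univ j) h

/-- the block -/
noncomputable def D3b_T : Matrix (Fin 2) (Fin 2) ℝ := !![1/2, 1/2; 1, -1]

theorem D3b_det (ι : Type) [Fintype ι] [DecidableEq ι] :
    ((1 : Matrix ι ι ℝ) ⊗ₖ D3b_T).det * ((1 : Matrix ι ι ℝ) ⊗ₖ D3b_T).det = 1 := by
  have h1 : D3b_T.det = -1 := by
    rw [D3b_T, Matrix.det_fin_two_of]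
    norm_num
  rw [Matrix.det_kronecker, Matrix.det_one, one_pow, one_mul, h1, ← mul_pow]
  norm_num

/-- ROW SND-D3b. Change of basis in the `2 × 2` blocks.

Proof. Let `N` be the matrix on the right (index `ι × Fin 2`; `(i, 0)` is the first end `t (e i)`,
`(i, 1)` the second end) and `T` the block diagonal matrix with all the blocks
`[[1/2, 1/2], [1, -1]]`: `T (i, l) (j, m) = 0` for `i ≠ j`. Then `MM (kern t h G) e = T * N * Tᵀ`: off the
diagonal blocks this is the definition of `a, b, d` (and `K.b (e j) (e i)` for the entry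
`((i,1),(j,0))`, using the symmetry of `G`); on the diagonal blocks `N` is
`[[x, g], [g, y]]` with `x = G t t - β = G t t - (G h h - G t h)`, `y = G h h - α`,
`g = G t h`, and `T [[x, g], [g, y]] Tᵀ = [[(x + 2 g + y)/4, (x - y)/2], [(x - y)/2, x - 2 g + y]]
= [[g, G t t - G h h], [G t t - G h h, 0]]`. And `det T = (-1)^(card ι)` so `(det T)^2 = 1`
(`Matrix.det_blockDiagonal` after reindexing, or `T = Matrix.kroneckerMap`..., or show
`T * T' = 1` type identities: only `(det T)^2 = 1` is needed; e.g. `T` is similar to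
`Matrix.blockDiagonal (fun _ : ι => T₂)` and `det T₂ = -1`). -/
theorem det_shift (t h : E → V) (G : Matrix V V ℝ) (hG : ∀ x y, G x y = G y x)
    {ι : Type} [Fintype ι] [DecidableEq ι] (e : ι → E) :
    (Matrix.of fun p q : ι × Fin 2 =>
        G (if p.2 = 0 then t (e p.1) else h (e p.1)) (if q.2 = 0 then t (e q.1) else h (e q.1)) -
          if p = q then
            (if p.2 = 0 then G (h (e p.1)) (h (e p.1)) - G (t (e p.1)) (h (e p.1))
              else G (t (e p.1)) (t (e p.1)) - G (t (e p.1)) (h (e p.1)))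
          else 0).det = Dm (kern t h G) e := by
  set N : Matrix (ι × Fin 2) (ι × Fin 2) ℝ := Matrix.of fun p q : ι × Fin 2 =>
        G (if p.2 = 0 then t (e p.1) else h (e p.1)) (if q.2 = 0 then t (e q.1) else h (e q.1)) -
          if p = q then
            (if p.2 = 0 then G (h (e p.1)) (h (e p.1)) - G (t (e p.1)) (h (e p.1))
              else G (t (e p.1)) (t (e p.1)) - G (t (e p.1)) (h (e p.1)))
          else 0 with hN
  have hMM : MM (kern t h G) e =
      ((1 : Matrix ι ι ℝ) ⊗ₖ D3b_T) * N * ((1 : Matrix ι ι ℝ) ⊗ₖ D3b_T).transpose := by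
    ext ⟨i, l⟩ ⟨j, m⟩
    rw [D3b_mul_right, D3b_mul_left, D3b_mul_left]
    have hG1 := hG (h (e i)) (t (e j))
    have hG2 := hG (h (e i)) (t (e i))
    by_cases hij : i = j
    · subst hij
      fin_cases l <;> fin_cases m <;>
        simp [MM, ent, kern, hN, D3b_T, hG2] <;> ring
    · fin_cases l <;> fin_cases m <;>
        simp [MM, ent, kern, hN, D3b_T, hij] <;> (try rw [hG (h (e i)) (t (e j))]) <;>
        (try rw [hG (h (e j)) (t (e i)), hG (t (e j)) (t (e i)), hG (h (e j)) (h (e i))]) <;> ring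
  unfold Dm
  rw [hMM, Matrix.det_mul, Matrix.det_mul, Matrix.det_transpose, mul_right_comm, D3b_det, one_mul]

end SND
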