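import Pool.Agent.SND.Defs
import Pool.Agent.SND.D3a
import Pool.Agent.SND.D3b

open Finset MvPolynomial

namespace SND

variable {V E : Type} [Fintype V] [DecidableEq V] [Fintype E] [DecidableEq E]

/-- ROW SND-D4a. `l (UU ^ k) = mu K k`.

Proof. `UU ^ k = ∑_{e : Fin k → E} ∏ i, (...)(...)` (`Fintype.sum_pow`), each product is the product
over `Fin k × Fin 2` of `X (v p) - C (s p)` with `v (i,0) = t (e i)`, `v (i,1) = h (e i)`,
`s (i,0) = G h h - G t h`, `s (i,1) = G t t - G t h` (`Fintype.prod_prod_type`,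
`Fin.prod_univ_two`); apply `isFun_shift` and `det_shift`. -/
theorem isFun_UU (t h : E → V) (G : Matrix V V ℝ) (hG : ∀ x y, G x y = G y x)
    (l : MvPolynomial V ℝ →ₗ[ℝ] ℝ) (hl : IsFun G l) (k : ℕ) :
    l (UU t h G ^ k) = mu (kern t h G) k := by
  classical
  unfold UU mu
  rw [Fintype.sum_pow, map_sum]
  apply Finset.sum_congr rfl
  intro e _
  have h1 : ∏ i, ((X (t (e i)) - C (G (h (e i)) (h (e i)) - G (t (e i)) (h (e i)))) *
      (X (h (e i)) - C (G (t (e i)) (t (e i)) - G (t (e i)) (h (e i))))) =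
      ∏ p : Fin k × Fin 2, ((X (if p.2 = 0 then t (e p.1) else h (e p.1)) : MvPolynomial V ℝ) -
        C (if p.2 = 0 then G (h (e p.1)) (h (e p.1)) - G (t (e p.1)) (h (e p.1))
          else G (t (e p.1)) (t (e p.1)) - G (t (e p.1)) (h (e p.1)))) := by
    rw [Fintype.prod_prod_type]
    apply Finset.prod_congr rfl
    intro i _
    rw [Fin.prod_univ_two]
    simp
  rw [h1, isFun_shift hl, ← det_shift t h G hG e]

end SND
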