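import Pool.Agent.SND.Defs

open Finset MvPolynomial

namespace SND

variable {V E : Type} [Fintype V] [DecidableEq V] [Fintype E] [DecidableEq E]

omit [DecidableEq V] in
theorem D4b_mul_X (o : V) (G : Matrix V V ℝ) (hG0 : ∀ x, G o x = 0)
    (l : MvPolynomial V ℝ →ₗ[ℝ] ℝ) (hl : IsFun G l) (P : MvPolynomial V ℝ) :
    l (X o * P) = 0 := by
  classical
  induction P using MvPolynomial.induction_on' with
  | monomial s a =>
    have h1 : (X o : MvPolynomial V ℝ) * MvPolynomial.monomial s a =
        a • ∏ x : Option (Σ v : V, Fin (s v)), X (match x with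
          | none => o
          | some j => j.1) := by
      rw [Fintype.prod_option, MvPolynomial.monomial_eq, Fintype.prod_sigma]
      rw [Finsupp.prod_fintype _ _ (fun i => pow_zero _), ← MvPolynomial.C_mul']
      simp only [Finset.prod_const, Finset.card_univ, Fintype.card_fin]
      ring
    rw [h1, map_smul, hl, Matrix.det_eq_zero_of_row_eq_zero none, smul_zero]
    intro j
    simp only [Matrix.of_apply]
    exact hG0 _
  | add p q hp hq =>
    rw [mul_add, map_add, hp, hq, add_zero]

theorem D4b_diff (t h : E → V) (o : V) (G : Matrix V V ℝ)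
    (hrow : ∀ u, u ≠ o → ∑ e, ((if t e = u then G (t e) (t e) - G (t e) (h e) else 0) +
      (if h e = u then G (h e) (h e) - G (t e) (h e) else 0)) = 1) :
    ∃ c : ℝ, (∑ v, X v - ∑ e, X (t e) * X (h e) : MvPolynomial V ℝ) -
      (C (Cst t h G) - UU t h G) = X o * C c := by
  set co : ℝ := ∑ e, ((if t e = o then G (t e) (t e) - G (t e) (h e) else 0) +
      (if h e = o then G (h e) (h e) - G (t e) (h e) else 0)) with hco
  refine ⟨1 - co, ?_⟩
  have h1 : (C (Cst t h G) - UU t h G : MvPolynomial V ℝ) =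
      ∑ e, (C (G (t e) (t e) - G (t e) (h e)) * X (t e) +
        C (G (h e) (h e) - G (t e) (h e)) * X (h e)) - ∑ e, X (t e) * X (h e) := by
    unfold Cst UU
    rw [map_sum, ← Finset.sum_sub_distrib, ← Finset.sum_sub_distrib]
    apply Finset.sum_congr rfl
    intro e _
    rw [map_mul]
    ring
  have h2 : ∑ e, (C (G (t e) (t e) - G (t e) (h e)) * X (t e) +
        C (G (h e) (h e) - G (t e) (h e)) * X (h e)) =
      ∑ u : V, C (∑ e, ((if t e = u then G (t e) (t e) - G (t e) (h e) else 0) +
      (if h e = u then G (h e) (h e) - G (t e) (h e) else 0))) * (X u : MvPolynomial V ℝ) := by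
    simp_rw [map_sum, Finset.sum_mul]
    rw [Finset.sum_comm]
    apply Finset.sum_congr rfl
    intro e _
    simp_rw [map_add, add_mul]
    rw [Finset.sum_add_distrib]
    congr 1
    · rw [Finset.sum_eq_single (t e)]
      · rw [if_pos rfl]
      · intro u _ hu
        rw [if_neg (fun hh => hu hh.symm), map_zero, zero_mul]
      · intro hh; exact absurd (Finset.mem_univ _) hh
    · rw [Finset.sum_eq_single (h e)]
      · rw [if_pos rfl]
      · intro u _ hu
        rw [if_neg (fun hh => hu hh.symm), map_zero, zero_mul]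
      · intro hh; exact absurd (Finset.mem_univ _) hh
  rw [h1, h2]
  have h3 : ∀ (A B D : MvPolynomial V ℝ), A - B - (D - B) = A - D := by
    intro A B D; ring
  rw [h3, ← Finset.sum_sub_distrib, Finset.sum_eq_single o]
  · rw [← hco, map_sub, map_one]
    ring
  · intro u _ hu
    rw [hrow u hu, map_one, one_mul, sub_self]
  · intro hh; exact absurd (Finset.mem_univ _) hh

/-- ROW SND-D4b. `l` vanishes on the multiples of `X o`, and
`∑ X_v - ∑ X_t X_h = C (Cst) - UU + (multiple of X o)`.

Proof. `l (X o * P) = 0` for every polynomial `P`: by linearity (`MvPolynomial.induction_on` or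
`P.as_sum`) take `P` a monomial, i.e. a product of variables; then `IsFun` gives a determinant with
a zero row (`Matrix.det_eq_zero_of_row_eq_zero`). Next
`C Cst - UU = ∑_e (α_e X (t e) + β_e X (h e) - X (t e) X (h e))`, `α = G t t - G t h`,
`β = G h h - G t h`, and the coefficient of `X u` in `∑_e (α_e X (t e) + β_e X (h e))` is
`∑_e ((if t e = u then α_e else 0) + (if h e = u then β_e else 0)) = 1` for `u ≠ o`. So
`∑ X_v - ∑ X_t X_h = C Cst - UU + X o * C c` for some `c`. Then
`a^k - b^k` is a multiple of `a - b` (`sub_dvd_pow_sub_pow`), hence of `X o`. -/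
theorem isFun_pow_eq (t h : E → V) (o : V) (G : Matrix V V ℝ)
    (hG0 : ∀ x, G o x = 0)
    (hrow : ∀ u, u ≠ o → ∑ e, ((if t e = u then G (t e) (t e) - G (t e) (h e) else 0) +
      (if h e = u then G (h e) (h e) - G (t e) (h e) else 0)) = 1)
    (l : MvPolynomial V ℝ →ₗ[ℝ] ℝ) (hl : IsFun G l) (k : ℕ) :
    l ((∑ v, X v - ∑ e, X (t e) * X (h e)) ^ k) = l ((C (Cst t h G) - UU t h G) ^ k) := by
  obtain ⟨c, hc⟩ := D4b_diff t h o G hrow
  obtain ⟨W, hW⟩ := sub_dvd_pow_sub_pow
    (∑ v, X v - ∑ e, X (t e) * X (h e) : MvPolynomial V ℝ) (C (Cst t h G) - UU t h G) k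
  rw [← sub_eq_zero, ← map_sub, hW, hc, mul_assoc]
  exact D4b_mul_X o G hG0 l hl _

end SND
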