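import Pool.Agent.SND.Model

/-!
# MP_d15cab_pr: the central limit theorem for the total amount of sand — auxiliary definitions

Definitions shared by all the modules of the proof (the definitions of the final statement are in
`Model.lean`).
-/

open Finset MeasureTheory ProbabilityTheory

namespace SND

/-! ## No forbidden subconfiguration -/

/-- No forbidden subconfiguration. -/
def NoFSC {n : ℕ} (η : Config n) : Prop :=
  ∀ X : Finset (Site n), X.Nonempty → ∃ v ∈ X, (X.filter (fun u => Adj v u)).card ≤ η v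

open Classical in
/-- The finset of the recurrent configurations (through Dhar's criterion). -/
noncomputable def recFin (n : ℕ) : Finset (Config n) :=
  (Fintype.piFinset (fun _ : Site n => Finset.range 4)).filter NoFSC

/-! ## General graphs with a set of roots -/

section Graph

variable {V E : Type} [Fintype V] [DecidableEq V] [Fintype E] [DecidableEq E]

/-- The edges `A` connect every vertex of `X` to the complement of `X` (cut formulation). An edge
`e` crosses the cut of `U` iff exactly one of its ends is in `U`. -/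
def Conn (ends : E → Finset V) (X : Finset V) (A : Finset E) : Prop :=
  ∀ U ⊆ X, U.Nonempty → ∃ e ∈ A, (ends e ∩ U).card = 1

/-- All the edges of `A` touch `X`. -/
def Touch (ends : E → Finset V) (X : Finset V) (A : Finset E) : Prop :=
  ∀ e ∈ A, (ends e ∩ X).Nonempty

/-- degree of `v` inside `Y`. -/
def degIn (ends : E → Finset V) (Y : Finset V) (v : V) : ℕ :=
  (univ.filter (fun e => v ∈ ends e ∧ (ends e ∩ Y).card = 2)).card

/-- degree of `v` in the edge set `F`. -/
def degF (ends : E → Finset V) (F : Finset E) (v : V) : ℕ :=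
  (F.filter (fun e => v ∈ ends e)).card

open Classical in
/-- Stable configurations without forbidden subconfiguration, general graph; the vertices outside
of `X` are identified with the sink. -/
noncomputable def recG (ends : E → Finset V) (X : Finset V) (F : Finset E) : Finset (V → ℕ) :=
  (Fintype.piFinset
    (fun v => if v ∈ X then Finset.range (degF ends F v) else ({0} : Finset ℕ))).filter
    (fun η => ∀ Y ⊆ X, Y.Nonempty → ∃ v ∈ Y, degIn ends Y v ≤ η v)

/-- Acyclic edge sets: no nonempty even subset. -/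
def Acyc (ends : E → Finset V) (B : Finset E) : Prop :=
  ∀ D ⊆ B, (∀ x : V, Even (degF ends D x)) → D = ∅

/-- The Laplacian matrix of the edge set `F`. -/
def lap (ends : E → Finset V) (F : Finset E) : Matrix V V ℝ := fun x y =>
  if x = y then (degF ends F x : ℝ)
  else -((F.filter (fun e => x ∈ ends e ∧ y ∈ ends e)).card : ℝ)

/-- `(S, M)` is a marking: `S` a set of vertices, `M` a set of edges, all disjoint, none touching
`o`. -/
def IsMark (ends : E → Finset V) (o : V) (S : Finset V) (M : Finset E) : Prop :=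
  o ∉ S ∧ (∀ e ∈ M, o ∉ ends e ∧ Disjoint (ends e) S) ∧
    ∀ e ∈ M, ∀ f ∈ M, e ≠ f → Disjoint (ends e) (ends f)

/-- The vertices touched by a marking. -/
def mverts (ends : E → Finset V) (S : Finset V) (M : Finset E) : Finset V := S ∪ M.biUnion ends

/-- The principal submatrix of `L` on the finset `X`. -/
def sub (L : Matrix V V ℝ) (X : Finset V) : Matrix X X ℝ :=
  L.submatrix (Subtype.val : X → V) (Subtype.val : X → V)

open Classical in
/-- The markings with `k` marks. -/
noncomputable def marks (ends : E → Finset V) (o : V) (k : ℕ) : Finset (Finset V × Finset E) :=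
  univ.filter (fun p => IsMark ends o p.1 p.2 ∧ p.1.card + p.2.card = k)

/-- Sums over markings of determinants of the Laplacian. -/
noncomputable def Zc (ends : E → Finset V) (o : V) (k : ℕ) : ℝ :=
  ∑ p ∈ marks ends o k,
    (-1 : ℝ) ^ p.2.card * (sub (lap ends univ) (univ \ insert o (mverts ends p.1 p.2))).det

/-- Sums over markings of minors of the Green function. -/
noncomputable def Zk (ends : E → Finset V) (o : V) (G : Matrix V V ℝ) (k : ℕ) : ℝ :=
  ∑ p ∈ marks ends o k, (-1 : ℝ) ^ p.2.card * (sub G (mverts ends p.1 p.2)).det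

end Graph

/-! ## The two dual graphs -/

/-- The common edge set of the sandpile graph and of its planar dual: `inl (i, j)` is the
horizontal edge of the dual grid from `(i, j)` to `(i, j+1)`, `inr (i, j)` is the vertical edge
from `(i, j)` to `(i+1, j)`. -/
abbrev Edge (n : ℕ) : Type := (Fin (n + 1) × Fin n) ⊕ (Fin n × Fin (n + 1))

/-- The vertices of the dual grid. -/
abbrev HV (n : ℕ) : Type := Fin (n + 1) × Fin (n + 1)

/-- First end of an edge of the dual grid. -/
def tl {n : ℕ} : Edge n → HV n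
  | Sum.inl (i, j) => (i, j.castSucc)
  | Sum.inr (i, j) => (i.castSucc, j)

/-- Second end of an edge of the dual grid. -/
def hd {n : ℕ} : Edge n → HV n
  | Sum.inl (i, j) => (i, j.succ)
  | Sum.inr (i, j) => (i.succ, j)

/-- The ends of an edge in the dual grid. -/
def hEnds {n : ℕ} (e : Edge n) : Finset (HV n) := {tl e, hd e}

/-- The ends (different from the sink) of an edge in the sandpile graph. -/
def gEnds {n : ℕ} : Edge n → Finset (Site n)
  | Sum.inl (i, j) => univ.filter (fun x => x.2 = j ∧ ((x.1 : ℕ) = i ∨ (x.1 : ℕ) + 1 = i))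
  | Sum.inr (i, j) => univ.filter (fun x => x.1 = i ∧ ((x.2 : ℕ) = j ∨ (x.2 : ℕ) + 1 = j))

/-- The pinned corner. -/
def oo (n : ℕ) : HV n := (0, 0)

/-- number of inner edges of the sandpile graph -/
def mI (n : ℕ) : ℕ := (univ.filter (fun e : Edge n => (gEnds e ∩ univ).card = 2)).card

/-! ## Kernels, moments and cumulants -/

/-- The kernels attached to pairs of edges. -/
structure Kern (E : Type) where
  /-- sum-sum kernel -/
  a : E → E → ℝ
  /-- sum-gradient kernel (the gradient is on the second edge) -/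
  b : E → E → ℝ
  /-- gradient-gradient kernel -/
  d : E → E → ℝ
  /-- diagonal coefficient -/
  g : E → ℝ
  /-- diagonal coefficient -/
  h : E → ℝ

section Kernels

variable {E : Type}

/-- The entry of the matrix, in terms of the positions of the two legs (`x`: edge, `l : Fin 2`:
leg, `0` for the sum leg and `1` for the gradient leg). -/
def ent (K : Kern E) (same : Bool) (x : E) (l : Fin 2) (y : E) (m : Fin 2) : ℝ :=
  match same, l, m with
  | true, 0, 0 => K.g x
  | true, 0, 1 => K.h x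
  | true, 1, 0 => K.h x
  | true, 1, 1 => 0
  | false, 0, 0 => K.a x y
  | false, 0, 1 => K.b x y
  | false, 1, 0 => K.b y x
  | false, 1, 1 => K.d x y

variable {ι : Type} [DecidableEq ι]

/-- The matrix attached to a family of edges. -/
def MM (K : Kern E) (e : ι → E) : Matrix (ι × Fin 2) (ι × Fin 2) ℝ := fun p q =>
  ent K (decide (p.1 = q.1)) (e p.1) p.2 (e q.1) q.2

/-- The moment of a family of edges. -/
noncomputable def Dm [Fintype ι] (K : Kern E) (e : ι → E) : ℝ := (MM K e).det

/-- The weight of a permutation. -/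
noncomputable def PP [Fintype ι] (K : Kern E) (e : ι → E) (σ : Equiv.Perm (ι × Fin 2)) : ℝ :=
  ∏ p, MM K e p (σ p)

/-- Connected permutations. -/
def Cn (σ : Equiv.Perm (ι × Fin 2)) : Prop :=
  ∀ C : Set ι, C.Nonempty → (∀ p, p.1 ∈ C → (σ p).1 ∈ C) → C = Set.univ

open Classical in
/-- The connected moment of a family of edges. -/
noncomputable def Dc [Fintype ι] (K : Kern E) (e : ι → E) : ℝ :=
  ∑ σ ∈ (univ : Finset (Equiv.Perm (ι × Fin 2))).filter Cn,
    ((Equiv.Perm.sign σ : ℤ) : ℝ) * PP K e σ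

/-- Moments. -/
noncomputable def mu [Fintype E] (K : Kern E) (k : ℕ) : ℝ := ∑ e : Fin k → E, Dm K e

/-- Cumulants. -/
noncomputable def Kk [Fintype E] (K : Kern E) (k : ℕ) : ℝ := ∑ e : Fin k → E, Dc K e

end Kernels

/-- The kernels defined by a Green function. -/
noncomputable def kern {V E : Type} (t h : E → V) (G : Matrix V V ℝ) : Kern E where
  a e f := (G (t e) (t f) + G (t e) (h f) + G (h e) (t f) + G (h e) (h f)) / 4
  b e f := (G (t e) (t f) - G (t e) (h f) + G (h e) (t f) - G (h e) (h f)) / 2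
  d e f := G (t e) (t f) - G (t e) (h f) - G (h e) (t f) + G (h e) (h f)
  g e := G (t e) (h e)
  h e := G (t e) (t e) - G (h e) (h e)

/-- The constant `∑ α β`. -/
noncomputable def Cst {V E : Type} [Fintype E] (t h : E → V) (G : Matrix V V ℝ) : ℝ :=
  ∑ e, (G (t e) (t e) - G (t e) (h e)) * (G (h e) (h e) - G (t e) (h e))

/-- All the estimates used in the power counting; `q` is the square root of the size of the box,
`Λ` is a power of the logarithm. -/
structure Est {E : Type} [Fintype E] (K : Kern E) (w : E → E → ℝ) (wo wb : E → ℝ) (q Λ : ℝ) :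
    Prop where
  one_le_q : 1 ≤ q
  one_le_L : 1 ≤ Λ
  w_pos : ∀ e f, 0 < w e f
  w_le : ∀ e f, w e f ≤ 1
  w_symm : ∀ e f, w e f = w f e
  w_tri : ∀ e f f', min (w e f) (w e f') ≤ 2 * w f f'
  wo_nonneg : ∀ e, 0 ≤ wo e
  wo_le : ∀ e, wo e ≤ 1
  wb_nonneg : ∀ e, 0 ≤ wb e
  card_le : (Fintype.card E : ℝ) ≤ Λ * q ^ 4
  sum_w : ∀ f, ∑ e, w e f ≤ Λ * q ^ 2
  sum_wo : ∑ e, wo e ≤ Λ * q ^ 2
  sum_wb : ∑ e, wb e ≤ Λ * q ^ 2
  sum_ww : ∀ f, ∑ e, w e f ^ 2 ≤ Λ
  sum_wwb : ∀ f, ∑ e, w e f * wb e ≤ Λ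
  sum_wowo : ∑ e, wo e ^ 2 ≤ Λ
  sum_wowb : ∑ e, wo e * wb e ≤ Λ
  a_symm : ∀ e f, K.a e f = K.a f e
  d_symm : ∀ e f, K.d e f = K.d f e
  a_le : ∀ e f, |K.a e f| ≤ Λ
  b_le : ∀ e f, |K.b e f| ≤ Λ * (w e f + wo f)
  d_le : ∀ e f, |K.d e f| ≤ Λ * w e f ^ 2
  g_le : ∀ e, |K.g e| ≤ Λ
  h_le : ∀ e, |K.h e| ≤ Λ * (wb e + wo e)
  a_lip : ∀ e e' f, |K.a e f - K.a e' f| ≤ Λ * (w e e')⁻¹ * (w e f + wo e)
  g_lip : ∀ e e', |K.g e - K.g e'| ≤ Λ * (w e e')⁻¹ * (wo e + wb e)
  ward : ∀ e, ∑ f, K.d e f * (K.a e f * K.d e f - K.b e f * K.b f e)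
    = K.g e * ∑ f, K.d e f ^ 2

/-! ## Compatible markings -/

section

variable {V E : Type} [Fintype V] [DecidableEq V] [Fintype E] [DecidableEq E]

open Classical in
/-- compatible pairs (marking, forest) on the vertex set `W` -/
noncomputable def compat (ends : E → Finset V) (o : V) (W : Finset V) (B : Finset E) :
    Finset (Finset V × Finset E) :=
  univ.filter (fun p => p.1 ⊆ W ∧ p.2 ⊆ B ∧ IsMark ends o p.1 p.2 ∧
    Conn ends (W \ insert o (mverts ends p.1 p.2)) (B \ p.2) ∧
    (B \ p.2).card = (W \ insert o (mverts ends p.1 p.2)).card)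

end

/-! ## The determinant functional -/

section

open MvPolynomial

variable {V E : Type} [Fintype V] [DecidableEq V] [Fintype E] [DecidableEq E]

/-- `ℓ` is the functional (determinant of `G`) on polynomials. -/
def IsFun (G : Matrix V V ℝ) (l : MvPolynomial V ℝ →ₗ[ℝ] ℝ) : Prop :=
  ∀ (ι : Type) [Fintype ι] [DecidableEq ι] (v : ι → V),
    l (∏ i, MvPolynomial.X (v i)) = (Matrix.of fun i j => G (v i) (v j)).det

/-- The polynomial `∑ (X_t - β) (X_h - α)`. -/
noncomputable def UU (t h : E → V) (G : Matrix V V ℝ) : MvPolynomial V ℝ :=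
  ∑ e, (X (t e) - C (G (h e) (h e) - G (t e) (h e))) *
    (X (h e) - C (G (t e) (t e) - G (t e) (h e)))

end

/-! ## Items -/

section

/-- Targets of the items: another vertex, the corner `o`, or the boundary `b`. -/
inductive Tgt (ι : Type) where
  | v : ι → Tgt ι
  | o : Tgt ι
  | b : Tgt ι
  deriving DecidableEq

variable {E : Type} {ι : Type}

/-- The weight of an item of the vertex `i`; `none` is a lost item. -/
def wt (w : E → E → ℝ) (wo wb : E → ℝ) (e : ι → E) (i : ι) : Option (Tgt ι) → ℝ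
  | none => 1
  | some (Tgt.v u) => w (e i) (e u)
  | some Tgt.o => wo (e i)
  | some Tgt.b => wb (e i)

/-- The sum attached to a family of items, two (possibly lost) for every vertex. -/
noncomputable def SI [Fintype E] [Fintype ι] [DecidableEq ι] (w : E → E → ℝ) (wo wb : E → ℝ)
    (t : ι → Fin 2 → Option (Tgt ι)) : ℝ :=
  ∑ e : ι → E, ∏ i, ∏ c, wt w wo wb e i (t i c)

/-- No item points to its own vertex, no vertex has two boundary items. -/
def Good (t : ι → Fin 2 → Option (Tgt ι)) : Prop :=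
  (∀ i c, t i c ≠ some (Tgt.v i)) ∧ ∀ i, ¬ (t i 0 = some Tgt.b ∧ t i 1 = some Tgt.b)

section
variable [DecidableEq ι]

/-- number of (not lost) items -/
def nIt [Fintype ι] (t : ι → Fin 2 → Option (Tgt ι)) : ℕ :=
  (univ.filter (fun p : ι × Fin 2 => t p.1 p.2 ≠ none)).card

/-- number of items of the vertex `i` -/
def outN (t : ι → Fin 2 → Option (Tgt ι)) (i : ι) : ℕ :=
  (univ.filter (fun c : Fin 2 => t i c ≠ none)).card

/-- number of items pointing to the vertex `i` -/
def inN [Fintype ι] (t : ι → Fin 2 → Option (Tgt ι)) (i : ι) : ℕ :=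
  (univ.filter (fun p : ι × Fin 2 => t p.1 p.2 = some (Tgt.v i))).card

/-- Remove the vertex `i`: the items pointing to it are lost. -/
def remT (i : ι) (t : ι → Fin 2 → Option (Tgt ι)) :
    {u : ι // u ≠ i} → Fin 2 → Option (Tgt {u : ι // u ≠ i}) := fun u c =>
  match t u c with
  | none => none
  | some Tgt.o => some Tgt.o
  | some Tgt.b => some Tgt.b
  | some (Tgt.v x) => if h : x = i then none else some (Tgt.v ⟨x, h⟩)

/-- Fully paired items: both items of `i` point to `τ i`, `τ` an involution. -/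
def FPt (t : ι → Fin 2 → Tgt ι) : Prop :=
  ∃ τ : ι → ι, (∀ i c, t i c = Tgt.v (τ i)) ∧ ∀ i, τ (τ i) = i

end

/-! ### Permutations -/

variable [DecidableEq ι]

/-- The main targets of the two gradient items (row leg, column leg) of the vertex `i`. -/
def mt (σ : Equiv.Perm (ι × Fin 2)) (i : ι) (c : Fin 2) : Tgt ι :=
  if c = 0 then (if (σ (i, 1)).1 = i then Tgt.b else Tgt.v (σ (i, 1)).1)
  else (if (σ⁻¹ (i, 1)).1 = i then Tgt.b else Tgt.v (σ⁻¹ (i, 1)).1)

/-- Fully paired permutations. -/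
def FPs (σ : Equiv.Perm (ι × Fin 2)) : Prop :=
  ∀ i, (σ (i, 1)).1 ≠ i ∧ (σ⁻¹ (i, 1)).1 = (σ (i, 1)).1 ∧ (σ ((σ (i, 1)).1, 1)).1 = i

/-- The sum over the positions of the weight of a permutation. -/
noncomputable def FF [Fintype E] [Fintype ι] (K : Kern E) (σ : Equiv.Perm (ι × Fin 2)) : ℝ :=
  ∑ e : ι → E, PP K e σ

end

/-! ## Glueing and classes of permutations -/

section

open Equiv

variable {E : Type} {ι : Type} [DecidableEq ι]

/-- Glue the values at `i` and `j` with the values at the other vertices. -/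
def glue (i j : ι) (x y : E) (e' : {v : ι // v ≠ i ∧ v ≠ j} → E) : ι → E := fun v =>
  if hv : v ≠ i ∧ v ≠ j then e' ⟨v, hv⟩ else if v = i then x else y

/-- The class of permutations `A` for the pair `(i, j)`. -/
def cA (i j : ι) (σ : Perm (ι × Fin 2)) : Prop :=
  σ (i, 1) = (j, 1) ∧ σ (j, 1) = (i, 0) ∧ σ (j, 0) = (i, 1)

/-- The class of permutations `B` for the pair `(i, j)`. -/
def cB (i j : ι) (σ : Perm (ι × Fin 2)) : Prop :=
  σ (i, 1) = (j, 1) ∧ σ (j, 1) = (i, 1) ∧ σ (j, 0) = (i, 0)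

/-- The class of permutations `C` for the pair `(i, j)`. -/
def cC (i j : ι) (σ : Perm (ι × Fin 2)) : Prop :=
  σ (i, 1) = (j, 1) ∧ σ (j, 1) = (i, 1) ∧ σ (j, 0) = (j, 0)

/-- The class of permutations `Q` for the pair `(i, j)`. -/
def cQ (i j : ι) (σ : Perm (ι × Fin 2)) : Prop :=
  σ (i, 1) = (j, 1) ∧ σ (j, 1) = (i, 1) ∧ (σ (i, 0)).1 ≠ i ∧ (σ (i, 0)).1 ≠ j ∧
    (σ (j, 0)).1 ≠ i ∧ (σ (j, 0)).1 ≠ j

/-- Relabelling of the vertices. -/
def rel (π : Perm ι) : Perm (ι × Fin 2) := π.prodCongr (Equiv.refl (Fin 2))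

end

/-! ## Power series and Gaussian moments -/

section

open PowerSeries

/-- The derivation `(1 + X) d/dX`. -/
noncomputable def DD (F : PowerSeries ℝ) : PowerSeries ℝ :=
  (1 + PowerSeries.X) * PowerSeries.derivative ℝ F

/-- `k`-th derivative at zero. -/
noncomputable def ak (k : ℕ) (F : PowerSeries ℝ) : ℝ := constantCoeff (DD^[k] F)

/-- Gaussian moments. -/
def gm : ℕ → ℝ
  | 0 => 1
  | 1 => 0
  | (k + 2) => (k + 1) * gm k

end

/-! ## Rings -/

section

/-- The eight sites around `v`. -/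
def ring {n : ℕ} (v : Site n) : Finset (Site n) :=
  univ.filter (fun u => u ≠ v ∧ (u.1 : ℕ) ≤ v.1 + 1 ∧ (v.1 : ℕ) ≤ u.1 + 1 ∧
    (u.2 : ℕ) ≤ v.2 + 1 ∧ (v.2 : ℕ) ≤ u.2 + 1)

/-- All the eight sites around `v` have three grains. -/
def Full {n : ℕ} (v : Site n) (η : Config n) : Prop := ∀ u ∈ ring v, η u = 3

/-- `v` is not on the boundary of the box. -/
def Inner {n : ℕ} (v : Site n) : Prop :=
  0 < (v.1 : ℕ) ∧ (v.1 : ℕ) + 1 < n ∧ 0 < (v.2 : ℕ) ∧ (v.2 : ℕ) + 1 < n

end

/-! ## The potential kernel -/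

section

/-- `sin (π k / M)` -/
noncomputable def tk (M k : ℕ) : ℝ := Real.sin (Real.pi * k / M)

/-- The root in `(0, 1)` of `r + 1/r = 2 + 4 t^2`. -/
noncomputable def rk (M k : ℕ) : ℝ := (Real.sqrt (1 + tk M k ^ 2) - tk M k) ^ 2

/-- Residue in `[0, M)`. -/
def yr (M : ℕ) (y : ℤ) : ℕ := (y % (M : ℤ)).toNat

/-- Distance to the multiples of `M`. -/
def nd (M : ℕ) (y : ℤ) : ℕ := min (yr M y) (M - yr M y)

/-- The one-dimensional massive Green function on the cycle. -/
noncomputable def gk (M k : ℕ) (y : ℤ) : ℝ :=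
  (rk M k ^ (yr M y) + rk M k ^ (M - yr M y)) / ((1 - rk M k ^ M) * (1 / rk M k - rk M k))

/-- The potential kernel of the torus. -/
noncomputable def AA (M : ℕ) (x y : ℤ) : ℝ :=
  (∑ k ∈ Ico 1 M, (gk M k 0 - Real.cos (2 * Real.pi * k * x / M) * gk M k y) +
    (yr M y : ℝ) * (M - yr M y) / (2 * M)) / M

/-- The distance to `(Mℤ)²` in the maximum norm. -/
def nn (M : ℕ) (x y : ℤ) : ℕ := max (nd M x) (nd M y)

/-- Reflection. -/
def rf (b : Bool) (y : ℤ) : ℤ := if b then -1 - y else y

/-- The sum of the potential kernel over the four images. -/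
noncomputable def SA (M : ℕ) (x y : ℤ × ℤ) : ℝ :=
  ∑ s : Bool × Bool, AA M (x.1 - rf s.1 y.1) (x.2 - rf s.2 y.2)

/-- Coordinates. -/
def cz {n : ℕ} (x : HV n) : ℤ × ℤ := ((x.1 : ℕ), (x.2 : ℕ))

/-- The Green function of the dual grid, pinned at the corner `oo n = (0,0)`. -/
noncomputable def GG (n : ℕ) : Matrix (HV n) (HV n) ℝ := fun x y =>
  -SA (2 * (n + 1)) (cz x) (cz y) + SA (2 * (n + 1)) (cz x) (0, 0) +
    SA (2 * (n + 1)) (cz y) (0, 0) - SA (2 * (n + 1)) (0, 0) (0, 0)

/-- The position of an edge. -/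
def pz {n : ℕ} (e : Edge n) : ℤ × ℤ := cz (tl e)

/-- Decay weight between two edges. -/
noncomputable def wN {n : ℕ} (e f : Edge n) : ℝ :=
  1 / (1 + max |((pz e).1 : ℝ) - (pz f).1| |((pz e).2 : ℝ) - (pz f).2|)

/-- Decay weight to the corner. -/
noncomputable def woN {n : ℕ} (e : Edge n) : ℝ := 1 / (1 + max ((pz e).1 : ℝ) (pz e).2)

/-- Decay weight to the boundary. -/
noncomputable def wbN {n : ℕ} (e : Edge n) : ℝ :=
  1 / (1 + ((pz e).1 : ℝ)) + 1 / (1 + ((pz e).2 : ℝ)) + 1 / ((n : ℝ) + 1 - (pz e).1) +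
    1 / ((n : ℝ) + 1 - (pz e).2)

/-- The kernels of the model. -/
noncomputable def KN (n : ℕ) : Kern (Edge n) := kern tl hd (GG n)

end

end SND
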