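import Pool.Agent.SND.Defs

open Finset

namespace SND

variable {E : Type} [Fintype E]

theorem E1_MM_comp {F : Type} {ι κ : Type} [DecidableEq ι] [DecidableEq κ]
    (K : Kern F) (ε : ι ≃ κ) (e : κ → F) (p q : ι × Fin 2) :
    MM K (e ∘ ε) p q = MM K e (ε p.1, p.2) (ε q.1, q.2) := by
  simp [MM]

theorem E1_Dm_comp {F : Type} {ι κ : Type} [Fintype ι] [DecidableEq ι] [Fintype κ]
    [DecidableEq κ] (K : Kern F) (ε : ι ≃ κ) (e : κ → F) : Dm K (e ∘ ε) = Dm K e := by
  have h : MM K (e ∘ ε) = (MM K e).submatrix (ε.prodCongr (Equiv.refl (Fin 2)))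
      (ε.prodCongr (Equiv.refl (Fin 2))) := by
    ext p q
    rw [E1_MM_comp]
    rfl
  unfold Dm
  rw [h, Matrix.det_submatrix_equiv_self]

theorem E1_Cn_congr {ι κ : Type} [DecidableEq ι] [DecidableEq κ] (ε : ι ≃ κ)
    (σ : Equiv.Perm (ι × Fin 2)) (h : Cn σ) :
    Cn (Equiv.permCongr (ε.prodCongr (Equiv.refl (Fin 2))) σ) := by
  intro C hC hinv
  have h1 := h (ε ⁻¹' C) (by
    obtain ⟨x, hx⟩ := hC
    exact ⟨ε.symm x, by simpa using hx⟩) (by
    intro p hp
    have h2 := hinv (ε p.1, p.2) hp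
    simpa [Equiv.permCongr_apply] using h2)
  ext x
  constructor
  · intro _; trivial
  · intro _
    have h3 : ε.symm x ∈ ε ⁻¹' C := by rw [h1]; trivial
    simpa using h3

theorem E1_Dc_comp {F : Type} {ι κ : Type} [Fintype ι] [DecidableEq ι] [Fintype κ]
    [DecidableEq κ] (K : Kern F) (ε : ι ≃ κ) (e : κ → F) : Dc K (e ∘ ε) = Dc K e := by
  classical
  unfold Dc
  refine Finset.sum_equiv (Equiv.permCongr (ε.prodCongr (Equiv.refl (Fin 2)))) ?_ ?_
  · intro σ
    simp only [Finset.mem_filter, Finset.mem_univ, true_and]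
    refine ⟨fun h => E1_Cn_congr ε σ h, fun h => ?_⟩
    have h2 := E1_Cn_congr ε.symm _ h
    have h3 : (Equiv.permCongr (ε.symm.prodCongr (Equiv.refl (Fin 2))))
        ((Equiv.permCongr (ε.prodCongr (Equiv.refl (Fin 2)))) σ) = σ := by
      apply Equiv.ext
      rintro ⟨p1, p2⟩
      simp only [Equiv.permCongr_apply, Equiv.prodCongr_apply, Equiv.prodCongr_symm,
        Equiv.symm_symm, Equiv.refl_symm, Equiv.coe_refl, Prod.map_apply, id_eq,
        Equiv.symm_apply_apply]
      rcases σ (p1, p2) with ⟨q1, q2⟩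
      simp
    rw [h3] at h2
    exact h2
  · intro σ _
    rw [Equiv.Perm.sign_permCongr]
    congr 1
    unfold PP
    refine Fintype.prod_equiv (ε.prodCongr (Equiv.refl (Fin 2))) _ _ ?_
    rintro ⟨p1, p2⟩
    rw [E1_MM_comp]
    simp [Equiv.permCongr_apply, Prod.map]

/-- ROW SND-E1a. The sum of the moments only depends on the cardinality of the index set.

Proof. For an equivalence `ε : ι ≃ κ` and `e : κ → E`: `Dm K (e ∘ ε) = Dm K e`
(`MM K (e ∘ ε) = (MM K e).submatrix (ε × id) (ε × id)`, `Matrix.det_submatrix_equiv_self`), and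
`e ↦ e ∘ ε` is a bijection. Take `κ = Fin (card ι)`. -/
theorem sum_Dm_eq (K : Kern E) (ι : Type) [Fintype ι] [DecidableEq ι] :
    ∑ e : ι → E, Dm K e = mu K (Fintype.card ι) := by
  classical
  unfold mu
  refine (Fintype.sum_equiv ((Fintype.equivFin ι).arrowCongr (Equiv.refl E)).symm _ _ ?_).symm
  intro e
  exact (E1_Dm_comp K (Fintype.equivFin ι) e).symm

/-- ROW SND-E1b. The sum of the connected moments only depends on the cardinality of the index set.

Proof. As before: `Dc K (e ∘ ε) = Dc K e` through the conjugation of the permutations by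
`ε × id : ι × Fin 2 ≃ κ × Fin 2` (`Equiv.permCongr`), which preserves `Cn`, the sign
(`Equiv.Perm.sign_permCongr`) and `PP`. -/
theorem sum_Dc_eq (K : Kern E) (ι : Type) [Fintype ι] [DecidableEq ι] :
    ∑ e : ι → E, Dc K e = Kk K (Fintype.card ι) := by
  classical
  unfold Kk
  refine (Fintype.sum_equiv ((Fintype.equivFin ι).arrowCongr (Equiv.refl E)).symm _ _ ?_).symm
  intro e
  exact (E1_Dc_comp K (Fintype.equivFin ι) e).symm

end SND
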