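import Pool.Agent.SND.Defs

open Finset

namespace SND

variable {E : Type}

/-- invariant finsets -/
def E2_Inv {ι : Type} (σ : Equiv.Perm (ι × Fin 2)) (C : Finset ι) : Prop :=
  ∀ p, p.1 ∈ C → (σ p).1 ∈ C

theorem E2_inv_compl {ι : Type} [Fintype ι] [DecidableEq ι] {σ : Equiv.Perm (ι × Fin 2)}
    {C : Finset ι} (h : E2_Inv σ C) : E2_Inv σ Cᶜ := by
  intro p hp
  rw [Finset.mem_compl] at hp ⊢
  intro hc
  apply hp
  have h2 := Equiv.Perm.perm_symm_mapsTo_of_mapsTo σ (s := {p | p.1 ∈ C}) (fun p hp => h p hp) hc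
  simpa using h2

open Classical in
/-- the component of `i₀` -/
noncomputable def E2_comp {ι : Type} [Fintype ι] (i₀ : ι) (σ : Equiv.Perm (ι × Fin 2)) :
    Finset ι :=
  univ.filter (fun x => ∀ C : Finset ι, i₀ ∈ C → E2_Inv σ C → x ∈ C)

theorem E2_mem_comp {ι : Type} [Fintype ι] (i₀ : ι) (σ : Equiv.Perm (ι × Fin 2)) (x : ι) :
    x ∈ E2_comp i₀ σ ↔ ∀ C : Finset ι, i₀ ∈ C → E2_Inv σ C → x ∈ C := by
  simp [E2_comp]

theorem E2_self_mem {ι : Type} [Fintype ι] (i₀ : ι) (σ : Equiv.Perm (ι × Fin 2)) :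
    i₀ ∈ E2_comp i₀ σ := (E2_mem_comp _ _ _).2 fun _ h _ => h

theorem E2_comp_inv {ι : Type} [Fintype ι] (i₀ : ι) (σ : Equiv.Perm (ι × Fin 2)) :
    E2_Inv σ (E2_comp i₀ σ) := fun p hp =>
  (E2_mem_comp _ _ _).2 fun C h1 h2 => h2 p ((E2_mem_comp _ _ _).1 hp C h1 h2)

theorem E2_comp_subset {ι : Type} [Fintype ι] {i₀ : ι} {σ : Equiv.Perm (ι × Fin 2)}
    {C : Finset ι} (h1 : i₀ ∈ C) (h2 : E2_Inv σ C) : E2_comp i₀ σ ⊆ C := fun x hx =>
  (E2_mem_comp _ _ x).1 hx C h1 h2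

/-- splitting of the index set -/
def E2_phi {ι : Type} [Fintype ι] [DecidableEq ι] (C : Finset ι) :
    (C × Fin 2) ⊕ ((Cᶜ : Finset ι) × Fin 2) ≃ ι × Fin 2 :=
  (Equiv.sumProdDistrib _ _ _).symm.trans
    (((Equiv.sumCongr (Equiv.refl _) (Equiv.subtypeEquivRight (fun x => by simp))).trans
      (Equiv.sumCompl (fun x => x ∈ C))).prodCongr (Equiv.refl _))

theorem E2_phi_inl {ι : Type} [Fintype ι] [DecidableEq ι] (C : Finset ι) (p : C × Fin 2) :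
    E2_phi C (Sum.inl p) = (p.1.1, p.2) := rfl

theorem E2_phi_inr {ι : Type} [Fintype ι] [DecidableEq ι] (C : Finset ι)
    (p : (Cᶜ : Finset ι) × Fin 2) : E2_phi C (Sum.inr p) = (p.1.1, p.2) := rfl

/-- glue two permutations -/
def E2_Phi {ι : Type} [Fintype ι] [DecidableEq ι] (C : Finset ι)
    (σ₁ : Equiv.Perm (C × Fin 2)) (σ₂ : Equiv.Perm ((Cᶜ : Finset ι) × Fin 2)) :
    Equiv.Perm (ι × Fin 2) :=
  (E2_phi C).permCongr (Equiv.Perm.sumCongr σ₁ σ₂)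

theorem E2_Phi_inl {ι : Type} [Fintype ι] [DecidableEq ι] (C : Finset ι)
    (σ₁ : Equiv.Perm (C × Fin 2)) (σ₂ : Equiv.Perm ((Cᶜ : Finset ι) × Fin 2)) (p : C × Fin 2) :
    E2_Phi C σ₁ σ₂ (E2_phi C (Sum.inl p)) = E2_phi C (Sum.inl (σ₁ p)) := by
  simp [E2_Phi, Equiv.permCongr_apply]

theorem E2_Phi_inr {ι : Type} [Fintype ι] [DecidableEq ι] (C : Finset ι)
    (σ₁ : Equiv.Perm (C × Fin 2)) (σ₂ : Equiv.Perm ((Cᶜ : Finset ι) × Fin 2))
    (p : (Cᶜ : Finset ι) × Fin 2) :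
    E2_Phi C σ₁ σ₂ (E2_phi C (Sum.inr p)) = E2_phi C (Sum.inr (σ₂ p)) := by
  simp [E2_Phi, Equiv.permCongr_apply]

theorem E2_Phi_inv {ι : Type} [Fintype ι] [DecidableEq ι] (C : Finset ι)
    (σ₁ : Equiv.Perm (C × Fin 2)) (σ₂ : Equiv.Perm ((Cᶜ : Finset ι) × Fin 2)) :
    E2_Inv (E2_Phi C σ₁ σ₂) C := by
  intro p hp
  have h := E2_Phi_inl C σ₁ σ₂ (⟨p.1, hp⟩, p.2)
  have h2 : E2_phi C (Sum.inl ((⟨p.1, hp⟩ : C), p.2)) = p := rfl
  rw [h2] at h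
  rw [h, E2_phi_inl]
  exact (σ₁ (⟨p.1, hp⟩, p.2)).1.2

theorem E2_comp_eq_of_Cn {ι : Type} [Fintype ι] [DecidableEq ι] {C : Finset ι} {i₀ : ι}
    (hi : i₀ ∈ C) (σ₁ : Equiv.Perm (C × Fin 2)) (σ₂ : Equiv.Perm ((Cᶜ : Finset ι) × Fin 2))
    (h : Cn σ₁) : E2_comp i₀ (E2_Phi C σ₁ σ₂) = C := by
  apply Finset.Subset.antisymm (E2_comp_subset hi (E2_Phi_inv C σ₁ σ₂))
  have h1 := h {x | x.1 ∈ E2_comp i₀ (E2_Phi C σ₁ σ₂)} ⟨⟨i₀, hi⟩, E2_self_mem _ _⟩ (by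
    intro p hp
    have h2 := E2_comp_inv i₀ (E2_Phi C σ₁ σ₂) (E2_phi C (Sum.inl p)) hp
    rw [E2_Phi_inl, E2_phi_inl] at h2
    exact h2)
  intro x hx
  have h3 : (⟨x, hx⟩ : C) ∈ {x : C | x.1 ∈ E2_comp i₀ (E2_Phi C σ₁ σ₂)} := by
    rw [h1]; trivial
  exact h3

theorem E2_Cn_of_comp_eq {ι : Type} [Fintype ι] [DecidableEq ι] {C : Finset ι} {i₀ : ι}
    (σ₁ : Equiv.Perm (C × Fin 2)) (σ₂ : Equiv.Perm ((Cᶜ : Finset ι) × Fin 2))
    (h : E2_comp i₀ (E2_Phi C σ₁ σ₂) = C) : Cn σ₁ := by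
  classical
  intro D hD hinv
  set D' : Finset ι := univ.filter (fun x => ∃ hx : x ∈ C, (⟨x, hx⟩ : C) ∈ D) with hD'
  have hmem : ∀ x, x ∈ D' ↔ ∃ hx : x ∈ C, (⟨x, hx⟩ : C) ∈ D := by
    intro x; simp [hD']
  have hi' : E2_Inv (E2_Phi C σ₁ σ₂) D' := by
    intro p hp
    obtain ⟨hx, hx2⟩ := (hmem _).1 hp
    have h1 := E2_Phi_inl C σ₁ σ₂ (⟨p.1, hx⟩, p.2)
    have h2 : E2_phi C (Sum.inl ((⟨p.1, hx⟩ : C), p.2)) = p := rfl
    rw [h2] at h1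
    rw [h1, E2_phi_inl]
    exact (hmem _).2 ⟨(σ₁ (⟨p.1, hx⟩, p.2)).1.2, hinv (⟨p.1, hx⟩, p.2) hx2⟩
  by_cases hi : i₀ ∈ D'
  · have h1 := E2_comp_subset hi hi'
    rw [h] at h1
    ext x
    constructor
    · intro _; trivial
    · intro _
      obtain ⟨hx, hx2⟩ := (hmem _).1 (h1 x.2)
      exact hx2
  · have h1 := E2_comp_subset (Finset.mem_compl.2 hi) (E2_inv_compl hi')
    rw [h] at h1
    obtain ⟨x, hx⟩ := hD
    exact absurd ((hmem x.1).2 ⟨x.2, hx⟩) (Finset.mem_compl.1 (h1 x.2))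

theorem E2_Phi_injective {ι : Type} [Fintype ι] [DecidableEq ι] (C : Finset ι)
    {σ₁ τ₁ : Equiv.Perm (C × Fin 2)} {σ₂ τ₂ : Equiv.Perm ((Cᶜ : Finset ι) × Fin 2)}
    (h : E2_Phi C σ₁ σ₂ = E2_Phi C τ₁ τ₂) : σ₁ = τ₁ ∧ σ₂ = τ₂ := by
  constructor
  · apply Equiv.ext
    intro p
    have h1 := E2_Phi_inl C σ₁ σ₂ p
    rw [h, E2_Phi_inl] at h1
    exact (Sum.inl_injective ((E2_phi C).injective h1)).symm
  · apply Equiv.ext
    intro p
    have h1 := E2_Phi_inr C σ₁ σ₂ p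
    rw [h, E2_Phi_inr] at h1
    exact (Sum.inr_injective ((E2_phi C).injective h1)).symm

theorem E2_exists_Phi {ι : Type} [Fintype ι] [DecidableEq ι] {C : Finset ι}
    {σ : Equiv.Perm (ι × Fin 2)} (h : E2_Inv σ C) : ∃ σ₁ σ₂, E2_Phi C σ₁ σ₂ = σ := by
  have h1 : (E2_phi C).symm.permCongr σ ∈
      (Equiv.Perm.sumCongrHom (C × Fin 2) ((Cᶜ : Finset ι) × Fin 2)).range := by
    apply Equiv.Perm.mem_sumCongrHom_range_of_perm_mapsTo_inl
    rintro _ ⟨p, rfl⟩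
    have h2 := h (E2_phi C (Sum.inl p)) p.1.2
    refine ⟨(⟨_, h2⟩, (σ (E2_phi C (Sum.inl p))).2), ?_⟩
    apply (E2_phi C).injective
    rw [E2_phi_inl]
    simp [Equiv.permCongr_apply]
  obtain ⟨⟨σ₁, σ₂⟩, h2⟩ := h1
  refine ⟨σ₁, σ₂, ?_⟩
  have h3 : Equiv.Perm.sumCongr σ₁ σ₂ = (E2_phi C).symm.permCongr σ := h2
  unfold E2_Phi
  rw [h3]
  apply Equiv.ext
  intro p
  simp [Equiv.permCongr_apply]

theorem E2_PP {ι : Type} [Fintype ι] [DecidableEq ι] (K : Kern E) (e : ι → E) (C : Finset ι)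
    (σ₁ : Equiv.Perm (C × Fin 2)) (σ₂ : Equiv.Perm ((Cᶜ : Finset ι) × Fin 2)) :
    PP K e (E2_Phi C σ₁ σ₂) =
      PP K (fun x : C => e x) σ₁ * PP K (fun x : (Cᶜ : Finset ι) => e x) σ₂ := by
  unfold PP
  rw [← Fintype.prod_equiv (E2_phi C) (fun q => MM K e (E2_phi C q)
    (E2_Phi C σ₁ σ₂ (E2_phi C q))) _ (fun _ => rfl), Fintype.prod_sum_type]
  congr 1
  · apply Finset.prod_congr rfl
    intro p _
    rw [E2_Phi_inl, E2_phi_inl, E2_phi_inl]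
    simp only [MM, Subtype.ext_iff]
  · apply Finset.prod_congr rfl
    intro p _
    rw [E2_Phi_inr, E2_phi_inr, E2_phi_inr]
    simp only [MM, Subtype.ext_iff]

theorem E2_sign {ι : Type} [Fintype ι] [DecidableEq ι] (C : Finset ι)
    (σ₁ : Equiv.Perm (C × Fin 2)) (σ₂ : Equiv.Perm ((Cᶜ : Finset ι) × Fin 2)) :
    Equiv.Perm.sign (E2_Phi C σ₁ σ₂) = Equiv.Perm.sign σ₁ * Equiv.Perm.sign σ₂ := by
  unfold E2_Phi
  rw [Equiv.Perm.sign_permCongr, Equiv.Perm.sign_sumCongr]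

theorem E2_Dm {ι : Type} [Fintype ι] [DecidableEq ι] (K : Kern E) (e : ι → E) :
    Dm K e = ∑ σ : Equiv.Perm (ι × Fin 2), ((Equiv.Perm.sign σ : ℤ) : ℝ) * PP K e σ := by
  unfold Dm PP
  rw [← Matrix.det_transpose, Matrix.det_apply']
  rfl

/-- ROW SND-E2. Splitting off the connected component of `i₀`.

Proof. `Dm K e = ∑_σ sign σ * ∏ p, MM K e p (σ p)` (`Matrix.det_apply'` for the transposed matrix,
`Matrix.det_transpose`). For `σ : Perm (ι × Fin 2)` a set `C ⊆ ι` is called invariant if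
`p.1 ∈ C → (σ p).1 ∈ C`; as everything is finite, then also `p.1 ∉ C → (σ p).1 ∉ C`. The
intersection of all the invariant finsets containing `i₀` is invariant: call it `C(σ)` (the
component). For `C ∋ i₀` the permutations with `C(σ) = C` correspond bijectively to the pairs
`(σ₁, σ₂)`, `σ₁ : Perm (C × Fin 2)` with `Cn σ₁`, `σ₂ : Perm (Cᶜ × Fin 2)` arbitrary
(`σ₁ = ` restriction; use `Equiv.Perm.subtypeCongr`/`Equiv.Perm.sumCongr` and the equivalence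
`(C × Fin 2) ⊕ (Cᶜ × Fin 2) ≃ ι × Fin 2`; `Cn σ₁` iff there is no invariant proper nonempty
subset of `C`, iff `C(σ) = C`: if `C' ⊆ C` is nonempty invariant and proper, then `C'` or `C \ C'` is
an invariant set containing `i₀` smaller than `C`), the sign is multiplicative
(`Equiv.Perm.sign_sumCongr`) and so is the product, because `MM K e` restricted to
`C × Fin 2` is `MM K (e restricted to C)`. -/
theorem Dm_expand (K : Kern E) {ι : Type} [Fintype ι] [DecidableEq ι] (i₀ : ι) (e : ι → E) :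
    Dm K e = ∑ C ∈ (univ : Finset (Finset ι)).filter (fun C => i₀ ∈ C),
      Dc K (fun x : C => e x) * Dm K (fun x : (Cᶜ : Finset ι) => e x) := by
  classical
  rw [E2_Dm, ← Finset.sum_fiberwise_of_maps_to (s := univ)
    (t := (univ : Finset (Finset ι)).filter (fun C => i₀ ∈ C)) (g := fun σ => E2_comp i₀ σ)
    (fun σ _ => by simp [E2_self_mem])]
  apply Finset.sum_congr rfl
  intro C hC
  have hi : i₀ ∈ C := by simpa using hC
  rw [E2_Dm]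
  unfold Dc
  rw [Finset.sum_mul_sum, ← Finset.sum_product']
  symm
  refine Finset.sum_bij (fun x _ => E2_Phi C x.1 x.2) ?_ ?_ ?_ ?_
  · rintro ⟨σ₁, σ₂⟩ hx
    simp only [Finset.mem_product, Finset.mem_filter, Finset.mem_univ, true_and, and_true] at hx
    simp only [Finset.mem_filter, Finset.mem_univ, true_and]
    exact E2_comp_eq_of_Cn hi σ₁ σ₂ hx
  · rintro ⟨σ₁, σ₂⟩ _ ⟨τ₁, τ₂⟩ _ h
    obtain ⟨h1, h2⟩ := E2_Phi_injective C h
    simp only at h1 h2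
    rw [h1, h2]
  · intro σ hσ
    simp only [Finset.mem_filter, Finset.mem_univ, true_and] at hσ
    have h1 : E2_Inv σ C := by
      have := E2_comp_inv i₀ σ
      rwa [hσ] at this
    obtain ⟨σ₁, σ₂, rfl⟩ := E2_exists_Phi h1
    refine ⟨(σ₁, σ₂), ?_, rfl⟩
    simp only [Finset.mem_product, Finset.mem_filter, Finset.mem_univ, true_and, and_true]
    exact E2_Cn_of_comp_eq σ₁ σ₂ hσ
  · rintro ⟨σ₁, σ₂⟩ _
    simp only
    rw [E2_PP, E2_sign]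
    push_cast
    ring

end SND
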