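import Pool.Agent.SND.Defs
import Pool.Agent.SND.E1
import Pool.Agent.SND.E2

open Finset

namespace SND

variable {E : Type} [Fintype E]

/-- splitting of the functions -/
def E3_psi (F : Type) {ι : Type} [Fintype ι] [DecidableEq ι] (C : Finset ι) :
    (ι → F) ≃ (C → F) × ((Cᶜ : Finset ι) → F) :=
  (Equiv.arrowCongr (((Equiv.sumCongr (Equiv.refl _)
    (Equiv.subtypeEquivRight (fun x => by simp))).trans
      (Equiv.sumCompl (fun x => x ∈ C))).symm : ι ≃ C ⊕ ((Cᶜ : Finset ι))) (Equiv.refl F)).trans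
    (Equiv.sumArrowEquivProdArrow _ _ _)

theorem E3_psi_fst (F : Type) {ι : Type} [Fintype ι] [DecidableEq ι] (C : Finset ι)
    (e : ι → F) : (E3_psi F C e).1 = fun x : C => e x := rfl

theorem E3_psi_snd (F : Type) {ι : Type} [Fintype ι] [DecidableEq ι] (C : Finset ι)
    (e : ι → F) : (E3_psi F C e).2 = fun x : (Cᶜ : Finset ι) => e x := rfl

theorem E3_sum_split (K : Kern E) {ι : Type} [Fintype ι] [DecidableEq ι] (C : Finset ι) :
    ∑ e : ι → E, Dc K (fun x : C => e x) * Dm K (fun x : (Cᶜ : Finset ι) => e x) =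
      Kk K C.card * mu K (Fintype.card ι - C.card) := by
  classical
  rw [Fintype.sum_equiv (E3_psi E C) _ (fun p : (C → E) × ((Cᶜ : Finset ι) → E) =>
    Dc K p.1 * Dm K p.2) (fun e => by rw [E3_psi_fst, E3_psi_snd]), Fintype.sum_prod_type]
  simp only
  rw [← Finset.sum_mul_sum, sum_Dc_eq, sum_Dm_eq, Fintype.card_coe, Fintype.card_coe,
    Finset.card_compl]

/-- ROW SND-E3. The moment-cumulant recursion.

Proof. Sum `Dm_expand` (with `i₀ = 0 : Fin (k+1)`) over `e : Fin (k+1) → E`. For fixed `C`,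
`e ↦ (e restricted to C, e restricted to Cᶜ)` is a bijection (`Equiv.piEquivPiSubtypeProd` or
`Equiv.sumArrowEquivProdArrow` + `Equiv.sumCompl`), so the sum of the term of `C` is
`(∑_{e₁ : C → E} Dc K e₁) * (∑_{e₂ : Cᶜ → E} Dm K e₂) = Kk K #C * mu K (k + 1 - #C)` by
`sum_Dc_eq`, `sum_Dm_eq`. The number of `C ∋ 0` with `#C = j + 1` is `k.choose j`
(`C ↦ C.erase 0`; `Finset.card_powersetCard`, `Finset.sum_powerset...`). -/
theorem mu_succ (K : Kern E) (k : ℕ) :
    mu K (k + 1) = ∑ j ∈ range (k + 1), (k.choose j : ℝ) * Kk K (j + 1) * mu K (k - j) := by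
  classical
  have h1 : mu K (k + 1) = ∑ C ∈ (univ : Finset (Finset (Fin (k + 1)))).filter
      (fun C => (0 : Fin (k + 1)) ∈ C), Kk K C.card * mu K (k + 1 - C.card) := by
    unfold mu
    rw [Finset.sum_congr rfl (fun e _ => Dm_expand K (0 : Fin (k + 1)) e), Finset.sum_comm]
    apply Finset.sum_congr rfl
    intro C _
    rw [E3_sum_split, Fintype.card_fin]
    rfl
  have h2 : ∑ C ∈ (univ : Finset (Finset (Fin (k + 1)))).filter
      (fun C => (0 : Fin (k + 1)) ∈ C), Kk K C.card * mu K (k + 1 - C.card) =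
      ∑ D ∈ ((univ : Finset (Fin (k + 1))).erase 0).powerset,
        Kk K (D.card + 1) * mu K (k - D.card) := by
    refine Finset.sum_bij' (fun C _ => C.erase 0) (fun D _ => insert 0 D) ?_ ?_ ?_ ?_ ?_
    · intro C _
      rw [Finset.mem_powerset]
      exact Finset.erase_subset_erase 0 (Finset.subset_univ C)
    · intro D _
      simp
    · intro C hC
      exact Finset.insert_erase (by simpa using hC)
    · intro D hD
      rw [Finset.mem_powerset] at hD
      exact Finset.erase_insert (fun h => by simpa using hD h)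
    · intro C hC
      have h0 : (0 : Fin (k + 1)) ∈ C := by simpa using hC
      have hc := Finset.card_erase_add_one h0
      rw [← hc]
      congr 2
      omega
  have h3 := Finset.sum_powerset_apply_card (fun j => Kk K (j + 1) * mu K (k - j))
    (x := (univ : Finset (Fin (k + 1))).erase 0)
  rw [h1, h2, h3, Finset.card_erase_of_mem (Finset.mem_univ _), Finset.card_univ,
    Fintype.card_fin, Nat.add_sub_cancel]
  apply Finset.sum_congr rfl
  intro j _
  rw [nsmul_eq_mul]
  ring

end SND
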