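import Pool.Agent.SND.Defs

open Finset

namespace SND

variable {E : Type} [Fintype E] {K : Kern E} {w : E → E → ℝ} {wo wb : E → ℝ} {q Λ : ℝ}
variable {ι : Type} [Fintype ι] [DecidableEq ι]

theorem F1a_remT (i : ι) (t : ι → Fin 2 → Option (Tgt ι)) (u : {u : ι // u ≠ i}) (c : Fin 2) :
    ((t u c ≠ none) ↔ (remT i t u c ≠ none ∨ t u c = some (Tgt.v i))) ∧
    ¬ (remT i t u c ≠ none ∧ t u c = some (Tgt.v i)) ∧
    (∀ x, remT i t u c = some (Tgt.v x) → t u c = some (Tgt.v x.1)) ∧
    (remT i t u c = some Tgt.b → t u c = some Tgt.b) := by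
  unfold remT
  rcases h : t u c with _ | (x | _ | _)
  · simp
  · by_cases hx : x = i
    · subst hx
      simp
    · simp only [hx, dite_false]
      refine ⟨by simp, by simp [hx], ?_, by simp⟩
      intro y hy
      have h1 : (⟨x, hx⟩ : {u : ι // u ≠ i}) = y := by simpa using hy
      rw [← h1]
  · simp
  · simp

/-- ROW SND-F1a. Elementary properties of the removal of a vertex.

Proof: (1) `Good` is inherited: cases on `t u c`. (2) Count the items `p = (u, c)` with
`t u c ≠ none`: those with `u = i` are `outN t i` many; those with `u ≠ i` and `t u c = some (v i)`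
are `inN t i` many (all the items pointing to `i` have `u ≠ i` by `Good`); the others correspond to
the items of `remT i t`. -/
theorem remT_good (t : ι → Fin 2 → Option (Tgt ι)) (ht : Good t) (i : ι) :
    Good (remT i t) ∧ nIt (remT i t) + outN t i + inN t i = nIt t := by
  constructor
  · constructor
    · intro u c h
      exact ht.1 u.1 c ((F1a_remT i t u c).2.2.1 u h)
    · rintro u ⟨h0, h1⟩
      exact ht.2 u.1 ⟨(F1a_remT i t u 0).2.2.2 h0, (F1a_remT i t u 1).2.2.2 h1⟩
  · unfold nIt outN inN
    simp only [card_filter]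
    rw [Fintype.sum_prod_type, Fintype.sum_prod_type, Fintype.sum_prod_type,
      Fintype.sum_eq_add_sum_subtype_ne _ i,
      Fintype.sum_eq_add_sum_subtype_ne (fun u => ∑ c, if t u c ≠ none then 1 else 0) i]
    have h0 : ∑ c, (if t i c = some (Tgt.v i) then 1 else 0) = 0 :=
      sum_eq_zero fun c _ => if_neg (ht.1 i c)
    have h1 : ∑ u : {u : ι // u ≠ i}, ∑ c, (if t u.1 c ≠ none then 1 else 0) =
        ∑ u : {u : ι // u ≠ i}, ∑ c, (if remT i t u c ≠ none then 1 else 0) +
        ∑ u : {u : ι // u ≠ i}, ∑ c, (if t u.1 c = some (Tgt.v i) then 1 else 0) := by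
      rw [← sum_add_distrib]
      refine sum_congr rfl fun u _ => ?_
      rw [← sum_add_distrib]
      refine sum_congr rfl fun c _ => ?_
      obtain ⟨h2, h3, -, -⟩ := F1a_remT i t u c
      by_cases h4 : remT i t u c ≠ none
      · have h5 : ¬ t u.1 c = some (Tgt.v i) := fun h => h3 ⟨h4, h⟩
        have h6 : t u.1 c ≠ none := h2.2 (Or.inl h4)
        rw [if_pos h6, if_pos h4, if_neg h5]
      · by_cases h5 : t u.1 c = some (Tgt.v i)
        · have h6 : t u.1 c ≠ none := h2.2 (Or.inr h5)
          rw [if_pos h6, if_neg h4, if_pos h5]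
        · have h6 : ¬ t u.1 c ≠ none := fun h => (h2.1 h).elim h4 h5
          rw [if_neg h6, if_neg h4, if_neg h5]
    dsimp only
    omega

end SND
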