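import Pool.Agent.SND.Defs

open Finset

namespace SND

variable {E : Type} [Fintype E] {K : Kern E} {w : E → E → ℝ} {wo wb : E → ℝ} {q Λ : ℝ}
variable {ι : Type} [Fintype ι] [DecidableEq ι]

lemma F1b_wt_nonneg (hE : Est K w wo wb q Λ) (e : ι → E) (i : ι) (o : Option (Tgt ι)) :
    0 ≤ wt w wo wb e i o := by
  rcases o with _ | (u | _ | _)
  · exact zero_le_one
  · exact (hE.w_pos _ _).le
  · exact hE.wo_nonneg _
  · exact hE.wb_nonneg _

/-- two factors at the same vertex -/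
lemma F1b_two (hE : Est K w wo wb q Λ) (i : ι) (e' : {u : ι // u ≠ i} → E)
    (o1 o2 : Option (Tgt ι)) (h1 : o1 ≠ some (Tgt.v i)) (h2 : o2 ≠ some (Tgt.v i))
    (hb : ¬ (o1 = some Tgt.b ∧ o2 = some Tgt.b)) :
    ∑ x : E, wt w wo wb ((Equiv.funSplitAt i E).symm (x, e')) i o1 *
      wt w wo wb ((Equiv.funSplitAt i E).symm (x, e')) i o2 ≤
      Λ * q ^ (4 - 2 * ((if o1 ≠ none then 1 else 0) + (if o2 ≠ none then 1 else 0))) := by
  have hi : ∀ x, (Equiv.funSplitAt i E).symm (x, e') i = x := by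
    intro x; simp [Equiv.funSplitAt, Equiv.piSplitAt]
  have hne : ∀ x u (hu : u ≠ i), (Equiv.funSplitAt i E).symm (x, e') u = e' ⟨u, hu⟩ := by
    intro x u hu; simp [Equiv.funSplitAt, Equiv.piSplitAt, hu]
  have hww : ∀ y z, ∑ x, w x y * w x z ≤ Λ := by
    intro y z
    have h : ∀ x, w x y * w x z ≤ (w x y ^ 2 + w x z ^ 2) / 2 := fun x => by
      nlinarith [sq_nonneg (w x y - w x z)]
    calc ∑ x, w x y * w x z ≤ ∑ x, (w x y ^ 2 + w x z ^ 2) / 2 := Finset.sum_le_sum fun x _ => h x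
      _ = (∑ x, w x y ^ 2 + ∑ x, w x z ^ 2) / 2 := by
          rw [← Finset.sum_div, Finset.sum_add_distrib]
      _ ≤ Λ := by linarith [hE.sum_ww y, hE.sum_ww z]
  have hwo : ∀ y, ∑ x, w x y * wo x ≤ Λ := by
    intro y
    have h : ∀ x, w x y * wo x ≤ (w x y ^ 2 + wo x ^ 2) / 2 := fun x => by
      nlinarith [sq_nonneg (w x y - wo x)]
    calc ∑ x, w x y * wo x ≤ ∑ x, (w x y ^ 2 + wo x ^ 2) / 2 := Finset.sum_le_sum fun x _ => h x
      _ = (∑ x, w x y ^ 2 + ∑ x, wo x ^ 2) / 2 := by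
          rw [← Finset.sum_div, Finset.sum_add_distrib]
      _ ≤ Λ := by linarith [hE.sum_ww y, hE.sum_wowo]
  have hwo' : ∀ y, ∑ x, wo x * w x y ≤ Λ := fun y => by
    simpa only [mul_comm] using hwo y
  have hwb' : ∀ y, ∑ x, wb x * w x y ≤ Λ := fun y => by
    have := hE.sum_wwb y
    simpa only [mul_comm] using this
  have hoo : ∑ x, wo x * wo x ≤ Λ := by simpa only [sq] using hE.sum_wowo
  have hbo : ∑ x, wb x * wo x ≤ Λ := by
    have := hE.sum_wowb
    simpa only [mul_comm] using this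
  have hcard : ∑ _x : E, (1 : ℝ) ≤ Λ * q ^ 4 := by
    rw [Finset.sum_const, Finset.card_univ, nsmul_eq_mul, mul_one]
    exact hE.card_le
  rcases o1 with _ | (a | _ | _) <;> rcases o2 with _ | (b | _ | _)
  · simpa [wt] using hE.card_le
  · have hb' : b ≠ i := fun h => h2 (by rw [h])
    simpa [wt, hi, hne _ _ hb'] using hE.sum_w (e' ⟨b, hb'⟩)
  · simpa [wt, hi] using hE.sum_wo
  · simpa [wt, hi] using hE.sum_wb
  · have ha' : a ≠ i := fun h => h1 (by rw [h])
    simpa [wt, hi, hne _ _ ha'] using hE.sum_w (e' ⟨a, ha'⟩)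
  · have ha' : a ≠ i := fun h => h1 (by rw [h])
    have hb' : b ≠ i := fun h => h2 (by rw [h])
    simpa [wt, hi, hne _ _ ha', hne _ _ hb'] using hww (e' ⟨a, ha'⟩) (e' ⟨b, hb'⟩)
  · have ha' : a ≠ i := fun h => h1 (by rw [h])
    simpa [wt, hi, hne _ _ ha'] using hwo (e' ⟨a, ha'⟩)
  · have ha' : a ≠ i := fun h => h1 (by rw [h])
    simpa [wt, hi, hne _ _ ha'] using hE.sum_wwb (e' ⟨a, ha'⟩)
  · simpa [wt, hi] using hE.sum_wo
  · have hb' : b ≠ i := fun h => h2 (by rw [h])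
    simpa [wt, hi, hne _ _ hb'] using hwo' (e' ⟨b, hb'⟩)
  · simpa [wt, hi] using hoo
  · simpa [wt, hi] using hE.sum_wowb
  · simpa [wt, hi] using hE.sum_wb
  · have hb' : b ≠ i := fun h => h2 (by rw [h])
    simpa [wt, hi, hne _ _ hb'] using hwb' (e' ⟨b, hb'⟩)
  · simpa [wt, hi] using hbo
  · exact absurd ⟨rfl, rfl⟩ hb

lemma F1b_wt_le (hE : Est K w wo wb q Λ) (t : ι → Fin 2 → Option (Tgt ι)) (i : ι) (x : E)
    (e' : {u : ι // u ≠ i} → E) (u : {u : ι // u ≠ i}) (c : Fin 2) :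
    wt w wo wb ((Equiv.funSplitAt i E).symm (x, e')) u (t u c) ≤
      wt w wo wb e' u (remT i t u c) := by
  have hne : ∀ x u (hu : u ≠ i), (Equiv.funSplitAt i E).symm (x, e') u = e' ⟨u, hu⟩ := by
    intro x u hu; simp [Equiv.funSplitAt, Equiv.piSplitAt, hu]
  unfold remT
  rcases h : t u c with _ | (a | _ | _)
  · exact le_refl _
  · by_cases ha : a = i
    · simp only [ha, dif_pos]
      show w _ _ ≤ 1
      exact hE.w_le _ _
    · simp only [ha, dite_false]
      show w _ _ ≤ w _ _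
      rw [hne _ _ u.2, hne _ _ ha]
  · show wo _ ≤ wo _
    rw [hne _ _ u.2]
  · show wb _ ≤ wb _
    rw [hne _ _ u.2]

/-- ROW SND-F1b. Summation over the position of the vertex `i`.

Proof. `∑_{e : ι → E} = ∑_{e' : {u // u ≠ i} → E} ∑_{x : E}` (e.g. `Equiv.piSplitAt`,
`Equiv.funSplitAt i E`). For `e ↔ (x, e')`: the factors of the vertices `u ≠ i` are bounded by
`∏_u ∏_c wt w wo wb e' u (remT i t u c)` since the lost factors `w (e u) (e i)` are in `[0, 1]` and
all factors are nonnegative. So it suffices to show, for every `e'`,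
`∑_x ∏_c (weight of t i c) ≤ Λ * q ^ (4 - 2 * outN t i)`:
* `outN = 0`: `card_le`;
* `outN = 1`: `sum_w`, `sum_wo`, `sum_wb` (note `w x (e' u)` is summed over the first variable);
* `outN = 2`: `w x y * w x z ≤ (w x y ^ 2 + w x z ^ 2) / 2` and `sum_ww`; `w x y * wo x` similarly with
  `sum_wowo`; `sum_wwb`; `sum_wowo`; `sum_wowb`; the case `wb x * wb x` is excluded by `Good`.
(The items of `i` do not point to `i` by `Good`.) -/
theorem sum_step (hE : Est K w wo wb q Λ) (t : ι → Fin 2 → Option (Tgt ι)) (ht : Good t) (i : ι) :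
    SI w wo wb t ≤ Λ * q ^ (4 - 2 * outN t i) * SI w wo wb (remT i t) := by
  classical
  unfold SI
  rw [← Equiv.sum_comp (Equiv.funSplitAt i E).symm, Fintype.sum_prod_type, Finset.sum_comm,
    Finset.mul_sum]
  refine Finset.sum_le_sum fun e' _ => ?_
  set P : ℝ := ∏ u : {u : ι // u ≠ i}, ∏ c, wt w wo wb e' u (remT i t u c) with hP
  have hP0 : 0 ≤ P := Finset.prod_nonneg fun u _ => Finset.prod_nonneg fun c _ =>
    F1b_wt_nonneg hE _ _ _
  have h1 : ∀ x, ∏ u, ∏ c, wt w wo wb ((Equiv.funSplitAt i E).symm (x, e')) u (t u c) ≤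
      (wt w wo wb ((Equiv.funSplitAt i E).symm (x, e')) i (t i 0) *
      wt w wo wb ((Equiv.funSplitAt i E).symm (x, e')) i (t i 1)) * P := by
    intro x
    rw [Fintype.prod_eq_mul_prod_subtype_ne _ i, Fin.prod_univ_two]
    refine mul_le_mul_of_nonneg_left ?_ (mul_nonneg (F1b_wt_nonneg hE _ _ _)
      (F1b_wt_nonneg hE _ _ _))
    refine Finset.prod_le_prod (fun u _ => Finset.prod_nonneg fun c _ =>
      F1b_wt_nonneg hE _ _ _) fun u _ => ?_
    exact Finset.prod_le_prod (fun c _ => F1b_wt_nonneg hE _ _ _)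
      fun c _ => F1b_wt_le hE t i x e' u c
  have hout : outN t i = (if t i 0 ≠ none then 1 else 0) + (if t i 1 ≠ none then 1 else 0) := by
    unfold outN
    rw [Finset.card_filter, Fin.sum_univ_two]
  calc ∑ x, ∏ u, ∏ c, wt w wo wb ((Equiv.funSplitAt i E).symm (x, e')) u (t u c)
      ≤ ∑ x, (wt w wo wb ((Equiv.funSplitAt i E).symm (x, e')) i (t i 0) *
      wt w wo wb ((Equiv.funSplitAt i E).symm (x, e')) i (t i 1)) * P :=
        Finset.sum_le_sum fun x _ => h1 x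
    _ = (∑ x, wt w wo wb ((Equiv.funSplitAt i E).symm (x, e')) i (t i 0) *
      wt w wo wb ((Equiv.funSplitAt i E).symm (x, e')) i (t i 1)) * P := by
        rw [Finset.sum_mul]
    _ ≤ _ := by
        refine mul_le_mul_of_nonneg_right ?_ hP0
        rw [hout]
        exact F1b_two hE i e' _ _ (ht.1 i 0) (ht.1 i 1) (ht.2 i)

end SND
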