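import Pool.Agent.SND.Defs
import Pool.Agent.SND.F1a
import Pool.Agent.SND.F1b

open Finset

namespace SND

variable {E : Type} [Fintype E] {K : Kern E} {w : E → E → ℝ} {wo wb : E → ℝ} {q Λ : ℝ}
variable {ι : Type} [Fintype ι] [DecidableEq ι]

lemma F2_nIt_le (t : ι → Fin 2 → Option (Tgt ι)) : nIt t ≤ 2 * Fintype.card ι := by
  unfold nIt
  refine le_trans (Finset.card_filter_le _ _) ?_
  rw [Finset.card_univ, Fintype.card_prod, Fintype.card_fin, mul_comm]

lemma F2_outN_le (t : ι → Fin 2 → Option (Tgt ι)) (i : ι) : outN t i ≤ 2 := by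
  unfold outN
  refine le_trans (Finset.card_filter_le _ _) ?_
  rw [Finset.card_univ, Fintype.card_fin]

lemma F2_sum_outN (t : ι → Fin 2 → Option (Tgt ι)) : ∑ i, outN t i = nIt t := by
  unfold outN nIt
  simp only [Finset.card_filter]
  rw [Fintype.sum_prod_type]

lemma F2_sum_inN (t : ι → Fin 2 → Option (Tgt ι)) : ∑ i, inN t i ≤ nIt t := by
  unfold inN nIt
  simp only [Finset.card_filter]
  rw [Finset.sum_comm]
  refine Finset.sum_le_sum fun p _ => ?_
  rcases h : t p.1 p.2 with _ | (a | _ | _)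
  · simp
  · simp
  · simp
  · simp

lemma F2_step (hE : Est K w wo wb q Λ) (t : ι → Fin 2 → Option (Tgt ι)) (ht : Good t) (i : ι)
    (hrem : SI w wo wb (remT i t) ≤ Λ ^ (Fintype.card ι - 1) *
      q ^ (4 * (Fintype.card ι - 1) - nIt (remT i t))) (m : ℕ)
    (hm : (4 - 2 * outN t i) + (4 * (Fintype.card ι - 1) - nIt (remT i t)) ≤ m) :
    SI w wo wb t ≤ Λ ^ Fintype.card ι * q ^ m := by
  have h1 := sum_step hE t ht i
  have hq0 : 0 ≤ q := le_trans zero_le_one hE.one_le_q
  have hL0 : 0 ≤ Λ := le_trans zero_le_one hE.one_le_L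
  have hcard : 0 < Fintype.card ι := Fintype.card_pos_iff.mpr ⟨i⟩
  have hc : Fintype.card ι = (Fintype.card ι - 1) + 1 := by omega
  calc SI w wo wb t ≤ Λ * q ^ (4 - 2 * outN t i) * SI w wo wb (remT i t) := h1
    _ ≤ Λ * q ^ (4 - 2 * outN t i) * (Λ ^ (Fintype.card ι - 1) *
      q ^ (4 * (Fintype.card ι - 1) - nIt (remT i t))) :=
        mul_le_mul_of_nonneg_left hrem (mul_nonneg hL0 (pow_nonneg hq0 _))
    _ = Λ ^ Fintype.card ι * q ^ ((4 - 2 * outN t i) +
      (4 * (Fintype.card ι - 1) - nIt (remT i t))) := by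
        conv_rhs => rw [hc]
        rw [pow_succ, pow_add]
        simp only [Nat.add_sub_cancel]
        ring
    _ ≤ Λ ^ Fintype.card ι * q ^ m :=
        mul_le_mul_of_nonneg_left (pow_le_pow_right₀ hE.one_le_q hm) (pow_nonneg hL0 _)

lemma F2_aux (hE : Est K w wo wb q Λ) (n : ℕ) : ∀ (ι : Type) [Fintype ι] [DecidableEq ι],
    Fintype.card ι = n → ∀ (t : ι → Fin 2 → Option (Tgt ι)), Good t →
    SI w wo wb t ≤ Λ ^ Fintype.card ι * q ^ (4 * Fintype.card ι - nIt t) := by
  induction n with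
  | zero =>
    intro ι _ _ hc t ht
    haveI : IsEmpty ι := Fintype.card_eq_zero_iff.mp hc
    have h1 : SI w wo wb t = 1 := by
      unfold SI
      simp
    rw [h1, hc]
    simp
  | succ n ih =>
    intro ι _ _ hc t ht
    have hne : (Finset.univ : Finset ι).Nonempty := by
      rw [← Finset.card_pos, Finset.card_univ]
      omega
    obtain ⟨i, -, hi⟩ := Finset.exists_le_of_sum_le hne
      ((F2_sum_inN t).trans (F2_sum_outN t).ge)
    obtain ⟨hg, hn⟩ := remT_good t ht i
    have hcs : Fintype.card {u : ι // u ≠ i} = n := by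
      rw [Fintype.card_subtype_compl, Fintype.card_subtype_eq]
      omega
    have h1 := ih {u : ι // u ≠ i} hcs (remT i t) hg
    have h2 := F2_nIt_le (remT i t)
    have h3 := F2_outN_le t i
    rw [hcs] at h1 h2
    refine F2_step hE t ht i ?_ _ ?_
    · rw [hc, Nat.add_sub_cancel]
      exact h1
    · rw [hc]
      omega

/-- ROW SND-F2a. General power counting.

Proof: induction on `Fintype.card ι`. Zero: the sum has one term, equal to `1`, and `nIt t = 0`.
Step: `∑ i, inN t i ≤ ∑ i, outN t i = nIt t` (every item has at most one target), so there is `i` with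
`inN t i ≤ outN t i` (`Finset.exists_le_of_sum_le`). Apply `sum_step`, `remT_good` and the
induction hypothesis to `remT i t` (`card {u // u ≠ i} = card ι - 1`); exponent:
`(4 - 2 out) + (4 (m - 1) - (nIt t - out - in)) = 4 m - nIt t - (out - in) ≤ 4 m - nIt t`
(`out ≤ 2`, `nIt t ≤ 2 m`; `1 ≤ q`). -/
theorem sum_items_le (hE : Est K w wo wb q Λ) (t : ι → Fin 2 → Option (Tgt ι)) (ht : Good t) :
    SI w wo wb t ≤ Λ ^ Fintype.card ι * q ^ (4 * Fintype.card ι - nIt t) := F2_aux hE _ ι rfl t ht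

/-- ROW SND-F2b. Gain when a vertex is unbalanced.

Proof. Apply `sum_step` to the given vertex `i`, then `sum_items_le` to `remT i t`: the exponent is
`4 m - nIt t - (out - in) ≤ 4 m - nIt t - 1`. -/
theorem sum_items_gain (hE : Est K w wo wb q Λ) (t : ι → Fin 2 → Option (Tgt ι)) (ht : Good t)
    (i : ι) (hi : inN t i < outN t i) :
    SI w wo wb t ≤ Λ ^ Fintype.card ι * q ^ (4 * Fintype.card ι - nIt t - 1) := by
  obtain ⟨hg, hn⟩ := remT_good t ht i
  have hcard : 0 < Fintype.card ι := Fintype.card_pos_iff.mpr ⟨i⟩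
  have hcs : Fintype.card {u : ι // u ≠ i} = Fintype.card ι - 1 := by
    rw [Fintype.card_subtype_compl, Fintype.card_subtype_eq]
  have h1 := sum_items_le hE (remT i t) hg
  have h2 := F2_nIt_le (remT i t)
  have h3 := F2_outN_le t i
  rw [hcs] at h1 h2
  refine F2_step hE t ht i h1 _ ?_
  omega

end SND
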