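import Pool.Agent.SND.Defs

open Finset

namespace SND

variable {E : Type} [Fintype E] {K : Kern E} {w : E → E → ℝ} {wo wb : E → ℝ} {q Λ : ℝ}
variable {ι : Type} [Fintype ι] [DecidableEq ι]

lemma F3a_wt_nonneg (hE : Est K w wo wb q Λ) (e : ι → E) (i : ι) (o : Option (Tgt ι)) :
    0 ≤ wt w wo wb e i o := by
  rcases o with _ | (u | _ | _)
  · exact zero_le_one
  · exact (hE.w_pos _ _).le
  · exact hE.wo_nonneg _
  · exact hE.wb_nonneg _

lemma F3a_ineq (hE : Est K w wo wb q Λ) (A B : E) :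
    ∑ x, w x A ^ 2 * w x B ^ 2 ≤ 8 * Λ * w A B ^ 2 := by
  have h : ∀ x, w x A ^ 2 * w x B ^ 2 ≤ 4 * w A B ^ 2 * (w x A ^ 2 + w x B ^ 2) := by
    intro x
    have h1 := hE.w_tri x A B
    have hA := (hE.w_pos x A).le
    have hB := (hE.w_pos x B).le
    have hAB := (hE.w_pos A B).le
    rcases le_total (w x A) (w x B) with h2 | h2
    · rw [min_eq_left h2] at h1
      have h3 : w x A ^ 2 ≤ 4 * w A B ^ 2 := by nlinarith
      have h4 : w x A ^ 2 * w x B ^ 2 ≤ 4 * w A B ^ 2 * w x B ^ 2 :=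
        mul_le_mul_of_nonneg_right h3 (sq_nonneg _)
      have h5 : 0 ≤ 4 * w A B ^ 2 * w x A ^ 2 := by positivity
      nlinarith
    · rw [min_eq_right h2] at h1
      have h3 : w x B ^ 2 ≤ 4 * w A B ^ 2 := by nlinarith
      have h4 : w x B ^ 2 * w x A ^ 2 ≤ 4 * w A B ^ 2 * w x A ^ 2 :=
        mul_le_mul_of_nonneg_right h3 (sq_nonneg _)
      have h5 : 0 ≤ 4 * w A B ^ 2 * w x B ^ 2 := by positivity
      nlinarith
  calc ∑ x, w x A ^ 2 * w x B ^ 2 ≤ ∑ x, 4 * w A B ^ 2 * (w x A ^ 2 + w x B ^ 2) :=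
        Finset.sum_le_sum fun x _ => h x
    _ = 4 * w A B ^ 2 * (∑ x, w x A ^ 2 + ∑ x, w x B ^ 2) := by
        rw [← Finset.mul_sum, Finset.sum_add_distrib]
    _ ≤ 4 * w A B ^ 2 * (Λ + Λ) :=
        mul_le_mul_of_nonneg_left (add_le_add (hE.sum_ww A) (hE.sum_ww B)) (by positivity)
    _ = 8 * Λ * w A B ^ 2 := by ring

lemma F3a_pull {P : Type} [Fintype P] [DecidableEq P] (f : P → ℝ) (p1 p2 : P) (h : p1 ≠ p2) :
    ∏ p, f p = f p1 * (f p2 * ∏ p ∈ (Finset.univ.erase p1).erase p2, f p) := by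
  rw [Finset.mul_prod_erase _ _ (Finset.mem_erase.mpr ⟨h.symm, Finset.mem_univ p2⟩),
    Finset.mul_prod_erase _ _ (Finset.mem_univ p1)]

/-- ROW SND-F3a. The contraction of a vertex with two different targets.

Proof. The factors containing `x = e i` are `w x (e a) * w x (e b) * w (e a) x * w (e b) x
= (w x A)^2 (w x B)^2` (`A = e a`, `B = e b`): the two items of `i`, the item `ca` of `a` and the
item `cb` of `b` (by hypothesis no other item points to `i`). By `w_tri`,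
`(w x A)^2 (w x B)^2 = min^2 max^2 ≤ 4 (w A B)^2 ((w x A)^2 + (w x B)^2)`, so the sum over `x` is at
most `8 Λ (w A B)^2 = 8 Λ * w A B * w B A`, which is the product of the weights of the new items
`t' a ca = v b`, `t' b cb = v a`. (`Equiv.funSplitAt i E` to split the sum.) -/
theorem sum_contract (hE : Est K w wo wb q Λ) (t : ι → Fin 2 → Option (Tgt ι))
    (i a b : ι) (hia : a ≠ i) (hib : b ≠ i) (hab : a ≠ b)
    (h0 : t i 0 = some (Tgt.v a)) (h1 : t i 1 = some (Tgt.v b)) (ca cb : Fin 2)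
    (ha : t a ca = some (Tgt.v i)) (hb : t b cb = some (Tgt.v i))
    (honly : ∀ u c, t u c = some (Tgt.v i) → (u = a ∧ c = ca) ∨ (u = b ∧ c = cb)) :
    SI w wo wb t ≤ 8 * Λ * SI w wo wb (fun (u : {u : ι // u ≠ i}) c =>
      if u.1 = a ∧ c = ca then some (Tgt.v ⟨b, hib⟩)
      else if u.1 = b ∧ c = cb then some (Tgt.v ⟨a, hia⟩)
      else remT i t u c) := by
  classical
  unfold SI
  rw [← Equiv.sum_comp (Equiv.funSplitAt i E).symm, Fintype.sum_prod_type, Finset.sum_comm,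
    Finset.mul_sum]
  refine Finset.sum_le_sum fun e' _ => ?_
  have hi : ∀ x, (Equiv.funSplitAt i E).symm (x, e') i = x := by
    intro x; simp [Equiv.funSplitAt, Equiv.piSplitAt]
  have hne : ∀ x u (hu : u ≠ i), (Equiv.funSplitAt i E).symm (x, e') u = e' ⟨u, hu⟩ := by
    intro x u hu; simp [Equiv.funSplitAt, Equiv.piSplitAt, hu]
  set A := e' ⟨a, hia⟩ with hA
  set B := e' ⟨b, hib⟩ with hB
  have hp : ((⟨a, hia⟩, ca) : {u : ι // u ≠ i} × Fin 2) ≠ (⟨b, hib⟩, cb) := by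
    intro h
    exact hab (congrArg (fun p : {u : ι // u ≠ i} × Fin 2 => p.1.1) h)
  set R : ℝ := ∏ p ∈ ((Finset.univ : Finset ({u : ι // u ≠ i} × Fin 2)).erase
    (⟨a, hia⟩, ca)).erase (⟨b, hib⟩, cb), wt w wo wb e' p.1 (remT i t p.1 p.2) with hR
  have hR0 : 0 ≤ R := Finset.prod_nonneg fun p _ => F3a_wt_nonneg hE _ _ _
  have hL : ∀ x, ∏ u, ∏ c, wt w wo wb ((Equiv.funSplitAt i E).symm (x, e')) u (t u c) =
      w x A ^ 2 * w x B ^ 2 * R := by
    intro x
    rw [Fintype.prod_eq_mul_prod_subtype_ne _ i, Fin.prod_univ_two, h0, h1]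
    rw [← Fintype.prod_prod_type' (fun (u : {u : ι // u ≠ i}) (c : Fin 2) =>
      wt w wo wb ((Equiv.funSplitAt i E).symm (x, e')) u (t u c))]
    rw [F3a_pull _ _ _ hp]
    have e1 : wt w wo wb ((Equiv.funSplitAt i E).symm (x, e')) i (some (Tgt.v a)) = w x A := by
      show w _ _ = _
      rw [hi, hne _ _ hia]
    have e2 : wt w wo wb ((Equiv.funSplitAt i E).symm (x, e')) i (some (Tgt.v b)) = w x B := by
      show w _ _ = _
      rw [hi, hne _ _ hib]
    have e3 : wt w wo wb ((Equiv.funSplitAt i E).symm (x, e')) a (t a ca) = w x A := by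
      rw [ha]
      show w _ _ = _
      rw [hi, hne _ _ hia, hE.w_symm]
    have e4 : wt w wo wb ((Equiv.funSplitAt i E).symm (x, e')) b (t b cb) = w x B := by
      rw [hb]
      show w _ _ = _
      rw [hi, hne _ _ hib, hE.w_symm]
    have e5 : ∏ p ∈ ((Finset.univ : Finset ({u : ι // u ≠ i} × Fin 2)).erase
        (⟨a, hia⟩, ca)).erase (⟨b, hib⟩, cb),
        wt w wo wb ((Equiv.funSplitAt i E).symm (x, e')) p.1 (t p.1 p.2) = R := by
      refine Finset.prod_congr rfl fun p hp' => ?_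
      rw [Finset.mem_erase, Finset.mem_erase] at hp'
      unfold remT
      rcases h : t p.1 p.2 with _ | (u | _ | _)
      · rfl
      · by_cases hu : u = i
        · exfalso
          subst hu
          rcases honly _ _ h with h2 | h2
          · exact hp'.2.1 (Prod.ext (Subtype.ext h2.1) h2.2)
          · exact hp'.1 (Prod.ext (Subtype.ext h2.1) h2.2)
        · simp only [hu, dite_false]
          show w _ _ = w _ _
          rw [hne _ _ p.1.2, hne _ _ hu]
      · show wo _ = wo _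
        rw [hne _ _ p.1.2]
      · show wb _ = wb _
        rw [hne _ _ p.1.2]
    simp only [e1, e2, e3, e4, e5]
    ring
  have hG : ∏ u : {u : ι // u ≠ i}, ∏ c, wt w wo wb e' u
      (if u.1 = a ∧ c = ca then some (Tgt.v ⟨b, hib⟩)
      else if u.1 = b ∧ c = cb then some (Tgt.v ⟨a, hia⟩)
      else remT i t u c) = w A B ^ 2 * R := by
    rw [← Fintype.prod_prod_type' (fun (u : {u : ι // u ≠ i}) (c : Fin 2) =>
      wt w wo wb e' u (if u.1 = a ∧ c = ca then some (Tgt.v ⟨b, hib⟩)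
      else if u.1 = b ∧ c = cb then some (Tgt.v ⟨a, hia⟩)
      else remT i t u c))]
    rw [F3a_pull _ _ _ hp]
    have e5 : ∏ p ∈ ((Finset.univ : Finset ({u : ι // u ≠ i} × Fin 2)).erase
        (⟨a, hia⟩, ca)).erase (⟨b, hib⟩, cb),
        wt w wo wb e' p.1 (if p.1.1 = a ∧ p.2 = ca then some (Tgt.v ⟨b, hib⟩)
      else if p.1.1 = b ∧ p.2 = cb then some (Tgt.v ⟨a, hia⟩)
      else remT i t p.1 p.2) = R := by
      refine Finset.prod_congr rfl fun p hp' => ?_
      rw [Finset.mem_erase, Finset.mem_erase] at hp'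
      rw [if_neg, if_neg]
      · rintro ⟨h2, h3⟩
        exact hp'.1 (Prod.ext (Subtype.ext h2) h3)
      · rintro ⟨h2, h3⟩
        exact hp'.2.1 (Prod.ext (Subtype.ext h2) h3)
    rw [e5, if_pos ⟨rfl, rfl⟩, if_neg (fun h => hab h.1.symm), if_pos ⟨rfl, rfl⟩]
    show w A B * (w B A * R) = _
    rw [hE.w_symm B A]
    ring
  rw [hG]
  simp only [hL]
  rw [← Finset.sum_mul, ← mul_assoc]
  exact mul_le_mul_of_nonneg_right (F3a_ineq hE A B) hR0

end SND
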