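import Pool.Agent.SND.Defs
import Pool.Agent.SND.F2
import Pool.Agent.SND.F3a

open Finset

namespace SND

variable {E : Type} [Fintype E] {K : Kern E} {w : E → E → ℝ} {wo wb : E → ℝ} {q Λ : ℝ}
variable {ι : Type} [Fintype ι] [DecidableEq ι]

/-- number of items of `u` pointing to `x` -/
def F3b_N (t : ι → Fin 2 → Tgt ι) (u x : ι) : ℕ :=
  ∑ c : Fin 2, if t u c = Tgt.v x then 1 else 0

theorem F3b_nIt (t : ι → Fin 2 → Tgt ι) :
    nIt (fun i c => some (t i c)) = 2 * Fintype.card ι := by
  unfold nIt
  rw [Finset.filter_true_of_mem (by intro p _; simp)]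
  simp [Finset.card_univ, Fintype.card_prod, mul_comm]

theorem F3b_outN (t : ι → Fin 2 → Tgt ι) (i : ι) :
    outN (fun i c => some (t i c)) i = 2 := by
  unfold outN
  rw [Finset.filter_true_of_mem (by intro p _; simp)]
  simp

theorem F3b_inN (t : ι → Fin 2 → Tgt ι) (x : ι) :
    inN (fun i c => some (t i c)) x = ∑ u, F3b_N t u x := by
  unfold inN F3b_N
  rw [Finset.card_filter, ← Finset.univ_product_univ, Finset.sum_product]
  simp

/-- target count of an item -/
theorem F3b_g_le (s : Tgt ι) : (∑ x : ι, if s = Tgt.v x then 1 else 0) ≤ 1 := by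
  cases s with
  | v y => simp
  | o => simp
  | b => simp

theorem F3b_g_eq (s : Tgt ι) (h : (∑ x : ι, if s = Tgt.v x then 1 else 0) = 1) :
    ∃ x, s = Tgt.v x := by
  cases s with
  | v y => exact ⟨y, rfl⟩
  | o => simp at h
  | b => simp at h

theorem F3b_sum (t : ι → Fin 2 → Tgt ι) :
    ∑ x, inN (fun i c => some (t i c)) x =
      ∑ p : ι × Fin 2, ∑ x : ι, if t p.1 p.2 = Tgt.v x then 1 else 0 := by
  rw [Finset.sum_comm]
  refine Finset.sum_congr rfl (fun x _ => ?_)
  rw [F3b_inN]
  unfold F3b_N
  rw [← Finset.univ_product_univ, Finset.sum_product]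

theorem F3b_all (t : ι → Fin 2 → Tgt ι)
    (h : ∀ x, 2 ≤ inN (fun i c => some (t i c)) x) :
    (∀ i c, ∃ x, t i c = Tgt.v x) ∧ ∀ x, inN (fun i c => some (t i c)) x = 2 := by
  have h1 : ∑ x : ι, 2 ≤ ∑ x, inN (fun i c => some (t i c)) x :=
    Finset.sum_le_sum (fun x _ => h x)
  have h2 : (∑ p : ι × Fin 2, ∑ x : ι, if t p.1 p.2 = Tgt.v x then 1 else 0)
      ≤ ∑ p : ι × Fin 2, 1 := Finset.sum_le_sum (fun p _ => F3b_g_le _)
  have h3 : (∑ p : ι × Fin 2, 1) = ∑ x : ι, 2 := by
    simp [Fintype.card_prod]
  have h4 := F3b_sum t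
  constructor
  · intro i c
    have h5 : (∑ p : ι × Fin 2, ∑ x : ι, if t p.1 p.2 = Tgt.v x then 1 else 0)
      = ∑ p : ι × Fin 2, 1 := by
      apply le_antisymm h2
      rw [h3, ← h4]
      exact h1
    have h6 := (Finset.sum_eq_sum_iff_of_le
      (fun (p : ι × Fin 2) _ => F3b_g_le (t p.1 p.2))).1 h5 (i, c) (Finset.mem_univ _)
    exact F3b_g_eq _ h6
  · intro x
    have h5 : ∑ x : ι, 2 = ∑ x, inN (fun i c => some (t i c)) x := by
      apply le_antisymm h1
      rw [h4, ← h3]
      exact h2
    exact ((Finset.sum_eq_sum_iff_of_le (fun x _ => h x)).1 h5 x (Finset.mem_univ _)).symm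

theorem F3b_rem_some (t : ι → Fin 2 → Tgt ι) (i : ι) (u : {u : ι // u ≠ i}) (c : Fin 2)
    (x : ι) (hx : x ≠ i) (h : t u c = Tgt.v x) :
    remT i (fun i c => some (t i c)) u c = some (Tgt.v ⟨x, hx⟩) := by
  unfold remT
  simp only [h]
  rw [dif_neg hx]

theorem F3b_rem_none (t : ι → Fin 2 → Tgt ι) (i : ι) (u : {u : ι // u ≠ i}) (c : Fin 2)
    (h : t u c = Tgt.v i) :
    remT i (fun i c => some (t i c)) u c = none := by
  unfold remT
  simp [h]

theorem F3b_rem_iff_none (t : ι → Fin 2 → Tgt ι) (hv : ∀ i c, ∃ x, t i c = Tgt.v x)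
    (i : ι) (u : {u : ι // u ≠ i}) (c : Fin 2) :
    remT i (fun i c => some (t i c)) u c = none ↔ t u c = Tgt.v i := by
  obtain ⟨x, hx⟩ := hv u c
  by_cases hxi : x = i
  · subst hxi
    simp [F3b_rem_none t x u c hx, hx]
  · rw [F3b_rem_some t i u c x hxi hx, hx]
    simp [hxi]

theorem F3b_rem_iff_some (t : ι → Fin 2 → Tgt ι) (hv : ∀ i c, ∃ x, t i c = Tgt.v x)
    (i : ι) (u y : {u : ι // u ≠ i}) (c : Fin 2) :
    remT i (fun i c => some (t i c)) u c = some (Tgt.v y) ↔ t u c = Tgt.v y.1 := by
  obtain ⟨x, hx⟩ := hv u c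
  by_cases hxi : x = i
  · subst hxi
    rw [F3b_rem_none t x u c hx, hx]
    simp only [reduceCtorEq, Tgt.v.injEq, false_iff]
    exact fun h => y.2 h.symm
  · rw [F3b_rem_some t i u c x hxi hx, hx]
    simp only [Option.some.injEq, Tgt.v.injEq]
    constructor
    · intro h
      rw [← h]
    · intro h
      exact Subtype.ext h

theorem F3b_rem_outN (t : ι → Fin 2 → Tgt ι) (hv : ∀ i c, ∃ x, t i c = Tgt.v x)
    (i : ι) (u : {u : ι // u ≠ i}) :
    outN (remT i (fun i c => some (t i c))) u + F3b_N t u i = 2 := by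
  unfold outN F3b_N
  rw [Finset.card_filter, ← Finset.sum_add_distrib]
  have : ∀ c : Fin 2, ((if remT i (fun i c => some (t i c)) u c ≠ none then 1 else 0) +
      if t u c = Tgt.v i then 1 else 0) = 1 := by
    intro c
    by_cases h : t u c = Tgt.v i
    · simp [(F3b_rem_iff_none t hv i u c).2 h, h]
    · have h' : remT i (fun i c => some (t i c)) u c ≠ none :=
        fun h' => h ((F3b_rem_iff_none t hv i u c).1 h')
      simp [h', h]
  rw [Finset.sum_congr rfl (fun c _ => this c)]
  simp

theorem F3b_rem_inN (t : ι → Fin 2 → Tgt ι) (hv : ∀ i c, ∃ x, t i c = Tgt.v x)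
    (i : ι) (y : {u : ι // u ≠ i}) :
    inN (remT i (fun i c => some (t i c))) y + F3b_N t i y =
      inN (fun i c => some (t i c)) y.1 := by
  rw [F3b_inN]
  unfold inN
  rw [Finset.card_filter, ← Finset.univ_product_univ, Finset.sum_product]
  have h1 : ∀ u : {u : ι // u ≠ i}, (∑ c : Fin 2,
      if remT i (fun i c => some (t i c)) u c = some (Tgt.v y) then 1 else 0) =
      F3b_N t u.1 y.1 := by
    intro u
    unfold F3b_N
    refine Finset.sum_congr rfl (fun c _ => ?_)
    simp only [F3b_rem_iff_some t hv i u y c]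
  rw [Finset.sum_congr rfl (fun u _ => h1 u)]
  have h2 := Fintype.sum_subtype_add_sum_subtype (fun u => u ≠ i) (fun u => F3b_N t u y.1)
  rw [← h2]
  congr 1
  have h3 : ∀ u : {u : ι // ¬ (u ≠ i)}, F3b_N t u.1 y.1 = F3b_N t i y.1 := by
    intro u
    have := u.2
    simp only [ne_eq, not_not] at this
    rw [this]
  rw [Finset.sum_congr rfl (fun u _ => h3 u)]
  simp

theorem F3b_card (i : ι) : Fintype.card {u : ι // u ≠ i} + 1 = Fintype.card ι := by
  have h := Fintype.card_subtype_compl (fun u => u = i)
  have h1 : 0 < Fintype.card ι := Fintype.card_pos_iff.2 ⟨i⟩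
  have h2 : Fintype.card {u : ι // u = i} = 1 := Fintype.card_subtype_eq i
  rw [h2] at h
  have h3 : Fintype.card {u : ι // u ≠ i} = Fintype.card ι - 1 := h
  omega

theorem F3b_N_one (t : ι → Fin 2 → Tgt ι) (u x : ι) (h : F3b_N t u x = 1) :
    ∃ c, t u c = Tgt.v x ∧ ∀ c', t u c' = Tgt.v x → c' = c := by
  unfold F3b_N at h
  rw [Fin.sum_univ_two] at h
  by_cases h0 : t u 0 = Tgt.v x
  · refine ⟨0, h0, ?_⟩
    by_cases h1 : t u 1 = Tgt.v x
    · simp [h0, h1] at h
    · intro c' hc'
      fin_cases c'
      · rfl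
      · exact absurd hc' h1
  · by_cases h1 : t u 1 = Tgt.v x
    · refine ⟨1, h1, ?_⟩
      intro c' hc'
      fin_cases c'
      · exact absurd hc' h0
      · rfl
    · simp [h0, h1] at h

theorem F3b_N_pos (t : ι → Fin 2 → Tgt ι) (u x : ι) (c : Fin 2) (h : t u c = Tgt.v x) :
    0 < F3b_N t u x := by
  unfold F3b_N
  apply Finset.sum_pos'
  · intro i _
    exact Nat.zero_le _
  · exact ⟨c, Finset.mem_univ _, by simp [h]⟩

/-- ROW SND-F3b. Gain for all the full families of items which are not fully paired.

Proof. Write `t' u c = some (t u c)`, `m = card ι`; `nIt t' = 2 m`, `outN t' i = 2`. Let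
`N u v = #{c | t u c = Tgt.v v}`; `N u u = 0`, `inN t' v = ∑_u N u v`.
(1) If some `t i c` is `o` or `b`: `∑_i inN t' i < 2 m`, so some `i` has `inN t' i < 2`: use
`sum_items_gain`.
(2) Otherwise `∑_i inN t' i = 2 m`; if some `inN t' u ≠ 2`, then some `inN t' i < 2`: the same.
(3) Otherwise all `inN = outN = 2`. If there are `i, u` with `N i u ≠ N u i`: since
`∑_u N i u = 2 = ∑_u N u i` there is `u` with `N i u > N u i` (`u ≠ i`). Apply `sum_step` to `i` (with
`outN = 2`, factor `Λ`): in `remT i t'` the vertex `u` has `inN = 2 - N i u < 2 - N u i = outN`, and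
`nIt = 2 m - 4`, so `sum_items_gain` gives `Λ^(m-1) q^(4 (m-1) - (2 m - 4) - 1)
= Λ^(m-1) q^(2 m - 1)`.
(4) Otherwise `N` is symmetric. If some `i` has `t i 0 = v a`, `t i 1 = v b` with `a ≠ b`:
`N a i = N i a = 1`, `N b i = 1`, so there are unique `ca, cb` as in `sum_contract`; the new family
is full and `Good` on `m - 1` vertices, so `sum_items_le` gives
`8 Λ * Λ^(m-1) * q^(4 (m-1) - 2 (m-1)) = 8 Λ^m q^(2 m - 2)`.
(5) Otherwise `t i 0 = t i 1 = v (τ i)` for all `i`, `N i (τ i) = 2 = N (τ i) i`, so
`τ (τ i) = i`: contradiction with `¬ FPt t`. -/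
theorem sum_full_gain (hE : Est K w wo wb q Λ) (t : ι → Fin 2 → Tgt ι)
    (ht : Good (fun i c => some (t i c))) (hFP : ¬ FPt t) :
    SI w wo wb (fun i c => some (t i c)) ≤
      8 * Λ ^ Fintype.card ι * q ^ (2 * Fintype.card ι - 1) := by
  have hL0 : 0 ≤ Λ := le_trans zero_le_one hE.one_le_L
  have hq0 : 0 ≤ q := le_trans zero_le_one hE.one_le_q
  by_cases hA : ∃ i, inN (fun i c => some (t i c)) i < 2
  · obtain ⟨i, hi⟩ := hA
    have h := sum_items_gain hE (fun i c => some (t i c)) ht i (by rw [F3b_outN]; exact hi)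
    rw [F3b_nIt] at h
    have h2 : 4 * Fintype.card ι - 2 * Fintype.card ι - 1 = 2 * Fintype.card ι - 1 := by omega
    rw [h2] at h
    refine h.trans ?_
    apply mul_le_mul_of_nonneg_right _ (pow_nonneg hq0 _)
    have := pow_nonneg hL0 (Fintype.card ι)
    linarith
  · have hA' : ∀ x, 2 ≤ inN (fun i c => some (t i c)) x := by
      intro x
      by_contra h
      exact hA ⟨x, by omega⟩
    obtain ⟨hv, hin⟩ := F3b_all t hA'
    by_cases hB : ∃ i u, F3b_N t u i < F3b_N t i u
    · obtain ⟨i, u, hiu⟩ := hB
      have hui : u ≠ i := by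
        rintro rfl
        exact lt_irrefl _ hiu
      have h1 := sum_step hE (fun i c => some (t i c)) ht i
      obtain ⟨hg, hn⟩ := remT_good (fun i c => some (t i c)) ht i
      rw [F3b_outN] at h1
      rw [F3b_nIt, F3b_outN, hin] at hn
      have ho := F3b_rem_outN t hv i ⟨u, hui⟩
      have hi := F3b_rem_inN t hv i ⟨u, hui⟩
      rw [hin] at hi
      simp only at ho hi
      have h2 := sum_items_gain hE (remT i (fun i c => some (t i c))) hg ⟨u, hui⟩ (by omega)
      have hc := F3b_card i
      have h3 : 4 * Fintype.card {u : ι // u ≠ i} - nIt (remT i (fun i c => some (t i c))) - 1 =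
          2 * Fintype.card ι - 1 := by omega
      rw [h3] at h2
      have h4 : Λ ^ Fintype.card ι = Λ * Λ ^ Fintype.card {u : ι // u ≠ i} := by
        rw [← hc, pow_succ, mul_comm]
      rw [h4]
      refine h1.trans ?_
      have h5 : Λ * q ^ (4 - 2 * 2) * SI w wo wb (remT i (fun i c => some (t i c))) ≤
          Λ * (Λ ^ Fintype.card {u : ι // u ≠ i} * q ^ (2 * Fintype.card ι - 1)) := by
        simp only [Nat.reduceMul, Nat.sub_self, pow_zero, mul_one]
        exact mul_le_mul_of_nonneg_left h2 hL0
      refine h5.trans ?_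
      have h6 : 0 ≤ Λ * (Λ ^ Fintype.card {u : ι // u ≠ i} * q ^ (2 * Fintype.card ι - 1)) := by
        positivity
      nlinarith [h6]
    · have hsym : ∀ i u, F3b_N t i u = F3b_N t u i := by
        intro i u
        by_contra h
        rcases lt_or_gt_of_ne h with h | h
        · exact hB ⟨u, i, h⟩
        · exact hB ⟨i, u, h⟩
      by_cases hC : ∃ i, t i 0 ≠ t i 1
      · obtain ⟨i, hi⟩ := hC
        obtain ⟨a, ha⟩ := hv i 0
        obtain ⟨b, hb⟩ := hv i 1
        have hab : a ≠ b := by
          rintro rfl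
          exact hi (ha.trans hb.symm)
        have hia : a ≠ i := by
          rintro rfl
          exact ht.1 a 0 (by simp [ha])
        have hib : b ≠ i := by
          rintro rfl
          exact ht.1 b 1 (by simp [hb])
        have hNia : F3b_N t i a = 1 := by
          unfold F3b_N
          rw [Fin.sum_univ_two, ha, hb]
          simp [hab.symm]
        have hNib : F3b_N t i b = 1 := by
          unfold F3b_N
          rw [Fin.sum_univ_two, ha, hb]
          simp [hab]
        obtain ⟨ca, hca, hca'⟩ := F3b_N_one t a i (by rw [hsym]; exact hNia)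
        obtain ⟨cb, hcb, hcb'⟩ := F3b_N_one t b i (by rw [hsym]; exact hNib)
        have honly : ∀ u c, t u c = Tgt.v i → (u = a ∧ c = ca) ∨ (u = b ∧ c = cb) := by
          intro u c huc
          have h1 := F3b_N_pos t u i c huc
          rw [hsym] at h1
          unfold F3b_N at h1
          rw [Fin.sum_univ_two, ha, hb] at h1
          by_cases hua : u = a
          · subst hua
            exact Or.inl ⟨rfl, hca' c huc⟩
          · by_cases hub : u = b
            · subst hub
              exact Or.inr ⟨rfl, hcb' c huc⟩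
            · exfalso
              have e1 : ¬ (Tgt.v a = Tgt.v u) := fun h => hua (Tgt.v.inj h).symm
              have e2 : ¬ (Tgt.v b = Tgt.v u) := fun h => hub (Tgt.v.inj h).symm
              rw [if_neg e1, if_neg e2] at h1
              exact lt_irrefl _ h1
        have hcon := sum_contract hE (fun i c => some (t i c)) i a b hia hib hab
          (by simp [ha]) (by simp [hb]) ca cb (by simp [hca]) (by simp [hcb])
          (by
            intro u c h
            exact honly u c (Option.some.inj h))
        refine hcon.trans ?_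
        set t'' : {u : ι // u ≠ i} → Fin 2 → Option (Tgt {u : ι // u ≠ i}) :=
          fun (u : {u : ι // u ≠ i}) c =>
          if u.1 = a ∧ c = ca then some (Tgt.v ⟨b, hib⟩)
          else if u.1 = b ∧ c = cb then some (Tgt.v ⟨a, hia⟩)
          else remT i (fun i c => some (t i c)) u c with ht''
        have hfull : ∀ u c, ∃ y, t'' u c = some (Tgt.v y) ∧ y ≠ u := by
          intro u c
          simp only [ht'']
          by_cases h1 : u.1 = a ∧ c = ca
          · rw [if_pos h1]
            refine ⟨_, rfl, ?_⟩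
            intro h
            apply hab
            rw [← h1.1, ← h]
          · rw [if_neg h1]
            by_cases h2 : u.1 = b ∧ c = cb
            · rw [if_pos h2]
              refine ⟨_, rfl, ?_⟩
              intro h
              apply hab
              rw [← h2.1, ← h]
            · rw [if_neg h2]
              obtain ⟨x, hx⟩ := hv u.1 c
              have hxi : x ≠ i := by
                rintro rfl
                rcases honly u.1 c hx with h | h
                · exact h1 h
                · exact h2 h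
              refine ⟨⟨x, hxi⟩, F3b_rem_some t i u c x hxi hx, ?_⟩
              intro h
              apply ht.1 u.1 c
              have : x = u.1 := by rw [← h]
              simp only [hx, this]
        have hgood : Good t'' := by
          constructor
          · intro u c h
            obtain ⟨y, hy, hyu⟩ := hfull u c
            rw [hy] at h
            exact hyu (Tgt.v.inj (Option.some.inj h))
          · rintro u ⟨h, _⟩
            obtain ⟨y, hy, hyu⟩ := hfull u 0
            rw [hy] at h
            simp at h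
        have hnIt : nIt t'' = 2 * Fintype.card {u : ι // u ≠ i} := by
          unfold nIt
          rw [Finset.filter_true_of_mem]
          · simp [Finset.card_univ, Fintype.card_prod, mul_comm]
          · intro p _
            obtain ⟨y, hy, _⟩ := hfull p.1 p.2
            rw [hy]
            simp
        have hle := sum_items_le hE t'' hgood
        rw [hnIt] at hle
        have hc := F3b_card i
        have h4 : Λ ^ Fintype.card ι = Λ * Λ ^ Fintype.card {u : ι // u ≠ i} := by
          rw [← hc, pow_succ, mul_comm]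
        rw [h4]
        have h5 : q ^ (4 * Fintype.card {u : ι // u ≠ i} - 2 * Fintype.card {u : ι // u ≠ i}) ≤
            q ^ (2 * Fintype.card ι - 1) := by
          apply pow_le_pow_right₀ hE.one_le_q
          omega
        have h6 : 0 ≤ 8 * Λ := by linarith
        have h7 : 0 ≤ Λ ^ Fintype.card {u : ι // u ≠ i} := pow_nonneg hL0 _
        calc 8 * Λ * SI w wo wb t'' ≤ 8 * Λ * (Λ ^ Fintype.card {u : ι // u ≠ i} *
              q ^ (4 * Fintype.card {u : ι // u ≠ i} - 2 * Fintype.card {u : ι // u ≠ i})) :=
              mul_le_mul_of_nonneg_left hle h6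
          _ ≤ 8 * Λ * (Λ ^ Fintype.card {u : ι // u ≠ i} * q ^ (2 * Fintype.card ι - 1)) := by
              apply mul_le_mul_of_nonneg_left _ h6
              exact mul_le_mul_of_nonneg_left h5 h7
          _ = 8 * (Λ * Λ ^ Fintype.card {u : ι // u ≠ i}) * q ^ (2 * Fintype.card ι - 1) := by
              ring
      · exfalso
        apply hFP
        choose τ hτ using fun i => hv i 0
        have hτ1 : ∀ i, t i 1 = Tgt.v (τ i) := by
          intro i
          have : t i 0 = t i 1 := by
            by_contra h
            exact hC ⟨i, h⟩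
          rw [← this]
          exact hτ i
        refine ⟨τ, ?_, ?_⟩
        · intro i c
          fin_cases c
          · exact hτ i
          · exact hτ1 i
        · intro i
          have h1 : F3b_N t i (τ i) = 2 := by
            unfold F3b_N
            rw [Fin.sum_univ_two, hτ, hτ1]
            simp
          rw [hsym] at h1
          unfold F3b_N at h1
          rw [Fin.sum_univ_two, hτ, hτ1] at h1
          by_contra hne
          have e1 : ¬ (Tgt.v (τ (τ i)) = Tgt.v i) := fun h => hne (Tgt.v.inj h)
          rw [if_neg e1] at h1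
          omega

end SND
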