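import Pool.Agent.SND.Defs

open Finset

namespace SND

variable {E : Type} [Fintype E] {K : Kern E} {w : E → E → ℝ} {wo wb : E → ℝ} {q Λ : ℝ}
variable {ι : Type} [Fintype ι] [DecidableEq ι]

theorem F4a_entry (hE : Est K w wo wb q Λ) (e : ι → E) (σ : Equiv.Perm (ι × Fin 2))
    (i j : ι) (l m : Fin 2) (h : σ (i, l) = (j, m)) :
    |MM K e (i, l) (j, m)| ≤
      Λ * (if l = 0 then 1 else wt w wo wb e i (some (mt σ i 0)) + wo (e i)) *
        (if m = 0 then 1 else wt w wo wb e j (some (mt σ j 1)) + wo (e j)) := by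
  have hL0 : 0 ≤ Λ := le_trans zero_le_one hE.one_le_L
  have hinv : σ⁻¹ (j, m) = (i, l) := by
    rw [← h]
    exact σ.symm_apply_apply _
  have hw0 : ∀ x y, 0 ≤ w x y := fun x y => (hE.w_pos x y).le
  by_cases hij : i = j
  · subst hij
    have hb : ∀ c, (c = 0 → (σ (i, 1)).1 = i) → (c ≠ 0 → (σ⁻¹ (i, 1)).1 = i) →
        wt w wo wb e i (some (mt σ i c)) = wb (e i) := by
      intro c h0 h1
      unfold mt
      by_cases hc : c = 0
      · rw [if_pos hc, if_pos (h0 hc)]; rfl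
      · rw [if_neg hc, if_pos (h1 hc)]; rfl
    have hMM : MM K e (i, l) (i, m) = ent K true (e i) l (e i) m := by
      unfold MM
      simp
    rw [hMM]
    fin_cases l <;> fin_cases m
    · show |K.g (e i)| ≤ Λ * 1 * 1
      rw [mul_one, mul_one]
      exact hE.g_le _
    · show |K.h (e i)| ≤ Λ * 1 * (wt w wo wb e i (some (mt σ i 1)) + wo (e i))
      rw [hb 1 (fun h => absurd h (by decide)) (fun _ => by
        have h2 : σ⁻¹ (i, (1 : Fin 2)) = (i, 0) := hinv
        rw [h2]), mul_one]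
      exact hE.h_le _
    · show |K.h (e i)| ≤ Λ * (wt w wo wb e i (some (mt σ i 0)) + wo (e i)) * 1
      rw [hb 0 (fun _ => by
        have h2 : σ (i, (1 : Fin 2)) = (i, 0) := h
        rw [h2]) (fun h => absurd rfl h), mul_one]
      exact hE.h_le _
    · show |(0 : ℝ)| ≤ Λ * (wt w wo wb e i (some (mt σ i 0)) + wo (e i)) *
        (wt w wo wb e i (some (mt σ i 1)) + wo (e i))
      have h2 : σ (i, (1 : Fin 2)) = (i, 1) := h
      have h3 : σ⁻¹ (i, (1 : Fin 2)) = (i, 1) := hinv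
      rw [hb 0 (fun _ => by rw [h2]) (fun h => absurd rfl h),
        hb 1 (fun h => absurd h (by decide)) (fun _ => by rw [h3]), abs_zero]
      have h4 := hE.wb_nonneg (e i)
      have h5 := hE.wo_nonneg (e i)
      positivity
  · have hMM : MM K e (i, l) (j, m) = ent K false (e i) l (e j) m := by
      unfold MM
      simp [hij]
    have hr : l = 1 → wt w wo wb e i (some (mt σ i 0)) = w (e i) (e j) := by
      rintro rfl
      unfold mt
      rw [if_pos rfl, h, if_neg (fun h => hij h.symm)]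
      rfl
    have hs : m = 1 → wt w wo wb e j (some (mt σ j 1)) = w (e j) (e i) := by
      rintro rfl
      unfold mt
      rw [if_neg (by decide), hinv, if_neg hij]
      rfl
    rw [hMM]
    fin_cases l <;> fin_cases m
    · show |K.a (e i) (e j)| ≤ Λ * 1 * 1
      rw [mul_one, mul_one]
      exact hE.a_le _ _
    · show |K.b (e i) (e j)| ≤ Λ * 1 * (wt w wo wb e j (some (mt σ j 1)) + wo (e j))
      rw [hs rfl, mul_one, hE.w_symm]
      exact hE.b_le _ _
    · show |K.b (e j) (e i)| ≤ Λ * (wt w wo wb e i (some (mt σ i 0)) + wo (e i)) * 1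
      rw [hr rfl, mul_one, hE.w_symm]
      exact hE.b_le _ _
    · show |K.d (e i) (e j)| ≤ Λ * (wt w wo wb e i (some (mt σ i 0)) + wo (e i)) *
        (wt w wo wb e j (some (mt σ j 1)) + wo (e j))
      rw [hr rfl, hs rfl, hE.w_symm (e j) (e i), mul_assoc]
      refine (hE.d_le _ _).trans (mul_le_mul_of_nonneg_left ?_ hL0)
      rw [pow_two]
      exact mul_le_mul (le_add_of_nonneg_right (hE.wo_nonneg _))
        (le_add_of_nonneg_right (hE.wo_nonneg _)) (hw0 _ _)
        (add_nonneg (hw0 _ _) (hE.wo_nonneg _))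

/-- ROW SND-F4a. Pointwise bound for the weight of a permutation.

Proof. For `p = (i, l)` let `r p = 1` if `l = 0`, `r p = wt .. e i (some (mt σ i 0)) + wo (e i)` if
`l = 1`; and `s p = 1` if `l = 0`, `s p = wt .. e i (some (mt σ i 1)) + wo (e i)` if `l = 1`. Claim:
`|MM K e p (σ p)| ≤ Λ * r p * s (σ p)`. Let `p = (i, l)`, `σ p = (j, m)` (so `σ⁻¹ (j, m) = p`):
* `i ≠ j`: `(l,m) = (0,0)`: `|a| ≤ Λ`; `(0,1)`: `|b (e i) (e j)| ≤ Λ (w (e i) (e j) + wo (e j))
  = Λ * s (σ p)` as `mt σ j 1 = v i` and `w` is symmetric; `(1,0)`: `|b (e j) (e i)| ≤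
  Λ (w (e j) (e i) + wo (e i)) = Λ * r p`; `(1,1)`: `|d| ≤ Λ (w (e i) (e j))^2 ≤ Λ * r p * s (σ p)`;
* `i = j`: `(0,0)`: `|g| ≤ Λ`; `(0,1)`, `(1,0)`: `|h| ≤ Λ (wb + wo)`; `(1,1)`: the entry is `0`.
Take the product over `p`: `∏ p, s (σ p) = ∏ p, s p` (`Equiv.prod_comp`), `∏_p r p * ∏_p s p =
∏_i ∏_c (...)` (`Fintype.prod_prod_type`, `Fin.prod_univ_two`), `∏_p Λ = Λ^(2 card ι)`. -/
theorem abs_PP_le (hE : Est K w wo wb q Λ) (e : ι → E) (σ : Equiv.Perm (ι × Fin 2)) :
    |PP K e σ| ≤ Λ ^ (2 * Fintype.card ι) *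
      ∏ i, ∏ c, (wt w wo wb e i (some (mt σ i c)) + wo (e i)) := by
  let r : ι × Fin 2 → ℝ := fun p =>
    if p.2 = 0 then 1 else wt w wo wb e p.1 (some (mt σ p.1 0)) + wo (e p.1)
  let s : ι × Fin 2 → ℝ := fun p =>
    if p.2 = 0 then 1 else wt w wo wb e p.1 (some (mt σ p.1 1)) + wo (e p.1)
  have h1 : ∀ p, |MM K e p (σ p)| ≤ Λ * r p * s (σ p) := by
    rintro ⟨i, l⟩
    rcases h : σ (i, l) with ⟨j, m⟩
    exact F4a_entry hE e σ i j l m h
  have h2 : |PP K e σ| ≤ ∏ p, Λ * r p * s (σ p) := by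
    rw [PP, abs_prod]
    exact prod_le_prod (fun p _ => abs_nonneg _) (fun p _ => h1 p)
  refine h2.trans (le_of_eq ?_)
  rw [prod_mul_distrib, prod_mul_distrib, prod_const, card_univ, Fintype.card_prod,
    Fintype.card_fin, mul_comm (Fintype.card ι) 2, Equiv.prod_comp σ s, mul_assoc,
    ← prod_mul_distrib, Fintype.prod_prod_type]
  congr 1
  refine prod_congr rfl fun i _ => ?_
  rw [Fin.prod_univ_two, Fin.prod_univ_two]
  show (1 : ℝ) * 1 * ((wt w wo wb e i (some (mt σ i 0)) + wo (e i)) *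
    (wt w wo wb e i (some (mt σ i 1)) + wo (e i))) = _
  ring

end SND
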