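import Pool.Agent.SND.Defs
import Pool.Agent.SND.F4a
import Pool.Agent.SND.F2
import Pool.Agent.SND.F3b

open Finset

namespace SND

variable {E : Type} [Fintype E] {K : Kern E} {w : E → E → ℝ} {wo wb : E → ℝ} {q Λ : ℝ}
variable {ι : Type} [Fintype ι] [DecidableEq ι]

/-- auxiliary: the targets after the choice `χ` -/
def F4b_tt (σ : Equiv.Perm (ι × Fin 2)) (χ : ι → Fin 2 → Bool) (i : ι) (c : Fin 2) : Tgt ι :=
  if χ i c then mt σ i c else Tgt.o

theorem F4b_fix (e : ι → E) (σ : Equiv.Perm (ι × Fin 2)) (i : ι) (h : σ (i, 1) = (i, 1)) :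
    PP K e σ = 0 := by
  refine prod_eq_zero (mem_univ (i, (1 : Fin 2))) ?_
  rw [h]
  unfold MM
  simp [ent]

theorem F4b_good (hι : 2 ≤ Fintype.card ι)
    (σ : Equiv.Perm (ι × Fin 2)) (hσ : Cn σ) (hfix : ∀ i, σ (i, 1) ≠ (i, 1))
    (χ : ι → Fin 2 → Bool) : Good (fun i c => some (F4b_tt σ χ i c)) := by
  constructor
  · intro i c h
    have h1 : F4b_tt σ χ i c = Tgt.v i := by simpa using h
    unfold F4b_tt mt at h1
    split_ifs at h1 with h2 h3 h4 h5
    · exact h4 (by simpa using h1)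
    · exact h5 (by simpa using h1)
  · rintro i ⟨h0, h1⟩
    have h0' : F4b_tt σ χ i 0 = Tgt.b := by simpa using h0
    have h1' : F4b_tt σ χ i 1 = Tgt.b := by simpa using h1
    have h2 : (σ (i, 1)).1 = i := by
      unfold F4b_tt mt at h0'
      by_contra hne
      rw [if_pos rfl, if_neg hne] at h0'
      split_ifs at h0'
    have h3 : (σ⁻¹ (i, 1)).1 = i := by
      unfold F4b_tt mt at h1'
      by_contra hne
      rw [if_neg (show ¬ ((1 : Fin 2) = 0) by decide), if_neg hne] at h1'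
      split_ifs at h1'
    have h4 : σ (i, 1) = (i, 0) := by
      rcases h5 : σ (i, 1) with ⟨j, m⟩
      have hj : j = i := by rw [h5] at h2; exact h2
      subst hj
      fin_cases m
      · rfl
      · exact absurd h5 (hfix j)
    have h6 : σ (i, 0) = (i, 1) := by
      rcases h5 : σ⁻¹ (i, 1) with ⟨j, m⟩
      have hj : j = i := by rw [h5] at h3; exact h3
      subst hj
      have h7 : σ (j, m) = (j, 1) := by
        rw [← h5]
        exact σ.apply_symm_apply _
      fin_cases m
      · exact h7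
      · exact absurd h7 (hfix j)
    have h8 := hσ {i} ⟨i, rfl⟩ (by
      rintro ⟨j, m⟩ hj
      have hj' : j = i := hj
      subst hj'
      fin_cases m
      · show (σ (j, 0)).1 ∈ ({j} : Set ι)
        rw [h6]; rfl
      · show (σ (j, 1)).1 ∈ ({j} : Set ι)
        rw [h4]; rfl)
    have h9 : Fintype.card ι ≤ 1 := by
      rw [Fintype.card_le_one_iff]
      intro a b
      have ha : a ∈ ({i} : Set ι) := by rw [h8]; trivial
      have hb : b ∈ ({i} : Set ι) := by rw [h8]; trivial
      rw [Set.mem_singleton_iff] at ha hb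
      rw [ha, hb]
    omega

theorem F4b_nIt (t : ι → Fin 2 → Tgt ι) :
    nIt (fun i c => some (t i c)) = 2 * Fintype.card ι := by
  unfold nIt
  rw [filter_true_of_mem (fun p _ => by simp), card_univ, Fintype.card_prod, Fintype.card_fin,
    mul_comm]

theorem F4b_expand (hE : Est K w wo wb q Λ) (σ : Equiv.Perm (ι × Fin 2)) (M : ℝ)
    (hM : ∀ χ : ι → Fin 2 → Bool, SI w wo wb (fun i c => some (F4b_tt σ χ i c)) ≤ M) :
    ∑ e : ι → E, |PP K e σ| ≤ Λ ^ (2 * Fintype.card ι) * (4 ^ Fintype.card ι * M) := by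
  have hL0 : 0 ≤ Λ := le_trans zero_le_one hE.one_le_L
  have h1 : ∀ e : ι → E, ∏ i, ∏ c, (wt w wo wb e i (some (mt σ i c)) + wo (e i)) =
      ∑ χ : ι → Fin 2 → Bool, ∏ i, ∏ c, wt w wo wb e i (some (F4b_tt σ χ i c)) := by
    intro e
    have h2 : ∀ i, ∏ c, (wt w wo wb e i (some (mt σ i c)) + wo (e i)) =
        ∑ χ : Fin 2 → Bool, ∏ c, (if χ c then wt w wo wb e i (some (mt σ i c))
          else wo (e i)) := by
      intro i
      have h3 := prod_univ_sum (fun _ : Fin 2 => (univ : Finset Bool))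
        (fun c b => if b then wt w wo wb e i (some (mt σ i c)) else wo (e i))
      rw [Fintype.piFinset_univ] at h3
      rw [← h3]
      refine prod_congr rfl fun c _ => ?_
      rw [Fintype.sum_bool]
      simp
    have h4 := prod_univ_sum (fun _ : ι => (univ : Finset (Fin 2 → Bool)))
      (fun i χ => ∏ c, (if χ c then wt w wo wb e i (some (mt σ i c)) else wo (e i)))
    rw [Fintype.piFinset_univ] at h4
    rw [prod_congr rfl fun i _ => h2 i, h4]
    refine sum_congr rfl fun χ _ => prod_congr rfl fun i _ => prod_congr rfl fun c _ => ?_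
    unfold F4b_tt
    by_cases h : χ i c = true
    · rw [if_pos h, if_pos h]
    · rw [if_neg h, if_neg h]
      rfl
  have h5 : ∑ e : ι → E, |PP K e σ| ≤ ∑ e : ι → E, Λ ^ (2 * Fintype.card ι) *
      ∑ χ : ι → Fin 2 → Bool, ∏ i, ∏ c, wt w wo wb e i (some (F4b_tt σ χ i c)) := by
    refine sum_le_sum fun e _ => ?_
    rw [← h1]
    exact abs_PP_le hE e σ
  refine h5.trans ?_
  rw [← mul_sum, sum_comm]
  refine mul_le_mul_of_nonneg_left ?_ (by positivity)
  refine (sum_le_sum fun χ _ => hM χ).trans (le_of_eq ?_)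
  rw [sum_const, card_univ, nsmul_eq_mul, Fintype.card_fun, Fintype.card_fun, Fintype.card_bool,
    Fintype.card_fin]
  norm_num

theorem F4b_cases (hE : Est K w wo wb q Λ) (σ : Equiv.Perm (ι × Fin 2)) (M N : ℝ) (hN : 0 ≤ N)
    (hMN : Λ ^ (2 * Fintype.card ι) * (4 ^ Fintype.card ι * M) ≤ N)
    (hM : (∀ i, σ (i, 1) ≠ (i, 1)) → ∀ χ : ι → Fin 2 → Bool,
      SI w wo wb (fun i c => some (F4b_tt σ χ i c)) ≤ M) :
    ∑ e : ι → E, |PP K e σ| ≤ N := by
  by_cases hfix : ∀ i, σ (i, 1) ≠ (i, 1)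
  · exact (F4b_expand hE σ M (hM hfix)).trans hMN
  · push Not at hfix
    obtain ⟨i, hi⟩ := hfix
    refine le_trans (le_of_eq ?_) hN
    refine sum_eq_zero fun e _ => ?_
    rw [F4b_fix e σ i hi, abs_zero]

/-- ROW SND-F4b. Sum over all the positions, general case.

Proof. By `abs_PP_le` and expanding the product (`Finset.prod_add`, or write the factor as a sum over
`χ : Bool` and use `Finset.prod_univ_sum` twice):
`∏_i ∏_c (main + wo) = ∑_{χ : ι → Fin 2 → Bool} ∏_i ∏_c wt .. (some (tχ i c))`,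
`tχ i c = mt σ i c` if `χ i c = true` and `Tgt.o` otherwise. There are `2^(2 card ι) = 4^card ι`
choices `χ`. If `σ (i, 1) = (i, 1)` for some `i`, then `PP K e σ = 0` for all `e` (the entry is `0`) and
the claim is trivial. Otherwise every `tχ` is `Good` (as `option`): it never points to its own vertex
by definition of `mt`; two boundary items at `i` would mean `(σ (i,1)).1 = i` and
`(σ⁻¹ (i,1)).1 = i`, so `σ (i,1) = (i,0)` and `σ (i,0) = (i,1)`, so `{i}` is invariant and `Cn σ` gives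
`{i} = univ`, contradicting `2 ≤ card ι`. So `sum_items_le` with `nIt = 2 card ι` applies to each
`χ`. -/
theorem sum_abs_PP_le (hE : Est K w wo wb q Λ) (hι : 2 ≤ Fintype.card ι)
    (σ : Equiv.Perm (ι × Fin 2)) (hσ : Cn σ) :
    ∑ e : ι → E, |PP K e σ| ≤
      4 ^ Fintype.card ι * Λ ^ (3 * Fintype.card ι) * q ^ (2 * Fintype.card ι) := by
  have hL0 : 0 ≤ Λ := le_trans zero_le_one hE.one_le_L
  have hq0 : 0 ≤ q := le_trans zero_le_one hE.one_le_q
  refine F4b_cases hE σ (Λ ^ Fintype.card ι * q ^ (2 * Fintype.card ι)) _ (by positivity)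
    (le_of_eq ?_) fun hfix χ => ?_
  · have e1 : 3 * Fintype.card ι = 2 * Fintype.card ι + Fintype.card ι := by ring
    rw [e1, pow_add]
    ring
  · have h := sum_items_le hE _ (F4b_good hι σ hσ hfix χ)
    rw [F4b_nIt] at h
    have e1 : 4 * Fintype.card ι - 2 * Fintype.card ι = 2 * Fintype.card ι := by omega
    rwa [e1] at h

/-- ROW SND-F4c. Sum over all the positions, not fully paired permutations.

Proof. As in `sum_abs_PP_le`, with `sum_full_gain` instead of `sum_items_le`: it remains to check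
`¬ FPt tχ`. If some `χ i c = false` then `tχ i c = Tgt.o`, so not `FPt`. If `tχ = mt σ` and
`FPt (mt σ)` with `τ`, then `mt σ i c = v (τ i)` gives `(σ (i,1)).1 = τ i ≠ i`,
`(σ⁻¹ (i,1)).1 = τ i`, and `τ (τ i) = i`: `FPs σ`, contradiction. -/
theorem sum_abs_PP_gain (hE : Est K w wo wb q Λ) (hι : 2 ≤ Fintype.card ι)
    (σ : Equiv.Perm (ι × Fin 2)) (hσ : Cn σ) (hFP : ¬ FPs σ) :
    ∑ e : ι → E, |PP K e σ| ≤
      8 * 4 ^ Fintype.card ι * Λ ^ (3 * Fintype.card ι) * q ^ (2 * Fintype.card ι - 1) := by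
  have hL0 : 0 ≤ Λ := le_trans zero_le_one hE.one_le_L
  have hq0 : 0 ≤ q := le_trans zero_le_one hE.one_le_q
  refine F4b_cases hE σ (8 * Λ ^ Fintype.card ι * q ^ (2 * Fintype.card ι - 1)) _ (by positivity)
    (le_of_eq ?_) fun hfix χ => ?_
  · have e1 : 3 * Fintype.card ι = 2 * Fintype.card ι + Fintype.card ι := by ring
    rw [e1, pow_add]
    ring
  · refine sum_full_gain hE _ (F4b_good hι σ hσ hfix χ) ?_
    rintro ⟨τ, h1, h2⟩
    refine hFP fun i => ?_
    have hmt : ∀ i c, mt σ i c = Tgt.v (τ i) := by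
      intro i c
      have h3 := h1 i c
      unfold F4b_tt at h3
      split_ifs at h3
      exact h3
    have h4 : ∀ i, (σ (i, 1)).1 ≠ i ∧ (σ (i, 1)).1 = τ i := by
      intro i
      have h5 := hmt i 0
      unfold mt at h5
      rw [if_pos rfl] at h5
      split_ifs at h5 with h6
      exact ⟨h6, by simpa using h5⟩
    have h7 : (σ⁻¹ (i, 1)).1 = τ i := by
      have h5 := hmt i 1
      unfold mt at h5
      rw [if_neg (by decide)] at h5
      split_ifs at h5 with h6
      simpa using h5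
    refine ⟨(h4 i).1, ?_, ?_⟩
    · rw [h7, (h4 i).2]
    · rw [(h4 i).2, (h4 (τ i)).2, h2]

end SND
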