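import Pool.Agent.SND.Defs

open Finset

namespace SND

variable {E : Type} [Fintype E] {K : Kern E} {w : E → E → ℝ} {wo wb : E → ℝ} {q Λ : ℝ}

theorem F5a_sum_ww (hE : Est K w wo wb q Λ) (x : E) : ∑ y, w x y ^ 2 ≤ Λ := by
  refine le_trans (le_of_eq (sum_congr rfl fun y _ => ?_)) (hE.sum_ww x)
  rw [hE.w_symm]

theorem F5a_lip (hE : Est K w wo wb q Λ) (x y z : E) :
    |K.a z y - K.a z x| ≤ Λ * (w x y)⁻¹ * (w x z + wo x) := by
  have h := hE.a_lip x y z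
  rwa [abs_sub_comm, hE.a_symm x z, hE.a_symm y z] at h

theorem F5a_d2 (hE : Est K w wo wb q Λ) (x y : E) : K.d x y ^ 2 ≤ Λ ^ 2 * w x y ^ 4 := by
  have h := hE.d_le x y
  have h2 : |K.d x y| ^ 2 ≤ (Λ * w x y ^ 2) ^ 2 := pow_le_pow_left₀ (abs_nonneg _) h 2
  rw [sq_abs] at h2
  refine h2.trans (le_of_eq (by ring))

theorem F5a_key {u v s : ℝ} (hu : 0 ≤ u) (hu1 : u ≤ 1) (hs1 : s ≤ 1) (hs : 0 ≤ s) (hv : 0 ≤ v) :
    u * (u + v) * (u + s) + u ^ 3 ≤ 4 * u ^ 2 + v ^ 2 := by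
  have h1 : 0 ≤ u * (u + v) := by positivity
  have h2 : u * (u + v) * (u + s) ≤ u * (u + v) * 2 :=
    mul_le_mul_of_nonneg_left (by linarith) h1
  have h3 : u ^ 3 ≤ u ^ 2 := by
    have : u ^ 2 * u ≤ u ^ 2 * 1 := mul_le_mul_of_nonneg_left hu1 (by positivity)
    nlinarith
  nlinarith [sq_nonneg (u - v)]

theorem F5a_pt (hE : Est K w wo wb q Λ) (x y z : E) :
    |(K.d x y * K.b x y * K.b y x - K.d x y ^ 2 * K.a x y) * (K.a z y - K.a z x)| ≤
      Λ ^ 4 * (w x z + wo x) * (4 * w x y ^ 2 + wo y ^ 2) := by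
  have hL0 : 0 ≤ Λ := le_trans zero_le_one hE.one_le_L
  have hu := hE.w_pos x y
  have hu1 := hE.w_le x y
  have hT : 0 ≤ w x z + wo x := add_nonneg (hE.w_pos _ _).le (hE.wo_nonneg _)
  have hb1 := hE.b_le x y
  have hb2 := hE.b_le y x
  rw [hE.w_symm y x] at hb2
  have hv := hE.wo_nonneg y
  have hs := hE.wo_nonneg x
  have hs1 := hE.wo_le x
  have hD : |K.d x y * K.b x y * K.b y x - K.d x y ^ 2 * K.a x y| ≤
      Λ ^ 3 * w x y * (w x y * (w x y + wo y) * (w x y + wo x) + w x y ^ 3) := by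
    refine (abs_sub _ _).trans ?_
    have h1 : |K.d x y * K.b x y * K.b y x| ≤
        (Λ * w x y ^ 2) * (Λ * (w x y + wo y)) * (Λ * (w x y + wo x)) := by
      rw [abs_mul, abs_mul]
      exact mul_le_mul (mul_le_mul (hE.d_le x y) hb1 (abs_nonneg _) (by positivity)) hb2
        (abs_nonneg _) (by positivity)
    have h2 : |K.d x y ^ 2 * K.a x y| ≤ (Λ ^ 2 * w x y ^ 4) * Λ := by
      rw [abs_mul, abs_of_nonneg (sq_nonneg _)]
      exact mul_le_mul (F5a_d2 hE x y) (hE.a_le x y) (abs_nonneg _) (by positivity)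
    refine (add_le_add h1 h2).trans (le_of_eq (by ring))
  rw [abs_mul]
  refine (mul_le_mul hD (F5a_lip hE x y z) (abs_nonneg _) (by positivity)).trans ?_
  have e1 : Λ ^ 3 * w x y * (w x y * (w x y + wo y) * (w x y + wo x) + w x y ^ 3) *
      (Λ * (w x y)⁻¹ * (w x z + wo x)) =
      Λ ^ 4 * (w x z + wo x) * (w x y * (w x y + wo y) * (w x y + wo x) + w x y ^ 3) *
      (w x y * (w x y)⁻¹) := by ring
  rw [e1, mul_inv_cancel₀ hu.ne', mul_one]
  exact mul_le_mul_of_nonneg_left (F5a_key hu.le hu1 hs1 hs hv) (by positivity)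

theorem F5a_pt2 (hE : Est K w wo wb q Λ) (x y : E) :
    |K.d x y ^ 2 * (K.g y - K.g x)| ≤ Λ ^ 3 * (wo x + wb x) * w x y ^ 2 := by
  have hL0 : 0 ≤ Λ := le_trans zero_le_one hE.one_le_L
  have hu := hE.w_pos x y
  have hu1 := hE.w_le x y
  have hs := hE.wo_nonneg x
  have hb := hE.wb_nonneg x
  have hg := hE.g_lip x y
  rw [abs_sub_comm] at hg
  rw [abs_mul, abs_of_nonneg (sq_nonneg _)]
  refine (mul_le_mul (F5a_d2 hE x y) hg (abs_nonneg _) (by positivity)).trans ?_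
  have e1 : Λ ^ 2 * w x y ^ 4 * (Λ * (w x y)⁻¹ * (wo x + wb x)) =
      Λ ^ 3 * (wo x + wb x) * w x y ^ 3 * (w x y * (w x y)⁻¹) := by ring
  rw [e1, mul_inv_cancel₀ hu.ne', mul_one]
  refine mul_le_mul_of_nonneg_left ?_ (by positivity)
  calc w x y ^ 3 = w x y ^ 2 * w x y := by ring
    _ ≤ w x y ^ 2 * 1 := mul_le_mul_of_nonneg_left hu1 (by positivity)
    _ = w x y ^ 2 := mul_one _

/-- ROW SND-F5a. The cancellation for paired vertices (this is where the Ward identity enters).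

Proof. Write `D y = d x y * b x y * b y x`, `A y = d x y ^ 2 * a x y`. The sum is
`∑_y (D y - A y) (a z y - a z x) + a z x * ∑_y (D y - A y + d x y ^ 2 g y)`. By `ward` (for `x`):
`∑_y (A y - D y) = g x ∑_y d x y ^ 2`, so the second sum is `∑_y d x y ^ 2 (g y - g x)`, and
`|∑_y d x y ^ 2 (g y - g x)| ≤ ∑_y Λ^2 (w x y)^4 * Λ (w x y)⁻¹ (wo x + wb x)
≤ Λ^3 (wo x + wb x) ∑_y (w x y)^3 ≤ Λ^4 (wo x + wb x)` (`g_lip`, `w_symm`, `w_le`, `sum_ww`);
times `|a z x| ≤ Λ`: `Λ^5 (wo x + wb x)`.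
First sum: `|a z y - a z x| = |a x z - a y z| ≤ Λ (w x y)⁻¹ (w x z + wo x)` (`a_symm`, `a_lip`),
`|D y| ≤ Λ^3 (w x y)^2 (w x y + wo y) (w y x + wo x)` (`b_le`: `|b x y| ≤ Λ (w x y + wo y)`,
`|b y x| ≤ Λ (w y x + wo x)`), `|A y| ≤ Λ^3 (w x y)^4`. As `w, wo ≤ 1`:
`(w x y)⁻¹ (w x y)^2 (w x y + wo y) (w x y + wo x) ≤ 3 (w x y)^2 + w x y * wo y`, and
`∑_y w x y * wo y ≤ ∑ ((w x y)^2 + (wo y)^2)/2 ≤ Λ`. So the first sum is at most
`Λ^4 (w x z + wo x) (3 Λ + Λ + Λ) = 5 Λ^5 (w x z + wo x)`. -/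
theorem ineqA (hE : Est K w wo wb q Λ) (x z : E) :
    |∑ y, (K.d x y * K.b x y * K.b y x * K.a z y - K.d x y ^ 2 * K.a x y * K.a z y +
        K.d x y ^ 2 * K.g y * K.a z x)| ≤ 6 * Λ ^ 5 * (wo x + wb x + w x z) := by
  have hL0 : 0 ≤ Λ := le_trans zero_le_one hE.one_le_L
  have hs := hE.wo_nonneg x
  have hb := hE.wb_nonneg x
  have hz := (hE.w_pos x z).le
  have hw := hE.ward x
  have hsplit : ∑ y, (K.d x y * K.b x y * K.b y x * K.a z y - K.d x y ^ 2 * K.a x y * K.a z y +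
        K.d x y ^ 2 * K.g y * K.a z x) =
      ∑ y, (K.d x y * K.b x y * K.b y x - K.d x y ^ 2 * K.a x y) * (K.a z y - K.a z x) +
      K.a z x * ∑ y, K.d x y ^ 2 * (K.g y - K.g x) := by
    have e1 : ∑ y, K.d x y ^ 2 * (K.g y - K.g x) =
        ∑ y, (K.d x y ^ 2 * K.g y - K.d x y * (K.a x y * K.d x y - K.b x y * K.b y x)) := by
      rw [sum_sub_distrib, hw, mul_sum, ← sum_sub_distrib]
      exact sum_congr rfl fun y _ => by ring
    rw [e1, mul_sum, ← sum_add_distrib]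
    exact sum_congr rfl fun y _ => by ring
  have h1 : |∑ y, (K.d x y * K.b x y * K.b y x - K.d x y ^ 2 * K.a x y) *
      (K.a z y - K.a z x)| ≤ 5 * Λ ^ 5 * (w x z + wo x) := by
    refine (abs_sum_le_sum_abs _ _).trans ((sum_le_sum fun y _ => F5a_pt hE x y z).trans ?_)
    rw [← mul_sum, sum_add_distrib, ← mul_sum]
    have h2 := F5a_sum_ww hE x
    have h3 := hE.sum_wowo
    have h4 : 4 * ∑ y, w x y ^ 2 + ∑ y, wo y ^ 2 ≤ 5 * Λ := by linarith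
    refine (mul_le_mul_of_nonneg_left h4 (by positivity)).trans (le_of_eq (by ring))
  have h5 : |K.a z x * ∑ y, K.d x y ^ 2 * (K.g y - K.g x)| ≤ Λ ^ 5 * (wo x + wb x) := by
    rw [abs_mul]
    have h6 : |∑ y, K.d x y ^ 2 * (K.g y - K.g x)| ≤ Λ ^ 4 * (wo x + wb x) := by
      refine (abs_sum_le_sum_abs _ _).trans ((sum_le_sum fun y _ => F5a_pt2 hE x y).trans ?_)
      rw [← mul_sum]
      refine (mul_le_mul_of_nonneg_left (F5a_sum_ww hE x) (by positivity)).trans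
        (le_of_eq (by ring))
    refine (mul_le_mul (hE.a_le z x) h6 (abs_nonneg _) hL0).trans (le_of_eq (by ring))
  rw [hsplit]
  refine (abs_add_le _ _).trans ((add_le_add h1 h5).trans ?_)
  have hL5 : 0 ≤ Λ ^ 5 := by positivity
  nlinarith [mul_nonneg hL5 hb, mul_nonneg hL5 hz]

end SND
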