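import Pool.Agent.SND.Defs

open Finset

namespace SND

variable {E : Type} [Fintype E] {K : Kern E} {w : E → E → ℝ} {wo wb : E → ℝ} {q Λ : ℝ}

theorem F5b_sum_ww (hE : Est K w wo wb q Λ) (x : E) : ∑ y, w x y ^ 2 ≤ Λ := by
  refine le_trans (le_of_eq (sum_congr rfl fun y _ => ?_)) (hE.sum_ww x)
  rw [hE.w_symm]

theorem F5b_lip (hE : Est K w wo wb q Λ) (x y z : E) :
    |K.a z y - K.a z x| ≤ Λ * (w x y)⁻¹ * (w x z + wo x) := by
  have h := hE.a_lip x y z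
  rwa [abs_sub_comm, hE.a_symm x z, hE.a_symm y z] at h

theorem F5b_d2 (hE : Est K w wo wb q Λ) (x y : E) : K.d x y ^ 2 ≤ Λ ^ 2 * w x y ^ 4 := by
  have h := hE.d_le x y
  have h2 : |K.d x y| ^ 2 ≤ (Λ * w x y ^ 2) ^ 2 := pow_le_pow_left₀ (abs_nonneg _) h 2
  rw [sq_abs] at h2
  refine h2.trans (le_of_eq (by ring))

theorem F5b_pt (hE : Est K w wo wb q Λ) (x y z z' p p' : E) :
    |K.d x y ^ 2 * K.a x p * K.a y p' * (K.a z x * K.a z' y - K.a z y * K.a z' x)| ≤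
      2 * Λ ^ 6 * (wo x + w x z + w x z') * w x y ^ 2 := by
  have hL0 : 0 ≤ Λ := le_trans zero_le_one hE.one_le_L
  have hu := hE.w_pos x y
  have hu1 := hE.w_le x y
  have hs := hE.wo_nonneg x
  have hz := (hE.w_pos x z).le
  have hz' := (hE.w_pos x z').le
  have h1 : |K.a z x * K.a z' y - K.a z y * K.a z' x| ≤
      2 * Λ ^ 2 * (w x y)⁻¹ * (wo x + w x z + w x z') := by
    have e : K.a z x * K.a z' y - K.a z y * K.a z' x =
        K.a z y * (K.a z' y - K.a z' x) - (K.a z y - K.a z x) * K.a z' y := by ring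
    rw [e]
    refine (abs_sub _ _).trans ?_
    rw [abs_mul, abs_mul]
    have h2 := mul_le_mul (hE.a_le z y) (F5b_lip hE x y z') (abs_nonneg _) hL0
    have h3 := mul_le_mul (F5b_lip hE x y z) (hE.a_le z' y) (abs_nonneg _) (by positivity)
    refine (add_le_add h2 h3).trans ?_
    have h4 : 0 ≤ Λ ^ 2 * (w x y)⁻¹ * (w x z + w x z') := by positivity
    nlinarith [h4]
  have h5 : |K.d x y ^ 2 * K.a x p * K.a y p'| ≤ Λ ^ 2 * w x y ^ 4 * Λ * Λ := by
    rw [abs_mul, abs_mul, abs_of_nonneg (sq_nonneg _)]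
    exact mul_le_mul (mul_le_mul (F5b_d2 hE x y) (hE.a_le x p) (abs_nonneg _) (by positivity))
      (hE.a_le y p') (abs_nonneg _) (by positivity)
  rw [abs_mul]
  refine (mul_le_mul h5 h1 (abs_nonneg _) (by positivity)).trans ?_
  have e1 : Λ ^ 2 * w x y ^ 4 * Λ * Λ * (2 * Λ ^ 2 * (w x y)⁻¹ * (wo x + w x z + w x z')) =
      2 * Λ ^ 6 * (wo x + w x z + w x z') * w x y ^ 3 * (w x y * (w x y)⁻¹) := by ring
  rw [e1, mul_inv_cancel₀ hu.ne', mul_one]
  refine mul_le_mul_of_nonneg_left ?_ (by positivity)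
  calc w x y ^ 3 = w x y ^ 2 * w x y := by ring
    _ ≤ w x y ^ 2 * 1 := mul_le_mul_of_nonneg_left hu1 (by positivity)
    _ = w x y ^ 2 := mul_one _

/-- ROW SND-F5b. The antisymmetry cancellation.

Proof. `a z x * a z' y - a z y * a z' x = (a z x - a z y) * a z' y + a z y * (a z' y - a z' x)`,
`|a z x - a z y| ≤ Λ (w x y)⁻¹ (w x z + wo x)` (`a_symm`, `a_lip`), all the other `a` are `≤ Λ`,
`d x y ^ 2 ≤ Λ^2 (w x y)^4`, `∑_y (w x y)^3 ≤ Λ`. -/
theorem ineqQ (hE : Est K w wo wb q Λ) (x z z' p p' : E) :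
    ∑ y, |K.d x y ^ 2 * K.a x p * K.a y p' * (K.a z x * K.a z' y - K.a z y * K.a z' x)| ≤
      2 * Λ ^ 7 * (wo x + w x z + w x z') := by
  have hL0 : 0 ≤ Λ := le_trans zero_le_one hE.one_le_L
  have hs := hE.wo_nonneg x
  have hz := (hE.w_pos x z).le
  have hz' := (hE.w_pos x z').le
  refine (sum_le_sum fun y _ => F5b_pt hE x y z z' p p').trans ?_
  rw [← mul_sum]
  refine (mul_le_mul_of_nonneg_left (F5b_sum_ww hE x) (by positivity)).trans (le_of_eq (by ring))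

end SND
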