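import Pool.Agent.SND.Defs

open Finset

namespace SND

variable {E : Type} [Fintype E] {K : Kern E} {w : E → E → ℝ} {wo wb : E → ℝ} {q Λ : ℝ}
variable {ι : Type} [Fintype ι] [DecidableEq ι]

/-- ROW SND-F6a. Splitting the sum over the positions.

Proof. `e ↦ (e i, e j, restriction)` is a bijection with inverse `glue` (`Fintype.sum_equiv`,
`Fintype.sum_prod_type`). -/
theorem sum_glue (i j : ι) (hij : i ≠ j) (f : (ι → E) → ℝ) :
    ∑ e : ι → E, f e =
      ∑ e' : {v : ι // v ≠ i ∧ v ≠ j} → E, ∑ x, ∑ y, f (glue i j x y e') := by
  classical
  let eqv : (({v : ι // v ≠ i ∧ v ≠ j} → E) × E × E) ≃ (ι → E) :=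
    { toFun := fun p => glue i j p.2.1 p.2.2 p.1
      invFun := fun e => (fun v => e v.1, e i, e j)
      left_inv := by
        rintro ⟨e', x, y⟩
        refine Prod.ext ?_ (Prod.ext ?_ ?_)
        · funext v
          show glue i j x y e' v.1 = e' v
          unfold glue
          rw [dif_pos v.2]
        · show glue i j x y e' i = x
          unfold glue
          rw [dif_neg (fun h => h.1 rfl), if_pos rfl]
        · show glue i j x y e' j = y
          unfold glue
          rw [dif_neg (fun h => h.2 rfl), if_neg hij.symm]
      right_inv := by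
        intro e
        funext v
        show glue i j (e i) (e j) (fun v => e v.1) v = e v
        unfold glue
        by_cases hv : v ≠ i ∧ v ≠ j
        · rw [dif_pos hv]
        · rw [dif_neg hv]
          by_cases hvi : v = i
          · rw [if_pos hvi, hvi]
          · rw [if_neg hvi]
            by_cases hvj : v = j
            · rw [hvj]
            · exact absurd ⟨hvi, hvj⟩ hv }
  rw [← Equiv.sum_comp eqv, Fintype.sum_prod_type]
  refine sum_congr rfl fun e' _ => ?_
  rw [Fintype.sum_prod_type]
  rfl

end SND
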