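import Pool.Agent.SND.Defs
import Pool.Agent.SND.F2

open Finset

namespace SND

variable {E : Type} [Fintype E] {K : Kern E} {w : E → E → ℝ} {wo wb : E → ℝ} {q Λ : ℝ}
variable {ι : Type} [Fintype ι] [DecidableEq ι]

/-- the weight of a row or column -/
noncomputable def F6b_r (w : E → E → ℝ) (wo : E → ℝ) (e : ι → E) (σ : Equiv.Perm (ι × Fin 2))
    (p : ι × Fin 2) : ℝ :=
  if p.2 = 1 then w (e p.1) (e (σ (p.1, 1)).1) + wo (e p.1) else 1

theorem F6b_r_zero (w : E → E → ℝ) (wo : E → ℝ) (e : ι → E) (σ : Equiv.Perm (ι × Fin 2))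
    (v : ι) : F6b_r w wo e σ (v, 0) = 1 := by simp [F6b_r]

theorem F6b_r_one (w : E → E → ℝ) (wo : E → ℝ) (e : ι → E) (σ : Equiv.Perm (ι × Fin 2))
    (v : ι) : F6b_r w wo e σ (v, 1) = w (e v) (e (σ (v, 1)).1) + wo (e v) := by simp [F6b_r]

theorem F6b_r_nonneg (hE : Est K w wo wb q Λ) (e : ι → E) (σ : Equiv.Perm (ι × Fin 2))
    (p : ι × Fin 2) : 0 ≤ F6b_r w wo e σ p := by
  unfold F6b_r
  split_ifs
  · exact add_nonneg (hE.w_pos _ _).le (hE.wo_nonneg _)
  · exact zero_le_one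

theorem F6b_entry (hE : Est K w wo wb q Λ) (e : ι → E) (σ : Equiv.Perm (ι × Fin 2))
    (hσ : FPs σ) (p : ι × Fin 2) :
    |MM K e p (σ p)| ≤ Λ * F6b_r w wo e σ p * F6b_r w wo e σ (σ p) := by
  obtain ⟨v, l⟩ := p
  generalize hq : σ (v, l) = p'
  obtain ⟨u, m⟩ := p'
  have hinv : σ⁻¹ (u, m) = (v, l) := by rw [← hq]; simp
  have hL0 : (0 : ℝ) ≤ Λ := zero_le_one.trans hE.one_le_L
  rcases (show l = 0 ∨ l = 1 by omega) with rfl | rfl <;>
    rcases (show m = 0 ∨ m = 1 by omega) with rfl | rfl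
  · rw [F6b_r_zero, F6b_r_zero, mul_one, mul_one]
    by_cases hvu : v = u
    · subst hvu
      have e1 : MM K e (v, 0) (v, 0) = K.g (e v) := by simp [MM, ent]
      rw [e1]; exact hE.g_le _
    · have e1 : MM K e (v, 0) (u, 0) = K.a (e v) (e u) := by simp [MM, ent, hvu]
      rw [e1]; exact hE.a_le _ _
  · have h1 := (hσ u).1
    have h2 := (hσ u).2.1
    rw [hinv] at h2
    have hvu : v ≠ u := by
      rintro rfl
      exact h1 h2.symm
    have e1 : MM K e (v, 0) (u, 1) = K.b (e v) (e u) := by simp [MM, ent, hvu]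
    rw [e1, F6b_r_zero, F6b_r_one, ← h2, mul_one, hE.w_symm (e u) (e v)]
    exact hE.b_le _ _
  · have h1 := (hσ v).1
    rw [hq] at h1
    have hvu : v ≠ u := fun h => h1 h.symm
    have e1 : MM K e (v, 1) (u, 0) = K.b (e u) (e v) := by simp [MM, ent, hvu]
    rw [e1, F6b_r_zero, F6b_r_one, hq, mul_one, hE.w_symm (e v) (e u)]
    exact hE.b_le _ _
  · have h1 := (hσ v).1
    rw [hq] at h1
    have hvu : v ≠ u := fun h => h1 h.symm
    have h2 := (hσ u).2.1
    rw [hinv] at h2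
    have e1 : MM K e (v, 1) (u, 1) = K.d (e v) (e u) := by simp [MM, ent, hvu]
    rw [e1, F6b_r_one, F6b_r_one, hq, ← h2, hE.w_symm (e u) (e v)]
    refine (hE.d_le _ _).trans ?_
    rw [mul_assoc]
    refine mul_le_mul_of_nonneg_left ?_ hL0
    have hw := (hE.w_pos (e v) (e u)).le
    have ho1 := hE.wo_nonneg (e v)
    have ho2 := hE.wo_nonneg (e u)
    have h3 := mul_nonneg hw ho1
    have h4 := mul_nonneg hw ho2
    have h5 := mul_nonneg ho1 ho2
    nlinarith

/-- the sum over the positions of a product of items -/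
theorem F6b_items {κ : Type} [Fintype κ] [DecidableEq κ] (hE : Est K w wo wb q Λ) (τ : κ → κ)
    (hτ : ∀ v, τ v ≠ v) :
    ∑ e : κ → E, ∏ v, ((w (e v) (e (τ v)) + wo (e v)) * (w (e v) (e (τ v)) + wo (e v))) ≤
      4 ^ Fintype.card κ * Λ ^ Fintype.card κ * q ^ (2 * Fintype.card κ) := by
  classical
  let t : (κ → Fin 2 → Bool) → κ → Fin 2 → Option (Tgt κ) := fun χ v c =>
    some (if χ v c = true then Tgt.v (τ v) else Tgt.o)
  have hexp : ∀ e : κ → E,
      ∏ v, ((w (e v) (e (τ v)) + wo (e v)) * (w (e v) (e (τ v)) + wo (e v))) =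
        ∑ χ : κ → Fin 2 → Bool, ∏ v, ∏ c, wt w wo wb e v (t χ v c) := by
    intro e
    have h1 : ∀ v, (w (e v) (e (τ v)) + wo (e v)) * (w (e v) (e (τ v)) + wo (e v)) =
        ∑ x : Fin 2 → Bool, ∏ c, wt w wo wb e v
          (some (if x c = true then Tgt.v (τ v) else Tgt.o)) := by
      intro v
      have h2 : ∀ c : Fin 2, ∑ b : Bool, wt w wo wb e v
          (some (if b = true then Tgt.v (τ v) else Tgt.o)) = w (e v) (e (τ v)) + wo (e v) := by
        intro c
        rw [Fintype.sum_bool]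
        simp [wt]
      have h3 := Fintype.prod_sum (ι := Fin 2) (κ := fun _ => Bool)
        (fun (_ : Fin 2) (b : Bool) => wt w wo wb e v
          (some (if b = true then Tgt.v (τ v) else Tgt.o)))
      rw [← h3, Fin.prod_univ_two, h2 0]
    simp only [h1]
    exact Fintype.prod_sum (ι := κ) (κ := fun _ => (Fin 2 → Bool))
      (fun (v : κ) (x : Fin 2 → Bool) => ∏ c, wt w wo wb e v
          (some (if x c = true then Tgt.v (τ v) else Tgt.o)))
  simp only [hexp]
  rw [Finset.sum_comm]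
  have hχ : ∀ χ : κ → Fin 2 → Bool, ∑ e : κ → E, ∏ v, ∏ c, wt w wo wb e v (t χ v c) ≤
      Λ ^ Fintype.card κ * q ^ (2 * Fintype.card κ) := by
    intro χ
    have hgood : Good (t χ) := by
      refine ⟨?_, ?_⟩
      · intro v c h
        simp only [t, Option.some.injEq] at h
        split_ifs at h with h'
        injection h with h''
        exact hτ v h''
      · rintro v ⟨h, _⟩
        simp only [t, Option.some.injEq] at h
        split_ifs at h
    have hn : nIt (t χ) = 2 * Fintype.card κ := by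
      unfold nIt
      rw [Finset.filter_true_of_mem (fun p _ => by simp [t]), Finset.card_univ,
        Fintype.card_prod, Fintype.card_fin, mul_comm]
    have h := sum_items_le hE (t χ) hgood
    rw [hn] at h
    have h4 : 4 * Fintype.card κ - 2 * Fintype.card κ = 2 * Fintype.card κ := by omega
    rw [h4] at h
    exact h
  refine (Finset.sum_le_sum (fun χ _ => hχ χ)).trans ?_
  rw [Finset.sum_const, Finset.card_univ, nsmul_eq_mul]
  have hcard : ((Fintype.card (κ → Fin 2 → Bool) : ℕ) : ℝ) = 4 ^ Fintype.card κ := by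
    rw [Fintype.card_fun, Fintype.card_fun, Fintype.card_bool, Fintype.card_fin]
    push_cast
    norm_num
  rw [hcard, mul_assoc]

/-- ROW SND-F6b. Power counting for the remaining vertices of a fully paired permutation.

Proof. Let `τ v = (σ (v,1)).1`; `τ` is an involution without fixed points (`FPs`), `τ i = j`, so `τ`
preserves `ι' = {v // v ≠ i ∧ v ≠ j}`; also `(σ⁻¹ (v,1)).1 = τ v`. For `v ∈ ι'` let
`I v = w (e v) (e (τ v)) + wo (e v)`. As in `abs_PP_le` (SND-F4a): for `p ∈ S`,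
`|MM K e p (σ p)| ≤ Λ * r p * s (σ p)` with `r (v, 1) = I v = s (v, 1)`, `r (v, 0) = s (v, 0) = 1`
(the case `(σ p).1 = p.1` only occurs for `p = (v,0)`, `σ p = (v,0)`, entry `g`, since
`(σ (v,1)).1 = τ v ≠ v` and `(σ⁻¹ (v,1)).1 ≠ v`). `#S ≤ 2 (card ι - 2)`. By the hypotheses
`∏_{p ∈ S} r p = ∏_{v ∈ ι'} I v = ∏_{p ∈ S} s (σ p)` (the `p ∈ S` with `p.2 = 1` are exactly
the `(v,1)`, `v ∈ ι'`; the `p ∈ S` with `(σ p).2 = 1` are exactly the `σ⁻¹ (v,1)`, `v ∈ ι'`).
So the product is at most `Λ^(2 (card ι - 2)) ∏_{v ∈ ι'} I v ^ 2`. Expand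
`∏_v ∏_{c : Fin 2} (w + wo) = ∑_{χ : ι' → Fin 2 → Bool} ...` (`4^(card ι - 2)` terms) and apply
`sum_items_le` on `ι'` to the `Good` full items `v (τ v)` / `o`
(`card ι' = card ι - 2`, `nIt = 2 (card ι - 2)`). -/
theorem rest_le (hE : Est K w wo wb q Λ) (σ : Equiv.Perm (ι × Fin 2)) (hσ : FPs σ) (i j : ι)
    (hij : (σ (i, 1)).1 = j) (S : Finset (ι × Fin 2))
    (hS : ∀ p ∈ S, p.1 ≠ i ∧ p.1 ≠ j ∧ (σ p).1 ≠ i ∧ (σ p).1 ≠ j)
    (hS' : ∀ v, v ≠ i → v ≠ j → (v, (1 : Fin 2)) ∈ S ∧ σ⁻¹ (v, 1) ∈ S) (x y : E) :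
    ∑ e' : {v : ι // v ≠ i ∧ v ≠ j} → E, |∏ p ∈ S, MM K (glue i j x y e') p (σ p)| ≤
      4 ^ (Fintype.card ι - 2) * Λ ^ (3 * (Fintype.card ι - 2)) *
        q ^ (2 * (Fintype.card ι - 2)) := by
  classical
  have hL0 : (0 : ℝ) ≤ Λ := zero_le_one.trans hE.one_le_L
  have hji : j ≠ i := by rw [← hij]; exact (hσ i).1
  -- the involution
  have hττ : ∀ v, (σ ((σ (v, 1)).1, 1)).1 = v := fun v => (hσ v).2.2
  have hτi : ∀ v, v ≠ i → v ≠ j → (σ (v, 1)).1 ≠ i ∧ (σ (v, 1)).1 ≠ j := by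
    intro v hi hj
    refine ⟨fun h => hj ?_, fun h => hi ?_⟩
    · rw [← hττ v, h, hij]
    · have h1 := hττ v
      rw [h] at h1
      have h2 := hττ i
      rw [hij] at h2
      rw [← h1, h2]
  let τ : {v : ι // v ≠ i ∧ v ≠ j} → {v : ι // v ≠ i ∧ v ≠ j} := fun v =>
    ⟨(σ (v.1, 1)).1, hτi v.1 v.2.1 v.2.2⟩
  have hτne : ∀ v, τ v ≠ v := by
    intro v h
    exact (hσ v.1).1 (congrArg Subtype.val h)
  have hcard : Fintype.card {v : ι // v ≠ i ∧ v ≠ j} = Fintype.card ι - 2 := by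
    rw [Fintype.card_subtype]
    have : (univ.filter (fun v : ι => v ≠ i ∧ v ≠ j)) = (univ.erase i).erase j := by
      ext v; simp [and_comm]
    rw [this, Finset.card_erase_of_mem, Finset.card_erase_of_mem (Finset.mem_univ _),
      Finset.card_univ]
    · omega
    · exact Finset.mem_erase.2 ⟨hji, Finset.mem_univ _⟩
  have hScard : S.card ≤ 2 * (Fintype.card ι - 2) := by
    have hsub : S ⊆ (univ.filter (fun v : ι => v ≠ i ∧ v ≠ j)) ×ˢ (univ : Finset (Fin 2)) := by
      intro p hp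
      rw [Finset.mem_product, Finset.mem_filter]
      exact ⟨⟨Finset.mem_univ _, (hS p hp).1, (hS p hp).2.1⟩, Finset.mem_univ _⟩
    have h1 := Finset.card_le_card hsub
    rw [Finset.card_product, Finset.card_univ, Fintype.card_fin,
      ← Fintype.card_subtype, hcard] at h1
    omega
  -- pointwise
  have hpt : ∀ e' : {v : ι // v ≠ i ∧ v ≠ j} → E,
      |∏ p ∈ S, MM K (glue i j x y e') p (σ p)| ≤ Λ ^ (2 * (Fintype.card ι - 2)) *
        ∏ v, ((w (e' v) (e' (τ v)) + wo (e' v)) * (w (e' v) (e' (τ v)) + wo (e' v))) := by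
    intro e'
    set e : ι → E := glue i j x y e' with he
    have hev : ∀ v : {v : ι // v ≠ i ∧ v ≠ j}, e v.1 = e' v := by
      intro v
      rw [he]
      unfold glue
      rw [dif_pos v.2]
    have hR : ∀ v : {v : ι // v ≠ i ∧ v ≠ j}, F6b_r w wo e σ (v.1, 1) =
        w (e' v) (e' (τ v)) + wo (e' v) := by
      intro v
      rw [F6b_r_one, hev v]
      have : e (σ (v.1, 1)).1 = e' (τ v) := hev (τ v)
      rw [this]
    rw [Finset.abs_prod]
    have h1 : ∏ p ∈ S, |MM K e p (σ p)| ≤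
        ∏ p ∈ S, (Λ * F6b_r w wo e σ p * F6b_r w wo e σ (σ p)) :=
      Finset.prod_le_prod (fun p _ => abs_nonneg _) (fun p _ => F6b_entry hE e σ hσ p)
    refine h1.trans ?_
    rw [Finset.prod_mul_distrib, Finset.prod_mul_distrib, Finset.prod_const, mul_assoc]
    have h2 : ∏ p ∈ S, F6b_r w wo e σ p = ∏ v, (w (e' v) (e' (τ v)) + wo (e' v)) := by
      rw [← Finset.prod_congr rfl (fun v _ => hR v)]
      rw [← Finset.prod_image (s := univ)
        (g := fun v : {v : ι // v ≠ i ∧ v ≠ j} => ((v.1, (1 : Fin 2)) : ι × Fin 2))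
        (f := fun p => F6b_r w wo e σ p)]
      · symm
        refine Finset.prod_subset ?_ ?_
        · intro p hp
          obtain ⟨v, _, rfl⟩ := Finset.mem_image.1 hp
          exact (hS' v.1 v.2.1 v.2.2).1
        · rintro ⟨v, l⟩ hp hn
          rcases (show l = 0 ∨ l = 1 by omega) with rfl | rfl
          · exact F6b_r_zero _ _ _ _ _
          · exfalso
            apply hn
            exact Finset.mem_image.2 ⟨⟨v, (hS _ hp).1, (hS _ hp).2.1⟩, Finset.mem_univ _, rfl⟩
      · intro v _ v' _ h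
        exact Subtype.ext (congrArg Prod.fst h)
    have h3 : ∏ p ∈ S, F6b_r w wo e σ (σ p) = ∏ v, (w (e' v) (e' (τ v)) + wo (e' v)) := by
      have hR' : ∀ v : {v : ι // v ≠ i ∧ v ≠ j}, F6b_r w wo e σ (σ (σ⁻¹ (v.1, 1))) =
          w (e' v) (e' (τ v)) + wo (e' v) := by
        intro v
        have h0 : σ (σ⁻¹ (v.1, 1)) = (v.1, 1) := σ.apply_symm_apply _
        rw [h0]
        exact hR v
      rw [← Finset.prod_congr rfl (fun v _ => hR' v)]
      rw [← Finset.prod_image (s := univ)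
        (g := fun v : {v : ι // v ≠ i ∧ v ≠ j} => (σ⁻¹ ((v.1, (1 : Fin 2)) : ι × Fin 2)))
        (f := fun p => F6b_r w wo e σ (σ p))]
      · symm
        refine Finset.prod_subset ?_ ?_
        · intro p hp
          obtain ⟨v, _, rfl⟩ := Finset.mem_image.1 hp
          exact (hS' v.1 v.2.1 v.2.2).2
        · intro p hp hn
          generalize hq : σ p = p'
          obtain ⟨u, m⟩ := p'
          rcases (show m = 0 ∨ m = 1 by omega) with rfl | rfl
          · exact F6b_r_zero _ _ _ _ _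
          · exfalso
            apply hn
            have h4 := (hS p hp).2.2
            rw [hq] at h4
            refine Finset.mem_image.2 ⟨⟨u, h4.1, h4.2⟩, Finset.mem_univ _, ?_⟩
            show σ⁻¹ (u, 1) = p
            rw [← hq]
            exact σ.symm_apply_apply _
      · intro v _ v' _ h
        exact Subtype.ext (congrArg Prod.fst (σ⁻¹.injective h))
    rw [h2, h3, ← Finset.prod_mul_distrib]
    refine mul_le_mul_of_nonneg_right (pow_le_pow_right₀ hE.one_le_L hScard) ?_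
    exact Finset.prod_nonneg (fun v _ => mul_self_nonneg _)
  refine (Finset.sum_le_sum (fun e' _ => hpt e')).trans ?_
  rw [← Finset.mul_sum]
  have h5 := F6b_items (K := K) (wb := wb) (q := q) hE τ hτne
  rw [hcard] at h5
  refine (mul_le_mul_of_nonneg_left h5 (pow_nonneg hL0 _)).trans (le_of_eq ?_)
  have h6 : 3 * (Fintype.card ι - 2) = 2 * (Fintype.card ι - 2) + (Fintype.card ι - 2) := by ring
  rw [h6, pow_add]
  ring

end SND
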