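import Pool.Agent.SND.Defs
import Pool.Agent.SND.F5a
import Pool.Agent.SND.F6a
import Pool.Agent.SND.F6b

open Finset Equiv

namespace SND

variable {E : Type} [Fintype E] {K : Kern E} {w : E → E → ℝ} {wo wb : E → ℝ} {q Λ : ℝ}
variable {ι : Type} [Fintype ι] [DecidableEq ι]

/-- the remaining rows -/
def F7a_S (i j : ι) (q₀ : ι × Fin 2) : Finset (ι × Fin 2) :=
  univ.filter (fun p => p.1 ≠ i ∧ p.1 ≠ j ∧ p ≠ q₀)

theorem F7a_prod (i j : ι) (hij : i ≠ j) (q₀ : ι × Fin 2) (hi : q₀.1 ≠ i) (hj : q₀.1 ≠ j)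
    (f : ι × Fin 2 → ℝ) :
    ∏ p, f p = f (i, 0) * f (i, 1) * f (j, 0) * f (j, 1) * f q₀ * ∏ p ∈ F7a_S i j q₀, f p := by
  obtain ⟨l, c⟩ := q₀
  have hi' : l ≠ i := hi
  have hj' : l ≠ j := hj
  let T : Finset (ι × Fin 2) := {(i, 0), (i, 1), (j, 0), (j, 1), (l, c)}
  have hT : ∏ p ∈ T, f p = f (i, 0) * f (i, 1) * f (j, 0) * f (j, 1) * f (l, c) := by
    rw [Finset.prod_insert, Finset.prod_insert, Finset.prod_insert, Finset.prod_insert,
      Finset.prod_singleton]
    · ring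
    · simp [hj'.symm]
    · simp [hj'.symm]
    · simp [hij, hi'.symm]
    · simp [hij, hi'.symm]
  have hS : F7a_S i j (l, c) = univ \ T := by
    ext ⟨a, b⟩
    simp only [F7a_S, T, mem_filter, mem_univ, true_and, mem_sdiff, mem_insert, mem_singleton,
      Prod.mk.injEq, ne_eq, not_or, not_and]
    constructor
    · rintro ⟨h1, h2, h3⟩
      exact ⟨fun h => absurd h h1, fun h => absurd h h1, fun h => absurd h h2,
        fun h => absurd h h2, h3⟩
    · rintro ⟨h1, h2, h3, h4, h5⟩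
      refine ⟨fun h => ?_, fun h => ?_, h5⟩
      · have a1 := h1 h
        have a2 := h2 h
        revert a1 a2
        fin_cases b <;> simp
      · have a1 := h3 h
        have a2 := h4 h
        revert a1 a2
        fin_cases b <;> simp
  rw [hS, ← hT, mul_comm, Finset.prod_sdiff (Finset.subset_univ T)]

/-- structure of a permutation of class `A` -/
theorem F7a_str (hι : 3 ≤ Fintype.card ι) (σ : Perm (ι × Fin 2)) (hC : Cn σ) (hF : FPs σ)
    (i j : ι) (hA : cA i j σ) : i ≠ j ∧ ∃ l l' : ι, l ≠ i ∧ l ≠ j ∧ l' ≠ i ∧ l' ≠ j ∧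
      σ (i, 0) = (l', 0) ∧ σ (l, 0) = (j, 0) := by
  obtain ⟨h1, h2, h3⟩ := hA
  have hij : i ≠ j := by
    have := (hF i).1
    rw [h1] at this
    exact this.symm
  rcases hp : σ (i, 0) with ⟨l', c'⟩
  have hne1 : ((l', c') : ι × Fin 2) ≠ (j, 1) := by
    intro h; have := σ.injective (hp.trans (h.trans h1.symm)); simp at this
  have hne2 : ((l', c') : ι × Fin 2) ≠ (i, 0) := by
    intro h; have := σ.injective (hp.trans (h.trans h2.symm)); simp at this
  have hne3 : ((l', c') : ι × Fin 2) ≠ (i, 1) := by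
    intro h; have := σ.injective (hp.trans (h.trans h3.symm)); simp [hij] at this
  have hne4 : ((l', c') : ι × Fin 2) ≠ (j, 0) := by
    intro h
    have hinv := hC {i, j} ⟨i, by simp⟩ (by
      rintro ⟨a, b⟩ hab
      simp only [Set.mem_insert_iff, Set.mem_singleton_iff] at hab ⊢
      rcases hab with rfl | rfl
      · fin_cases b
        · right; change (σ (a, 0)).1 = j; rw [hp, h]
        · right; change (σ (a, 1)).1 = j; rw [h1]
      · fin_cases b
        · left; change (σ (a, 0)).1 = i; rw [h3]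
        · left; change (σ (a, 1)).1 = i; rw [h2])
    have hle : Fintype.card ι ≤ 2 := by
      have h5 : (univ : Finset ι) ⊆ {i, j} := by
        intro a _
        have : a ∈ ({i, j} : Set ι) := by rw [hinv]; trivial
        simpa using this
      have := Finset.card_le_card h5
      rw [Finset.card_univ] at this
      exact this.trans Finset.card_le_two
    omega
  have hl'i : l' ≠ i := by
    rintro rfl
    revert hne2 hne3
    fin_cases c' <;> simp
  have hl'j : l' ≠ j := by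
    rintro rfl
    revert hne1 hne4
    fin_cases c' <;> simp
  have hc' : c' = 0 := by
    by_contra hc
    have hc1 : c' = 1 := by revert hc; fin_cases c' <;> simp
    subst hc1
    obtain ⟨-, g2, g3⟩ := hF l'
    have g4 : σ⁻¹ (l', 1) = (i, 0) := by rw [← hp]; simp
    rw [g4] at g2
    rw [← g2] at g3
    change (σ (i, 1)).1 = l' at g3
    rw [h1] at g3
    exact hl'j g3.symm
  rcases hq : σ⁻¹ (j, 0) with ⟨l, c⟩
  have hq' : σ (l, c) = (j, 0) := by rw [← hq]; simp
  have hli : l ≠ i := by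
    rintro rfl
    revert hq'
    fin_cases c
    · intro hq'
      have : σ (l, 0) = (j, 0) := hq'
      rw [hp] at this
      exact hne4 this
    · intro hq'
      have : σ (l, 1) = (j, 0) := hq'
      rw [h1] at this
      simp at this
  have hlj : l ≠ j := by
    rintro rfl
    revert hq'
    fin_cases c
    · intro hq'
      have : σ (l, 0) = (l, 0) := hq'
      rw [h3] at this
      simp at this
    · intro hq'
      have : σ (l, 1) = (l, 0) := hq'
      rw [h2] at this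
      simp only [Prod.mk.injEq, and_true] at this
      exact hij this
  have hc : c = 0 := by
    by_contra hc
    have hc1 : c = 1 := by revert hc; fin_cases c <;> simp
    subst hc1
    obtain ⟨-, -, g3⟩ := hF l
    rw [hq'] at g3
    change (σ (j, 1)).1 = l at g3
    rw [h2] at g3
    exact hli g3.symm
  subst hc hc'
  exact ⟨hij, l, l', hli, hlj, hl'i, hl'j, rfl, hq'⟩

theorem F7a_glue_i (i j : ι) (x y : E) (e' : {v : ι // v ≠ i ∧ v ≠ j} → E) :
    glue i j x y e' i = x := by simp [glue]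

theorem F7a_glue_j (i j : ι) (hij : i ≠ j) (x y : E) (e' : {v : ι // v ≠ i ∧ v ≠ j} → E) :
    glue i j x y e' j = y := by simp [glue, hij.symm]

theorem F7a_glue_v (i j : ι) (x y : E) (e' : {v : ι // v ≠ i ∧ v ≠ j} → E) (v : ι)
    (hi : v ≠ i) (hj : v ≠ j) : glue i j x y e' v = e' ⟨v, hi, hj⟩ := by simp [glue, hi, hj]

/-- the common factor -/
noncomputable def F7a_R (K : Kern E) (σ : Perm (ι × Fin 2)) (i j l : ι) (e : ι → E) : ℝ :=
  ∏ p ∈ F7a_S i j (l, 0), MM K e p (σ p)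

theorem F7a_key (hE : Est K w wo wb q Λ) (σ : Perm (ι × Fin 2)) (i j : ι) (hA : cA i j σ)
    (hij : i ≠ j) (l l' : ι) (hli : l ≠ i) (hlj : l ≠ j) (hl'i : l' ≠ i) (hl'j : l' ≠ j)
    (hp : σ (i, 0) = (l', 0)) (hq : σ (l, 0) = (j, 0)) (e : ι → E) :
    PP K e σ - PP K e (swap (i, 0) (i, 1) * σ) +
        PP K e (swap (i, 0) (j, 0) * (swap (i, 0) (i, 1) * σ)) =
      F7a_R K σ i j l e * (K.a (e i) (e l') *
        (K.d (e i) (e j) * K.b (e i) (e j) * K.b (e j) (e i) * K.a (e l) (e j) -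
          K.d (e i) (e j) ^ 2 * K.a (e i) (e j) * K.a (e l) (e j) +
          K.d (e i) (e j) ^ 2 * K.g (e j) * K.a (e l) (e i))) := by
  obtain ⟨h1, h2, h3⟩ := hA
  have s1 : ∀ p, (swap (i, 0) (i, 1) * σ : Perm (ι × Fin 2)) p = swap (i, 0) (i, 1) (σ p) :=
    fun p => rfl
  have s2 : ∀ p, (swap (i, 0) (j, 0) * (swap (i, 0) (i, 1) * σ) : Perm (ι × Fin 2)) p =
    swap (i, 0) (j, 0) (swap (i, 0) (i, 1) (σ p)) := fun p => rfl
  have hS : ∀ p ∈ F7a_S i j (l, 0), σ p ≠ (i, 0) ∧ σ p ≠ (i, 1) ∧ σ p ≠ (j, 0) := by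
    intro p hp
    simp only [F7a_S, mem_filter, mem_univ, true_and] at hp
    refine ⟨?_, ?_, ?_⟩
    · rw [← h2]; intro h
      have := σ.injective h
      exact hp.2.1 (by rw [this])
    · rw [← h3]; intro h
      have := σ.injective h
      exact hp.2.1 (by rw [this])
    · rw [← hq]; intro h
      exact hp.2.2 (σ.injective h)
  have R1 : ∏ p ∈ F7a_S i j (l, 0), MM K e p ((swap (i, 0) (i, 1) * σ : Perm (ι × Fin 2)) p) =
      F7a_R K σ i j l e := by
    refine Finset.prod_congr rfl fun p hp => ?_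
    obtain ⟨g1, g2, g3⟩ := hS p hp
    rw [s1, swap_apply_of_ne_of_ne g1 g2]
  have R2 : ∏ p ∈ F7a_S i j (l, 0),
      MM K e p ((swap (i, 0) (j, 0) * (swap (i, 0) (i, 1) * σ) : Perm (ι × Fin 2)) p) =
      F7a_R K σ i j l e := by
    refine Finset.prod_congr rfl fun p hp => ?_
    obtain ⟨g1, g2, g3⟩ := hS p hp
    rw [s2, swap_apply_of_ne_of_ne g1 g2, swap_apply_of_ne_of_ne g1 g3]
  have P0 : PP K e σ = K.a (e i) (e l') * K.d (e i) (e j) * K.b (e j) (e i) *
      K.b (e i) (e j) * K.a (e l) (e j) * F7a_R K σ i j l e := by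
    rw [PP, F7a_prod i j hij (l, 0) hli hlj, hp, h1, h2, h3, hq]
    simp only [MM, hij, hij.symm, hlj, hl'i.symm, decide_false, ent]
    rfl
  have P1 : PP K e (swap (i, 0) (i, 1) * σ) = K.a (e i) (e l') * K.d (e i) (e j) *
      K.a (e j) (e i) * K.d (e j) (e i) * K.a (e l) (e j) * F7a_R K σ i j l e := by
    rw [PP, F7a_prod i j hij (l, 0) hli hlj, R1, s1, s1, s1, s1, s1, hp, h1, h2, h3, hq]
    have t1 : swap ((i, 0) : ι × Fin 2) (i, 1) (l', 0) = (l', 0) :=
      swap_apply_of_ne_of_ne (by simp [hl'i]) (by simp)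
    have t2 : swap ((i, 0) : ι × Fin 2) (i, 1) (j, 1) = (j, 1) :=
      swap_apply_of_ne_of_ne (by simp) (by simp [hij.symm])
    have t3 : swap ((i, 0) : ι × Fin 2) (i, 1) (i, 1) = (i, 0) := swap_apply_right _ _
    have t4 : swap ((i, 0) : ι × Fin 2) (i, 1) (i, 0) = (i, 1) := swap_apply_left _ _
    have t5 : swap ((i, 0) : ι × Fin 2) (i, 1) (j, 0) = (j, 0) :=
      swap_apply_of_ne_of_ne (by simp [hij.symm]) (by simp)
    rw [t1, t2, t3, t4, t5]
    simp only [MM, hij, hij.symm, hlj, hl'i.symm, decide_false, ent]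
  have P2 : PP K e (swap (i, 0) (j, 0) * (swap (i, 0) (i, 1) * σ)) =
      K.a (e i) (e l') * K.d (e i) (e j) * K.g (e j) * K.d (e j) (e i) * K.a (e l) (e i) *
        F7a_R K σ i j l e := by
    rw [PP, F7a_prod i j hij (l, 0) hli hlj, R2, s2, s2, s2, s2, s2, hp, h1, h2, h3, hq]
    have t1 : swap ((i, 0) : ι × Fin 2) (i, 1) (l', 0) = (l', 0) :=
      swap_apply_of_ne_of_ne (by simp [hl'i]) (by simp)
    have t2 : swap ((i, 0) : ι × Fin 2) (i, 1) (j, 1) = (j, 1) :=
      swap_apply_of_ne_of_ne (by simp) (by simp [hij.symm])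
    have t3 : swap ((i, 0) : ι × Fin 2) (i, 1) (i, 1) = (i, 0) := swap_apply_right _ _
    have t4 : swap ((i, 0) : ι × Fin 2) (i, 1) (i, 0) = (i, 1) := swap_apply_left _ _
    have t5 : swap ((i, 0) : ι × Fin 2) (i, 1) (j, 0) = (j, 0) :=
      swap_apply_of_ne_of_ne (by simp [hij.symm]) (by simp)
    have u1 : swap ((i, 0) : ι × Fin 2) (j, 0) (l', 0) = (l', 0) :=
      swap_apply_of_ne_of_ne (by simp [hl'i]) (by simp [hl'j])
    have u2 : swap ((i, 0) : ι × Fin 2) (j, 0) (j, 1) = (j, 1) :=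
      swap_apply_of_ne_of_ne (by simp) (by simp)
    have u3 : swap ((i, 0) : ι × Fin 2) (j, 0) (i, 0) = (j, 0) := swap_apply_left _ _
    have u4 : swap ((i, 0) : ι × Fin 2) (j, 0) (i, 1) = (i, 1) :=
      swap_apply_of_ne_of_ne (by simp) (by simp)
    have u5 : swap ((i, 0) : ι × Fin 2) (j, 0) (j, 0) = (i, 0) := swap_apply_right _ _
    rw [t1, t2, t3, t4, t5, u1, u2, u3, u4, u5]
    simp only [MM, hij, hij.symm, hli, hl'i.symm, decide_false, decide_true, ent]
  rw [P0, P1, P2, hE.d_symm (e j) (e i), hE.a_symm (e j) (e i)]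
  ring

/-- ROW SND-F7a. The contribution of a permutation of class `A` and of its two companions. -/
theorem classA_le (hE : Est K w wo wb q Λ) (hι : 3 ≤ Fintype.card ι) (σ : Perm (ι × Fin 2))
    (hC : Cn σ) (hF : FPs σ) (i j : ι) (hA : cA i j σ) :
    |FF K σ - FF K (swap (i, 0) (i, 1) * σ) +
        FF K (swap (i, 0) (j, 0) * (swap (i, 0) (i, 1) * σ))| ≤
      18 * 4 ^ Fintype.card ι * Λ ^ (3 * Fintype.card ι + 2) * q ^ (2 * Fintype.card ι - 2) := by
  obtain ⟨hij, l, l', hli, hlj, hl'i, hl'j, hp, hq⟩ := F7a_str hι σ hC hF i j hA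
  have hq1 := hE.one_le_q
  have hL1 := hE.one_le_L
  have hL0 : 0 < Λ := by linarith
  have hq0 : 0 < q := by linarith
  rcases isEmpty_or_nonempty E with hemp | ⟨⟨x₀⟩⟩
  · have : Nonempty ι := ⟨i⟩
    have h0 : ∀ τ : Perm (ι × Fin 2), FF K τ = 0 := by
      intro τ
      have : IsEmpty (ι → E) := ⟨fun e => hemp.elim (e i)⟩
      simp [FF]
    rw [h0, h0, h0]
    simp only [sub_zero, add_zero, abs_zero]
    positivity
  -- the common factor only depends on `e'`
  have hSσ : ∀ p ∈ F7a_S i j (l, 0), p.1 ≠ i ∧ p.1 ≠ j ∧ (σ p).1 ≠ i ∧ (σ p).1 ≠ j := by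
    intro p hpS
    simp only [F7a_S, mem_filter, mem_univ, true_and] at hpS
    obtain ⟨h1, h2, h3⟩ := hA
    refine ⟨hpS.1, hpS.2.1, ?_, ?_⟩
    · intro h
      rcases hs : σ p with ⟨a, b⟩
      rw [hs] at h
      change a = i at h
      subst h
      have hb : b = 0 ∨ b = 1 := by fin_cases b <;> simp
      rcases hb with rfl | rfl
      · have := σ.injective (hs.trans h2.symm)
        exact hpS.2.1 (by rw [this])
      · have := σ.injective (hs.trans h3.symm)
        exact hpS.2.1 (by rw [this])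
    · intro h
      rcases hs : σ p with ⟨a, b⟩
      rw [hs] at h
      change a = j at h
      subst h
      have hb : b = 0 ∨ b = 1 := by fin_cases b <;> simp
      rcases hb with rfl | rfl
      · exact hpS.2.2 (σ.injective (hs.trans hq.symm))
      · have := σ.injective (hs.trans h1.symm)
        exact hpS.1 (by rw [this])
  have hS' : ∀ v, v ≠ i → v ≠ j → (v, (1 : Fin 2)) ∈ F7a_S i j (l, 0) ∧
      σ⁻¹ (v, 1) ∈ F7a_S i j (l, 0) := by
    intro v hvi hvj
    obtain ⟨h1, h2, h3⟩ := hA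
    constructor
    · simp [F7a_S, hvi, hvj]
    · rcases hs : σ⁻¹ (v, 1) with ⟨a, b⟩
      have hs' : σ (a, b) = (v, 1) := by rw [← hs]; simp
      simp only [F7a_S, mem_filter, mem_univ, true_and]
      have hb : b = 0 ∨ b = 1 := by fin_cases b <;> simp
      refine ⟨?_, ?_, ?_⟩
      · rintro h
        change a = i at h
        subst h
        rcases hb with rfl | rfl
        · rw [hp] at hs'; simp at hs'
        · rw [h1] at hs'
          simp only [Prod.mk.injEq, and_true] at hs'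
          exact hvj hs'.symm
      · rintro h
        change a = j at h
        subst h
        rcases hb with rfl | rfl
        · rw [h3] at hs'
          simp only [Prod.mk.injEq, and_true] at hs'
          exact hvi hs'.symm
        · rw [h2] at hs'; simp at hs'
      · intro h
        rw [h, hq] at hs'
        simp at hs'
  have hR : ∀ x y e', F7a_R K σ i j l (glue i j x y e') = F7a_R K σ i j l (glue i j x₀ x₀ e') := by
    intro x y e'
    refine Finset.prod_congr rfl fun p hpS => ?_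
    obtain ⟨g1, g2, g3, g4⟩ := hSσ p hpS
    simp only [MM]
    rw [F7a_glue_v i j x y e' _ g1 g2, F7a_glue_v i j x y e' _ g3 g4,
      F7a_glue_v i j x₀ x₀ e' _ g1 g2, F7a_glue_v i j x₀ x₀ e' _ g3 g4]
  set T : E → E → E → ℝ := fun x y z => K.d x y * K.b x y * K.b y x * K.a z y -
    K.d x y ^ 2 * K.a x y * K.a z y + K.d x y ^ 2 * K.g y * K.a z x with hT
  have main : FF K σ - FF K (swap (i, 0) (i, 1) * σ) +
        FF K (swap (i, 0) (j, 0) * (swap (i, 0) (i, 1) * σ)) =
      ∑ e' : {v : ι // v ≠ i ∧ v ≠ j} → E, F7a_R K σ i j l (glue i j x₀ x₀ e') *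
        ∑ x, K.a x (e' ⟨l', hl'i, hl'j⟩) * ∑ y, T x y (e' ⟨l, hli, hlj⟩) := by
    have h1 : FF K σ - FF K (swap (i, 0) (i, 1) * σ) +
        FF K (swap (i, 0) (j, 0) * (swap (i, 0) (i, 1) * σ)) =
        ∑ e : ι → E, (PP K e σ - PP K e (swap (i, 0) (i, 1) * σ) +
        PP K e (swap (i, 0) (j, 0) * (swap (i, 0) (i, 1) * σ))) := by
      rw [Finset.sum_add_distrib, Finset.sum_sub_distrib]
      rfl
    rw [h1, sum_glue i j hij]
    refine Finset.sum_congr rfl fun e' _ => ?_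
    rw [Finset.mul_sum]
    refine Finset.sum_congr rfl fun x _ => ?_
    rw [Finset.mul_sum, Finset.mul_sum]
    refine Finset.sum_congr rfl fun y _ => ?_
    rw [F7a_key hE σ i j hA hij l l' hli hlj hl'i hl'j hp hq, hR, F7a_glue_i,
      F7a_glue_j i j hij, F7a_glue_v i j x y e' l hli hlj, F7a_glue_v i j x y e' l' hl'i hl'j]
  rw [main]
  have hin : ∀ z z' : E, |∑ x, K.a x z' * ∑ y, T x y z| ≤ 18 * Λ ^ 7 * q ^ 2 := by
    intro z z'
    calc |∑ x, K.a x z' * ∑ y, T x y z| ≤ ∑ x, |K.a x z' * ∑ y, T x y z| :=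
          Finset.abs_sum_le_sum_abs _ _
      _ ≤ ∑ x, Λ * (6 * Λ ^ 5 * (wo x + wb x + w x z)) := by
          refine Finset.sum_le_sum fun x _ => ?_
          rw [abs_mul]
          exact mul_le_mul (hE.a_le x z') (ineqA hE x z) (abs_nonneg _) hL0.le
      _ = 6 * Λ ^ 6 * (∑ x, wo x + ∑ x, wb x + ∑ x, w x z) := by
          rw [← Finset.sum_add_distrib, ← Finset.sum_add_distrib, Finset.mul_sum]
          refine Finset.sum_congr rfl fun x _ => ?_
          ring
      _ ≤ 6 * Λ ^ 6 * (Λ * q ^ 2 + Λ * q ^ 2 + Λ * q ^ 2) := by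
          have a1 := hE.sum_wo
          have a2 := hE.sum_wb
          have a3 := hE.sum_w z
          have a4 : 0 ≤ 6 * Λ ^ 6 := by positivity
          exact mul_le_mul_of_nonneg_left (by linarith) a4
      _ = 18 * Λ ^ 7 * q ^ 2 := by ring
  have hrest := rest_le hE σ hF i j (by rw [hA.1]) (F7a_S i j (l, 0)) hSσ hS' x₀ x₀
  calc |∑ e' : {v : ι // v ≠ i ∧ v ≠ j} → E, F7a_R K σ i j l (glue i j x₀ x₀ e') *
        ∑ x, K.a x (e' ⟨l', hl'i, hl'j⟩) * ∑ y, T x y (e' ⟨l, hli, hlj⟩)|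
      ≤ ∑ e' : {v : ι // v ≠ i ∧ v ≠ j} → E, |F7a_R K σ i j l (glue i j x₀ x₀ e')| *
        (18 * Λ ^ 7 * q ^ 2) := by
        refine (Finset.abs_sum_le_sum_abs _ _).trans (Finset.sum_le_sum fun e' _ => ?_)
        rw [abs_mul]
        exact mul_le_mul_of_nonneg_left (hin _ _) (abs_nonneg _)
    _ = (∑ e' : {v : ι // v ≠ i ∧ v ≠ j} → E, |F7a_R K σ i j l (glue i j x₀ x₀ e')|) *
        (18 * Λ ^ 7 * q ^ 2) := by rw [Finset.sum_mul]
    _ ≤ (4 ^ (Fintype.card ι - 2) * Λ ^ (3 * (Fintype.card ι - 2)) *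
        q ^ (2 * (Fintype.card ι - 2))) * (18 * Λ ^ 7 * q ^ 2) := by
        exact mul_le_mul_of_nonneg_right hrest (by positivity)
    _ ≤ 18 * 4 ^ Fintype.card ι * Λ ^ (3 * Fintype.card ι + 2) *
        q ^ (2 * Fintype.card ι - 2) := by
        obtain ⟨m, hm⟩ : ∃ m, Fintype.card ι = m + 2 := ⟨Fintype.card ι - 2, by omega⟩
        rw [hm]
        have e1 : m + 2 - 2 = m := by omega
        have e2 : 2 * (m + 2) - 2 = 2 * m + 2 := by omega
        rw [e1, e2]
        have b1 : (4 : ℝ) ^ m ≤ 4 ^ (m + 2) := pow_le_pow_right₀ (by norm_num) (by omega)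
        have b2 : Λ ^ (3 * m + 7) ≤ Λ ^ (3 * (m + 2) + 2) := pow_le_pow_right₀ hL1 (by omega)
        have e3 : 4 ^ m * Λ ^ (3 * m) * q ^ (2 * m) * (18 * Λ ^ 7 * q ^ 2) =
            18 * (4 ^ m * Λ ^ (3 * m + 7)) * q ^ (2 * m + 2) := by ring
        rw [e3]
        have b3 : (4 : ℝ) ^ m * Λ ^ (3 * m + 7) ≤ 4 ^ (m + 2) * Λ ^ (3 * (m + 2) + 2) :=
          mul_le_mul b1 b2 (by positivity) (by positivity)
        have e4 : 18 * 4 ^ (m + 2) * Λ ^ (3 * (m + 2) + 2) * q ^ (2 * m + 2) =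
            18 * (4 ^ (m + 2) * Λ ^ (3 * (m + 2) + 2)) * q ^ (2 * m + 2) := by ring
        rw [e4]
        exact mul_le_mul_of_nonneg_right (mul_le_mul_of_nonneg_left b3 (by norm_num))
          (by positivity)

end SND
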