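import Pool.Agent.SND.Defs
import Pool.Agent.SND.F5b
import Pool.Agent.SND.F6a
import Pool.Agent.SND.F6b

open Finset Equiv

namespace SND

variable {E : Type} [Fintype E] {K : Kern E} {w : E → E → ℝ} {wo wb : E → ℝ} {q Λ : ℝ}
variable {ι : Type} [Fintype ι] [DecidableEq ι]

theorem F7b_split {i j l l' : ι} (hij : i ≠ j) (hli : l ≠ i) (hlj : l ≠ j) (hli' : l' ≠ i)
    (hlj' : l' ≠ j) (hll : l ≠ l') (g : ι × Fin 2 → ℝ) :
    ∏ r, g r = g (i, 1) * g (j, 1) * g (i, 0) * g (j, 0) * g (l, 0) * g (l', 0) *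
      ∏ r ∈ univ.filter (fun r : ι × Fin 2 =>
        r.1 ≠ i ∧ r.1 ≠ j ∧ r ≠ (l, 0) ∧ r ≠ (l', 0)), g r := by
  obtain ⟨S, hS⟩ : ∃ S, S = univ.filter (fun r : ι × Fin 2 =>
    r.1 ≠ i ∧ r.1 ≠ j ∧ r ≠ (l, 0) ∧ r ≠ (l', 0)) := ⟨_, rfl⟩
  have hSm : ∀ r, r ∈ S ↔ (r.1 ≠ i ∧ r.1 ≠ j ∧ r ≠ (l, 0) ∧ r ≠ (l', 0)) := by
    intro r
    rw [hS, mem_filter]
    exact ⟨fun h => h.2, fun h => ⟨mem_univ _, h⟩⟩
  have hu : (univ : Finset (ι × Fin 2)) = insert (i, 1) (insert (j, 1) (insert (i, 0)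
      (insert (j, 0) (insert (l, 0) (insert (l', 0) S))))) := by
    ext ⟨v, c⟩
    simp only [mem_univ, mem_insert, hSm, true_iff]
    by_cases h1 : v = i
    · subst h1
      fin_cases c
      · exact Or.inr (Or.inr (Or.inl rfl))
      · exact Or.inl rfl
    by_cases h2 : v = j
    · subst h2
      fin_cases c
      · exact Or.inr (Or.inr (Or.inr (Or.inl rfl)))
      · exact Or.inr (Or.inl rfl)
    by_cases h3 : (v, c) = (l, 0)
    · exact Or.inr (Or.inr (Or.inr (Or.inr (Or.inl h3))))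
    by_cases h4 : (v, c) = (l', 0)
    · exact Or.inr (Or.inr (Or.inr (Or.inr (Or.inr (Or.inl h4)))))
    exact Or.inr (Or.inr (Or.inr (Or.inr (Or.inr (Or.inr ⟨h1, h2, h3, h4⟩)))))
  rw [← hS, hu, prod_insert, prod_insert, prod_insert, prod_insert, prod_insert, prod_insert]
  · ring
  · simp [hSm]
  · simp [hSm, Prod.ext_iff, hll]
  · simp [hSm, Prod.ext_iff, hlj.symm, hlj'.symm]
  · simp [hSm, Prod.ext_iff, hli.symm, hli'.symm, hij]
  · simp [hSm, Prod.ext_iff]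
  · simp [hSm, Prod.ext_iff, hij]

theorem F7b_MM_ne (e : ι → E) {u v : ι} (h : u ≠ v) :
    MM K e (u, 0) (v, 0) = K.a (e u) (e v) := by
  unfold MM
  simp only [h, decide_false]
  rfl

theorem F7b_MM_ne1 (e : ι → E) {u v : ι} (h : u ≠ v) :
    MM K e (u, 1) (v, 1) = K.d (e u) (e v) := by
  unfold MM
  simp only [h, decide_false]
  rfl

theorem F7b_MM_glue {i j : ι} (x y x' y' : E) (e' : {v : ι // v ≠ i ∧ v ≠ j} → E)
    (r s : ι × Fin 2) (hr : r.1 ≠ i ∧ r.1 ≠ j) (hs : s.1 ≠ i ∧ s.1 ≠ j) :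
    MM K (glue i j x y e') r s = MM K (glue i j x' y' e') r s := by
  unfold MM glue
  rw [dif_pos hr, dif_pos hs, dif_pos hr, dif_pos hs]

theorem F7b_glue_i (i j : ι) (x y : E) (e' : {v : ι // v ≠ i ∧ v ≠ j} → E) :
    glue i j x y e' i = x := by
  unfold glue
  rw [dif_neg (fun h => h.1 rfl), if_pos rfl]

theorem F7b_glue_j (i j : ι) (hij : i ≠ j) (x y : E) (e' : {v : ι // v ≠ i ∧ v ≠ j} → E) :
    glue i j x y e' j = y := by
  unfold glue
  rw [dif_neg (fun h => h.2 rfl), if_neg hij.symm]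

theorem F7b_glue_v (i j v : ι) (hv : v ≠ i ∧ v ≠ j) (x y : E)
    (e' : {v : ι // v ≠ i ∧ v ≠ j} → E) : glue i j x y e' v = e' ⟨v, hv⟩ := by
  unfold glue
  rw [dif_pos hv]

/-- ROW SND-F7b. The contribution of a permutation of class `Q` and of its companion.

Proof. As for `classA_le`: let `q = σ⁻¹ (i,0)`, `q' = σ⁻¹ (j,0)`, `p = σ (i,0)`, `p' = σ (j,0)`. All of
them are in blocks different from `i`, `j` (the rows `(i,1)`, `(j,1)`, `(i,0)`, `(j,0)` are mapped to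
`(j,1)`, `(i,1)`, `p`, `p'`), and all of them have second component `0` (same argument as in
`classA_le`, from `FPs`): `q = (l,0)`, `q' = (l',0)`, `p = (m,0)`, `p' = (m',0)`; `q ≠ q'`. With
`S = {r | r.1 ≠ i ∧ r.1 ≠ j ∧ r ≠ q ∧ r ≠ q'}`, `R = ∏_{r ∈ S} MM K e r (σ r)`, `x = e i`, `y = e j`:
`PP K e σ = d x y * d y x * a x (e m) * a y (e m') * a (e l) x * a (e l') y * R` and
`PP K e (swap (i,0) (j,0) * σ) = d x y * d y x * a x (e m) * a y (e m') * a (e l) y * a (e l') x * R`.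
By `sum_glue`, `ineqQ`, `∑_x (wo x + w x z + w x z') ≤ 3 Λ q^2`, `rest_le`: at most
`6 Λ^8 q^2 * 4^(m-2) Λ^(3 (m-2)) q^(2 (m-2))`, `m = card ι`. -/
theorem classQ_le (hE : Est K w wo wb q Λ) (hι : 3 ≤ Fintype.card ι) (σ : Perm (ι × Fin 2))
    (hC : Cn σ) (hF : FPs σ) (i j : ι) (hQ : cQ i j σ) :
    |FF K σ - FF K (swap (i, 0) (j, 0) * σ)| ≤
      18 * 4 ^ Fintype.card ι * Λ ^ (3 * Fintype.card ι + 2) * q ^ (2 * Fintype.card ι - 2) := by
  classical
  obtain ⟨h1, h2, h3i, h3j, h4i, h4j⟩ := hQ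
  have hij : i ≠ j := by
    have := (hF i).1
    rw [h1] at this
    exact this.symm
  have h10 : ∀ u v : ι, (u, (1 : Fin 2)) ≠ (v, 0) := fun u v h => by
    have := congrArg Prod.snd h
    simp at this
  have hTi : ∀ l, (σ (l, 1)).1 = i → l = j := by
    intro l hl
    have := (hF l).2.2
    rw [hl, h1] at this
    exact this.symm
  have hTj : ∀ l, (σ (l, 1)).1 = j → l = i := by
    intro l hl
    have := (hF l).2.2
    rw [hl, h2] at this
    exact this.symm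
  have hinv : ∀ r s, σ r = s → σ⁻¹ s = r := by
    rintro r s rfl
    exact σ.symm_apply_apply r
  have hinv' : ∀ s, σ (σ⁻¹ s) = s := fun s => σ.apply_symm_apply s
  obtain ⟨m, hm⟩ : ∃ m, σ (i, 0) = (m, 0) := by
    rcases h : σ (i, 0) with ⟨m, c⟩
    fin_cases c
    · exact ⟨m, rfl⟩
    · exfalso
      have h5 := (hF m).2.1
      have h6 : σ⁻¹ (m, 1) = (i, 0) := hinv _ _ h
      rw [h6] at h5
      have h7 := hTi m h5.symm
      rw [h] at h3j
      exact h3j h7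
  obtain ⟨m', hm'⟩ : ∃ m, σ (j, 0) = (m, 0) := by
    rcases h : σ (j, 0) with ⟨m, c⟩
    fin_cases c
    · exact ⟨m, rfl⟩
    · exfalso
      have h5 := (hF m).2.1
      have h6 : σ⁻¹ (m, 1) = (j, 0) := hinv _ _ h
      rw [h6] at h5
      have h7 := hTj m h5.symm
      rw [h] at h4i
      exact h4i h7
  have hmi : m ≠ i := by rw [hm] at h3i; exact h3i
  have hmj : m ≠ j := by rw [hm] at h3j; exact h3j
  have hmi' : m' ≠ i := by rw [hm'] at h4i; exact h4i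
  have hmj' : m' ≠ j := by rw [hm'] at h4j; exact h4j
  obtain ⟨l, hl⟩ : ∃ l, σ (l, 0) = (i, 0) := by
    rcases h : σ⁻¹ (i, 0) with ⟨l, c⟩
    have h5 := hinv' (i, 0)
    rw [h] at h5
    fin_cases c
    · exact ⟨l, h5⟩
    · exfalso
      have h5' : σ (l, 1) = (i, 0) := h5
      have h7 := hTi l (by rw [h5'])
      rw [h7, h2] at h5'
      exact h10 _ _ h5'
  obtain ⟨l', hl'⟩ : ∃ l, σ (l, 0) = (j, 0) := by
    rcases h : σ⁻¹ (j, 0) with ⟨l, c⟩
    have h5 := hinv' (j, 0)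
    rw [h] at h5
    fin_cases c
    · exact ⟨l, h5⟩
    · exfalso
      have h5' : σ (l, 1) = (j, 0) := h5
      have h7 := hTj l (by rw [h5'])
      rw [h7, h1] at h5'
      exact h10 _ _ h5'
  have hli : l ≠ i := by
    rintro rfl
    rw [hm] at hl
    exact hmi (congrArg Prod.fst hl)
  have hlj : l ≠ j := by
    rintro rfl
    rw [hm'] at hl
    exact hmi' (congrArg Prod.fst hl)
  have hli' : l' ≠ i := by
    rintro rfl
    rw [hm] at hl'
    exact hmj (congrArg Prod.fst hl')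
  have hlj' : l' ≠ j := by
    rintro rfl
    rw [hm'] at hl'
    exact hmj' (congrArg Prod.fst hl')
  have hll : l ≠ l' := by
    rintro rfl
    rw [hl] at hl'
    exact hij (congrArg Prod.fst hl')
  set S : Finset (ι × Fin 2) := univ.filter (fun r : ι × Fin 2 =>
    r.1 ≠ i ∧ r.1 ≠ j ∧ r ≠ (l, 0) ∧ r ≠ (l', 0)) with hSdef
  have hSm : ∀ r ∈ S, (r.1 ≠ i ∧ r.1 ≠ j) ∧ (σ r).1 ≠ i ∧ (σ r).1 ≠ j := by
    intro r hr
    obtain ⟨-, hr1, hr2, hr3, hr4⟩ := mem_filter.1 hr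
    refine ⟨⟨hr1, hr2⟩, fun h => ?_, fun h => ?_⟩
    · rcases h5 : σ r with ⟨v, c⟩
      rw [h5] at h
      have hv : v = i := h
      subst hv
      fin_cases c
      · exact hr3 (σ.injective (h5.trans hl.symm))
      · have h6 : r = (j, 1) := σ.injective (h5.trans h2.symm)
        exact hr2 (congrArg Prod.fst h6)
    · rcases h5 : σ r with ⟨v, c⟩
      rw [h5] at h
      have hv : v = j := h
      subst hv
      fin_cases c
      · exact hr4 (σ.injective (h5.trans hl'.symm))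
      · have h6 : r = (i, 1) := σ.injective (h5.trans h1.symm)
        exact hr1 (congrArg Prod.fst h6)
  have hS' : ∀ v, v ≠ i → v ≠ j → (v, (1 : Fin 2)) ∈ S ∧ σ⁻¹ (v, 1) ∈ S := by
    intro v hvi hvj
    constructor
    · rw [hSdef, mem_filter]
      refine ⟨mem_univ _, hvi, hvj, fun h => ?_, fun h => ?_⟩
      · exact h10 _ _ h
      · exact h10 _ _ h
    · have h5 := hinv' (v, 1)
      rcases h6 : σ⁻¹ (v, 1) with ⟨u, c⟩
      rw [h6] at h5
      rw [hSdef, mem_filter]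
      refine ⟨mem_univ _, fun h => ?_, fun h => ?_, fun h => ?_, fun h => ?_⟩
      · have hu : u = i := h
        subst hu
        fin_cases c
        · exact h10 _ _ (h5.symm.trans hm)
        · exact hvj (congrArg Prod.fst (h5.symm.trans h1))
      · have hu : u = j := h
        subst hu
        fin_cases c
        · exact h10 _ _ (h5.symm.trans hm')
        · exact hvi (congrArg Prod.fst (h5.symm.trans h2))
      · rw [h] at h5
        exact h10 _ _ (h5.symm.trans hl)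
      · rw [h] at h5
        exact h10 _ _ (h5.symm.trans hl')
  have hrest := fun x y => rest_le hE σ hF i j (by rw [h1]) S
    (fun p hp => ⟨(hSm p hp).1.1, (hSm p hp).1.2, (hSm p hp).2.1, (hSm p hp).2.2⟩) hS' x y
  -- the weights
  have hPσ : ∀ e : ι → E, PP K e σ = K.d (e i) (e j) * K.d (e j) (e i) * K.a (e i) (e m) *
      K.a (e j) (e m') * K.a (e l) (e i) * K.a (e l') (e j) * ∏ r ∈ S, MM K e r (σ r) := by
    intro e
    rw [PP, F7b_split hij hli hlj hli' hlj' hll, h1, h2, hm, hm', hl, hl', F7b_MM_ne1 e hij,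
      F7b_MM_ne1 e hij.symm, F7b_MM_ne e hmi.symm, F7b_MM_ne e hmj'.symm, F7b_MM_ne e hli,
      F7b_MM_ne e hlj']
  have hsw : ∀ r, (swap (i, (0 : Fin 2)) (j, 0) * σ) r = swap (i, (0 : Fin 2)) (j, 0) (σ r) :=
    fun r => rfl
  have hPσ' : ∀ e : ι → E, PP K e (swap (i, 0) (j, 0) * σ) =
      K.d (e i) (e j) * K.d (e j) (e i) * K.a (e i) (e m) *
      K.a (e j) (e m') * K.a (e l) (e j) * K.a (e l') (e i) * ∏ r ∈ S, MM K e r (σ r) := by
    intro e
    have g1 : swap (i, (0 : Fin 2)) (j, 0) (j, 1) = (j, 1) :=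
      swap_apply_of_ne_of_ne (by simp) (by simp)
    have g2 : swap (i, (0 : Fin 2)) (j, 0) (i, 1) = (i, 1) :=
      swap_apply_of_ne_of_ne (by simp) (by simp)
    have g3 : swap (i, (0 : Fin 2)) (j, 0) (m, 0) = (m, 0) :=
      swap_apply_of_ne_of_ne (by simp [hmi]) (by simp [hmj])
    have g4 : swap (i, (0 : Fin 2)) (j, 0) (m', 0) = (m', 0) :=
      swap_apply_of_ne_of_ne (by simp [hmi']) (by simp [hmj'])
    have g5 : ∀ r ∈ S, MM K e r ((swap (i, (0 : Fin 2)) (j, 0) * σ) r) = MM K e r (σ r) := by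
      intro r hr
      obtain ⟨-, h5, h6⟩ := hSm r hr
      rw [hsw, swap_apply_of_ne_of_ne]
      · exact fun h => h5 (congrArg Prod.fst h)
      · exact fun h => h6 (congrArg Prod.fst h)
    rw [PP, F7b_split hij hli hlj hli' hlj' hll, ← hSdef, prod_congr rfl g5, hsw, hsw, hsw, hsw,
      hsw, hsw, h1, h2, hm, hm', hl, hl', g1, g2, g3, g4, swap_apply_left, swap_apply_right,
      F7b_MM_ne1 e hij,
      F7b_MM_ne1 e hij.symm, F7b_MM_ne e hmi.symm, F7b_MM_ne e hmj'.symm, F7b_MM_ne e hlj,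
      F7b_MM_ne e hli']
  have hL0 : 0 ≤ Λ := le_trans zero_le_one hE.one_le_L
  have hq0 : 0 ≤ q := le_trans zero_le_one hE.one_le_q
  rcases isEmpty_or_nonempty E with hemp | ⟨⟨x0⟩⟩
  · have hz : ∀ τ : Perm (ι × Fin 2), FF K τ = 0 := by
      intro τ
      have : IsEmpty (ι → E) := ⟨fun e => hemp.elim (e i)⟩
      rw [FF, univ_eq_empty, sum_empty]
    rw [hz, hz, sub_zero, abs_zero]
    positivity
  -- the sum
  let R : ({v : ι // v ≠ i ∧ v ≠ j} → E) → ℝ := fun e' => ∏ r ∈ S, MM K (glue i j x0 x0 e') r (σ r)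
  have hR : ∀ x y e', ∏ r ∈ S, MM K (glue i j x y e') r (σ r) = R e' := by
    intro x y e'
    exact prod_congr rfl fun r hr => F7b_MM_glue x y x0 x0 e' r (σ r) (hSm r hr).1 (hSm r hr).2
  have hdiff : FF K σ - FF K (swap (i, 0) (j, 0) * σ) =
      ∑ e' : {v : ι // v ≠ i ∧ v ≠ j} → E, ∑ x, ∑ y, R e' *
        (K.d x y ^ 2 * K.a x (e' ⟨m, hmi, hmj⟩) * K.a y (e' ⟨m', hmi', hmj'⟩) *
        (K.a (e' ⟨l, hli, hlj⟩) x * K.a (e' ⟨l', hli', hlj'⟩) y -
        K.a (e' ⟨l, hli, hlj⟩) y * K.a (e' ⟨l', hli', hlj'⟩) x)) := by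
    rw [FF, FF, ← sum_sub_distrib, sum_glue i j hij]
    refine sum_congr rfl fun e' _ => sum_congr rfl fun x _ => sum_congr rfl fun y _ => ?_
    rw [hPσ, hPσ', hR, F7b_glue_i, F7b_glue_j i j hij, F7b_glue_v i j l ⟨hli, hlj⟩,
      F7b_glue_v i j l' ⟨hli', hlj'⟩, F7b_glue_v i j m ⟨hmi, hmj⟩,
      F7b_glue_v i j m' ⟨hmi', hmj'⟩, hE.d_symm y x]
    ring
  have hsum : ∀ z z' : E, ∑ x, 2 * Λ ^ 7 * (wo x + w x z + w x z') ≤ 6 * Λ ^ 8 * q ^ 2 := by
    intro z z'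
    rw [← mul_sum, sum_add_distrib, sum_add_distrib]
    have h5 := hE.sum_wo
    have h6 := hE.sum_w z
    have h7 := hE.sum_w z'
    have h8 : 0 ≤ 2 * Λ ^ 7 := by positivity
    nlinarith [mul_le_mul_of_nonneg_left (add_le_add (add_le_add h5 h6) h7) h8]
  rw [hdiff]
  have hstep : |∑ e' : {v : ι // v ≠ i ∧ v ≠ j} → E, ∑ x, ∑ y, R e' *
        (K.d x y ^ 2 * K.a x (e' ⟨m, hmi, hmj⟩) * K.a y (e' ⟨m', hmi', hmj'⟩) *
        (K.a (e' ⟨l, hli, hlj⟩) x * K.a (e' ⟨l', hli', hlj'⟩) y -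
        K.a (e' ⟨l, hli, hlj⟩) y * K.a (e' ⟨l', hli', hlj'⟩) x))| ≤
      ∑ e' : {v : ι // v ≠ i ∧ v ≠ j} → E, |R e'| * (6 * Λ ^ 8 * q ^ 2) := by
    refine (abs_sum_le_sum_abs _ _).trans (sum_le_sum fun e' _ => ?_)
    simp only [← mul_sum]
    rw [abs_mul]
    refine mul_le_mul_of_nonneg_left ?_ (abs_nonneg _)
    refine (abs_sum_le_sum_abs _ _).trans ?_
    refine le_trans (sum_le_sum fun x _ => ?_) (hsum (e' ⟨l, hli, hlj⟩) (e' ⟨l', hli', hlj'⟩))
    refine (abs_sum_le_sum_abs _ _).trans ?_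
    exact ineqQ hE x _ _ _ _
  refine hstep.trans ?_
  rw [← sum_mul]
  have hR2 : ∑ e' : {v : ι // v ≠ i ∧ v ≠ j} → E, |R e'| ≤ 4 ^ (Fintype.card ι - 2) *
      Λ ^ (3 * (Fintype.card ι - 2)) * q ^ (2 * (Fintype.card ι - 2)) := hrest x0 x0
  refine (mul_le_mul_of_nonneg_right hR2 (by positivity)).trans ?_
  obtain ⟨N, hN⟩ : ∃ N, Fintype.card ι = N + 2 := ⟨Fintype.card ι - 2, by omega⟩
  have e1 : 3 * (N + 2) + 2 = 3 * N + 8 := by ring
  have e2 : 2 * (N + 2) - 2 = 2 * N + 2 := by omega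
  rw [hN, Nat.add_sub_cancel, e1, e2, pow_add Λ (3 * N) 8, pow_add q (2 * N) 2,
    pow_add (4 : ℝ) N 2]
  have h9 : (0 : ℝ) ≤ 4 ^ N * Λ ^ (3 * N) * q ^ (2 * N) * (Λ ^ 8 * q ^ 2) := by positivity
  nlinarith [h9]

end SND
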