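import Pool.Agent.SND.Defs

open Finset Equiv

namespace SND

variable {E : Type} [Fintype E] {K : Kern E} {w : E → E → ℝ} {wo wb : E → ℝ} {q Λ : ℝ}
variable {ι : Type} [Fintype ι] [DecidableEq ι]

omit [Fintype ι] [DecidableEq ι] in
theorem F8a_rel (π : Perm ι) (p : ι × Fin 2) : rel π p = (π p.1, p.2) := rfl

omit [Fintype ι] [DecidableEq ι] in
theorem F8a_rel_inv (π : Perm ι) (p : ι × Fin 2) : (rel π)⁻¹ p = (π⁻¹ p.1, p.2) := rfl

omit [Fintype ι] [DecidableEq ι] in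
theorem F8a_ai {α : Type} (π : Perm α) (x : α) : π (π⁻¹ x) = x := Equiv.apply_symm_apply π x

omit [Fintype ι] [DecidableEq ι] in
theorem F8a_ia {α : Type} (π : Perm α) (x : α) : π⁻¹ (π x) = x := Equiv.symm_apply_apply π x

theorem F8a_MM (K : Kern E) (π : Perm ι) (e : ι → E) (p r : ι × Fin 2) :
    MM K e (rel π p) (rel π r) = MM K (e ∘ π) p r := by
  simp only [MM, F8a_rel, Function.comp, EmbeddingLike.apply_eq_iff_eq]

theorem F8a_PP (K : Kern E) (π : Perm ι) (σ : Perm (ι × Fin 2)) (e : ι → E) :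
    PP K e (rel π * σ * (rel π)⁻¹) = PP K (e ∘ π) σ := by
  rw [PP, PP, ← Equiv.prod_comp (rel π)]
  refine Finset.prod_congr rfl fun p _ => ?_
  have h : (rel π * σ * (rel π)⁻¹) (rel π p) = rel π (σ p) := by
    rw [Perm.mul_apply, Perm.mul_apply, F8a_ia]
  rw [h, F8a_MM]

/-- ROW SND-F8a. Relabelling invariance. -/
theorem FF_conj (K : Kern E) (π : Perm ι) (σ : Perm (ι × Fin 2)) :
    FF K (rel π * σ * (rel π)⁻¹) = FF K σ := by
  rw [FF, FF, ← Equiv.sum_comp (Equiv.arrowCongr π.symm (Equiv.refl E)) (fun e => PP K e σ)]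
  refine Finset.sum_congr rfl fun e _ => ?_
  exact F8a_PP K π σ e

/-- ROW SND-F8b. Relabelling preserves the two properties. -/
theorem Cn_FPs_conj (π : Perm ι) (σ : Perm (ι × Fin 2)) (hC : Cn σ) (hF : FPs σ) :
    Cn (rel π * σ * (rel π)⁻¹) ∧ FPs (rel π * σ * (rel π)⁻¹) := by
  have h1 : ∀ p, (rel π * σ * (rel π)⁻¹) p = (π (σ (π⁻¹ p.1, p.2)).1, (σ (π⁻¹ p.1, p.2)).2) :=
    fun p => rfl
  have h2 : ∀ p, (rel π * σ * (rel π)⁻¹)⁻¹ p =
      (π (σ⁻¹ (π⁻¹ p.1, p.2)).1, (σ⁻¹ (π⁻¹ p.1, p.2)).2) := by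
    intro p
    rw [mul_inv_rev, mul_inv_rev, inv_inv]
    rfl
  constructor
  · intro C hne hinv
    have h3 : π ⁻¹' C = Set.univ := by
      refine hC _ ?_ ?_
      · obtain ⟨c, hc⟩ := hne
        exact ⟨π⁻¹ c, by rw [Set.mem_preimage, F8a_ai]; exact hc⟩
      · intro p hp
        have h4 := hinv (π p.1, p.2) hp
        rw [h1] at h4
        simp only [F8a_ia] at h4
        exact h4
    ext c
    constructor
    · intro _; trivial
    · intro _
      have h5 : π⁻¹ c ∈ π ⁻¹' C := by rw [h3]; trivial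
      rw [Set.mem_preimage, F8a_ai] at h5
      exact h5
  · intro i
    obtain ⟨g1, g2, g3⟩ := hF (π⁻¹ i)
    refine ⟨?_, ?_, ?_⟩
    · rw [h1]
      intro h
      apply g1
      change π (σ (π⁻¹ i, 1)).1 = i at h
      rw [Perm.eq_inv_iff_eq]
      exact h
    · rw [h1, h2]
      change π (σ⁻¹ (π⁻¹ i, 1)).1 = π (σ (π⁻¹ i, 1)).1
      rw [g2]
    · rw [h1, h1]
      change π (σ (π⁻¹ (π (σ (π⁻¹ i, 1)).1), 1)).1 = i
      rw [F8a_ia, g3, F8a_ai]

end SND
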