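import Pool.Agent.SND.Defs

open Finset Equiv

namespace SND

variable {E : Type} [Fintype E] {K : Kern E} {w : E → E → ℝ} {wo wb : E → ℝ} {q Λ : ℝ}
variable {ι : Type} [Fintype ι] [DecidableEq ι]

/-- ROW SND-F8c. Classification of the fully paired connected permutations.

Proof. Let `j = (σ (i,1)).1 ≠ i`. By `FPs`: `(σ⁻¹ (i,1)).1 = j`, `(σ (j,1)).1 = i`, and (`FPs` at `j`)
`(σ⁻¹ (j,1)).1 = (σ (j,1)).1 = i`. So `σ (i,1) ∈ {(j,0),(j,1)}`, `σ (j,1) ∈ {(i,0),(i,1)}`,
`σ⁻¹ (i,1) ∈ {(j,0),(j,1)}`, `σ⁻¹ (j,1) ∈ {(i,0),(i,1)}`.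
* `σ (i,1) = (j,1)`, `σ (j,1) = (i,0)`: `σ⁻¹ (i,1) = (j,0)`: `cA i j σ`.
* `σ (i,1) = (j,0)`, `σ (j,1) = (i,1)`: `σ⁻¹ (j,1) = (i,0)`: `cA j i σ`.
* `σ (i,1) = (j,0)`, `σ (j,1) = (i,0)`: then `σ (j,0) = (i,1)`, `σ (i,0) = (j,1)`, `{i,j}` is invariant:
  contradiction with `Cn σ` and `3 ≤ card ι`.
* `σ (i,1) = (j,1)`, `σ (j,1) = (i,1)`: consider `σ (i,0)` and `σ (j,0)`. Both in the blocks `i,j`
  is impossible (`{i,j}` would be invariant). If `σ (j,0) = (i,0)`: `cB i j`; `σ (j,0) = (j,0)`:
  `cC i j`; `σ (i,0) = (j,0)`: `cB j i`; `σ (i,0) = (i,0)`: `cC j i`; (the values `(i,1)`, `(j,1)`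
  are already taken); both outside: `cQ i j`. -/
theorem classify (hι : 3 ≤ Fintype.card ι) (σ : Perm (ι × Fin 2)) (hC : Cn σ) (hF : FPs σ)
    (i : ι) : ∃ j, j ≠ i ∧ (cA i j σ ∨ cA j i σ ∨ cB i j σ ∨ cB j i σ ∨ cC i j σ ∨ cC j i σ ∨
      cQ i j σ) := by
  have key : ∀ a b : ι, (∀ l, (σ (a, l)).1 = a ∨ (σ (a, l)).1 = b) →
      (∀ l, (σ (b, l)).1 = a ∨ (σ (b, l)).1 = b) → False := by
    intro a b ha hb
    have h := hC {a, b} ⟨a, by simp⟩ (by
      rintro ⟨u, l⟩ hu
      simp only [Set.mem_insert_iff, Set.mem_singleton_iff] at hu ⊢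
      rcases hu with rfl | rfl
      · exact ha l
      · exact hb l)
    have h2 : (Finset.univ : Finset ι) ⊆ {a, b} := by
      intro x _
      have : x ∈ ({a, b} : Set ι) := by rw [h]; trivial
      simpa using this
    have h3 := Finset.card_le_card h2
    rw [Finset.card_univ] at h3
    have h4 := Finset.card_le_two (a := a) (b := b)
    omega
  obtain ⟨h1, h2, h3⟩ := hF i
  set j := (σ (i, 1)).1 with hj
  obtain ⟨k1, k2, k3⟩ := hF j
  rw [h3] at k2 k1
  refine ⟨j, h1, ?_⟩
  -- second components
  have two : ∀ x : Fin 2, x = 0 ∨ x = 1 := by decide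
  have e1 : σ (i, 1) = (j, 0) ∨ σ (i, 1) = (j, 1) := by
    rcases two (σ (i, 1)).2 with h | h
    · left; exact Prod.ext rfl h
    · right; exact Prod.ext rfl h
  have e2 : σ (j, 1) = (i, 0) ∨ σ (j, 1) = (i, 1) := by
    rcases two (σ (j, 1)).2 with h | h
    · left; exact Prod.ext h3 h
    · right; exact Prod.ext h3 h
  have e3 : σ (j, 0) = (i, 1) ∨ σ (j, 1) = (i, 1) := by
    rcases two (σ⁻¹ (i, 1)).2 with h | h
    · left
      have : σ⁻¹ (i, 1) = (j, 0) := Prod.ext h2 h
      rw [← this]; simp
    · right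
      have : σ⁻¹ (i, 1) = (j, 1) := Prod.ext h2 h
      rw [← this]; simp
  have e4 : σ (i, 0) = (j, 1) ∨ σ (i, 1) = (j, 1) := by
    rcases two (σ⁻¹ (j, 1)).2 with h | h
    · left
      have : σ⁻¹ (j, 1) = (i, 0) := Prod.ext k2 h
      rw [← this]; simp
    · right
      have : σ⁻¹ (j, 1) = (i, 1) := Prod.ext k2 h
      rw [← this]; simp
  have hij : i ≠ j := fun h => h1 h.symm
  rcases e1 with e1 | e1 <;> rcases e2 with e2 | e2
  · -- both cross: closed
    exfalso
    have e3' : σ (j, 0) = (i, 1) := by
      rcases e3 with h | h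
      · exact h
      · rw [e2] at h; simp at h
    have e4' : σ (i, 0) = (j, 1) := by
      rcases e4 with h | h
      · exact h
      · rw [e1] at h; simp at h
    refine key i j ?_ ?_
    · intro l
      rcases two l with rfl | rfl
      · right; rw [e4']
      · right; rw [e1]
    · intro l
      rcases two l with rfl | rfl
      · left; rw [e3']
      · left; rw [e2]
  · right; left
    refine ⟨e2, e1, ?_⟩
    rcases e4 with h | h
    · exact h
    · rw [e1] at h; simp at h
  · left
    refine ⟨e1, e2, ?_⟩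
    rcases e3 with h | h
    · exact h
    · rw [e2] at h; simp at h
  · -- class 1
    by_cases hi : (σ (i, 0)).1 = i ∨ (σ (i, 0)).1 = j
    · -- then σ (i,0) = (i,0) or (j,0)
      have : σ (i, 0) = (i, 0) ∨ σ (i, 0) = (j, 0) := by
        rcases hi with h | h
        · rcases two (σ (i, 0)).2 with h' | h'
          · left; exact Prod.ext h h'
          · exfalso
            have h5 : σ (i, 0) = (i, 1) := Prod.ext h h'
            rw [← e2] at h5
            have := σ.injective h5
            simp at this
        · rcases two (σ (i, 0)).2 with h' | h'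
          · right; exact Prod.ext h h'
          · exfalso
            have h5 : σ (i, 0) = (j, 1) := Prod.ext h h'
            rw [← e1] at h5
            have := σ.injective h5
            simp at this
      rcases this with h | h
      · right; right; right; right; right; left
        exact ⟨e2, e1, h⟩
      · right; right; right; left
        exact ⟨e2, e1, h⟩
    · push Not at hi
      by_cases hj' : (σ (j, 0)).1 = i ∨ (σ (j, 0)).1 = j
      · have : σ (j, 0) = (i, 0) ∨ σ (j, 0) = (j, 0) := by
          rcases hj' with h | h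
          · rcases two (σ (j, 0)).2 with h' | h'
            · left; exact Prod.ext h h'
            · exfalso
              have h5 : σ (j, 0) = (i, 1) := Prod.ext h h'
              rw [← e2] at h5
              have := σ.injective h5
              simp at this
          · rcases two (σ (j, 0)).2 with h' | h'
            · right; exact Prod.ext h h'
            · exfalso
              have h5 : σ (j, 0) = (j, 1) := Prod.ext h h'
              rw [← e1] at h5
              have := σ.injective h5
              simp at this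
        rcases this with h | h
        · right; right; left
          exact ⟨e1, e2, h⟩
        · right; right; right; right; left
          exact ⟨e1, e2, h⟩
      · push Not at hj'
        right; right; right; right; right; right
        exact ⟨e1, e2, hi.1, hi.2, hj'.1, hj'.2⟩

end SND
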