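import Pool.Agent.SND.Defs

open Finset Equiv

namespace SND

variable {E : Type} [Fintype E] {K : Kern E} {w : E → E → ℝ} {wo wb : E → ℝ} {q Λ : ℝ}
variable {ι : Type} [Fintype ι] [DecidableEq ι]

/-- ROW SND-F8d. The companions stay in the set of connected fully paired permutations.

Proof. `σ₁ = swap (i,0) (i,1) * σ` only changes the two images `(i,0)`, `(i,1)`:
`σ₁ (j,1) = (i,1)`, `σ₁ (j,0) = (i,0)`. `Cn`: for `C : Set ι`, `C` is `σ`-invariant iff it is
`σ₁`-invariant, since `(σ₁ p).1 = (σ p).1` for all `p`. `FPs σ₁`: `(σ₁ (v,1)).1 = (σ (v,1)).1`, and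
`σ₁⁻¹ (v,1) = σ⁻¹ (v,1)` for `v ≠ i`, `σ₁⁻¹ (i,1) = σ⁻¹ (i,0) = (j,1)`, in block `j`.
Conversely the same for `σ = swap (i,0) (i,1) * σ₁`. -/
theorem swapAB (i j : ι) (hij : i ≠ j) (σ : Perm (ι × Fin 2)) :
    (Cn σ ∧ FPs σ ∧ cA i j σ) ↔ (Cn (swap (i, (0 : Fin 2)) (i, 1) * σ) ∧
      FPs (swap (i, (0 : Fin 2)) (i, 1) * σ) ∧ cB i j (swap (i, (0 : Fin 2)) (i, 1) * σ)) := by
  set s : Perm (ι × Fin 2) := swap (i, (0 : Fin 2)) (i, 1) with hs
  have hs1 : ∀ x : ι × Fin 2, (s x).1 = x.1 := by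
    intro x
    rw [hs, swap_apply_def]
    split_ifs with h h'
    · rw [h]
    · rw [h']
    · rfl
  have hfst : ∀ p, ((s * σ) p).1 = (σ p).1 := fun p => by
    rw [Perm.mul_apply]; exact hs1 _
  have hCn : Cn σ ↔ Cn (s * σ) := by
    unfold Cn
    simp only [hfst]
  have hinv : ∀ v, ((s * σ)⁻¹ (v, 1)) = σ⁻¹ (s (v, 1)) := by
    intro v
    rw [mul_inv_rev, Perm.mul_apply]
    congr 1
  have hsv : ∀ v, v ≠ i → s (v, 1) = (v, 1) := by
    intro v hv
    rw [hs]
    apply swap_apply_of_ne_of_ne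
    · simp
    · simp [hv]
  have hsi : s (i, 1) = (i, 0) := by rw [hs]; exact swap_apply_right _ _
  have hsi0 : s (i, 0) = (i, 1) := by rw [hs]; exact swap_apply_left _ _
  have hsj : s (j, 1) = (j, 1) := hsv j hij.symm
  constructor
  · rintro ⟨hC, hF, hA⟩
    obtain ⟨a1, a2, a3⟩ := hA
    refine ⟨hCn.1 hC, ?_, ?_⟩
    · intro v
      rw [hfst, hfst, hinv]
      refine ⟨(hF v).1, ?_, (hF v).2.2⟩
      by_cases hv : v = i
      · subst hv
        have h : σ⁻¹ (v, 0) = (j, 1) := by rw [Perm.inv_eq_iff_eq, a2]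
        rw [hsi, h, a1]
      · rw [hsv v hv]
        exact (hF v).2.1
    · refine ⟨?_, ?_, ?_⟩
      · rw [Perm.mul_apply, a1, hsj]
      · rw [Perm.mul_apply, a2, hsi0]
      · rw [Perm.mul_apply, a3, hsi]
  · rintro ⟨hC, hF, hB⟩
    obtain ⟨b1, b2, b3⟩ := hB
    rw [Perm.mul_apply] at b1 b2 b3
    have a1 : σ (i, 1) = (j, 1) := by
      have := congrArg s b1
      rw [hsj] at this
      rw [← this, hs, swap_apply_self]
    have a2 : σ (j, 1) = (i, 0) := by
      have := congrArg s b2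
      rw [hsi] at this
      rw [← this, hs, swap_apply_self]
    have a3 : σ (j, 0) = (i, 1) := by
      have := congrArg s b3
      rw [hsi0] at this
      rw [← this, hs, swap_apply_self]
    refine ⟨hCn.2 hC, ?_, a1, a2, a3⟩
    intro v
    have hFv := hF v
    rw [hfst, hfst, hinv] at hFv
    refine ⟨hFv.1, ?_, hFv.2.2⟩
    by_cases hv : v = i
    · subst hv
      have h : σ⁻¹ (v, 1) = (j, 0) := by rw [Perm.inv_eq_iff_eq, a3]
      rw [h, a1]
    · have := hFv.2.1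
      rw [hsv v hv] at this
      exact this

end SND
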