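import Pool.Agent.SND.Defs

open Finset Equiv

namespace SND

variable {E : Type} [Fintype E] {K : Kern E} {w : E → E → ℝ} {wo wb : E → ℝ} {q Λ : ℝ}
variable {ι : Type} [Fintype ι] [DecidableEq ι]

omit [Fintype ι] in
theorem F8e_main (i j : ι) (σ : Perm (ι × Fin 2)) (h1 : σ (i, 1) = (j, 1))
    (h2 : σ (j, 1) = (i, 1)) (hC : Cn σ) (hF : FPs σ) :
    Cn (swap (i, (0 : Fin 2)) (j, 0) * σ) ∧ FPs (swap (i, (0 : Fin 2)) (j, 0) * σ) := by
  have hs : ∀ v : ι, swap ((i, 0) : ι × Fin 2) (j, 0) (v, 1) = (v, 1) := fun v =>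
    swap_apply_of_ne_of_ne (by simp) (by simp)
  have hm : ∀ p, (swap (i, 0) (j, 0) * σ : Perm (ι × Fin 2)) p = swap (i, 0) (j, 0) (σ p) :=
    fun p => rfl
  constructor
  · intro C hne hinv
    refine hC C hne fun p hp => ?_
    have hij : j ∈ C → i ∈ C := by
      intro hj
      have := hinv (j, 1) hj
      rw [hm, h2, hs] at this
      exact this
    have hji : i ∈ C → j ∈ C := by
      intro hi
      have := hinv (i, 1) hi
      rw [hm, h1, hs] at this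
      exact this
    have h3 := hinv p hp
    rw [hm] at h3
    by_cases hi : σ p = (i, 0)
    · rw [hi, swap_apply_left] at h3
      rw [hi]
      exact hij h3
    · by_cases hj : σ p = (j, 0)
      · rw [hj, swap_apply_right] at h3
        rw [hj]
        exact hji h3
      · rw [swap_apply_of_ne_of_ne hi hj] at h3
        exact h3
  · have hfix : ∀ v : ι, (swap (i, 0) (j, 0) * σ : Perm (ι × Fin 2)) (v, 1) = σ (v, 1) := by
      intro v
      rw [hm]
      refine swap_apply_of_ne_of_ne ?_ ?_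
      · intro h
        have h3 := (hF v).2.2
        rw [h] at h3
        change (σ (i, 1)).1 = v at h3
        rw [h1] at h3
        change j = v at h3
        rw [← h3, h2] at h
        simp at h
      · intro h
        have h3 := (hF v).2.2
        rw [h] at h3
        change (σ (j, 1)).1 = v at h3
        rw [h2] at h3
        change i = v at h3
        rw [← h3, h1] at h
        simp at h
    have hfix' : ∀ v : ι, (swap (i, 0) (j, 0) * σ : Perm (ι × Fin 2))⁻¹ (v, 1) =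
        σ⁻¹ (v, 1) := by
      intro v
      rw [mul_inv_rev, swap_inv]
      change σ⁻¹ (swap (i, 0) (j, 0) (v, 1)) = _
      rw [hs]
    intro v
    rw [hfix, hfix', hfix]
    exact hF v

omit [Fintype ι] in
theorem F8e_inv (i j : ι) (σ : Perm (ι × Fin 2)) :
    swap (i, (0 : Fin 2)) (j, 0) * (swap (i, (0 : Fin 2)) (j, 0) * σ) = σ := by
  rw [← mul_assoc, swap_mul_self, one_mul]

/-- ROW SND-F8e. Same for the classes `B`, `C`. -/
theorem swapBC (i j : ι) (hij : i ≠ j) (σ : Perm (ι × Fin 2)) :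
    (Cn σ ∧ FPs σ ∧ cB i j σ) ↔ (Cn (swap (i, (0 : Fin 2)) (j, 0) * σ) ∧
      FPs (swap (i, (0 : Fin 2)) (j, 0) * σ) ∧ cC i j (swap (i, (0 : Fin 2)) (j, 0) * σ)) := by
  have hs : ∀ v : ι, swap ((i, 0) : ι × Fin 2) (j, 0) (v, 1) = (v, 1) := fun v =>
    swap_apply_of_ne_of_ne (by simp) (by simp)
  have hm : ∀ p, (swap (i, 0) (j, 0) * σ : Perm (ι × Fin 2)) p = swap (i, 0) (j, 0) (σ p) :=
    fun p => rfl
  constructor
  · rintro ⟨hC, hF, h1, h2, h3⟩
    obtain ⟨hC', hF'⟩ := F8e_main i j σ h1 h2 hC hF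
    refine ⟨hC', hF', ?_, ?_, ?_⟩
    · rw [hm, h1, hs]
    · rw [hm, h2, hs]
    · rw [hm, h3, swap_apply_left]
  · rintro ⟨hC, hF, h1, h2, h3⟩
    obtain ⟨hC', hF'⟩ := F8e_main i j _ h1 h2 hC hF
    rw [F8e_inv] at hC' hF'
    have hm' : ∀ p, σ p = swap (i, 0) (j, 0)
        ((swap (i, 0) (j, 0) * σ : Perm (ι × Fin 2)) p) := by
      intro p
      rw [hm, swap_apply_self]
    refine ⟨hC', hF', ?_, ?_, ?_⟩
    · rw [hm', h1, hs]
    · rw [hm', h2, hs]
    · rw [hm', h3, swap_apply_right]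

omit [Fintype ι] in
theorem F8e_fix (i j : ι) (p : ι × Fin 2) (hi : p.1 ≠ i) (hj : p.1 ≠ j) :
    swap ((i, 0) : ι × Fin 2) (j, 0) p = p :=
  swap_apply_of_ne_of_ne (fun h => hi (by rw [h])) (fun h => hj (by rw [h]))

omit [Fintype ι] in
theorem F8e_Q (i j : ι) (σ : Perm (ι × Fin 2)) (h : Cn σ ∧ FPs σ ∧ cQ i j σ) :
    Cn (swap (i, (0 : Fin 2)) (j, 0) * σ) ∧
      FPs (swap (i, (0 : Fin 2)) (j, 0) * σ) ∧ cQ i j (swap (i, (0 : Fin 2)) (j, 0) * σ) := by
  have hs : ∀ v : ι, swap ((i, 0) : ι × Fin 2) (j, 0) (v, 1) = (v, 1) := fun v =>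
    swap_apply_of_ne_of_ne (by simp) (by simp)
  have hm : ∀ p, (swap (i, 0) (j, 0) * σ : Perm (ι × Fin 2)) p = swap (i, 0) (j, 0) (σ p) :=
    fun p => rfl
  obtain ⟨hC, hF, h1, h2, h3, h4, h5, h6⟩ := h
  obtain ⟨hC', hF'⟩ := F8e_main i j σ h1 h2 hC hF
  refine ⟨hC', hF', ?_, ?_, ?_, ?_, ?_, ?_⟩
  · rw [hm, h1, hs]
  · rw [hm, h2, hs]
  · rw [hm, F8e_fix i j _ h3 h4]; exact h3
  · rw [hm, F8e_fix i j _ h3 h4]; exact h4
  · rw [hm, F8e_fix i j _ h5 h6]; exact h5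
  · rw [hm, F8e_fix i j _ h5 h6]; exact h6

/-- ROW SND-F8f. Same for the class `Q`. -/
theorem swapQQ (i j : ι) (hij : i ≠ j) (σ : Perm (ι × Fin 2)) :
    (Cn σ ∧ FPs σ ∧ cQ i j σ) ↔ (Cn (swap (i, (0 : Fin 2)) (j, 0) * σ) ∧
      FPs (swap (i, (0 : Fin 2)) (j, 0) * σ) ∧ cQ i j (swap (i, (0 : Fin 2)) (j, 0) * σ)) := by
  constructor
  · exact F8e_Q i j σ
  · intro h
    have h1 := F8e_Q i j _ h
    rwa [F8e_inv] at h1

end SND
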