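import Pool.Agent.SND.Defs
import Pool.Agent.SND.F7a
import Pool.Agent.SND.F7b
import Pool.Agent.SND.F8a
import Pool.Agent.SND.F8c
import Pool.Agent.SND.F8d
import Pool.Agent.SND.F8e

open Finset Equiv

namespace SND

variable {E : Type} [Fintype E] {K : Kern E} {w : E → E → ℝ} {wo wb : E → ℝ} {q Λ : ℝ}
variable {ι : Type} [Fintype ι] [DecidableEq ι]

/-- indicator -/
noncomputable def F9_I (P : Prop) : ℝ := open Classical in if P then 1 else 0

theorem F9_I_true {P : Prop} (h : P) : F9_I P = 1 := by simp [F9_I, h]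
theorem F9_I_false {P : Prop} (h : ¬ P) : F9_I P = 0 := by simp [F9_I, h]
theorem F9_I_nonneg (P : Prop) : 0 ≤ F9_I P := by
  by_cases h : P
  · rw [F9_I_true h]; exact zero_le_one
  · rw [F9_I_false h]
theorem F9_I_congr {P Q : Prop} (h : P ↔ Q) : F9_I P = F9_I Q := by rw [propext h]

theorem F9_count {ι : Type} {i j : ι} (hij : i ≠ j) (a b c d : ι × Fin 2)
    (hac : a ≠ c)
    (hinv : ¬ ((a.1 = i ∨ a.1 = j) ∧ (b.1 = i ∨ b.1 = j) ∧ (c.1 = i ∨ c.1 = j) ∧
      (d.1 = i ∨ d.1 = j)))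
    (h : (b = (j, 1) ∧ d = (i, 0) ∧ c = (i, 1)) ∨ (d = (i, 1) ∧ b = (j, 0) ∧ a = (j, 1)) ∨
      (b = (j, 1) ∧ d = (i, 1) ∧ c = (i, 0)) ∨ (d = (i, 1) ∧ b = (j, 1) ∧ a = (j, 0)) ∨
      (b = (j, 1) ∧ d = (i, 1) ∧ c = (j, 0)) ∨ (d = (i, 1) ∧ b = (j, 1) ∧ a = (i, 0)) ∨
      (b = (j, 1) ∧ d = (i, 1) ∧ a.1 ≠ i ∧ a.1 ≠ j ∧ c.1 ≠ i ∧ c.1 ≠ j)) :
    F9_I (b = (j, 1) ∧ d = (i, 0) ∧ c = (i, 1)) + F9_I (d = (i, 1) ∧ b = (j, 0) ∧ a = (j, 1)) +
      F9_I (b = (j, 1) ∧ d = (i, 1) ∧ c = (i, 0)) + F9_I (d = (i, 1) ∧ b = (j, 1) ∧ a = (j, 0)) +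
      F9_I (b = (j, 1) ∧ d = (i, 1) ∧ c = (j, 0)) + F9_I (d = (i, 1) ∧ b = (j, 1) ∧ a = (i, 0)) +
      F9_I (b = (j, 1) ∧ d = (i, 1) ∧ a.1 ≠ i ∧ a.1 ≠ j ∧ c.1 ≠ i ∧ c.1 ≠ j) = 1 := by
  rcases h with ⟨rfl, rfl, rfl⟩ | ⟨rfl, rfl, rfl⟩ | ⟨rfl, rfl, rfl⟩ | ⟨rfl, rfl, rfl⟩ |
    ⟨rfl, rfl, rfl⟩ | ⟨rfl, rfl, rfl⟩ | ⟨rfl, rfl, h1, h2, h3, h4⟩
  · simp [F9_I, hij]
  · simp [F9_I]
  · have ha : a.1 ≠ i ∧ a.1 ≠ j := by
      by_contra hc
      apply hinv
      refine ⟨?_, by simp, by simp, by simp⟩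
      by_contra hd
      rw [not_or] at hd
      exact hc hd
    have h1 : a ≠ (j, 0) := fun e => ha.2 (by rw [e])
    have h2 : a ≠ (i, 0) := hac
    simp [F9_I, h1, h2, hij]
  · have hc' : c.1 ≠ i ∧ c.1 ≠ j := by
      by_contra hc
      apply hinv
      refine ⟨by simp, by simp, ?_, by simp⟩
      by_contra hd
      rw [not_or] at hd
      exact hc hd
    have h1 : c ≠ (i, 0) := fun e => hc'.1 (by rw [e])
    have h2 : c ≠ (j, 0) := fun e => hc'.2 (by rw [e])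
    simp [F9_I, h1, h2, hij.symm]
  · have ha : a.1 ≠ i ∧ a.1 ≠ j := by
      by_contra hc
      apply hinv
      refine ⟨?_, by simp, by simp, by simp⟩
      by_contra hd
      rw [not_or] at hd
      exact hc hd
    have h1 : a ≠ (j, 0) := fun e => ha.2 (by rw [e])
    have h2 : a ≠ (i, 0) := fun e => ha.1 (by rw [e])
    simp [F9_I, h1, h2, hij.symm]
  · have hc' : c.1 ≠ i ∧ c.1 ≠ j := by
      by_contra hc
      apply hinv
      refine ⟨by simp, by simp, ?_, by simp⟩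
      by_contra hd
      rw [not_or] at hd
      exact hc hd
    have h1 : c ≠ (i, 0) := fun e => hc'.1 (by rw [e])
    have h2 : c ≠ (j, 0) := fun e => hc'.2 (by rw [e])
    simp [F9_I, h1, h2, hij]
  · have h5 : a ≠ (j, 0) := fun e => h2 (by rw [e])
    have h6 : a ≠ (i, 0) := fun e => h1 (by rw [e])
    have h7 : c ≠ (i, 0) := fun e => h3 (by rw [e])
    have h8 : c ≠ (j, 0) := fun e => h4 (by rw [e])
    simp [F9_I, h1, h2, h3, h4, h5, h6, h7, h8]

/-- the seven classes form a partition -/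
theorem F9_chi (hι : 3 ≤ Fintype.card ι) (σ : Perm (ι × Fin 2)) (hC : Cn σ) (hF : FPs σ)
    (i : ι) : ∑ j ∈ (univ : Finset ι).erase i, (F9_I (cA i j σ) + F9_I (cA j i σ) +
      F9_I (cB i j σ) + F9_I (cB j i σ) + F9_I (cC i j σ) + F9_I (cC j i σ) +
      F9_I (cQ i j σ)) = 1 := by
  obtain ⟨j, hji, hj⟩ := classify hι σ hC hF i
  have hJ : (σ (i, 1)).1 = j := by
    rcases hj with h | h | h | h | h | h | h
    · rw [h.1]
    · rw [h.2.1]
    · rw [h.1]
    · rw [h.2.1]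
    · rw [h.1]
    · rw [h.2.1]
    · rw [h.1]
  rw [Finset.sum_eq_single j]
  · unfold cA cB cC cQ at hj ⊢
    refine F9_count (fun e => hji e.symm) (σ (i, 0)) (σ (i, 1)) (σ (j, 0)) (σ (j, 1)) ?_ ?_ hj
    · intro e
      have := σ.injective e
      exact hji (congrArg Prod.fst this).symm
    · rintro ⟨h1, h2, h3, h4⟩
      have hinv := hC ({i, j} : Set ι) ⟨i, by simp⟩ (by
        rintro ⟨v, l⟩ hv
        simp only [Set.mem_insert_iff, Set.mem_singleton_iff] at hv ⊢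
        rcases hv with rfl | rfl
        · rcases (show l = 0 ∨ l = 1 by omega) with rfl | rfl
          · exact h1
          · exact h2
        · rcases (show l = 0 ∨ l = 1 by omega) with rfl | rfl
          · exact h3
          · exact h4)
      have hcard : Fintype.card ι ≤ 2 := by
        rw [← Finset.card_univ]
        have : (univ : Finset ι) ⊆ {i, j} := by
          intro v _
          have hv : v ∈ ({i, j} : Set ι) := by rw [hinv]; trivial
          simpa using hv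
        exact (Finset.card_le_card this).trans Finset.card_le_two
      omega
  · intro l _ hl
    have e : ∀ {P : Prop}, (P → (σ (i, 1)).1 = l) → F9_I P = 0 := by
      intro P hP
      exact F9_I_false (fun h => hl ((hP h).symm.trans hJ))
    rw [e (fun h => by rw [h.1]), e (fun h => by rw [h.2.1]), e (fun h => by rw [h.1]),
      e (fun h => by rw [h.2.1]), e (fun h => by rw [h.1]), e (fun h => by rw [h.2.1]),
      e (fun h => by rw [h.1])]
    simp
  · intro h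
    exact absurd (Finset.mem_erase.2 ⟨hji, Finset.mem_univ _⟩) h

/-- signed weight -/
noncomputable def F9_f (K : Kern E) (σ : Perm (ι × Fin 2)) : ℝ :=
  ((Perm.sign σ : ℤ) : ℝ) * FF K σ

/-- sum over a class -/
noncomputable def F9_S (K : Kern E) (X : Perm (ι × Fin 2) → Prop) : ℝ :=
  ∑ σ, F9_I (Cn σ ∧ FPs σ ∧ X σ) * F9_f K σ

/-- size of a class -/
noncomputable def F9_N (X : Perm (ι × Fin 2) → Prop) : ℝ :=
  ∑ σ, F9_I (Cn σ ∧ FPs σ ∧ X σ)

theorem F9_rel_apply (π : Perm ι) (v : ι) (l : Fin 2) : rel π (v, l) = (π v, l) := rfl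

theorem F9_rel_inv (π : Perm ι) : (rel π)⁻¹ = rel π⁻¹ := by
  rw [inv_eq_iff_mul_eq_one]
  ext ⟨v, l⟩ <;> simp [F9_rel_apply]

theorem F9_conj_apply (i j : ι) (σ : Perm (ι × Fin 2)) (v v' : ι) (l l' : Fin 2) :
    (rel (swap i j) * σ * (rel (swap i j))⁻¹) (v, l) = (v', l') ↔
      σ (swap i j v, l) = (swap i j v', l') := by
  have hrr : ∀ x : ι × Fin 2, rel (swap i j) (rel (swap i j) x) = x := by
    rintro ⟨x, y⟩
    show ((swap i j) ((swap i j) x), y) = (x, y)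
    rw [swap_apply_self]
  rw [F9_rel_inv, swap_inv, Perm.mul_apply, Perm.mul_apply]
  show rel (swap i j) (σ (swap i j v, l)) = (v', l') ↔ _
  constructor
  · intro h
    have h2 := congrArg (rel (swap i j)) h
    rw [hrr] at h2
    rw [h2]
    rfl
  · intro h
    rw [h]
    show ((swap i j) ((swap i j) v'), l') = (v', l')
    rw [swap_apply_self]

theorem F9_conj_T (i j : ι) (σ : Perm (ι × Fin 2)) :
    (Cn (rel (swap i j) * σ * (rel (swap i j))⁻¹) ∧ FPs (rel (swap i j) * σ * (rel (swap i j))⁻¹)) ↔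
      (Cn σ ∧ FPs σ) := by
  constructor
  · rintro ⟨h1, h2⟩
    have h3 := Cn_FPs_conj (swap i j) _ h1 h2
    have e : rel (swap i j) * (rel (swap i j) * σ * (rel (swap i j))⁻¹) * (rel (swap i j))⁻¹ = σ := by
      have h4 : rel (swap i j) * rel (swap i j) = 1 := by
        ext ⟨v, l⟩ <;> simp [F9_rel_apply]
      have h5 : (rel (swap i j))⁻¹ = rel (swap i j) := by rw [F9_rel_inv, swap_inv]
      rw [h5]
      calc rel (swap i j) * (rel (swap i j) * σ * rel (swap i j)) * rel (swap i j)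
          = (rel (swap i j) * rel (swap i j)) * σ * (rel (swap i j) * rel (swap i j)) := by
            simp only [mul_assoc]
        _ = σ := by rw [h4, one_mul, mul_one]
    rwa [e] at h3
  · rintro ⟨h1, h2⟩
    exact Cn_FPs_conj (swap i j) σ h1 h2

theorem F9_S_conj (K : Kern E) (i j : ι) (X X' : Perm (ι × Fin 2) → Prop)
    (h : ∀ σ, X (rel (swap i j) * σ * (rel (swap i j))⁻¹) ↔ X' σ) : F9_S K X = F9_S K X' := by
  unfold F9_S
  rw [← Equiv.sum_comp (MulAut.conj (rel (swap i j))).toEquiv]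
  refine Finset.sum_congr rfl (fun σ _ => ?_)
  have e : (MulAut.conj (rel (swap i j))).toEquiv σ =
      rel (swap i j) * σ * (rel (swap i j))⁻¹ := rfl
  rw [e]
  have e2 : F9_f K (rel (swap i j) * σ * (rel (swap i j))⁻¹) = F9_f K σ := by
    unfold F9_f
    rw [FF_conj]
    congr 2
    rw [Perm.sign_mul, Perm.sign_mul, Perm.sign_inv, mul_comm (Perm.sign (rel (swap i j))),
      mul_assoc, Int.units_mul_self, mul_one]
  rw [e2]
  congr 1
  apply F9_I_congr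
  rw [← and_assoc, ← and_assoc, F9_conj_T, h]

theorem F9_sign_swap (x y : ι × Fin 2) (hxy : x ≠ y) (σ : Perm (ι × Fin 2)) :
    ((Perm.sign (swap x y * σ) : ℤ) : ℝ) = - ((Perm.sign σ : ℤ) : ℝ) := by
  rw [Perm.sign_mul, Perm.sign_swap hxy]
  push_cast
  ring

theorem F9_SB (K : Kern E) (i j : ι) (hij : i ≠ j) : F9_S K (cB i j) =
    ∑ σ : Perm (ι × Fin 2), F9_I (Cn σ ∧ FPs σ ∧ cA i j σ) *
      (((Perm.sign σ : ℤ) : ℝ) * (- FF K (swap (i, 0) (i, 1) * σ))) := by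
  unfold F9_S
  rw [← Equiv.sum_comp (Equiv.mulLeft (swap ((i, 0) : ι × Fin 2) (i, 1)))]
  refine Finset.sum_congr rfl (fun σ _ => ?_)
  rw [Equiv.coe_mulLeft, F9_I_congr (swapAB i j hij σ).symm, F9_f,
    F9_sign_swap _ _ (by simp)]
  ring

theorem F9_SC (K : Kern E) (i j : ι) (hij : i ≠ j) : F9_S K (cC i j) =
    ∑ σ : Perm (ι × Fin 2), F9_I (Cn σ ∧ FPs σ ∧ cA i j σ) *
      (((Perm.sign σ : ℤ) : ℝ) * FF K (swap (i, 0) (j, 0) * (swap (i, 0) (i, 1) * σ))) := by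
  unfold F9_S
  rw [← Equiv.sum_comp (Equiv.mulLeft (swap ((i, 0) : ι × Fin 2) (j, 0)))]
  rw [← Equiv.sum_comp (Equiv.mulLeft (swap ((i, 0) : ι × Fin 2) (i, 1)))]
  refine Finset.sum_congr rfl (fun σ _ => ?_)
  rw [Equiv.coe_mulLeft, Equiv.coe_mulLeft,
    F9_I_congr (swapBC i j hij (swap ((i, 0) : ι × Fin 2) (i, 1) * σ)).symm,
    F9_I_congr (swapAB i j hij σ).symm, F9_f,
    F9_sign_swap _ _ (by simp [hij]), F9_sign_swap _ _ (by simp)]
  ring

theorem F9_SQ (K : Kern E) (i j : ι) (hij : i ≠ j) : 2 * F9_S K (cQ i j) =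
    ∑ σ : Perm (ι × Fin 2), F9_I (Cn σ ∧ FPs σ ∧ cQ i j σ) *
      (((Perm.sign σ : ℤ) : ℝ) * (FF K σ - FF K (swap (i, 0) (j, 0) * σ))) := by
  have h : F9_S K (cQ i j) = ∑ σ : Perm (ι × Fin 2), F9_I (Cn σ ∧ FPs σ ∧ cQ i j σ) *
      (((Perm.sign σ : ℤ) : ℝ) * (- FF K (swap (i, 0) (j, 0) * σ))) := by
    unfold F9_S
    rw [← Equiv.sum_comp (Equiv.mulLeft (swap ((i, 0) : ι × Fin 2) (j, 0)))]
    refine Finset.sum_congr rfl (fun σ _ => ?_)
    rw [Equiv.coe_mulLeft, F9_I_congr (swapQQ i j hij σ).symm, F9_f,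
      F9_sign_swap _ _ (by simp [hij])]
    ring
  rw [two_mul]
  nth_rewrite 2 [h]
  unfold F9_S
  rw [← Finset.sum_add_distrib]
  refine Finset.sum_congr rfl (fun σ _ => ?_)
  rw [F9_f]
  ring

theorem F9_abs_sign (σ : Perm (ι × Fin 2)) : |((Perm.sign σ : ℤ) : ℝ)| = 1 := by
  rcases Int.units_eq_one_or (Perm.sign σ) with h | h
  · rw [h]; simp
  · rw [h]; simp

/-- weighted sums over classes are at most the size times the bound -/
theorem F9_bound (P : Perm (ι × Fin 2) → Prop) (g : Perm (ι × Fin 2) → ℝ) (B : ℝ)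
    (h : ∀ σ, P σ → |g σ| ≤ B) :
    |∑ σ : Perm (ι × Fin 2), F9_I (P σ) * (((Perm.sign σ : ℤ) : ℝ) * g σ)| ≤
      (∑ σ : Perm (ι × Fin 2), F9_I (P σ)) * B := by
  refine (Finset.abs_sum_le_sum_abs _ _).trans ?_
  rw [Finset.sum_mul]
  refine Finset.sum_le_sum (fun σ _ => ?_)
  rw [abs_mul, abs_mul, F9_abs_sign, one_mul, abs_of_nonneg (F9_I_nonneg _)]
  by_cases hP : P σ
  · exact mul_le_mul_of_nonneg_left (h σ hP) (F9_I_nonneg _)
  · rw [F9_I_false hP, zero_mul, zero_mul]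

open Classical in
/-- ROW SND-F9. The sum over the fully paired connected permutations.

Proof. Write `B = 18 * 4 ^ m * Λ ^ (3m+2) * q ^ (2m-2)`, `sg σ = sign σ`, `T = {σ | Cn σ ∧ FPs σ}`, and
fix `i : ι`. By `classify` (the seven classes for the different `j` are pairwise disjoint:
`j = (σ (i,1)).1` is determined; `cA i j`, `cA j i`: `σ (j,1)` resp. `σ (i,1)` has second component
`0`; the others have `σ (i,1) = (j,1)`, `σ (j,1) = (i,1)`, `cB i j`: `σ (j,0) = (i,0)`; `cC i j`: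
`σ (j,0) = (j,0)`; `cB j i`: `σ (i,0) = (j,0)`; `cC j i`: `σ (i,0) = (i,0)`; `cB i j` and
`cB j i` (or `cC j i`) cannot hold together because `{i,j}` would be invariant, etc.)
`∑_{σ ∈ T} sg σ FF σ = ∑_{j ≠ i} [Σ_A(i,j) + Σ_A(j,i) + Σ_B(i,j) + Σ_B(j,i) + Σ_C(i,j) + Σ_C(j,i)
+ Σ_Q(i,j)]`, where `Σ_X(i,j) = ∑_{σ ∈ T, cX i j σ} sg σ FF σ`.
* `Σ_X(j,i) = Σ_X(i,j)` for `X = A, B, C`: conjugation by `rel (swap i j)` (`FF_conj`,
  `Cn_FPs_conj`, `sign_conj`; it exchanges `cX i j` and `cX j i`).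
* `Σ_B(i,j) = - ∑_{σ ∈ T, cA i j} sg σ FF (swap (i,0) (i,1) * σ)` (`swapAB`), `Σ_C(i,j) =
  ∑_{σ ∈ T, cA i j} sg σ FF (swap (i,0) (j,0) * (swap (i,0) (i,1) * σ))` (`swapAB`, `swapBC`), so
  `|Σ_A + Σ_B + Σ_C| ≤ #{σ ∈ T | cA i j σ} * B` (`classA_le`).
* `Σ_Q(i,j) = (1/2) ∑_{σ ∈ T, cQ i j} sg σ (FF σ - FF (swap (i,0) (j,0) * σ))` (`swapQQ`), so
  `|Σ_Q| ≤ #{σ ∈ T | cQ i j σ} * B` (`classQ_le`).
The sets `{cA i j}`, `{cQ i j}` for the different `j` are disjoint, so the total is at most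
`2 * #Perm * B = 2 (2m)! B`. -/
theorem sum_FPs_le (hE : Est K w wo wb q Λ) (hι : 3 ≤ Fintype.card ι) :
    |∑ σ ∈ (univ : Finset (Perm (ι × Fin 2))).filter (fun σ => Cn σ ∧ FPs σ),
        ((Perm.sign σ : ℤ) : ℝ) * FF K σ| ≤
      2 * ((2 * Fintype.card ι).factorial : ℝ) * (18 * 4 ^ Fintype.card ι *
        Λ ^ (3 * Fintype.card ι + 2) * q ^ (2 * Fintype.card ι - 2)) := by
  classical
  set B : ℝ := 18 * 4 ^ Fintype.card ι *
        Λ ^ (3 * Fintype.card ι + 2) * q ^ (2 * Fintype.card ι - 2) with hB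
  have hq0 : (0 : ℝ) ≤ q := zero_le_one.trans hE.one_le_q
  have hL0 : (0 : ℝ) ≤ Λ := zero_le_one.trans hE.one_le_L
  have hB0 : 0 ≤ B := by positivity
  obtain ⟨i⟩ : Nonempty ι := Fintype.card_pos_iff.1 (by omega)
  -- decomposition
  have hdec : ∑ σ ∈ (univ : Finset (Perm (ι × Fin 2))).filter (fun σ => Cn σ ∧ FPs σ),
        ((Perm.sign σ : ℤ) : ℝ) * FF K σ =
      ∑ j ∈ (univ : Finset ι).erase i, (F9_S K (cA i j) + F9_S K (cA j i) + F9_S K (cB i j) +
        F9_S K (cB j i) + F9_S K (cC i j) + F9_S K (cC j i) + F9_S K (cQ i j)) := by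
    rw [Finset.sum_filter]
    unfold F9_S
    simp only [← Finset.sum_add_distrib]
    rw [Finset.sum_comm]
    refine Finset.sum_congr rfl (fun σ _ => ?_)
    by_cases hT : Cn σ ∧ FPs σ
    · rw [if_pos hT]
      have e : ∀ X : Prop, F9_I (Cn σ ∧ FPs σ ∧ X) = F9_I X := by
        intro X
        exact F9_I_congr ⟨fun h => h.2.2, fun h => ⟨hT.1, hT.2, h⟩⟩
      simp only [e]
      have h1 := F9_chi hι σ hT.1 hT.2 i
      simp only [← add_mul]
      rw [← Finset.sum_mul, h1, one_mul]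
      rfl
    · rw [if_neg hT]
      have e : ∀ X : Prop, F9_I (Cn σ ∧ FPs σ ∧ X) = 0 := by
        intro X
        exact F9_I_false (fun h => hT ⟨h.1, h.2.1⟩)
      simp only [e]
      simp
  rw [hdec]
  have hj : ∀ j ∈ (univ : Finset ι).erase i, |F9_S K (cA i j) + F9_S K (cA j i) +
      F9_S K (cB i j) + F9_S K (cB j i) + F9_S K (cC i j) + F9_S K (cC j i) +
      F9_S K (cQ i j)| ≤ 2 * (F9_N (cA i j) + F9_N (cQ i j)) * B := by
    intro j hj
    have hij : i ≠ j := (Finset.mem_erase.1 hj).1.symm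
    have hA : F9_S K (cA j i) = F9_S K (cA i j) := by
      symm
      refine F9_S_conj K i j _ _ (fun σ => ?_)
      unfold cA
      rw [F9_conj_apply, F9_conj_apply, F9_conj_apply, swap_apply_left, swap_apply_right]
    have hB' : F9_S K (cB j i) = F9_S K (cB i j) := by
      symm
      refine F9_S_conj K i j _ _ (fun σ => ?_)
      unfold cB
      rw [F9_conj_apply, F9_conj_apply, F9_conj_apply, swap_apply_left, swap_apply_right]
    have hC' : F9_S K (cC j i) = F9_S K (cC i j) := by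
      symm
      refine F9_S_conj K i j _ _ (fun σ => ?_)
      unfold cC
      rw [F9_conj_apply, F9_conj_apply, F9_conj_apply, swap_apply_left, swap_apply_right]
    have hABC : |F9_S K (cA i j) + F9_S K (cB i j) + F9_S K (cC i j)| ≤ F9_N (cA i j) * B := by
      have e : F9_S K (cA i j) + F9_S K (cB i j) + F9_S K (cC i j) =
          ∑ σ : Perm (ι × Fin 2), F9_I (Cn σ ∧ FPs σ ∧ cA i j σ) *
            (((Perm.sign σ : ℤ) : ℝ) * (FF K σ - FF K (swap (i, 0) (i, 1) * σ) +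
              FF K (swap (i, 0) (j, 0) * (swap (i, 0) (i, 1) * σ)))) := by
        rw [F9_SB K i j hij, F9_SC K i j hij]
        unfold F9_S
        rw [← Finset.sum_add_distrib, ← Finset.sum_add_distrib]
        refine Finset.sum_congr rfl (fun σ _ => ?_)
        rw [F9_f]
        ring
      rw [e]
      exact F9_bound _ _ B (fun σ h => classA_le hE hι σ h.1 h.2.1 i j h.2.2)
    have hQ : |F9_S K (cQ i j)| ≤ F9_N (cQ i j) * B := by
      have h1 := F9_bound (fun σ : Perm (ι × Fin 2) => Cn σ ∧ FPs σ ∧ cQ i j σ)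
        (fun σ => FF K σ - FF K (swap (i, 0) (j, 0) * σ)) B
        (fun σ h => classQ_le hE hι σ h.1 h.2.1 i j h.2.2)
      rw [← F9_SQ K i j hij, abs_mul, abs_of_nonneg (by norm_num : (0 : ℝ) ≤ 2)] at h1
      have h2 : 0 ≤ |F9_S K (cQ i j)| := abs_nonneg _
      have h3 : F9_N (cQ i j) * B = (∑ σ : Perm (ι × Fin 2),
        F9_I (Cn σ ∧ FPs σ ∧ cQ i j σ)) * B := rfl
      rw [h3]
      linarith
    have e : F9_S K (cA i j) + F9_S K (cA j i) +
      F9_S K (cB i j) + F9_S K (cB j i) + F9_S K (cC i j) + F9_S K (cC j i) +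
      F9_S K (cQ i j) = 2 * (F9_S K (cA i j) + F9_S K (cB i j) + F9_S K (cC i j)) +
        F9_S K (cQ i j) := by
      rw [hA, hB', hC']; ring
    rw [e]
    have h4 : 0 ≤ F9_N (cQ i j) * B :=
      mul_nonneg (Finset.sum_nonneg (fun σ _ => F9_I_nonneg _)) hB0
    calc |2 * (F9_S K (cA i j) + F9_S K (cB i j) + F9_S K (cC i j)) + F9_S K (cQ i j)|
        ≤ |2 * (F9_S K (cA i j) + F9_S K (cB i j) + F9_S K (cC i j))| + |F9_S K (cQ i j)| :=
          abs_add_le _ _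
      _ = 2 * |F9_S K (cA i j) + F9_S K (cB i j) + F9_S K (cC i j)| + |F9_S K (cQ i j)| := by
          rw [abs_mul, abs_of_nonneg (by norm_num : (0 : ℝ) ≤ 2)]
      _ ≤ 2 * (F9_N (cA i j) + F9_N (cQ i j)) * B := by linarith
  have hcount : ∑ j ∈ (univ : Finset ι).erase i, (F9_N (cA i j) + F9_N (cQ i j)) ≤
      ((2 * Fintype.card ι).factorial : ℝ) := by
    have hcard : ((2 * Fintype.card ι).factorial : ℝ) = ∑ _σ : Perm (ι × Fin 2), (1 : ℝ) := by
      rw [Finset.sum_const, Finset.card_univ, Fintype.card_perm, Fintype.card_prod,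
        Fintype.card_fin, mul_comm, nsmul_eq_mul, mul_one]
    rw [hcard]
    unfold F9_N
    simp only [← Finset.sum_add_distrib]
    rw [Finset.sum_comm]
    refine Finset.sum_le_sum (fun σ _ => ?_)
    by_cases hT : Cn σ ∧ FPs σ
    · have e : ∀ X : Prop, F9_I (Cn σ ∧ FPs σ ∧ X) = F9_I X := by
        intro X
        exact F9_I_congr ⟨fun h => h.2.2, fun h => ⟨hT.1, hT.2, h⟩⟩
      simp only [e]
      rw [← F9_chi hι σ hT.1 hT.2 i]
      refine Finset.sum_le_sum (fun j _ => ?_)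
      have h1 := F9_I_nonneg (cA j i σ)
      have h2 := F9_I_nonneg (cB i j σ)
      have h3 := F9_I_nonneg (cB j i σ)
      have h4 := F9_I_nonneg (cC i j σ)
      have h5 := F9_I_nonneg (cC j i σ)
      linarith
    · have e : ∀ X : Prop, F9_I (Cn σ ∧ FPs σ ∧ X) = 0 := by
        intro X
        exact F9_I_false (fun h => hT ⟨h.1, h.2.1⟩)
      simp only [e]
      simp
  calc |∑ j ∈ (univ : Finset ι).erase i, (F9_S K (cA i j) + F9_S K (cA j i) + F9_S K (cB i j) +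
        F9_S K (cB j i) + F9_S K (cC i j) + F9_S K (cC j i) + F9_S K (cQ i j))|
      ≤ ∑ j ∈ (univ : Finset ι).erase i, |F9_S K (cA i j) + F9_S K (cA j i) + F9_S K (cB i j) +
        F9_S K (cB j i) + F9_S K (cC i j) + F9_S K (cC j i) + F9_S K (cQ i j)| :=
        Finset.abs_sum_le_sum_abs _ _
    _ ≤ ∑ j ∈ (univ : Finset ι).erase i, 2 * (F9_N (cA i j) + F9_N (cQ i j)) * B :=
        Finset.sum_le_sum hj
    _ = 2 * (∑ j ∈ (univ : Finset ι).erase i, (F9_N (cA i j) + F9_N (cQ i j))) * B := by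
        rw [Finset.mul_sum, Finset.sum_mul]
    _ ≤ 2 * ((2 * Fintype.card ι).factorial : ℝ) * B := by
        have := mul_le_mul_of_nonneg_right hcount hB0
        linarith

end SND
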