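import Pool.Agent.SND.Defs

open Finset PowerSeries

namespace SND

theorem G1_DD_add (F G : PowerSeries ℝ) : DD (F + G) = DD F + DD G := by
  unfold DD; rw [map_add, mul_add]

theorem G1_DD_mul (F G : PowerSeries ℝ) : DD (F * G) = F * DD G + DD F * G := by
  unfold DD
  rw [Derivation.leibniz, smul_eq_mul, smul_eq_mul]
  ring

theorem G1_iter_add (k : ℕ) (F G : PowerSeries ℝ) : DD^[k] (F + G) = DD^[k] F + DD^[k] G := by
  induction k generalizing F G with
  | zero => rfl
  | succ k ih => rw [Function.iterate_succ_apply, Function.iterate_succ_apply,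
      Function.iterate_succ_apply, G1_DD_add, ih]

theorem G1_ak_add (k : ℕ) (F G : PowerSeries ℝ) : ak k (F + G) = ak k F + ak k G := by
  unfold ak; rw [G1_iter_add, map_add]

theorem G1_ak_succ (k : ℕ) (F : PowerSeries ℝ) : ak (k + 1) F = ak k (DD F) := by
  unfold ak; rw [Function.iterate_succ_apply]

/-- ROW SND-G1a. Leibniz rule.

Proof: `DD` is additive and `DD (F * G) = F * DD G + DD F * G` (derivation). Induction on `k`,
generalising `F, G` (`ak (k+1) F = ak k (DD F)`), Pascal's rule
(`Finset.sum_range_succ`, `Nat.choose_succ_succ`; or use the general theorem for derivations if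
Mathlib has it; or `Commute.add_pow` in the endomorphism ring). -/
theorem ak_mul (k : ℕ) (F G : PowerSeries ℝ) :
    ak k (F * G) = ∑ j ∈ range (k + 1), (k.choose j : ℝ) * ak j F * ak (k - j) G := by
  induction k generalizing F G with
  | zero => simp [ak]
  | succ k ih =>
    rw [G1_ak_succ, G1_DD_mul, G1_ak_add, ih, ih]
    have h1 : ∑ j ∈ range (k + 1), (k.choose j : ℝ) * ak j F * ak (k - j) (DD G) =
        ∑ j ∈ range (k + 1), (k.choose j : ℝ) * ak j F * ak (k + 1 - j) G := by
      apply Finset.sum_congr rfl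
      intro j hj
      rw [Finset.mem_range] at hj
      rw [← G1_ak_succ]
      congr 2
      omega
    have h2 : ∑ j ∈ range (k + 1), (k.choose j : ℝ) * ak j (DD F) * ak (k - j) G =
        ∑ j ∈ range (k + 1), (k.choose j : ℝ) * ak (j + 1) F * ak (k - j) G := by
      apply Finset.sum_congr rfl
      intro j _
      rw [← G1_ak_succ]
    have h3 : ∑ j ∈ range (k + 1), (k.choose j : ℝ) * ak j F * ak (k + 1 - j) G =
        ∑ j ∈ range (k + 1 + 1), (k.choose j : ℝ) * ak j F * ak (k + 1 - j) G := by
      rw [Finset.sum_range_succ _ (k + 1), Nat.choose_succ_self]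
      simp
    rw [h1, h2, h3, Finset.sum_range_succ' _ (k + 1), Finset.sum_range_succ' _ (k + 1)]
    simp only [Nat.choose_succ_succ, Nat.cast_add, Nat.succ_eq_add_one, Nat.choose_zero_right,
      Nat.add_sub_add_right]
    rw [add_right_comm, ← Finset.sum_add_distrib]
    congr 1
    apply Finset.sum_congr rfl
    intro j _
    ring

theorem G1_DD_pow (m : ℕ) : DD ((1 + PowerSeries.X) ^ m) =
    (m : ℝ) • (1 + PowerSeries.X : PowerSeries ℝ) ^ m := by
  unfold DD
  rcases m with _ | m
  · simp
  · rw [Derivation.leibniz_pow, map_add, PowerSeries.derivative_X]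
    simp only [Nat.add_sub_cancel, Derivation.map_one_eq_zero, zero_add, smul_eq_mul, mul_one,
      nsmul_eq_mul]
    rw [Algebra.smul_def]
    simp only [map_natCast, pow_succ]
    ring

theorem G1_DD_smul (c : ℝ) (F : PowerSeries ℝ) : DD (c • F) = c • DD F := by
  unfold DD
  rw [Derivation.map_smul, mul_smul_comm]

theorem G1_iter_smul (k : ℕ) (c : ℝ) (F : PowerSeries ℝ) : DD^[k] (c • F) = c • DD^[k] F := by
  induction k generalizing F with
  | zero => rfl
  | succ k ih => rw [Function.iterate_succ_apply, Function.iterate_succ_apply, G1_DD_smul, ih]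

/-- ROW SND-G1b. `DD ((1+X)^m) = m (1+X)^m`. -/
theorem ak_one_add_pow (k m : ℕ) : ak k ((1 + PowerSeries.X) ^ m) = (m : ℝ) ^ k := by
  induction k with
  | zero => simp [ak]
  | succ k ih =>
    rw [G1_ak_succ, G1_DD_pow]
    unfold ak at ih ⊢
    rw [G1_iter_smul, pow_succ', ← ih]
    simp

theorem G1_coeff_DD (j : ℕ) (F : PowerSeries ℝ) :
    coeff j (DD F) = ((j : ℝ) + 1) * coeff (j + 1) F + (j : ℝ) * coeff j F := by
  unfold DD
  rw [add_mul, one_mul, map_add, PowerSeries.coeff_derivative]
  rcases j with _ | j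
  · simp [PowerSeries.coeff_zero_X_mul]
  · rw [PowerSeries.coeff_succ_X_mul, PowerSeries.coeff_derivative]
    push_cast
    ring

/-- ROW SND-G1c. `ak` is a linear combination of the first coefficients.

Proof: induction on `k`: `coeff j (DD F) = (j+1) coeff (j+1) F + j coeff j F`. (`DD` is `ℝ`-linear.) -/
theorem ak_coeff : ∃ c : ℕ → ℕ → ℝ, ∀ (k : ℕ) (F : PowerSeries ℝ),
    ak k F = ∑ j ∈ range (k + 1), c k j * coeff j F := by
  have h : ∀ k : ℕ, ∃ c : ℕ → ℝ, ∀ F : PowerSeries ℝ,
      ak k F = ∑ j ∈ range (k + 1), c j * coeff j F := by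
    intro k
    induction k with
    | zero => exact ⟨fun _ => 1, fun F => by simp [ak]⟩
    | succ k ih =>
      obtain ⟨c, hc⟩ := ih
      refine ⟨fun j => (if j < k + 1 then (j : ℝ) * c j else 0) + (j : ℝ) * c (j - 1),
        fun F => ?_⟩
      rw [G1_ak_succ, hc]
      simp only [add_mul]
      rw [Finset.sum_add_distrib, Finset.sum_range_succ _ (k + 1),
        Finset.sum_range_succ' (fun j => (j : ℝ) * c (j - 1) * coeff j F) (k + 1)]
      simp only [lt_irrefl, if_false, zero_mul, add_zero, Nat.cast_zero, Nat.add_sub_cancel]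
      rw [← Finset.sum_add_distrib]
      apply Finset.sum_congr rfl
      intro j hj
      rw [Finset.mem_range] at hj
      rw [if_pos hj, G1_coeff_DD]
      push_cast
      ring
  choose c hc using h
  exact ⟨c, hc⟩

end SND
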