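import Pool.Agent.SND.Defs
import Pool.Agent.SND.G1

open Finset PowerSeries

namespace SND

theorem G2_DD_mul (F G : PowerSeries ℝ) : DD (F * G) = DD F * G + F * DD G := by
  simp only [DD, Derivation.leibniz, smul_eq_mul]
  ring

theorem G2_DD_C (a : ℝ) : DD (PowerSeries.C a) = 0 := by
  have h : PowerSeries.derivative ℝ (PowerSeries.C a) = 0 := by
    ext n
    simp
  simp only [DD, h, mul_zero]

theorem G2_DD_one_add_X : DD (1 + PowerSeries.X : PowerSeries ℝ) = 1 + PowerSeries.X := by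
  have h : PowerSeries.derivative ℝ (1 + PowerSeries.X : PowerSeries ℝ) = 1 := by
    rw [map_add, Derivation.map_one_eq_zero, zero_add]
    exact PowerSeries.derivative_X
  simp only [DD, h, mul_one]

theorem G2_DD_pow (m : ℕ) : DD ((1 + PowerSeries.X : PowerSeries ℝ) ^ m) =
    PowerSeries.C (m : ℝ) * (1 + PowerSeries.X) ^ m := by
  induction m with
  | zero =>
    have h := G2_DD_C 1
    rw [map_one] at h
    simp [h]
  | succ m ih =>
    rw [pow_succ, G2_DD_mul, ih, G2_DD_one_add_X]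
    push_cast
    rw [map_add, map_one]
    ring

theorem G2_ak_add (k : ℕ) (F G : PowerSeries ℝ) : ak k (F + G) = ak k F + ak k G := by
  obtain ⟨c, hc⟩ := ak_coeff
  rw [hc, hc, hc, ← Finset.sum_add_distrib]
  refine Finset.sum_congr rfl fun j _ => ?_
  rw [map_add]; ring

theorem G2_ak_sum {Ω : Type} (k : ℕ) (R : Finset Ω) (F : Ω → PowerSeries ℝ) :
    ak k (∑ ω ∈ R, F ω) = ∑ ω ∈ R, ak k (F ω) := by
  obtain ⟨c, hc⟩ := ak_coeff
  rw [hc]
  simp_rw [hc]
  rw [Finset.sum_comm]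
  refine Finset.sum_congr rfl fun j _ => ?_
  rw [map_sum, Finset.mul_sum]

theorem G2_ak_C (k : ℕ) (hk : k ≠ 0) (a : ℝ) : ak k (PowerSeries.C a) = 0 := by
  obtain ⟨c, hc⟩ := ak_coeff
  have h1 := ak_one_add_pow k 0
  rw [pow_zero, hc] at h1
  rw [hc]
  have h2 : ∑ j ∈ range (k + 1), c k j * (coeff j) (PowerSeries.C a) =
      a * ∑ j ∈ range (k + 1), c k j * (coeff j) (1 : PowerSeries ℝ) := by
    rw [Finset.mul_sum]
    refine Finset.sum_congr rfl fun j _ => ?_
    rw [PowerSeries.coeff_C, PowerSeries.coeff_one]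
    split_ifs <;> ring
  rw [h2, h1]
  simp [hk]

/-- ROW SND-G2. From the power series identity to cumulants.

Proof. Let `Φ = mk Z`, `F = C #R * (1+X)^m * Φ`. Let `P = mk (fun k => μ k / k!)`,
`K' = mk (fun j => Kc (j+1) / j!)`. `hμ` says `derivative P = K' * P` (compare coefficients, using
`k.choose j = k! / (j! (k-j)!)`), and `hZ` says `Φ = rescale Cc (exp ℝ) * rescale (-1) P` (or
`evalNegHom`). Hence (chain rule `derivative (rescale a F) = a • rescale a (derivative F)`, compare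
coefficients) `derivative Φ = (C Cc - rescale (-1) K') * Φ`, and with `DD` (a derivation, see G1)
`DD F = Ψ * F`, `Ψ = C m + (1 + X) * (C Cc - rescale (-1) K')`
(`DD ((1+X)^m) = m (1+X)^m`). Put `κ (j+1) = ak j Ψ`, `κ 0 = 0`.
* Recursion: `ak k (∑_{ω ∈ R} (1+X)^(x ω)) = ∑_{ω ∈ R} (x ω)^k` (`ak_one_add_pow`, additivity) is
  `#R * m_k`; `ak (k+1) F = ak k (DD F) = ak k (Ψ * F)` and `ak_mul` give the recursion.
* Bound: `κ 1 = ak 0 Ψ = constantCoeff Ψ = m + Cc - Kc 1`. For `k ≥ 1`,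
  `ak k Ψ = ∑_{j ≤ k} c k j coeff j Ψ` (`ak_coeff`), where `coeff 0 Ψ = m + (Cc - Kc 1)`,
  and for `j ≥ 1` `coeff j Ψ` is a combination of `Cc - Kc 1` (only for `j = 1`) and of
  `Kc (j+1)`, `Kc j` (`j ≥ 2`) with universal coefficients. Since `ak k (C m) = 0` for `k ≥ 1`
  (`DD (C m) = 0`), `ak k Ψ = ak k (Ψ - C m)` and `Ψ - C m = (1+X) (C Cc - rescale (-1) K')` has
  coefficients bounded by `|Cc - Kc 1| + |Kc 2| + ... + |Kc (k+1)|` times 2. As
  `Cc - Kc 1 = κ 1 - m`, one can take `A (k+1) = 2 * ∑_{j ≤ k} |c k j|`. -/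
theorem cumulants_exist : ∃ A : ℕ → ℝ, (∀ k, 0 ≤ A k) ∧
    ∀ (Ω : Type) (R : Finset Ω) (x : Ω → ℕ) (m : ℕ) (Z μ Kc : ℕ → ℝ) (Cc : ℝ), R.Nonempty →
      (∑ ω ∈ R, (1 + PowerSeries.X : PowerSeries ℝ) ^ (x ω) =
        PowerSeries.C (R.card : ℝ) * (1 + PowerSeries.X) ^ m * PowerSeries.mk Z) →
      (∀ k : ℕ, (k.factorial : ℝ) * Z k =
        ∑ i ∈ range (k + 1), (k.choose i : ℝ) * Cc ^ (k - i) * (-1) ^ i * μ i) →
      μ 0 = 1 →
      (∀ k, μ (k + 1) = ∑ j ∈ range (k + 1), (k.choose j : ℝ) * Kc (j + 1) * μ (k - j)) →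
      ∃ κ : ℕ → ℝ,
        (∀ k, (∑ ω ∈ R, (x ω : ℝ) ^ (k + 1)) / R.card =
          ∑ j ∈ range (k + 1), (k.choose j : ℝ) * κ (j + 1) *
            ((∑ ω ∈ R, (x ω : ℝ) ^ (k - j)) / R.card)) ∧
        ∀ k, 2 ≤ k → |κ k| ≤ A k * (|κ 1 - m| + ∑ j ∈ Icc 2 k, |Kc j|) := by
  obtain ⟨c, hc⟩ := ak_coeff
  refine ⟨fun k => 2 * ∑ j ∈ range k, |c (k - 1) j|, fun k => by positivity, ?_⟩
  intro Ω R x m Z μ Kc Cc hR hF hZ hμ0 hμ
  -- the power series
  set E : PowerSeries ℝ := PowerSeries.mk fun k => Cc ^ k / k.factorial with hE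
  set P : PowerSeries ℝ := PowerSeries.mk fun k => (-1) ^ k * μ k / k.factorial with hP
  set K : PowerSeries ℝ := PowerSeries.mk fun j => (-1) ^ j * Kc (j + 1) / j.factorial with hK
  have hfac : ∀ k : ℕ, (k.factorial : ℝ) ≠ 0 := fun k => by exact_mod_cast Nat.factorial_ne_zero k
  have hch : ∀ k j : ℕ, j ≤ k → (k.choose j : ℝ) =
      (k.factorial : ℝ) / (j.factorial * (k - j).factorial) := by
    intro k j hj
    exact Nat.cast_choose ℝ hj
  have hdE : PowerSeries.derivative ℝ E = PowerSeries.C Cc * E := by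
    ext n
    rw [PowerSeries.coeff_derivative, PowerSeries.coeff_C_mul, hE, PowerSeries.coeff_mk,
      PowerSeries.coeff_mk, Nat.factorial_succ]
    have h1 := hfac n
    have h2 : (n : ℝ) + 1 ≠ 0 := by positivity
    push_cast
    field_simp
    ring
  have hdP : PowerSeries.derivative ℝ P = -(K * P) := by
    ext n
    rw [PowerSeries.coeff_derivative, map_neg, PowerSeries.coeff_mul,
      Finset.Nat.sum_antidiagonal_eq_sum_range_succ_mk]
    simp only [hP, hK, PowerSeries.coeff_mk]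
    rw [hμ n, Nat.factorial_succ]
    have h1 := hfac n
    have h2 : (n : ℝ) + 1 ≠ 0 := by positivity
    push_cast
    have h3 : (-1 : ℝ) ^ (n + 1) *
        (∑ j ∈ range (n + 1), (n.choose j : ℝ) * Kc (j + 1) * μ (n - j)) /
        (((n : ℝ) + 1) * n.factorial) * ((n : ℝ) + 1) =
        -((∑ j ∈ range (n + 1), (-1 : ℝ) ^ n * ((n.choose j : ℝ) * Kc (j + 1) * μ (n - j)) /
          n.factorial)) := by
      rw [← Finset.sum_div, ← Finset.mul_sum, pow_succ]
      field_simp
    rw [h3]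
    congr 1
    refine Finset.sum_congr rfl fun j hj => ?_
    have hj' : j ≤ n := Nat.lt_succ_iff.mp (Finset.mem_range.mp hj)
    rw [hch n j hj']
    have h4 : (-1 : ℝ) ^ n = (-1) ^ j * (-1) ^ (n - j) := by
      rw [← pow_add, Nat.add_sub_cancel' hj']
    rw [h4]
    have h5 := hfac j
    have h6 := hfac (n - j)
    field_simp
  have hΦ : PowerSeries.mk Z = E * P := by
    ext n
    rw [PowerSeries.coeff_mk, mul_comm E P, PowerSeries.coeff_mul,
      Finset.Nat.sum_antidiagonal_eq_sum_range_succ_mk]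
    simp only [hP, hE, PowerSeries.coeff_mk]
    have h1 := hfac n
    have h2 : Z n = (∑ i ∈ range (n + 1), (n.choose i : ℝ) * Cc ^ (n - i) * (-1) ^ i * μ i) /
        n.factorial := by
      rw [← hZ n]; field_simp
    rw [h2, Finset.sum_div]
    refine Finset.sum_congr rfl fun j hj => ?_
    have hj' : j ≤ n := Nat.lt_succ_iff.mp (Finset.mem_range.mp hj)
    rw [hch n j hj']
    have h5 := hfac j
    have h6 := hfac (n - j)
    field_simp
  set W : PowerSeries ℝ := PowerSeries.C Cc - K with hW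
  have hDΦ : DD (PowerSeries.mk Z) = (1 + PowerSeries.X) * W * PowerSeries.mk Z := by
    rw [hΦ, DD, Derivation.leibniz, hdE, hdP, smul_eq_mul, smul_eq_mul]
    simp only [hW]
    ring
  set F : PowerSeries ℝ := ∑ ω ∈ R, (1 + PowerSeries.X : PowerSeries ℝ) ^ (x ω) with hFdef
  set Ψ : PowerSeries ℝ := PowerSeries.C (m : ℝ) + (1 + PowerSeries.X) * W with hΨ
  have hDF : DD F = Ψ * F := by
    rw [hF, G2_DD_mul, G2_DD_mul, G2_DD_C, G2_DD_pow, hDΦ]
    simp only [hΨ]
    ring
  have hakF : ∀ k, ak k F = ∑ ω ∈ R, (x ω : ℝ) ^ k := by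
    intro k
    rw [hFdef, G2_ak_sum]
    exact Finset.sum_congr rfl fun ω _ => ak_one_add_pow k (x ω)
  have hsucc : ∀ (k : ℕ) (G : PowerSeries ℝ), ak (k + 1) G = ak k (DD G) := by
    intro k G
    rw [ak, Function.iterate_succ_apply, ← ak]
  have hcard : (R.card : ℝ) ≠ 0 := by
    have := Finset.card_pos.mpr hR
    positivity
  refine ⟨fun k => ak (k - 1) Ψ, ?_, ?_⟩
  · intro k
    rw [← hakF, hsucc, hDF, ak_mul, Finset.sum_div]
    refine Finset.sum_congr rfl fun j _ => ?_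
    rw [hakF]
    show _ = (k.choose j : ℝ) * ak (j + 1 - 1) Ψ * _
    rw [Nat.add_sub_cancel, mul_div_assoc]
  · intro k hk
    have hκ1 : ak (1 - 1) Ψ = m + (Cc - Kc 1) := by
      rw [Nat.sub_self, ak, Function.iterate_zero, id]
      simp only [hΨ, hW, hK, map_add, map_mul, map_sub, PowerSeries.constantCoeff_C,
        PowerSeries.constantCoeff_X, map_one]
      rw [← PowerSeries.coeff_zero_eq_constantCoeff_apply, PowerSeries.coeff_mk]
      simp
    have hκ1' : |ak (1 - 1) Ψ - m| = |Cc - Kc 1| := by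
      rw [hκ1]; congr 1; ring
    show |ak (k - 1) Ψ| ≤ (2 * ∑ j ∈ range k, |c (k - 1) j|) *
      (|ak (1 - 1) Ψ - m| + ∑ j ∈ Icc 2 k, |Kc j|)
    rw [hκ1']
    set T : ℝ := |Cc - Kc 1| + ∑ j ∈ Icc 2 k, |Kc j| with hT
    have hT0 : 0 ≤ ∑ j ∈ Icc 2 k, |Kc j| := Finset.sum_nonneg fun j _ => abs_nonneg _
    have hTW : ∀ j, j + 1 ≤ k → |coeff j W| ≤ T := by
      intro j hj
      rcases Nat.eq_zero_or_pos j with rfl | hj0
      · have : coeff 0 W = Cc - Kc 1 := by
          simp [hW, hK]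
        rw [this]
        linarith
      · have h1 : coeff j W = -((-1) ^ j * Kc (j + 1) / j.factorial) := by
          simp only [hW, hK, map_sub, PowerSeries.coeff_mk, PowerSeries.coeff_C]
          rw [if_neg (by omega)]
          ring
        rw [h1, abs_neg, abs_div, abs_mul, abs_pow, abs_neg, abs_one, one_pow, one_mul]
        have h2 : (1 : ℝ) ≤ |(j.factorial : ℝ)| := by
          rw [Nat.abs_cast]
          exact_mod_cast Nat.one_le_iff_ne_zero.mpr (Nat.factorial_ne_zero j)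
        have h3 : |Kc (j + 1)| / |(j.factorial : ℝ)| ≤ |Kc (j + 1)| :=
          div_le_self (abs_nonneg _) h2
        have h4 : |Kc (j + 1)| ≤ ∑ j ∈ Icc 2 k, |Kc j| := by
          refine Finset.single_le_sum (f := fun j => |Kc j|) (fun i _ => abs_nonneg _) ?_
          rw [Finset.mem_Icc]
          omega
        have h5 : 0 ≤ |Cc - Kc 1| := abs_nonneg _
        linarith
    have hcoef : ∀ j ∈ range (k - 1 + 1), |coeff j ((1 + PowerSeries.X) * W)| ≤ 2 * T := by
      intro j hj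
      have hj' : j + 1 ≤ k := by
        have := Finset.mem_range.mp hj
        omega
      have h0 : 0 ≤ T := (abs_nonneg _).trans (hTW 0 (by omega))
      rcases Nat.eq_zero_or_pos j with rfl | hj0
      · have : coeff 0 ((1 + PowerSeries.X) * W) = coeff 0 W := by
          rw [add_mul, one_mul, map_add, PowerSeries.coeff_zero_X_mul, add_zero]
        rw [this]
        have := hTW 0 hj'
        linarith
      · obtain ⟨i, rfl⟩ : ∃ i, j = i + 1 := ⟨j - 1, by omega⟩
        have : coeff (i + 1) ((1 + PowerSeries.X) * W) = coeff (i + 1) W + coeff i W := by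
          rw [add_mul, one_mul, map_add, PowerSeries.coeff_succ_X_mul]
        rw [this]
        have h1 := hTW (i + 1) hj'
        have h2 := hTW i (by omega)
        have h3 := abs_add_le (coeff (i + 1) W) (coeff i W)
        linarith
    have hak : ak (k - 1) Ψ = ∑ j ∈ range (k - 1 + 1),
        c (k - 1) j * coeff j ((1 + PowerSeries.X) * W) := by
      rw [hΨ, G2_ak_add, G2_ak_C (k - 1) (by omega), zero_add, hc]
    rw [hak]
    calc |∑ j ∈ range (k - 1 + 1), c (k - 1) j * coeff j ((1 + PowerSeries.X) * W)|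
        ≤ ∑ j ∈ range (k - 1 + 1), |c (k - 1) j * coeff j ((1 + PowerSeries.X) * W)| :=
          Finset.abs_sum_le_sum_abs _ _
      _ ≤ ∑ j ∈ range (k - 1 + 1), |c (k - 1) j| * (2 * T) := by
          refine Finset.sum_le_sum fun j hj => ?_
          rw [abs_mul]
          exact mul_le_mul_of_nonneg_left (hcoef j hj) (abs_nonneg _)
      _ = (2 * ∑ j ∈ range k, |c (k - 1) j|) * T := by
          rw [← Finset.sum_mul, Nat.sub_add_cancel (by omega)]
          ring

end SND
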