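import Pool.Agent.SND.Defs

open Finset Filter Topology MeasureTheory

namespace SND

/-- binomial transform of a convolution recursion -/
theorem G3a_key (M κ : ℕ → ℝ) (s : ℝ)
    (h : ∀ k, M (k + 1) = ∑ j ∈ range (k + 1), (k.choose j : ℝ) * κ (j + 1) * M (k - j)) (k : ℕ) :
    ∑ i ∈ range (k + 1), (k.choose i : ℝ) * (-s) ^ (k - i) * M (i + 1) =
      ∑ j ∈ range (k + 1), (k.choose j : ℝ) * κ (j + 1) *
        ∑ l ∈ range (k - j + 1), ((k - j).choose l : ℝ) * (-s) ^ (k - j - l) * M l := by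
  have h1 : ∀ i ∈ range (k + 1), (k.choose i : ℝ) * (-s) ^ (k - i) * M (i + 1) =
      ∑ j ∈ range (k + 1), (k.choose i : ℝ) * (-s) ^ (k - i) *
        ((i.choose j : ℝ) * κ (j + 1) * M (i - j)) := by
    intro i hi
    rw [Finset.mem_range] at hi
    rw [h, ← Finset.mul_sum]
    congr 1
    apply Finset.sum_subset (Finset.range_subset_range.2 (by omega))
    intro j _ hj
    rw [Finset.mem_range, not_lt] at hj
    rw [Nat.choose_eq_zero_of_lt (by omega)]
    simp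
  rw [Finset.sum_congr rfl h1, Finset.sum_comm]
  apply Finset.sum_congr rfl
  intro j hj
  rw [Finset.mem_range] at hj
  have h2 : k + 1 = j + (k - j + 1) := by omega
  conv_lhs => rw [h2, Finset.sum_range_add]
  have h3 : ∑ x ∈ range j, (k.choose x : ℝ) * (-s) ^ (k - x) *
      ((x.choose j : ℝ) * κ (j + 1) * M (x - j)) = 0 := by
    apply Finset.sum_eq_zero
    intro x hx
    rw [Finset.mem_range] at hx
    rw [Nat.choose_eq_zero_of_lt hx]
    simp
  rw [h3, zero_add, Finset.mul_sum]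
  apply Finset.sum_congr rfl
  intro l hl
  rw [Finset.mem_range] at hl
  have h4 := Nat.choose_mul (n := k) (k := j + l) (s := j) (by omega)
  rw [Nat.add_sub_cancel_left] at h4
  have h5 : (k.choose (j + l) : ℝ) * ((j + l).choose j : ℝ) =
      (k.choose j : ℝ) * ((k - j).choose l : ℝ) := by exact_mod_cast h4
  rw [Nat.add_sub_cancel_left, Nat.sub_sub k j l]
  linear_combination (-s) ^ (k - (j + l)) * κ (j + 1) * M l * h5

/-- ROW SND-G3a. Centering.

Proof. Write `M k = (∑ (x ω)^k)/#R` and `c k = (∑ (x ω - s)^k)/#R`, `s = κ 1`. By the binomial theorem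
`(∑ x ω (x ω - s)^k)/#R = ∑_i (k.choose i) (-s)^(k-i) M (i+1)
 = ∑_i (k.choose i) (-s)^(k-i) ∑_{j ≤ i} (i.choose j) κ (j+1) M (i-j)
 = ∑_{j ≤ k} (k.choose j) κ (j+1) ∑_{i ≥ j} ((k-j).choose (i-j)) (-s)^(k-i) M (i-j)
 = ∑_{j ≤ k} (k.choose j) κ (j+1) c (k-j)`
(`Nat.choose_mul`). Subtract `s * c k = κ 1 * c k` (the term `j = 0`). -/
theorem centered_rec {Ω : Type} (R : Finset Ω) (x : Ω → ℝ) (κ : ℕ → ℝ)
    (h : ∀ k, (∑ ω ∈ R, (x ω) ^ (k + 1)) / R.card =
      ∑ j ∈ range (k + 1), (k.choose j : ℝ) * κ (j + 1) *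
        ((∑ ω ∈ R, (x ω) ^ (k - j)) / R.card)) (k : ℕ) :
    (∑ ω ∈ R, (x ω - κ 1) ^ (k + 1)) / R.card =
      ∑ j ∈ Icc 1 k, (k.choose j : ℝ) * κ (j + 1) *
        ((∑ ω ∈ R, (x ω - κ 1) ^ (k - j)) / R.card) := by
  have hc : ∀ k, (∑ ω ∈ R, (x ω - κ 1) ^ k) / (R.card : ℝ) =
      ∑ l ∈ range (k + 1), (k.choose l : ℝ) * (-κ 1) ^ (k - l) *
        ((∑ ω ∈ R, (x ω) ^ l) / R.card) := by
    intro k
    have h1 : ∀ ω ∈ R, (x ω - κ 1) ^ k =
        ∑ l ∈ range (k + 1), (k.choose l : ℝ) * (-κ 1) ^ (k - l) * (x ω) ^ l := by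
      intro ω _
      rw [sub_eq_add_neg, add_pow]
      apply Finset.sum_congr rfl
      intro l _
      ring
    rw [Finset.sum_congr rfl h1, Finset.sum_comm, Finset.sum_div]
    apply Finset.sum_congr rfl
    intro l _
    rw [← Finset.mul_sum, mul_div_assoc]
  have hd : (∑ ω ∈ R, x ω * (x ω - κ 1) ^ k) / (R.card : ℝ) =
      ∑ l ∈ range (k + 1), (k.choose l : ℝ) * (-κ 1) ^ (k - l) *
        ((∑ ω ∈ R, (x ω) ^ (l + 1)) / R.card) := by
    have h1 : ∀ ω ∈ R, x ω * (x ω - κ 1) ^ k =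
        ∑ l ∈ range (k + 1), (k.choose l : ℝ) * (-κ 1) ^ (k - l) * (x ω) ^ (l + 1) := by
      intro ω _
      rw [sub_eq_add_neg, add_pow, Finset.mul_sum]
      apply Finset.sum_congr rfl
      intro l _
      ring
    rw [Finset.sum_congr rfl h1, Finset.sum_comm, Finset.sum_div]
    apply Finset.sum_congr rfl
    intro l _
    rw [← Finset.mul_sum, mul_div_assoc]
  have hk := G3a_key (fun k => (∑ ω ∈ R, (x ω) ^ k) / (R.card : ℝ)) κ (κ 1) h k
  rw [← hd] at hk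
  have hsplit : (∑ ω ∈ R, (x ω - κ 1) ^ (k + 1)) / (R.card : ℝ) =
      (∑ ω ∈ R, x ω * (x ω - κ 1) ^ k) / (R.card : ℝ) -
        κ 1 * ((∑ ω ∈ R, (x ω - κ 1) ^ k) / (R.card : ℝ)) := by
    rw [mul_div_assoc', ← sub_div, Finset.mul_sum, ← Finset.sum_sub_distrib]
    congr 1
    apply Finset.sum_congr rfl
    intro ω _
    ring
  rw [hsplit, hk]
  have h0 : range (k + 1) = insert 0 (Icc 1 k) := by
    ext j
    simp only [Finset.mem_range, Finset.mem_insert, Finset.mem_Icc]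
    omega
  have h2 : ∀ j ∈ range (k + 1), (k.choose j : ℝ) * κ (j + 1) *
      ∑ l ∈ range (k - j + 1), ((k - j).choose l : ℝ) * (-κ 1) ^ (k - j - l) *
        ((∑ ω ∈ R, (x ω) ^ l) / R.card) =
      (k.choose j : ℝ) * κ (j + 1) * ((∑ ω ∈ R, (x ω - κ 1) ^ (k - j)) / (R.card : ℝ)) := by
    intro j _
    rw [hc]
  rw [Finset.sum_congr rfl h2, h0, Finset.sum_insert (by simp), Nat.choose_zero_right,
    Nat.sub_zero, Nat.cast_one, zero_add]
  ring

end SND
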