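import Pool.Agent.SND.Defs

open Finset Filter Topology MeasureTheory

namespace SND

/-- ROW SND-G3b. Convergence of the normalised moments.

Proof: strong induction on `k`. `k = 0, 1`: eventually constant. `k + 2`: for large `n` (`σ n > 0`),
`c n (k+2) / σ n ^ (k+2) = ∑_{j ∈ Icc 1 (k+1)} ((k+1).choose j) (κ n (j+1) / σ n ^ (j+1))
(c n (k+1-j) / σ n ^ (k+1-j))`; the term `j = 1` is `(k+1) * (c n k / σ n ^ k) → (k+1) gm k`
(`κ n 2 / σ n ^ 2 = 1`), the terms `j ≥ 2` tend to `0 * gm (k+1-j) = 0`. -/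
theorem moments_tendsto (σ : ℕ → ℝ) (hσ : ∀ᶠ n in atTop, 0 < σ n) (c κ : ℕ → ℕ → ℝ)
    (h0 : ∀ᶠ n in atTop, c n 0 = 1) (h1 : ∀ᶠ n in atTop, c n 1 = 0)
    (hrec : ∀ᶠ n in atTop, ∀ k, c n (k + 1) =
      ∑ j ∈ Icc 1 k, (k.choose j : ℝ) * κ n (j + 1) * c n (k - j))
    (h2 : ∀ᶠ n in atTop, κ n 2 = σ n ^ 2)
    (h3 : ∀ k, 3 ≤ k → Tendsto (fun n => κ n k / σ n ^ k) atTop (𝓝 0)) (k : ℕ) :
    Tendsto (fun n => c n k / σ n ^ k) atTop (𝓝 (gm k)) := by
  induction k using Nat.strong_induction_on with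
  | _ k ih =>
  rcases k with _ | _ | k
  · refine tendsto_const_nhds.congr' ?_
    filter_upwards [h0] with n hn
    simp [hn, gm]
  · refine tendsto_const_nhds.congr' ?_
    filter_upwards [h1] with n hn
    simp [hn, gm]
  · have hlim : ∀ j ∈ Icc 1 (k + 1), Tendsto (fun n => ((k + 1).choose j : ℝ) *
        (κ n (j + 1) / σ n ^ (j + 1)) * (c n (k + 1 - j) / σ n ^ (k + 1 - j))) atTop
        (𝓝 (((k + 1).choose j : ℝ) * (if j = 1 then 1 else 0) * gm (k + 1 - j))) := by
      intro j hj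
      rw [Finset.mem_Icc] at hj
      apply Tendsto.mul
      · apply Tendsto.mul tendsto_const_nhds
        by_cases hj1 : j = 1
        · rw [if_pos hj1, hj1]
          refine tendsto_const_nhds.congr' ?_
          filter_upwards [h2, hσ] with n hn hs
          rw [show (1 : ℕ) + 1 = 2 from rfl, hn, div_self (by positivity)]
        · rw [if_neg hj1]
          exact h3 (j + 1) (by omega)
      · exact ih (k + 1 - j) (by omega)
    have hsum := tendsto_finset_sum _ hlim
    have hval : ∑ j ∈ Icc 1 (k + 1), ((k + 1).choose j : ℝ) * (if j = 1 then 1 else 0) *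
        gm (k + 1 - j) = gm (k + 2) := by
      rw [Finset.sum_eq_single 1]
      · simp [gm]
      · intro j _ hj
        simp [hj]
      · intro h
        exact absurd (Finset.mem_Icc.2 ⟨le_refl 1, by omega⟩) h
    rw [hval] at hsum
    refine hsum.congr' ?_
    filter_upwards [hrec, hσ] with n hn hs
    rw [hn (k + 1), Finset.sum_div]
    apply Finset.sum_congr rfl
    intro j hj
    rw [Finset.mem_Icc] at hj
    have h5 : σ n ^ (k + 1 + 1) = σ n ^ (j + 1) * σ n ^ (k + 1 - j) := by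
      rw [← pow_add]
      congr 1
      omega
    rw [h5]
    have h6 : σ n ^ (j + 1) ≠ 0 := by positivity
    have h7 : σ n ^ (k + 1 - j) ≠ 0 := by positivity
    generalize σ n ^ (j + 1) = A at h6 ⊢
    generalize σ n ^ (k + 1 - j) = B at h7 ⊢
    field_simp

end SND
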