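import Pool.Agent.SND.Defs

open Finset Filter Topology MeasureTheory

namespace SND

/-- the Taylor polynomial of the exponential -/
noncomputable def G3c_P (c : ℂ) (K : ℕ) (y : ℝ) : ℂ :=
  ∑ k ∈ range K, (c * (y : ℂ)) ^ k / (k.factorial : ℂ)

theorem G3c_P_deriv (c : ℂ) (K : ℕ) (y : ℝ) :
    HasDerivAt (G3c_P c (K + 1)) (c * G3c_P c K y) y := by
  induction K with
  | zero =>
    have h1 : G3c_P c (0 + 1) = fun _ : ℝ => (1 : ℂ) := by
      funext z
      simp [G3c_P]
    have h2 : G3c_P c 0 y = 0 := by simp [G3c_P]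
    rw [h1, h2, mul_zero]
    exact hasDerivAt_const _ _
  | succ K ih =>
    have h1 : G3c_P c (K + 1 + 1) =
        fun z : ℝ => G3c_P c (K + 1) z + (c * (z : ℂ)) ^ (K + 1) / ((K + 1).factorial : ℂ) := by
      funext z
      unfold G3c_P
      rw [Finset.sum_range_succ]
    have h2 : HasDerivAt (fun z : ℝ => c * (z : ℂ)) c y := by
      have h3 : HasDerivAt (fun z : ℝ => (z : ℂ)) 1 y := by
        simpa using (hasDerivAt_id y).ofReal_comp
      simpa using h3.const_mul c
    have h4 : HasDerivAt (fun z : ℝ => (c * (z : ℂ)) ^ (K + 1) / ((K + 1).factorial : ℂ))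
        (((K + 1 : ℕ) : ℂ) * (c * (y : ℂ)) ^ K * c / ((K + 1).factorial : ℂ)) y := by
      have h5 := (h2.fun_pow (K + 1)).div_const ((K + 1).factorial : ℂ)
      simpa using h5
    rw [h1]
    refine (ih.add h4).congr_deriv ?_
    have h6 : G3c_P c (K + 1) y = G3c_P c K y + (c * (y : ℂ)) ^ K / (K.factorial : ℂ) := by
      unfold G3c_P
      rw [Finset.sum_range_succ]
    rw [h6, Nat.factorial_succ]
    have h7 : ((K : ℂ) + 1) ≠ 0 := Nat.cast_add_one_ne_zero K
    have h8 : (K.factorial : ℂ) ≠ 0 := by exact_mod_cast K.factorial_ne_zero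
    push_cast
    field_simp

theorem G3c_rem_nonneg (c : ℂ) (hc : ‖c‖ = 1) (hc' : c.re = 0) (K : ℕ) : ∀ y : ℝ, 0 ≤ y →
    ‖Complex.exp (c * y) - G3c_P c K y‖ ≤ y ^ K / K.factorial := by
  induction K with
  | zero =>
    intro y _
    have h1 : G3c_P c 0 y = 0 := by simp [G3c_P]
    rw [h1, sub_zero, Complex.norm_exp]
    simp [hc']
  | succ K ih =>
    intro y hy
    have hexp : ∀ z : ℝ, HasDerivAt (fun z : ℝ => Complex.exp (c * (z : ℂ)))
        (c * Complex.exp (c * (z : ℂ))) z := by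
      intro z
      have h3 : HasDerivAt (fun z : ℝ => (z : ℂ)) 1 z := by
        simpa using (hasDerivAt_id z).ofReal_comp
      have h2 : HasDerivAt (fun z : ℝ => c * (z : ℂ)) c z := by
        simpa using h3.const_mul c
      have h4 := h2.cexp
      rwa [mul_comm] at h4
    have hf : ∀ z : ℝ, HasDerivAt (fun z : ℝ => Complex.exp (c * (z : ℂ)) - G3c_P c (K + 1) z)
        (c * (Complex.exp (c * (z : ℂ)) - G3c_P c K z)) z := by
      intro z
      rw [mul_sub]
      exact (hexp z).sub (G3c_P_deriv c K z)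
    have hB : ∀ z : ℝ, HasDerivAt (fun z : ℝ => z ^ (K + 1) / ((K + 1).factorial : ℝ))
        (z ^ K / (K.factorial : ℝ)) z := by
      intro z
      have h5 := (hasDerivAt_pow (K + 1) z).div_const ((K + 1).factorial : ℝ)
      refine h5.congr_deriv ?_
      rw [Nat.factorial_succ]
      have h7 : ((K : ℝ) + 1) ≠ 0 := by positivity
      have h8 : (K.factorial : ℝ) ≠ 0 := by positivity
      rw [Nat.add_sub_cancel]
      push_cast
      field_simp
    have hfc : ContinuousOn (fun z : ℝ => Complex.exp (c * (z : ℂ)) - G3c_P c (K + 1) z)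
        (Set.Icc 0 y) := fun z _ => (hf z).continuousAt.continuousWithinAt
    refine image_norm_le_of_norm_deriv_right_le_deriv_boundary (a := 0) (b := y)
      hfc (fun z _ => (hf z).hasDerivWithinAt) ?_ hB ?_ (Set.right_mem_Icc.2 hy)
    · have h1 : G3c_P c (K + 1) 0 = 1 := by
        unfold G3c_P
        rw [Finset.sum_range_succ']
        simp
      simp [h1]
    · intro z hz
      rw [norm_mul, hc, one_mul]
      exact ih z hz.1

/-- Taylor remainder -/
theorem G3c_rem (K : ℕ) (y : ℝ) :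
    ‖Complex.exp (Complex.I * y) - G3c_P Complex.I K y‖ ≤ |y| ^ K / K.factorial := by
  rcases le_total 0 y with hy | hy
  · rw [abs_of_nonneg hy]
    exact G3c_rem_nonneg Complex.I Complex.norm_I Complex.I_re K y hy
  · have h1 := G3c_rem_nonneg (-Complex.I) (by simp) (by simp) K (-y) (by linarith)
    rw [abs_of_nonpos hy]
    have h2 : -Complex.I * ((-y : ℝ) : ℂ) = Complex.I * (y : ℂ) := by push_cast; ring
    have h3 : G3c_P (-Complex.I) K (-y) = G3c_P Complex.I K y := by
      unfold G3c_P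
      rw [h2]
    rw [h2, h3] at h1
    exact h1

/-- the Taylor polynomial of the characteristic function -/
theorem G3c_char (μ : Measure ℝ) [IsProbabilityMeasure μ]
    (hint : ∀ k, Integrable (fun x : ℝ => x ^ k) μ) (t : ℝ) (J : ℕ) :
    ‖charFun μ t - ∑ k ∈ range (2 * J), (Complex.I * t) ^ k / (k.factorial : ℂ) *
      ((∫ x, x ^ k ∂μ : ℝ) : ℂ)‖ ≤ t ^ (2 * J) / (2 * J).factorial * ∫ x, x ^ (2 * J) ∂μ := by
  have h1 : charFun μ t = ∫ x, Complex.exp (Complex.I * ((t * x : ℝ) : ℂ)) ∂μ := by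
    rw [charFun_apply_real]
    refine integral_congr_ae (Filter.Eventually.of_forall fun x => ?_)
    simp only
    congr 1
    push_cast
    ring
  have hterm : ∀ (k : ℕ) (x : ℝ), (Complex.I * ((t * x : ℝ) : ℂ)) ^ k / (k.factorial : ℂ) =
      (Complex.I * t) ^ k / (k.factorial : ℂ) * ((x ^ k : ℝ) : ℂ) := by
    intro k x
    push_cast
    rw [← mul_assoc, mul_pow]
    ring
  have hI : ∀ k, Integrable (fun x : ℝ => (Complex.I * ((t * x : ℝ) : ℂ)) ^ k /
      (k.factorial : ℂ)) μ := by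
    intro k
    simp_rw [hterm k]
    exact (hint k).ofReal.const_mul _
  have h2 : ∑ k ∈ range (2 * J), (Complex.I * t) ^ k / (k.factorial : ℂ) *
      ((∫ x, x ^ k ∂μ : ℝ) : ℂ) = ∫ x, G3c_P Complex.I (2 * J) (t * x) ∂μ := by
    unfold G3c_P
    rw [integral_finsetSum _ (fun k _ => hI k)]
    refine Finset.sum_congr rfl fun k _ => ?_
    simp_rw [hterm k]
    rw [integral_const_mul]
    congr 1
    exact (integral_complex_ofReal).symm
  have hIexp : Integrable (fun x : ℝ => Complex.exp (Complex.I * ((t * x : ℝ) : ℂ))) μ := by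
    refine Integrable.of_bound (C := 1) ?_ (Filter.Eventually.of_forall fun x => ?_)
    · exact (by fun_prop : Continuous fun x : ℝ =>
        Complex.exp (Complex.I * ((t * x : ℝ) : ℂ))).aestronglyMeasurable
    · rw [mul_comm, Complex.norm_exp_ofReal_mul_I]
  have hIP : Integrable (fun x : ℝ => G3c_P Complex.I (2 * J) (t * x)) μ := by
    unfold G3c_P
    exact integrable_finsetSum _ (fun k _ => hI k)
  rw [h1, h2, ← integral_sub hIexp hIP, ← integral_const_mul]
  refine norm_integral_le_of_norm_le ((hint (2 * J)).const_mul _)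
    (Filter.Eventually.of_forall fun x => ?_)
  refine (G3c_rem (2 * J) (t * x)).trans (le_of_eq ?_)
  rw [(even_two_mul J).pow_abs, mul_pow]
  ring

theorem G3c_gm_odd (j : ℕ) : gm (2 * j + 1) = 0 := by
  induction j with
  | zero => rfl
  | succ j ih =>
    have h1 : gm (2 * (j + 1) + 1) = ((2 * j + 1 : ℕ) + 1) * gm (2 * j + 1) := rfl
    rw [h1, ih, mul_zero]

theorem G3c_gm_even (j : ℕ) : gm (2 * j) / (2 * j).factorial = (1 / 2) ^ j / j.factorial := by
  induction j with
  | zero => simp [gm]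
  | succ j ih =>
    have h1 : gm (2 * (j + 1)) = ((2 * j : ℕ) + 1) * gm (2 * j) := rfl
    have h2 : (2 * (j + 1)).factorial = (2 * j + 2) * ((2 * j + 1) * (2 * j).factorial) := rfl
    have h3 : (j + 1).factorial = (j + 1) * j.factorial := rfl
    have h4 : ((2 * j).factorial : ℝ) ≠ 0 := by positivity
    have h5 : (j.factorial : ℝ) ≠ 0 := by positivity
    have h6 : gm (2 * j) = (1 / 2) ^ j / j.factorial * (2 * j).factorial := by
      rw [← ih]
      field_simp
    rw [h1, h2, h3, h6]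
    push_cast
    have h7 : ((j : ℝ) + 1) ≠ 0 := by positivity
    have h8 : ((2 : ℝ) * j + 1) ≠ 0 := by positivity
    have h9 : ((2 : ℝ) * j + 2) ≠ 0 := by positivity
    field_simp
    ring

theorem G3c_sum (t : ℝ) (J : ℕ) :
    ∑ k ∈ range (2 * J), (Complex.I * t) ^ k / (k.factorial : ℂ) * ((gm k : ℝ) : ℂ) =
      ∑ j ∈ range J, (-(t : ℂ) ^ 2 / 2) ^ j / (j.factorial : ℂ) := by
  induction J with
  | zero => simp
  | succ J ih =>
    have h1 : 2 * (J + 1) = 2 * J + 1 + 1 := by ring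
    rw [h1, Finset.sum_range_succ, Finset.sum_range_succ, Finset.sum_range_succ, ih, G3c_gm_odd]
    have h2 : (Complex.I * t) ^ (2 * J) / ((2 * J).factorial : ℂ) * ((gm (2 * J) : ℝ) : ℂ) =
        (-(t : ℂ) ^ 2 / 2) ^ J / (J.factorial : ℂ) := by
      have h3 : ((gm (2 * J) / (2 * J).factorial : ℝ) : ℂ) = (((1 / 2) ^ J / J.factorial : ℝ) : ℂ) := by
        rw [G3c_gm_even]
      push_cast at h3
      have h4 : (Complex.I * t) ^ (2 * J) = (-(t : ℂ) ^ 2) ^ J := by
        rw [pow_mul, mul_pow, Complex.I_sq]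
        ring
      calc (Complex.I * t) ^ (2 * J) / ((2 * J).factorial : ℂ) * ((gm (2 * J) : ℝ) : ℂ)
          = (-(t : ℂ) ^ 2) ^ J * (((gm (2 * J) : ℝ) : ℂ) / ((2 * J).factorial : ℂ)) := by
            rw [h4]; ring
        _ = (-(t : ℂ) ^ 2) ^ J * ((1 / 2) ^ J / (J.factorial : ℂ)) := by rw [h3]
        _ = (-(t : ℂ) ^ 2 / 2) ^ J / (J.factorial : ℂ) := by
            rw [div_pow (-(t : ℂ) ^ 2), one_div, inv_pow]
            ring
    rw [h2]
    simp

/-- ROW SND-G3c. The method of moments.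

Proof. Fix `t`. For `K` even, `|exp (i t x) - ∑_{k < K} (i t x)^k / k!| ≤ |t x|^K / K!`
(Taylor with remainder for `exp (i y)`, `y` real; Mathlib: look for
`Complex.norm_exp_sub_sum_le_...`/`Real`/`norm_exp_I...`, or prove it by induction with integrals; any
bound of the form `C_K |t x|^K` with `C_K t^K gm K → 0` is fine), so
`|charFun (μ n) t - ∑_{k < K} (i t)^k / k! * ∫ x^k dμ n| ≤ t^K / K! * ∫ x^K dμ n`. Let `n → ∞`: the
limsup of `|charFun (μ n) t - ∑_{k < K} (i t)^k / k! * gm k|` is at most `t^K / K! * gm K`. Now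
`gm (2 j) = (2 j)! / (2^j j!)` and `gm (odd) = 0`, so `t^K gm K / K! = (t^2/2)^(K/2) / (K/2)! → 0` and
`∑_{k < K} (i t)^k / k! * gm k = ∑_{j < K/2} (-t^2/2)^j / j! → exp (-t^2/2)` as `K → ∞`. -/
theorem charFun_tendsto (μ : ℕ → Measure ℝ) [∀ n, IsProbabilityMeasure (μ n)]
    (hint : ∀ n k, Integrable (fun x : ℝ => x ^ k) (μ n))
    (h : ∀ k, Tendsto (fun n => ∫ x, x ^ k ∂(μ n)) atTop (𝓝 (gm k))) (t : ℝ) :
    Tendsto (fun n => charFun (μ n) t) atTop (𝓝 (Complex.exp (-(t : ℂ) ^ 2 / 2))) := by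
  have hlimA : Tendsto (fun J : ℕ => ∑ j ∈ range J, (-(t : ℂ) ^ 2 / 2) ^ j / (j.factorial : ℂ))
      atTop (𝓝 (Complex.exp (-(t : ℂ) ^ 2 / 2))) := by
    have h1 := (NormedSpace.expSeries_div_hasSum_exp (-(t : ℂ) ^ 2 / 2)).tendsto_sum_nat
    rwa [← Complex.exp_eq_exp_ℂ] at h1
  have hlimB : Tendsto (fun J : ℕ => t ^ (2 * J) / (2 * J).factorial * gm (2 * J))
      atTop (𝓝 0) := by
    have h1 : (fun J : ℕ => t ^ (2 * J) / (2 * J).factorial * gm (2 * J)) =
        fun J : ℕ => (t ^ 2 / 2) ^ J / J.factorial := by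
      funext J
      have h2 := G3c_gm_even J
      calc t ^ (2 * J) / (2 * J).factorial * gm (2 * J)
          = t ^ (2 * J) * (gm (2 * J) / (2 * J).factorial) := by ring
        _ = t ^ (2 * J) * ((1 / 2) ^ J / J.factorial) := by rw [h2]
        _ = (t ^ 2 / 2) ^ J / J.factorial := by
            rw [pow_mul, div_pow (t ^ 2), one_div, inv_pow]
            ring
    rw [h1]
    exact FloorSemiring.tendsto_pow_div_factorial_atTop _
  rw [Metric.tendsto_atTop]
  intro ε hε
  obtain ⟨J1, hJ1⟩ := Metric.tendsto_atTop.1 hlimA (ε / 2) (by positivity)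
  obtain ⟨J2, hJ2⟩ := Metric.tendsto_atTop.1 hlimB (ε / 2) (by positivity)
  set J := max J1 J2 with hJ
  have hA := hJ1 J (le_max_left _ _)
  have hB := hJ2 J (le_max_right _ _)
  set A : ℕ → ℂ := fun n => ∑ k ∈ range (2 * J), (Complex.I * t) ^ k / (k.factorial : ℂ) *
      ((∫ x, x ^ k ∂(μ n) : ℝ) : ℂ) with hAdef
  set B : ℕ → ℝ := fun n => t ^ (2 * J) / (2 * J).factorial * ∫ x, x ^ (2 * J) ∂(μ n) with hBdef
  have hAlim : Tendsto A atTop (𝓝 (∑ j ∈ range J, (-(t : ℂ) ^ 2 / 2) ^ j / (j.factorial : ℂ))) := by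
    rw [← G3c_sum]
    refine tendsto_finsetSum _ fun k _ => ?_
    exact (((Complex.continuous_ofReal.tendsto _).comp (h k))).const_mul _
  have hBlim : Tendsto B atTop (𝓝 (t ^ (2 * J) / (2 * J).factorial * gm (2 * J))) :=
    (h (2 * J)).const_mul _
  have hG : Tendsto (fun n => B n + dist (A n) (Complex.exp (-(t : ℂ) ^ 2 / 2))) atTop
      (𝓝 (t ^ (2 * J) / (2 * J).factorial * gm (2 * J) +
        dist (∑ j ∈ range J, (-(t : ℂ) ^ 2 / 2) ^ j / (j.factorial : ℂ))
          (Complex.exp (-(t : ℂ) ^ 2 / 2)))) :=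
    hBlim.add (hAlim.dist tendsto_const_nhds)
  have hlt : t ^ (2 * J) / (2 * J).factorial * gm (2 * J) +
        dist (∑ j ∈ range J, (-(t : ℂ) ^ 2 / 2) ^ j / (j.factorial : ℂ))
          (Complex.exp (-(t : ℂ) ^ 2 / 2)) < ε := by
    rw [Real.dist_eq, sub_zero] at hB
    have := le_abs_self (t ^ (2 * J) / (2 * J).factorial * gm (2 * J))
    linarith
  have hev := hG.eventually (gt_mem_nhds hlt)
  obtain ⟨n0, hn0⟩ := eventually_atTop.1 hev
  refine ⟨n0, fun n hn => ?_⟩
  refine lt_of_le_of_lt ?_ (hn0 n hn)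
  refine (dist_triangle _ (A n) _).trans ?_
  have h5 := G3c_char (μ n) (hint n) t J
  rw [← dist_eq_norm] at h5
  exact add_le_add_left h5 _

end SND
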