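import Pool.Agent.SND.Defs

open Finset

namespace SND

theorem H1_card_nbr {n : ℕ} (u : Site n) : (univ.filter (fun w : Site n => Adj u w)).card ≤ 4 := by
  have h1 : ((univ.filter (fun w : Site n => Adj u w)).image
      (fun w : Site n => ((w.1 : ℕ), (w.2 : ℕ)))) ⊆
      ({((u.1 : ℕ), (u.2 : ℕ) + 1), ((u.1 : ℕ), (u.2 : ℕ) - 1), ((u.1 : ℕ) + 1, (u.2 : ℕ)),
        ((u.1 : ℕ) - 1, (u.2 : ℕ))} : Finset (ℕ × ℕ)) := by
    intro p hp
    obtain ⟨w, hw, rfl⟩ := Finset.mem_image.1 hp
    have hw' := (Finset.mem_filter.1 hw).2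
    simp only [Finset.mem_insert, Finset.mem_singleton, Prod.mk.injEq]
    rcases hw' with ⟨h1, h2⟩ | ⟨h1, h2⟩
    · have h3 : (u.1 : ℕ) = w.1 := by rw [h1]
      rcases h2 with h2 | h2
      · left; omega
      · right; left; omega
    · have h3 : (u.2 : ℕ) = w.2 := by rw [h1]
      rcases h2 with h2 | h2
      · right; right; left; omega
      · right; right; right; omega
  have h2 : Function.Injective (fun w : Site n => ((w.1 : ℕ), (w.2 : ℕ))) := by
    intro a b hab
    simp only [Prod.mk.injEq] at hab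
    exact Prod.ext (Fin.ext hab.1) (Fin.ext hab.2)
  rw [← Finset.card_image_of_injective _ h2]
  refine (Finset.card_le_card h1).trans ?_
  exact Finset.card_le_four

theorem H1_all {n : ℕ} (X : Finset (Site n)) (u : Site n)
    (h : 4 ≤ (X.filter (fun w => Adj u w)).card) (w : Site n) (hw : Adj u w) : w ∈ X := by
  have h1 : X.filter (fun w => Adj u w) ⊆ univ.filter (fun w : Site n => Adj u w) :=
    Finset.filter_subset_filter _ (Finset.subset_univ _)
  have h2 := Finset.eq_of_subset_of_card_le h1 ((H1_card_nbr u).trans h)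
  have h3 : w ∈ univ.filter (fun w : Site n => Adj u w) := by simp [hw]
  rw [← h2] at h3
  exact (Finset.mem_filter.1 h3).1

theorem H1_four {n : ℕ} (v : Site n) (X : Finset (Site n)) {p q : ℕ} (hp : (v.1 : ℕ) = p + 1)
    (hq : (v.2 : ℕ) = q + 1) (x1 : p + 1 < n) (y1 : q < n) (x2 : p + 1 < n) (y2 : q + 2 < n)
    (x3 : p < n) (y3 : q + 1 < n) (x4 : p + 2 < n) (y4 : q + 1 < n)
    (b1 : ((⟨p + 1, x1⟩, ⟨q, y1⟩) : Site n) ∈ X) (b2 : ((⟨p + 1, x2⟩, ⟨q + 2, y2⟩) : Site n) ∈ X)
    (b3 : ((⟨p, x3⟩, ⟨q + 1, y3⟩) : Site n) ∈ X) (b4 : ((⟨p + 2, x4⟩, ⟨q + 1, y4⟩) : Site n) ∈ X) :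
    4 ≤ (X.filter (fun w => Adj v w)).card := by
  classical
  have c1 : ((⟨p + 1, x1⟩, ⟨q, y1⟩) : Site n) ∈ X.filter (fun w => Adj v w) :=
    Finset.mem_filter.2 ⟨b1, Or.inl ⟨Fin.ext hp, Or.inr (by simp only; omega)⟩⟩
  have c2 : ((⟨p + 1, x2⟩, ⟨q + 2, y2⟩) : Site n) ∈ X.filter (fun w => Adj v w) :=
    Finset.mem_filter.2 ⟨b2, Or.inl ⟨Fin.ext hp, Or.inl (by simp only; omega)⟩⟩
  have c3 : ((⟨p, x3⟩, ⟨q + 1, y3⟩) : Site n) ∈ X.filter (fun w => Adj v w) :=
    Finset.mem_filter.2 ⟨b3, Or.inr ⟨Fin.ext hq, Or.inr (by simp only; omega)⟩⟩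
  have c4 : ((⟨p + 2, x4⟩, ⟨q + 1, y4⟩) : Site n) ∈ X.filter (fun w => Adj v w) :=
    Finset.mem_filter.2 ⟨b4, Or.inr ⟨Fin.ext hq, Or.inl (by simp only; omega)⟩⟩
  let f : Fin 4 → Site n := ![(⟨p + 1, x1⟩, ⟨q, y1⟩), (⟨p + 1, x2⟩, ⟨q + 2, y2⟩),
    (⟨p, x3⟩, ⟨q + 1, y3⟩), (⟨p + 2, x4⟩, ⟨q + 1, y4⟩)]
  have hf : Function.Injective f := by
    intro i j hij
    have h1 : ((f i).1 : ℕ) = (f j).1 := by rw [hij]
    have h2 : ((f i).2 : ℕ) = (f j).2 := by rw [hij]
    fin_cases i <;> fin_cases j <;> first | rfl | (exfalso; simp [f] at h1 h2)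
  have h3 : (univ.image f) ⊆ X.filter (fun w => Adj v w) := by
    intro w hw
    obtain ⟨i, -, rfl⟩ := Finset.mem_image.1 hw
    fin_cases i
    · exact c1
    · exact c2
    · exact c3
    · exact c4
  have h4 := Finset.card_le_card h3
  rw [Finset.card_image_of_injective _ hf] at h4
  simpa using h4

/-- ROW SND-H1. If the ring around `v` is full, the height at `v` can be changed freely.

Proof. Let `η' = update η v a`. Heights `< 4` are clear. `NoFSC η'`: let `X` be nonempty and suppose
`∀ u ∈ X, η' u < #{nbrs of u in X}` (forbidden). If `v ∉ X`, then `X` is forbidden for `η`: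
contradiction. Let `v ∈ X`. As `η' v ≥ 0`, `v` has at least one neighbour in `X`, which is in `ring v`.
Every `u ∈ X ∩ ring v` has `η' u = 3 < #nbrs in X`, so all its four neighbours are in `X` (a site
has at most four neighbours). The sites of the ring form a cycle of length eight for `Adj`
(consecutive ones are adjacent): starting from one of them in `X` we get that the whole ring is in
`X`, in particular the four neighbours of `v`. (Shorter: let `u ∈ X` be a neighbour of `v`, e.g.
`(v.1 - 1, v.2)`; its neighbours `(v.1 - 1, v.2 ± 1)` are in `X` and in the ring, their neighbours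
`(v.1, v.2 ± 1)` are in `X`, and so on; four symmetric cases.) Hence `η v ≤ 3 < 4 = #nbrs of v in X`,
and `X` is forbidden for `η`, contradiction with `NoFSC η`. -/
theorem update_mem {n : ℕ} (v : Site n) (hv : Inner v) (η : Config n) (hη : η ∈ recFin n)
    (hF : Full v η) (a : ℕ) (ha : a < 4) : Function.update η v a ∈ recFin n := by
  classical
  unfold recFin at hη ⊢
  rw [Finset.mem_filter, Fintype.mem_piFinset] at hη ⊢
  obtain ⟨hst, hno⟩ := hη
  refine ⟨fun u => ?_, ?_⟩
  · by_cases hu : u = v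
    · subst hu
      rw [Function.update_self]
      exact Finset.mem_range.2 ha
    · rw [Function.update_of_ne hu]
      exact hst u
  · intro X hX
    by_contra hcon
    push Not at hcon
    by_cases hvX : v ∈ X
    · -- all the neighbours of `v` are in `X`
      obtain ⟨hv1, hv2, hv3, hv4⟩ := hv
      have hcl : ∀ u w : Site n, u ∈ X → u ∈ ring v → Adj u w → w ∈ X := by
        intro u w hu hur huw
        have h1 := hcon u hu
        have huv : u ≠ v := (Finset.mem_filter.1 hur).2.1
        rw [Function.update_of_ne huv, hF u hur] at h1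
        exact H1_all X u h1 w huw
      obtain ⟨p, hp⟩ : ∃ p, (v.1 : ℕ) = p + 1 := ⟨(v.1 : ℕ) - 1, by omega⟩
      obtain ⟨q, hq⟩ : ∃ q, (v.2 : ℕ) = q + 1 := ⟨(v.2 : ℕ) - 1, by omega⟩
      have hpn : p + 2 < n := by omega
      have hqn : q + 2 < n := by omega
      let P : ℕ → ℕ → Prop := fun x y => ∃ (hx : x < n) (hy : y < n),
        ((⟨x, hx⟩, ⟨y, hy⟩) : Site n) ∈ X
      have hC : ∀ x y x' y' : ℕ, P x y → x < n → y < n → x' < n → y' < n →
          ((x ≠ p + 1 ∨ y ≠ q + 1) ∧ p ≤ x ∧ x ≤ p + 2 ∧ q ≤ y ∧ y ≤ q + 2) →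
          ((x = x' ∧ (y + 1 = y' ∨ y' + 1 = y)) ∨ (y = y' ∧ (x + 1 = x' ∨ x' + 1 = x))) →
          P x' y' := by
        intro x y x' y' hP hx hy hx' hy' hr hA
        obtain ⟨_, _, hP⟩ := hP
        refine ⟨hx', hy', hcl _ _ hP ?_ ?_⟩
        · rw [ring, Finset.mem_filter]
          refine ⟨Finset.mem_univ _, ?_, ?_, ?_, ?_, ?_⟩
          · intro he
            have e1 : x = (v.1 : ℕ) := by rw [← he]
            have e2 : y = (v.2 : ℕ) := by rw [← he]
            omega
          all_goals
            simp only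
            omega
        · rcases hA with ⟨h1, h2⟩ | ⟨h1, h2⟩
          · left
            exact ⟨Fin.ext h1, h2⟩
          · right
            exact ⟨Fin.ext h1, h2⟩
      have hstart : P (p + 1) q ∨ P (p + 1) (q + 2) ∨ P p (q + 1) ∨ P (p + 2) (q + 1) := by
        have h1 := hcon v hvX
        have h2 : 0 < (X.filter (fun w => Adj v w)).card := lt_of_le_of_lt (Nat.zero_le _) h1
        obtain ⟨w, hw⟩ := Finset.card_pos.1 h2
        obtain ⟨hwX, hwA⟩ := Finset.mem_filter.1 hw
        have hPw : P (w.1 : ℕ) (w.2 : ℕ) := ⟨w.1.2, w.2.2, hwX⟩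
        rcases hwA with ⟨h3, h4⟩ | ⟨h3, h4⟩
        · have h5 : (v.1 : ℕ) = w.1 := by rw [h3]
          rcases h4 with h4 | h4
          · right; left
            have e1 : (w.1 : ℕ) = p + 1 := by omega
            have e2 : (w.2 : ℕ) = q + 2 := by omega
            rw [e1, e2] at hPw; exact hPw
          · left
            have e1 : (w.1 : ℕ) = p + 1 := by omega
            have e2 : (w.2 : ℕ) = q := by omega
            rw [e1, e2] at hPw; exact hPw
        · have h5 : (v.2 : ℕ) = w.2 := by rw [h3]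
          rcases h4 with h4 | h4
          · right; right; right
            have e1 : (w.1 : ℕ) = p + 2 := by omega
            have e2 : (w.2 : ℕ) = q + 1 := by omega
            rw [e1, e2] at hPw; exact hPw
          · right; right; left
            have e1 : (w.1 : ℕ) = p := by omega
            have e2 : (w.2 : ℕ) = q + 1 := by omega
            rw [e1, e2] at hPw; exact hPw
      -- going around
      have a1 : P (p + 1) q → P p q := fun h => hC _ _ p q h (by omega) (by omega) (by omega)
        (by omega) (by omega) (by omega)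
      have a2 : P p q → P p (q + 1) := fun h => hC _ _ p (q + 1) h (by omega) (by omega) (by omega)
        (by omega) (by omega) (by omega)
      have a3 : P p (q + 1) → P p (q + 2) := fun h => hC _ _ p (q + 2) h (by omega) (by omega)
        (by omega) (by omega) (by omega) (by omega)
      have a4 : P p (q + 2) → P (p + 1) (q + 2) := fun h => hC _ _ (p + 1) (q + 2) h (by omega)
        (by omega) (by omega) (by omega) (by omega) (by omega)
      have a5 : P (p + 1) (q + 2) → P (p + 2) (q + 2) := fun h => hC _ _ (p + 2) (q + 2) h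
        (by omega) (by omega) (by omega) (by omega) (by omega) (by omega)
      have a6 : P (p + 2) (q + 2) → P (p + 2) (q + 1) := fun h => hC _ _ (p + 2) (q + 1) h
        (by omega) (by omega) (by omega) (by omega) (by omega) (by omega)
      have a7 : P (p + 2) (q + 1) → P (p + 2) q := fun h => hC _ _ (p + 2) q h
        (by omega) (by omega) (by omega) (by omega) (by omega) (by omega)
      have a8 : P (p + 2) q → P (p + 1) q := fun h => hC _ _ (p + 1) q h
        (by omega) (by omega) (by omega) (by omega) (by omega) (by omega)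
      have hq0 : P (p + 1) q := by
        rcases hstart with h | h | h | h
        · exact h
        · exact a8 (a7 (a6 (a5 h)))
        · exact a8 (a7 (a6 (a5 (a4 (a3 h)))))
        · exact a8 (a7 h)
      have hq1 : P p (q + 1) := a2 (a1 hq0)
      have hq2 : P (p + 1) (q + 2) := a4 (a3 hq1)
      have hq3 : P (p + 2) (q + 1) := a6 (a5 hq2)
      have hall : P (p + 1) q ∧ P (p + 1) (q + 2) ∧ P p (q + 1) ∧ P (p + 2) (q + 1) :=
        ⟨hq0, hq2, hq1, hq3⟩
      obtain ⟨⟨x1, y1, b1⟩, ⟨x2, y2, b2⟩, ⟨x3, y3, b3⟩, ⟨x4, y4, b4⟩⟩ := hall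
      have hfour : 4 ≤ (X.filter (fun w => Adj v w)).card :=
        H1_four v X hp hq x1 y1 x2 y2 x3 y3 x4 y4 b1 b2 b3 b4
      obtain ⟨u, huX, hu⟩ := hno X hX
      by_cases huv : u = v
      · subst huv
        have h1 := Finset.mem_range.1 (hst u)
        omega
      · have h1 := hcon u huX
        rw [Function.update_of_ne huv] at h1
        omega
    · obtain ⟨u, huX, hu⟩ := hno X hX
      have huv : u ≠ v := fun h => hvX (h ▸ huX)
      have h1 := hcon u huX
      rw [Function.update_of_ne huv] at h1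
      omega

end SND
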