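import Pool.Agent.SND.Defs

open Finset

namespace SND

theorem H2_card_ring {n : ℕ} (v : Site n) : (ring v).card ≤ 8 := by
  have h : (ring v).card ≤ ((range 3 ×ˢ range 3).erase (1, 1)).card := by
    apply card_le_card_of_injOn (fun u => ((u.1 : ℕ) + 1 - v.1, (u.2 : ℕ) + 1 - v.2))
    · intro u hu
      simp only [ring, coe_filter, mem_univ, true_and, Set.mem_setOf_eq] at hu
      obtain ⟨h0, h1, h2, h3, h4⟩ := hu
      simp only [coe_erase, coe_product, coe_range, Set.mem_diff, Set.mem_prod, Set.mem_Iio,
        Set.mem_singleton_iff, Prod.mk.injEq]
      refine ⟨⟨by omega, by omega⟩, ?_⟩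
      rintro ⟨h5, h6⟩
      apply h0
      apply Prod.ext <;> apply Fin.ext <;> omega
    · intro u hu u' hu' h
      simp only [ring, coe_filter, mem_univ, true_and, Set.mem_setOf_eq] at hu hu'
      simp only [Prod.mk.injEq] at h
      apply Prod.ext <;> apply Fin.ext <;> omega
  refine h.trans ?_
  decide

/-- ROW SND-H2. The ring is full with probability at least `4^{-8}`.

Proof. The map `η ↦ η'`, `η' u = 3` for `u ∈ ring v`, `η' u = η u` otherwise, sends `recFin n` to
`{η ∈ recFin n | Full v η}` (`NoFSC` is monotone). Its fibers have at most `4^8` elements
(an element of the fiber is determined by its values, in `range 4`, on `ring v`, `#(ring v) ≤ 8`).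
(`Finset.card_le_mul_card_image` or `Finset.card_eq_sum_card_fiberwise`.) -/
theorem card_full {n : ℕ} (v : Site n) :
    (recFin n).card ≤ 4 ^ 8 * (open Classical in ((recFin n).filter (Full v)).card) := by
  classical
  have key : (recFin n).card ≤ 4 ^ (ring v).card * ((recFin n).filter (Full v)).card := by
    apply card_le_mul_card_image_of_maps_to
      (f := fun (η : Config n) (u : Site n) => if u ∈ ring v then 3 else η u)
    · intro η hη
      simp only [recFin, mem_filter, Fintype.mem_piFinset, mem_range] at hη ⊢
      obtain ⟨h1, h2⟩ := hη
      refine ⟨⟨?_, ?_⟩, ?_⟩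
      · intro u
        split_ifs
        · norm_num
        · exact h1 u
      · intro X hX
        obtain ⟨u, hu, hu2⟩ := h2 X hX
        refine ⟨u, hu, hu2.trans ?_⟩
        beta_reduce
        split_ifs
        · have := h1 u; omega
        · exact le_rfl
      · intro u hu
        simp only [if_pos hu]
    · intro ξ _
      have h : ((recFin n).filter
          (fun η => (fun u : Site n => if u ∈ ring v then 3 else η u) = ξ)).card ≤
          (Fintype.piFinset (fun _ : ring v => range 4)).card := by
        apply card_le_card_of_injOn (fun η (u : ring v) => η u)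
        · intro η hη
          simp only [recFin, coe_filter, mem_filter, Fintype.mem_piFinset, mem_range,
            Set.mem_setOf_eq] at hη
          simp only [mem_coe, Fintype.mem_piFinset, mem_range]
          intro u
          exact hη.1.1 u
        · intro η hη η' hη' h
          simp only [coe_filter, Set.mem_setOf_eq] at hη hη'
          funext u
          by_cases hu : u ∈ ring v
          · exact congrFun h ⟨u, hu⟩
          · have h1 := congrFun hη.2 u
            have h2 := congrFun hη'.2 u
            rw [if_neg hu] at h1 h2
            rw [h1, h2]
      refine h.trans ?_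
      rw [Fintype.card_piFinset]
      simp
  refine key.trans ?_
  apply Nat.mul_le_mul_right
  exact Nat.pow_le_pow_right (by norm_num) (H2_card_ring v)

end SND
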