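import Pool.Agent.SND.Defs
import Pool.Agent.SND.H1

open Finset

namespace SND

open Classical in
/-- ROW SND-H3. Orthogonality.

Proof. Let `T = {η ∈ recFin n | Full v η}`. By `update_mem` (and `v ∉ ring v`) `T` is invariant under
`η ↦ update η v a`, `a < 4`. The map `T ∩ {η v = 0} × range 4 → T`, `(η, a) ↦ update η v a` is a
bijection, so `∑_{η ∈ T} f η = ∑_{η ∈ T, η v = 0} ∑_{a < 4} f (update η v a)`. For the first claim,
`∑_{a<4} g η (a - 3/2) = 0`; for the second `∑_{a<4} (a - 3/2)^2 = 5 = 4 * (5/4)`. -/
theorem fiber_sums {n : ℕ} (v : Site n) (hv : Inner v) (g : Config n → ℝ)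
    (hg : ∀ η a, g (Function.update η v a) = g η) :
    ∑ η ∈ (recFin n).filter (Full v), g η * ((η v : ℝ) - 3 / 2) = 0 ∧
    ∑ η ∈ (recFin n).filter (Full v), ((η v : ℝ) - 3 / 2) ^ 2 =
      (5 / 4 : ℝ) * (((recFin n).filter (Full v)).card : ℝ) := by
  set T := (recFin n).filter (Full v) with hT
  have hnot : v ∉ ring v := by simp [ring]
  have hupd : ∀ η ∈ T, ∀ a < 4, Function.update η v a ∈ T := by
    intro η hη a ha
    rw [hT, mem_filter] at hη ⊢
    refine ⟨update_mem v hv η hη.1 hη.2 a ha, ?_⟩
    intro u hu
    have hne : u ≠ v := by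
      rintro rfl
      exact hnot hu
    rw [Function.update_of_ne hne]
    exact hη.2 u hu
  have hlt : ∀ η ∈ T, η v < 4 := by
    intro η hη
    rw [hT, mem_filter] at hη
    simp only [recFin, mem_filter, Fintype.mem_piFinset, mem_range] at hη
    exact hη.1.1 v
  have hsum : ∀ f : Config n → ℝ, ∑ η ∈ T, f η =
      ∑ η ∈ T.filter (fun η => η v = 0), ∑ a ∈ range 4, f (Function.update η v a) := by
    intro f
    rw [← sum_product']
    symm
    apply sum_bij (fun (p : Config n × ℕ) _ => Function.update p.1 v p.2)
    · rintro ⟨η, a⟩ h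
      rw [mem_product, mem_filter, mem_range] at h
      exact hupd η h.1.1 a h.2
    · rintro ⟨η, a⟩ h ⟨η', a'⟩ h' he
      rw [mem_product, mem_filter, mem_range] at h h'
      simp only at he h h'
      have e1 : a = a' := by
        have := congrFun he v
        simpa using this
      have e2 : η = η' := by
        funext u
        by_cases hu : u = v
        · rw [hu, h.1.2, h'.1.2]
        · have := congrFun he u
          rwa [Function.update_of_ne hu, Function.update_of_ne hu] at this
      rw [e1, e2]
    · intro η hη
      refine ⟨(Function.update η v 0, η v), ?_, ?_⟩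
      · rw [mem_product, mem_filter, mem_range]
        refine ⟨⟨hupd η hη 0 (by norm_num), by simp⟩, hlt η hη⟩
      · simp
    · intro p _
      rfl
  constructor
  · rw [hsum]
    apply sum_eq_zero
    intro η _
    simp only [Function.update_self, hg]
    rw [← mul_sum]
    simp only [sum_range_succ, range_zero, sum_empty]
    push_cast
    ring
  · rw [hsum]
    have h1 := hsum (fun _ => 1)
    simp only [sum_const, nsmul_eq_mul, mul_one, card_range] at h1
    rw [h1, mul_comm (5 / 4 : ℝ), mul_assoc]
    simp only [Function.update_self]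
    rw [sum_const, nsmul_eq_mul]
    simp only [sum_range_succ, range_zero, sum_empty]
    push_cast
    ring

end SND
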