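import Pool.Agent.SND.Defs
import Pool.Agent.SND.H2
import Pool.Agent.SND.H3

open Finset

namespace SND

open Classical in
/-- the centred height at `v` if the ring is full -/
noncomputable def H4_Y {n : ℕ} (v : Site n) (η : Config n) : ℝ :=
  if Full v η then (η v : ℝ) - 3 / 2 else 0

open Classical in
theorem H4_sum {n : ℕ} (v : Site n) (f : Config n → ℝ) :
    ∑ η ∈ recFin n, f η * H4_Y v η =
      ∑ η ∈ (recFin n).filter (Full v), f η * ((η v : ℝ) - 3 / 2) := by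
  rw [Finset.sum_filter]
  refine Finset.sum_congr rfl fun η _ => ?_
  unfold H4_Y
  split_ifs with h
  · rfl
  · rw [mul_zero]

theorem H4_inv {n : ℕ} {v w : Site n} (hvw : v ≠ w) (hr : v ∉ ring w) (η : Config n) (a : ℕ) :
    H4_Y w (Function.update η v a) = H4_Y w η := by
  classical
  have h1 : Full w (Function.update η v a) ↔ Full w η := by
    unfold Full
    refine forall₂_congr fun u hu => ?_
    have h2 : u ≠ v := by
      rintro rfl
      exact hr hu
    rw [Function.update_of_ne h2]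
  have h3 : (Function.update η v a) w = η w := Function.update_of_ne hvw.symm _ _
  unfold H4_Y
  rw [h3]
  by_cases hF : Full w η
  · rw [if_pos hF, if_pos (h1.2 hF)]
  · rw [if_neg hF, if_neg (fun h => hF (h1.1 h))]

theorem H4_total {n : ℕ} (v : Site n) (η : Config n) (a : ℕ) :
    ((total (Function.update η v a) : ℕ) : ℝ) - (Function.update η v a v : ℕ) =
      (total η : ℝ) - η v := by
  have h1 : ∀ ξ : Config n, ((total ξ : ℕ) : ℝ) - ξ v = ∑ u ∈ univ.erase v, (ξ u : ℝ) := by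
    intro ξ
    unfold total
    rw [← Finset.add_sum_erase _ _ (Finset.mem_univ v)]
    push_cast
    ring
  rw [h1, h1]
  refine Finset.sum_congr rfl fun u hu => ?_
  rw [Function.update_of_ne (Finset.ne_of_mem_erase hu)]

open Classical in
/-- number of configurations with a full ring -/
noncomputable def H4_Q {n : ℕ} (v : Site n) : ℝ :=
  (5 / 4 : ℝ) * (((recFin n).filter (Full v)).card : ℝ)

theorem H4_sum_Y {n : ℕ} (v : Site n) (hv : Inner v) : ∑ η ∈ recFin n, H4_Y v η = 0 := by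
  have h1 := (fiber_sums v hv (fun _ => 1) (fun _ _ => rfl)).1
  rw [← H4_sum v (fun _ => 1)] at h1
  simpa using h1

theorem H4_sum_sq {n : ℕ} (v : Site n) (hv : Inner v) :
    ∑ η ∈ recFin n, H4_Y v η * H4_Y v η = H4_Q v := by
  classical
  have h1 := (fiber_sums v hv (fun _ => 1) (fun _ _ => rfl)).2
  rw [H4_sum v (fun η => H4_Y v η)]
  unfold H4_Q
  refine Eq.trans ?_ h1
  refine Finset.sum_congr (by congr) fun η hη => ?_
  have h2 : Full v η := (Finset.mem_filter.1 hη).2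
  unfold H4_Y
  rw [if_pos h2, sq]

theorem H4_sum_mul {n : ℕ} {v w : Site n} (hv : Inner v) (hvw : v ≠ w) (hr : v ∉ ring w) :
    ∑ η ∈ recFin n, H4_Y w η * H4_Y v η = 0 := by
  rw [H4_sum v (fun η => H4_Y w η)]
  exact (fiber_sums v hv (fun η => H4_Y w η) (fun η a => H4_inv hvw hr η a)).1

theorem H4_sum_total {n : ℕ} (v : Site n) (hv : Inner v) (s : ℝ) :
    ∑ η ∈ recFin n, ((total η : ℝ) - s) * H4_Y v η = H4_Q v := by
  have h1 := (fiber_sums v hv (fun η => (total η : ℝ) - η v)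
    (fun η a => H4_total v η a)).1
  rw [← H4_sum v (fun η => (total η : ℝ) - η v)] at h1
  have h2 := H4_sum_Y v hv
  have h3 := H4_sum_sq v hv
  have h4 : ∀ η : Config n, ((total η : ℝ) - s) * H4_Y v η =
      ((total η : ℝ) - η v) * H4_Y v η + (H4_Y v η * H4_Y v η + (3 / 2 - s) * H4_Y v η) := by
    intro η
    have h5 : H4_Y v η * H4_Y v η = ((η v : ℝ) - 3 / 2) * H4_Y v η := by
      unfold H4_Y
      split_ifs
      · rfl
      · ring
    rw [h5]
    ring
  rw [Finset.sum_congr rfl (fun η _ => h4 η), Finset.sum_add_distrib, Finset.sum_add_distrib,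
    ← Finset.mul_sum, h1, h2, h3]
  ring

/-- the sites -/
def H4_v {n : ℕ} (p : Fin (n / 3) × Fin (n / 3)) : Site n :=
  (⟨3 * (p.1 : ℕ) + 1, by have := p.1.2; omega⟩, ⟨3 * (p.2 : ℕ) + 1, by have := p.2.2; omega⟩)

theorem H4_inner {n : ℕ} (p : Fin (n / 3) × Fin (n / 3)) : Inner (H4_v p) := by
  have h1 := p.1.2
  have h2 := p.2.2
  unfold Inner H4_v
  simp only
  omega

theorem H4_ne {n : ℕ} {p q : Fin (n / 3) × Fin (n / 3)} (h : p ≠ q) :
    H4_v p ≠ H4_v q ∧ H4_v p ∉ ring (H4_v q) := by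
  have h0 : (p.1 : ℕ) ≠ q.1 ∨ (p.2 : ℕ) ≠ q.2 := by
    by_contra hc
    push Not at hc
    exact h (Prod.ext (Fin.ext hc.1) (Fin.ext hc.2))
  constructor
  · intro he
    unfold H4_v at he
    simp only [Prod.mk.injEq, Fin.mk.injEq] at he
    omega
  · intro he
    unfold ring H4_v at he
    simp only [Finset.mem_filter] at he
    omega

/-- ROW SND-H4. Lower bound for the variance.

Proof. Let `m = n / 3`, and for `a b : Fin m` let `v_{ab} = (3a+1, 3b+1)`: an `Inner` site; for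
`(a,b) ≠ (a',b')`: `v_{ab} ≠ v_{a'b'}` and `v_{ab} ∉ ring v_{a'b'}`. Let `Y_v η = η v - 3/2` if
`Full v η`, `0` otherwise, `Y = ∑_{ab} Y_{v_{ab}}`. With `∑ = ∑_{η ∈ recFin n}`:
* `∑ Y_v = 0`, `∑ Y_v Y_w = 0` for `v ≠ w` (`fiber_sums` with `g = Y_w`, invariant under updates at `v`
  as `v ∉ ring w`, `v ≠ w`), `∑ Y_v^2 = (5/4) #{Full v} ≥ (5/4) 4^{-8} #recFin` (`card_full`);
* `∑ (total η) Y_v = ∑ Y_v^2` (`g η = total η - η v + 3/2`, on `Full v`:
  `total * Y_v = g Y_v + Y_v^2`).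
So with `s` any constant: `∑ (total - s) Y = ∑ Y^2 =: Q ≥ m^2 (5/4) 4^{-8} #recFin`, and
Cauchy–Schwarz `Q^2 ≤ (∑ (total - s)^2) Q`, hence `∑ (total - s)^2 ≥ Q` (if `Q > 0`; `Q = 0` trivial).
`m ≥ n / 3 - 1 ≥ n/5` for `n ≥ 3` (`n = 3,4,5`: `m = 1 ≥ n/5`; in general `n ≤ 3 m + 2 ≤ 5 m`). -/
theorem variance_lower : ∃ c : ℝ, 0 < c ∧ ∀ n : ℕ, 3 ≤ n → ∀ s : ℝ,
    c * (n : ℝ) ^ 2 * (recFin n).card ≤ ∑ η ∈ recFin n, ((total η : ℝ) - s) ^ 2 := by
  refine ⟨1 / 25 * (5 / 4) / 4 ^ 8, by positivity, fun n hn s => ?_⟩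
  set A : ℝ := ∑ η ∈ recFin n, ((total η : ℝ) - s) ^ 2 with hA
  set Y : Config n → ℝ := fun η => ∑ p : Fin (n / 3) × Fin (n / 3), H4_Y (H4_v p) η with hY
  set Q : ℝ := ∑ p : Fin (n / 3) × Fin (n / 3), H4_Q (H4_v p) with hQ
  have h1 : ∑ η ∈ recFin n, ((total η : ℝ) - s) * Y η = Q := by
    simp only [hY, Finset.mul_sum]
    rw [Finset.sum_comm, hQ]
    exact Finset.sum_congr rfl fun p _ => H4_sum_total _ (H4_inner p) s
  have h2 : ∑ η ∈ recFin n, Y η ^ 2 = Q := by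
    have h3 : ∀ η : Config n, Y η ^ 2 = ∑ p : Fin (n / 3) × Fin (n / 3),
        ∑ q : Fin (n / 3) × Fin (n / 3), H4_Y (H4_v q) η * H4_Y (H4_v p) η := by
      intro η
      rw [sq]
      simp only [hY, Finset.sum_mul_sum]
      rw [Finset.sum_comm]
    rw [Finset.sum_congr rfl (fun η _ => h3 η), Finset.sum_comm, hQ]
    refine Finset.sum_congr rfl fun p _ => ?_
    rw [Finset.sum_comm, Finset.sum_eq_single p]
    · exact H4_sum_sq _ (H4_inner p)
    · intro q _ hq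
      exact H4_sum_mul (H4_inner p) (H4_ne hq.symm).1 (H4_ne hq.symm).2
    · intro h
      exact absurd (Finset.mem_univ p) h
  have hA0 : 0 ≤ A := Finset.sum_nonneg fun η _ => sq_nonneg _
  have hQ0 : 0 ≤ Q := Finset.sum_nonneg fun p _ => by unfold H4_Q; positivity
  have hCS := Finset.sum_mul_sq_le_sq_mul_sq (recFin n) (fun η => (total η : ℝ) - s) Y
  rw [h1, h2] at hCS
  have hAQ : Q ≤ A := by
    rcases hQ0.eq_or_lt with h | h
    · rw [← h]
      exact hA0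
    · have h4 : Q * Q ≤ A * Q := by
        rw [← sq]
        exact hCS
      exact le_of_mul_le_mul_right h4 h
  refine le_trans ?_ hAQ
  have hq : ∀ p : Fin (n / 3) × Fin (n / 3),
      (5 / 4 : ℝ) / 4 ^ 8 * (recFin n).card ≤ H4_Q (H4_v p) := by
    intro p
    have h5 := card_full (H4_v (n := n) p)
    unfold H4_Q
    have h6 : ((recFin n).card : ℝ) ≤ 4 ^ 8 * ((open Classical in
        ((recFin n).filter (Full (H4_v p))).card : ℕ) : ℝ) := by exact_mod_cast h5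
    calc (5 / 4 : ℝ) / 4 ^ 8 * (recFin n).card
        ≤ (5 / 4 : ℝ) / 4 ^ 8 * (4 ^ 8 * ((open Classical in
          ((recFin n).filter (Full (H4_v p))).card : ℕ) : ℝ)) :=
          mul_le_mul_of_nonneg_left h6 (by positivity)
      _ = _ := by ring
  have h7 : ((n / 3 : ℕ) : ℝ) * ((n / 3 : ℕ) : ℝ) * ((5 / 4 : ℝ) / 4 ^ 8 * (recFin n).card) ≤ Q := by
    have h8 := Finset.card_nsmul_le_sum (Finset.univ : Finset (Fin (n / 3) × Fin (n / 3)))
      (fun p => H4_Q (H4_v p)) _ (fun p _ => hq p)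
    rw [Finset.card_univ, Fintype.card_prod, Fintype.card_fin, nsmul_eq_mul, Nat.cast_mul] at h8
    exact h8
  refine le_trans ?_ h7
  have h9 : (n : ℝ) ≤ 5 * ((n / 3 : ℕ) : ℝ) := by
    have : n ≤ 5 * (n / 3) := by omega
    exact_mod_cast this
  have h10 : (n : ℝ) ^ 2 ≤ 25 * (((n / 3 : ℕ) : ℝ) * ((n / 3 : ℕ) : ℝ)) := by
    have h11 : (0 : ℝ) ≤ n := Nat.cast_nonneg n
    nlinarith
  have h12 : (0 : ℝ) ≤ (5 / 4 : ℝ) / 4 ^ 8 * (recFin n).card := by positivity
  calc 1 / 25 * (5 / 4) / 4 ^ 8 * (n : ℝ) ^ 2 * (recFin n).card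
      = (1 / 25 * (n : ℝ) ^ 2) * ((5 / 4 : ℝ) / 4 ^ 8 * (recFin n).card) := by ring
    _ ≤ _ := mul_le_mul_of_nonneg_right (by linarith) h12

end SND
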