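import Pool.Agent.SND.Defs

open Finset

namespace SND

/-- ROW SND-I1. Elementary bounds.

Proof. `0 < t ≤ 1` as `0 < π k / M < π`. With `u = √(1 + t²)`: `√r = u - t ∈ (0,1)`, `(u - t)(u + t) = 1`, so
`1/r = (u + t)²`, `1/r + r = 2 u² + 2 t² = 2 + 4 t²`, `1/r - r = 4 u t ≥ 4 t`. For
`r ≤ exp (-t)`: `√r = 1/(u + t) ≤ 1/(1 + t) ≤ exp (-t/2)` because `exp (t/2) ≤ 1/(1 - t/2) ≤ 1 + t` for
`0 ≤ t ≤ 1` (`Real.one_sub_le_exp_neg`). `t ≥ 2 min(k, M-k)/M`: Jordan's inequality
(`Real.mul_le_sin`: `2/π * x ≤ sin x` on `[0, π/2]`) for `k ≤ M/2`, symmetry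
`sin (π - x) = sin x`. `t ≤ π min(k,M-k)/M`: `sin x ≤ x`. `r^M ≤ exp (-t M) ≤ exp (-2) ≤ 1/2` since
`t M ≥ 2 min (k, M-k) ≥ 2`. -/
theorem rk_facts (M k : ℕ) (h1 : 1 ≤ k) (h2 : k < M) :
    0 < tk M k ∧ tk M k ≤ 1 ∧ 0 < rk M k ∧ rk M k < 1 ∧
    1 / rk M k + rk M k = 2 + 4 * tk M k ^ 2 ∧ 4 * tk M k ≤ 1 / rk M k - rk M k ∧
    rk M k ≤ Real.exp (-(tk M k)) ∧ rk M k ^ M ≤ 1 / 2 ∧
    2 * (min k (M - k) : ℕ) / (M : ℝ) ≤ tk M k ∧
    tk M k ≤ Real.pi * (min k (M - k) : ℕ) / (M : ℝ) := by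
  have hM : (0 : ℝ) < M := by exact_mod_cast (by omega : 0 < M)
  have hk : (0 : ℝ) < k := by exact_mod_cast (by omega : 0 < k)
  have hkM : (k : ℝ) < M := by exact_mod_cast h2
  have hpi := Real.pi_pos
  have hx0 : 0 < Real.pi * k / M := by positivity
  have hx1 : Real.pi * k / M < Real.pi := by
    rw [div_lt_iff₀ hM]; nlinarith
  have t0 : 0 < tk M k := Real.sin_pos_of_pos_of_lt_pi hx0 hx1
  have t1 : tk M k ≤ 1 := Real.sin_le_one _
  have hsub : ((M - k : ℕ) : ℝ) = (M : ℝ) - k := by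
    rw [Nat.cast_sub h2.le]
  -- symmetric expression
  have hsym : tk M k = Real.sin (Real.pi * ((M - k : ℕ) : ℝ) / M) := by
    unfold tk
    rw [← Real.sin_pi_sub, hsub]
    congr 1
    field_simp
  have jordan : 2 * ((min k (M - k) : ℕ) : ℝ) / (M : ℝ) ≤ tk M k := by
    rcases le_total (2 * k) M with h | h
    · have hmin : min k (M - k) = k := by omega
      rw [hmin]
      have h' : (2 * k : ℝ) ≤ M := by exact_mod_cast h
      have hle : Real.pi * k / M ≤ Real.pi / 2 := by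
        rw [div_le_div_iff₀ hM (by norm_num)]; nlinarith
      have := Real.mul_le_sin hx0.le hle
      calc 2 * (k : ℝ) / M = 2 / Real.pi * (Real.pi * k / M) := by field_simp
        _ ≤ _ := this
    · have hmin : min k (M - k) = M - k := by omega
      rw [hmin, hsym]
      have h' : (M : ℝ) ≤ 2 * k := by exact_mod_cast h
      have h0 : 0 ≤ Real.pi * ((M - k : ℕ) : ℝ) / M := by positivity
      have hle : Real.pi * ((M - k : ℕ) : ℝ) / M ≤ Real.pi / 2 := by
        rw [div_le_div_iff₀ hM (by norm_num), hsub]; nlinarith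
      have := Real.mul_le_sin h0 hle
      calc 2 * (((M - k : ℕ) : ℝ)) / M = 2 / Real.pi * (Real.pi * ((M - k : ℕ) : ℝ) / M) := by
            field_simp
        _ ≤ _ := this
  have upper : tk M k ≤ Real.pi * ((min k (M - k) : ℕ) : ℝ) / (M : ℝ) := by
    rcases le_total k (M - k) with h | h
    · rw [min_eq_left h]
      exact Real.sin_le hx0.le
    · rw [min_eq_right h, hsym]
      exact Real.sin_le (by positivity)
  set t := tk M k with ht
  set u := Real.sqrt (1 + t ^ 2) with hu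
  have hu2 : u ^ 2 = 1 + t ^ 2 := Real.sq_sqrt (by positivity)
  have hu0 : 0 ≤ u := Real.sqrt_nonneg _
  have hr : rk M k = (u - t) ^ 2 := rfl
  have hut : t < u := by nlinarith
  have hu1 : 1 ≤ u := by nlinarith
  have hlt : u < 1 + t := by nlinarith
  have hprod : (u - t) * (u + t) = 1 := by nlinarith
  have hr0 : 0 < rk M k := by rw [hr]; exact pow_pos (by linarith) 2
  have hr1 : rk M k < 1 := by rw [hr]; nlinarith
  have hinv : 1 / rk M k = (u + t) ^ 2 := by
    rw [div_eq_iff hr0.ne', hr, ← mul_pow, mul_comm, hprod, one_pow]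
  have hexp : rk M k ≤ Real.exp (-t) := by
    have e1 : 1 - t / 2 ≤ Real.exp (-(t / 2)) := Real.one_sub_le_exp_neg _
    have e2 : u - t ≤ Real.exp (-(t / 2)) := by
      have a1 : 0 ≤ (u - t) * (u - 1) := mul_nonneg (by linarith) (by linarith)
      have a2 : 0 ≤ t * (1 - t) := mul_nonneg t0.le (by linarith)
      have : (u - t) * (1 + t) ≤ (1 - t / 2) * (1 + t) := by linarith
      have := le_of_mul_le_mul_right this (by linarith)
      linarith
    have e3 : Real.exp (-t) = Real.exp (-(t / 2)) ^ 2 := by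
      rw [← Real.exp_nat_mul]; congr 1; push_cast; ring
    rw [hr, e3]
    exact pow_le_pow_left₀ (by linarith) e2 2
  refine ⟨t0, t1, hr0, hr1, ?_, ?_, hexp, ?_, jordan, upper⟩
  · rw [hinv, hr]; nlinarith
  · rw [hinv, hr]; nlinarith
  · have hm : (1 : ℝ) ≤ ((min k (M - k) : ℕ) : ℝ) := by
      exact_mod_cast (by omega : 1 ≤ min k (M - k))
    have htM : 2 ≤ t * M := by
      rw [div_le_iff₀ hM] at jordan
      linarith
    calc rk M k ^ M ≤ Real.exp (-t) ^ M := pow_le_pow_left₀ hr0.le hexp M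
      _ = Real.exp (-(t * M)) := by rw [← Real.exp_nat_mul]; congr 1; ring
      _ ≤ Real.exp (-2) := Real.exp_le_exp.2 (by linarith)
      _ ≤ 1 / 2 := by
        rw [Real.exp_neg, one_div]
        apply inv_anti₀ (by norm_num)
        have := Real.add_one_le_exp (2 : ℝ)
        linarith

end SND
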