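import Pool.Agent.SND.Defs

open Finset

namespace SND

theorem I2a_yr_cast (M : ℕ) (hM : 1 ≤ M) (y : ℤ) : ((yr M y : ℕ) : ℤ) = y % (M : ℤ) := by
  unfold yr
  exact Int.toNat_of_nonneg (Int.emod_nonneg _ (by omega))

theorem I2a_yr_add (M : ℕ) (y : ℤ) : yr M (y + M) = yr M y := by
  unfold yr
  rw [Int.add_emod_right]

theorem I2a_yr_neg (M : ℕ) (hM : 1 ≤ M) (y : ℤ) :
    (yr M y = 0 ∧ yr M (-y) = 0) ∨ (yr M (-y) = M - yr M y ∧ yr M y < M) := by
  have h1 := I2a_yr_cast M hM y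
  have h2 := I2a_yr_cast M hM (-y)
  have hlt : y % (M : ℤ) < M := Int.emod_lt_of_pos _ (by omega)
  have h0 : 0 ≤ y % (M : ℤ) := Int.emod_nonneg _ (by omega)
  by_cases hy : y % (M : ℤ) = 0
  · left
    have hd : (M : ℤ) ∣ y := Int.dvd_of_emod_eq_zero hy
    have hd' : (-y) % (M : ℤ) = 0 := Int.emod_eq_zero_of_dvd ((dvd_neg).2 hd)
    constructor
    · omega
    · omega
  · right
    have e : (-y) % (M : ℤ) = M - y % (M : ℤ) := by
      have e1 : (-y) % (M : ℤ) = (M - y % (M : ℤ)) % (M : ℤ) := by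
        rw [Int.emod_emod_of_dvd _ (dvd_refl _) |>.symm]
        have : (M - y % (M : ℤ)) = -y + M * (1 + y / (M : ℤ)) := by
          have := Int.emod_add_mul_ediv y (M : ℤ)
          linear_combination (-1 : ℤ) * this
        rw [this, Int.add_mul_emod_self_left]
        simp
      rw [e1]
      exact Int.emod_eq_of_lt (by omega) (by omega)
    constructor
    · omega
    · omega

/-- ROW SND-I2a. Periodicity and evenness of the residue functions (and of `gk`).

Proof. `yr M (y + M) = yr M y`; `yr M (-y) = (M - yr M y) % M`, i.e. `= M - yr M y` if `yr M y ≠ 0` and `0`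
if `yr M y = 0`; in the numerator `r^a + r^(M-a)` is symmetric (and for `a = 0` nothing changes). -/
theorem gk_period_even (M : ℕ) (hM : 1 ≤ M) (k : ℕ) (y : ℤ) :
    gk M k (y + M) = gk M k y ∧ gk M k (-y) = gk M k y ∧
    nd M (y + M) = nd M y ∧ nd M (-y) = nd M y ∧
    (yr M (-y) : ℝ) * (M - yr M (-y)) = (yr M y : ℝ) * (M - yr M y) := by
  refine ⟨?_, ?_, ?_, ?_, ?_⟩
  · unfold gk; rw [I2a_yr_add]
  · unfold gk
    rcases I2a_yr_neg M hM y with ⟨h1, h2⟩ | ⟨h1, h2⟩
    · rw [h1, h2]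
    · have e : M - (M - yr M y) = yr M y := by omega
      rw [h1, e]
      ring
  · unfold nd; rw [I2a_yr_add]
  · unfold nd
    rcases I2a_yr_neg M hM y with ⟨h1, h2⟩ | ⟨h1, h2⟩
    · rw [h1, h2]
    · have e : M - (M - yr M y) = yr M y := by omega
      rw [h1, e, min_comm]
  · rcases I2a_yr_neg M hM y with ⟨h1, h2⟩ | ⟨h1, h2⟩
    · rw [h1, h2]
    · rw [h1, Nat.cast_sub h2.le]
      ring

end SND
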