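import Pool.Agent.SND.Defs
import Pool.Agent.SND.I1

open Finset

namespace SND

theorem I2b_yr_cast (M : ℕ) (hM : 1 ≤ M) (y : ℤ) : ((yr M y : ℕ) : ℤ) = y % (M : ℤ) := by
  unfold yr
  exact Int.toNat_of_nonneg (Int.emod_nonneg _ (by omega))

theorem I2b_yr_lt (M : ℕ) (hM : 1 ≤ M) (y : ℤ) : yr M y < M := by
  have h1 := I2b_yr_cast M hM y
  have hlt : y % (M : ℤ) < M := Int.emod_lt_of_pos _ (by omega)
  omega

/-- the residue of `y + 1` -/
theorem I2b_yr_succ (M : ℕ) (hM : 1 ≤ M) (y : ℤ) :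
    (yr M y + 1 < M ∧ yr M (y + 1) = yr M y + 1) ∨ (yr M y + 1 = M ∧ yr M (y + 1) = 0) := by
  have h1 := I2b_yr_cast M hM y
  have h2 := I2b_yr_cast M hM (y + 1)
  have h3 := I2b_yr_lt M hM y
  have e : (y + 1) % (M : ℤ) = (y % (M : ℤ) + 1) % (M : ℤ) := by
    rw [Int.emod_add_emod]
  rcases Nat.lt_or_ge (yr M y + 1) M with h | h
  · left
    refine ⟨h, ?_⟩
    have e' : (y % (M : ℤ) + 1) % (M : ℤ) = y % (M : ℤ) + 1 :=
      Int.emod_eq_of_lt (by omega) (by omega)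
    rw [e'] at e
    omega
  · right
    refine ⟨by omega, ?_⟩
    have e1 : y % (M : ℤ) + 1 = M := by omega
    rw [e1, Int.emod_self] at e
    omega

/-- the residue of `y - 1` -/
theorem I2b_yr_pred (M : ℕ) (hM : 1 ≤ M) (y : ℤ) :
    (1 ≤ yr M y ∧ yr M (y - 1) = yr M y - 1) ∨ (yr M y = 0 ∧ yr M (y - 1) = M - 1) := by
  have h := I2b_yr_succ M hM (y - 1)
  rw [sub_add_cancel] at h
  have h3 := I2b_yr_lt M hM (y - 1)
  omega

theorem I2b_gk_succ (M k : ℕ) (hM : 1 ≤ M) (y : ℤ) :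
    gk M k (y + 1) = (rk M k ^ (yr M y + 1) + rk M k ^ (M - (yr M y + 1))) /
      ((1 - rk M k ^ M) * (1 / rk M k - rk M k)) := by
  unfold gk
  rcases I2b_yr_succ M hM y with ⟨h1, h2⟩ | ⟨h1, h2⟩
  · rw [h2]
  · rw [h2, h1]
    simp [add_comm]

theorem I2b_gk_pred (M k : ℕ) (hM : 1 ≤ M) (y : ℤ) (hy : 1 ≤ yr M y) :
    gk M k (y - 1) = (rk M k ^ (yr M y - 1) + rk M k ^ (M - (yr M y - 1))) /
      ((1 - rk M k ^ M) * (1 / rk M k - rk M k)) := by
  unfold gk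
  rcases I2b_yr_pred M hM y with ⟨h1, h2⟩ | ⟨h1, h2⟩
  · rw [h2]
  · omega

/-- ROW SND-I2b. The difference equation of `gk`.

Proof. Let `a = yr M y ∈ [0, M)`, `r = rk M k`, `D = (1 - r^M) (1/r - r) > 0` (`rk_facts`). If `a ≥ 1`:
`yr M (y-1) = a - 1`; `yr M (y+1) = a + 1` if `a + 1 < M` and `0` if `a + 1 = M`; in both cases
`gk (y+1) = (r^(a+1) + r^(M-a-1))/D` (for `a + 1 = M`: `r^M + r^0`, same as `r^0 + r^M`),
`gk (y-1) = (r^(a-1) + r^(M-a+1))/D`, and `r^(a+1) + r^(a-1) = (r + 1/r) r^a` etc. with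
`r + 1/r = 2 + 4 t²`. If `a = 0`: `gk (y+1) = gk (y-1) = (r + r^(M-1))/D` and
`(r + 1/r)(1 + r^M) - 2 (r + r^(M-1)) = (1/r - r)(1 - r^M)`. (`a = 0` iff `(M:ℤ) ∣ y`.) -/
theorem gk_eq (M k : ℕ) (h1 : 1 ≤ k) (h2 : k < M) (y : ℤ) :
    (2 + 4 * tk M k ^ 2) * gk M k y - gk M k (y + 1) - gk M k (y - 1) =
      if (M : ℤ) ∣ y then 1 else 0 := by
  have hM : 1 ≤ M := by omega
  obtain ⟨t0, -, r0, r1, hrr, hd, -, hrM, -, -⟩ := rk_facts M k h1 h2
  have hD1 : 0 < 1 - rk M k ^ M := by linarith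
  have hD2 : 0 < 1 / rk M k - rk M k := by linarith
  have hdvd : (M : ℤ) ∣ y ↔ yr M y = 0 := by
    have := I2b_yr_cast M hM y
    rw [Int.dvd_iff_emod_eq_zero]
    omega
  have hlt := I2b_yr_lt M hM y
  have hsucc := I2b_gk_succ M k hM y
  set r := rk M k with hr
  rcases Nat.eq_zero_or_pos (yr M y) with h0 | h0
  · rw [if_pos (hdvd.2 h0)]
    have hpred : gk M k (y - 1) = (r ^ (0 + 1) + r ^ (M - (0 + 1))) /
        ((1 - r ^ M) * (1 / r - r)) := by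
      rcases I2b_yr_pred M hM y with ⟨h3, _⟩ | ⟨_, h4⟩
      · omega
      · unfold gk
        rw [h4, ← hr]
        have e : M - (M - 1) = 0 + 1 := by omega
        rw [e]
        congr 1
        rw [add_comm]
    have hy : gk M k y = (r ^ 0 + r ^ M) / ((1 - r ^ M) * (1 / r - r)) := by
      unfold gk
      rw [h0, ← hr, Nat.sub_zero]
    rw [hsucc, hpred, hy, h0, ← hrr]
    obtain ⟨m, rfl⟩ : ∃ m, M = m + 1 := ⟨M - 1, by omega⟩
    simp only [zero_add, Nat.add_sub_cancel, pow_zero, pow_one]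
    have key : (1 / r + r) * (1 + r ^ (m + 1)) - (r + r ^ m) - (r + r ^ m)
        = (1 - r ^ (m + 1)) * (1 / r - r) := by
      have : r ≠ 0 := r0.ne'
      field_simp
      ring
    rw [← mul_div_assoc, ← sub_div, ← sub_div, key]
    exact div_self (mul_pos hD1 hD2).ne'
  · rw [if_neg (fun h => by have := hdvd.1 h; omega)]
    rw [hsucc, I2b_gk_pred M k hM y h0]
    have hy : gk M k y = (r ^ (yr M y) + r ^ (M - yr M y)) / ((1 - r ^ M) * (1 / r - r)) := rfl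
    rw [hy, ← hr, ← hrr]
    obtain ⟨a, ha⟩ : ∃ a, yr M y = a + 1 := ⟨yr M y - 1, by omega⟩
    obtain ⟨b, hb⟩ : ∃ b, M - yr M y = b + 1 := ⟨M - yr M y - 1, by omega⟩
    have e1 : M - (yr M y + 1) = b := by omega
    have e2 : M - (yr M y - 1) = b + 2 := by omega
    have e3 : yr M y - 1 = a := by omega
    rw [e1, e2, e3, hb, ha]
    have key : (1 / r + r) * (r ^ (a + 1) + r ^ (b + 1)) - (r ^ (a + 1 + 1) + r ^ b)
        - (r ^ a + r ^ (b + 2)) = 0 := by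
      have : r ≠ 0 := r0.ne'
      field_simp
      ring
    rw [← mul_div_assoc, ← sub_div, ← sub_div, key, zero_div]

end SND
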