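import Pool.Agent.SND.Defs
import Pool.Agent.SND.I1

open Finset

namespace SND

theorem I2c_yr_cast (M : ℕ) (hM : 1 ≤ M) (y : ℤ) : ((yr M y : ℕ) : ℤ) = y % (M : ℤ) := by
  unfold yr
  exact Int.toNat_of_nonneg (Int.emod_nonneg _ (by omega))

theorem I2c_yr_lt (M : ℕ) (hM : 1 ≤ M) (y : ℤ) : yr M y < M := by
  have h1 := I2c_yr_cast M hM y
  have hlt : y % (M : ℤ) < M := Int.emod_lt_of_pos _ (by omega)
  omega

/-- the residue of `y + 1` -/
theorem I2c_yr_succ (M : ℕ) (hM : 1 ≤ M) (y : ℤ) :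
    (yr M y + 1 < M ∧ yr M (y + 1) = yr M y + 1) ∨ (yr M y + 1 = M ∧ yr M (y + 1) = 0) := by
  have h1 := I2c_yr_cast M hM y
  have h2 := I2c_yr_cast M hM (y + 1)
  have h3 := I2c_yr_lt M hM y
  have e : (y + 1) % (M : ℤ) = (y % (M : ℤ) + 1) % (M : ℤ) := by
    rw [Int.emod_add_emod]
  rcases Nat.lt_or_ge (yr M y + 1) M with h | h
  · left
    refine ⟨h, ?_⟩
    have e' : (y % (M : ℤ) + 1) % (M : ℤ) = y % (M : ℤ) + 1 :=
      Int.emod_eq_of_lt (by omega) (by omega)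
    rw [e'] at e
    omega
  · right
    refine ⟨by omega, ?_⟩
    have e1 : y % (M : ℤ) + 1 = M := by omega
    rw [e1, Int.emod_self] at e
    omega

theorem I2c_gk_succ (M k : ℕ) (hM : 1 ≤ M) (y : ℤ) :
    gk M k (y + 1) = (rk M k ^ (yr M y + 1) + rk M k ^ (M - (yr M y + 1))) /
      ((1 - rk M k ^ M) * (1 / rk M k - rk M k)) := by
  unfold gk
  rcases I2c_yr_succ M hM y with ⟨h1, h2⟩ | ⟨h1, h2⟩
  · rw [h2]
  · rw [h2, h1]
    simp [add_comm]

/-- ROW SND-I2c. Bounds for `gk`.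

Proof. `D = (1 - r^M)(1/r - r) ≥ (1/2) (4 t) = 2 t`; the numerator is at most `2 r^(nd y)`
(both exponents are `≥ nd M y`, `0 < r < 1`). So `gk ≤ r^nd / t`. Difference: with `a = yr M y`,
the numerator of `gk (y+1) - gk y` is `(1 - r)(r^(M-a-1) - r^a)`, of absolute value at most
`(1 - r) r^(min a (M-1-a))`, `D ≥ (1/2)(1/r - r) ≥ (1/2)(1 - r)/r` (as `1/r - r = (1-r)(1+r)/r`), so the
quotient is at most `2 r^(1 + min a (M-1-a)) ≤ 2 r^(nd y)` since
`nd M y = min a (M-a) ≤ min (a+1) (M-a) = 1 + min a (M-1-a)`. -/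
theorem gk_bounds (M k : ℕ) (h1 : 1 ≤ k) (h2 : k < M) (y : ℤ) :
    0 ≤ gk M k y ∧ gk M k y ≤ rk M k ^ (nd M y) / tk M k ∧
    |gk M k (y + 1) - gk M k y| ≤ 2 * rk M k ^ (nd M y) := by
  have hM : 1 ≤ M := by omega
  obtain ⟨t0, -, r0, r1, hrr, hd, -, hrM, -, -⟩ := rk_facts M k h1 h2
  have hlt := I2c_yr_lt M hM y
  have hsucc := I2c_gk_succ M k hM y
  set r := rk M k with hr
  have hD1 : 1 / 2 ≤ 1 - r ^ M := by linarith
  have hD2 : 0 < 1 / r - r := by linarith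
  have hD : 0 < (1 - r ^ M) * (1 / r - r) := mul_pos (by linarith) hD2
  have hy : gk M k y = (r ^ (yr M y) + r ^ (M - yr M y)) / ((1 - r ^ M) * (1 / r - r)) := rfl
  have hnd : nd M y = min (yr M y) (M - yr M y) := rfl
  have p1 : r ^ (yr M y) ≤ r ^ (nd M y) :=
    pow_le_pow_of_le_one r0.le r1.le (by rw [hnd]; exact min_le_left _ _)
  have p2 : r ^ (M - yr M y) ≤ r ^ (nd M y) :=
    pow_le_pow_of_le_one r0.le r1.le (by rw [hnd]; exact min_le_right _ _)
  have pn : 0 < r ^ (nd M y) := pow_pos r0 _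
  refine ⟨?_, ?_, ?_⟩
  · rw [hy]; positivity
  · rw [hy, div_le_div_iff₀ hD t0]
    have hD' : 2 * tk M k ≤ (1 - r ^ M) * (1 / r - r) := by
      calc 2 * tk M k = 1 / 2 * (4 * tk M k) := by ring
        _ ≤ (1 - r ^ M) * (1 / r - r) := mul_le_mul hD1 hd (by linarith) (by linarith)
    calc (r ^ yr M y + r ^ (M - yr M y)) * tk M k ≤ (2 * r ^ (nd M y)) * tk M k :=
          mul_le_mul_of_nonneg_right (by linarith) t0.le
      _ = r ^ (nd M y) * (2 * tk M k) := by ring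
      _ ≤ _ := mul_le_mul_of_nonneg_left hD' pn.le
  · obtain ⟨b, hb⟩ : ∃ b, M - yr M y = b + 1 := ⟨M - yr M y - 1, by omega⟩
    have e1 : M - (yr M y + 1) = b := by omega
    rw [hsucc, hy, hb, e1, ← sub_div, abs_div, abs_of_pos hD, div_le_iff₀ hD]
    set a := yr M y with ha
    have e2 : r ^ (a + 1) + r ^ b - (r ^ a + r ^ (b + 1)) = (1 - r) * (r ^ b - r ^ a) := by ring
    rw [e2, abs_mul, abs_of_pos (by linarith : (0 : ℝ) < 1 - r)]
    have h3 : |r ^ b - r ^ a| ≤ r ^ (min a b) := by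
      have q1 : r ^ a ≤ r ^ (min a b) := pow_le_pow_of_le_one r0.le r1.le (min_le_left _ _)
      have q2 : r ^ b ≤ r ^ (min a b) := pow_le_pow_of_le_one r0.le r1.le (min_le_right _ _)
      have q3 : 0 < r ^ a := pow_pos r0 _
      have q4 : 0 < r ^ b := pow_pos r0 _
      rw [abs_le]; constructor <;> linarith
    have h4 : (1 - r) ≤ r * (1 / r - r) := by
      have : r * (1 / r - r) = (1 - r) * (1 + r) := by field_simp; ring
      rw [this]
      nlinarith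
    have h5 : r ^ (min a b + 1) ≤ r ^ (nd M y) :=
      pow_le_pow_of_le_one r0.le r1.le (by rw [hnd, hb]; omega)
    have h6 : 0 < r ^ (min a b) := pow_pos r0 _
    calc (1 - r) * |r ^ b - r ^ a| ≤ (r * (1 / r - r)) * r ^ (min a b) :=
          mul_le_mul h4 h3 (abs_nonneg _) (by positivity)
      _ = r ^ (min a b + 1) * (1 / r - r) := by rw [pow_succ]; ring
      _ ≤ r ^ (nd M y) * (1 / r - r) := mul_le_mul_of_nonneg_right h5 hD2.le
      _ = 2 * r ^ (nd M y) * (1 / 2 * (1 / r - r)) := by ring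
      _ ≤ 2 * r ^ (nd M y) * ((1 - r ^ M) * (1 / r - r)) := by
        apply mul_le_mul_of_nonneg_left _ (by positivity)
        exact mul_le_mul_of_nonneg_right hD1 hD2.le

end SND
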