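import Pool.Agent.SND.Defs
import Pool.Agent.SND.I1

open Finset

namespace SND

/-- each value of `min k (M - k)` is taken at most twice -/
theorem I2d_min (M : ℕ) (f : ℕ → ℝ) (hf : ∀ j, 0 ≤ f j) :
    ∑ k ∈ Ico 1 M, f (min k (M - k)) ≤ 2 * ∑ k ∈ Ico 1 M, f k := by
  have h1 : ∑ k ∈ Ico 1 M, f (min k (M - k)) ≤ ∑ k ∈ Ico 1 M, (f k + f (M - k)) := by
    refine Finset.sum_le_sum fun k _ => ?_
    rcases le_total k (M - k) with h | h
    · rw [min_eq_left h]; linarith [hf (M - k)]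
    · rw [min_eq_right h]; linarith [hf k]
  have h2 : ∑ k ∈ Ico 1 M, f (M - k) = ∑ k ∈ Ico 1 M, f k := by
    refine Finset.sum_bij' (fun k _ => M - k) (fun k _ => M - k) ?_ ?_ ?_ ?_ ?_
    · intro k hk
      simp only [Finset.mem_Ico] at hk ⊢
      omega
    · intro k hk
      simp only [Finset.mem_Ico] at hk ⊢
      omega
    · intro k hk
      simp only [Finset.mem_Ico] at hk
      omega
    · intro k hk
      simp only [Finset.mem_Ico] at hk
      omega
    · intro k _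
      rfl
  rw [Finset.sum_add_distrib, h2] at h1
  linarith

theorem I2d_geom {q : ℝ} (h0 : 0 ≤ q) (h1 : q < 1) (M : ℕ) :
    ∑ k ∈ Ico 1 M, q ^ k ≤ q / (1 - q) := by
  have h2 : ∀ n : ℕ, (1 - q) * ∑ k ∈ range n, q ^ (k + 1) = q - q ^ (n + 1) := by
    intro n
    induction n with
    | zero => simp
    | succ n ih => rw [Finset.sum_range_succ, mul_add, ih]; ring
  have h3 : ∑ k ∈ Ico 1 M, q ^ k = ∑ k ∈ range (M - 1), q ^ (k + 1) := by
    rw [Finset.sum_Ico_eq_sum_range]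
    exact Finset.sum_congr rfl fun k _ => by rw [add_comm]
  rw [h3, le_div_iff₀ (by linarith), mul_comm, h2]
  linarith [pow_nonneg h0 (M - 1 + 1)]

theorem I2d_geom2 {q : ℝ} (h0 : 0 ≤ q) (h1 : q < 1) (M : ℕ) :
    ∑ k ∈ Ico 1 M, (k : ℝ) * q ^ k ≤ q / (1 - q) ^ 2 := by
  have h2 : ∀ n : ℕ, (1 - q) ^ 2 * ∑ k ∈ range n, ((k + 1 : ℕ) : ℝ) * q ^ (k + 1) =
      q - (n + 1) * q ^ (n + 1) + n * q ^ (n + 2) := by
    intro n
    induction n with
    | zero => simp
    | succ n ih => rw [Finset.sum_range_succ, mul_add, ih]; push_cast; ring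
  have h3 : ∑ k ∈ Ico 1 M, (k : ℝ) * q ^ k =
      ∑ k ∈ range (M - 1), ((k + 1 : ℕ) : ℝ) * q ^ (k + 1) := by
    rw [Finset.sum_Ico_eq_sum_range]
    exact Finset.sum_congr rfl fun k _ => by rw [add_comm]
  have hpos : 0 < (1 - q) ^ 2 := by
    have : 0 < 1 - q := by linarith
    positivity
  rw [h3, le_div_iff₀ hpos, mul_comm, h2]
  have h4 : ((M - 1 : ℕ) : ℝ) * q ^ (M - 1 + 2) ≤ ((M - 1 : ℕ) + 1) * q ^ (M - 1 + 1) := by
    have h5 : q ^ (M - 1 + 2) ≤ q ^ (M - 1 + 1) :=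
      pow_le_pow_of_le_one h0 h1.le (by omega)
    have h6 : (0 : ℝ) ≤ ((M - 1 : ℕ) : ℝ) := Nat.cast_nonneg _
    have h7 : 0 ≤ q ^ (M - 1 + 1) := pow_nonneg h0 _
    nlinarith [mul_le_mul_of_nonneg_left h5 h6]
  linarith

/-- `e^{-a} / (1 - e^{-a}) ≤ 1/a` -/
theorem I2d_exp1 {a : ℝ} (ha : 0 < a) : Real.exp (-a) / (1 - Real.exp (-a)) ≤ 1 / a := by
  have h1 : Real.exp (-a) < 1 := by rw [Real.exp_lt_one_iff]; linarith
  rw [div_le_div_iff₀ (by linarith) ha]
  have h2 := Real.add_one_le_exp a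
  have h3 : Real.exp (-a) * Real.exp a = 1 := by rw [← Real.exp_add]; simp
  have h4 := Real.exp_pos (-a)
  nlinarith

/-- `e^{-a} / (1 - e^{-a})^2 ≤ 1/a^2` -/
theorem I2d_exp2 {a : ℝ} (ha : 0 < a) : Real.exp (-a) / (1 - Real.exp (-a)) ^ 2 ≤ 1 / a ^ 2 := by
  have h1 : Real.exp (-a) < 1 := by rw [Real.exp_lt_one_iff]; linarith
  have hpos : 0 < (1 - Real.exp (-a)) ^ 2 := by
    have : 0 < 1 - Real.exp (-a) := by linarith
    positivity
  rw [div_le_div_iff₀ hpos (by positivity), one_mul]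
  -- `a e^{-a/2} ≤ 1 - e^{-a}`
  have h2 : a * Real.exp (-(a / 2)) ≤ 1 - Real.exp (-a) := by
    have h3 : a / 2 ≤ Real.sinh (a / 2) := Real.self_le_sinh_iff.2 (by linarith)
    rw [Real.sinh_eq] at h3
    have h4 := Real.exp_pos (-(a / 2))
    have h5 : Real.exp (-(a / 2)) * Real.exp (a / 2) = 1 := by rw [← Real.exp_add]; simp
    have h6 : Real.exp (-(a / 2)) * Real.exp (-(a / 2)) = Real.exp (-a) := by
      rw [← Real.exp_add]; congr 1; ring
    nlinarith
  have h7 : Real.exp (-(a / 2)) * Real.exp (-(a / 2)) = Real.exp (-a) := by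
    rw [← Real.exp_add]; congr 1; ring
  have h8 : 0 ≤ a * Real.exp (-(a / 2)) := by positivity
  calc Real.exp (-a) * a ^ 2 = (a * Real.exp (-(a / 2))) ^ 2 := by rw [← h7]; ring
    _ ≤ (1 - Real.exp (-a)) ^ 2 := pow_le_pow_left₀ h8 h2 2

/-- ROW SND-I2d. Sums over the modes.

Proof. `ρ = 0`: trivial (`r^0 = 1`, `t ≤ 1`; there are `M - 1` modes). `ρ ≥ 1`: `rk M k ≤ exp (-t)
≤ exp (-2 s)`, `s = min(k,M-k)/M`, so `∑_k r^ρ ≤ 2 ∑_{j ≥ 1} exp (-2 j ρ/M) ≤ 2 / (exp (2ρ/M) - 1)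
≤ M/ρ ≤ 2 M/(1+ρ)`, and `∑_k t r^ρ ≤ ∑_k π s exp (-2 s ρ) ≤ (2π/M) ∑_{j ≥ 1} j exp (-2 j ρ/M)
≤ (2π/M) (M/(2ρ))^2 = π M/(2 ρ²) ≤ 8 M/(1+ρ)^2` (`∑_{j≥1} j y^j = y/(1-y)^2`, and
`(1 - exp (-a))^2 ≥ a^2 exp (-a)`, i.e. `2 sinh (a/2) ≥ a`). (Each value of `min (k, M-k)` is taken
at most twice; finite sums are bounded by `tsum`s, or use the finite geometric sums directly. Any
constants are fine, but keep the statement as it is.) -/
theorem sum_rk (M : ℕ) (hM : 2 ≤ M) (ρ : ℕ) :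
    ∑ k ∈ Ico 1 M, rk M k ^ ρ ≤ 2 * M / (1 + ρ) ∧
    ∑ k ∈ Ico 1 M, tk M k * rk M k ^ ρ ≤ 8 * M / (1 + ρ) ^ 2 := by
  have hM0 : (0 : ℝ) < M := by
    have : 0 < M := by omega
    exact_mod_cast this
  rcases Nat.eq_zero_or_pos ρ with h0 | hρ
  · subst h0
    have hcard : ((Ico 1 M).card : ℝ) ≤ M := by
      rw [Nat.card_Ico]
      exact_mod_cast Nat.sub_le _ _
    constructor
    · simp only [pow_zero, Finset.sum_const, nsmul_eq_mul, mul_one, Nat.cast_zero, add_zero,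
        div_one]
      linarith
    · simp only [pow_zero, mul_one, Nat.cast_zero, add_zero, one_pow, div_one]
      have h1 : ∑ k ∈ Ico 1 M, tk M k ≤ ∑ _k ∈ Ico 1 M, (1 : ℝ) := by
        refine Finset.sum_le_sum fun k hk => ?_
        rw [Finset.mem_Ico] at hk
        exact (rk_facts M k hk.1 hk.2).2.1
      rw [Finset.sum_const, nsmul_eq_mul, mul_one] at h1
      linarith
  · have hρ' : (1 : ℝ) ≤ ρ := by exact_mod_cast hρ
    have ha : 0 < 2 * (ρ : ℝ) / M := by positivity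
    set a : ℝ := 2 * (ρ : ℝ) / M with hadef
    set q : ℝ := Real.exp (-a) with hq
    have hq0 : 0 ≤ q := (Real.exp_pos _).le
    have hq1 : q < 1 := by rw [hq, Real.exp_lt_one_iff]; linarith
    have hpow : ∀ k, 1 ≤ k → k < M → rk M k ^ ρ ≤ q ^ (min k (M - k)) := by
      intro k h1 h2
      obtain ⟨ht0, -, hr0, -, -, -, hre, -, hmin, -⟩ := rk_facts M k h1 h2
      calc rk M k ^ ρ ≤ Real.exp (-(tk M k)) ^ ρ := pow_le_pow_left₀ hr0.le hre ρ
        _ = Real.exp (-(tk M k * ρ)) := by rw [← Real.exp_nat_mul]; congr 1; ring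
        _ ≤ Real.exp (-(a * (min k (M - k) : ℕ))) := by
            rw [Real.exp_le_exp, neg_le_neg_iff]
            have : a * (min k (M - k) : ℕ) = 2 * (min k (M - k) : ℕ) / (M : ℝ) * ρ := by
              rw [hadef]; ring
            rw [this]
            exact mul_le_mul_of_nonneg_right hmin (by linarith)
        _ = q ^ (min k (M - k)) := by rw [hq, ← Real.exp_nat_mul]; congr 1; ring
    constructor
    · calc ∑ k ∈ Ico 1 M, rk M k ^ ρ ≤ ∑ k ∈ Ico 1 M, q ^ (min k (M - k)) := by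
            refine Finset.sum_le_sum fun k hk => ?_
            rw [Finset.mem_Ico] at hk
            exact hpow k hk.1 hk.2
        _ ≤ 2 * ∑ k ∈ Ico 1 M, q ^ k := I2d_min M (fun j => q ^ j) fun j => pow_nonneg hq0 j
        _ ≤ 2 * (1 / a) := by
            have := (I2d_geom hq0 hq1 M).trans (I2d_exp1 ha)
            linarith
        _ = M / ρ := by rw [hadef]; field_simp
        _ ≤ 2 * M / (1 + ρ) := by
            rw [div_le_div_iff₀ (by linarith) (by linarith)]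
            nlinarith
    · calc ∑ k ∈ Ico 1 M, tk M k * rk M k ^ ρ
          ≤ ∑ k ∈ Ico 1 M, (Real.pi / M * ((min k (M - k) : ℕ) * q ^ (min k (M - k)))) := by
            refine Finset.sum_le_sum fun k hk => ?_
            rw [Finset.mem_Ico] at hk
            obtain ⟨ht0, -, hr0, -, -, -, -, -, -, hmax⟩ := rk_facts M k hk.1 hk.2
            have h1 := hpow k hk.1 hk.2
            have h2 : 0 ≤ rk M k ^ ρ := pow_nonneg hr0.le _
            calc tk M k * rk M k ^ ρ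
                ≤ (Real.pi * (min k (M - k) : ℕ) / (M : ℝ)) * q ^ (min k (M - k)) :=
                  mul_le_mul hmax h1 h2 (ht0.le.trans hmax)
              _ = _ := by ring
        _ ≤ 2 * ∑ k ∈ Ico 1 M, (Real.pi / M * ((k : ℕ) * q ^ k)) :=
            I2d_min M (fun j => Real.pi / M * ((j : ℕ) * q ^ j)) fun j => by
              have := Real.pi_pos
              have := pow_nonneg hq0 j
              positivity
        _ = 2 * (Real.pi / M) * ∑ k ∈ Ico 1 M, ((k : ℕ) * q ^ k) := by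
            rw [← Finset.mul_sum]; ring
        _ ≤ 2 * (Real.pi / M) * (1 / a ^ 2) := by
            have h1 := (I2d_geom2 hq0 hq1 M).trans (I2d_exp2 ha)
            have h2 : 0 ≤ 2 * (Real.pi / M) := by
              have := Real.pi_pos
              positivity
            exact mul_le_mul_of_nonneg_left h1 h2
        _ = Real.pi * M / (2 * ρ ^ 2) := by rw [hadef]; field_simp
        _ ≤ 8 * M / (1 + ρ) ^ 2 := by
            rw [div_le_div_iff₀ (by positivity) (by positivity)]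
            have h1 : (1 + (ρ : ℝ)) ^ 2 ≤ 4 * ρ ^ 2 := by nlinarith
            have h2 : Real.pi ≤ 4 := Real.pi_le_four
            have h3 := Real.pi_pos
            have h4 : Real.pi * (M : ℝ) * (1 + (ρ : ℝ)) ^ 2 ≤ 4 * (M : ℝ) * (4 * (ρ : ℝ) ^ 2) :=
              mul_le_mul (mul_le_mul_of_nonneg_right h2 hM0.le) h1 (by positivity) (by positivity)
            have h5 : 4 * (M : ℝ) * (4 * (ρ : ℝ) ^ 2) = 8 * M * (2 * (ρ : ℝ) ^ 2) := by ring
            rw [← h5]
            exact h4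

end SND
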