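import Pool.Agent.SND.Defs
import Pool.Agent.SND.I2a
import Pool.Agent.SND.I2b

open Finset

namespace SND

theorem I3a_yr_cast {M : ℕ} (hM : 2 ≤ M) (y : ℤ) : ((yr M y : ℕ) : ℤ) = y % (M : ℤ) := by
  unfold yr
  exact Int.toNat_of_nonneg (Int.emod_nonneg y (by omega))

theorem I3a_yr_lt {M : ℕ} (hM : 2 ≤ M) (y : ℤ) : yr M y < M := by
  have h1 := Int.emod_lt_of_pos y (by omega : (0 : ℤ) < M)
  have h2 := I3a_yr_cast hM y
  omega

theorem I3a_yr_succ {M : ℕ} (hM : 2 ≤ M) (y : ℤ) :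
    (yr M (y + 1) = yr M y + 1) ∨ (yr M y + 1 = M ∧ yr M (y + 1) = 0) := by
  have h1 := I3a_yr_cast hM y
  have h2 := I3a_yr_cast hM (y + 1)
  have h3 := I3a_yr_lt hM y
  have h4 : (y + 1) % (M : ℤ) = (y % (M : ℤ) + 1) % (M : ℤ) := by
    rw [Int.emod_add_emod]
  rcases Nat.lt_or_ge (yr M y + 1) M with h | h
  · left
    have h6 : (y % (M : ℤ) + 1) % (M : ℤ) = y % (M : ℤ) + 1 :=
      Int.emod_eq_of_lt (by omega) (by omega)
    omega
  · right
    have h8 : y % (M : ℤ) + 1 = M := by omega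
    rw [h8, Int.emod_self] at h4
    omega

theorem I3a_yr_zero {M : ℕ} (hM : 2 ≤ M) (y : ℤ) : yr M y = 0 ↔ (M : ℤ) ∣ y := by
  have h1 := I3a_yr_cast hM y
  constructor
  · intro h
    exact Int.dvd_of_emod_eq_zero (by omega)
  · intro h
    have := Int.emod_eq_zero_of_dvd h
    omega

/-- the difference equation of the quadratic term -/
theorem I3a_zz {M : ℕ} (hM : 2 ≤ M) (y : ℤ) :
    2 * ((yr M y : ℝ) * (M - yr M y)) - (yr M (y + 1) : ℝ) * (M - yr M (y + 1)) -
      (yr M (y - 1) : ℝ) * (M - yr M (y - 1)) =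
      2 - 2 * M * (if (M : ℤ) ∣ y then 1 else 0) := by
  have h1 := I3a_yr_succ hM y
  have h2 := I3a_yr_succ hM (y - 1)
  rw [sub_add_cancel] at h2
  have h3 := I3a_yr_zero hM y
  have hM2 : (2 : ℝ) ≤ M := by exact_mod_cast hM
  -- the value at `y + 1`
  have e1 : (yr M (y + 1) : ℝ) * (M - yr M (y + 1)) = (yr M y + 1) * (M - (yr M y + 1)) := by
    rcases h1 with h | ⟨h, h'⟩
    · rw [h]; push_cast; ring
    · rw [h']
      have : (yr M y : ℝ) + 1 = M := by exact_mod_cast h
      rw [this]; simp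
  by_cases hy : (M : ℤ) ∣ y
  · rw [if_pos hy, mul_one]
    have h0 : yr M y = 0 := h3.2 hy
    have h4 : yr M (y - 1) + 1 = M := by
      rcases h2 with h | ⟨h, -⟩
      · omega
      · exact h
    have h5 : (yr M (y - 1) : ℝ) = M - 1 := by
      have : (yr M (y - 1) : ℝ) + 1 = M := by exact_mod_cast h4
      linarith
    rw [e1, h5, h0]
    push_cast
    ring
  · rw [if_neg hy, mul_zero, sub_zero]
    have h0 : yr M y ≠ 0 := fun h => hy (h3.1 h)
    have h4 : yr M y = yr M (y - 1) + 1 := by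
      rcases h2 with h | ⟨-, h⟩
      · exact h
      · exact absurd h h0
    have h5 : (yr M (y - 1) : ℝ) = yr M y - 1 := by
      have : (yr M y : ℝ) = yr M (y - 1) + 1 := by exact_mod_cast h4
      linarith
    rw [e1, h5]
    ring

/-- sums of cosines over the roots of unity -/
theorem I3a_cos {M : ℕ} (hM : 2 ≤ M) (x : ℤ) :
    1 + ∑ k ∈ Ico 1 M, Real.cos (2 * Real.pi * k * x / M) =
      M * (if (M : ℤ) ∣ x then 1 else 0) := by
  have hM0 : (M : ℝ) ≠ 0 := by
    have : M ≠ 0 := by omega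
    exact_mod_cast this
  have e1 : 1 + ∑ k ∈ Ico 1 M, Real.cos (2 * Real.pi * k * x / M) =
      ∑ k ∈ range M, Real.cos (2 * Real.pi * k * x / M) := by
    rw [Finset.range_eq_Ico, Finset.sum_eq_sum_Ico_succ_bot (by omega : 0 < M)]
    simp
  rw [e1]
  by_cases hx : (M : ℤ) ∣ x
  · rw [if_pos hx, mul_one]
    obtain ⟨q, hq⟩ := hx
    have : ∀ k ∈ range M, Real.cos (2 * Real.pi * k * x / M) = 1 := by
      intro k _
      have h1 : 2 * Real.pi * k * x / M = ((k * q : ℤ) : ℝ) * (2 * Real.pi) := by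
        rw [hq]; push_cast; field_simp
      rw [h1]
      exact Real.cos_int_mul_two_pi _
    rw [Finset.sum_congr rfl this]
    simp
  · rw [if_neg hx, mul_zero]
    set a : ℝ := Real.pi * x / M with ha
    have hsin : Real.sin a ≠ 0 := by
      intro h
      rw [Real.sin_eq_zero_iff] at h
      obtain ⟨m, hm⟩ := h
      apply hx
      refine ⟨m, ?_⟩
      rw [ha, eq_div_iff hM0] at hm
      have h1 : (m : ℝ) * M = x := by
        have h2 : Real.pi * ((m : ℝ) * M) = Real.pi * x := by rw [← hm]; ring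
        exact mul_left_cancel₀ Real.pi_ne_zero h2
      have h3 : (x : ℝ) = ((M * m : ℤ) : ℝ) := by rw [← h1]; push_cast; ring
      exact_mod_cast h3
    have h1 : ∀ n : ℕ, 2 * Real.sin a * ∑ k ∈ range n, Real.cos (2 * Real.pi * k * x / M) =
        Real.sin ((2 * n - 1) * a) + Real.sin a := by
      intro n
      induction n with
      | zero => simp
      | succ n ih =>
        rw [Finset.sum_range_succ, mul_add, ih]
        have h2 : 2 * Real.pi * n * x / M = 2 * n * a := by rw [ha]; ring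
        have h3 : (2 * ((n + 1 : ℕ) : ℝ) - 1) * a = 2 * n * a + a := by push_cast; ring
        have h4 : (2 * (n : ℝ) - 1) * a = 2 * n * a - a := by ring
        rw [h2, h3, h4, Real.sin_add, Real.sin_sub]
        ring
    have h5 := h1 M
    have h6 : (2 * (M : ℝ) - 1) * a = -a + (x : ℝ) * (2 * Real.pi) := by
      rw [ha]; field_simp; ring
    rw [h6, Real.sin_add_int_mul_two_pi, Real.sin_neg, neg_add_cancel] at h5
    rcases mul_eq_zero.1 h5 with h7 | h7
    · rcases mul_eq_zero.1 h7 with h8 | h8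
      · norm_num at h8
      · exact absurd h8 hsin
    · exact h7

/-- ROW SND-I3a. The Laplace equation, periodicity and evenness of the potential kernel.

Proof. Periodicity/evenness in `y`: SND-I2a; in `x`: `cos (2 π k (x + M)/M) = cos (2 π k x/M)` and
`cos` is even. Equation: the mode `k` contributes (factor `1/M` outside)
`- cos(p x) [ (4 - 2 cos p) gk y - gk (y+1) - gk (y-1) ]` with `p = 2πk/M`
(`cos (p (x+1)) + cos (p (x-1)) = 2 cos p cos (p x)`), `4 - 2 cos p = 2 + 4 sin²(p/2) = 2 + 4 t²`, so by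
SND-I2b it is `- cos (p x) [M ∣ y]`. The last term `z(y) = yr (M - yr)/(2M)` satisfies
`2 z(y) - z(y+1) - z(y-1) = 1/M - [M ∣ y]` (for `yr = a ≥ 1`: `(2 a (M-a) - (a+1)(M-a-1) -
(a-1)(M-a+1))/(2M) = 2/(2M)`; for `a = 0`: `- 2 (M-1)/(2M)`). Total:
`(1/M) (1/M - [M ∣ y] (1 + ∑_{k=1}^{M-1} cos (2πk x/M)))` and `∑_{k=0}^{M-1} cos (2πkx/M) = M [M ∣ x]`
(roots of unity). The value at `(0,0)`: `cos 0 = 1`, `yr M 0 = 0`. -/
theorem AA_eq (M : ℕ) (hM : 2 ≤ M) :
    AA M 0 0 = 0 ∧ (∀ x y, AA M (x + M) y = AA M x y) ∧ (∀ x y, AA M x (y + M) = AA M x y) ∧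
    (∀ x y, AA M (-x) y = AA M x y) ∧ (∀ x y, AA M x (-y) = AA M x y) ∧
    ∀ x y : ℤ, 4 * AA M x y - AA M (x + 1) y - AA M (x - 1) y - AA M x (y + 1) - AA M x (y - 1) =
      1 / (M : ℝ) ^ 2 - if (M : ℤ) ∣ x ∧ (M : ℤ) ∣ y then 1 else 0 := by
  have hM0 : (M : ℝ) ≠ 0 := by
    have : M ≠ 0 := by omega
    exact_mod_cast this
  have hM1 : 1 ≤ M := by omega
  have hg : ∀ k y, gk M k (y + M) = gk M k y := fun k y => (gk_period_even M hM1 k y).1
  have hge : ∀ k y, gk M k (-y) = gk M k y := fun k y => (gk_period_even M hM1 k y).2.1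
  have hyr : ∀ y : ℤ, yr M (y + M) = yr M y := by
    intro y
    unfold yr
    rw [Int.add_emod_right]
  have hyre : ∀ y : ℤ, (yr M (-y) : ℝ) * (M - yr M (-y)) = (yr M y : ℝ) * (M - yr M y) :=
    fun y => (gk_period_even M hM1 0 y).2.2.2.2
  refine ⟨?_, ?_, ?_, ?_, ?_, ?_⟩
  · have h0 : yr M 0 = 0 := by unfold yr; simp
    unfold AA
    rw [h0]
    simp
  · intro x y
    unfold AA
    have : ∀ k : ℕ, Real.cos (2 * Real.pi * k * ((x + M : ℤ) : ℝ) / M) =
        Real.cos (2 * Real.pi * k * x / M) := by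
      intro k
      have h1 : 2 * Real.pi * k * ((x + M : ℤ) : ℝ) / M =
          2 * Real.pi * k * x / M + (k : ℝ) * (2 * Real.pi) := by
        push_cast; field_simp
      rw [h1]
      exact Real.cos_add_nat_mul_two_pi _ _
    simp only [this]
  · intro x y
    unfold AA
    simp only [hg, hyr]
  · intro x y
    unfold AA
    have : ∀ k : ℕ, Real.cos (2 * Real.pi * k * ((-x : ℤ) : ℝ) / M) =
        Real.cos (2 * Real.pi * k * x / M) := by
      intro k
      have h1 : 2 * Real.pi * k * ((-x : ℤ) : ℝ) / M = -(2 * Real.pi * k * x / M) := by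
        push_cast; ring
      rw [h1, Real.cos_neg]
    simp only [this]
  · intro x y
    unfold AA
    simp only [hge, hyre]
  · intro x y
    -- the modes
    have hmode : ∀ k ∈ Ico 1 M,
        4 * (gk M k 0 - Real.cos (2 * Real.pi * k * x / M) * gk M k y) -
        (gk M k 0 - Real.cos (2 * Real.pi * k * ((x + 1 : ℤ) : ℝ) / M) * gk M k y) -
        (gk M k 0 - Real.cos (2 * Real.pi * k * ((x - 1 : ℤ) : ℝ) / M) * gk M k y) -
        (gk M k 0 - Real.cos (2 * Real.pi * k * x / M) * gk M k (y + 1)) -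
        (gk M k 0 - Real.cos (2 * Real.pi * k * x / M) * gk M k (y - 1)) =
        -(Real.cos (2 * Real.pi * k * x / M) * (if (M : ℤ) ∣ y then 1 else 0)) := by
      intro k hk
      rw [Finset.mem_Ico] at hk
      have h1 := gk_eq M k hk.1 hk.2 y
      have h2 : Real.cos (2 * Real.pi * k * ((x + 1 : ℤ) : ℝ) / M) +
          Real.cos (2 * Real.pi * k * ((x - 1 : ℤ) : ℝ) / M) =
          2 * (1 - 2 * tk M k ^ 2) * Real.cos (2 * Real.pi * k * x / M) := by
        have e1 : 2 * Real.pi * k * ((x + 1 : ℤ) : ℝ) / M =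
            2 * Real.pi * k * x / M + 2 * (Real.pi * k / M) := by push_cast; ring
        have e2 : 2 * Real.pi * k * ((x - 1 : ℤ) : ℝ) / M =
            2 * Real.pi * k * x / M - 2 * (Real.pi * k / M) := by push_cast; ring
        have e3 : Real.cos (2 * (Real.pi * k / M)) = 1 - 2 * tk M k ^ 2 := by
          unfold tk
          rw [Real.cos_two_mul, Real.cos_sq']; ring
        rw [e1, e2, Real.cos_add, Real.cos_sub, e3]
        ring
      rw [← h1]
      linear_combination (gk M k y) * h2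
    have hsum := Finset.sum_congr rfl hmode
    simp only [Finset.sum_sub_distrib, ← Finset.mul_sum, Finset.sum_neg_distrib,
      ← Finset.sum_mul] at hsum
    have hz := I3a_zz hM y
    have hc := I3a_cos hM x
    have hsplit : (if (M : ℤ) ∣ x ∧ (M : ℤ) ∣ y then (1 : ℝ) else 0) =
        (if (M : ℤ) ∣ x then 1 else 0) * (if (M : ℤ) ∣ y then 1 else 0) := by
      split_ifs <;> simp_all
    rw [hsplit]
    unfold AA
    simp only [Finset.sum_sub_distrib]
    set iy : ℝ := if (M : ℤ) ∣ y then 1 else 0 with hiy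
    set ix : ℝ := if (M : ℤ) ∣ x then 1 else 0 with hix
    generalize (∑ k ∈ Ico 1 M, gk M k 0) = A0 at *
    generalize (∑ k ∈ Ico 1 M, Real.cos (2 * Real.pi * k * x / M) * gk M k y) = A1 at *
    generalize (∑ k ∈ Ico 1 M, Real.cos (2 * Real.pi * k * ((x + 1 : ℤ) : ℝ) / M) * gk M k y) =
      A2 at *
    generalize (∑ k ∈ Ico 1 M, Real.cos (2 * Real.pi * k * ((x - 1 : ℤ) : ℝ) / M) * gk M k y) =
      A3 at *
    generalize (∑ k ∈ Ico 1 M, Real.cos (2 * Real.pi * k * x / M) * gk M k (y + 1)) = A4 at *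
    generalize (∑ k ∈ Ico 1 M, Real.cos (2 * Real.pi * k * x / M) * gk M k (y - 1)) = A5 at *
    generalize (∑ k ∈ Ico 1 M, Real.cos (2 * Real.pi * k * x / M)) = CC at *
    field_simp
    linear_combination (2 : ℝ) * M * hsum + hz - (2 : ℝ) * M * iy * hc

end SND
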