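import Pool.Agent.SND.Defs

open Finset

namespace SND

theorem I3b_mod (M : ℕ) (f : ℤ → ℤ → ℝ) (h1 : ∀ x y, f (x + M) y = f x y)
    (h2 : ∀ x y, f x (y + M) = f x y) (x y : ℤ) : f x y = f (x % M) (y % M) := by
  have a1 : ∀ (k : ℤ) (x y : ℤ), f (x + M * k) y = f x y := by
    intro k
    induction k using Int.induction_on with
    | zero => intro x y; simp
    | succ k ih =>
      intro x y
      rw [show x + (M : ℤ) * (k + 1) = (x + M * k) + M by ring, h1, ih]
    | pred k ih =>
      intro x y
      rw [← h1, show x + (M : ℤ) * (-k - 1) + M = x + M * (-k) by ring, ih]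
  have a2 : ∀ (k : ℤ) (x y : ℤ), f x (y + M * k) = f x y := by
    intro k
    induction k using Int.induction_on with
    | zero => intro x y; simp
    | succ k ih =>
      intro x y
      rw [show y + (M : ℤ) * (k + 1) = (y + M * k) + M by ring, h2, ih]
    | pred k ih =>
      intro x y
      rw [← h2, show y + (M : ℤ) * (-k - 1) + M = y + M * (-k) by ring, ih]
  calc f x y = f (x % M + M * (x / M)) (y % M + M * (y / M)) := by
        rw [Int.emod_add_mul_ediv, Int.emod_add_mul_ediv]
    _ = _ := by rw [a1, a2]

/-- ROW SND-I3b. Periodic discrete harmonic functions are constant.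

Proof. `f` takes finitely many values (it is determined by its values on `[0,M)²`); take a maximum
point; the equation shows that the four neighbours are also maximum points; by connectedness
(induction on the coordinates) `f` is constant. -/
theorem harmonic_const (M : ℕ) (hM : 1 ≤ M) (f : ℤ → ℤ → ℝ) (h1 : ∀ x y, f (x + M) y = f x y)
    (h2 : ∀ x y, f x (y + M) = f x y)
    (h3 : ∀ x y, 4 * f x y = f (x + 1) y + f (x - 1) y + f x (y + 1) + f x (y - 1)) (x y : ℤ) :
    f x y = f 0 0 := by
  have hM' : (0 : ℤ) < M := by exact_mod_cast hM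
  obtain ⟨⟨a, b⟩, -, hab⟩ := Finset.exists_max_image (Finset.range M ×ˢ Finset.range M)
    (fun p => f p.1 p.2) ⟨(0, 0), by simp; omega⟩
  have hmax : ∀ x y, f x y ≤ f a b := by
    intro x y
    rw [I3b_mod M f h1 h2 x y]
    have e1 := Int.emod_nonneg x hM'.ne'
    have e2 := Int.emod_nonneg y hM'.ne'
    have e3 := Int.emod_lt_of_pos x hM'
    have e4 := Int.emod_lt_of_pos y hM'
    have := hab ((x % M).toNat, (y % M).toNat) (by
      simp only [Finset.mem_product, Finset.mem_range]
      omega)
    simp only [Int.toNat_of_nonneg e1, Int.toNat_of_nonneg e2] at this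
    exact this
  have hstep : ∀ x y, f x y = f a b → f (x + 1) y = f a b ∧ f (x - 1) y = f a b ∧
      f x (y + 1) = f a b ∧ f x (y - 1) = f a b := by
    intro x y h
    have e := h3 x y
    have e1 := hmax (x + 1) y
    have e2 := hmax (x - 1) y
    have e3 := hmax x (y + 1)
    have e4 := hmax x (y - 1)
    refine ⟨?_, ?_, ?_, ?_⟩ <;> linarith
  have hx : ∀ k : ℤ, f (a + k) b = f a b := by
    intro k
    induction k using Int.induction_on with
    | zero => simp
    | succ k ih =>
      have := (hstep _ _ ih).1
      rwa [show (a : ℤ) + k + 1 = a + (k + 1) by ring] at this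
    | pred k ih =>
      have := (hstep _ _ ih).2.1
      rwa [show (a : ℤ) + -k - 1 = a + (-k - 1) by ring] at this
  have hxy : ∀ k l : ℤ, f (a + k) (b + l) = f a b := by
    intro k l
    induction l using Int.induction_on with
    | zero => simpa using hx k
    | succ l ih =>
      have := (hstep _ _ ih).2.2.1
      rwa [show (b : ℤ) + l + 1 = b + (l + 1) by ring] at this
    | pred l ih =>
      have := (hstep _ _ ih).2.2.2
      rwa [show (b : ℤ) + -l - 1 = b + (-l - 1) by ring] at this
  have g1 := hxy (x - a) (y - b)
  have g2 := hxy (0 - a) (0 - b)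
  rw [add_sub_cancel, add_sub_cancel] at g1 g2
  rw [g1, g2]

end SND
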