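import Pool.Agent.SND.Defs
import Pool.Agent.SND.I2c
import Pool.Agent.SND.I2d
import Pool.Agent.SND.I3a

open Finset

namespace SND

theorem I3c_yr_lt {M : ℕ} (hM : 1 ≤ M) (y : ℤ) : yr M y < M := by
  unfold yr
  have h1 : (0 : ℤ) < M := by exact_mod_cast hM
  have h2 := Int.emod_lt_of_pos y h1
  have h3 := Int.emod_nonneg y h1.ne'
  omega

theorem I3c_yr_succ {M : ℕ} (hM : 1 ≤ M) (y : ℤ) :
    (yr M y + 1 < M ∧ yr M (y + 1) = yr M y + 1) ∨ (yr M y + 1 = M ∧ yr M (y + 1) = 0) := by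
  have h1 : (0 : ℤ) < M := by exact_mod_cast hM
  have h2 := Int.emod_lt_of_pos y h1
  have h3 := Int.emod_nonneg y h1.ne'
  have h4 : y + 1 = (y % M + 1) + M * (y / M) := by
    have := Int.emod_add_mul_ediv y M
    linarith
  have h5 : (y + 1) % M = (y % M + 1) % M := by
    conv_lhs => rw [h4]
    rw [Int.add_mul_emod_self_left]
  unfold yr
  rcases lt_or_ge (y % M + 1) (M : ℤ) with h | h
  · left
    rw [h5, Int.emod_eq_of_lt (by omega) h]
    omega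
  · right
    have h6 : y % M + 1 = M := by omega
    rw [h5, h6, Int.emod_self]
    omega

theorem I3c_nd_le {M : ℕ} (hM : 1 ≤ M) (y : ℤ) : nd M y + 1 ≤ M := by
  have h1 := I3c_yr_lt hM y
  unfold nd
  omega

theorem I3c_nd_zero {M : ℕ} {y : ℤ} (h : (M : ℤ) ∣ y) : nd M y = 0 := by
  have h1 : y % M = 0 := Int.emod_eq_zero_of_dvd h
  unfold nd yr
  rw [h1]
  simp

/-- the quadratic term -/
noncomputable def I3c_zt (M : ℕ) (y : ℤ) : ℝ := (yr M y : ℝ) * (M - yr M y) / (2 * M)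

theorem I3c_zt_diff {M : ℕ} (hM : 1 ≤ M) (y : ℤ) :
    |I3c_zt M (y + 1) - I3c_zt M y| ≤ 1 / 2 := by
  have hM0 : (0 : ℝ) < M := by exact_mod_cast hM
  have hM1 : (1 : ℝ) ≤ M := by exact_mod_cast hM
  have ha : (0 : ℝ) ≤ yr M y := Nat.cast_nonneg _
  unfold I3c_zt
  rcases I3c_yr_succ hM y with ⟨h1, h2⟩ | ⟨h1, h2⟩
  · rw [h2]
    have h3 : ((yr M y : ℝ) + 1) < M := by exact_mod_cast h1
    push_cast
    have h4 : ((yr M y : ℝ) + 1) * (M - (yr M y + 1)) / (2 * M) - yr M y * (M - yr M y) / (2 * M)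
        = (M - 2 * yr M y - 1) / (2 * M) := by
      field_simp
      ring
    rw [h4, abs_le]
    constructor
    · rw [le_div_iff₀ (by positivity)]
      linarith
    · rw [div_le_iff₀ (by positivity)]
      linarith
  · rw [h2]
    have h3 : ((yr M y : ℝ) + 1) = M := by exact_mod_cast h1
    have h4 : (yr M y : ℝ) = M - 1 := by linarith
    rw [h4]
    have h5 : ((0 : ℕ) : ℝ) * (M - ((0 : ℕ) : ℝ)) / (2 * M) -
        ((M : ℝ) - 1) * (M - ((M : ℝ) - 1)) / (2 * M) = -(((M : ℝ) - 1) / (2 * M)) := by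
      push_cast
      field_simp
      ring
    rw [h5, abs_neg, abs_of_nonneg (by apply div_nonneg <;> linarith),
      div_le_iff₀ (by positivity)]
    linarith

/-- the cosine -/
noncomputable def I3c_c (M k : ℕ) (x : ℤ) : ℝ := Real.cos (2 * Real.pi * k * x / M)

theorem I3c_AA (M : ℕ) (x y : ℤ) : AA M x y =
    (∑ k ∈ Ico 1 M, (gk M k 0 - I3c_c M k x * gk M k y) + I3c_zt M y) / M := rfl

theorem I3c_c_le (M k : ℕ) (x : ℤ) : |I3c_c M k x| ≤ 1 := Real.abs_cos_le_one _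

theorem I3c_c_diff (M k : ℕ) (x : ℤ) : |I3c_c M k (x + 1) - I3c_c M k x| ≤ 2 * |tk M k| := by
  unfold I3c_c
  rw [Real.cos_sub_cos]
  have h1 : (2 * Real.pi * k * ((x + 1 : ℤ) : ℝ) / M - 2 * Real.pi * k * x / M) / 2 =
      Real.pi * k / M := by
    push_cast
    ring
  rw [h1, abs_mul, abs_mul]
  have h2 := Real.abs_sin_le_one ((2 * Real.pi * k * ((x + 1 : ℤ) : ℝ) / M +
    2 * Real.pi * k * x / M) / 2)
  have h3 : |(-2 : ℝ)| = 2 := by norm_num
  rw [h3]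
  show _ ≤ 2 * |Real.sin (Real.pi * k / M)|
  have h4 := abs_nonneg (Real.sin (Real.pi * k / M))
  nlinarith

theorem I3c_c_diff2 (M k : ℕ) (x : ℤ) :
    I3c_c M k (x + 1) - 2 * I3c_c M k x + I3c_c M k (x - 1) = -4 * tk M k ^ 2 * I3c_c M k x := by
  unfold I3c_c tk
  have h1 : 2 * Real.pi * k * ((x + 1 : ℤ) : ℝ) / M =
      2 * Real.pi * k * x / M + 2 * (Real.pi * k / M) := by
    push_cast
    ring
  have h2 : 2 * Real.pi * k * ((x - 1 : ℤ) : ℝ) / M =
      2 * Real.pi * k * x / M - 2 * (Real.pi * k / M) := by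
    push_cast
    ring
  rw [h1, h2, Real.cos_add, Real.cos_sub, Real.cos_two_mul]
  have h3 := Real.sin_sq_add_cos_sq (Real.pi * k / M)
  have h4 : Real.cos (Real.pi * k / M) ^ 2 = 1 - Real.sin (Real.pi * k / M) ^ 2 := by linarith
  rw [h4]
  ring

theorem I3c_sum {M : ℕ} (f g : ℕ → ℝ) (C : ℝ) (h : ∀ k, 1 ≤ k → k < M → |f k| ≤ C * g k) :
    |∑ k ∈ Ico 1 M, f k| ≤ C * ∑ k ∈ Ico 1 M, g k := by
  rw [Finset.mul_sum]
  refine (Finset.abs_sum_le_sum_abs _ _).trans (Finset.sum_le_sum fun k hk => ?_)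
  rw [Finset.mem_Ico] at hk
  exact h k hk.1 hk.2

/-- ROW SND-I3c. First and second differences in terms of the second coordinate.

Proof. `|cos (p (x+1)) - cos (p x)| ≤ 2 |sin (p/2)| = 2 t`, `gk ≤ r^nd / t`: the first sum is
`≤ (1/M) ∑ 2 r^nd ≤ 4/(1 + nd)` (`sum_rk`). Second: `(1/M) (∑ 2 r^nd + 1/2) ≤ 4/(1+nd) + 1/(2M)
≤ 5/(1 + nd)` (`|z(y+1) - z(y)| = |M - 1 - 2a|/(2M) ≤ 1/2`, also when `a = M - 1`; `1 + nd ≤ M`).
Third: `|cos (p (x+1)) - 2 cos (p x) + cos (p (x-1))| = |2 cos (px) (cos p - 1)| ≤ 4 t²`, times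
`r^nd/t`: `(1/M) ∑ 4 t r^nd ≤ 32/(1+nd)²`. Fourth: `(1/M) ∑ 2 t * 2 r^nd ≤ 32/(1+nd)²` (the `z`-term
cancels). Fifth: by the Laplace equation it is
`[M ∣ x, M ∣ y] - 1/M² - (third)`, `1/M ≤ 1/(1+nd)`, and the indicator vanishes unless `nd = 0`. -/
theorem AA_diff (M : ℕ) (hM : 2 ≤ M) (x y : ℤ) :
    |AA M (x + 1) y - AA M x y| ≤ 5 / (1 + nd M y) ∧
    |AA M x (y + 1) - AA M x y| ≤ 5 / (1 + nd M y) ∧
    |AA M (x + 1) y - 2 * AA M x y + AA M (x - 1) y| ≤ 34 / (1 + nd M y) ^ 2 ∧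
    |AA M (x + 1) (y + 1) - AA M (x + 1) y - AA M x (y + 1) + AA M x y| ≤
      34 / (1 + nd M y) ^ 2 ∧
    |AA M x (y + 1) - 2 * AA M x y + AA M x (y - 1)| ≤ 34 / (1 + nd M y) ^ 2 := by
  have hM1 : 1 ≤ M := by omega
  have hM0 : (0 : ℝ) < M := by exact_mod_cast hM1
  have hnd : ((nd M y : ℝ) + 1) ≤ M := by exact_mod_cast I3c_nd_le hM1 y
  have hn0 : (0 : ℝ) ≤ nd M y := Nat.cast_nonneg _
  have hn1 : (0 : ℝ) < 1 + nd M y := by linarith
  obtain ⟨hS1, hS2⟩ := sum_rk M hM (nd M y)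
  -- bounds for the products
  have hg : ∀ k, 1 ≤ k → k < M → |gk M k y| ≤ rk M k ^ (nd M y) / tk M k := by
    intro k h1 h2
    rw [abs_of_nonneg (gk_bounds M k h1 h2 y).1]
    exact (gk_bounds M k h1 h2 y).2.1
  have h3 : |AA M (x + 1) y - 2 * AA M x y + AA M (x - 1) y| ≤ 32 / (1 + nd M y) ^ 2 := by
    have e : AA M (x + 1) y - 2 * AA M x y + AA M (x - 1) y =
        (∑ k ∈ Ico 1 M, 4 * tk M k ^ 2 * I3c_c M k x * gk M k y) / M := by
      rw [I3c_AA, I3c_AA, I3c_AA]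
      have e1 : ∑ k ∈ Ico 1 M, 4 * tk M k ^ 2 * I3c_c M k x * gk M k y =
          ∑ k ∈ Ico 1 M, (gk M k 0 - I3c_c M k (x + 1) * gk M k y) -
          2 * ∑ k ∈ Ico 1 M, (gk M k 0 - I3c_c M k x * gk M k y) +
          ∑ k ∈ Ico 1 M, (gk M k 0 - I3c_c M k (x - 1) * gk M k y) := by
        rw [Finset.mul_sum, ← Finset.sum_sub_distrib, ← Finset.sum_add_distrib]
        refine Finset.sum_congr rfl fun k _ => ?_
        have h := I3c_c_diff2 M k x
        linear_combination (gk M k y) * h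
      rw [e1]
      ring
    rw [e, abs_div, abs_of_pos hM0, div_le_div_iff₀ hM0 (by positivity)]
    have hb : |∑ k ∈ Ico 1 M, 4 * tk M k ^ 2 * I3c_c M k x * gk M k y| ≤
        4 * ∑ k ∈ Ico 1 M, tk M k * rk M k ^ (nd M y) := by
      apply I3c_sum
      intro k h1 h2
      obtain ⟨ht, -, hr, -⟩ := rk_facts M k h1 h2
      have hc := I3c_c_le M k x
      rw [abs_mul, abs_mul, abs_of_nonneg (by positivity : (0 : ℝ) ≤ 4 * tk M k ^ 2)]
      calc 4 * tk M k ^ 2 * |I3c_c M k x| * |gk M k y|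
          ≤ 4 * tk M k ^ 2 * 1 * (rk M k ^ (nd M y) / tk M k) := by
            apply mul_le_mul _ (hg k h1 h2) (abs_nonneg _) (by positivity)
            exact mul_le_mul_of_nonneg_left hc (by positivity)
        _ = 4 * (tk M k * rk M k ^ (nd M y)) := by
            field_simp
    have hS2' : (∑ k ∈ Ico 1 M, tk M k * rk M k ^ (nd M y)) * (1 + nd M y) ^ 2 ≤ 8 * M := by
      rwa [le_div_iff₀ (by positivity)] at hS2
    have hp : (0 : ℝ) < (1 + nd M y : ℝ) ^ 2 := by positivity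
    nlinarith
  refine ⟨?_, ?_, h3.trans ?_, ?_, ?_⟩
  · have e : AA M (x + 1) y - AA M x y =
        (∑ k ∈ Ico 1 M, (I3c_c M k x - I3c_c M k (x + 1)) * gk M k y) / M := by
      rw [I3c_AA, I3c_AA]
      have e1 : ∑ k ∈ Ico 1 M, (I3c_c M k x - I3c_c M k (x + 1)) * gk M k y =
          ∑ k ∈ Ico 1 M, (gk M k 0 - I3c_c M k (x + 1) * gk M k y) -
          ∑ k ∈ Ico 1 M, (gk M k 0 - I3c_c M k x * gk M k y) := by
        rw [← Finset.sum_sub_distrib]
        refine Finset.sum_congr rfl fun k _ => ?_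
        ring
      rw [e1]
      ring
    rw [e, abs_div, abs_of_pos hM0, div_le_div_iff₀ hM0 hn1]
    have hb : |∑ k ∈ Ico 1 M, (I3c_c M k x - I3c_c M k (x + 1)) * gk M k y| ≤
        2 * ∑ k ∈ Ico 1 M, rk M k ^ (nd M y) := by
      apply I3c_sum
      intro k h1 h2
      obtain ⟨ht, -, hr, -⟩ := rk_facts M k h1 h2
      have hc := I3c_c_diff M k x
      rw [abs_sub_comm, abs_of_pos ht] at hc
      rw [abs_mul]
      calc |I3c_c M k x - I3c_c M k (x + 1)| * |gk M k y|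
          ≤ 2 * tk M k * (rk M k ^ (nd M y) / tk M k) :=
            mul_le_mul hc (hg k h1 h2) (abs_nonneg _) (by positivity)
        _ = 2 * (rk M k ^ (nd M y)) := by
            field_simp
    have hS1' : (∑ k ∈ Ico 1 M, rk M k ^ (nd M y)) * (1 + nd M y) ≤ 2 * M := by
      rwa [le_div_iff₀ hn1] at hS1
    nlinarith
  · have e : AA M x (y + 1) - AA M x y =
        (∑ k ∈ Ico 1 M, -(I3c_c M k x) * (gk M k (y + 1) - gk M k y) +
          (I3c_zt M (y + 1) - I3c_zt M y)) / M := by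
      rw [I3c_AA, I3c_AA]
      have e1 : ∑ k ∈ Ico 1 M, -(I3c_c M k x) * (gk M k (y + 1) - gk M k y) =
          ∑ k ∈ Ico 1 M, (gk M k 0 - I3c_c M k x * gk M k (y + 1)) -
          ∑ k ∈ Ico 1 M, (gk M k 0 - I3c_c M k x * gk M k y) := by
        rw [← Finset.sum_sub_distrib]
        refine Finset.sum_congr rfl fun k _ => ?_
        ring
      rw [e1]
      ring
    rw [e, abs_div, abs_of_pos hM0, div_le_div_iff₀ hM0 hn1]
    have hb : |∑ k ∈ Ico 1 M, -(I3c_c M k x) * (gk M k (y + 1) - gk M k y)| ≤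
        2 * ∑ k ∈ Ico 1 M, rk M k ^ (nd M y) := by
      apply I3c_sum
      intro k h1 h2
      have hc := I3c_c_le M k x
      have hd := (gk_bounds M k h1 h2 y).2.2
      rw [abs_mul, abs_neg]
      calc |I3c_c M k x| * |gk M k (y + 1) - gk M k y|
          ≤ 1 * (2 * rk M k ^ (nd M y)) :=
            mul_le_mul hc hd (abs_nonneg _) zero_le_one
        _ = 2 * (rk M k ^ (nd M y)) := one_mul _
    have hz := I3c_zt_diff hM1 y
    have hadd := abs_add_le (∑ k ∈ Ico 1 M, -(I3c_c M k x) * (gk M k (y + 1) - gk M k y))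
      (I3c_zt M (y + 1) - I3c_zt M y)
    have hS1' : (∑ k ∈ Ico 1 M, rk M k ^ (nd M y)) * (1 + nd M y) ≤ 2 * M := by
      rwa [le_div_iff₀ hn1] at hS1
    have h6 : |∑ k ∈ Ico 1 M, -(I3c_c M k x) * (gk M k (y + 1) - gk M k y) +
        (I3c_zt M (y + 1) - I3c_zt M y)| ≤ 2 * ∑ k ∈ Ico 1 M, rk M k ^ (nd M y) + 1 / 2 := by
      linarith
    calc _ ≤ (2 * ∑ k ∈ Ico 1 M, rk M k ^ (nd M y) + 1 / 2) * (1 + nd M y) :=
          mul_le_mul_of_nonneg_right h6 hn1.le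
      _ = 2 * ((∑ k ∈ Ico 1 M, rk M k ^ (nd M y)) * (1 + nd M y)) + (1 + nd M y) / 2 := by ring
      _ ≤ 5 * M := by linarith
  · apply div_le_div_of_nonneg_right (by norm_num) (by positivity)
  · have e : AA M (x + 1) (y + 1) - AA M (x + 1) y - AA M x (y + 1) + AA M x y =
        (∑ k ∈ Ico 1 M, (I3c_c M k x - I3c_c M k (x + 1)) * (gk M k (y + 1) - gk M k y)) / M := by
      rw [I3c_AA, I3c_AA, I3c_AA, I3c_AA]
      have e1 : ∑ k ∈ Ico 1 M, (I3c_c M k x - I3c_c M k (x + 1)) * (gk M k (y + 1) - gk M k y) =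
          ∑ k ∈ Ico 1 M, (gk M k 0 - I3c_c M k (x + 1) * gk M k (y + 1)) -
          ∑ k ∈ Ico 1 M, (gk M k 0 - I3c_c M k (x + 1) * gk M k y) -
          ∑ k ∈ Ico 1 M, (gk M k 0 - I3c_c M k x * gk M k (y + 1)) +
          ∑ k ∈ Ico 1 M, (gk M k 0 - I3c_c M k x * gk M k y) := by
        rw [← Finset.sum_sub_distrib, ← Finset.sum_sub_distrib, ← Finset.sum_add_distrib]
        refine Finset.sum_congr rfl fun k _ => ?_
        ring
      rw [e1]
      ring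
    rw [e, abs_div, abs_of_pos hM0, div_le_div_iff₀ hM0 (by positivity)]
    have hb : |∑ k ∈ Ico 1 M, (I3c_c M k x - I3c_c M k (x + 1)) * (gk M k (y + 1) - gk M k y)| ≤
        4 * ∑ k ∈ Ico 1 M, tk M k * rk M k ^ (nd M y) := by
      apply I3c_sum
      intro k h1 h2
      obtain ⟨ht, -, hr, -⟩ := rk_facts M k h1 h2
      have hc := I3c_c_diff M k x
      rw [abs_sub_comm, abs_of_pos ht] at hc
      have hd := (gk_bounds M k h1 h2 y).2.2
      rw [abs_mul]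
      calc |I3c_c M k x - I3c_c M k (x + 1)| * |gk M k (y + 1) - gk M k y|
          ≤ 2 * tk M k * (2 * rk M k ^ (nd M y)) :=
            mul_le_mul hc hd (abs_nonneg _) (by positivity)
        _ = 4 * (tk M k * rk M k ^ (nd M y)) := by ring
    have hS2' : (∑ k ∈ Ico 1 M, tk M k * rk M k ^ (nd M y)) * (1 + nd M y) ^ 2 ≤ 8 * M := by
      rwa [le_div_iff₀ (by positivity)] at hS2
    have hp : (0 : ℝ) < (1 + nd M y : ℝ) ^ 2 := by positivity
    nlinarith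
  · obtain ⟨-, -, -, -, -, hL⟩ := AA_eq M hM
    have hL' := hL x y
    have e : AA M x (y + 1) - 2 * AA M x y + AA M x (y - 1) =
        -(AA M (x + 1) y - 2 * AA M x y + AA M (x - 1) y) +
        ((if (M : ℤ) ∣ x ∧ (M : ℤ) ∣ y then 1 else 0) - 1 / (M : ℝ) ^ 2) := by
      linarith
    have hq : |(if (M : ℤ) ∣ x ∧ (M : ℤ) ∣ y then (1 : ℝ) else 0) - 1 / (M : ℝ) ^ 2| ≤
        2 / (1 + (nd M y : ℝ)) ^ 2 := by
      have hq1 : (0 : ℝ) < 1 / (M : ℝ) ^ 2 := by positivity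
      have hM1' : (1 : ℝ) ≤ M := by exact_mod_cast hM1
      split_ifs with hdv
      · rw [I3c_nd_zero hdv.2]
        have hq2 : 1 / (M : ℝ) ^ 2 ≤ 1 := by
          rw [div_le_one (by positivity)]
          nlinarith
        rw [abs_of_nonneg (by linarith)]
        have hq3 : (2 : ℝ) / (1 + ((0 : ℕ) : ℝ)) ^ 2 = 2 := by norm_num
        rw [hq3]
        linarith
      · rw [zero_sub, abs_neg, abs_of_pos hq1, div_le_div_iff₀ (by positivity) (by positivity)]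
        nlinarith
    rw [e]
    refine (abs_add_le _ _).trans ?_
    rw [abs_neg]
    have : (34 : ℝ) / (1 + (nd M y : ℝ)) ^ 2 =
        32 / (1 + (nd M y : ℝ)) ^ 2 + 2 / (1 + (nd M y : ℝ)) ^ 2 := by ring
    rw [this]
    exact add_le_add h3 hq

end SND
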