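import Pool.Agent.SND.Defs
import Pool.Agent.SND.I3a
import Pool.Agent.SND.I3b

open Finset

namespace SND

/-- ROW SND-I4a. Symmetry of the potential kernel.

Proof. `f x y = AA M x y - AA M y x` is periodic, vanishes at `(0,0)` and is harmonic by `AA_eq` (the
right side of the equation is symmetric); apply `harmonic_const`. -/
theorem AA_swap (M : ℕ) (hM : 2 ≤ M) (x y : ℤ) : AA M x y = AA M y x := by
  obtain ⟨q0, q1, q2, -, -, q5⟩ := AA_eq M hM
  have h := harmonic_const M (by omega) (fun x y => AA M x y - AA M y x)
    (fun x y => by rw [q1, q2]) (fun x y => by rw [q1, q2]) (by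
      intro x y
      have e1 := q5 x y
      have e2 := q5 y x
      have e3 : (if (M : ℤ) ∣ x ∧ (M : ℤ) ∣ y then (1 : ℝ) else 0) =
          if (M : ℤ) ∣ y ∧ (M : ℤ) ∣ x then 1 else 0 := by
        simp only [and_comm]
      rw [e3] at e1
      linarith) x y
  simp only [sub_self] at h
  linarith

end SND
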