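import Pool.Agent.SND.Defs
import Pool.Agent.SND.I3c
import Pool.Agent.SND.I4a

open Finset

namespace SND

theorem I4b_nd_succ {M : ℕ} (hM : 2 ≤ M) (y : ℤ) :
    nd M (y + 1) ≤ nd M y + 1 ∧ nd M y ≤ nd M (y + 1) + 1 := by
  have hc : ∀ z : ℤ, ((yr M z : ℕ) : ℤ) = z % (M : ℤ) := fun z =>
    Int.toNat_of_nonneg (Int.emod_nonneg z (by omega))
  have hl : ∀ z : ℤ, yr M z < M := by
    intro z
    have h1 := Int.emod_lt_of_pos z (by omega : (0 : ℤ) < M)
    have h2 := hc z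
    omega
  have h1 := hc y
  have h2 := hc (y + 1)
  have h3 := hl y
  have h4 : (y + 1) % (M : ℤ) = (y % (M : ℤ) + 1) % (M : ℤ) := by
    rw [Int.emod_add_emod]
  have h5 : (yr M (y + 1) = yr M y + 1) ∨ (yr M y + 1 = M ∧ yr M (y + 1) = 0) := by
    rcases Nat.lt_or_ge (yr M y + 1) M with h | h
    · left
      have h6 : (y % (M : ℤ) + 1) % (M : ℤ) = y % (M : ℤ) + 1 :=
        Int.emod_eq_of_lt (by omega) (by omega)
      omega
    · right
      have h8 : y % (M : ℤ) + 1 = M := by omega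
      rw [h8, Int.emod_self] at h4
      omega
  have h9 := hl (y + 1)
  unfold nd
  rcases h5 with h | h
  · rw [h] at h9 ⊢
    omega
  · rw [h.2]
    omega

theorem I4b_nd_near {M : ℕ} (hM : 2 ≤ M) {x x' : ℤ} (h : |x' - x| ≤ 1) :
    nd M x ≤ nd M x' + 1 := by
  rw [abs_le] at h
  have : x' = x ∨ x' = x + 1 ∨ x = x' + 1 := by omega
  rcases this with rfl | rfl | rfl
  · omega
  · exact (I4b_nd_succ hM x).2
  · exact (I4b_nd_succ hM x').1

theorem I4b_nn_near {M : ℕ} (hM : 2 ≤ M) {x x' y y' : ℤ} (h : |x' - x| ≤ 1) (h' : |y' - y| ≤ 1) :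
    nn M x y ≤ nn M x' y' + 1 := by
  have h1 := I4b_nd_near hM h
  have h2 := I4b_nd_near hM h'
  unfold nn
  omega

/-- the standard bounds with `nn` -/
theorem I4b_std {M : ℕ} (hM : 2 ≤ M) (x y : ℤ) :
    |AA M (x + 1) y - AA M x y| ≤ 5 / (1 + nn M x y) ∧
    |AA M x (y + 1) - AA M x y| ≤ 5 / (1 + nn M x y) ∧
    |AA M (x + 1) y - 2 * AA M x y + AA M (x - 1) y| ≤ 34 / (1 + nn M x y) ^ 2 ∧
    |AA M (x + 1) (y + 1) - AA M (x + 1) y - AA M x (y + 1) + AA M x y| ≤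
      34 / (1 + nn M x y) ^ 2 ∧
    |AA M x (y + 1) - 2 * AA M x y + AA M x (y - 1)| ≤ 34 / (1 + nn M x y) ^ 2 := by
  rcases le_total (nd M x) (nd M y) with h | h
  · have h1 : nn M x y = nd M y := by unfold nn; exact max_eq_right h
    rw [h1]
    exact AA_diff M hM x y
  · have h1 : nn M x y = nd M x := by unfold nn; exact max_eq_left h
    rw [h1]
    obtain ⟨g1, g2, g3, g4, g5⟩ := AA_diff M hM y x
    have s := fun u v => AA_swap M hM u v
    refine ⟨?_, ?_, ?_, ?_, ?_⟩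
    · rw [s (x + 1) y, s x y]; exact g2
    · rw [s x (y + 1), s x y]; exact g1
    · rw [s (x + 1) y, s x y, s (x - 1) y]; exact g5
    · rw [s (x + 1) (y + 1), s (x + 1) y, s x (y + 1), s x y]
      have e : AA M (y + 1) (x + 1) - AA M y (x + 1) - AA M (y + 1) x + AA M y x =
        AA M (y + 1) (x + 1) - AA M (y + 1) x - AA M y (x + 1) + AA M y x := by ring
      rw [e]; exact g4
    · rw [s x (y + 1), s x y, s x (y - 1)]; exact g3

theorem I4b_cmp {M : ℕ} (hM : 2 ≤ M) {x x' y y' : ℤ} (h : |x' - x| ≤ 1) (h' : |y' - y| ≤ 1) :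
    (34 : ℝ) / (1 + nn M x' y') ^ 2 ≤ 136 / (1 + nn M x y) ^ 2 := by
  have h1 : (nn M x y : ℝ) ≤ nn M x' y' + 1 := by exact_mod_cast I4b_nn_near hM h h'
  have h2 : (0 : ℝ) ≤ nn M x y := Nat.cast_nonneg _
  have h3 : (0 : ℝ) ≤ nn M x' y' := Nat.cast_nonneg _
  rw [div_le_div_iff₀ (by positivity) (by positivity)]
  nlinarith [mul_self_nonneg (1 + (nn M x y : ℝ)), mul_self_nonneg (1 + (nn M x' y' : ℝ))]

theorem I4b_xx {M : ℕ} (hM : 2 ≤ M) (x y p q r y' : ℤ) (hq : |q - x| ≤ 1) (hy : |y' - y| ≤ 1)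
    (hp : p = q + 1) (hr : r = q - 1) :
    |AA M p y' - 2 * AA M q y' + AA M r y'| ≤ 136 / (1 + nn M x y) ^ 2 := by
  subst hp hr
  exact (I4b_std hM q y').2.2.1.trans (I4b_cmp hM hq hy)

theorem I4b_yy {M : ℕ} (hM : 2 ≤ M) (x y p q r x' : ℤ) (hq : |q - y| ≤ 1) (hx : |x' - x| ≤ 1)
    (hp : p = q + 1) (hr : r = q - 1) :
    |AA M x' p - 2 * AA M x' q + AA M x' r| ≤ 136 / (1 + nn M x y) ^ 2 := by
  subst hp hr
  exact (I4b_std hM x' q).2.2.2.2.trans (I4b_cmp hM hx hq)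

theorem I4b_xy {M : ℕ} (hM : 2 ≤ M) (x y p q p' q' : ℤ) (hq : |q - x| ≤ 1) (hy : |q' - y| ≤ 1)
    (hp : p = q + 1) (hp' : p' = q' + 1) :
    |AA M p p' - AA M p q' - AA M q p' + AA M q q'| ≤ 136 / (1 + nn M x y) ^ 2 := by
  subst hp hp'
  exact (I4b_std hM q q').2.2.2.1.trans (I4b_cmp hM hq hy)

theorem I4b_abs {a b c : ℝ} (h : |a| ≤ c) (hab : b = a ∨ b = -a) : |b| ≤ c := by
  rcases hab with rfl | rfl
  · exact h
  · rwa [abs_neg]

/-- ROW SND-I4b. First and second differences.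

Proof. `AA_diff` gives the bounds with `nd M y`; by `AA_swap` the same bounds hold with `nd M x`
(the two first differences are exchanged, the mixed second difference is symmetric, the two pure
second differences are exchanged): so they hold with `nn M x y` (`5 / (1 + nn)` resp.
`34 / (1 + nn)^2`, as `nn` is one of the two). For the general second difference with
`a, b ∈ {(±1,0), (0,±1)}` at the base point `(x, y)`: it is (up to sign) one of the standard second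
differences of `AA_diff` at a point `(x', y')` with `|x'-x|, |y'-y| ≤ 1`
(e.g. `a = b = (1,0)`: `A(x) - 2 A(x+1) + A(x+2)` at `x' = x+1`; `a = (1,0)`, `b = (-1,0)`:
`2 A(x) - A(x+1) - A(x-1)`; `a = (1,0)`, `b = (0,-1)`: minus the mixed difference at `(x, y-1)`;
`a = (-1,0), b = (0,-1)`: the mixed one at `(x-1,y-1)`), and `1 + nn M x' y' ≥ (1 + nn M x y)/2` because
`nd M` is `1`-Lipschitz. -/
theorem AA_diff2 (M : ℕ) (hM : 2 ≤ M) (x y : ℤ) :
    |AA M (x + 1) y - AA M x y| ≤ 5 / (1 + nn M x y) ∧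
    |AA M x (y + 1) - AA M x y| ≤ 5 / (1 + nn M x y) ∧
    ∀ a b : ℤ × ℤ, (a = (1, 0) ∨ a = (-1, 0) ∨ a = (0, 1) ∨ a = (0, -1)) →
      (b = (1, 0) ∨ b = (-1, 0) ∨ b = (0, 1) ∨ b = (0, -1)) →
      |AA M x y - AA M (x + a.1) (y + a.2) - AA M (x + b.1) (y + b.2) +
        AA M (x + a.1 + b.1) (y + a.2 + b.2)| ≤ 136 / (1 + nn M x y) ^ 2 := by
  obtain ⟨g1, g2, -⟩ := I4b_std hM x y
  refine ⟨g1, g2, ?_⟩
  have a0 : ∀ z : ℤ, |z - z| ≤ 1 := fun z => by simp
  have a1 : ∀ z : ℤ, |z + 1 - z| ≤ 1 := fun z => by simp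
  have a2 : ∀ z : ℤ, |z + -1 - z| ≤ 1 := fun z => by simp
  have e1 : ∀ z : ℤ, z + 1 + -1 = z := fun z => by ring
  have e2 : ∀ z : ℤ, z + -1 + 1 = z := fun z => by ring
  rintro a b (rfl | rfl | rfl | rfl) (rfl | rfl | rfl | rfl) <;>
    simp only [add_zero, e1, e2]
  · exact I4b_abs (I4b_xx hM x y (x + 1 + 1) (x + 1) x y (a1 x) (a0 y) (by ring) (by ring))
      (Or.inl (by ring))
  · exact I4b_abs (I4b_xx hM x y (x + 1) x (x + -1) y (a0 x) (a0 y) (by ring) (by ring))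
      (Or.inr (by ring))
  · exact I4b_abs (I4b_xy hM x y (x + 1) x (y + 1) y (a0 x) (a0 y) (by ring) (by ring))
      (Or.inl (by ring))
  · exact I4b_abs (I4b_xy hM x y (x + 1) x y (y + -1) (a0 x) (a2 y) (by ring) (by ring))
      (Or.inr (by ring))
  · exact I4b_abs (I4b_xx hM x y (x + 1) x (x + -1) y (a0 x) (a0 y) (by ring) (by ring))
      (Or.inr (by ring))
  · exact I4b_abs (I4b_xx hM x y x (x + -1) (x + -1 + -1) y (a2 x) (a0 y) (by ring) (by ring))
      (Or.inl (by ring))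
  · exact I4b_abs (I4b_xy hM x y x (x + -1) (y + 1) y (a2 x) (a0 y) (by ring) (by ring))
      (Or.inr (by ring))
  · exact I4b_abs (I4b_xy hM x y x (x + -1) y (y + -1) (a2 x) (a2 y) (by ring) (by ring))
      (Or.inl (by ring))
  · exact I4b_abs (I4b_xy hM x y (x + 1) x (y + 1) y (a0 x) (a0 y) (by ring) (by ring))
      (Or.inl (by ring))
  · exact I4b_abs (I4b_xy hM x y x (x + -1) (y + 1) y (a2 x) (a0 y) (by ring) (by ring))
      (Or.inr (by ring))
  · exact I4b_abs (I4b_yy hM x y (y + 1 + 1) (y + 1) y x (a1 y) (a0 x) (by ring) (by ring))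
      (Or.inl (by ring))
  · exact I4b_abs (I4b_yy hM x y (y + 1) y (y + -1) x (a0 y) (a0 x) (by ring) (by ring))
      (Or.inr (by ring))
  · exact I4b_abs (I4b_xy hM x y (x + 1) x y (y + -1) (a0 x) (a2 y) (by ring) (by ring))
      (Or.inr (by ring))
  · exact I4b_abs (I4b_xy hM x y x (x + -1) y (y + -1) (a2 x) (a2 y) (by ring) (by ring))
      (Or.inl (by ring))
  · exact I4b_abs (I4b_yy hM x y (y + 1) y (y + -1) x (a0 y) (a0 x) (by ring) (by ring))
      (Or.inr (by ring))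
  · exact I4b_abs (I4b_yy hM x y y (y + -1) (y + -1 + -1) x (a2 y) (a0 x) (by ring) (by ring))
      (Or.inl (by ring))

end SND
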