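import Pool.Agent.SND.Defs
import Pool.Agent.SND.I3a
import Pool.Agent.SND.I4b
import Pool.Agent.SND.I2a

open Finset

namespace SND

theorem I4c_yr_cast {M : ℕ} (hM : 2 ≤ M) (y : ℤ) : ((yr M y : ℕ) : ℤ) = y % (M : ℤ) := by
  unfold yr
  exact Int.toNat_of_nonneg (Int.emod_nonneg y (by omega))

theorem I4c_yr_lt {M : ℕ} (hM : 2 ≤ M) (y : ℤ) : yr M y < M := by
  have h1 := Int.emod_lt_of_pos y (by omega : (0 : ℤ) < M)
  have h2 := I4c_yr_cast hM y
  omega

theorem I4c_nd_le {M : ℕ} (y : ℤ) : 2 * nd M y ≤ M ∨ M < yr M y := by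
  unfold nd
  omega

theorem I4c_two_nd {M : ℕ} (hM : 2 ≤ M) (y : ℤ) : 2 * nd M y ≤ M := by
  rcases I4c_nd_le (M := M) y with h | h
  · exact h
  · have := I4c_yr_lt hM y
    omega

theorem I4c_nd_succ {M : ℕ} (hM : 2 ≤ M) (y : ℤ) :
    nd M (y + 1) ≤ nd M y + 1 ∧ nd M y ≤ nd M (y + 1) + 1 := by
  have h1 := I4c_yr_cast hM y
  have h2 := I4c_yr_cast hM (y + 1)
  have h3 := I4c_yr_lt hM y
  have h4 : (y + 1) % (M : ℤ) = (y % (M : ℤ) + 1) % (M : ℤ) := by
    rw [Int.emod_add_emod]
  have h5 : (yr M (y + 1) = yr M y + 1) ∨ (yr M y + 1 = M ∧ yr M (y + 1) = 0) := by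
    rcases Nat.lt_or_ge (yr M y + 1) M with h | h
    · left
      have h6 : (y % (M : ℤ) + 1) % (M : ℤ) = y % (M : ℤ) + 1 :=
        Int.emod_eq_of_lt (by omega) (by omega)
      omega
    · right
      have h7 : yr M y + 1 = M := by omega
      have h8 : y % (M : ℤ) + 1 = M := by omega
      rw [h8, Int.emod_self] at h4
      omega
  unfold nd
  rcases h5 with h | h
  · rw [h]
    have := I4c_yr_lt hM (y + 1)
    omega
  · rw [h.2]
    omega

theorem I4c_path (f : ℤ → ℝ) (c : ℝ) (x : ℤ) : ∀ n : ℕ,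
    (∀ i : ℤ, |i - x| ≤ n → |f (i + 1) - f i| ≤ c) →
      |f (x + n) - f x| ≤ n * c ∧ |f (x - n) - f x| ≤ n * c := by
  intro n
  induction n with
  | zero => intro _; simp
  | succ n ih =>
    intro h
    obtain ⟨h1, h2⟩ := ih fun i hi => h i (by push_cast; omega)
    constructor
    · have h3 := h (x + n) (by rw [add_sub_cancel_left]; push_cast; rw [abs_of_nonneg] <;> omega)
      have e : x + ((n + 1 : ℕ) : ℤ) = x + n + 1 := by push_cast; ring
      rw [e]
      have h4 := abs_add_le (f (x + n + 1) - f (x + n)) (f (x + n) - f x)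
      have e2 : f (x + n + 1) - f (x + n) + (f (x + n) - f x) = f (x + n + 1) - f x := by ring
      rw [e2] at h4
      push_cast
      linarith
    · have h3 := h (x - n - 1) (by
        have e : x - n - 1 - x = -((n : ℤ) + 1) := by ring
        rw [e, abs_neg, abs_of_nonneg (by omega)]
        push_cast; omega)
      have e : x - ((n + 1 : ℕ) : ℤ) = x - n - 1 := by push_cast; ring
      rw [e]
      have e1 : x - (n : ℤ) - 1 + 1 = x - n := by ring
      rw [e1] at h3
      have h4 := abs_add_le (-(f (x - n) - f (x - n - 1))) (f (x - n) - f x)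
      have e2 : -(f (x - n) - f (x - n - 1)) + (f (x - n) - f x) = f (x - n - 1) - f x := by ring
      rw [e2, abs_neg] at h4
      push_cast
      linarith

theorem I4c_path' (f : ℤ → ℝ) (c : ℝ) (x x' : ℤ)
    (h : ∀ i : ℤ, |i - x| ≤ |x' - x| → |f (i + 1) - f i| ≤ c) :
    |f x' - f x| ≤ |(x : ℝ) - x'| * c := by
  obtain ⟨n, hn⟩ : ∃ n : ℕ, |x' - x| = n := ⟨(|x' - x|).toNat, by
    rw [Int.toNat_of_nonneg (abs_nonneg _)]⟩
  have h1 := I4c_path f c x n fun i hi => h i (by rw [hn]; exact hi)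
  have h2 : |(x : ℝ) - x'| = n := by
    rw [abs_sub_comm]
    exact_mod_cast hn
  rw [h2]
  rcases abs_eq (Int.natCast_nonneg n) |>.1 hn with h3 | h3
  · have : x' = x + n := by omega
    rw [this]; exact h1.1
  · have : x' = x - n := by omega
    rw [this]; exact h1.2

theorem I4c_nd_lip {M : ℕ} (hM : 2 ≤ M) (x u : ℤ) : (nd M x : ℝ) ≤ nd M u + |(x : ℝ) - u| := by
  have h := I4c_path' (fun i => (nd M i : ℝ)) 1 x u (fun i _ => by
    obtain ⟨h1, h2⟩ := I4c_nd_succ hM i
    have h1' : (nd M (i + 1) : ℝ) ≤ nd M i + 1 := by exact_mod_cast h1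
    have h2' : (nd M i : ℝ) ≤ nd M (i + 1) + 1 := by exact_mod_cast h2
    rw [abs_le]
    constructor <;> linarith)
  rw [mul_one] at h
  have := (abs_le.1 h).1
  linarith

theorem I4c_red {M : ℕ} (hM : 2 ≤ M) (f : ℤ → ℝ) (hp : ∀ x, f (x + M) = f x)
    (he : ∀ x, f (-x) = f x) (x : ℤ) : f x = f (nd M x) := by
  have hper : Function.Periodic f (M : ℤ) := hp
  have h1 : f (yr M x : ℤ) = f x := by
    have h2 := hper.int_mul (x / (M : ℤ)) ((yr M x : ℕ) : ℤ)
    have h3 : ((yr M x : ℕ) : ℤ) + x / (M : ℤ) * (M : ℤ) = x := by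
      rw [I4c_yr_cast hM, mul_comm]
      exact Int.emod_add_mul_ediv x M
    simp only [Int.cast_id] at h2
    rw [h3] at h2
    exact h2.symm
  have h4 := I4c_yr_lt hM x
  unfold nd
  rcases le_total (yr M x) (M - yr M x) with h | h
  · rw [min_eq_left h, h1]
  · rw [min_eq_right h]
    have h5 : ((M - yr M x : ℕ) : ℤ) = -((yr M x : ℕ) : ℤ) + M := by
      push_cast [Nat.cast_sub h4.le]; ring
    rw [h5, hp, he, h1]

theorem I4c_nd_nat {M : ℕ} (hM : 2 ≤ M) {a : ℕ} (ha : 2 * a ≤ M) : nd M (a : ℤ) = a := by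
  have h1 := I4c_yr_cast hM (a : ℤ)
  rw [Int.emod_eq_of_lt (by omega) (by omega)] at h1
  have h2 : yr M (a : ℤ) = a := by exact_mod_cast h1
  unfold nd
  rw [h2]
  omega

theorem I4c_harm {M : ℕ} (_hM : 2 ≤ M) {a : ℕ} (ha : 2 * a ≤ M) :
    ((harmonic a : ℚ) : ℝ) ≤ 1 + Real.log M := by
  refine le_trans (harmonic_le_one_add_log a) ?_
  rcases Nat.eq_zero_or_pos a with h | h
  · subst h
    have : 0 ≤ Real.log M := Real.log_natCast_nonneg M
    simp only [Nat.cast_zero, Real.log_zero, add_zero]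
    linarith
  · have : Real.log a ≤ Real.log M :=
      Real.log_le_log (by exact_mod_cast h) (by exact_mod_cast (by omega : a ≤ M))
    linarith

theorem I4c_harm_succ (a : ℕ) : ((harmonic (a + 1) : ℚ) : ℝ) = (harmonic a : ℚ) + 1 / (1 + a) := by
  rw [harmonic_succ]
  push_cast
  rw [one_div, add_comm (1 : ℝ)]

theorem I4c_bound_nat {M : ℕ} (hM : 2 ≤ M) {a b : ℕ} (ha : 2 * a ≤ M) (hb : 2 * b ≤ M) :
    |AA M a b| ≤ 10 * (1 + Real.log M) := by
  have h1 : ∀ a : ℕ, 2 * a ≤ M → |AA M a 0| ≤ 5 * (harmonic a : ℚ) := by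
    intro a
    induction a with
    | zero =>
      intro _
      rw [Nat.cast_zero, (AA_eq M hM).1]
      simp
    | succ a ih =>
      intro ha
      have h2 := ih (by omega)
      have h3 := (AA_diff2 M hM (a : ℤ) 0).1
      have h4 : (5 : ℝ) / (1 + nn M (a : ℤ) 0) ≤ 5 * (1 / (1 + a)) := by
        rw [mul_one_div]
        apply div_le_div_of_nonneg_left (by norm_num) (by positivity)
        have : (a : ℝ) ≤ nn M (a : ℤ) 0 := by
          have h5 : a ≤ nn M (a : ℤ) 0 := by
            unfold nn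
            rw [I4c_nd_nat hM (by omega : 2 * a ≤ M)]
            exact le_max_left _ _
          exact_mod_cast h5
        linarith
      have h5 := abs_add_le (AA M ((a : ℤ) + 1) 0 - AA M a 0) (AA M a 0)
      rw [sub_add_cancel] at h5
      rw [I4c_harm_succ]
      push_cast at *
      linarith
  have h6 : ∀ b : ℕ, 2 * b ≤ M → |AA M a b - AA M a 0| ≤ 5 * (harmonic b : ℚ) := by
    intro b
    induction b with
    | zero =>
      intro _
      simp
    | succ b ih =>
      intro hb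
      have h2 := ih (by omega)
      have h3 := (AA_diff2 M hM (a : ℤ) b).2.1
      have h4 : (5 : ℝ) / (1 + nn M (a : ℤ) b) ≤ 5 * (1 / (1 + b)) := by
        rw [mul_one_div]
        apply div_le_div_of_nonneg_left (by norm_num) (by positivity)
        have : (b : ℝ) ≤ nn M (a : ℤ) b := by
          have h5 : b ≤ nn M (a : ℤ) b := by
            unfold nn
            rw [I4c_nd_nat hM (by omega : 2 * b ≤ M)]
            exact le_max_right _ _
          exact_mod_cast h5
        linarith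
      have h5 := abs_add_le (AA M a ((b : ℤ) + 1) - AA M a b) (AA M a b - AA M a 0)
      have e : AA M a ((b : ℤ) + 1) - AA M a b + (AA M a b - AA M a 0) =
        AA M a ((b : ℤ) + 1) - AA M a 0 := by ring
      rw [e] at h5
      rw [I4c_harm_succ]
      push_cast at *
      linarith
  have h7 := h1 a ha
  have h8 := h6 b hb
  have h9 := abs_add_le (AA M a b - AA M a 0) (AA M a 0)
  rw [sub_add_cancel] at h9
  have := I4c_harm hM ha
  have := I4c_harm hM hb
  linarith

theorem I4c_bound {M : ℕ} (hM : 2 ≤ M) (x y : ℤ) : |AA M x y| ≤ 10 * (1 + Real.log M) := by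
  obtain ⟨-, hpx, hpy, hex, hey, -⟩ := AA_eq M hM
  have h1 : AA M x y = AA M (nd M x) y := I4c_red hM (fun u => AA M u y) (fun u => hpx u y)
    (fun u => hex u y) x
  have h2 : AA M (nd M x) y = AA M (nd M x) (nd M y) :=
    I4c_red hM (fun u => AA M (nd M x) u) (fun u => hpy _ u) (fun u => hey _ u) y
  rw [h1, h2]
  exact I4c_bound_nat hM (I4c_two_nd hM x) (I4c_two_nd hM y)

/-- ROW SND-I4c. Logarithmic bound and Lipschitz bound.

Proof. (1) `AA M x y = AA M (nd M x) (nd M y)` by periodicity and evenness, and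
`0 ≤ nd ≤ M/2`. Along the path `(0,0) → (x,0) → (x,y)` (`x, y ≤ M/2` natural numbers, `nd M i = i` for
`i ≤ M/2`) the first differences are at most `5/(1+i)`, so
`|AA| ≤ 2 * 5 * ∑_{i < M} 1/(1+i) ≤ 10 (1 + log M)` (`harmonic_le_one_add_log`).
(2) Let `s = |x - x'| + |y - y'|`, `ν = nn M x y`. If `s = 0` trivial. If `2 s ≤ ν`: go from `(x,y)` to
`(x',y')` in `s` unit steps; all the points on the way are at `ℓ¹`-distance `≤ s` from `(x,y)`, so
their `nn` is at least `ν - s ≥ ν/2`, each step changes `AA` by at most `5/(1 + ν/2) ≤ 10/(1+ν)`.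
If `2 s > ν`, then `2 s ≥ 1 + ν` and by (1) the difference is at most
`20 (1 + log M) ≤ 40 (1 + log M) s/(1 + ν)`. -/
theorem AA_lip (M : ℕ) (hM : 2 ≤ M) :
    (∀ x y, |AA M x y| ≤ 10 * (1 + Real.log M)) ∧
    ∀ x y x' y' : ℤ, |AA M x y - AA M x' y'| ≤
      40 * (1 + Real.log M) * (|(x : ℝ) - x'| + |(y : ℝ) - y'|) / (1 + nn M x y) := by
  refine ⟨I4c_bound hM, ?_⟩
  intro x y x' y'
  have hlog : 0 ≤ Real.log M := Real.log_natCast_nonneg M
  set s : ℝ := |(x : ℝ) - x'| + |(y : ℝ) - y'| with hs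
  set ν : ℝ := (nn M x y : ℝ) with hν
  have hs0 : 0 ≤ s := by positivity
  have hν0 : 0 ≤ ν := Nat.cast_nonneg _
  have hpos : 0 < 1 + ν := by linarith
  -- `s` and `ν` are integers
  obtain ⟨si, hsi⟩ : ∃ si : ℤ, s = si := ⟨|x - x'| + |y - y'|, by rw [hs]; push_cast; ring⟩
  rcases le_or_gt (2 * si) (nn M x y : ℤ) with hcase | hcase
  · have hc : 2 * s ≤ ν := by rw [hsi, hν]; exact_mod_cast hcase
    have hnn : ∀ u v : ℤ, |(x : ℝ) - u| + |(y : ℝ) - v| ≤ s →
        (5 : ℝ) / (1 + nn M u v) ≤ 10 / (1 + ν) := by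
      intro u v huv
      have h1 : ν ≤ nn M u v + s := by
        have h2 := I4c_nd_lip hM x u
        have h3 := I4c_nd_lip hM y v
        have h4 : (nd M u : ℝ) ≤ nn M u v := by
          exact_mod_cast le_max_left _ _
        have h5 : (nd M v : ℝ) ≤ nn M u v := by
          exact_mod_cast le_max_right _ _
        have h6 : ν = max (nd M x : ℝ) (nd M y) := by
          rw [hν]; unfold nn; push_cast; rfl
        have h7 := abs_nonneg ((x : ℝ) - u)
        have h8 := abs_nonneg ((y : ℝ) - v)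
        rw [h6]
        apply max_le <;> linarith
      rw [div_le_div_iff₀ (by positivity) hpos]
      linarith
    have h1 : |AA M x' y - AA M x y| ≤ |(x : ℝ) - x'| * (10 / (1 + ν)) := by
      refine I4c_path' (fun i => AA M i y) _ x x' ?_
      intro i hi
      refine le_trans (AA_diff2 M hM i y).1 (hnn i y ?_)
      have : |(x : ℝ) - i| ≤ |(x : ℝ) - x'| := by
        rw [abs_sub_comm (x : ℝ), abs_sub_comm (x : ℝ)]
        exact_mod_cast hi
      rw [sub_self, abs_zero, hs]
      linarith [abs_nonneg ((y : ℝ) - y')]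
    have h2 : |AA M x' y' - AA M x' y| ≤ |(y : ℝ) - y'| * (10 / (1 + ν)) := by
      refine I4c_path' (fun i => AA M x' i) _ y y' ?_
      intro i hi
      refine le_trans (AA_diff2 M hM x' i).2.1 (hnn x' i ?_)
      have : |(y : ℝ) - i| ≤ |(y : ℝ) - y'| := by
        rw [abs_sub_comm (y : ℝ), abs_sub_comm (y : ℝ)]
        exact_mod_cast hi
      rw [hs]
      linarith
    have h3 := abs_add_le (AA M x' y - AA M x y) (AA M x' y' - AA M x' y)
    have e : AA M x' y - AA M x y + (AA M x' y' - AA M x' y) = AA M x' y' - AA M x y := by ring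
    rw [e] at h3
    rw [abs_sub_comm]
    have h4 : |AA M x' y' - AA M x y| ≤ s * (10 / (1 + ν)) := by
      rw [hs, add_mul]; linarith
    refine le_trans h4 ?_
    rw [mul_div_assoc', div_le_div_iff_of_pos_right hpos]
    nlinarith
  · have hc : 1 + ν ≤ 2 * s := by
      rw [hsi, hν]
      have : (nn M x y : ℤ) + 1 ≤ 2 * si := hcase
      have h' : ((nn M x y : ℤ) : ℝ) + 1 ≤ 2 * (si : ℝ) := by exact_mod_cast this
      push_cast at h'
      linarith
    have h1 := I4c_bound hM x y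
    have h2 := I4c_bound hM x' y'
    have h3 := abs_sub (AA M x y) (AA M x' y')
    rw [le_div_iff₀ hpos]
    have h4 : |AA M x y - AA M x' y'| ≤ 20 * (1 + Real.log M) := by
      linarith [abs_sub_le (AA M x y) 0 (AA M x' y'), abs_neg (AA M x' y'), sub_zero (AA M x y),
        zero_sub (AA M x' y')]
    nlinarith [mul_le_mul_of_nonneg_left hc (by positivity : (0 : ℝ) ≤ 20 * (1 + Real.log M)),
      mul_le_mul_of_nonneg_right h4 hpos.le]

end SND
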