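import Pool.Agent.SND.Defs
import Pool.Agent.SND.I3a

open Finset

namespace SND

theorem I5a_SA_symm (n : ℕ) (x y : ℤ × ℤ) :
    SA (2 * (n + 1)) x y = SA (2 * (n + 1)) y x := by
  obtain ⟨-, -, -, q3, q4, -⟩ := AA_eq (2 * (n + 1)) (by omega)
  have hr : ∀ (b : Bool) (u v : ℤ), u - rf b v = v - rf b u ∨ u - rf b v = -(v - rf b u) := by
    intro b u v
    cases b with
    | false => right; simp only [rf]; simp
    | true => left; simp only [rf, if_true]; ring
  unfold SA
  refine Finset.sum_congr rfl fun s _ => ?_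
  rcases hr s.1 x.1 y.1 with h | h <;> rcases hr s.2 x.2 y.2 with h' | h' <;> rw [h, h']
  · rw [q4]
  · rw [q3]
  · rw [q3, q4]

/-- ROW SND-I5a. Symmetry and pinning.

Proof. `SA M x y = SA M y x`: for each `s` the arguments `x - rf_s y` and `y - rf_s x` agree up to sign
in each coordinate (`x + 1 + y` for a reflected coordinate, `±(x - y)` otherwise), and `AA` is even in
each variable (`AA_eq`). `GG n (oo n) y = -SA 0 y + SA 0 0 + SA y 0 - SA 0 0 = 0`. -/
theorem GG_symm (n : ℕ) : (∀ x y, GG n x y = GG n y x) ∧ ∀ x, GG n (oo n) x = 0 := by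
  constructor
  · intro x y
    unfold GG
    rw [I5a_SA_symm n (cz x) (cz y)]
    ring
  · intro x
    have h : cz (oo n) = (0, 0) := by simp [cz, oo]
    unfold GG
    rw [h, I5a_SA_symm n (0, 0) (cz x)]
    ring

end SND
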