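import Pool.Agent.SND.Defs
import Pool.Agent.SND.I3a

open Finset

namespace SND

theorem I5b_sum1 (g : ℤ → ℝ) (n : ℕ) (k : Fin (n + 1)) (h1 : g (n + 1) = g n) :
    ∑ j : Fin n, (if j.castSucc = k then g (k : ℕ) - g (j.succ : ℕ) else 0) =
      g (k : ℕ) - g ((k : ℕ) + 1) := by
  induction k using Fin.lastCases with
  | last =>
    rw [Finset.sum_eq_zero]
    · simp [h1]
    · intro j _
      rw [if_neg (Fin.castSucc_lt_last j).ne]
  | cast j0 =>
    have : ∀ j : Fin n, (if j.castSucc = j0.castSucc then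
        g ((j0.castSucc : Fin (n + 1)) : ℕ) - g (j.succ : ℕ) else 0) =
        if j = j0 then g ((j0.castSucc : Fin (n + 1)) : ℕ) - g (j.succ : ℕ) else 0 := by
      intro j
      simp only [Fin.castSucc_inj]
    rw [Finset.sum_congr rfl fun j _ => this j, Finset.sum_ite_eq' univ j0]
    simp

theorem I5b_sum2 (g : ℤ → ℝ) (n : ℕ) (k : Fin (n + 1)) (h0 : g (-1) = g 0) :
    ∑ j : Fin n, (if j.succ = k then g (k : ℕ) - g (j.castSucc : ℕ) else 0) =
      g (k : ℕ) - g ((k : ℕ) - 1) := by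
  induction k using Fin.cases with
  | zero =>
    rw [Finset.sum_eq_zero]
    · simp [h0]
    · intro j _
      rw [if_neg (Fin.succ_ne_zero j)]
  | succ j0 =>
    have : ∀ j : Fin n, (if j.succ = j0.succ then
        g ((j0.succ : Fin (n + 1)) : ℕ) - g (j.castSucc : ℕ) else 0) =
        if j = j0 then g ((j0.succ : Fin (n + 1)) : ℕ) - g (j.castSucc : ℕ) else 0 := by
      intro j
      simp only [Fin.succ_inj]
    rw [Finset.sum_congr rfl fun j _ => this j, Finset.sum_ite_eq' univ j0]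
    simp

/-- sum over the edges at `x` for a function which extends symmetrically -/
theorem I5b_edges (n : ℕ) (x : HV n) (F : HV n → ℝ) (g : ℤ → ℤ → ℝ)
    (hF : ∀ z : HV n, F z = g (z.1 : ℕ) (z.2 : ℕ)) (a1 : ∀ b, g (n + 1) b = g n b)
    (a2 : ∀ b, g (-1) b = g 0 b) (b1 : ∀ a, g a (n + 1) = g a n) (b2 : ∀ a, g a (-1) = g a 0) :
    ∑ e : Edge n, ((if tl e = x then F x - F (hd e) else 0) +
      (if hd e = x then F x - F (tl e) else 0)) =
      4 * g (x.1 : ℕ) (x.2 : ℕ) - g ((x.1 : ℕ) + 1) (x.2 : ℕ) - g ((x.1 : ℕ) - 1) (x.2 : ℕ) -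
        g (x.1 : ℕ) ((x.2 : ℕ) + 1) - g (x.1 : ℕ) ((x.2 : ℕ) - 1) := by
  obtain ⟨u, v⟩ := x
  rw [Fintype.sum_sum_type, Finset.sum_add_distrib, Finset.sum_add_distrib,
    Fintype.sum_prod_type, Fintype.sum_prod_type, Fintype.sum_prod_type, Fintype.sum_prod_type]
  have e1 : ∑ i : Fin (n + 1), ∑ j : Fin n,
      (if tl (Sum.inl (i, j) : Edge n) = (u, v) then F (u, v) - F (hd (Sum.inl (i, j))) else 0) =
      g (u : ℕ) (v : ℕ) - g (u : ℕ) ((v : ℕ) + 1) := by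
    rw [Finset.sum_eq_single u]
    · have := I5b_sum1 (fun b => g (u : ℕ) b) n v (b1 _)
      rw [← this]
      refine Finset.sum_congr rfl fun j _ => ?_
      simp only [tl, hd, Prod.mk.injEq, true_and, hF]
    · intro i _ hi
      refine Finset.sum_eq_zero fun j _ => ?_
      rw [if_neg]
      simp only [tl, Prod.mk.injEq, not_and]
      exact fun h => absurd h hi
    · intro h; exact absurd (Finset.mem_univ _) h
  have e2 : ∑ i : Fin (n + 1), ∑ j : Fin n,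
      (if hd (Sum.inl (i, j) : Edge n) = (u, v) then F (u, v) - F (tl (Sum.inl (i, j))) else 0) =
      g (u : ℕ) (v : ℕ) - g (u : ℕ) ((v : ℕ) - 1) := by
    rw [Finset.sum_eq_single u]
    · have := I5b_sum2 (fun b => g (u : ℕ) b) n v (b2 _)
      rw [← this]
      refine Finset.sum_congr rfl fun j _ => ?_
      simp only [tl, hd, Prod.mk.injEq, true_and, hF]
    · intro i _ hi
      refine Finset.sum_eq_zero fun j _ => ?_
      rw [if_neg]
      simp only [hd, Prod.mk.injEq, not_and]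
      exact fun h => absurd h hi
    · intro h; exact absurd (Finset.mem_univ _) h
  have e3 : ∑ i : Fin n, ∑ j : Fin (n + 1),
      (if tl (Sum.inr (i, j) : Edge n) = (u, v) then F (u, v) - F (hd (Sum.inr (i, j))) else 0) =
      g (u : ℕ) (v : ℕ) - g ((u : ℕ) + 1) (v : ℕ) := by
    have := I5b_sum1 (fun a => g a (v : ℕ)) n u (a1 _)
    rw [← this]
    refine Finset.sum_congr rfl fun i _ => ?_
    rw [Finset.sum_eq_single v]
    · simp only [tl, hd, Prod.mk.injEq, and_true, hF]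
    · intro j _ hj
      rw [if_neg]
      simp only [tl, Prod.mk.injEq, not_and]
      exact fun _ => hj
    · intro h; exact absurd (Finset.mem_univ _) h
  have e4 : ∑ i : Fin n, ∑ j : Fin (n + 1),
      (if hd (Sum.inr (i, j) : Edge n) = (u, v) then F (u, v) - F (tl (Sum.inr (i, j))) else 0) =
      g (u : ℕ) (v : ℕ) - g ((u : ℕ) - 1) (v : ℕ) := by
    have := I5b_sum2 (fun a => g a (v : ℕ)) n u (a2 _)
    rw [← this]
    refine Finset.sum_congr rfl fun i _ => ?_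
    rw [Finset.sum_eq_single v]
    · simp only [tl, hd, Prod.mk.injEq, and_true, hF]
    · intro j _ hj
      rw [if_neg]
      simp only [hd, Prod.mk.injEq, not_and]
      exact fun _ => hj
    · intro h; exact absurd (Finset.mem_univ _) h
  rw [e1, e2, e3, e4]
  ring

theorem I5b_SA (M : ℕ) (x y : ℤ × ℤ) : SA M x y =
    AA M (x.1 - (-1 - y.1)) (x.2 - (-1 - y.2)) + AA M (x.1 - (-1 - y.1)) (x.2 - y.2) +
      (AA M (x.1 - y.1) (x.2 - (-1 - y.2)) + AA M (x.1 - y.1) (x.2 - y.2)) := by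
  rw [SA, Fintype.sum_prod_type]
  simp [rf]

theorem I5b_refl1 (M : ℕ) (hM : 2 ≤ M) (a b : ℤ) (y : ℤ × ℤ) :
    SA M (-1 - a, b) y = SA M (a, b) y := by
  obtain ⟨-, -, -, h, -, -⟩ := AA_eq M hM
  rw [I5b_SA, I5b_SA]
  simp only
  have e1 : -1 - a - (-1 - y.1) = -(a - y.1) := by ring
  have e2 : -1 - a - y.1 = -(a - (-1 - y.1)) := by ring
  rw [e1, e2, h, h, h, h]
  ring

theorem I5b_refl2 (M : ℕ) (hM : 2 ≤ M) (a b : ℤ) (y : ℤ × ℤ) :
    SA M (a, -1 - b) y = SA M (a, b) y := by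
  obtain ⟨-, -, -, -, h, -⟩ := AA_eq M hM
  rw [I5b_SA, I5b_SA]
  simp only
  have e1 : -1 - b - (-1 - y.2) = -(b - y.2) := by ring
  have e2 : -1 - b - y.2 = -(b - (-1 - y.2)) := by ring
  rw [e1, e2, h, h, h, h]
  ring

theorem I5b_per1 (M : ℕ) (hM : 2 ≤ M) (a b : ℤ) (y : ℤ × ℤ) :
    SA M (a + M, b) y = SA M (a, b) y := by
  obtain ⟨-, h, -, -, -, -⟩ := AA_eq M hM
  rw [I5b_SA, I5b_SA]
  simp only
  have e1 : a + M - (-1 - y.1) = (a - (-1 - y.1)) + M := by ring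
  have e2 : a + M - y.1 = (a - y.1) + M := by ring
  rw [e1, e2, h, h, h, h]

theorem I5b_per2 (M : ℕ) (hM : 2 ≤ M) (a b : ℤ) (y : ℤ × ℤ) :
    SA M (a, b + M) y = SA M (a, b) y := by
  obtain ⟨-, -, h, -, -, -⟩ := AA_eq M hM
  rw [I5b_SA, I5b_SA]
  simp only
  have e1 : b + M - (-1 - y.2) = (b - (-1 - y.2)) + M := by ring
  have e2 : b + M - y.2 = (b - y.2) + M := by ring
  rw [e1, e2, h, h, h, h]

theorem I5b_dvd1 (n : ℕ) (a b : ℤ) (ha : 0 ≤ a) (ha' : a ≤ n) (hb : 0 ≤ b) (hb' : b ≤ n) :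
    ¬ ((2 * (n + 1) : ℕ) : ℤ) ∣ a - (-1 - b) := by
  rintro ⟨c, hc⟩
  push_cast at hc
  have h1 : 0 < 2 * ((n : ℤ) + 1) * c := by rw [← hc]; omega
  have h2 : 0 < c := by
    by_contra h
    push Not at h
    have : 2 * ((n : ℤ) + 1) * c ≤ 0 := mul_nonpos_of_nonneg_of_nonpos (by positivity) h
    omega
  have h3 : 2 * ((n : ℤ) + 1) * 1 ≤ 2 * ((n : ℤ) + 1) * c :=
    mul_le_mul_of_nonneg_left h2 (by positivity)
  omega

theorem I5b_dvd2 (n : ℕ) (a b : ℤ) (ha : 0 ≤ a) (ha' : a ≤ n) (hb : 0 ≤ b) (hb' : b ≤ n) :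
    ((2 * (n + 1) : ℕ) : ℤ) ∣ a - b ↔ a = b := by
  constructor
  · intro h
    have h1 := Int.eq_zero_of_abs_lt_dvd h (by
      rw [abs_lt]; push_cast; constructor <;> linarith)
    omega
  · rintro rfl; simp

theorem I5b_SA_lap (n : ℕ) (x y : ℤ × ℤ) (hx1 : 0 ≤ x.1) (hx1' : x.1 ≤ n) (hx2 : 0 ≤ x.2)
    (hx2' : x.2 ≤ n) (hy1 : 0 ≤ y.1) (hy1' : y.1 ≤ n) (hy2 : 0 ≤ y.2) (hy2' : y.2 ≤ n) :
    4 * SA (2 * (n + 1)) x y - SA (2 * (n + 1)) (x.1 + 1, x.2) y -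
      SA (2 * (n + 1)) (x.1 - 1, x.2) y - SA (2 * (n + 1)) (x.1, x.2 + 1) y -
      SA (2 * (n + 1)) (x.1, x.2 - 1) y =
      4 / (((2 * (n + 1) : ℕ) : ℝ)) ^ 2 - if x = y then 1 else 0 := by
  have hM : 2 ≤ 2 * (n + 1) := by omega
  obtain ⟨-, -, -, -, -, h⟩ := AA_eq (2 * (n + 1)) hM
  simp only [I5b_SA]
  have e1 : ∀ s t : ℤ, x.1 + 1 - s = (x.1 - s) + 1 ∧ x.1 - 1 - s = (x.1 - s) - 1 ∧
      x.2 + 1 - t = (x.2 - t) + 1 ∧ x.2 - 1 - t = (x.2 - t) - 1 := by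
    intro s t
    refine ⟨?_, ?_, ?_, ?_⟩ <;> ring
  have k1 := h (x.1 - (-1 - y.1)) (x.2 - (-1 - y.2))
  have k2 := h (x.1 - (-1 - y.1)) (x.2 - y.2)
  have k3 := h (x.1 - y.1) (x.2 - (-1 - y.2))
  have k4 := h (x.1 - y.1) (x.2 - y.2)
  have n1 := I5b_dvd1 n x.1 y.1 hx1 hx1' hy1 hy1'
  have n2 := I5b_dvd1 n x.2 y.2 hx2 hx2' hy2 hy2'
  have m1 := I5b_dvd2 n x.1 y.1 hx1 hx1' hy1 hy1'
  have m2 := I5b_dvd2 n x.2 y.2 hx2 hx2' hy2 hy2'
  rw [if_neg (fun hh => n1 hh.1)] at k1 k2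
  rw [if_neg (fun hh => n2 hh.2)] at k3
  simp only [m1, m2] at k4
  have e3 : (if x = y then (1 : ℝ) else 0) = if x.1 = y.1 ∧ x.2 = y.2 then 1 else 0 := by
    simp only [Prod.ext_iff]
  rw [e3]
  have f1 : x.1 + 1 - (-1 - y.1) = (x.1 - (-1 - y.1)) + 1 := by ring
  have f2 : x.1 - 1 - (-1 - y.1) = (x.1 - (-1 - y.1)) - 1 := by ring
  have f3 : x.1 + 1 - y.1 = (x.1 - y.1) + 1 := by ring
  have f4 : x.1 - 1 - y.1 = (x.1 - y.1) - 1 := by ring
  have f5 : x.2 + 1 - (-1 - y.2) = (x.2 - (-1 - y.2)) + 1 := by ring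
  have f6 : x.2 - 1 - (-1 - y.2) = (x.2 - (-1 - y.2)) - 1 := by ring
  have f7 : x.2 + 1 - y.2 = (x.2 - y.2) + 1 := by ring
  have f8 : x.2 - 1 - y.2 = (x.2 - y.2) - 1 := by ring
  rw [f1, f2, f3, f4, f5, f6, f7, f8]
  linear_combination k1 + k2 + k3 + k4

/-- ROW SND-I5b. The Laplace equation of the Green function. -/
theorem GG_lap (n : ℕ) (x y : HV n) :
    ∑ e : Edge n, ((if tl e = x then GG n x y - GG n (hd e) y else 0) +
      (if hd e = x then GG n x y - GG n (tl e) y else 0)) =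
      (if x = y then 1 else 0) - (if x = oo n then 1 else 0) := by
  have hM : 2 ≤ 2 * (n + 1) := by omega
  set C : ℝ := SA (2 * (n + 1)) (cz y) (0, 0) - SA (2 * (n + 1)) (0, 0) (0, 0) with hC
  set g : ℤ → ℤ → ℝ := fun a b => -SA (2 * (n + 1)) (a, b) (cz y) +
    SA (2 * (n + 1)) (a, b) (0, 0) + C with hg
  have hF : ∀ z : HV n, GG n z y = g (z.1 : ℕ) (z.2 : ℕ) := by
    intro z
    simp only [GG, hg, hC, cz]
    ring
  have r1 : ∀ a b, g (-1 - a) b = g a b := by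
    intro a b
    simp only [hg]
    rw [I5b_refl1 _ hM, I5b_refl1 _ hM]
  have r2 : ∀ a b, g a (-1 - b) = g a b := by
    intro a b
    simp only [hg]
    rw [I5b_refl2 _ hM, I5b_refl2 _ hM]
  have p1 : ∀ a b, g (a + (2 * (n + 1) : ℕ)) b = g a b := by
    intro a b
    simp only [hg]
    rw [I5b_per1 _ hM, I5b_per1 _ hM]
  have p2 : ∀ a b, g a (b + (2 * (n + 1) : ℕ)) = g a b := by
    intro a b
    simp only [hg]
    rw [I5b_per2 _ hM, I5b_per2 _ hM]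
  have a1 : ∀ b, g (n + 1) b = g n b := by
    intro b
    rw [← r1 (n + 1) b, ← p1]
    congr 1
    push_cast
    ring
  have a2 : ∀ b, g (-1) b = g 0 b := by
    intro b
    rw [← r1 0 b]
    congr 1
  have b1 : ∀ a, g a (n + 1) = g a n := by
    intro a
    rw [← r2 a (n + 1), ← p2]
    congr 1
    push_cast
    ring
  have b2 : ∀ a, g a (-1) = g a 0 := by
    intro a
    rw [← r2 a 0]
    congr 1
  rw [I5b_edges n x (fun z => GG n z y) g hF a1 a2 b1 b2]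
  have hb : ∀ k : Fin (n + 1), (0 : ℤ) ≤ ((k : ℕ) : ℤ) ∧ ((k : ℕ) : ℤ) ≤ n := by
    intro k
    constructor
    · positivity
    · have := k.is_le
      exact_mod_cast this
  have l1 := I5b_SA_lap n (cz x) (cz y) (hb x.1).1 (hb x.1).2 (hb x.2).1 (hb x.2).2
    (hb y.1).1 (hb y.1).2 (hb y.2).1 (hb y.2).2
  have l2 := I5b_SA_lap n (cz x) (0, 0) (hb x.1).1 (hb x.1).2 (hb x.2).1 (hb x.2).2
    le_rfl (by positivity) le_rfl (by positivity)
  have i1 : (cz x = cz y) ↔ x = y := by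
    simp only [cz, Prod.ext_iff, Nat.cast_inj, Fin.val_inj]
  have i2 : (cz x = ((0, 0) : ℤ × ℤ)) ↔ x = oo n := by
    simp only [cz, oo, Prod.ext_iff, Fin.ext_iff]
    simp
  simp only [i1] at l1
  simp only [i2] at l2
  simp only [hg]
  simp only [cz] at l1 l2 ⊢
  linear_combination -l1 + l2

end SND
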