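import Pool.Agent.SND.Defs

open Finset

namespace SND

theorem I5c_ne {n : ℕ} (e : Edge n) : tl e ≠ hd e := by
  rcases e with ⟨i, j⟩ | ⟨i, j⟩ <;> simp [tl, hd, Prod.ext_iff, Fin.ext_iff]

theorem I5c_lap {n : ℕ} (x w : HV n) : lap (hEnds (n := n)) univ x w =
    ∑ e : Edge n, (if x = w then (if x ∈ hEnds e then (1 : ℝ) else 0)
      else -(if x ∈ hEnds e ∧ w ∈ hEnds e then (1 : ℝ) else 0)) := by
  unfold lap degF
  split_ifs with h
  · rw [Finset.card_filter]
    push_cast
    rfl
  · rw [Finset.card_filter, Finset.sum_neg_distrib]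
    push_cast
    rfl

/-- ROW SND-I5c. The Laplacian matrix in terms of the edges.

Proof. `lap x x = degF univ x = ∑_e ([tl e = x] + [hd e = x])` (`tl e ≠ hd e`), and for `w ≠ x`
`- #{e | x ∈ hEnds e ∧ w ∈ hEnds e} = - ∑_e ([tl e = x ∧ hd e = w] + [hd e = x ∧ tl e = w])`. -/
theorem lap_apply (n : ℕ) (f : HV n → ℝ) (x : HV n) :
    ∑ w, lap (hEnds (n := n)) univ x w * f w =
      ∑ e : Edge n, ((if tl e = x then f x - f (hd e) else 0) +
        (if hd e = x then f x - f (tl e) else 0)) := by
  simp_rw [I5c_lap, Finset.sum_mul]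
  rw [Finset.sum_comm]
  refine Finset.sum_congr rfl fun e _ => ?_
  have hne := I5c_ne e
  have hmem : ∀ z, z ∈ hEnds e ↔ z = tl e ∨ z = hd e := by
    intro z; simp [hEnds]
  by_cases h1 : tl e = x
  · have h2 : hd e ≠ x := fun h => hne (h1.trans h.symm)
    rw [if_pos h1, if_neg h2, add_zero, ← h1]
    rw [← Finset.sum_subset (Finset.subset_univ {tl e, hd e})]
    · rw [Finset.sum_pair hne]
      simp only [hmem, if_true, if_neg hne, true_or, or_true, and_self]
      ring
    · intro w _ hw
      simp only [Finset.mem_insert, Finset.mem_singleton, not_or] at hw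
      rw [if_neg (fun h => hw.1 h.symm)]
      simp only [hmem]
      rw [if_neg (fun h => by rcases h.2 with h | h; exacts [hw.1 h, hw.2 h])]
      simp
  · by_cases h2 : hd e = x
    · rw [if_neg h1, if_pos h2, zero_add, ← h2]
      rw [← Finset.sum_subset (Finset.subset_univ {tl e, hd e})]
      · rw [Finset.sum_pair hne]
        simp only [hmem, if_true, if_neg (fun h : hd e = tl e => hne h.symm), true_or, or_true,
          and_self]
        ring
      · intro w _ hw
        simp only [Finset.mem_insert, Finset.mem_singleton, not_or] at hw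
        rw [if_neg (fun h => hw.2 h.symm)]
        simp only [hmem]
        rw [if_neg (fun h => by rcases h.2 with h | h; exacts [hw.1 h, hw.2 h])]
        simp
    · rw [if_neg h1, if_neg h2, add_zero]
      refine Finset.sum_eq_zero fun w _ => ?_
      have hx : x ∉ hEnds e := by
        rw [hmem]; rintro (h | h)
        exacts [h1 h.symm, h2 h.symm]
      simp [hx]

end SND
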