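import Pool.Agent.SND.Defs

open Finset

namespace SND

theorem I6a_yr (M : ℕ) (y : ℤ) (h0 : 0 ≤ y) (h1 : y < M) : yr M y = y.toNat := by
  unfold yr
  rw [Int.emod_eq_of_lt h0 h1]

theorem I6a_yr' (M : ℕ) (y : ℤ) (h0 : y < 0) (h1 : -M ≤ y) : yr M y = (y + M).toNat := by
  unfold yr
  rw [← Int.add_emod_right, Int.emod_eq_of_lt (by omega) (by omega)]

/-- ROW SND-I6a. Distances to the images.

Proof. `M = 2 (n+1)`. For `x, y ∈ [0, n]`: `nd M (x - y) = |x - y|` (`≤ n < M/2`), and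
`nd M (x + y + 1) = min (x+y+1) (M - (x+y+1)) ≥ |x - y|`. Last claim: for `y ∈ {x, x+1}`, `y ≤ n`,
`1 + nd M (x+y+1) ≥ min (1 + x) (n + 1 - x)`: `x + y + 2 ≥ 1 + x`, and
`1 + M - (x+y+1) = 2 n + 2 - x - y ≥ n + 1 - x`. -/
theorem nd_images (n : ℕ) (x y : ℤ) (hx : 0 ≤ x) (hx' : x ≤ n) (hy : 0 ≤ y) (hy' : y ≤ n) :
    nd (2 * (n + 1)) (x - y) = |x - y| ∧ |x - y| ≤ nd (2 * (n + 1)) (x + y + 1) ∧
    min (1 + x) (n + 1 - x) ≤ 1 + nd (2 * (n + 1)) (x + y + 1) := by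
  have h2 : yr (2 * (n + 1)) (x + y + 1) = (x + y + 1).toNat :=
    I6a_yr _ _ (by omega) (by push_cast; omega)
  refine ⟨?_, ?_, ?_⟩
  · rcases le_or_gt y x with h | h
    · have h1 : yr (2 * (n + 1)) (x - y) = (x - y).toNat :=
        I6a_yr _ _ (by omega) (by push_cast; omega)
      unfold nd
      rw [h1, abs_of_nonneg (by omega)]
      omega
    · have h1 : yr (2 * (n + 1)) (x - y) = (x - y + ((2 * (n + 1) : ℕ) : ℤ)).toNat :=
        I6a_yr' _ _ (by omega) (by push_cast; omega)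
      unfold nd
      rw [h1, abs_of_neg (by omega)]
      omega
  · unfold nd
    rw [h2]
    rw [abs_le]
    constructor <;> omega
  · unfold nd
    rw [h2]
    omega

end SND
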