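import Pool.Agent.SND.Defs
import Pool.Agent.SND.I4c
import Pool.Agent.SND.I5a
import Pool.Agent.SND.I6a

open Finset

namespace SND

theorem I6b_range {n : ℕ} (x : HV n) : 0 ≤ (cz x).1 ∧ (cz x).1 ≤ n ∧ 0 ≤ (cz x).2 ∧ (cz x).2 ≤ n := by
  have h1 := x.1.isLt
  have h2 := x.2.isLt
  simp only [cz]
  omega

theorem I6b_nd (n : ℕ) (b : Bool) (x y : ℤ) (hx : 0 ≤ x) (hx' : x ≤ n) (hy : 0 ≤ y) (hy' : y ≤ n) :
    |x - y| ≤ nd (2 * (n + 1)) (x - rf b y) := by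
  obtain ⟨h1, h2, -⟩ := nd_images n x y hx hx' hy hy'
  cases b with
  | false => simp only [rf]; exact h1.ge
  | true =>
    simp only [rf, if_true]
    rwa [show x - (-1 - y) = x + y + 1 by ring]

theorem I6b_nd' (n : ℕ) (x y : ℤ) (hx : 0 ≤ x) (hx' : x ≤ n) (hy : 0 ≤ y) (hy' : y ≤ n) :
    min (1 + x) (n + 1 - x) ≤ 1 + nd (2 * (n + 1)) (x - rf true y) := by
  obtain ⟨-, -, h1⟩ := nd_images n x y hx hx' hy hy'
  simp only [rf, if_true]
  rwa [show x - (-1 - y) = x + y + 1 by ring]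

theorem I6b_nn {n : ℕ} (s : Bool × Bool) (x y : HV n) :
    max |((cz x).1 : ℝ) - (cz y).1| |((cz x).2 : ℝ) - (cz y).2| ≤
      nn (2 * (n + 1)) ((cz x).1 - rf s.1 (cz y).1) ((cz x).2 - rf s.2 (cz y).2) := by
  obtain ⟨h1, h2, h3, h4⟩ := I6b_range x
  obtain ⟨g1, g2, g3, g4⟩ := I6b_range y
  have e1 := I6b_nd n s.1 _ _ h1 h2 g1 g2
  have e2 := I6b_nd n s.2 _ _ h3 h4 g3 g4
  have e1' : |((cz x).1 : ℝ) - (cz y).1| ≤ (nd (2 * (n + 1)) ((cz x).1 - rf s.1 (cz y).1) : ℝ) := by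
    exact_mod_cast e1
  have e2' : |((cz x).2 : ℝ) - (cz y).2| ≤ (nd (2 * (n + 1)) ((cz x).2 - rf s.2 (cz y).2) : ℝ) := by
    exact_mod_cast e2
  unfold nn
  rw [Nat.cast_max]
  exact max_le_max e1' e2'

theorem I6b_L (n : ℕ) : 1 ≤ 1 + Real.log (2 * (n + 1)) := by
  have : 0 ≤ Real.log (2 * ((n : ℝ) + 1)) := by
    apply Real.log_nonneg
    have : (0 : ℝ) ≤ n := Nat.cast_nonneg n
    linarith
  linarith

theorem I6b_cast (n : ℕ) : (((2 * (n + 1) : ℕ)) : ℝ) = 2 * ((n : ℝ) + 1) := by push_cast; ring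

theorem I6b_AA (n : ℕ) (x y : ℤ) : |AA (2 * (n + 1)) x y| ≤ 10 * (1 + Real.log (2 * (n + 1))) := by
  have := (AA_lip (2 * (n + 1)) (by omega)).1 x y
  rwa [I6b_cast] at this

theorem I6b_AA_lip (n : ℕ) (x y x' y' : ℤ) {D p : ℝ} (hD : |(x : ℝ) - x'| + |(y : ℝ) - y'| ≤ D)
    (hp : 0 < p) (hp' : p ≤ 1 + nn (2 * (n + 1)) x y) :
    |AA (2 * (n + 1)) x y - AA (2 * (n + 1)) x' y'| ≤
      40 * (1 + Real.log (2 * (n + 1))) * D * (1 / p) := by
  have h := (AA_lip (2 * (n + 1)) (by omega)).2 x y x' y'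
  rw [I6b_cast] at h
  refine h.trans ?_
  have hL := I6b_L n
  rw [div_eq_mul_one_div]
  have hD0 : 0 ≤ D := le_trans (add_nonneg (abs_nonneg _) (abs_nonneg _)) hD
  have h1 : (1 : ℝ) / (1 + nn (2 * (n + 1)) x y) ≤ 1 / p := one_div_le_one_div_of_le hp hp'
  have h2 : (0 : ℝ) ≤ 1 / (1 + nn (2 * (n + 1)) x y) := by positivity
  refine mul_le_mul ?_ h1 h2 ?_
  · exact mul_le_mul_of_nonneg_left hD (by linarith)
  · exact mul_nonneg (by linarith) hD0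

theorem I6b_SA {n : ℕ} (x y : ℤ × ℤ) :
    |SA (2 * (n + 1)) x y| ≤ 40 * (1 + Real.log (2 * (n + 1))) := by
  unfold SA
  refine (Finset.abs_sum_le_sum_abs _ _).trans ?_
  refine (Finset.sum_le_sum (fun s _ => I6b_AA n _ _)).trans ?_
  rw [Finset.sum_const, Finset.card_univ, Fintype.card_prod, Fintype.card_bool, nsmul_eq_mul]
  push_cast
  linarith

theorem I6b_SA_diff {n : ℕ} (x x' y : HV n) :
    |SA (2 * (n + 1)) (cz x) (cz y) - SA (2 * (n + 1)) (cz x') (cz y)| ≤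
      160 * (1 + Real.log (2 * (n + 1))) *
      (|((cz x).1 : ℝ) - (cz x').1| + |((cz x).2 : ℝ) - (cz x').2|) *
      (1 / (1 + max |((cz x).1 : ℝ) - (cz y).1| |((cz x).2 : ℝ) - (cz y).2|)) := by
  unfold SA
  rw [← Finset.sum_sub_distrib]
  refine (Finset.abs_sum_le_sum_abs _ _).trans ?_
  have h : ∀ s ∈ (univ : Finset (Bool × Bool)),
      |AA (2 * (n + 1)) ((cz x).1 - rf s.1 (cz y).1) ((cz x).2 - rf s.2 (cz y).2) -
        AA (2 * (n + 1)) ((cz x').1 - rf s.1 (cz y).1) ((cz x').2 - rf s.2 (cz y).2)| ≤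
      40 * (1 + Real.log (2 * (n + 1))) *
        (|((cz x).1 : ℝ) - (cz x').1| + |((cz x).2 : ℝ) - (cz x').2|) *
      (1 / (1 + max |((cz x).1 : ℝ) - (cz y).1| |((cz x).2 : ℝ) - (cz y).2|)) := by
    intro s _
    refine I6b_AA_lip n _ _ _ _ (le_of_eq ?_) ?_ ?_
    · push_cast
      congr 2 <;> ring
    · have : 0 ≤ max |((cz x).1 : ℝ) - (cz y).1| |((cz x).2 : ℝ) - (cz y).2| :=
        le_max_of_le_left (abs_nonneg _)
      linarith
    · have := I6b_nn s x y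
      linarith
  refine (Finset.sum_le_sum h).trans ?_
  rw [Finset.sum_const, Finset.card_univ, Fintype.card_prod, Fintype.card_bool, nsmul_eq_mul]
  apply le_of_eq
  push_cast
  ring

theorem I6b_oo (n : ℕ) : cz (oo n) = (0, 0) := by
  simp [cz, oo]

theorem I6b_SA_diff0 {n : ℕ} (x x' : HV n) :
    |SA (2 * (n + 1)) (cz x) (0, 0) - SA (2 * (n + 1)) (cz x') (0, 0)| ≤
      160 * (1 + Real.log (2 * (n + 1))) *
      (|((cz x).1 : ℝ) - (cz x').1| + |((cz x).2 : ℝ) - (cz x').2|) *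
      (1 / (1 + max ((cz x).1 : ℝ) (cz x).2)) := by
  have h := I6b_SA_diff x x' (oo n)
  rw [I6b_oo] at h
  obtain ⟨h1, h2, h3, h4⟩ := I6b_range x
  have e1 : |((cz x).1 : ℝ) - ((0 : ℤ) : ℝ)| = ((cz x).1 : ℝ) := by
    rw [Int.cast_zero, sub_zero, abs_of_nonneg]
    exact_mod_cast h1
  have e2 : |((cz x).2 : ℝ) - ((0 : ℤ) : ℝ)| = ((cz x).2 : ℝ) := by
    rw [Int.cast_zero, sub_zero, abs_of_nonneg]
    exact_mod_cast h3
  simp only at h
  rwa [e1, e2] at h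

/-- ROW SND-I6b. Bounds for the Green function and its first differences.

Proof. Let `M = 2(n+1)`, `L = 1 + log M`. By `AA_lip` `|SA| ≤ 40 L`, so `|GG| ≤ 160 L`. Second:
`GG x y - GG x' y = -∑_s (AA (x - rf_s y) - AA (x' - rf_s y)) + ∑_s (AA (x - rf_s 0) - AA (x' - rf_s 0))`,
each term is bounded by `AA_lip` with `nn (x - rf_s y) ≥ max |x.1 - y.1| |x.2 - y.2|` (SND-I6a), and
`nn (x - rf_s 0) ≥ max x.1 x.2`. -/
theorem GG_bounds (n : ℕ) (x x' y : HV n) :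
    |GG n x y| ≤ 160 * (1 + Real.log (2 * (n + 1))) ∧
    |GG n x y - GG n x' y| ≤ 160 * (1 + Real.log (2 * (n + 1))) *
      (|((cz x).1 : ℝ) - (cz x').1| + |((cz x).2 : ℝ) - (cz x').2|) *
      (1 / (1 + max |((cz x).1 : ℝ) - (cz y).1| |((cz x).2 : ℝ) - (cz y).2|) +
        1 / (1 + max ((cz x).1 : ℝ) (cz x).2)) := by
  constructor
  · unfold GG
    have h1 := I6b_SA (n := n) (cz x) (cz y)
    have h2 := I6b_SA (n := n) (cz x) (0, 0)
    have h3 := I6b_SA (n := n) (cz y) (0, 0)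
    have h4 := I6b_SA (n := n) (0, 0) (0, 0)
    rw [abs_le] at *
    constructor <;> linarith [h1.1, h1.2, h2.1, h2.2, h3.1, h3.2, h4.1, h4.2]
  · have h1 := I6b_SA_diff x x' y
    have h2 := I6b_SA_diff0 x x'
    have e : GG n x y - GG n x' y =
        -(SA (2 * (n + 1)) (cz x) (cz y) - SA (2 * (n + 1)) (cz x') (cz y)) +
          (SA (2 * (n + 1)) (cz x) (0, 0) - SA (2 * (n + 1)) (cz x') (0, 0)) := by
      unfold GG; ring
    rw [e]
    refine (abs_add_le _ _).trans ?_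
    rw [abs_neg]
    exact (add_le_add h1 h2).trans (le_of_eq (by ring))

end SND
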