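import Pool.Agent.SND.Defs
import Pool.Agent.SND.I4b
import Pool.Agent.SND.I6a

open Finset

namespace SND

theorem I6c_rf (b : Bool) (y δ : ℤ) : rf b (y + δ) = rf b y + (if b then -δ else δ) := by
  cases b <;> simp [rf]; ring

theorem I6c_step {n : ℕ} (e : Edge n) : ∃ a : ℤ × ℤ, (a = (1, 0) ∨ a = (0, 1)) ∧
    (cz (hd e)).1 = (cz (tl e)).1 + a.1 ∧ (cz (hd e)).2 = (cz (tl e)).2 + a.2 := by
  rcases e with ⟨i, j⟩ | ⟨i, j⟩
  · exact ⟨(0, 1), by simp, by simp [tl, hd, cz], by simp [tl, hd, cz]⟩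
  · exact ⟨(1, 0), by simp, by simp [tl, hd, cz], by simp [tl, hd, cz]⟩

theorem I6c_range {n : ℕ} (x : HV n) : 0 ≤ (cz x).1 ∧ (cz x).1 ≤ n ∧ 0 ≤ (cz x).2 ∧ (cz x).2 ≤ n := by
  have h1 := x.1.isLt
  have h2 := x.2.isLt
  simp only [cz]
  omega

theorem I6c_nd (n : ℕ) (b : Bool) (x y : ℤ) (hx : 0 ≤ x) (hx' : x ≤ n) (hy : 0 ≤ y) (hy' : y ≤ n) :
    |x - y| ≤ nd (2 * (n + 1)) (x - rf b y) := by
  obtain ⟨h1, h2, -⟩ := nd_images n x y hx hx' hy hy'
  cases b with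
  | false => simp only [rf]; exact h1.ge
  | true =>
    simp only [rf, if_true]
    rwa [show x - (-1 - y) = x + y + 1 by ring]

theorem I6c_nn {n : ℕ} (s : Bool × Bool) (x y : HV n) :
    max |((cz x).1 : ℝ) - (cz y).1| |((cz x).2 : ℝ) - (cz y).2| ≤
      nn (2 * (n + 1)) ((cz x).1 - rf s.1 (cz y).1) ((cz x).2 - rf s.2 (cz y).2) := by
  obtain ⟨h1, h2, h3, h4⟩ := I6c_range x
  obtain ⟨g1, g2, g3, g4⟩ := I6c_range y
  have e1 := I6c_nd n s.1 _ _ h1 h2 g1 g2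
  have e2 := I6c_nd n s.2 _ _ h3 h4 g3 g4
  have e1' : |((cz x).1 : ℝ) - (cz y).1| ≤ (nd (2 * (n + 1)) ((cz x).1 - rf s.1 (cz y).1) : ℝ) := by
    exact_mod_cast e1
  have e2' : |((cz x).2 : ℝ) - (cz y).2| ≤ (nd (2 * (n + 1)) ((cz x).2 - rf s.2 (cz y).2) : ℝ) := by
    exact_mod_cast e2
  unfold nn
  rw [Nat.cast_max]
  exact max_le_max e1' e2'

/-- ROW SND-I6c. The kernel `d`.

Proof. `d e f = -∑_s (second difference of AA at `cz (tl e) - rf_s (cz (tl f))` with the steps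
`ε_e` and `∓ ε_f`)` (the terms of `GG` depending on one variable cancel; `hd e = tl e + ε_e` with
`ε_e ∈ {(1,0), (0,1)}`; `rf` reverses the sign of the step in a reflected coordinate); apply
`AA_diff2` and SND-I6a: `4 * 136 = 544 ≤ 2000`. -/
theorem d_bound (n : ℕ) (e f : Edge n) : |(KN n).d e f| ≤ 2000 * wN e f ^ 2 := by
  obtain ⟨a, ha, ha1, ha2⟩ := I6c_step e
  obtain ⟨b, hb, hb1, hb2⟩ := I6c_step f
  have hd : (KN n).d e f = -∑ s : Bool × Bool,
      (AA (2 * (n + 1)) ((cz (tl e)).1 - rf s.1 (cz (tl f)).1) ((cz (tl e)).2 - rf s.2 (cz (tl f)).2)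
      - AA (2 * (n + 1)) ((cz (hd e)).1 - rf s.1 (cz (tl f)).1)
          ((cz (hd e)).2 - rf s.2 (cz (tl f)).2)
      - AA (2 * (n + 1)) ((cz (tl e)).1 - rf s.1 (cz (hd f)).1)
          ((cz (tl e)).2 - rf s.2 (cz (hd f)).2)
      + AA (2 * (n + 1)) ((cz (hd e)).1 - rf s.1 (cz (hd f)).1)
          ((cz (hd e)).2 - rf s.2 (cz (hd f)).2)) := by
    rw [Finset.sum_add_distrib, Finset.sum_sub_distrib, Finset.sum_sub_distrib]
    simp only [KN, kern, GG]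
    unfold SA
    ring
  rw [hd, abs_neg]
  refine (Finset.abs_sum_le_sum_abs _ _).trans ?_
  have hN : 0 ≤ max |((cz (tl e)).1 : ℝ) - (cz (tl f)).1| |((cz (tl e)).2 : ℝ) - (cz (tl f)).2| :=
    le_max_of_le_left (abs_nonneg _)
  have hterm : ∀ s ∈ (univ : Finset (Bool × Bool)),
      |AA (2 * (n + 1)) ((cz (tl e)).1 - rf s.1 (cz (tl f)).1)
        ((cz (tl e)).2 - rf s.2 (cz (tl f)).2)
      - AA (2 * (n + 1)) ((cz (SND.hd e)).1 - rf s.1 (cz (tl f)).1)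
          ((cz (SND.hd e)).2 - rf s.2 (cz (tl f)).2)
      - AA (2 * (n + 1)) ((cz (tl e)).1 - rf s.1 (cz (SND.hd f)).1)
          ((cz (tl e)).2 - rf s.2 (cz (SND.hd f)).2)
      + AA (2 * (n + 1)) ((cz (SND.hd e)).1 - rf s.1 (cz (SND.hd f)).1)
          ((cz (SND.hd e)).2 - rf s.2 (cz (SND.hd f)).2)| ≤ 136 * wN e f ^ 2 := by
    intro s _
    have h := (AA_diff2 (2 * (n + 1)) (by omega) ((cz (tl e)).1 - rf s.1 (cz (tl f)).1)
      ((cz (tl e)).2 - rf s.2 (cz (tl f)).2)).2.2 a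
      (-(if s.1 then -b.1 else b.1), -(if s.2 then -b.2 else b.2)) (by
        rcases ha with rfl | rfl <;> simp) (by
        rcases hb with rfl | rfl <;> rcases s with ⟨_ | _, _ | _⟩ <;> simp)
    simp only at h
    rw [ha1, ha2, hb1, hb2, I6c_rf, I6c_rf]
    have e1 : ∀ u v c d : ℤ, u + c - v = u - v + c := fun u v c d => by ring
    have e2 : ∀ u v c : ℤ, u - (v + c) = u - v + -c := fun u v c => by ring
    have e3 : ∀ u v c d : ℤ, u + c - (v + d) = u - v + c + -d := fun u v c d => by ring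
    rw [e1 _ _ _ 0, e1 _ _ _ 0, e2, e2, e3, e3]
    refine h.trans ?_
    rw [div_eq_mul_one_div]
    refine mul_le_mul_of_nonneg_left ?_ (by norm_num)
    unfold wN pz
    rw [one_div_pow]
    refine one_div_le_one_div_of_le (by positivity) ?_
    have := I6c_nn s (tl e) (tl f)
    refine pow_le_pow_left₀ (by positivity) (by linarith) 2
  refine (Finset.sum_le_sum hterm).trans ?_
  rw [Finset.sum_const, Finset.card_univ, Fintype.card_prod, Fintype.card_bool, nsmul_eq_mul]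
  push_cast
  nlinarith [sq_nonneg (wN e f)]

end SND
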