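import Pool.Agent.SND.Defs
import Pool.Agent.SND.I5a
import Pool.Agent.SND.I6b

open Finset

namespace SND

/-- `x` is near the position of the edge `e` -/
def I6d_Near {n : ℕ} (e : Edge n) (x : HV n) : Prop :=
  0 ≤ ((cz x).1 : ℝ) - (pz e).1 ∧ ((cz x).1 : ℝ) - (pz e).1 ≤ 1 ∧
    0 ≤ ((cz x).2 : ℝ) - (pz e).2 ∧ ((cz x).2 : ℝ) - (pz e).2 ≤ 1

theorem I6d_near_tl {n : ℕ} (e : Edge n) : I6d_Near e (tl e) := by
  simp [I6d_Near, pz]

theorem I6d_near_hd {n : ℕ} (e : Edge n) : I6d_Near e (hd e) := by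
  rcases e with ⟨i, j⟩ | ⟨i, j⟩ <;> simp [I6d_Near, pz, tl, hd, cz]

theorem I6d_pz_nonneg {n : ℕ} (e : Edge n) : (0 : ℝ) ≤ (pz e).1 ∧ (0 : ℝ) ≤ (pz e).2 := by
  obtain ⟨h1, -, h2, -⟩ := I6b_range (tl e)
  unfold pz
  exact ⟨by exact_mod_cast h1, by exact_mod_cast h2⟩

theorem I6d_wN {n : ℕ} {e f : Edge n} {x y : HV n} (hx : I6d_Near e x) (hy : I6d_Near f y) :
    1 / (1 + max |((cz x).1 : ℝ) - (cz y).1| |((cz x).2 : ℝ) - (cz y).2|) ≤ 2 * wN e f := by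
  unfold wN
  set P := max |((cz x).1 : ℝ) - (cz y).1| |((cz x).2 : ℝ) - (cz y).2| with hP
  set N := max |((pz e).1 : ℝ) - (pz f).1| |((pz e).2 : ℝ) - (pz f).2| with hN
  have hP0 : 0 ≤ P := le_max_of_le_left (abs_nonneg _)
  have hN0 : 0 ≤ N := le_max_of_le_left (abs_nonneg _)
  obtain ⟨a1, a2, a3, a4⟩ := hx
  obtain ⟨b1, b2, b3, b4⟩ := hy
  have hNP : N ≤ P + 1 := by
    refine max_le ?_ ?_
    · have h1 : |((cz x).1 : ℝ) - (cz y).1| ≤ P := le_max_left _ _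
      rw [abs_le] at h1 ⊢
      constructor <;> linarith [h1.1, h1.2]
    · have h1 : |((cz x).2 : ℝ) - (cz y).2| ≤ P := le_max_right _ _
      rw [abs_le] at h1 ⊢
      constructor <;> linarith [h1.1, h1.2]
  rw [mul_one_div, div_le_div_iff₀ (by linarith) (by linarith)]
  linarith

theorem I6d_woN {n : ℕ} {e : Edge n} {x : HV n} (hx : I6d_Near e x) :
    1 / (1 + max ((cz x).1 : ℝ) (cz x).2) ≤ woN e := by
  unfold woN
  obtain ⟨a1, a2, a3, a4⟩ := hx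
  obtain ⟨p1, p2⟩ := I6d_pz_nonneg e
  apply one_div_le_one_div_of_le
  · have : 0 ≤ max ((pz e).1 : ℝ) (pz e).2 := le_max_of_le_left p1
    linarith
  · have : max ((pz e).1 : ℝ) (pz e).2 ≤ max ((cz x).1 : ℝ) (cz x).2 :=
      max_le_max (by linarith) (by linarith)
    linarith

theorem I6d_inv {n : ℕ} (e e' : Edge n) : (wN e e')⁻¹ =
    1 + max |((pz e).1 : ℝ) - (pz e').1| |((pz e).2 : ℝ) - (pz e').2| := by
  unfold wN
  rw [one_div, inv_inv]

theorem I6d_l1 {n : ℕ} {e e' : Edge n} :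
    |((cz (tl e)).1 : ℝ) - (cz (tl e')).1| + |((cz (tl e)).2 : ℝ) - (cz (tl e')).2| ≤
      2 * (wN e e')⁻¹ := by
  rw [I6d_inv]
  have h1 : |((pz e).1 : ℝ) - (pz e').1| ≤
    max |((pz e).1 : ℝ) - (pz e').1| |((pz e).2 : ℝ) - (pz e').2| := le_max_left _ _
  have h2 : |((pz e).2 : ℝ) - (pz e').2| ≤
    max |((pz e).1 : ℝ) - (pz e').1| |((pz e).2 : ℝ) - (pz e').2| := le_max_right _ _
  unfold pz at *
  linarith

theorem I6d_l1' {n : ℕ} {e e' : Edge n} {x x' : HV n} (hx : I6d_Near e x) (hx' : I6d_Near e' x') :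
    |((cz x).1 : ℝ) - (cz x').1| + |((cz x).2 : ℝ) - (cz x').2| ≤ 2 * (wN e e')⁻¹ := by
  rw [I6d_inv]
  obtain ⟨a1, a2, a3, a4⟩ := hx
  obtain ⟨b1, b2, b3, b4⟩ := hx'
  have h1 : |((pz e).1 : ℝ) - (pz e').1| ≤
    max |((pz e).1 : ℝ) - (pz e').1| |((pz e).2 : ℝ) - (pz e').2| := le_max_left _ _
  have h2 : |((pz e).2 : ℝ) - (pz e').2| ≤
    max |((pz e).1 : ℝ) - (pz e').1| |((pz e).2 : ℝ) - (pz e').2| := le_max_right _ _
  have h3 : |((cz x).1 : ℝ) - (cz x').1| ≤ |((pz e).1 : ℝ) - (pz e').1| + 1 := by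
    have h4 := abs_le.1 (le_refl |((pz e).1 : ℝ) - (pz e').1|)
    rw [abs_le]
    constructor <;> linarith [h4.1, h4.2]
  have h4 : |((cz x).2 : ℝ) - (cz x').2| ≤ |((pz e).2 : ℝ) - (pz e').2| + 1 := by
    have h4 := abs_le.1 (le_refl |((pz e).2 : ℝ) - (pz e').2|)
    rw [abs_le]
    constructor <;> linarith [h4.1, h4.2]
  linarith

/-- first difference of the Green function, near versions -/
theorem I6d_GG {n : ℕ} {e e' f : Edge n} {x x' y : HV n} (hx : I6d_Near e x)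
    (hx' : I6d_Near e' x') (hy : I6d_Near f y) :
    |GG n x y - GG n x' y| ≤
      320 * (1 + Real.log (2 * (n + 1))) * (wN e e')⁻¹ * (2 * wN e f + woN e) := by
  refine ((GG_bounds n x x' y).2).trans ?_
  have hL := I6b_L n
  have h1 := I6d_l1' hx hx'
  have h2 := I6d_wN hx hy
  have h3 := I6d_woN hx
  have h0 : 0 ≤ |((cz x).1 : ℝ) - (cz x').1| + |((cz x).2 : ℝ) - (cz x').2| :=
    add_nonneg (abs_nonneg _) (abs_nonneg _)
  have h4 : (0 : ℝ) ≤ 1 / (1 + max |((cz x).1 : ℝ) - (cz y).1| |((cz x).2 : ℝ) - (cz y).2|) := by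
    have : 0 ≤ max |((cz x).1 : ℝ) - (cz y).1| |((cz x).2 : ℝ) - (cz y).2| :=
      le_max_of_le_left (abs_nonneg _)
    positivity
  have h5 : (0 : ℝ) ≤ 1 / (1 + max ((cz x).1 : ℝ) (cz x).2) := by
    have : 0 ≤ max ((cz x).1 : ℝ) (cz x).2 := by
      obtain ⟨g1, -⟩ := I6b_range x
      exact le_max_of_le_left (by exact_mod_cast g1)
    positivity
  calc _ ≤ 160 * (1 + Real.log (2 * (n + 1))) * (2 * (wN e e')⁻¹) * (2 * wN e f + woN e) := by
        refine mul_le_mul ?_ (add_le_add h2 h3) (add_nonneg h4 h5) ?_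
        · exact mul_le_mul_of_nonneg_left h1 (by linarith)
        · exact mul_nonneg (by linarith) (h0.trans h1)
    _ = _ := by ring

theorem I6d_wN_self {n : ℕ} (e : Edge n) : wN e e = 1 := by
  simp [wN]

theorem I6d_wN_symm {n : ℕ} (e f : Edge n) : wN e f = wN f e := by
  unfold wN
  rw [abs_sub_comm ((pz e).1 : ℝ), abs_sub_comm ((pz e).2 : ℝ)]

theorem I6d_wN_nonneg {n : ℕ} (e f : Edge n) : 0 ≤ wN e f := by
  unfold wN
  have : 0 ≤ max |((pz e).1 : ℝ) - (pz f).1| |((pz e).2 : ℝ) - (pz f).2| :=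
    le_max_of_le_left (abs_nonneg _)
  positivity

theorem I6d_woN_nonneg {n : ℕ} (e : Edge n) : 0 ≤ woN e := by
  unfold woN
  have : 0 ≤ max ((pz e).1 : ℝ) (pz e).2 := le_max_of_le_left (I6d_pz_nonneg e).1
  positivity

/-- ROW SND-I6d. The kernels `a, b` and the Lipschitz bound of `a`.

Proof. From `GG_bounds` (and the symmetry of `GG`): `a` is an average of four values; `b e f` is half
the sum of two differences `GG x (tl f) - GG x (hd f)`, `x ∈ {tl e, hd e}`, with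
`‖x - tl f‖ ≥ ‖tl e - tl f‖ - 1`, so `1/(1 + ‖x - tl f‖) ≤ 2 wN e f`; `1/(1 + ‖tl f‖) = woN f`.
Lipschitz: `a e f - a e' f` is an average of the four differences `GG x y - GG x' y`,
`(x,x') ∈ {(tl e, tl e'), (hd e, hd e')}`, `y ∈ {tl f, hd f}`, with `‖x - x'‖₁ ≤ 2 (wN e e')⁻¹`,
`1/(1 + ‖x - y‖) ≤ 3 wN e f`, `1/(1 + ‖x‖) ≤ woN e`. (`L ≥ 1`.) -/
theorem ab_bounds (n : ℕ) (e e' f : Edge n) :
    |(KN n).a e f| ≤ 2000 * (1 + Real.log (2 * (n + 1))) ∧
    |(KN n).b e f| ≤ 2000 * (1 + Real.log (2 * (n + 1))) * (wN e f + woN f) ∧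
    |(KN n).a e f - (KN n).a e' f| ≤
      2000 * (1 + Real.log (2 * (n + 1))) * (wN e e')⁻¹ * (wN e f + woN e) := by
  have hL := I6b_L n
  have hw := I6d_wN_nonneg e f
  have hwo := I6d_woN_nonneg f
  have hwo' := I6d_woN_nonneg e
  have hw0 : 0 ≤ (wN e e')⁻¹ := inv_nonneg.2 (I6d_wN_nonneg e e')
  refine ⟨?_, ?_, ?_⟩
  · simp only [KN, kern]
    have h1 := (GG_bounds n (tl e) (tl e) (tl f)).1
    have h2 := (GG_bounds n (tl e) (tl e) (hd f)).1
    have h3 := (GG_bounds n (hd e) (tl e) (tl f)).1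
    have h4 := (GG_bounds n (hd e) (tl e) (hd f)).1
    rw [abs_le] at *
    constructor <;> linarith [h1.1, h1.2, h2.1, h2.2, h3.1, h3.2, h4.1, h4.2]
  · have hs := (GG_symm n).1
    have h1 := I6d_GG (I6d_near_tl f) (I6d_near_hd f) (I6d_near_tl e)
    have h2 := I6d_GG (I6d_near_tl f) (I6d_near_hd f) (I6d_near_hd e)
    rw [I6d_wN_self, inv_one, mul_one, I6d_wN_symm f e] at h1 h2
    have e1 : (KN n).b e f = ((GG n (tl f) (tl e) - GG n (hd f) (tl e)) +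
        (GG n (tl f) (hd e) - GG n (hd f) (hd e))) / 2 := by
      simp only [KN, kern]
      rw [hs (tl e) (tl f), hs (tl e) (hd f), hs (hd e) (tl f), hs (hd e) (hd f)]
      ring
    rw [e1]
    have h3 : 320 * (1 + Real.log (2 * ((n : ℝ) + 1))) * (2 * wN e f + woN f) ≤
        2000 * (1 + Real.log (2 * ((n : ℝ) + 1))) * (wN e f + woN f) := by
      have : 0 ≤ (1 + Real.log (2 * ((n : ℝ) + 1))) * (1360 * wN e f + 1680 * woN f) :=
        mul_nonneg (by linarith) (by linarith)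
      linarith
    rw [abs_le] at *
    constructor <;> linarith [h1.1, h1.2, h2.1, h2.2]
  · have h1 := I6d_GG (I6d_near_tl e) (I6d_near_tl e') (I6d_near_tl f)
    have h2 := I6d_GG (I6d_near_tl e) (I6d_near_tl e') (I6d_near_hd f)
    have h3 := I6d_GG (I6d_near_hd e) (I6d_near_hd e') (I6d_near_tl f)
    have h4 := I6d_GG (I6d_near_hd e) (I6d_near_hd e') (I6d_near_hd f)
    have e1 : (KN n).a e f - (KN n).a e' f = ((GG n (tl e) (tl f) - GG n (tl e') (tl f)) +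
        (GG n (tl e) (hd f) - GG n (tl e') (hd f)) + (GG n (hd e) (tl f) - GG n (hd e') (tl f)) +
        (GG n (hd e) (hd f) - GG n (hd e') (hd f))) / 4 := by
      simp only [KN, kern]
      ring
    rw [e1]
    have h5 : 320 * (1 + Real.log (2 * ((n : ℝ) + 1))) * (wN e e')⁻¹ * (2 * wN e f + woN e) ≤
        2000 * (1 + Real.log (2 * ((n : ℝ) + 1))) * (wN e e')⁻¹ * (wN e f + woN e) := by
      have : 0 ≤ (1 + Real.log (2 * ((n : ℝ) + 1))) * (wN e e')⁻¹ *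
          (1360 * wN e f + 1680 * woN e) :=
        mul_nonneg (mul_nonneg (by linarith) hw0) (by linarith)
      linarith
    rw [abs_le] at *
    constructor <;> linarith [h1.1, h1.2, h2.1, h2.2, h3.1, h3.2, h4.1, h4.2]

end SND
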