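import Pool.Agent.SND.Defs
import Pool.Agent.SND.I3a
import Pool.Agent.SND.I4a
import Pool.Agent.SND.I4c
import Pool.Agent.SND.I5a
import Pool.Agent.SND.I6a
import Pool.Agent.SND.I6b
import Pool.Agent.SND.I6d

open Finset

namespace SND

theorem I6e_step {n : ℕ} (e : Edge n) :
    cz (hd e) = ((cz (tl e)).1, (cz (tl e)).2 + 1) ∨
      cz (hd e) = ((cz (tl e)).1 + 1, (cz (tl e)).2) := by
  rcases e with ⟨i, j⟩ | ⟨i, j⟩
  · left; simp [tl, hd, cz]
  · right; simp [tl, hd, cz]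

theorem I6e_step1 {n : ℕ} (e : Edge n) :
    |((cz (tl e)).1 : ℝ) - (cz (hd e)).1| + |((cz (tl e)).2 : ℝ) - (cz (hd e)).2| = 1 := by
  rcases I6e_step e with h | h <;> rw [h] <;> push_cast <;> simp

theorem I6e_wb {n : ℕ} (e : Edge n) (s : Bool × Bool) (hs : s ≠ (false, false)) (y : HV n) :
    1 / (1 + (nn (2 * (n + 1)) ((cz (tl e)).1 - rf s.1 (cz y).1)
      ((cz (tl e)).2 - rf s.2 (cz y).2) : ℝ)) ≤ wbN e := by
  obtain ⟨h1, h2, h3, h4⟩ := I6b_range (tl e)
  obtain ⟨g1, g2, g3, g4⟩ := I6b_range y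
  have key : ∀ (u : ℤ) (N : ℝ), 0 ≤ u → u ≤ n → ((min (1 + u) (n + 1 - u) : ℤ) : ℝ) ≤ 1 + N →
      1 / (1 + N) ≤ 1 / (1 + (u : ℝ)) + 1 / ((n : ℝ) + 1 - u) := by
    intro u N hu hu' hN
    have a1 : (0 : ℝ) ≤ u := by exact_mod_cast hu
    have a2 : (u : ℝ) ≤ n := by exact_mod_cast hu'
    have b1 : (0 : ℝ) < 1 / (1 + (u : ℝ)) := by positivity
    have b2 : (0 : ℝ) < 1 / ((n : ℝ) + 1 - u) := one_div_pos.2 (by linarith)
    rcases min_choice (1 + u) ((n : ℤ) + 1 - u) with h | h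
    · rw [h] at hN
      push_cast at hN
      have : 1 / (1 + N) ≤ 1 / (1 + (u : ℝ)) := one_div_le_one_div_of_le (by linarith) hN
      linarith
    · rw [h] at hN
      push_cast at hN
      have : 1 / (1 + N) ≤ 1 / ((n : ℝ) + 1 - u) := one_div_le_one_div_of_le (by linarith) hN
      linarith
  have hpos : ∀ u : ℤ, 0 ≤ u → u ≤ n → (0 : ℝ) ≤ 1 / (1 + (u : ℝ)) + 1 / ((n : ℝ) + 1 - u) := by
    intro u hu hu'
    have a1 : (0 : ℝ) ≤ u := by exact_mod_cast hu
    have a2 : (u : ℝ) ≤ n := by exact_mod_cast hu'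
    have b1 : (0 : ℝ) < 1 / (1 + (u : ℝ)) := by positivity
    have b2 : (0 : ℝ) < 1 / ((n : ℝ) + 1 - u) := one_div_pos.2 (by linarith)
    linarith
  have p1 := hpos _ h1 h2
  have p2 := hpos _ h3 h4
  have hs' : s.1 = true ∨ s.2 = true := by
    rcases s with ⟨_ | _, _ | _⟩ <;> simp_all
  unfold wbN pz
  rcases hs' with hs' | hs'
  · have c1 := I6b_nd' n _ _ h1 h2 g1 g2
    have c2 : ((min (1 + (cz (tl e)).1) (n + 1 - (cz (tl e)).1) : ℤ) : ℝ) ≤
        1 + (nn (2 * (n + 1)) ((cz (tl e)).1 - rf s.1 (cz y).1)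
          ((cz (tl e)).2 - rf s.2 (cz y).2) : ℝ) := by
      have c3 : (nd (2 * (n + 1)) ((cz (tl e)).1 - rf s.1 (cz y).1) : ℝ) ≤
          (nn (2 * (n + 1)) ((cz (tl e)).1 - rf s.1 (cz y).1)
          ((cz (tl e)).2 - rf s.2 (cz y).2) : ℝ) := by
        unfold nn
        exact_mod_cast le_max_left _ _
      rw [hs'] at c3 ⊢
      have c4 : ((min (1 + (cz (tl e)).1) (n + 1 - (cz (tl e)).1) : ℤ) : ℝ) ≤
        1 + (nd (2 * (n + 1)) ((cz (tl e)).1 - rf true (cz y).1) : ℝ) := by exact_mod_cast c1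
      linarith
    have := key _ _ h1 h2 c2
    linarith
  · have c1 := I6b_nd' n _ _ h3 h4 g3 g4
    have c2 : ((min (1 + (cz (tl e)).2) (n + 1 - (cz (tl e)).2) : ℤ) : ℝ) ≤
        1 + (nn (2 * (n + 1)) ((cz (tl e)).1 - rf s.1 (cz y).1)
          ((cz (tl e)).2 - rf s.2 (cz y).2) : ℝ) := by
      have c3 : (nd (2 * (n + 1)) ((cz (tl e)).2 - rf s.2 (cz y).2) : ℝ) ≤
          (nn (2 * (n + 1)) ((cz (tl e)).1 - rf s.1 (cz y).1)
          ((cz (tl e)).2 - rf s.2 (cz y).2) : ℝ) := by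
        unfold nn
        exact_mod_cast le_max_right _ _
      rw [hs'] at c3 ⊢
      have c4 : ((min (1 + (cz (tl e)).2) (n + 1 - (cz (tl e)).2) : ℤ) : ℝ) ≤
        1 + (nd (2 * (n + 1)) ((cz (tl e)).2 - rf true (cz y).2) : ℝ) := by exact_mod_cast c1
      linarith
    have := key _ _ h3 h4 c2
    linarith

theorem I6e_rf_diff (b : Bool) (x y x' y' : ℤ) :
    |((x - rf b y : ℤ) : ℝ) - ((x' - rf b y' : ℤ) : ℝ)| ≤ |(x : ℝ) - x'| + |(y : ℝ) - y'| := by
  cases b with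
  | false =>
    simp only [rf]
    push_cast
    calc _ = |((x : ℝ) - x') + -((y : ℝ) - y')| := by congr 1; simp; ring
      _ ≤ _ := by
        refine (abs_add_le _ _).trans ?_
        rw [abs_neg]
  | true =>
    simp only [rf, if_true]
    push_cast
    calc _ = |((x : ℝ) - x') + ((y : ℝ) - y')| := by congr 1; ring
      _ ≤ _ := abs_add_le _ _

/-- sums over the images with vanishing direct term -/
theorem I6e_sum {n : ℕ} (e : Edge n) (y x' y' : HV n) {D : ℝ}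
    (hD : (|((cz (tl e)).1 : ℝ) - (cz x').1| + |((cz (tl e)).2 : ℝ) - (cz x').2|) +
      (|((cz y).1 : ℝ) - (cz y').1| + |((cz y).2 : ℝ) - (cz y').2|) ≤ D)
    (h0 : AA (2 * (n + 1)) ((cz (tl e)).1 - (cz y).1) ((cz (tl e)).2 - (cz y).2) =
      AA (2 * (n + 1)) ((cz x').1 - (cz y').1) ((cz x').2 - (cz y').2)) :
    |SA (2 * (n + 1)) (cz (tl e)) (cz y) - SA (2 * (n + 1)) (cz x') (cz y')| ≤
      120 * (1 + Real.log (2 * (n + 1))) * D * wbN e := by
  have hL := I6b_L n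
  have hD0 : 0 ≤ D := le_trans (add_nonneg (add_nonneg (abs_nonneg _) (abs_nonneg _))
    (add_nonneg (abs_nonneg _) (abs_nonneg _))) hD
  unfold SA
  rw [← Finset.sum_sub_distrib]
  refine (Finset.abs_sum_le_sum_abs _ _).trans ?_
  have hterm : ∀ s : Bool × Bool, s ≠ (false, false) →
      |AA (2 * (n + 1)) ((cz (tl e)).1 - rf s.1 (cz y).1) ((cz (tl e)).2 - rf s.2 (cz y).2) -
        AA (2 * (n + 1)) ((cz x').1 - rf s.1 (cz y').1) ((cz x').2 - rf s.2 (cz y').2)| ≤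
      40 * (1 + Real.log (2 * (n + 1))) * D * wbN e := by
    intro s hs
    have h1 := I6b_AA_lip n ((cz (tl e)).1 - rf s.1 (cz y).1) ((cz (tl e)).2 - rf s.2 (cz y).2)
      ((cz x').1 - rf s.1 (cz y').1) ((cz x').2 - rf s.2 (cz y').2) (D := D)
      (p := 1 + (nn (2 * (n + 1)) ((cz (tl e)).1 - rf s.1 (cz y).1)
      ((cz (tl e)).2 - rf s.2 (cz y).2) : ℝ)) ?_ (by positivity) le_rfl
    · refine h1.trans ?_
      exact mul_le_mul_of_nonneg_left (I6e_wb e s hs y) (mul_nonneg (by linarith) hD0)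
    · have a1 := I6e_rf_diff s.1 (cz (tl e)).1 (cz y).1 (cz x').1 (cz y').1
      have a2 := I6e_rf_diff s.2 (cz (tl e)).2 (cz y).2 (cz x').2 (cz y').2
      linarith
  rw [Fintype.sum_prod_type]
  simp only [Fintype.sum_bool]
  have t0 : |AA (2 * (n + 1)) ((cz (tl e)).1 - rf false (cz y).1)
        ((cz (tl e)).2 - rf false (cz y).2) -
      AA (2 * (n + 1)) ((cz x').1 - rf false (cz y').1) ((cz x').2 - rf false (cz y').2)| = 0 := by
    have : ∀ u : ℤ, rf false u = u := fun u => rfl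
    rw [this, this, this, this, h0, sub_self, abs_zero]
  have t1 := hterm (true, true) (by simp)
  have t2 := hterm (true, false) (by simp)
  have t3 := hterm (false, true) (by simp)
  simp only at t1 t2 t3
  rw [t0]
  linarith

theorem I6e_SA0 {n : ℕ} {e e' : Edge n} {x x' : HV n} (hx : I6d_Near e x)
    (hx' : I6d_Near e' x') :
    |SA (2 * (n + 1)) (cz x) (0, 0) - SA (2 * (n + 1)) (cz x') (0, 0)| ≤
      320 * (1 + Real.log (2 * (n + 1))) * (wN e e')⁻¹ * woN e := by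
  refine (I6b_SA_diff0 x x').trans ?_
  have hL := I6b_L n
  have h1 := I6d_l1' hx hx'
  have h3 := I6d_woN hx
  have h0 : 0 ≤ |((cz x).1 : ℝ) - (cz x').1| + |((cz x).2 : ℝ) - (cz x').2| :=
    add_nonneg (abs_nonneg _) (abs_nonneg _)
  have h5 : (0 : ℝ) ≤ 1 / (1 + max ((cz x).1 : ℝ) (cz x).2) := by
    have : 0 ≤ max ((cz x).1 : ℝ) (cz x).2 := by
      obtain ⟨g1, -⟩ := I6b_range x
      exact le_max_of_le_left (by exact_mod_cast g1)
    positivity
  calc _ ≤ 160 * (1 + Real.log (2 * (n + 1))) * (2 * (wN e e')⁻¹) * woN e := by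
        refine mul_le_mul ?_ h3 h5 ?_
        · exact mul_le_mul_of_nonneg_left h1 (by linarith)
        · exact mul_nonneg (by linarith) (h0.trans h1)
    _ = _ := by ring

theorem I6e_wbN_nonneg {n : ℕ} (e : Edge n) : 0 ≤ wbN e := by
  have h := I6e_wb e (true, true) (by simp) (tl e)
  refine le_trans ?_ h
  positivity

/-- ROW SND-I6e. The coefficients `g`, `h`.

Proof. `g e = GG (tl e) (hd e)`: bound from `GG_bounds`. `M = 2(n+1)`, `L = 1 + log M`.
`h e = GG t t - GG h h` (`t = tl e`, `h = hd e`)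
`= -∑_s (AA (t - rf_s t) - AA (h - rf_s h)) + 2 ∑_s (AA (t - rf_s 0) - AA (h - rf_s 0))`. The term
`s = (false, false)` of the first sum is `AA 0 - AA 0 = 0`; for the other `s` the two arguments differ
by at most `2` in `ℓ¹`-norm and `1 + nn (t - rf_s t) ≥ min (1 + t.i) (n + 1 - t.i)` for a reflected
coordinate `i` (SND-I6a with `y = x`), so by `AA_lip` the term is at most `80 L * wbN e`; the terms of
the second sum are at most `40 L * woN e` each: total `240 L wbN e + 320 L woN e`.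
Lipschitz: `g e - g e' = -∑_s (AA (t - rf_s h) - AA (t' - rf_s h')) + ∑_s (AA (t - rf_s 0)
- AA (t' - rf_s 0)) + ∑_s (AA (h - rf_s 0) - AA (h' - rf_s 0))`. The term `s = (false,false)` of the
first sum is `AA (-ε) - AA (-ε') = 0` (`ε, ε' ∈ {(1,0),(0,1)}`: evenness and `AA_swap`). For the other
`s` use `AA_lip`: the arguments differ by at most `‖t - t'‖₁ + ‖h - h'‖₁ ≤ 4 (wN e e')⁻¹`
(`(wN e e')⁻¹ = 1 + ‖t - t'‖_∞`), and `1 + nn (t - rf_s h) ≥ min (1 + t.i) (n+1-t.i)`: total at most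
`3 * 160 L (wN e e')⁻¹ wbN e`; the other sums: `4 * 40 L * 2 (wN e e')⁻¹ woN e` each. -/
theorem gh_bounds (n : ℕ) (e e' : Edge n) :
    |(KN n).g e| ≤ 2000 * (1 + Real.log (2 * (n + 1))) ∧
    |(KN n).h e| ≤ 2000 * (1 + Real.log (2 * (n + 1))) * (wbN e + woN e) ∧
    |(KN n).g e - (KN n).g e'| ≤
      2000 * (1 + Real.log (2 * (n + 1))) * (wN e e')⁻¹ * (woN e + wbN e) := by
  have hL := I6b_L n
  have hwo := I6d_woN_nonneg e
  have hwb := I6e_wbN_nonneg e
  have hw0 : 0 ≤ (wN e e')⁻¹ := inv_nonneg.2 (I6d_wN_nonneg e e')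
  refine ⟨?_, ?_, ?_⟩
  · simp only [KN, kern]
    have h1 := (GG_bounds n (tl e) (tl e) (hd e)).1
    refine h1.trans ?_
    linarith
  · have e1 : (KN n).h e = -(SA (2 * (n + 1)) (cz (tl e)) (cz (tl e)) -
          SA (2 * (n + 1)) (cz (hd e)) (cz (hd e))) +
        2 * (SA (2 * (n + 1)) (cz (tl e)) (0, 0) - SA (2 * (n + 1)) (cz (hd e)) (0, 0)) := by
      simp only [KN, kern, GG]
      ring
    have h1 := I6e_sum e (tl e) (hd e) (hd e) (D := 2) (by rw [I6e_step1]; norm_num)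
      (by simp only [sub_self])
    have h2 := I6e_SA0 (I6d_near_tl e) (I6d_near_hd e)
    rw [I6d_wN_self, inv_one, mul_one] at h2
    rw [e1]
    have h3 : 240 * ((1 + Real.log (2 * ((n : ℝ) + 1))) * wbN e) +
        640 * ((1 + Real.log (2 * ((n : ℝ) + 1))) * woN e) ≤
        2000 * (1 + Real.log (2 * ((n : ℝ) + 1))) * (wbN e + woN e) := by
      have : 0 ≤ (1 + Real.log (2 * ((n : ℝ) + 1))) * (1760 * wbN e + 1360 * woN e) :=
        mul_nonneg (by linarith) (by linarith)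
      linarith
    rw [abs_le] at *
    constructor <;> linarith [h1.1, h1.2, h2.1, h2.2]
  · have e1 : (KN n).g e - (KN n).g e' = -(SA (2 * (n + 1)) (cz (tl e)) (cz (hd e)) -
          SA (2 * (n + 1)) (cz (tl e')) (cz (hd e'))) +
        (SA (2 * (n + 1)) (cz (tl e)) (0, 0) - SA (2 * (n + 1)) (cz (tl e')) (0, 0)) +
        (SA (2 * (n + 1)) (cz (hd e)) (0, 0) - SA (2 * (n + 1)) (cz (hd e')) (0, 0)) := by
      simp only [KN, kern, GG]
      ring
    have hAA : ∀ e : Edge n, AA (2 * (n + 1)) ((cz (tl e)).1 - (cz (hd e)).1)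
        ((cz (tl e)).2 - (cz (hd e)).2) = AA (2 * (n + 1)) 0 1 := by
      intro e
      obtain ⟨-, -, -, q1, q2, -⟩ := AA_eq (2 * (n + 1)) (by omega)
      rcases I6e_step e with h | h <;> rw [h]
      · simp only [sub_self]
        rw [show (cz (tl e)).2 - ((cz (tl e)).2 + 1) = -1 by ring, q2]
      · simp only [sub_self]
        rw [show (cz (tl e)).1 - ((cz (tl e)).1 + 1) = -1 by ring, q1,
          AA_swap (2 * (n + 1)) (by omega)]
    have h1 := I6e_sum e (hd e) (tl e') (hd e') (D := 4 * (wN e e')⁻¹) ?_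
      (by rw [hAA, hAA])
    · have h2 := I6e_SA0 (I6d_near_tl e) (I6d_near_tl e')
      have h3 := I6e_SA0 (I6d_near_hd e) (I6d_near_hd e')
      rw [e1]
      have h4 : 480 * ((1 + Real.log (2 * ((n : ℝ) + 1))) * (wN e e')⁻¹ * wbN e) +
          640 * ((1 + Real.log (2 * ((n : ℝ) + 1))) * (wN e e')⁻¹ * woN e) ≤
          2000 * (1 + Real.log (2 * ((n : ℝ) + 1))) * (wN e e')⁻¹ * (woN e + wbN e) := by
        have : 0 ≤ (1 + Real.log (2 * ((n : ℝ) + 1))) * (wN e e')⁻¹ *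
            (1520 * wbN e + 1360 * woN e) :=
          mul_nonneg (mul_nonneg (by linarith) hw0) (by linarith)
        linarith
      rw [abs_le] at *
      constructor <;> linarith [h1.1, h1.2, h2.1, h2.2, h3.1, h3.2]
    · have a1 := I6d_l1' (I6d_near_tl e) (I6d_near_tl e')
      have a2 := I6d_l1' (I6d_near_hd e) (I6d_near_hd e')
      linarith

end SND
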