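import Pool.Agent.SND.Defs

open Finset

namespace SND

theorem I7a_nonneg {n : ℕ} (e f : Edge n) :
    0 ≤ max |((pz e).1 : ℝ) - (pz f).1| |((pz e).2 : ℝ) - (pz f).2| :=
  le_max_of_le_left (abs_nonneg _)

theorem I7a_pz {n : ℕ} (e : Edge n) : (0 : ℝ) ≤ (pz e).1 ∧ (0 : ℝ) ≤ (pz e).2 ∧
    ((pz e).1 : ℝ) ≤ n ∧ ((pz e).2 : ℝ) ≤ n := by
  have h1 := (tl e).1.isLt
  have h2 := (tl e).2.isLt
  have h3 : 0 ≤ (pz e).1 ∧ 0 ≤ (pz e).2 ∧ (pz e).1 ≤ n ∧ (pz e).2 ≤ n := by
    simp only [pz, cz]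
    omega
  exact ⟨by exact_mod_cast h3.1, by exact_mod_cast h3.2.1, by exact_mod_cast h3.2.2.1,
    by exact_mod_cast h3.2.2.2⟩

/-- ROW SND-I7a. The weights, pointwise.

Proof. `w_tri`: with the norms `a = ‖e - f‖`, `b = ‖e - f'‖`, `c = ‖f - f'‖ ≤ a + b`, one of `a, b` is at
least `c/2`, and `1/(1+a) ≤ 2/(1+c)` if `a ≥ c/2`. -/
theorem w_pointwise (n : ℕ) :
    (∀ e f : Edge n, 0 < wN e f) ∧ (∀ e f : Edge n, wN e f ≤ 1) ∧
    (∀ e f : Edge n, wN e f = wN f e) ∧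
    (∀ e f f' : Edge n, min (wN e f) (wN e f') ≤ 2 * wN f f') ∧
    (∀ e : Edge n, 0 ≤ woN e) ∧ (∀ e : Edge n, woN e ≤ 1) ∧ (∀ e : Edge n, 0 ≤ wbN e) := by
  refine ⟨?_, ?_, ?_, ?_, ?_, ?_, ?_⟩
  · intro e f
    have := I7a_nonneg e f
    unfold wN
    positivity
  · intro e f
    have := I7a_nonneg e f
    unfold wN
    rw [div_le_one (by positivity)]
    linarith
  · intro e f
    unfold wN
    rw [abs_sub_comm ((pz e).1 : ℝ), abs_sub_comm ((pz e).2 : ℝ)]
  · intro e f f'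
    have h1 := I7a_nonneg e f
    have h2 := I7a_nonneg e f'
    have h3 := I7a_nonneg f f'
    have htri : max |((pz f).1 : ℝ) - (pz f').1| |((pz f).2 : ℝ) - (pz f').2| ≤
        max |((pz e).1 : ℝ) - (pz f).1| |((pz e).2 : ℝ) - (pz f).2| +
        max |((pz e).1 : ℝ) - (pz f').1| |((pz e).2 : ℝ) - (pz f').2| := by
      refine max_le ?_ ?_
      · calc |((pz f).1 : ℝ) - (pz f').1| = |(((pz e).1 : ℝ) - (pz f').1) - ((pz e).1 - (pz f).1)| := by
              congr 1; ring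
          _ ≤ |((pz e).1 : ℝ) - (pz f').1| + |((pz e).1 : ℝ) - (pz f).1| := abs_sub _ _
          _ ≤ _ := by
            rw [add_comm]
            exact add_le_add (le_max_left _ _) (le_max_left _ _)
      · calc |((pz f).2 : ℝ) - (pz f').2| = |(((pz e).2 : ℝ) - (pz f').2) - ((pz e).2 - (pz f).2)| := by
              congr 1; ring
          _ ≤ |((pz e).2 : ℝ) - (pz f').2| + |((pz e).2 : ℝ) - (pz f).2| := abs_sub _ _
          _ ≤ _ := by
            rw [add_comm]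
            exact add_le_add (le_max_right _ _) (le_max_right _ _)
    unfold wN
    set A := max |((pz e).1 : ℝ) - (pz f).1| |((pz e).2 : ℝ) - (pz f).2|
    set B := max |((pz e).1 : ℝ) - (pz f').1| |((pz e).2 : ℝ) - (pz f').2|
    set C := max |((pz f).1 : ℝ) - (pz f').1| |((pz f).2 : ℝ) - (pz f').2|
    rcases le_total A B with h | h
    · refine (min_le_right _ _).trans ?_
      rw [mul_one_div, div_le_div_iff₀ (by linarith) (by linarith)]
      linarith
    · refine (min_le_left _ _).trans ?_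
      rw [mul_one_div, div_le_div_iff₀ (by linarith) (by linarith)]
      linarith
  · intro e
    obtain ⟨p1, p2, -, -⟩ := I7a_pz e
    have : 0 ≤ max ((pz e).1 : ℝ) (pz e).2 := le_max_of_le_left p1
    unfold woN
    positivity
  · intro e
    obtain ⟨p1, p2, -, -⟩ := I7a_pz e
    have : 0 ≤ max ((pz e).1 : ℝ) (pz e).2 := le_max_of_le_left p1
    unfold woN
    rw [div_le_one (by positivity)]
    linarith
  · intro e
    obtain ⟨p1, p2, p3, p4⟩ := I7a_pz e
    have q1 : (0 : ℝ) ≤ 1 / ((n : ℝ) + 1 - (pz e).1) := (one_div_pos.2 (by linarith)).le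
    have q2 : (0 : ℝ) ≤ 1 / ((n : ℝ) + 1 - (pz e).2) := (one_div_pos.2 (by linarith)).le
    unfold wbN
    positivity

end SND
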