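import Pool.Agent.SND.Defs

open Finset

namespace SND

theorem I7b_fib (N c : ℕ) (ρ : Fin N → ℕ) (hρ : ∀ i, ρ i < N)
    (hc : ∀ k, (univ.filter (fun i => ρ i = k)).card ≤ c) :
    ∑ i, 1 / (1 + (ρ i : ℝ)) ≤ c * (1 + Real.log N) := by
  have h1 : ∑ i, 1 / (1 + (ρ i : ℝ)) =
      ∑ k ∈ range N, ∑ i ∈ univ.filter (fun i => ρ i = k), 1 / (1 + (ρ i : ℝ)) := by
    rw [Finset.sum_fiberwise_of_maps_to]
    intro i _
    exact Finset.mem_range.mpr (hρ i)
  have h2 : ∀ k ∈ range N, ∑ i ∈ univ.filter (fun i => ρ i = k), 1 / (1 + (ρ i : ℝ)) ≤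
      c * (1 / (1 + (k : ℝ))) := by
    intro k _
    have h3 : ∑ i ∈ univ.filter (fun i => ρ i = k), 1 / (1 + (ρ i : ℝ)) =
        ∑ i ∈ univ.filter (fun i => ρ i = k), 1 / (1 + (k : ℝ)) := by
      refine Finset.sum_congr rfl fun i hi => ?_
      rw [(Finset.mem_filter.mp hi).2]
    rw [h3, Finset.sum_const, nsmul_eq_mul]
    refine mul_le_mul_of_nonneg_right ?_ (by positivity)
    exact_mod_cast hc k
  have h4 : ∑ k ∈ range N, (1 / (1 + (k : ℝ))) ≤ 1 + Real.log N := by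
    have := harmonic_le_one_add_log N
    refine le_trans (le_of_eq ?_) this
    rw [harmonic]
    push_cast
    refine Finset.sum_congr rfl fun k _ => ?_
    rw [one_div, add_comm]
  calc ∑ i, 1 / (1 + (ρ i : ℝ)) = _ := h1
    _ ≤ ∑ k ∈ range N, c * (1 / (1 + (k : ℝ))) := Finset.sum_le_sum h2
    _ = c * ∑ k ∈ range N, (1 / (1 + (k : ℝ))) := by rw [Finset.mul_sum]
    _ ≤ _ := mul_le_mul_of_nonneg_left h4 (Nat.cast_nonneg c)

/-- distance sum -/
theorem I7b_dist (n j : ℕ) (hj : j ≤ n) :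
    ∑ i : Fin (n + 1), 1 / (1 + |((i : ℕ) : ℝ) - (j : ℝ)|) ≤ 2 * (1 + Real.log (n + 1)) := by
  have h := I7b_fib (n + 1) 2 (fun i => Nat.dist (i : ℕ) j) (by
    intro i
    have := i.isLt
    simp only [Nat.dist]
    omega) (by
    intro k
    have hsub : (univ.filter (fun i : Fin (n + 1) => Nat.dist (i : ℕ) j = k)).image
        (fun i : Fin (n + 1) => (i : ℕ)) ⊆ {j - k, j + k} := by
      intro a ha
      simp only [Finset.mem_image, Finset.mem_filter, Finset.mem_univ, true_and] at ha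
      obtain ⟨i, hi, rfl⟩ := ha
      simp only [Nat.dist] at hi
      simp only [Finset.mem_insert, Finset.mem_singleton]
      omega
    have h1 := Finset.card_le_card hsub
    rw [Finset.card_image_of_injective _ Fin.val_injective] at h1
    exact h1.trans Finset.card_le_two)
  push_cast at h
  refine le_trans (le_of_eq ?_) h
  refine Finset.sum_congr rfl fun i _ => ?_
  congr 2
  simp only [Nat.dist]
  rcases le_total (i : ℕ) j with hij | hij
  · rw [abs_of_nonpos (by simpa using (Nat.cast_le (α := ℝ)).mpr hij),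
      Nat.sub_eq_zero_of_le hij, zero_add, Nat.cast_sub hij]
    ring
  · rw [abs_of_nonneg (by simpa using (Nat.cast_le (α := ℝ)).mpr hij),
      Nat.sub_eq_zero_of_le hij, add_zero, Nat.cast_sub hij]

theorem I7b_p (n : ℕ) :
    ∑ i : Fin (n + 1), 1 / (1 + ((i : ℕ) : ℝ)) ≤ 1 + Real.log (n + 1) := by
  have h := I7b_fib (n + 1) 1 (fun i => (i : ℕ)) (fun i => i.isLt) (by
    intro k
    refine Finset.card_le_one.mpr ?_
    intro a ha b hb
    simp only [Finset.mem_filter, Finset.mem_univ, true_and] at ha hb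
    exact Fin.ext (ha.trans hb.symm))
  push_cast at h
  linarith

theorem I7b_q (n : ℕ) :
    ∑ i : Fin (n + 1), 1 / ((n : ℝ) + 1 - ((i : ℕ) : ℝ)) ≤ 1 + Real.log (n + 1) := by
  have h := I7b_fib (n + 1) 1 (fun i => n - (i : ℕ)) (fun i => by omega) (by
    intro k
    refine Finset.card_le_one.mpr ?_
    intro a ha b hb
    simp only [Finset.mem_filter, Finset.mem_univ, true_and] at ha hb
    have := a.isLt
    have := b.isLt
    exact Fin.ext (by omega))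
  push_cast at h
  refine le_trans (le_of_eq ?_) (h.trans (by linarith))
  refine Finset.sum_congr rfl fun i _ => ?_
  rw [Nat.cast_sub (by have := i.isLt; omega)]
  congr 1
  ring

/-- sum over the edges -/
theorem I7b_edge (n : ℕ) (φ : HV n → ℝ) (hφ : ∀ x, 0 ≤ φ x) :
    ∑ e : Edge n, φ (tl e) ≤ 2 * ∑ x : HV n, φ x := by
  rw [Fintype.sum_sum_type]
  have h1 : ∑ x : Fin (n + 1) × Fin n, φ (tl (Sum.inl x)) ≤ ∑ x : HV n, φ x := by
    rw [Fintype.sum_prod_type, Fintype.sum_prod_type]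
    refine Finset.sum_le_sum fun i _ => ?_
    rw [Fin.sum_univ_castSucc]
    have := hφ (i, Fin.last n)
    simp only [tl]
    linarith
  have h2 : ∑ x : Fin n × Fin (n + 1), φ (tl (Sum.inr x)) ≤ ∑ x : HV n, φ x := by
    rw [Fintype.sum_prod_type, Fintype.sum_prod_type, Fin.sum_univ_castSucc]
    have : 0 ≤ ∑ j, φ (Fin.last n, j) := Finset.sum_nonneg fun j _ => hφ _
    simp only [tl]
    linarith
  linarith

/-- product sums -/
theorem I7b_prod (n : ℕ) (f g : Fin (n + 1) → ℝ) (A B : ℝ) (hf0 : ∀ i, 0 ≤ f i)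
    (hg0 : ∀ i, 0 ≤ g i) (hf : ∑ i, f i ≤ A) (hg : ∑ i, g i ≤ B) :
    ∑ x : HV n, f x.1 * g x.2 ≤ A * B := by
  rw [Fintype.sum_prod_type]
  simp only
  rw [← Finset.sum_mul_sum]
  exact mul_le_mul hf hg (Finset.sum_nonneg fun i _ => hg0 i)
    ((Finset.sum_nonneg fun i _ => hf0 i).trans hf)

theorem I7b_one (n : ℕ) : ∑ _i : Fin (n + 1), (1 : ℝ) ≤ (n : ℝ) + 1 := by
  simp

/-- ROW SND-I7b. The sums of the weights.

Proof. Let `N = n + 1`, `H = 1 + log N`. One-dimensional: `∑_{i < N} 1/(1 + |i - j|) ≤ 2 H`,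
`∑_{i<N} 1/(1+i) ≤ H`, `∑_{i ≤ n} 1/(n+1-i) ≤ H` (`harmonic_le_one_add_log`). At most two edges have the
same `tl`, so `∑_e φ (tl e) ≤ 2 ∑_{x ∈ [0,n]²} φ x` for `φ ≥ 0`. Then use
`1/(1 + max a b) ≤ 1/(1+b)` (and `≤ 1/(1+a)`), `1/(1 + max a b)^2 ≤ 1/((1+a)(1+b))`:
`∑ w ≤ 2 N * 2 H`, `∑ wo ≤ 2 N H`, `∑ wb ≤ 2 * 4 N H`, `∑ w² ≤ 2 (2H)²`, `∑ w wb ≤ 2 * 4 * 2 H * H`
(for the term `1/(1+x.1)` or `1/(n+1-x.1)` of `wb` use `w ≤ 1/(1 + |x.2 - y.2|)`, etc.),
`∑ wo² ≤ 2 H²`, `∑ wo wb ≤ 8 H²`. -/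
theorem w_sums (n : ℕ) :
    (∀ f : Edge n, ∑ e, wN e f ≤ 100 * (1 + Real.log (n + 1)) * (n + 1)) ∧
    (∑ e : Edge n, woN e ≤ 100 * (1 + Real.log (n + 1)) * (n + 1)) ∧
    (∑ e : Edge n, wbN e ≤ 100 * (1 + Real.log (n + 1)) * (n + 1)) ∧
    (∀ f : Edge n, ∑ e, wN e f ^ 2 ≤ 100 * (1 + Real.log (n + 1)) ^ 2) ∧
    (∀ f : Edge n, ∑ e, wN e f * wbN e ≤ 100 * (1 + Real.log (n + 1)) ^ 2) ∧
    (∑ e : Edge n, woN e ^ 2 ≤ 100 * (1 + Real.log (n + 1)) ^ 2) ∧
    (∑ e : Edge n, woN e * wbN e ≤ 100 * (1 + Real.log (n + 1)) ^ 2) := by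
  set H : ℝ := 1 + Real.log (n + 1) with hH
  have hH1 : 1 ≤ H := by
    have : 0 ≤ Real.log ((n : ℝ) + 1) := Real.log_nonneg (by
      have : (0 : ℝ) ≤ n := Nat.cast_nonneg n
      linarith)
    linarith
  have hN0 : (0 : ℝ) ≤ (n : ℝ) + 1 := by positivity
  -- one-dimensional functions
  let a : ℕ → Fin (n + 1) → ℝ := fun j i => 1 / (1 + |((i : ℕ) : ℝ) - (j : ℝ)|)
  let p : Fin (n + 1) → ℝ := fun i => 1 / (1 + ((i : ℕ) : ℝ))
  let q : Fin (n + 1) → ℝ := fun i => 1 / ((n : ℝ) + 1 - ((i : ℕ) : ℝ))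
  let o : Fin (n + 1) → ℝ := fun _ => 1
  have ha0 : ∀ j i, 0 ≤ a j i := fun j i => by
    show 0 ≤ 1 / (1 + |((i : ℕ) : ℝ) - (j : ℝ)|)
    positivity
  have hp0 : ∀ i, 0 ≤ p i := fun i => by
    show 0 ≤ 1 / (1 + ((i : ℕ) : ℝ))
    positivity
  have hq0 : ∀ i, 0 ≤ q i := fun i => by
    show 0 ≤ 1 / ((n : ℝ) + 1 - ((i : ℕ) : ℝ))
    have h1 : (((i : ℕ) : ℝ)) ≤ (n : ℝ) := by
      exact_mod_cast Nat.lt_succ_iff.mp i.isLt
    have h2 : (0 : ℝ) < (n : ℝ) + 1 - ((i : ℕ) : ℝ) := by linarith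
    positivity
  have ho0 : ∀ i, 0 ≤ o i := fun i => zero_le_one
  have ha : ∀ j, j ≤ n → ∑ i, a j i ≤ 2 * H := fun j hj => I7b_dist n j hj
  have hp : ∑ i, p i ≤ H := I7b_p n
  have hq : ∑ i, q i ≤ H := I7b_q n
  have ho : ∑ i, o i ≤ (n : ℝ) + 1 := I7b_one n
  -- two-dimensional products
  have PP := fun f g A B h1 h2 h3 h4 => I7b_prod n f g A B h1 h2 h3 h4
  -- bounds of the weights
  have pz1 : ∀ e : Edge n, ((pz e).1 : ℝ) = (((tl e).1 : ℕ) : ℝ) := fun e => by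
    simp [pz, cz]
  have pz2 : ∀ e : Edge n, ((pz e).2 : ℝ) = (((tl e).2 : ℕ) : ℝ) := fun e => by
    simp [pz, cz]
  have hw1 : ∀ e f : Edge n, wN e f ≤ a (tl f).1 (tl e).1 := fun e f => by
    show 1 / (1 + max |((pz e).1 : ℝ) - (pz f).1| |((pz e).2 : ℝ) - (pz f).2|) ≤
      1 / (1 + |(((tl e).1 : ℕ) : ℝ) - (((tl f).1 : ℕ) : ℝ)|)
    rw [pz1, pz1]
    refine one_div_le_one_div_of_le (by positivity) ?_
    have := le_max_left |(((tl e).1 : ℕ) : ℝ) - (((tl f).1 : ℕ) : ℝ)|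
      |((pz e).2 : ℝ) - (pz f).2|
    linarith
  have hw2 : ∀ e f : Edge n, wN e f ≤ a (tl f).2 (tl e).2 := fun e f => by
    show 1 / (1 + max |((pz e).1 : ℝ) - (pz f).1| |((pz e).2 : ℝ) - (pz f).2|) ≤
      1 / (1 + |(((tl e).2 : ℕ) : ℝ) - (((tl f).2 : ℕ) : ℝ)|)
    rw [pz2, pz2]
    refine one_div_le_one_div_of_le (by positivity) ?_
    have := le_max_right |((pz e).1 : ℝ) - (pz f).1|
      |(((tl e).2 : ℕ) : ℝ) - (((tl f).2 : ℕ) : ℝ)|
    linarith
  have hw0 : ∀ e f : Edge n, 0 ≤ wN e f := fun e f => by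
    show 0 ≤ 1 / (1 + max |((pz e).1 : ℝ) - (pz f).1| |((pz e).2 : ℝ) - (pz f).2|)
    positivity
  have ho1 : ∀ e : Edge n, woN e ≤ p (tl e).1 := fun e => by
    show 1 / (1 + max ((pz e).1 : ℝ) (pz e).2) ≤ 1 / (1 + (((tl e).1 : ℕ) : ℝ))
    rw [pz1]
    refine one_div_le_one_div_of_le (by positivity) ?_
    have := le_max_left (((tl e).1 : ℕ) : ℝ) ((pz e).2 : ℝ)
    linarith
  have ho2 : ∀ e : Edge n, woN e ≤ p (tl e).2 := fun e => by
    show 1 / (1 + max ((pz e).1 : ℝ) (pz e).2) ≤ 1 / (1 + (((tl e).2 : ℕ) : ℝ))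
    rw [pz2]
    refine one_div_le_one_div_of_le (by positivity) ?_
    have := le_max_right ((pz e).1 : ℝ) (((tl e).2 : ℕ) : ℝ)
    linarith
  have hwo0 : ∀ e : Edge n, 0 ≤ woN e := fun e => by
    show 0 ≤ 1 / (1 + max ((pz e).1 : ℝ) (pz e).2)
    rw [pz1, pz2]
    positivity
  have hb : ∀ e : Edge n, wbN e = p (tl e).1 + p (tl e).2 + q (tl e).1 + q (tl e).2 := fun e => by
    show 1 / (1 + ((pz e).1 : ℝ)) + 1 / (1 + ((pz e).2 : ℝ)) + 1 / ((n : ℝ) + 1 - (pz e).1) +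
      1 / ((n : ℝ) + 1 - (pz e).2) = _
    rw [pz1, pz2]
  have htn1 : ∀ f : Edge n, ((tl f).1 : ℕ) ≤ n := fun f => Nat.lt_succ_iff.mp (tl f).1.isLt
  have htn2 : ∀ f : Edge n, ((tl f).2 : ℕ) ≤ n := fun f => Nat.lt_succ_iff.mp (tl f).2.isLt
  have hNH : 0 ≤ H * ((n : ℝ) + 1) := by positivity
  have hHH : 0 ≤ H ^ 2 := by positivity
  refine ⟨fun f => ?_, ?_, ?_, fun f => ?_, fun f => ?_, ?_, ?_⟩
  · calc ∑ e, wN e f ≤ ∑ e : Edge n, (fun x : HV n => a (tl f).1 x.1 * o x.2) (tl e) := by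
          refine Finset.sum_le_sum fun e _ => ?_
          simp only [o, mul_one]
          exact hw1 e f
      _ ≤ 2 * ∑ x : HV n, (fun x : HV n => a (tl f).1 x.1 * o x.2) x :=
          I7b_edge n _ fun x => mul_nonneg (ha0 _ _) (ho0 x.2)
      _ ≤ 2 * (2 * H * (n + 1)) :=
          mul_le_mul_of_nonneg_left (PP _ _ _ _ (ha0 _) ho0 (ha _ (htn1 f)) ho) (by norm_num)
      _ ≤ _ := by nlinarith
  · calc ∑ e : Edge n, woN e ≤ ∑ e : Edge n, (fun x : HV n => p x.1 * o x.2) (tl e) := by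
          refine Finset.sum_le_sum fun e _ => ?_
          simp only [o, mul_one]
          exact ho1 e
      _ ≤ 2 * ∑ x : HV n, (fun x : HV n => p x.1 * o x.2) x :=
          I7b_edge n _ fun x => mul_nonneg (hp0 _) (ho0 x.2)
      _ ≤ 2 * (H * (n + 1)) :=
          mul_le_mul_of_nonneg_left (PP _ _ _ _ hp0 ho0 hp ho) (by norm_num)
      _ ≤ _ := by nlinarith
  · calc ∑ e : Edge n, wbN e = ∑ e : Edge n, (fun x : HV n => p x.1 * o x.2 + o x.1 * p x.2 +
            q x.1 * o x.2 + o x.1 * q x.2) (tl e) := by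
          refine Finset.sum_congr rfl fun e _ => ?_
          rw [hb]
          simp only [o, mul_one, one_mul]
      _ ≤ 2 * ∑ x : HV n, (fun x : HV n => p x.1 * o x.2 + o x.1 * p x.2 +
            q x.1 * o x.2 + o x.1 * q x.2) x :=
          I7b_edge n _ fun x => add_nonneg (add_nonneg (add_nonneg (mul_nonneg (hp0 _) (ho0 x.2))
            (mul_nonneg (ho0 x.1) (hp0 _))) (mul_nonneg (hq0 _) (ho0 x.2)))
            (mul_nonneg (ho0 x.1) (hq0 _))
      _ ≤ 2 * (H * (n + 1) + (n + 1) * H + H * (n + 1) + (n + 1) * H) := by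
          refine mul_le_mul_of_nonneg_left ?_ (by norm_num)
          simp only [Finset.sum_add_distrib]
          exact add_le_add (add_le_add (add_le_add (PP _ _ _ _ hp0 ho0 hp ho)
            (PP _ _ _ _ ho0 hp0 ho hp)) (PP _ _ _ _ hq0 ho0 hq ho)) (PP _ _ _ _ ho0 hq0 ho hq)
      _ ≤ _ := by nlinarith
  · calc ∑ e, wN e f ^ 2 ≤ ∑ e : Edge n,
            (fun x : HV n => a (tl f).1 x.1 * a (tl f).2 x.2) (tl e) := by
          refine Finset.sum_le_sum fun e _ => ?_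
          rw [sq]
          exact mul_le_mul (hw1 e f) (hw2 e f) (hw0 e f) (ha0 _ _)
      _ ≤ 2 * ∑ x : HV n, (fun x : HV n => a (tl f).1 x.1 * a (tl f).2 x.2) x :=
          I7b_edge n _ fun x => mul_nonneg (ha0 _ _) (ha0 _ _)
      _ ≤ 2 * (2 * H * (2 * H)) :=
          mul_le_mul_of_nonneg_left (PP _ _ _ _ (ha0 _) (ha0 _) (ha _ (htn1 f)) (ha _ (htn2 f)))
            (by norm_num)
      _ ≤ _ := by nlinarith
  · calc ∑ e, wN e f * wbN e ≤ ∑ e : Edge n,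
            (fun x : HV n => p x.1 * a (tl f).2 x.2 + a (tl f).1 x.1 * p x.2 +
              q x.1 * a (tl f).2 x.2 + a (tl f).1 x.1 * q x.2) (tl e) := by
          refine Finset.sum_le_sum fun e _ => ?_
          rw [hb]
          have h1 := mul_le_mul_of_nonneg_right (hw2 e f) (hp0 (tl e).1)
          have h2 := mul_le_mul_of_nonneg_right (hw1 e f) (hp0 (tl e).2)
          have h3 := mul_le_mul_of_nonneg_right (hw2 e f) (hq0 (tl e).1)
          have h4 := mul_le_mul_of_nonneg_right (hw1 e f) (hq0 (tl e).2)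
          show _ ≤ p (tl e).1 * a (tl f).2 (tl e).2 + a (tl f).1 (tl e).1 * p (tl e).2 +
              q (tl e).1 * a (tl f).2 (tl e).2 + a (tl f).1 (tl e).1 * q (tl e).2
          nlinarith
      _ ≤ 2 * ∑ x : HV n, (fun x : HV n => p x.1 * a (tl f).2 x.2 + a (tl f).1 x.1 * p x.2 +
              q x.1 * a (tl f).2 x.2 + a (tl f).1 x.1 * q x.2) x :=
          I7b_edge n _ fun x => add_nonneg (add_nonneg (add_nonneg
            (mul_nonneg (hp0 _) (ha0 _ _)) (mul_nonneg (ha0 _ _) (hp0 _)))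
            (mul_nonneg (hq0 _) (ha0 _ _))) (mul_nonneg (ha0 _ _) (hq0 _))
      _ ≤ 2 * (H * (2 * H) + 2 * H * H + H * (2 * H) + 2 * H * H) := by
          refine mul_le_mul_of_nonneg_left ?_ (by norm_num)
          simp only [Finset.sum_add_distrib]
          exact add_le_add (add_le_add (add_le_add
            (PP _ _ _ _ hp0 (ha0 _) hp (ha _ (htn2 f)))
            (PP _ _ _ _ (ha0 _) hp0 (ha _ (htn1 f)) hp))
            (PP _ _ _ _ hq0 (ha0 _) hq (ha _ (htn2 f))))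
            (PP _ _ _ _ (ha0 _) hq0 (ha _ (htn1 f)) hq)
      _ ≤ _ := by nlinarith
  · calc ∑ e : Edge n, woN e ^ 2 ≤ ∑ e : Edge n, (fun x : HV n => p x.1 * p x.2) (tl e) := by
          refine Finset.sum_le_sum fun e _ => ?_
          rw [sq]
          exact mul_le_mul (ho1 e) (ho2 e) (hwo0 e) (hp0 _)
      _ ≤ 2 * ∑ x : HV n, (fun x : HV n => p x.1 * p x.2) x :=
          I7b_edge n _ fun x => mul_nonneg (hp0 _) (hp0 _)
      _ ≤ 2 * (H * H) :=
          mul_le_mul_of_nonneg_left (PP _ _ _ _ hp0 hp0 hp hp) (by norm_num)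
      _ ≤ _ := by nlinarith
  · calc ∑ e : Edge n, woN e * wbN e ≤ ∑ e : Edge n,
            (fun x : HV n => p x.1 * p x.2 + p x.1 * p x.2 +
              q x.1 * p x.2 + p x.1 * q x.2) (tl e) := by
          refine Finset.sum_le_sum fun e _ => ?_
          rw [hb]
          have h1 := mul_le_mul_of_nonneg_right (ho2 e) (hp0 (tl e).1)
          have h2 := mul_le_mul_of_nonneg_right (ho1 e) (hp0 (tl e).2)
          have h3 := mul_le_mul_of_nonneg_right (ho2 e) (hq0 (tl e).1)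
          have h4 := mul_le_mul_of_nonneg_right (ho1 e) (hq0 (tl e).2)
          show _ ≤ p (tl e).1 * p (tl e).2 + p (tl e).1 * p (tl e).2 +
              q (tl e).1 * p (tl e).2 + p (tl e).1 * q (tl e).2
          nlinarith
      _ ≤ 2 * ∑ x : HV n, (fun x : HV n => p x.1 * p x.2 + p x.1 * p x.2 +
              q x.1 * p x.2 + p x.1 * q x.2) x :=
          I7b_edge n _ fun x => add_nonneg (add_nonneg (add_nonneg
            (mul_nonneg (hp0 _) (hp0 _)) (mul_nonneg (hp0 _) (hp0 _)))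
            (mul_nonneg (hq0 _) (hp0 _))) (mul_nonneg (hp0 _) (hq0 _))
      _ ≤ 2 * (H * H + H * H + H * H + H * H) := by
          refine mul_le_mul_of_nonneg_left ?_ (by norm_num)
          simp only [Finset.sum_add_distrib]
          exact add_le_add (add_le_add (add_le_add
            (PP _ _ _ _ hp0 hp0 hp hp) (PP _ _ _ _ hp0 hp0 hp hp))
            (PP _ _ _ _ hq0 hp0 hq hp)) (PP _ _ _ _ hp0 hq0 hp hq)
      _ ≤ _ := by nlinarith

end SND
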