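import Pool.Agent.SND.Defs

open Finset

namespace SND

theorem I7c_sbp {V E : Type} [Fintype V] [DecidableEq V] [Fintype E] (t h : E → V)
    (φ F : V → ℝ) :
    ∑ f, (φ (t f) - φ (h f)) * (F (t f) - F (h f)) =
      ∑ x, F x * ∑ e, ((if t e = x then φ x - φ (h e) else 0) +
        (if h e = x then φ x - φ (t e) else 0)) := by
  have h1 : ∀ x, F x * ∑ e, ((if t e = x then φ x - φ (h e) else 0) +
        (if h e = x then φ x - φ (t e) else 0)) =
      ∑ e, ((if t e = x then F x * (φ x - φ (h e)) else 0) +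
        (if h e = x then F x * (φ x - φ (t e)) else 0)) := by
    intro x
    rw [Finset.mul_sum]
    refine Finset.sum_congr rfl fun e _ => ?_
    rw [mul_add, mul_ite, mul_ite, mul_zero]
  simp_rw [h1]
  rw [Finset.sum_comm]
  refine Finset.sum_congr rfl fun e _ => ?_
  rw [Finset.sum_add_distrib, Finset.sum_ite_eq, Finset.sum_ite_eq]
  simp only [Finset.mem_univ, if_true]
  ring

theorem I7c_one {V E : Type} [Fintype V] [DecidableEq V] [Fintype E] (t h : E → V)
    (o : V) (G : Matrix V V ℝ)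
    (hlap : ∀ x y, ∑ e, ((if t e = x then G x y - G (h e) y else 0) +
      (if h e = x then G x y - G (t e) y else 0)) =
        (if x = y then 1 else 0) - (if x = o then 1 else 0)) (y : V) (F : V → ℝ) :
    ∑ f, (G (t f) y - G (h f) y) * (F (t f) - F (h f)) = F y - F o := by
  rw [show ∑ f, (G (t f) y - G (h f) y) * (F (t f) - F (h f)) = _ from
    I7c_sbp t h (fun x => G x y) F]
  simp_rw [hlap, mul_sub, mul_ite, mul_one, mul_zero]
  rw [Finset.sum_sub_distrib, Finset.sum_ite_eq', Finset.sum_ite_eq']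
  simp

/-- ROW SND-I7c. The Ward identity.

Proof. Fix `e`, `u = t e`, `v = h e`. Let `φ x = G x u - G x v`, `ψ x = (G x u + G x v)/2`. By `hlap`
(for `y = u`, `y = v`), for every `F : V → ℝ` (summation by parts:
`∑_f (φ (t f) - φ (h f)) (F (t f) - F (h f)) = ∑_x F x * (Laplacian of φ at x)`):
`∑_f ∇φ ∇F = F u - F v`, `∑_f ∇ψ ∇F = (F u + F v)/2 - F o`, where `∇F = F (t f) - F (h f)`.
With `φ' = φ (t f)`, `φ'' = φ (h f)` etc.: `d e f = φ' - φ''`, `a e f = (ψ' + ψ'')/2`,
`b e f = ψ' - ψ''`, `b f e = (φ' + φ'')/2` (symmetry of `G`), so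
`a d - b (b f e) = φ' ψ'' - φ'' ψ'` and
`(φ' - φ'')(φ' ψ'' - φ'' ψ') = ∇φ ∇(φψ) - ∇ψ ∇(φ²)` (ring identity in `φ', φ'', ψ', ψ''`). Hence the
left side is `φ u ψ u - φ v ψ v - (φ u ^2 + φ v ^2)/2` (`φ o = 0`), with `φ u = G u u - G u v`,
`φ v = G u v - G v v`, `ψ u = (G u u + G u v)/2`, `ψ v = (G u v + G v v)/2`: it equals
`G u v (G u u + G v v - 2 G u v)`, and `∑_f d² = ∑ ∇φ ∇φ = φ u - φ v = G u u + G v v - 2 G u v`. -/
theorem ward_identity {V E : Type} [Fintype V] [DecidableEq V] [Fintype E] (t h : E → V)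
    (o : V) (G : Matrix V V ℝ) (hG : ∀ x y, G x y = G y x) (hG0 : ∀ x, G o x = 0)
    (hlap : ∀ x y, ∑ e, ((if t e = x then G x y - G (h e) y else 0) +
      (if h e = x then G x y - G (t e) y else 0)) =
        (if x = y then 1 else 0) - (if x = o then 1 else 0)) (e : E) :
    ∑ f, (kern t h G).d e f * ((kern t h G).a e f * (kern t h G).d e f -
        (kern t h G).b e f * (kern t h G).b f e) =
      (kern t h G).g e * ∑ f, (kern t h G).d e f ^ 2 := by
  set u := t e with hu
  set v := h e with hv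
  -- the functions
  set φ : V → ℝ := fun x => G x u - G x v with hφ
  set ψ : V → ℝ := fun x => (G x u + G x v) / 2 with hψ
  have hφF : ∀ F : V → ℝ, ∑ f, (φ (t f) - φ (h f)) * (F (t f) - F (h f)) = F u - F v := by
    intro F
    have h1 := I7c_one t h o G hlap u F
    have h2 := I7c_one t h o G hlap v F
    have h3 : ∑ f, (φ (t f) - φ (h f)) * (F (t f) - F (h f)) =
        ∑ f, (G (t f) u - G (h f) u) * (F (t f) - F (h f)) -
        ∑ f, (G (t f) v - G (h f) v) * (F (t f) - F (h f)) := by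
      rw [← Finset.sum_sub_distrib]
      refine Finset.sum_congr rfl fun f _ => ?_
      simp only [hφ]; ring
    rw [h3, h1, h2]; ring
  have hψF : ∀ F : V → ℝ, ∑ f, (ψ (t f) - ψ (h f)) * (F (t f) - F (h f)) =
      (F u + F v) / 2 - F o := by
    intro F
    have h1 := I7c_one t h o G hlap u F
    have h2 := I7c_one t h o G hlap v F
    have h3 : ∑ f, (ψ (t f) - ψ (h f)) * (F (t f) - F (h f)) =
        (∑ f, (G (t f) u - G (h f) u) * (F (t f) - F (h f)) +
        ∑ f, (G (t f) v - G (h f) v) * (F (t f) - F (h f))) / 2 := by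
      rw [← Finset.sum_add_distrib, Finset.sum_div]
      refine Finset.sum_congr rfl fun f _ => ?_
      simp only [hψ]; ring
    rw [h3, h1, h2]; ring
  have hd : ∀ f, (kern t h G).d e f = φ (t f) - φ (h f) := by
    intro f
    simp only [kern, hφ]
    rw [hG (t f) u, hG (h f) u, hG (t f) v, hG (h f) v]
    ring
  have ha : ∀ f, (kern t h G).a e f = (ψ (t f) + ψ (h f)) / 2 := by
    intro f
    simp only [kern, hψ]
    rw [hG (t f) u, hG (h f) u, hG (t f) v, hG (h f) v]
    ring
  have hb : ∀ f, (kern t h G).b e f = ψ (t f) - ψ (h f) := by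
    intro f
    simp only [kern, hψ]
    rw [hG (t f) u, hG (h f) u, hG (t f) v, hG (h f) v]
    ring
  have hb' : ∀ f, (kern t h G).b f e = (φ (t f) + φ (h f)) / 2 := by
    intro f
    simp only [kern, hφ]
    ring
  have h1 : ∑ f, (kern t h G).d e f * ((kern t h G).a e f * (kern t h G).d e f -
        (kern t h G).b e f * (kern t h G).b f e) =
      ∑ f, (φ (t f) - φ (h f)) * ((fun x => φ x * ψ x) (t f) - (fun x => φ x * ψ x) (h f)) -
      ∑ f, (ψ (t f) - ψ (h f)) * ((fun x => φ x ^ 2) (t f) - (fun x => φ x ^ 2) (h f)) := by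
    rw [← Finset.sum_sub_distrib]
    refine Finset.sum_congr rfl fun f _ => ?_
    rw [hd, ha, hb, hb']
    ring
  have h2 : ∑ f, (kern t h G).d e f ^ 2 = ∑ f, (φ (t f) - φ (h f)) * (φ (t f) - φ (h f)) := by
    refine Finset.sum_congr rfl fun f _ => ?_
    rw [hd]; ring
  have hφo : φ o = 0 := by simp only [hφ, hG0, sub_zero]
  have hg : (kern t h G).g e = G u v := rfl
  rw [h1, h2, hφF (fun x => φ x * ψ x), hψF (fun x => φ x ^ 2), hφF φ, hg]
  simp only [hφo]
  simp only [hφ, hψ]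
  rw [hG v u]
  ring

end SND
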