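import Mathlib

/-!
# MP_d15cab_pr: the abelian sandpile on the `n × n` box

This file contains all the definitions used in the statement of the theorem.
-/

open Finset MeasureTheory ProbabilityTheory

namespace SND

/-! ## The sandpile model (definitions used in the final statement) -/

/-- The sites of the `n × n` box. -/
abbrev Site (n : ℕ) : Type := Fin n × Fin n

/-- Nearest neighbours. -/
def Adj {n : ℕ} (u v : Site n) : Prop :=
  (u.1 = v.1 ∧ ((u.2 : ℕ) + 1 = v.2 ∨ (v.2 : ℕ) + 1 = u.2)) ∨
  (u.2 = v.2 ∧ ((u.1 : ℕ) + 1 = v.1 ∨ (v.1 : ℕ) + 1 = u.1))

instance {n : ℕ} (u v : Site n) : Decidable (Adj u v) := by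
  unfold Adj; infer_instance

/-- Sandpile configurations. -/
abbrev Config (n : ℕ) : Type := Site n → ℕ

/-- A configuration is stable if every site has at most three grains. -/
def Stable {n : ℕ} (η : Config n) : Prop := ∀ v, η v ≤ 3

/-- Toppling of the site `v`: it loses four grains, each neighbour inside the box gains one
(the other grains are lost in the sink). -/
def topple {n : ℕ} (η : Config n) (v : Site n) : Config n := fun u =>
  if u = v then η u - 4 else if Adj v u then η u + 1 else η u

/-- One legal toppling. -/
def Step {n : ℕ} (η ξ : Config n) : Prop := ∃ v, 4 ≤ η v ∧ ξ = topple η v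

/-- `ξ` is a stabilisation of `η`. -/
def StabilisesTo {n : ℕ} (η ξ : Config n) : Prop := Relation.ReflTransGen Step η ξ ∧ Stable ξ

/-- Recurrent configurations: stable configurations which can be reached from every configuration
by adding grains and then stabilising. -/
def Recurrent {n : ℕ} (ξ : Config n) : Prop :=
  Stable ξ ∧ ∀ η : Config n, ∃ a : Config n, StabilisesTo (η + a) ξ

/-- The total amount of sand. -/
def total {n : ℕ} (η : Config n) : ℕ := ∑ v, η v

/-- The set of recurrent configurations. -/
def recSet (n : ℕ) : Set (Config n) := {ξ | Recurrent ξ}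

end SND
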