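import Pool.Agent.SND.Defs
import Pool.Agent.SND.B3a
import Pool.Agent.SND.B3b
import Pool.Agent.SND.C1
import Pool.Agent.SND.C2
import Pool.Agent.SND.C3a
import Pool.Agent.SND.C4

open Finset

namespace SND

/-- planar duality -/
theorem conn_iff_acyc {n : ℕ} (A : Finset (Edge n)) :
    Conn gEnds univ A ↔ Acyc hEnds Aᶜ := by
  constructor
  · intro h D hD hev
    obtain ⟨U, hU⟩ := exists_cut D hev
    by_cases hne : U.Nonempty
    · obtain ⟨e, he, hc⟩ := h U (subset_univ _) hne
      have : e ∈ D := (hU e).2 hc
      have := hD this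
      rw [mem_compl] at this
      exact absurd he this
    · rw [not_nonempty_iff_eq_empty] at hne
      subst hne
      ext e
      rw [hU e]
      simp
  · intro h U _ hne
    by_contra hcon
    push Not at hcon
    have h1 := h (univ.filter (fun e : Edge n => (gEnds e ∩ U).card = 1)) (by
      intro e he
      rw [mem_filter] at he
      rw [mem_compl]
      intro heA
      exact hcon e heA he.2) (cut_even U)
    obtain ⟨e, he⟩ := cut_nonempty U hne
    have : e ∈ univ.filter (fun e : Edge n => (gEnds e ∩ U).card = 1) := by simp [he]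
    rw [h1] at this
    simp at this

section

variable {V E : Type} [Fintype V] [DecidableEq V] [Fintype E] [DecidableEq E]

theorem card_mverts (ends : E → Finset V) (hends : ∀ e, (ends e).card = 2) (o : V)
    (S : Finset V) (M : Finset E) (hm : IsMark ends o S M) :
    (insert o (mverts ends S M)).card = 1 + S.card + 2 * M.card ∧ o ∉ mverts ends S M := by
  obtain ⟨ho, hM, hd⟩ := hm
  have h1 : o ∉ mverts ends S M := by
    unfold mverts
    rw [mem_union, mem_biUnion]
    rintro (h | ⟨e, he, hoe⟩)
    · exact ho h
    · exact (hM e he).1 hoe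
  refine ⟨?_, h1⟩
  rw [card_insert_of_notMem h1]
  unfold mverts
  rw [card_union_of_disjoint, card_biUnion]
  · simp [hends]; ring
  · intro e he f hf hef
    exact hd e he f hf hef
  · rw [disjoint_biUnion_right]
    intro e he
    exact ((hM e he).2).symm

open Classical in
/-- The number of acyclic edge sets in terms of determinants. -/
theorem card_acyc (ends : E → Finset V) (hends : ∀ e, (ends e).card = 2) (o : V) (k : ℕ) :
    ((univ.filter (fun B : Finset E => Acyc ends B ∧ B.card + k + 1 = Fintype.card V)).card : ℝ) =
      Zc ends o k := by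
  -- sum over B of the signed count
  have key : ∀ B : Finset E, B.card + k + 1 = Fintype.card V →
      (if Acyc ends B then (1 : ℝ) else 0) =
        ∑ p ∈ (marks ends o k).filter (fun p => p.2 ⊆ B ∧
          Conn ends (univ \ insert o (mverts ends p.1 p.2)) (B \ p.2) ∧
          (B \ p.2).card = (univ \ insert o (mverts ends p.1 p.2)).card), (-1 : ℝ) ^ p.2.card := by
    intro B hB
    have hset : (marks ends o k).filter (fun p => p.2 ⊆ B ∧
          Conn ends (univ \ insert o (mverts ends p.1 p.2)) (B \ p.2) ∧
          (B \ p.2).card = (univ \ insert o (mverts ends p.1 p.2)).card) =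
        compat ends o univ B := by
      ext p
      simp only [marks, compat, mem_filter, mem_univ, true_and, subset_univ]
      constructor
      · rintro ⟨⟨h1, h2⟩, h3, h4, h5⟩
        exact ⟨h3, h1, h4, h5⟩
      · rintro ⟨h3, h1, h4, h5⟩
        refine ⟨⟨h1, ?_⟩, h3, h4, h5⟩
        have hc := (card_mverts ends hends o p.1 p.2 h1).1
        rw [card_sdiff_of_subset h3, card_univ_sdiff, hc] at h5
        have h6 := card_le_card h3
        have h7 : (insert o (mverts ends p.1 p.2)).card ≤ Fintype.card V := card_le_univ _
        rw [hc] at h7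
        omega
    rw [hset]
    by_cases hA : Acyc ends B
    · have := sum_compat ends hends o B hA univ (mem_univ _) (fun e _ => subset_univ _)
      rw [if_pos hA]
      have h2 := congrArg (fun z : ℤ => (z : ℝ)) this
      push_cast at h2
      exact h2.symm
    · rw [if_neg hA]
      symm
      apply sum_eq_zero
      intro p hp
      exfalso
      simp only [compat, mem_filter, mem_univ, true_and] at hp
      obtain ⟨_, h3, h1, h4, h5⟩ := hp
      exact hA (acyc_of_compat ends hends o B p.1 p.2 h1 h3 h4 h5)
  rw [card_filter]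
  push_cast
  have h1 : ∑ B : Finset E, (if Acyc ends B ∧ B.card + k + 1 = Fintype.card V then (1 : ℝ) else 0) =
      ∑ B ∈ univ.filter (fun B : Finset E => B.card + k + 1 = Fintype.card V),
        (if Acyc ends B then (1 : ℝ) else 0) := by
    rw [sum_filter]
    apply sum_congr rfl
    intro B _
    by_cases h1 : Acyc ends B <;> by_cases h2 : B.card + k + 1 = Fintype.card V <;> simp [h1, h2]
  rw [h1, sum_congr rfl (fun B hB => key B (mem_filter.1 hB).2)]
  simp_rw [sum_filter (s := marks ends o k)]
  rw [sum_comm]
  unfold Zc
  apply sum_congr rfl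
  intro p hp
  rw [matrix_forest ends hends, ← sum_filter, sum_const, nsmul_eq_mul, mul_comm]
  congr 2
  -- bijection B ↦ B \ M
  have hm : IsMark ends o p.1 p.2 := by
    simp only [marks, mem_filter] at hp; exact hp.2.1
  have hk : p.1.card + p.2.card = k := by
    simp only [marks, mem_filter] at hp; exact hp.2.2
  have hc := (card_mverts ends hends o p.1 p.2 hm).1
  have h7 : (insert o (mverts ends p.1 p.2)).card ≤ Fintype.card V := card_le_univ _
  have hdisj : ∀ e ∈ p.2, ¬ (ends e ∩ (univ \ insert o (mverts ends p.1 p.2))).Nonempty := by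
    rintro e he ⟨x, hx⟩
    rw [mem_inter, mem_sdiff] at hx
    apply hx.2.2
    rw [mem_insert]; right
    unfold mverts
    rw [mem_union]; right
    rw [mem_biUnion]
    exact ⟨e, he, hx.1⟩
  apply card_bij (fun B _ => B \ p.2)
  · intro B hB
    rw [mem_filter, mem_filter] at hB
    obtain ⟨⟨_, h0⟩, h3, h4, h5⟩ := hB
    rw [mem_filter, mem_powerset]
    refine ⟨subset_univ _, ?_, h4, h5⟩
    -- Touch
    have := card_le_of_conn ends _ _ h4
    rw [← h5] at this
    have h8 := eq_of_subset_of_card_le (filter_subset _ _) this
    intro e he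
    rw [← h8, mem_filter] at he
    exact he.2
  · intro B hB B' hB' hBB
    rw [mem_filter, mem_filter] at hB hB'
    have e1 : B = (B \ p.2) ∪ p.2 := by
      rw [sdiff_union_of_subset hB.2.1]
    have e2 : B' = (B' \ p.2) ∪ p.2 := by
      rw [sdiff_union_of_subset hB'.2.1]
    rw [e1, e2, (hBB : B \ p.2 = B' \ p.2)]
  · intro A hA
    rw [mem_filter, mem_powerset] at hA
    obtain ⟨_, hT, hC, hcard⟩ := hA
    have hAM : Disjoint A p.2 := by
      rw [disjoint_left]
      intro e he he'
      exact hdisj e he' (hT e he)
    have hsd : (A ∪ p.2) \ p.2 = A := by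
      rw [union_sdiff_right, sdiff_eq_self_of_disjoint hAM]
    refine ⟨A ∪ p.2, ?_, hsd⟩
    rw [mem_filter, mem_filter]
    refine ⟨⟨mem_univ _, ?_⟩, subset_union_right, ?_, ?_⟩
    · rw [card_union_of_disjoint hAM, hcard, card_univ_sdiff, hc]
      rw [hc] at h7
      omega
    · rw [hsd]; exact hC
    · rw [hsd]; exact hcard

end

end SND
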