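import Pool.Agent.SND.Z1
import Pool.Agent.SND.B1
import Pool.Agent.SND.B2
import Pool.Agent.SND.C5

open Finset

namespace SND

theorem gEnds_nonempty {n : ℕ} (e : Edge n) : (gEnds e).Nonempty := by
  rcases e with ⟨i, j⟩ | ⟨i, j⟩
  · have hn : 0 < n := lt_of_le_of_lt (Nat.zero_le _) j.2
    by_cases hi : (i : ℕ) < n
    · exact ⟨(⟨i, hi⟩, j), by simp [gEnds]⟩
    · have h2 := i.2
      refine ⟨(⟨n - 1, by omega⟩, j), ?_⟩
      simp only [gEnds, mem_filter, mem_univ, true_and]
      right; omega
  · have hn : 0 < n := lt_of_le_of_lt (Nat.zero_le _) i.2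
    by_cases hi : (j : ℕ) < n
    · exact ⟨(i, ⟨j, hi⟩), by simp [gEnds]⟩
    · have h2 := j.2
      refine ⟨(i, ⟨n - 1, by omega⟩), ?_⟩
      simp only [gEnds, mem_filter, mem_univ, true_and]
      right; omega

theorem hEnds_card {n : ℕ} (e : Edge n) : (hEnds e).card = 2 := by
  unfold hEnds
  rw [card_pair]
  rcases e with ⟨i, j⟩ | ⟨i, j⟩
  · simp only [tl, hd, ne_eq, Prod.mk.injEq, true_and]
    intro h
    have := congrArg Fin.val h
    simp at this
  · simp only [tl, hd, ne_eq, Prod.mk.injEq, and_true]
    intro h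
    have := congrArg Fin.val h
    simp at this

theorem card_Edge (n : ℕ) : Fintype.card (Edge n) = 2 * n * (n + 1) := by
  simp [Edge]; ring

theorem card_HV (n : ℕ) : Fintype.card (HV n) = (n + 1) * (n + 1) := by
  simp [HV]

theorem card_Site (n : ℕ) : Fintype.card (Site n) = n * n := by
  simp [Site]

theorem conn_card_ge {n : ℕ} (A : Finset (Edge n)) (h : Conn gEnds univ A) :
    n * n ≤ A.card := by
  have h1 := card_le_of_conn gEnds univ A h
  rw [card_univ, card_Site] at h1
  exact h1.trans (card_filter_le _ _)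

open Classical in
/-- The power series identity. -/
theorem ps_identity (n : ℕ) :
    ∑ η ∈ recFin n, (1 + PowerSeries.X : PowerSeries ℝ) ^ (total η) =
      (1 + PowerSeries.X) ^ (mI n) * PowerSeries.mk (fun k => Zc (hEnds (n := n)) (oo n) k) := by
  have h := merino (gEnds (n := n)) card_gEnds_le univ univ (fun e _ => mem_univ e)
    (PowerSeries.X : PowerSeries ℝ)
  rw [recG_gEnds, card_univ, card_Site] at h
  -- rewrite the right side
  have hT : ∀ A : Finset (Edge n), Touch gEnds univ A := by
    intro A e _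
    rw [inter_univ]
    exact gEnds_nonempty e
  have hR : ∑ A ∈ (univ : Finset (Edge n)).powerset.filter
      (fun A => Touch gEnds univ A ∧ Conn gEnds univ A), (PowerSeries.X : PowerSeries ℝ) ^ A.card =
      PowerSeries.X ^ (n * n) * PowerSeries.mk (fun k => Zc (hEnds (n := n)) (oo n) k) := by
    have h1 : ∀ A ∈ (univ : Finset (Edge n)).powerset.filter
      (fun A => Touch gEnds univ A ∧ Conn gEnds univ A), (PowerSeries.X : PowerSeries ℝ) ^ A.card =
        PowerSeries.X ^ (n * n) * PowerSeries.X ^ (A.card - n * n) := by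
      intro A hA
      rw [mem_filter] at hA
      rw [← pow_add, Nat.add_sub_cancel' (conn_card_ge A hA.2.2)]
    rw [sum_congr rfl h1, ← mul_sum]
    congr 1
    ext k
    rw [PowerSeries.coeff_mk, map_sum]
    simp_rw [PowerSeries.coeff_X_pow]
    rw [sum_boole, ← card_acyc (hEnds (n := n)) hEnds_card (oo n) k]
    norm_cast
    apply card_bij (fun A _ => Aᶜ)
    · intro A hA
      rw [mem_filter, mem_filter] at hA
      rw [mem_filter]
      have h2 := conn_card_ge A hA.1.2.2
      refine ⟨mem_univ _, (conn_iff_acyc A).1 hA.1.2.2, ?_⟩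
      rw [card_compl, card_Edge, card_HV]
      have h3 := card_le_univ A
      rw [card_Edge] at h3
      have h4 := hA.2
      have h5 : 2 * n * (n + 1) = n * n + n * n + 2 * n := by ring
      have h6 : (n + 1) * (n + 1) = n * n + 2 * n + 1 := by ring
      rw [h5] at h3 ⊢
      rw [h6]
      generalize n * n = m at *
      omega
    · intro A _ B _ hAB
      exact compl_injective hAB
    · intro B hB
      rw [mem_filter] at hB
      refine ⟨Bᶜ, ?_, compl_compl B⟩
      have hc : Conn gEnds univ Bᶜ := by
        rw [conn_iff_acyc, compl_compl]; exact hB.2.1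
      rw [mem_filter, mem_filter]
      refine ⟨⟨mem_powerset.2 (subset_univ _), hT _, hc⟩, ?_⟩
      have h2 := conn_card_ge _ hc
      have h3 := hB.2.2
      have h4 := card_le_univ B
      rw [card_compl, card_Edge] at h2 ⊢
      rw [card_Edge] at h4
      rw [card_HV] at h3
      have h5 : 2 * n * (n + 1) = n * n + n * n + 2 * n := by ring
      have h6 : (n + 1) * (n + 1) = n * n + 2 * n + 1 := by ring
      rw [h5] at h2 h4 ⊢
      rw [h6] at h3
      generalize n * n = m at *
      omega
  have hX : (PowerSeries.X : PowerSeries ℝ) ^ (n * n) ≠ 0 := pow_ne_zero _ PowerSeries.X_ne_zero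
  apply mul_left_cancel₀ hX
  calc (PowerSeries.X : PowerSeries ℝ) ^ (n * n) * ∑ η ∈ recFin n, (1 + PowerSeries.X) ^ (total η)
      = (1 + PowerSeries.X) ^ (mI n) * ∑ A ∈ (univ : Finset (Edge n)).powerset.filter
          (fun A => Touch gEnds univ A ∧ Conn gEnds univ A),
            (PowerSeries.X : PowerSeries ℝ) ^ A.card := h
    _ = _ := by rw [hR]; ring

end SND
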