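import Pool.Agent.SND.Z2
import Pool.Agent.SND.D1
import Pool.Agent.SND.D2
import Pool.Agent.SND.D4a
import Pool.Agent.SND.D4b
import Pool.Agent.SND.I5a
import Pool.Agent.SND.I5b
import Pool.Agent.SND.I5c

open Finset

namespace SND

theorem tl_ne_hd {n : ℕ} (e : Edge n) : tl e ≠ hd e := by
  intro h
  have := hEnds_card e
  unfold hEnds at this
  rw [h] at this
  simp at this

/-- The determinant of the reduced Laplacian. -/
noncomputable def c0 (n : ℕ) : ℝ := (sub (lap (hEnds (n := n)) univ) (univ.erase (oo n))).det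

theorem Zc_eq (n k : ℕ) : Zc (hEnds (n := n)) (oo n) k =
    c0 n * Zk (hEnds (n := n)) (oo n) (GG n) k := by
  unfold Zc Zk c0
  rw [mul_sum]
  apply sum_congr rfl
  intro p hp
  have hm : IsMark (hEnds (n := n)) (oo n) p.1 p.2 := by
    simp only [marks, mem_filter] at hp; exact hp.2.1
  have ho := (card_mverts (hEnds (n := n)) hEnds_card (oo n) p.1 p.2 hm).2
  rw [det_sub_eq (lap (hEnds (n := n)) univ) (GG n) (oo n) ?_ _ ho]
  · ring
  · intro x y hx hy
    have h1 := lap_apply n (fun w => GG n w y) x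
    have h2 := GG_lap n x y
    rw [if_neg hx, sub_zero] at h2
    rw [h2] at h1
    rw [← h1, ← add_sum_erase univ _ (mem_univ (oo n)), (GG_symm n).2 y]
    simp

theorem Zk_zero (n : ℕ) : Zk (hEnds (n := n)) (oo n) (GG n) 0 = 1 := by
  classical
  unfold Zk
  have : marks (hEnds (n := n)) (oo n) 0 = {(∅, ∅)} := by
    ext p
    simp only [marks, mem_filter, mem_univ, true_and, mem_singleton, Nat.add_eq_zero_iff,
      card_eq_zero]
    constructor
    · rintro ⟨_, h1, h2⟩
      exact Prod.ext h1 h2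
    · rintro rfl
      refine ⟨⟨by simp, by simp, by simp⟩, rfl, rfl⟩
  rw [this, sum_singleton]
  simp only [card_empty, pow_zero, one_mul]
  have hE : IsEmpty (mverts (hEnds (n := n)) (∅ : Finset (HV n)) (∅ : Finset (Edge n))) := by
    refine ⟨?_⟩
    rintro ⟨x, hx⟩
    simp [mverts] at hx
  exact Matrix.det_isEmpty

theorem card_rec (n : ℕ) : ((recFin n).card : ℝ) = c0 n := by
  have h := congrArg (PowerSeries.constantCoeff (R := ℝ)) (ps_identity n)
  rw [map_sum, map_mul, map_pow] at h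
  simp only [map_pow, map_add, map_one, PowerSeries.constantCoeff_X, add_zero, one_pow, sum_const,
    nsmul_eq_mul, mul_one, one_mul] at h
  rw [h, ← PowerSeries.coeff_zero_eq_constantCoeff_apply, PowerSeries.coeff_mk, Zc_eq, Zk_zero,
    mul_one]

theorem ps_final (n : ℕ) :
    ∑ η ∈ recFin n, (1 + PowerSeries.X : PowerSeries ℝ) ^ (total η) =
      PowerSeries.C ((recFin n).card : ℝ) * (1 + PowerSeries.X) ^ (mI n) *
        PowerSeries.mk (fun k => Zk (hEnds (n := n)) (oo n) (GG n) k) := by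
  rw [ps_identity, card_rec]
  have : PowerSeries.mk (fun k => Zc (hEnds (n := n)) (oo n) k) =
      PowerSeries.C (c0 n) * PowerSeries.mk (fun k => Zk (hEnds (n := n)) (oo n) (GG n) k) := by
    ext k
    rw [PowerSeries.coeff_mk, PowerSeries.coeff_C_mul, PowerSeries.coeff_mk, Zc_eq]
  rw [this]; ring

theorem Zk_mu (n k : ℕ) : (k.factorial : ℝ) * Zk (hEnds (n := n)) (oo n) (GG n) k =
    ∑ i ∈ range (k + 1), (k.choose i : ℝ) * Cst tl hd (GG n) ^ (k - i) * (-1) ^ i *
      mu (kern tl hd (GG n)) i := by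
  obtain ⟨l, hl⟩ := exists_isFun (GG n)
  have h1 := Zk_eq (tl (n := n)) hd tl_ne_hd (oo n) (GG n) (GG_symm n).2 l hl k
  have h2 : (fun e : Edge n => ({tl e, hd e} : Finset (HV n))) = hEnds := rfl
  rw [h2] at h1
  rw [h1, isFun_pow_eq tl hd (oo n) (GG n) (GG_symm n).2 ?_ l hl k]
  · rw [sub_eq_neg_add, add_pow, map_sum]
    apply sum_congr rfl
    intro i _
    have h3 : (-UU (tl (n := n)) hd (GG n)) ^ i * (MvPolynomial.C (Cst tl hd (GG n))) ^ (k - i) *
        ((k.choose i : ℕ) : MvPolynomial (HV n) ℝ) =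
        ((k.choose i : ℝ) * Cst tl hd (GG n) ^ (k - i) * (-1) ^ i) • (UU tl hd (GG n)) ^ i := by
      rw [MvPolynomial.smul_eq_C_mul, neg_pow]
      simp only [map_mul, map_pow, map_natCast, map_neg, map_one]
      ring
    rw [h3, map_smul, isFun_UU tl hd (GG n) (GG_symm n).1 l hl i, smul_eq_mul]
  · intro u hu
    have h2 := GG_lap n u u
    rw [if_pos rfl, if_neg hu, sub_zero] at h2
    rw [← h2]
    apply sum_congr rfl
    intro e _
    congr 1
    · by_cases h : tl e = u
      · rw [if_pos h, if_pos h, ← h, (GG_symm n).1 (hd e) (tl e)]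
      · rw [if_neg h, if_neg h]
    · by_cases h : hd e = u
      · rw [if_pos h, if_pos h, ← h]
      · rw [if_neg h, if_neg h]

theorem mu_zero {E : Type} [Fintype E] (K : Kern E) : mu K 0 = 1 := by
  unfold mu Dm
  rw [Fintype.sum_unique]
  exact Matrix.det_isEmpty

end SND
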