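import Pool.Agent.SND.F4b
import Pool.Agent.SND.F9

open Finset Equiv

namespace SND

variable {E : Type} [Fintype E] {K : Kern E} {w : E → E → ℝ} {wo wb : E → ℝ} {q Λ : ℝ}

open Classical in
theorem Kk_eq (K : Kern E) (k : ℕ) :
    Kk K k = ∑ σ ∈ (univ : Finset (Perm (Fin k × Fin 2))).filter Cn,
      ((Perm.sign σ : ℤ) : ℝ) * FF K σ := by
  unfold Kk Dc FF
  rw [sum_comm]
  apply sum_congr rfl
  intro σ _
  rw [mul_sum]

theorem abs_sign {α : Type} [Fintype α] [DecidableEq α] (σ : Perm α) :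
    |((Perm.sign σ : ℤ) : ℝ)| = 1 := by
  rcases Int.units_eq_one_or (Perm.sign σ) with h | h <;> simp [h]

/-- the second cumulant -/
theorem Kk_two (hE : Est K w wo wb q Λ) :
    |Kk K 2| ≤ 24 * (4 ^ 2 * Λ ^ 6 * q ^ 4) := by
  classical
  rw [Kk_eq]
  refine (abs_sum_le_sum_abs _ _).trans ?_
  have h1 : ∀ σ ∈ (univ : Finset (Perm (Fin 2 × Fin 2))).filter Cn,
      |((Perm.sign σ : ℤ) : ℝ) * FF K σ| ≤ 4 ^ 2 * Λ ^ 6 * q ^ 4 := by
    intro σ hσ
    rw [mem_filter] at hσ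
    rw [abs_mul, abs_sign, one_mul]
    have := sum_abs_PP_le hE (ι := Fin 2) (by simp) σ hσ.2
    rw [Fintype.card_fin] at this
    exact (abs_sum_le_sum_abs _ _).trans this
  refine (sum_le_sum h1).trans ?_
  rw [sum_const, nsmul_eq_mul]
  have hq := hE.one_le_q
  have hL := hE.one_le_L
  apply mul_le_mul_of_nonneg_right _ (by positivity)
  have h2 : ((univ : Finset (Perm (Fin 2 × Fin 2))).filter Cn).card ≤ 24 := by
    refine (card_filter_le _ _).trans ?_
    rw [card_univ, Fintype.card_perm]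
    simp
    decide
  exact_mod_cast h2

/-- the higher cumulants -/
theorem Kk_high (hE : Est K w wo wb q Λ) (k : ℕ) (hk : 3 ≤ k) :
    |Kk K k| ≤ 44 * ((2 * k).factorial : ℝ) * 4 ^ k * Λ ^ (3 * k + 2) * q ^ (2 * k - 1) := by
  classical
  have hq := hE.one_le_q
  have hL := hE.one_le_L
  have hsplit : (univ : Finset (Perm (Fin k × Fin 2))).filter Cn =
      (univ : Finset (Perm (Fin k × Fin 2))).filter (fun σ => Cn σ ∧ FPs σ) ∪
      (univ : Finset (Perm (Fin k × Fin 2))).filter (fun σ => Cn σ ∧ ¬ FPs σ) := by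
    ext σ
    simp only [mem_filter, mem_univ, true_and, mem_union]
    tauto
  have hdis : Disjoint ((univ : Finset (Perm (Fin k × Fin 2))).filter (fun σ => Cn σ ∧ FPs σ))
      ((univ : Finset (Perm (Fin k × Fin 2))).filter (fun σ => Cn σ ∧ ¬ FPs σ)) := by
    rw [disjoint_left]
    intro σ h1 h2
    rw [mem_filter] at h1 h2
    exact h2.2.2 h1.2.2
  rw [Kk_eq, hsplit, sum_union hdis]
  refine (abs_add_le _ _).trans ?_
  have h1 := sum_FPs_le hE (ι := Fin k) (by simpa using hk)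
  rw [Fintype.card_fin] at h1
  have h2 : |∑ σ ∈ (univ : Finset (Perm (Fin k × Fin 2))).filter (fun σ => Cn σ ∧ ¬ FPs σ),
      ((Perm.sign σ : ℤ) : ℝ) * FF K σ| ≤ ((2 * k).factorial : ℝ) *
        (8 * 4 ^ k * Λ ^ (3 * k) * q ^ (2 * k - 1)) := by
    refine (abs_sum_le_sum_abs _ _).trans ?_
    have h3 : ∀ σ ∈ (univ : Finset (Perm (Fin k × Fin 2))).filter (fun σ => Cn σ ∧ ¬ FPs σ),
        |((Perm.sign σ : ℤ) : ℝ) * FF K σ| ≤ 8 * 4 ^ k * Λ ^ (3 * k) * q ^ (2 * k - 1) := by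
      intro σ hσ
      rw [mem_filter] at hσ
      rw [abs_mul, abs_sign, one_mul]
      have := sum_abs_PP_gain hE (ι := Fin k) (by simp; omega) σ hσ.2.1 hσ.2.2
      rw [Fintype.card_fin] at this
      exact (abs_sum_le_sum_abs _ _).trans this
    refine (sum_le_sum h3).trans ?_
    rw [sum_const, nsmul_eq_mul]
    apply mul_le_mul_of_nonneg_right _ (by positivity)
    have h4 : ((univ : Finset (Perm (Fin k × Fin 2))).filter
        (fun σ => Cn σ ∧ ¬ FPs σ)).card ≤ (2 * k).factorial := by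
      refine (card_filter_le _ _).trans ?_
      rw [card_univ, Fintype.card_perm, Fintype.card_prod, Fintype.card_fin, Fintype.card_fin,
        mul_comm]
    exact_mod_cast h4
  refine (add_le_add h1 h2).trans ?_
  have hp1 : q ^ (2 * k - 2) ≤ q ^ (2 * k - 1) := pow_le_pow_right₀ hq (by omega)
  have hp2 : Λ ^ (3 * k) ≤ Λ ^ (3 * k + 2) := pow_le_pow_right₀ hL (by omega)
  have hf : (0 : ℝ) ≤ ((2 * k).factorial : ℝ) := by positivity
  calc 2 * ((2 * k).factorial : ℝ) * (18 * 4 ^ k * Λ ^ (3 * k + 2) * q ^ (2 * k - 2)) +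
        ((2 * k).factorial : ℝ) * (8 * 4 ^ k * Λ ^ (3 * k) * q ^ (2 * k - 1))
      ≤ 2 * ((2 * k).factorial : ℝ) * (18 * 4 ^ k * Λ ^ (3 * k + 2) * q ^ (2 * k - 1)) +
        ((2 * k).factorial : ℝ) * (8 * 4 ^ k * Λ ^ (3 * k + 2) * q ^ (2 * k - 1)) := by
        gcongr
    _ = 44 * ((2 * k).factorial : ℝ) * 4 ^ k * Λ ^ (3 * k + 2) * q ^ (2 * k - 1) := by ring

end SND
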