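import Pool.Agent.SND.Z3
import Pool.Agent.SND.I6c
import Pool.Agent.SND.I6d
import Pool.Agent.SND.I6e
import Pool.Agent.SND.I7a
import Pool.Agent.SND.I7b
import Pool.Agent.SND.I7c

open Finset

namespace SND

/-- the logarithmic factor -/
noncomputable def LL (n : ℕ) : ℝ := 200000 * (1 + Real.log (2 * (n + 1))) ^ 2

theorem log_ge (n : ℕ) : 0 ≤ Real.log (2 * ((n : ℝ) + 1)) := by
  apply Real.log_nonneg
  have : (0 : ℝ) ≤ n := Nat.cast_nonneg n
  linarith

theorem log_le (n : ℕ) : Real.log ((n : ℝ) + 1) ≤ Real.log (2 * ((n : ℝ) + 1)) := by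
  have : (0 : ℝ) ≤ n := Nat.cast_nonneg n
  apply Real.log_le_log <;> linarith

theorem log_ge' (n : ℕ) : 0 ≤ Real.log ((n : ℝ) + 1) := by
  have : (0 : ℝ) ≤ n := Nat.cast_nonneg n
  apply Real.log_nonneg
  linarith

theorem est (n : ℕ) : Est (KN n) wN woN wbN (Real.sqrt (n + 1)) (LL n) := by
  have hn : (0 : ℝ) ≤ n := Nat.cast_nonneg n
  have hq2 : Real.sqrt ((n : ℝ) + 1) ^ 2 = n + 1 := Real.sq_sqrt (by linarith)
  have hq4 : Real.sqrt ((n : ℝ) + 1) ^ 4 = (n + 1) ^ 2 := by
    rw [show (4 : ℕ) = 2 * 2 by norm_num, pow_mul, hq2]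
  set L := 1 + Real.log (2 * ((n : ℝ) + 1)) with hL
  have hL1 : 1 ≤ L := by have := log_ge n; linarith
  have hH1 : 0 ≤ Real.log ((n : ℝ) + 1) := log_ge' n
  have hHL : 1 + Real.log ((n : ℝ) + 1) ≤ L := by have := log_le n; linarith
  have hLL : LL n = 200000 * L ^ 2 := rfl
  have hb : 2000 * L ≤ LL n := by rw [hLL]; nlinarith
  have hL0 : 0 ≤ LL n := by rw [hLL]; positivity
  have hs1 : 100 * (1 + Real.log ((n : ℝ) + 1)) * (n + 1) ≤ LL n * Real.sqrt ((n : ℝ) + 1) ^ 2 := by
    rw [hq2]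
    apply mul_le_mul_of_nonneg_right _ (by linarith)
    nlinarith
  have hs2 : 100 * (1 + Real.log ((n : ℝ) + 1)) ^ 2 ≤ LL n := by
    rw [hLL]
    have : (1 + Real.log ((n : ℝ) + 1)) ^ 2 ≤ L ^ 2 := by
      apply pow_le_pow_left₀ (by linarith) hHL
    nlinarith
  obtain ⟨p1, p2, p3, p4, p5, p6, p7⟩ := w_pointwise n
  obtain ⟨s1, s2, s3, s4, s5, s6, s7⟩ := w_sums n
  refine
    { one_le_q := Real.one_le_sqrt.2 (by linarith)
      one_le_L := by rw [hLL]; nlinarith
      w_pos := p1
      w_le := p2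
      w_symm := p3
      w_tri := p4
      wo_nonneg := p5
      wo_le := p6
      wb_nonneg := p7
      card_le := by
        rw [card_Edge, hq4]
        push_cast
        have h1 : (2 : ℝ) ≤ LL n := by rw [hLL]; nlinarith
        nlinarith [mul_nonneg hn hn,
          mul_le_mul_of_nonneg_right h1 (by positivity : (0 : ℝ) ≤ ((n : ℝ) + 1) ^ 2)]
      sum_w := fun f => (s1 f).trans hs1
      sum_wo := s2.trans hs1
      sum_wb := s3.trans hs1
      sum_ww := fun f => (s4 f).trans hs2
      sum_wwb := fun f => (s5 f).trans hs2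
      sum_wowo := s6.trans hs2
      sum_wowb := s7.trans hs2
      a_symm := ?_
      d_symm := ?_
      a_le := fun e f => (ab_bounds n e e f).1.trans hb
      b_le := fun e f => ?_
      d_le := fun e f => ?_
      g_le := fun e => (gh_bounds n e e).1.trans hb
      h_le := fun e => ?_
      a_lip := fun e e' f => ?_
      g_lip := fun e e' => ?_
      ward := fun e => ?_ }
  · intro e f
    simp only [KN, kern]
    rw [(GG_symm n).1 (tl e) (tl f), (GG_symm n).1 (tl e) (hd f), (GG_symm n).1 (hd e) (tl f),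
      (GG_symm n).1 (hd e) (hd f)]
    ring
  · intro e f
    simp only [KN, kern]
    rw [(GG_symm n).1 (tl e) (tl f), (GG_symm n).1 (tl e) (hd f), (GG_symm n).1 (hd e) (tl f),
      (GG_symm n).1 (hd e) (hd f)]
    ring
  · refine (ab_bounds n e e f).2.1.trans ?_
    apply mul_le_mul_of_nonneg_right hb
    have := (p1 e f).le
    have := p5 f
    linarith
  · refine (d_bound n e f).trans ?_
    apply mul_le_mul_of_nonneg_right _ (by positivity)
    linarith
  · refine (gh_bounds n e e).2.1.trans ?_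
    apply mul_le_mul_of_nonneg_right hb
    have := p7 e
    have := p5 e
    linarith
  · refine (ab_bounds n e e' f).2.2.trans ?_
    have h1 := (p1 e f).le
    have h2 := p5 e
    have h3 := (inv_pos.2 (p1 e e')).le
    gcongr
  · refine (gh_bounds n e e').2.2.trans ?_
    have h1 := p7 e
    have h2 := p5 e
    have h3 := (inv_pos.2 (p1 e e')).le
    gcongr
  · exact ward_identity tl hd (oo n) (GG n) (GG_symm n).1 (GG_symm n).2 (GG_lap n) e

end SND
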