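import Pool.Agent.SND.Z4
import Pool.Agent.SND.Z5
import Pool.Agent.SND.A1
import Pool.Agent.SND.A2
import Pool.Agent.SND.G2
import Pool.Agent.SND.G3a
import Pool.Agent.SND.G3b
import Pool.Agent.SND.G3c
import Pool.Agent.SND.H4

open Finset MeasureTheory ProbabilityTheory Filter Topology

namespace SND

theorem recSet_eq (n : ℕ) : recSet n = ((recFin n : Finset (Config n)) : Set (Config n)) := by
  ext η
  simp only [recSet, Set.mem_setOf_eq, recFin, coe_filter, Fintype.mem_piFinset, mem_range]
  constructor
  · intro h
    refine ⟨fun v => ?_, noFSC_of_recurrent h⟩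
    have := h.1 v
    omega
  · rintro ⟨h1, h2⟩
    refine recurrent_of_noFSC (fun v => ?_) h2
    have := h1 v
    omega

/-- Every finite nonempty set of sites has a site with at most three neighbours in the set. -/
theorem three_mem (n : ℕ) : (fun _ => 3 : Config n) ∈ recFin n := by
  classical
  simp only [recFin, mem_filter, Fintype.mem_piFinset, mem_range]
  refine ⟨fun _ => by norm_num, ?_⟩
  intro X hX
  obtain ⟨v, hv, hmin⟩ := exists_min_image X (fun u => (u.1 : ℕ)) hX
  refine ⟨v, hv, ?_⟩
  -- neighbours: (v.1+1, v.2), (v.1, v.2+1), (v.1, v.2-1)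
  have hinj : (X.filter (fun u => Adj v u)).card ≤ (range 3).card := by
    apply card_le_card_of_injOn (fun u => if (u.1 : ℕ) = v.1 then
      (if (v.2 : ℕ) + 1 = u.2 then 0 else 1) else 2)
    · intro u _
      simp only [coe_range, Set.mem_Iio]
      split_ifs <;> norm_num
    · intro u hu u' hu' h
      rw [mem_coe, mem_filter] at hu hu'
      have m1 := hmin u hu.1
      have m2 := hmin u' hu'.1
      have a1 := hu.2
      have a2 := hu'.2
      unfold Adj at a1 a2
      simp only at h m1 m2
      have e1 : ∀ x y : Fin n, x = y ↔ (x : ℕ) = y := fun x y => Fin.ext_iff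
      rw [e1, e1] at a1 a2
      rw [Prod.ext_iff, e1, e1]
      constructor
      · split_ifs at h <;> omega
      · split_ifs at h <;> omega
  simpa using hinj

theorem recFin_nonempty (n : ℕ) : (recFin n).Nonempty := ⟨_, three_mem n⟩

instance instProb (n : ℕ) : IsProbabilityMeasure (uniformOn (recSet n)) := by
  rw [recSet_eq]
  exact isProbabilityMeasure_uniformOn (finite_toSet _) (recFin_nonempty n)

theorem integral_uniformOn_finset {Ω : Type} [MeasurableSpace Ω] [MeasurableSingletonClass Ω]
    (R : Finset Ω) (f : Ω → ℝ) :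
    ∫ ω, f ω ∂(uniformOn (R : Set Ω)) = (∑ ω ∈ R, f ω) / R.card := by
  unfold uniformOn ProbabilityTheory.cond
  rw [integral_smul_measure, integral_finset]
  · simp only [Measure.real, Measure.count_singleton, ENNReal.toReal_one, one_smul]
    rw [Measure.count_apply_finset, ENNReal.toReal_inv, ENNReal.toReal_natCast, smul_eq_mul]
    ring
  · have h : (R : Set Ω) = ⋃ i ∈ R, {i} := by
      ext x; simp
    rw [h, integrableOn_finset_iUnion]
    intro i _
    rw [integrableOn_singleton_iff]
    right
    rw [Measure.count_singleton]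
    exact ENNReal.one_lt_top

end SND
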