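import Pool.Agent.SND.Z6
import Pool.Agent.SND.E3

open Finset MeasureTheory ProbabilityTheory Filter Topology

namespace SND

/-- log factors are negligible -/
theorem LL_tendsto (m : ℕ) (c : ℝ) :
    Tendsto (fun n : ℕ => c * LL n ^ m / Real.sqrt (n + 1)) atTop (𝓝 0) := by
  have h1 : Tendsto (fun n : ℕ => 2 * ((n : ℝ) + 1)) atTop atTop := by
    apply Tendsto.const_mul_atTop (by norm_num)
    exact tendsto_atTop_add_const_right _ _ tendsto_natCast_atTop_atTop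
  have h2 := (isLittleO_log_rpow_rpow_atTop (2 * m : ℝ) (s := 1 / 2) (by norm_num)).comp_tendsto h1
  have h3 := h2.tendsto_div_nhds_zero
  -- bound
  have h4 : Tendsto (fun n : ℕ => |c| * 200000 ^ m * 2 ^ (2 * m) * 2 *
      (Real.log (2 * ((n : ℝ) + 1)) ^ (2 * m : ℝ) / (2 * ((n : ℝ) + 1)) ^ (1 / 2 : ℝ))) atTop
      (𝓝 0) := by
    have := h3.const_mul (|c| * 200000 ^ m * 2 ^ (2 * m) * 2)
    rw [mul_zero] at this
    exact this
  apply squeeze_zero_norm' _ h4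
  have h5 : ∀ᶠ n : ℕ in atTop, Real.exp 1 ≤ 2 * ((n : ℝ) + 1) := h1.eventually_ge_atTop _
  filter_upwards [h5] with n hn
  have hn0 : (0 : ℝ) ≤ n := Nat.cast_nonneg n
  have hlog : 1 ≤ Real.log (2 * ((n : ℝ) + 1)) := by
    rw [Real.le_log_iff_exp_le (by linarith)]
    exact hn
  set x := Real.log (2 * ((n : ℝ) + 1)) with hx
  rw [Real.norm_eq_abs, abs_div, abs_mul]
  have hs : 0 < Real.sqrt ((n : ℝ) + 1) := Real.sqrt_pos.2 (by linarith)
  rw [abs_of_pos hs]
  have e1 : |LL n ^ m| ≤ 200000 ^ m * 2 ^ (2 * m) * x ^ (2 * m) := by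
    have : LL n = 200000 * (1 + x) ^ 2 := rfl
    rw [this, abs_of_nonneg (by positivity), mul_pow, ← pow_mul, mul_assoc, ← mul_pow]
    apply mul_le_mul_of_nonneg_left _ (by positivity)
    apply pow_le_pow_left₀ (by linarith)
    linarith
  have e2 : (2 * ((n : ℝ) + 1)) ^ (1 / 2 : ℝ) ≤ 2 * Real.sqrt ((n : ℝ) + 1) := by
    rw [← Real.sqrt_eq_rpow, Real.sqrt_mul (by norm_num)]
    apply mul_le_mul_of_nonneg_right _ hs.le
    rw [Real.sqrt_le_left (by norm_num)]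
    norm_num
  have e3 : x ^ (2 * m : ℝ) = x ^ (2 * m) := by
    rw [← Real.rpow_natCast]; push_cast; rfl
  rw [e3]
  have e4 : 0 < (2 * ((n : ℝ) + 1)) ^ (1 / 2 : ℝ) := Real.rpow_pos_of_pos (by linarith) _
  rw [div_le_iff₀ hs]
  have e5 : |c| * 200000 ^ m * 2 ^ (2 * m) * 2 * (x ^ (2 * m) / (2 * ((n : ℝ) + 1)) ^ (1 / 2 : ℝ)) *
      Real.sqrt ((n : ℝ) + 1) = |c| * (200000 ^ m * 2 ^ (2 * m) * x ^ (2 * m)) *
        (2 * Real.sqrt ((n : ℝ) + 1) / (2 * ((n : ℝ) + 1)) ^ (1 / 2 : ℝ)) := by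
    field_simp
  rw [e5]
  have e6 : 1 ≤ 2 * Real.sqrt ((n : ℝ) + 1) / (2 * ((n : ℝ) + 1)) ^ (1 / 2 : ℝ) := by
    rw [le_div_iff₀ e4, one_mul]; exact e2
  calc |c| * |LL n ^ m| ≤ |c| * (200000 ^ m * 2 ^ (2 * m) * x ^ (2 * m)) := by
        apply mul_le_mul_of_nonneg_left e1 (abs_nonneg _)
    _ ≤ _ := le_mul_of_one_le_right (by positivity) e6

/-- The cumulants exist and are small. -/
theorem kappa_exists : ∃ κ : ℕ → ℕ → ℝ, (∀ n k,
    (∑ η ∈ recFin n, (total η : ℝ) ^ (k + 1)) / (recFin n).card =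
      ∑ j ∈ range (k + 1), (k.choose j : ℝ) * κ n (j + 1) *
        ((∑ η ∈ recFin n, (total η : ℝ) ^ (k - j)) / (recFin n).card)) ∧
    ∀ k, 3 ≤ k → ∃ C : ℝ, 0 ≤ C ∧ ∀ n, |κ n k| ≤
      C * LL n ^ (3 * k + 2) * Real.sqrt (n + 1) ^ (2 * k - 1) := by
  obtain ⟨A, hA0, hA⟩ := cumulants_exist
  have h1 : ∀ n, ∃ κ : ℕ → ℝ,
        (∀ k, (∑ ω ∈ recFin n, (total ω : ℝ) ^ (k + 1)) / (recFin n).card =
          ∑ j ∈ range (k + 1), (k.choose j : ℝ) * κ (j + 1) *
            ((∑ ω ∈ recFin n, (total ω : ℝ) ^ (k - j)) / (recFin n).card)) ∧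
        ∀ k, 2 ≤ k → |κ k| ≤ A k * (|κ 1 - mI n| + ∑ j ∈ Icc 2 k, |Kk (KN n) j|) := by
    intro n
    exact hA (Config n) (recFin n) total (mI n) _ (mu (KN n)) (Kk (KN n)) (Cst tl hd (GG n))
      (recFin_nonempty n) (ps_final n) (Zk_mu n) (mu_zero _) (mu_succ _)
  choose κ hκ1 hκ2 using h1
  refine ⟨κ, hκ1, ?_⟩
  intro k hk
  refine ⟨A k * (5 + ∑ j ∈ Icc 2 k, (384 + 44 * ((2 * j).factorial : ℝ) * 4 ^ j)), ?_, ?_⟩
  · have := hA0 k
    positivity
  intro n
  have hn0 : (0 : ℝ) ≤ n := Nat.cast_nonneg n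
  have hE := est n
  have hq := hE.one_le_q
  have hL := hE.one_le_L
  refine (hκ2 n k (by omega)).trans ?_
  rw [mul_assoc, mul_assoc]
  apply mul_le_mul_of_nonneg_left _ (hA0 k)
  rw [add_mul, sum_mul]
  have hq2 : Real.sqrt ((n : ℝ) + 1) ^ 2 = n + 1 := Real.sq_sqrt (by linarith)
  have hq4 : Real.sqrt ((n : ℝ) + 1) ^ 4 = (n + 1) ^ 2 := by
    rw [show (4 : ℕ) = 2 * 2 by norm_num, pow_mul, hq2]
  set q := Real.sqrt ((n : ℝ) + 1)
  apply add_le_add
  · -- mean bound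
    have hcard : (0 : ℝ) < (recFin n).card := by
      exact_mod_cast card_pos.2 (recFin_nonempty n)
    have hmean := hκ1 n 0
    simp only [zero_add, pow_one, range_one, sum_singleton, Nat.choose_self, Nat.cast_one, one_mul,
      Nat.sub_self, pow_zero, sum_const, nsmul_eq_mul, mul_one] at hmean
    rw [div_self hcard.ne', mul_one] at hmean
    have hk0 : 0 ≤ κ n 1 := by
      rw [← hmean]; positivity
    have hk1 : κ n 1 ≤ 3 * (n : ℝ) ^ 2 := by
      rw [← hmean, div_le_iff₀ hcard]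
      have : ∀ η ∈ recFin n, (total η : ℝ) ≤ 3 * (n : ℝ) ^ 2 := by
        intro η hη
        have hη' : ∀ v, η v ≤ 3 := by
          intro v
          simp only [recFin, mem_filter, Fintype.mem_piFinset, mem_range] at hη
          have := hη.1 v
          omega
        have h3 : total η ≤ 3 * n ^ 2 := by
          unfold total
          calc ∑ v, η v ≤ ∑ _v : Site n, 3 := sum_le_sum (fun v _ => hη' v)
            _ = 3 * n ^ 2 := by simp [Site]; ring
        exact_mod_cast h3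
      refine (sum_le_sum this).trans ?_
      rw [sum_const, nsmul_eq_mul, mul_comm]
    have hm : (mI n : ℝ) ≤ 2 * n * (n + 1) := by
      have : mI n ≤ 2 * n * (n + 1) := by
        unfold mI
        refine (card_filter_le _ _).trans ?_
        rw [card_univ, card_Edge]
      exact_mod_cast this
    have hm0 : (0 : ℝ) ≤ mI n := Nat.cast_nonneg _
    have hb : |κ n 1 - mI n| ≤ 5 * q ^ 4 := by
      rw [hq4, abs_le]
      constructor <;> nlinarith
    refine hb.trans ?_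
    apply mul_le_mul_of_nonneg_left _ (by norm_num)
    calc q ^ 4 ≤ q ^ (2 * k - 1) := pow_le_pow_right₀ hq (by omega)
      _ ≤ LL n ^ (3 * k + 2) * q ^ (2 * k - 1) :=
        le_mul_of_one_le_left (by positivity) (one_le_pow₀ hL)
  · apply sum_le_sum
    intro j hj
    rw [mem_Icc] at hj
    rcases Nat.lt_or_ge j 3 with h3 | h3
    · have hj2 : j = 2 := by omega
      subst hj2
      refine (Kk_two hE).trans ?_
      have p1 : LL n ^ 6 ≤ LL n ^ (3 * k + 2) := pow_le_pow_right₀ hL (by omega)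
      have p2 : q ^ 4 ≤ q ^ (2 * k - 1) := pow_le_pow_right₀ hq (by omega)
      calc 24 * (4 ^ 2 * LL n ^ 6 * q ^ 4) = 384 * (LL n ^ 6 * q ^ 4) := by ring
        _ ≤ 384 * (LL n ^ (3 * k + 2) * q ^ (2 * k - 1)) := by gcongr
        _ ≤ _ := by
          apply mul_le_mul_of_nonneg_right _ (by positivity)
          have : (0 : ℝ) ≤ 44 * ((2 * 2).factorial : ℝ) * 4 ^ 2 := by positivity
          linarith
    · refine (Kk_high hE j h3).trans ?_
      have p1 : LL n ^ (3 * j + 2) ≤ LL n ^ (3 * k + 2) := pow_le_pow_right₀ hL (by omega)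
      have p2 : q ^ (2 * j - 1) ≤ q ^ (2 * k - 1) := pow_le_pow_right₀ hq (by omega)
      calc 44 * ((2 * j).factorial : ℝ) * 4 ^ j * LL n ^ (3 * j + 2) * q ^ (2 * j - 1)
          = 44 * ((2 * j).factorial : ℝ) * 4 ^ j * (LL n ^ (3 * j + 2) * q ^ (2 * j - 1)) := by ring
        _ ≤ 44 * ((2 * j).factorial : ℝ) * 4 ^ j * (LL n ^ (3 * k + 2) * q ^ (2 * k - 1)) := by
          gcongr
        _ ≤ _ := by
          apply mul_le_mul_of_nonneg_right _ (by positivity)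
          linarith

end SND
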